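import Mathlib

/-!
# Size: number of values of labels

`Sz n f`: the function `f` of a node (or node and link) and the input takes at most `n` values.
`Sm n a`: the labels of the nonempty items of the array `a` take at most `n` values (an item is a label and possibly a record;
in an array the label `none` means: empty place).
-/

set_option autoImplicit false

namespace Pool.Agent.H31.HS

/-- `f` takes at most `n` values. -/
def Sz (n : ℕ) {I Ω X : Type} (f : I → Ω → X) : Prop := ∃ S : Finset X, S.card ≤ n ∧ ∀ i w, f i w ∈ S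

/-- The labels of the nonempty items take at most `n` values. -/
def Sm (n : ℕ) {I Ω X R : Type} (a : I → Ω → Option X × Option R) : Prop :=
  ∃ S : Finset X, S.card ≤ n ∧ ∀ i w x, (a i w).1 = some x → x ∈ S

theorem Sz.mono {n m : ℕ} {I Ω X : Type} {f : I → Ω → X} (h : Sz n f) (hn : n ≤ m) : Sz m f := by
  obtain ⟨S, h1, h2⟩ := h
  exact ⟨S, h1.trans hn, h2⟩

theorem Sm.mono {n m : ℕ} {I Ω X R : Type} {a : I → Ω → Option X × Option R} (h : Sm n a) (hn : n ≤ m) : Sm m a := by
  obtain ⟨S, h1, h2⟩ := h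
  exact ⟨S, h1.trans hn, h2⟩

theorem Sz.of_range {n : ℕ} {I J Ω X : Type} {f : I → Ω → X} {g : J → Ω → X} (h : Sz n f)
    (hg : ∀ j w, ∃ i w', g j w = f i w') : Sz n g := by
  obtain ⟨S, h1, h2⟩ := h
  refine ⟨S, h1, fun j w => ?_⟩
  obtain ⟨i, w', h3⟩ := hg j w
  rw [h3]
  exact h2 i w'

theorem Sm.of_range {n : ℕ} {I J Ω X R : Type} {a : I → Ω → Option X × Option R} {b : J → Ω → Option X × Option R} (h : Sm n a)
    (hb : ∀ j w, (b j w).1 = none ∨ ∃ i w', b j w = a i w') : Sm n b := by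
  obtain ⟨S, h1, h2⟩ := h
  refine ⟨S, h1, fun j w x hx => ?_⟩
  rcases hb j w with h3 | ⟨i, w', h3⟩
  · rw [h3] at hx
    exact absurd hx (by simp)
  · rw [h3] at hx
    exact h2 i w' x hx

theorem Sz.comp {n : ℕ} {I Ω X Y : Type} {f : I → Ω → X} (h : Sz n f) (g : X → Y) : Sz n (fun i w => g (f i w)) := by
  classical
  obtain ⟨S, h1, h2⟩ := h
  exact ⟨S.image g, Finset.card_image_le.trans h1, fun i w => Finset.mem_image_of_mem g (h2 i w)⟩

theorem Sz.const {n : ℕ} (hn : 1 ≤ n) {I Ω X : Type} (c : X) : Sz n (fun (_ : I) (_ : Ω) => c) :=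
  ⟨{c}, by simpa using hn, fun _ _ => by simp⟩

theorem Sz.nat {n : ℕ} {I Ω : Type} {f : I → Ω → ℕ} (h : ∀ i w, f i w < n) : Sz n f :=
  ⟨Finset.range n, by simp, fun i w => by simpa using h i w⟩

theorem Sz.prod {n m : ℕ} {I Ω X Y : Type} {f : I → Ω → X} {g : I → Ω → Y} (hf : Sz n f) (hg : Sz m g) :
    Sz (n * m) (fun i w => (f i w, g i w)) := by
  obtain ⟨S, h1, h2⟩ := hf
  obtain ⟨T, h3, h4⟩ := hg
  refine ⟨S ×ˢ T, ?_, fun i w => Finset.mem_product.2 ⟨h2 i w, h4 i w⟩⟩
  rw [Finset.card_product]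
  exact Nat.mul_le_mul h1 h3

/-- The labels of an array, the label `none` included. -/
theorem Sm.sz {n : ℕ} {I Ω X R : Type} {a : I → Ω → Option X × Option R} (h : Sm n a) : Sz (n + 1) (fun i w => (a i w).1) := by
  classical
  obtain ⟨S, h1, h2⟩ := h
  refine ⟨insert none (S.image some), ?_, fun i w => ?_⟩
  · refine (Finset.card_insert_le _ _).trans ?_
    have h3 : (S.image some).card ≤ S.card := Finset.card_image_le
    omega
  · rcases h3 : (a i w).1 with _ | x
    · exact Finset.mem_insert.2 (Or.inl h3)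
    · refine Finset.mem_insert_of_mem ?_
      show (a i w).1 ∈ S.image some
      rw [h3]
      exact Finset.mem_image_of_mem some (h2 i w x h3)

theorem Sz.sm {n : ℕ} {I Ω X R : Type} {a : I → Ω → Option X × Option R} (h : Sz n (fun i w => (a i w).1)) : Sm n a := by
  classical
  obtain ⟨S, h1, h2⟩ := h
  refine ⟨S.preimage some (fun x _ y _ h => Option.some.inj h), ?_, fun i w x hx => ?_⟩
  · have h3 : ((S.preimage some (fun x _ y _ h => Option.some.inj h)).image some) ⊆ S := by
      intro y hy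
      obtain ⟨x, hx, rfl⟩ := Finset.mem_image.1 hy
      exact Finset.mem_preimage.1 hx
    have h4 := Finset.card_le_card h3
    rw [Finset.card_image_of_injective _ (Option.some_injective X)] at h4
    exact h4.trans h1
  · rw [Finset.mem_preimage, ← hx]
    exact h2 i w

/-- Items with an additional label. -/
theorem Sm.pair {n m : ℕ} {I Ω X Y R : Type} {a : I → Ω → Option X × Option R} {f : I → Ω → Y} {b : I → Ω → Option (X × Y) × Option R}
    (ha : Sm n a) (hf : Sz m f) (hb : ∀ i w x, (b i w).1 = some x → (a i w).1 = some x.1 ∧ x.2 = f i w) : Sm (n * m) b := by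
  obtain ⟨S, h1, h2⟩ := ha
  obtain ⟨T, h3, h4⟩ := hf
  refine ⟨S ×ˢ T, ?_, fun i w x hx => ?_⟩
  · rw [Finset.card_product]
    exact Nat.mul_le_mul h1 h3
  · obtain ⟨h5, h6⟩ := hb i w x hx
    refine Finset.mem_product.2 ⟨h2 i w _ h5, ?_⟩
    rw [h6]
    exact h4 i w

end Pool.Agent.H31.HS
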