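import Mathlib
import Pool.Agent.H31.HS.Size

/-!
# Mach: abstract machines

`sim P v w w'`: after the plan `P` the node `v` cannot distinguish the inputs `w`, `w'`; `hld P v w r`: `v` holds the record `r`; `lt w` the order of the
records; `own v` a record which `v` always holds.  `Knows`: a function of the input which is constant on the classes of `sim`; `Has`: an item
(label and possibly a record) which is known, and whose record is held.  `Det a b`: the item `b` is determined by the items `a i` and comparisons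
of their records.  `Rounds Lam cls c`: in `c` steps every node gets any item determined by the items of its class (labels with at most `Lam`
values).  `Do c P Φ`: the plan `P` has an extension by at most `c` steps with the property `Φ`.
-/

set_option autoImplicit false

namespace Pool.Agent.H31.HS

structure Mach (V Ω R : Type) where
  Pl : Type
  len : Pl → ℕ
  ext : Pl → Pl → Prop
  sim : Pl → V → Ω → Ω → Prop
  hld : Pl → V → Ω → R → Prop
  lt : Ω → R → R → Prop
  own : V → R
  ext_refl : ∀ P, ext P P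
  ext_trans : ∀ P P' P'', ext P P' → ext P' P'' → ext P P''
  sim_refl : ∀ P v w, sim P v w w
  sim_symm : ∀ P v w w', sim P v w w' → sim P v w' w
  sim_trans : ∀ P v w w' w'', sim P v w w' → sim P v w' w'' → sim P v w w''
  ext_sim : ∀ P P' v w w', ext P P' → sim P' v w w' → sim P v w w'
  ext_hld : ∀ P P' v w r, ext P P' → hld P v w r → hld P' v w r
  hld_sim : ∀ P v w w' r, sim P v w w' → hld P v w r → hld P v w' r
  cmp : ∀ P v w w' r s, sim P v w w' → hld P v w r → hld P v w s → (lt w r s ↔ lt w' r s)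
  own_hld : ∀ P v w, hld P v w (own v)

namespace Mach

variable {V Ω R : Type} (M : Mach V Ω R)

def Knows {α : Sort*} (P : M.Pl) (v : V) (f : Ω → α) : Prop := ∀ w w', M.sim P v w w' → f w = f w'

def Has {X : Type} (P : M.Pl) (v : V) (a : Ω → X × Option R) : Prop :=
  M.Knows P v a ∧ ∀ w r, (a w).2 = some r → M.hld P v w r

/-- The item `b` is determined by the items `a i`. -/
def Det {ι X Y : Type} (a : ι → Ω → X × Option R) (b : Ω → Y × Option R) : Prop :=
  (∀ w w', (∀ i, a i w = a i w') →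
    (∀ i j r s, (a i w).2 = some r → (a j w).2 = some s → (M.lt w r s ↔ M.lt w' r s)) → b w = b w') ∧
  ∀ w r, (b w).2 = some r → ∃ i, (a i w).2 = some r

/-- `P` has an extension by at most `c` steps with the property `Φ`. -/
def Do (c : ℕ) (P : M.Pl) (Φ : M.Pl → Prop) : Prop := ∃ P', M.ext P P' ∧ M.len P' ≤ M.len P + c ∧ Φ P'

/-- In `c` steps every node gets any item determined by the items of its class (labels with at most `Lam` values). -/
def Rounds (Lam : ℕ) (cls : V → V → Prop) (c : ℕ) : Prop :=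
  ∀ (P : M.Pl) (X Y : Type) (a : V → Ω → X × Option R) (b : V → Ω → Y × Option R), Sz Lam (fun v w => (a v w).1) →
    Sz Lam (fun v w => (b v w).1) → (∀ v, M.Has P v (a v)) → (∀ v, M.Det (fun u : {u // cls v u} => a u) (b v)) →
      M.Do c P (fun P' => ∀ v, M.Has P' v (b v))

variable {M}

theorem Do.pure {c : ℕ} {P : M.Pl} {Φ : M.Pl → Prop} (h : Φ P) : M.Do c P Φ :=
  ⟨P, M.ext_refl P, by omega, h⟩

theorem Do.bind {c c' : ℕ} {P : M.Pl} {Φ Ψ : M.Pl → Prop} (h : M.Do c P Φ)
    (h' : ∀ P', M.ext P P' → Φ P' → M.Do c' P' Ψ) : M.Do (c + c') P Ψ := by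
  obtain ⟨P', h1, h2, h3⟩ := h
  obtain ⟨P'', h4, h5, h6⟩ := h' P' h1 h3
  exact ⟨P'', M.ext_trans _ _ _ h1 h4, by omega, h6⟩

theorem Do.mono {c c' : ℕ} {P : M.Pl} {Φ Ψ : M.Pl → Prop} (h : M.Do c P Φ) (hc : c ≤ c')
    (h' : ∀ P', M.ext P P' → Φ P' → Ψ P') : M.Do c' P Ψ := by
  obtain ⟨P', h1, h2, h3⟩ := h
  exact ⟨P', h1, by omega, h' P' h1 h3⟩

theorem Knows.mono {α : Sort*} {P P' : M.Pl} {v : V} {f : Ω → α} (h : M.Knows P v f) (he : M.ext P P') : M.Knows P' v f :=
  fun w w' hs => h w w' (M.ext_sim _ _ _ _ _ he hs)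

theorem Has.mono {X : Type} {P P' : M.Pl} {v : V} {a : Ω → X × Option R} (h : M.Has P v a) (he : M.ext P P') : M.Has P' v a :=
  ⟨h.1.mono he, fun w r hr => M.ext_hld _ _ _ _ _ he (h.2 w r hr)⟩

/-- Comparison of records of two items had by the node. -/
theorem Has.cmp {X Y : Type} {P : M.Pl} {v : V} {a : Ω → X × Option R} {b : Ω → Y × Option R} (ha : M.Has P v a) (hb : M.Has P v b)
    {w w' : Ω} (hs : M.sim P v w w') {r s : R} (hr : (a w).2 = some r) (hs' : (b w).2 = some s) : M.lt w r s ↔ M.lt w' r s :=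
  M.cmp P v w w' r s hs (ha.2 w r hr) (hb.2 w s hs')

/-- Local computation. -/
theorem Has.det {ι X Y : Type} {P : M.Pl} {v : V} {a : ι → Ω → X × Option R} {b : Ω → Y × Option R} (ha : ∀ i, M.Has P v (a i))
    (hd : M.Det a b) : M.Has P v b := by
  constructor
  · intro w w' hs
    apply hd.1 w w' (fun i => (ha i).1 w w' hs)
    intro i j r s hr hs'
    exact (ha i).cmp (ha j) hs hr hs'
  · intro w r hr
    obtain ⟨i, hi⟩ := hd.2 w r hr
    exact (ha i).2 w r hi

/-- Label only items. -/
theorem Knows.has {X : Type} {P : M.Pl} {v : V} {f : Ω → X} (h : M.Knows P v f) : M.Has P v (fun w => (f w, (none : Option R))) := by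
  constructor
  · intro w w' hs
    show (f w, (none : Option R)) = (f w', none)
    rw [h w w' hs]
  · intro w r hr
    simp at hr

theorem Has.label {X : Type} {P : M.Pl} {v : V} {a : Ω → X × Option R} (h : M.Has P v a) : M.Knows P v (fun w => (a w).1) := by
  intro w w' hs
  show (a w).1 = (a w').1
  rw [h.1 w w' hs]

theorem Knows.comp {α β : Sort*} {P : M.Pl} {v : V} {f : Ω → α} (h : M.Knows P v f) (g : α → β) : M.Knows P v (fun w => g (f w)) := by
  intro w w' hs
  show g (f w) = g (f w')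
  rw [h w w' hs]

theorem Knows.comp2 {α β γ : Sort*} {P : M.Pl} {v : V} {f : Ω → α} {f' : Ω → β} (h : M.Knows P v f) (h' : M.Knows P v f')
    (g : α → β → γ) : M.Knows P v (fun w => g (f w) (f' w)) := by
  intro w w' hs
  show g (f w) (f' w) = g (f w') (f' w')
  rw [h w w' hs, h' w w' hs]

theorem Knows.const {α : Sort*} (P : M.Pl) (v : V) (c : α) : M.Knows P v (fun _ => c) := fun _ _ _ => rfl

theorem Rounds.mono {Lam c c' : ℕ} {cls cls' : V → V → Prop} (h : M.Rounds Lam cls c) (hc : c ≤ c')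
    (hcls : ∀ v u, cls' v u → cls v u) : M.Rounds Lam cls' c' := by
  intro P X Y a b hX hY ha hb
  obtain ⟨P', h1, h2, h3⟩ := h P X Y a b hX hY ha (fun v => by
    refine ⟨fun w w' h1 h2 => (hb v).1 w w' (fun i => h1 ⟨i.1, hcls _ _ i.2⟩) (fun i j => h2 ⟨i.1, hcls _ _ i.2⟩ ⟨j.1, hcls _ _ j.2⟩), ?_⟩
    intro w r hr
    obtain ⟨i, hi⟩ := (hb v).2 w r hr
    exact ⟨⟨i.1, hcls _ _ i.2⟩, hi⟩)
  exact ⟨P', h1, by omega, h3⟩

end Mach

end Pool.Agent.H31.HS
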