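import Mathlib
import Pool.Agent.H31.HS.Mach

/-!
# Blk: numbered classes

`B : Blk V m` is a partition of `V` into classes of `2^m` elements, numbered by `0, ..., 2^m-1`: `B.pos v` is the number of `v` in its class,
`B.nd v t` the element with the number `t < 2^m` of the class of `v`.  `B.cls v u`: same class.
`B.bits i l` (for `i + l ≤ m`): the classes are: same class of `B` and numbers which agree outside the bits `i, ..., i+l-1`; numbered by these bits.
(Aligned intervals of length `2^l`: `B.bits 0 l`.)  `B.conj φ`: transport along a permutation of `V`.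
`Comm BS BE`: independent commuting numberings; `prod`: numbered by `BS.pos v * 2^l + BE.pos v`.
-/

set_option autoImplicit false

namespace Pool.Agent.H31.HS

structure Blk (V : Type) (m : ℕ) where
  pos : V → ℕ
  nd : V → ℕ → V
  pos_lt : ∀ v, pos v < 2 ^ m
  pos_nd : ∀ v t, t < 2 ^ m → pos (nd v t) = t
  nd_pos : ∀ v, nd v (pos v) = v
  nd_nd : ∀ v t s, t < 2 ^ m → s < 2 ^ m → nd (nd v t) s = nd v s
  nd_mod : ∀ v t, nd v (t % 2 ^ m) = nd v t

namespace Blk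

variable {V : Type} {m : ℕ} (B : Blk V m)

/-- Same class. -/
def cls (v u : V) : Prop := B.nd v (B.pos u) = u

theorem cls_refl (v : V) : B.cls v v := B.nd_pos v

theorem cls_nd (v : V) {t : ℕ} (ht : t < 2 ^ m) : B.cls v (B.nd v t) := by
  unfold cls
  rw [B.pos_nd v t ht]

theorem nd_of_cls {v u : V} (h : B.cls v u) {t : ℕ} (ht : t < 2 ^ m) : B.nd u t = B.nd v t := by
  unfold cls at h
  rw [← h, B.nd_nd v _ t (B.pos_lt u) ht]

theorem cls_symm {v u : V} (h : B.cls v u) : B.cls u v := by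
  unfold cls
  rw [B.nd_of_cls h (B.pos_lt v), B.nd_pos]

theorem cls_trans {v u z : V} (h : B.cls v u) (h' : B.cls u z) : B.cls v z := by
  unfold cls
  rw [← B.nd_of_cls h (B.pos_lt z)]
  exact h'

theorem eq_of_cls {v u : V} (h : B.cls v u) (h' : B.pos v = B.pos u) : v = u := by
  unfold cls at h
  rw [← h, ← h', B.nd_pos]

theorem cls_iff {v u : V} : B.cls v u ↔ ∃ t, t < 2 ^ m ∧ u = B.nd v t := by
  constructor
  · intro h
    exact ⟨B.pos u, B.pos_lt u, h.symm⟩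
  · rintro ⟨t, ht, rfl⟩
    exact B.cls_nd v ht

/-- A numbering is determined by the numbers and the classes. -/
theorem ext' {B B' : Blk V m} (hp : ∀ v, B.pos v = B'.pos v) (hc : ∀ v u, B.cls v u → B'.cls v u) : B = B' := by
  have h1 : B.pos = B'.pos := funext hp
  have h2 : B.nd = B'.nd := by
    funext v t
    have ht : t % 2 ^ m < 2 ^ m := Nat.mod_lt _ (by positivity)
    rw [← B.nd_mod, ← B'.nd_mod]
    have h3 := hc v _ (B.cls_nd v ht)
    unfold cls at h3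
    rw [← h3, ← hp, B.pos_nd v _ ht]
  obtain ⟨p, n, _, _, _, _, _⟩ := B
  obtain ⟨p', n', _, _, _, _, _⟩ := B'
  simp only at h1 h2
  subst h1 h2
  rfl

/-- The number `x` with the bits `i, ..., i+l-1` replaced by those of `t < 2^l`. -/
def rep (i l x t : ℕ) : ℕ := x / 2 ^ (i + l) * 2 ^ (i + l) + t * 2 ^ i + x % 2 ^ i

theorem rep_lt {i l x t : ℕ} (h : i + l ≤ m) (hx : x < 2 ^ m) (ht : t < 2 ^ l) : rep i l x t < 2 ^ m := by
  unfold rep
  have h1 : x / 2 ^ (i + l) < 2 ^ (m - (i + l)) := by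
    rw [Nat.div_lt_iff_lt_mul (by positivity), ← pow_add]
    rwa [Nat.sub_add_cancel h]
  have h2 : (x / 2 ^ (i + l) + 1) * 2 ^ (i + l) ≤ 2 ^ (m - (i + l)) * 2 ^ (i + l) := Nat.mul_le_mul_right _ h1
  rw [← pow_add, Nat.sub_add_cancel h] at h2
  have h3 : (t + 1) * 2 ^ i ≤ 2 ^ l * 2 ^ i := Nat.mul_le_mul_right _ ht
  rw [← pow_add, add_comm l i] at h3
  have h4 : x % 2 ^ i < 2 ^ i := Nat.mod_lt _ (by positivity)
  nlinarith

theorem rep_div {i l x t : ℕ} (ht : t < 2 ^ l) : rep i l x t / 2 ^ (i + l) = x / 2 ^ (i + l) := by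
  unfold rep
  have h3 : (t + 1) * 2 ^ i ≤ 2 ^ l * 2 ^ i := Nat.mul_le_mul_right _ ht
  rw [← pow_add, add_comm l i] at h3
  have h4 : x % 2 ^ i < 2 ^ i := Nat.mod_lt _ (by positivity)
  have h5 : t * 2 ^ i + x % 2 ^ i < 2 ^ (i + l) := by nlinarith
  rw [add_assoc, mul_comm (x / 2 ^ (i + l)), Nat.mul_add_div (by positivity), Nat.div_eq_of_lt h5, add_zero]

theorem rep_mod {i l x t : ℕ} : rep i l x t % 2 ^ i = x % 2 ^ i := by
  unfold rep
  have h5 : x / 2 ^ (i + l) * 2 ^ (i + l) + t * 2 ^ i + x % 2 ^ i = 2 ^ i * (x / 2 ^ (i + l) * 2 ^ l + t) + x % 2 ^ i := by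
    rw [pow_add]
    ring
  rw [h5, Nat.mul_add_mod, Nat.mod_mod]

theorem rep_mid {i l x t : ℕ} (ht : t < 2 ^ l) : rep i l x t / 2 ^ i % 2 ^ l = t := by
  unfold rep
  have h4 : x % 2 ^ i < 2 ^ i := Nat.mod_lt _ (by positivity)
  have h5 : x / 2 ^ (i + l) * 2 ^ (i + l) + t * 2 ^ i + x % 2 ^ i = 2 ^ i * (x / 2 ^ (i + l) * 2 ^ l + t) + x % 2 ^ i := by
    rw [pow_add]
    ring
  rw [h5, Nat.mul_add_div (by positivity), Nat.div_eq_of_lt h4, add_zero, mul_comm, Nat.mul_add_mod, Nat.mod_eq_of_lt ht]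

theorem rep_self {i l x : ℕ} : rep i l x (x / 2 ^ i % 2 ^ l) = x := by
  unfold rep
  have h1 := Nat.div_add_mod x (2 ^ i)
  have h2 := Nat.div_add_mod (x / 2 ^ i) (2 ^ l)
  rw [Nat.div_div_eq_div_mul, ← pow_add] at h2
  calc x / 2 ^ (i + l) * 2 ^ (i + l) + x / 2 ^ i % 2 ^ l * 2 ^ i + x % 2 ^ i
      = 2 ^ i * (2 ^ l * (x / 2 ^ (i + l)) + x / 2 ^ i % 2 ^ l) + x % 2 ^ i := by
        rw [pow_add]
        ring
    _ = x := by rw [h2, h1]

theorem rep_rep {i l x t s : ℕ} (ht : t < 2 ^ l) : rep i l (rep i l x t) s = rep i l x s := by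
  unfold rep
  have h1 := rep_div (i := i) (x := x) ht
  have h2 := rep_mod (i := i) (l := l) (x := x) (t := t)
  unfold rep at h1 h2
  rw [h1, h2]

/-- Blocks given by the bits `i, ..., i+l-1`. -/
def bits (i l : ℕ) (h : i + l ≤ m) : Blk V l where
  pos v := B.pos v / 2 ^ i % 2 ^ l
  nd v t := B.nd v (rep i l (B.pos v) (t % 2 ^ l))
  pos_lt v := Nat.mod_lt _ (by positivity)
  pos_nd v t ht := by
    rw [Nat.mod_eq_of_lt ht, B.pos_nd v _ (rep_lt h (B.pos_lt v) ht), rep_mid ht]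
  nd_pos v := by
    rw [Nat.mod_mod, rep_self, B.nd_pos]
  nd_nd v t s ht hs := by
    have h1 := rep_lt h (B.pos_lt v) ht
    rw [Nat.mod_eq_of_lt ht, Nat.mod_eq_of_lt hs, B.pos_nd v _ h1, rep_rep ht]
    exact B.nd_nd v _ _ h1 (rep_lt h (B.pos_lt v) hs)
  nd_mod v t := by rw [Nat.mod_mod]

/-- Transport along a permutation of the nodes. -/
def conj (φ : Equiv.Perm V) : Blk V m where
  pos v := B.pos (φ.symm v)
  nd v t := φ (B.nd (φ.symm v) t)
  pos_lt v := B.pos_lt _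
  pos_nd v t ht := by rw [Equiv.symm_apply_apply, B.pos_nd _ t ht]
  nd_pos v := by
    show φ (B.nd (φ.symm v) (B.pos (φ.symm v))) = v
    rw [B.nd_pos, Equiv.apply_symm_apply]
  nd_nd v t s ht hs := by
    show φ (B.nd (φ.symm (φ (B.nd (φ.symm v) t))) s) = φ (B.nd (φ.symm v) s)
    rw [Equiv.symm_apply_apply, B.nd_nd _ t s ht hs]
  nd_mod v t := by rw [B.nd_mod]

/-- Independent commuting numberings. -/
structure Comm {V : Type} {m l : ℕ} (BS : Blk V m) (BE : Blk V l) : Prop where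
  pS : ∀ v t, t < 2 ^ l → BS.pos (BE.nd v t) = BS.pos v
  pE : ∀ v t, t < 2 ^ m → BE.pos (BS.nd v t) = BE.pos v
  com : ∀ v s t, s < 2 ^ m → t < 2 ^ l → BS.nd (BE.nd v t) s = BE.nd (BS.nd v s) t

/-- Product of commuting numberings: `BS` gives the high part of the number. -/
def prod {V : Type} {m l : ℕ} (BS : Blk V m) (BE : Blk V l) (h : Comm BS BE) : Blk V (m + l) where
  pos v := BS.pos v * 2 ^ l + BE.pos v
  nd v t := BS.nd (BE.nd v (t % 2 ^ l)) (t / 2 ^ l)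
  pos_lt v := by
    have h1 := BS.pos_lt v
    have h2 := BE.pos_lt v
    have h3 : (BS.pos v + 1) * 2 ^ l ≤ 2 ^ m * 2 ^ l := Nat.mul_le_mul_right _ h1
    rw [pow_add]
    nlinarith
  pos_nd v t ht := by
    have h1 : t / 2 ^ l < 2 ^ m := by
      rw [Nat.div_lt_iff_lt_mul (by positivity), ← pow_add]
      exact ht
    have h2 : t % 2 ^ l < 2 ^ l := Nat.mod_lt _ (by positivity)
    rw [BS.pos_nd _ _ h1, h.pE _ _ h1, BE.pos_nd _ _ h2, Nat.div_add_mod']
  nd_pos v := by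
    have h2 := BE.pos_lt v
    have h3 : (BS.pos v * 2 ^ l + BE.pos v) % 2 ^ l = BE.pos v := by
      rw [mul_comm, Nat.mul_add_mod, Nat.mod_eq_of_lt h2]
    have h4 : (BS.pos v * 2 ^ l + BE.pos v) / 2 ^ l = BS.pos v := by
      rw [mul_comm, Nat.mul_add_div (by positivity), Nat.div_eq_of_lt h2, add_zero]
    rw [h3, h4, BE.nd_pos, BS.nd_pos]
  nd_nd v t s ht hs := by
    have h1 : ∀ t, t < 2 ^ (m + l) → t / 2 ^ l < 2 ^ m := by
      intro t ht
      rw [Nat.div_lt_iff_lt_mul (by positivity), ← pow_add]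
      exact ht
    have h2 : ∀ t, t % 2 ^ l < 2 ^ l := fun t => Nat.mod_lt _ (by positivity)
    show BS.nd (BE.nd (BS.nd (BE.nd v (t % 2 ^ l)) (t / 2 ^ l)) (s % 2 ^ l)) (s / 2 ^ l) = BS.nd (BE.nd v (s % 2 ^ l)) (s / 2 ^ l)
    rw [← h.com _ _ _ (h1 t ht) (h2 s), BS.nd_nd _ _ _ (h1 t ht) (h1 s hs), BE.nd_nd _ _ _ (h2 t) (h2 s)]
  nd_mod v t := by
    have h1 : t % 2 ^ (m + l) % 2 ^ l = t % 2 ^ l := Nat.mod_mod_of_dvd _ (Dvd.intro_left (2 ^ m) (by rw [← pow_add]))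
    have h2 : t % 2 ^ (m + l) / 2 ^ l = t / 2 ^ l % 2 ^ m := by
      rw [add_comm m l, pow_add, Nat.mod_mul_right_div_self]
    rw [h1, h2, BS.nd_mod]

end Blk

end Pool.Agent.H31.HS
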