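import Mathlib

/-!
# Model: store-and-forward algorithms on the hypercube (definitions only)

`Node d` are the `2^d` processors of the `d`-cube, `flp i v` the neighbour of `v` in direction `i`, `nodeNum v` its number.
An input is a bijection `ρ`: the record which starts at the processor `v` is the `ρ v`-th largest; records are named by their start.
One step is a function which says for every processor `v`, direction `i` and input which message (a record and a label) `v` sends to `flp i v`.
A plan is a list of steps, the last one first.  `held` are the records in a processor.  `Sim P v ρ ρ'`: the processor `v` has received the same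
messages under `ρ` and `ρ'` and all comparisons of records it holds have the same result.  `Valid`: a processor sends only records it holds, and what it
sends depends only on what it has received and on comparisons of records it holds.  `Sorts`: at the end every processor can name the record it has to
output, by the same kind of local decision.
-/

set_option autoImplicit false

namespace Pool.Agent.H31.HS

/-- Processors of the `d`-cube. -/
abbrev Node (d : ℕ) := Fin d → Bool

/-- The neighbour of `v` in direction `i`. -/
def flp {d : ℕ} (i : Fin d) (v : Node d) : Node d := Function.update v i (!(v i))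

/-- The number of a processor. -/
def nodeNum {d : ℕ} (v : Node d) : ℕ := ∑ i : Fin d, if v i = true then 2 ^ (i : ℕ) else 0

/-- Inputs: the record which starts at `v` is the `ρ v`-th largest (counted from `0`). -/
abbrev Inp (d : ℕ) := Node d ≃ Fin (2 ^ d)

/-- One step: the message which `v` sends in direction `i`. -/
abbrev Step (d : ℕ) (L : Type) := Node d → Fin d → Inp d → Option (Node d × L)

/-- A plan, last step first. -/
abbrev Plan (d : ℕ) (L : Type) := List (Step d L)

/-- The records held by `v`. -/
def held {d : ℕ} {L : Type} : Plan d L → Node d → Inp d → Set (Node d)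
  | [], v, _ => {v}
  | m :: P, v, ρ => held P v ρ ∪ {r | ∃ i l, m (flp i v) i ρ = some (r, l)}

/-- `v` cannot distinguish `ρ` and `ρ'`. -/
def Sim {d : ℕ} {L : Type} : Plan d L → Node d → Inp d → Inp d → Prop
  | [], _, _, _ => True
  | m :: P, v, ρ, ρ' => Sim P v ρ ρ' ∧ (∀ i, m (flp i v) i ρ = m (flp i v) i ρ') ∧
      ∀ a ∈ held (m :: P) v ρ, ∀ b ∈ held (m :: P) v ρ, (ρ a < ρ b ↔ ρ' a < ρ' b)

/-- Only records in the processor are sent, and decisions are local. -/
def Valid {d : ℕ} {L : Type} : Plan d L → Prop
  | [] => True
  | m :: P => Valid P ∧ (∀ v i ρ r l, m v i ρ = some (r, l) → r ∈ held P v ρ) ∧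
      ∀ v i ρ ρ', Sim P v ρ ρ' → m v i ρ = m v i ρ'

/-- At the end the processor with the number `i` names the `i`-th largest record. -/
def Sorts {d : ℕ} {L : Type} (P : Plan d L) : Prop :=
  ∃ out : Node d → Inp d → Node d, ∀ v, (∀ ρ, out v ρ ∈ held P v ρ) ∧
    (∀ ρ ρ', Sim P v ρ ρ' → out v ρ = out v ρ') ∧ ∀ ρ : Inp d, (ρ (out v ρ)).val = nodeNum v

end Pool.Agent.H31.HS
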