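import Mathlib
import Pool.Agent.H31.HS.Model
import Pool.Agent.H31.HS.Mach

/-!
# RBas: basic facts on plans, the machine of the cube with virtual nodes

`cubeMach d t L`: nodes are the vertices of the `(d+t)`-cube, a virtual node knows what the real node given by its first `d` coordinates knows.
`LinkStep M Lam c`: in `c` steps every node can send one item along each of its `D` links.
-/

set_option autoImplicit false

namespace Pool.Agent.H31.HS

variable {d : ℕ} {L : Type}

theorem flp_flp {D : ℕ} (i : Fin D) (v : Node D) : flp i (flp i v) = v := by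
  unfold flp
  simp

theorem held_append (Q P : Plan d L) (v : Node d) (ρ : Inp d) : held P v ρ ⊆ held (Q ++ P) v ρ := by
  induction Q with
  | nil => exact subset_rfl
  | cons m Q ih => exact ih.trans Set.subset_union_left

theorem sim_append (Q P : Plan d L) (v : Node d) (ρ ρ' : Inp d) (h : Sim (Q ++ P) v ρ ρ') : Sim P v ρ ρ' := by
  induction Q with
  | nil => exact h
  | cons m Q ih => exact ih h.1

theorem valid_append (Q P : Plan d L) (h : Valid (Q ++ P)) : Valid P := by
  induction Q with
  | nil => exact h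
  | cons m Q ih => exact ih h.1

theorem held_sim (P : Plan d L) (v : Node d) (ρ ρ' : Inp d) (h : Sim P v ρ ρ') : held P v ρ = held P v ρ' := by
  induction P with
  | nil => rfl
  | cons m P ih =>
    have h1 := ih h.1
    show held P v ρ ∪ {r | ∃ i l, m (flp i v) i ρ = some (r, l)} = held P v ρ' ∪ {r | ∃ i l, m (flp i v) i ρ' = some (r, l)}
    rw [h1]
    congr 1
    ext r
    constructor
    · rintro ⟨i, l, hi⟩
      exact ⟨i, l, by rw [← h.2.1 i]; exact hi⟩
    · rintro ⟨i, l, hi⟩
      exact ⟨i, l, by rw [h.2.1 i]; exact hi⟩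

theorem sim_refl' (P : Plan d L) (v : Node d) (ρ : Inp d) : Sim P v ρ ρ := by
  induction P with
  | nil => trivial
  | cons m P ih => exact ⟨ih, fun _ => rfl, fun _ _ _ _ => Iff.rfl⟩

theorem sim_symm' (P : Plan d L) (v : Node d) (ρ ρ' : Inp d) (h : Sim P v ρ ρ') : Sim P v ρ' ρ := by
  induction P with
  | nil => trivial
  | cons m P ih =>
    refine ⟨ih h.1, fun i => (h.2.1 i).symm, fun a ha b hb => ?_⟩
    rw [← held_sim (m :: P) v ρ ρ' h] at ha hb
    exact (h.2.2 a ha b hb).symm

theorem sim_trans' (P : Plan d L) (v : Node d) (ρ ρ' ρ'' : Inp d) (h : Sim P v ρ ρ') (h' : Sim P v ρ' ρ'') : Sim P v ρ ρ'' := by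
  induction P with
  | nil => trivial
  | cons m P ih =>
    refine ⟨ih h.1 h'.1, fun i => (h.2.1 i).trans (h'.2.1 i), fun a ha b hb => ?_⟩
    have h1 := h.2.2 a ha b hb
    rw [held_sim (m :: P) v ρ ρ' h] at ha hb
    exact h1.trans (h'.2.2 a ha b hb)

theorem sim_cmp (P : Plan d L) (v : Node d) (ρ ρ' : Inp d) (a b : Node d) (h : Sim P v ρ ρ') (ha : a ∈ held P v ρ)
    (hb : b ∈ held P v ρ) : ρ a < ρ b ↔ ρ' a < ρ' b := by
  cases P with
  | nil =>
    have h1 : a = v := ha
    have h2 : b = v := hb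
    rw [h1, h2]
    exact iff_of_false (lt_irrefl _) (lt_irrefl _)
  | cons m P => exact h.2.2 a ha b hb

theorem own_held (P : Plan d L) (v : Node d) (ρ : Inp d) : v ∈ held P v ρ := by
  induction P with
  | nil => exact rfl
  | cons m P ih => exact Or.inl ih

/-- The real node of a virtual node. -/
def lowN {d t : ℕ} (v : Node (d + t)) : Node d := fun i => v (Fin.castAdd t i)

/-- The machine of the cube. -/
def cubeMach (d t : ℕ) (L : Type) : Mach (Node (d + t)) (Inp d) (Node d) where
  Pl := {P : Plan d L // Valid P}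
  len P := P.1.length
  ext P P' := ∃ Q, P'.1 = Q ++ P.1
  sim P v := Sim P.1 (lowN v)
  hld P v w r := r ∈ held P.1 (lowN v) w
  lt w r s := w r < w s
  own v := lowN v
  ext_refl P := ⟨[], rfl⟩
  ext_trans P P' P'' := by
    rintro ⟨Q, hQ⟩ ⟨Q', hQ'⟩
    exact ⟨Q' ++ Q, by rw [hQ', hQ, List.append_assoc]⟩
  sim_refl P v w := sim_refl' _ _ _
  sim_symm P v w w' := sim_symm' _ _ _ _
  sim_trans P v w w' w'' := sim_trans' _ _ _ _ _
  ext_sim P P' v w w' := by
    rintro ⟨Q, hQ⟩ h
    rw [hQ] at h
    exact sim_append _ _ _ _ _ h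
  ext_hld P P' v w r := by
    rintro ⟨Q, hQ⟩ h
    rw [hQ]
    exact held_append _ _ _ _ h
  hld_sim P v w w' r h h' := by
    rw [← held_sim _ _ _ _ h]
    exact h'
  cmp P v w w' r s h hr hs := sim_cmp _ _ _ _ _ _ h hr hs
  own_hld P v w := own_held _ _ _

/-- In `c` steps every node can send one item along each of its links. -/
def LinkStep {D : ℕ} {Ω R : Type} (M : Mach (Node D) Ω R) (Lam c : ℕ) : Prop :=
  ∀ (P : M.Pl) (X : Type) (a : Node D → Fin D → Ω → X × Option R), Sz Lam (fun (p : Node D × Fin D) w => (a p.1 p.2 w).1) →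
    (∀ v i, M.Has P v (a v i)) → M.Do c P (fun P' => ∀ v i, M.Has P' (flp i v) (a v i))

end Pool.Agent.H31.HS
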