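import Mathlib
import Pool.Agent.H31.HS.Blk

/-!
# Lin: digit lines (definition of `Lines`)

`Lines M Lam B k n r0`: the numbers of `B` have `n` digits of `k` bits, and there are rounds of cost `r0` in the direction of every digit.
-/

set_option autoImplicit false

namespace Pool.Agent.H31.HS

structure Lines {V Ω R : Type} {m : ℕ} (M : Mach V Ω R) (Lam : ℕ) (B : Blk V m) (k n r0 : ℕ) : Prop where
  hm : m = k * n
  hk : 1 ≤ k
  rnd : ∀ t (h : k * t + k ≤ m), t < n → M.Rounds Lam (B.bits (k * t) k h).cls r0

end Pool.Agent.H31.HS
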