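import Mathlib
import Pool.Agent.H31.HS.Lin

/-!
# Arr: arrays with empty places; specifications of the procedures

An array (for a fixed input) is `a : V → Option X × Option R`; the place `v` is active (occupied) if `(a v).1.isSome`, the empty item is `emp`.
`cnt B o v`: number of places `u` of the class of `v` with `o u = true` and smaller number.
`occ B o v i`: number of places with `o = true` in the aligned interval of length `2^i` which contains `v`.
`UniqSpec`: `b v` is the only active item of the class of `v` (empty, if there is none).
`ScanSpec`: `b v` is the last active item at or before `v`.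
`MoveSpec B tau a b`: the active item with label `x` has moved to the place number `tau x`, nothing else.
`PackSpec`: `b v` is the active item with exactly `pos v` active places before it.
-/

set_option autoImplicit false

namespace Pool.Agent.H31.HS

variable {V X R : Type} {m : ℕ}

/-- The empty item. -/
def emp : Option X × Option R := (none, none)

/-- Number of places with `o = true` before `v` in its class. -/
def cnt (B : Blk V m) (o : V → Bool) (v : V) : ℕ := ((Finset.range (B.pos v)).filter (fun t => o (B.nd v t) = true)).card

/-- Number of places with `o = true` in the aligned interval of length `2^i` around `v`. -/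
def occ (B : Blk V m) (o : V → Bool) (v : V) (i : ℕ) : ℕ :=
  ((Finset.range (2 ^ i)).filter (fun t => o (B.nd v (B.pos v / 2 ^ i * 2 ^ i + t)) = true)).card

def UniqSpec (B : Blk V m) (a b : V → Option X × Option R) : Prop :=
  ∀ v, (∀ u, B.cls v u → (a u).1.isSome → b v = a u) ∧ ((∀ u, B.cls v u → (a u).1 = none) → b v = emp)

def ScanSpec (B : Blk V m) (a b : V → Option X × Option R) : Prop :=
  ∀ v, (∀ u, B.cls v u → (a u).1.isSome → B.pos u ≤ B.pos v →
      (∀ u', B.cls v u' → (a u').1.isSome → B.pos u' ≤ B.pos v → B.pos u' ≤ B.pos u) → b v = a u) ∧
    ((∀ u, B.cls v u → B.pos u ≤ B.pos v → (a u).1 = none) → b v = emp)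

def MoveSpec (B : Blk V m) (tau : X → ℕ) (a b : V → Option X × Option R) : Prop :=
  ∀ v, (∀ u x, B.cls v u → (a u).1 = some x → tau x = B.pos v → b v = a u) ∧
    ((∀ u x, B.cls v u → (a u).1 = some x → tau x ≠ B.pos v) → b v = emp)

def PackSpec (B : Blk V m) (a b : V → Option X × Option R) : Prop :=
  ∀ v, (∀ u, B.cls v u → (a u).1.isSome → cnt B (fun z => (a z).1.isSome) u = B.pos v → b v = a u) ∧
    ((∀ u, B.cls v u → (a u).1.isSome → cnt B (fun z => (a z).1.isSome) u ≠ B.pos v) → b v = emp)

end Pool.Agent.H31.HS
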