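import Mathlib
import Pool.Agent.H31.HS.Arr

/-!
# Srt: sorting (definitions)

`KeyLoc M key`: comparison of keys is determined by the comparisons of the records of the two items.
`kv key x`: key of an item of an array, `⊤` for empty items.
`RunSorted B key i a`: in every aligned interval of length `2^i` the items occupy the first places, with increasing keys.
`Dist`: different active places of a class have different keys.
`SortSpec B key a b`: `b` has the same items as `a` in every class, sorted and packed.
`CanS M S B D c`: arrays with at most `S` labels, whose pattern of occupied places satisfies `D`, can be sorted in `c` steps.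
`CanM M S B u Q e c`: sorting from runs of length `2^(m-u)`, if every aligned interval of length `2^i` with `i = m` or `i ≥ m - u + Q` has at most
`e 2^(i-Q)` occupied places.
-/

set_option autoImplicit false

namespace Pool.Agent.H31.HS

variable {V Ω R : Type} {m : ℕ}

/-- Value of the key, `⊤` for empty items. -/
def kv {X : Type} (key : X × Option R → ℕ) (x : Option X × Option R) : WithTop ℕ :=
  match x.1 with
  | none => ⊤
  | some l => ((key (l, x.2) : ℕ) : WithTop ℕ)

/-- Comparison of keys is determined by the comparisons of the records. -/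
def KeyLoc (M : Mach V Ω R) {X : Type} (key : Ω → X × Option R → ℕ) : Prop :=
  ∀ (w w' : Ω) (x y : X × Option R),
    (∀ r s, x.2 = some r → y.2 = some s → ((M.lt w r s ↔ M.lt w' r s) ∧ (M.lt w s r ↔ M.lt w' s r))) →
      (key w x < key w y ↔ key w' x < key w' y)

/-- Sorted and packed in aligned intervals of length `2^i`. -/
def RunSorted {X : Type} (B : Blk V m) (key : X × Option R → ℕ) (i : ℕ) (a : V → Option X × Option R) : Prop :=
  ∀ v u, B.cls v u → B.pos v / 2 ^ i = B.pos u / 2 ^ i → B.pos v < B.pos u → (a u).1.isSome → kv key (a v) < kv key (a u)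

/-- Different keys. -/
def Dist {X : Type} (B : Blk V m) (key : X × Option R → ℕ) (a : V → Option X × Option R) : Prop :=
  ∀ v u, B.cls v u → (a v).1.isSome → (a u).1.isSome → kv key (a v) = kv key (a u) → v = u

def SortSpec {X : Type} (B : Blk V m) (key : X × Option R → ℕ) (a b : V → Option X × Option R) : Prop :=
  (∀ v, (b v).1.isSome → ∃ u, B.cls v u ∧ b v = a u) ∧ (∀ u, (a u).1.isSome → ∃ v, B.cls u v ∧ b v = a u) ∧
    (∀ v, (b v).1 = none → b v = emp) ∧ RunSorted B key m b

/-- Arrays with pattern `D` can be sorted in `c` steps. -/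
def CanS (M : Mach V Ω R) (S : ℕ) (B : Blk V m) (D : (V → Bool) → Prop) (c : ℕ) : Prop :=
  ∀ (X : Type) (key : Ω → X × Option R → ℕ) (P : M.Pl) (a : V → Ω → Option X × Option R), KeyLoc M key → Sm S a →
    (∀ v, M.Has P v (a v)) → (∀ w, Dist B (key w) (fun v => a v w)) → (∀ w, D (fun v => (a v w).1.isSome)) →
      M.Do c P (fun P' => ∃ b : V → Ω → Option X × Option R, (∀ v, M.Has P' v (b v)) ∧
        ∀ w, SortSpec B (key w) (fun v => a v w) (fun v => b v w))

/-- Density condition. -/
def Dens (B : Blk V m) (u Q e : ℕ) (o : V → Bool) : Prop :=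
  ∀ v i, i ≤ m → (i = m ∨ m - u + Q ≤ i) → 2 ^ Q * occ B o v i ≤ e * 2 ^ i

/-- Sorting from runs of length `2^(m-u)`. -/
def CanM (M : Mach V Ω R) (S : ℕ) (B : Blk V m) (u Q e c : ℕ) : Prop :=
  ∀ (X : Type) (key : Ω → X × Option R → ℕ) (P : M.Pl) (a : V → Ω → Option X × Option R), KeyLoc M key → Sm S a →
    (∀ v, M.Has P v (a v)) → (∀ w, Dist B (key w) (fun v => a v w)) →
    (∀ w, RunSorted B (key w) (m - u) (fun v => a v w)) → (∀ w, Dens B u Q e (fun v => (a v w).1.isSome)) →
      M.Do c P (fun P' => ∃ b : V → Ω → Option X × Option R, (∀ v, M.Has P' v (b v)) ∧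
        ∀ w, SortSpec B (key w) (fun v => a v w) (fun v => b v w))

/-- Reversal of `s` bits. -/
def rev : ℕ → ℕ → ℕ
  | 0, _ => 0
  | s + 1, x => x % 2 * 2 ^ s + rev s (x / 2)

/-- In every class of `B` (`q` bits) the places with `o = true` are the bit reversals of `0, ..., N-1` for some `N ≤ 2^(q-c1)`. -/
def RevPat {q : ℕ} (B : Blk V q) (c1 : ℕ) (o : V → Bool) : Prop :=
  ∀ v, ∃ Nn, Nn ≤ 2 ^ (q - c1) ∧ ∀ t, t < 2 ^ q → (o (B.nd v t) = true ↔ ∃ r, r < Nn ∧ t = rev q r)

end Pool.Agent.H31.HS
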