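import Mathlib
import Pool.Agent.H31.HS.Lin

/-!
# BitF1: facts on `bits` and `conj`

`bits_cls`: `(B.bits i l h).cls v u` says `B.nd v (rep i l (B.pos v) (B.pos u / 2^i % 2^l)) = u` (the `% 2^l` in `nd` disappears). If this holds then
`B.cls v u`, `B.pos u = rep i l (B.pos v) _` (`B.pos_nd`, `rep_lt`), and `rep_div`, `rep_mod` give the two equations.  Conversely with the two equations
`rep i l (B.pos v) (B.pos u / 2^i % 2^l) = rep i l (B.pos u) (B.pos u / 2^i % 2^l) = B.pos u` (`rep` depends only on `x / 2^(i+l)` and `x % 2^i`; `rep_self`),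
and `B.nd v (B.pos u) = u`.
`bits_bits`: use `Blk.ext'`: numbers: `x / 2^i % 2^l / 2^i' % 2^l' = x / 2^(i+i') % 2^l'` (for `i' + l' ≤ l`; `Nat.mod_pow_succ`-free proof: `Nat.mod_mul_right_div_self` and
`Nat.mod_mod_of_dvd`, `Nat.div_div_eq_div_mul`), classes with `bits_cls`.
`bits_all`: `Blk.ext'`, `2^0 = 1`, `Nat.mod_eq_of_lt`.  `conj_bits`: `Blk.ext'` or `rfl`.
-/

set_option autoImplicit false

namespace Pool.Agent.H31.HS

variable {V : Type} {m : ℕ}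

theorem bits_cls (B : Blk V m) {i l : ℕ} (h : i + l ≤ m) (v u : V) :
    (B.bits i l h).cls v u ↔ B.cls v u ∧ B.pos v / 2 ^ (i + l) = B.pos u / 2 ^ (i + l) ∧ B.pos v % 2 ^ i = B.pos u % 2 ^ i := by
  have ht : B.pos u / 2 ^ i % 2 ^ l < 2 ^ l := Nat.mod_lt _ (by positivity)
  have hr : Blk.rep i l (B.pos v) (B.pos u / 2 ^ i % 2 ^ l) < 2 ^ m := Blk.rep_lt h (B.pos_lt v) ht
  have e0 : (B.bits i l h).cls v u ↔ B.nd v (Blk.rep i l (B.pos v) (B.pos u / 2 ^ i % 2 ^ l)) = u := by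
    show B.nd v (Blk.rep i l (B.pos v) (B.pos u / 2 ^ i % 2 ^ l % 2 ^ l)) = u ↔ _
    rw [Nat.mod_mod]
  rw [e0]
  constructor
  · intro h1
    have h2 : B.pos u = Blk.rep i l (B.pos v) (B.pos u / 2 ^ i % 2 ^ l) := by
      have h3 := B.pos_nd v _ hr
      rw [h1] at h3
      exact h3
    refine ⟨?_, ?_, ?_⟩
    · have h3 := B.cls_nd v hr
      rw [h1] at h3
      exact h3
    · rw [h2, Blk.rep_div ht]
    · rw [h2, Blk.rep_mod]
  · rintro ⟨h1, h2, h3⟩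
    have h4 : Blk.rep i l (B.pos v) (B.pos u / 2 ^ i % 2 ^ l) = B.pos u := by
      have h5 : Blk.rep i l (B.pos v) (B.pos u / 2 ^ i % 2 ^ l) =
          Blk.rep i l (B.pos u) (B.pos u / 2 ^ i % 2 ^ l) := by
        unfold Blk.rep
        rw [h2, h3]
      rw [h5, Blk.rep_self]
    rw [h4]
    exact h1

private theorem num_hi {x y i l j : ℕ} (hj : j ≤ l) (h2 : x / 2 ^ (i + l) = y / 2 ^ (i + l))
    (h4 : x / 2 ^ i % 2 ^ l / 2 ^ j = y / 2 ^ i % 2 ^ l / 2 ^ j) : x / 2 ^ (i + j) = y / 2 ^ (i + j) := by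
  have key : ∀ x : ℕ, x / 2 ^ (i + j) = 2 ^ (l - j) * (x / 2 ^ (i + l)) + x / 2 ^ i % 2 ^ l / 2 ^ j := by
    intro x
    have h1 := Nat.div_add_mod (x / 2 ^ i) (2 ^ l)
    rw [Nat.div_div_eq_div_mul, ← pow_add] at h1
    have e1 : (2 : ℕ) ^ l = 2 ^ j * 2 ^ (l - j) := by
      rw [← pow_add]
      congr 1
      omega
    calc x / 2 ^ (i + j) = x / 2 ^ i / 2 ^ j := by rw [Nat.div_div_eq_div_mul, ← pow_add]
      _ = (2 ^ l * (x / 2 ^ (i + l)) + x / 2 ^ i % 2 ^ l) / 2 ^ j := by rw [h1]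
      _ = (2 ^ j * (2 ^ (l - j) * (x / 2 ^ (i + l))) + x / 2 ^ i % 2 ^ l) / 2 ^ j := by
          conv_lhs => rw [show 2 ^ l * (x / 2 ^ (i + l)) = 2 ^ j * (2 ^ (l - j) * (x / 2 ^ (i + l))) by
            rw [← mul_assoc, ← e1]]
      _ = 2 ^ (l - j) * (x / 2 ^ (i + l)) + x / 2 ^ i % 2 ^ l / 2 ^ j := by
          rw [Nat.mul_add_div (by positivity)]
  rw [key x, key y, h2, h4]

private theorem num_lo {x y i l j : ℕ} (hj : j ≤ l) (h3 : x % 2 ^ i = y % 2 ^ i)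
    (h5 : x / 2 ^ i % 2 ^ l % 2 ^ j = y / 2 ^ i % 2 ^ l % 2 ^ j) : x % 2 ^ (i + j) = y % 2 ^ (i + j) := by
  have hd : (2 : ℕ) ^ j ∣ 2 ^ l := pow_dvd_pow 2 hj
  rw [Nat.mod_mod_of_dvd _ hd, Nat.mod_mod_of_dvd _ hd] at h5
  rw [pow_add, Nat.mod_mul, Nat.mod_mul, h3, h5]

theorem bits_bits (B : Blk V m) {i l i' l' : ℕ} (h : i + l ≤ m) (h' : i' + l' ≤ l) (h'' : i + i' + l' ≤ m) :
    (B.bits i l h).bits i' l' h' = B.bits (i + i') l' h'' := by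
  have num : ∀ x : ℕ, x / 2 ^ i % 2 ^ l / 2 ^ i' % 2 ^ l' = x / 2 ^ (i + i') % 2 ^ l' := by
    intro x
    have e1 : (2 : ℕ) ^ l = 2 ^ i' * 2 ^ (l - i') := by
      rw [← pow_add]
      congr 1
      omega
    rw [e1, Nat.mod_mul_right_div_self, Nat.div_div_eq_div_mul, ← pow_add,
      Nat.mod_mod_of_dvd _ (pow_dvd_pow 2 (by omega : l' ≤ l - i'))]
  refine Blk.ext' (fun v => num _) ?_
  intro v u hvu
  rw [bits_cls, bits_cls] at hvu
  rw [bits_cls]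
  obtain ⟨⟨h1, h2, h3⟩, h4, h5⟩ := hvu
  refine ⟨h1, ?_, ?_⟩
  · rw [add_assoc]
    exact num_hi h' h2 h4
  · exact num_lo (by omega) h3 h5

theorem bits_all (B : Blk V m) (h : 0 + m ≤ m) : B.bits 0 m h = B := by
  refine Blk.ext' (fun v => ?_) ?_
  · show B.pos v / 2 ^ 0 % 2 ^ m = B.pos v
    rw [pow_zero, Nat.div_one, Nat.mod_eq_of_lt (B.pos_lt v)]
  · intro v u hvu
    rw [bits_cls] at hvu
    exact hvu.1

theorem conj_cls (B : Blk V m) (φ : Equiv.Perm V) (v u : V) : (B.conj φ).cls v u ↔ B.cls (φ.symm v) (φ.symm u) := by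
  show φ (B.nd (φ.symm v) (B.pos (φ.symm u))) = u ↔ B.nd (φ.symm v) (B.pos (φ.symm u)) = φ.symm u
  exact (Equiv.eq_symm_apply φ).symm

theorem conj_bits (B : Blk V m) (φ : Equiv.Perm V) {i l : ℕ} (h : i + l ≤ m) : (B.conj φ).bits i l h = (B.bits i l h).conj φ := by
  rfl

end Pool.Agent.H31.HS
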