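import Mathlib
import Pool.Agent.H31.HS.Lin

/-!
# BitF2: commuting numberings

`comm_symm`: from the three fields of `Comm`.
`comm_bits_bits`: `i + l ≤ i'`: with `x = B.pos v`, `x1 = rep i l x t`, `x2 = rep i' l' x s` (`t < 2^l`, `s < 2^l'`): `x1 / 2^i' % 2^l' = x / 2^i' % 2^l'`
(because `x1 / 2^(i+l) = x / 2^(i+l)`), `x2 / 2^i % 2^l = x / 2^i % 2^l` (because `x2 % 2^i' = x % 2^i'`), and `rep i' l' x1 s = rep i l x2 t`.
All nodes are `B.nd v _` (`B.nd_nd`, `Blk.rep_lt`).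
`comm_bits`: a bit block of `BS` and one of `BE`: `(BS.bits ..).nd v s = BS.nd v (rep ..)`, use the three fields of `h` (note `BS.pos (BE.nd v t) = BS.pos v`).
-/

set_option autoImplicit false

namespace Pool.Agent.H31.HS

variable {V : Type} {m l : ℕ}

theorem comm_symm {BS : Blk V m} {BE : Blk V l} (h : Blk.Comm BS BE) : Blk.Comm BE BS := by
  exact ⟨h.pE, h.pS, fun v s t hs ht => (h.com v t s ht hs).symm⟩

private theorem f2_dec (i l x : ℕ) : ∃ a c r, c < 2 ^ l ∧ r < 2 ^ i ∧ x = a * 2 ^ (i + l) + c * 2 ^ i + r :=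
  ⟨x / 2 ^ (i + l), x / 2 ^ i % 2 ^ l, x % 2 ^ i, Nat.mod_lt _ (by positivity), Nat.mod_lt _ (by positivity),
    (Blk.rep_self (i := i) (l := l) (x := x)).symm⟩

private theorem f2_lt {i l c r : ℕ} (hc : c < 2 ^ l) (hr : r < 2 ^ i) : c * 2 ^ i + r < 2 ^ (i + l) := by
  have h3 : (c + 1) * 2 ^ i ≤ 2 ^ l * 2 ^ i := Nat.mul_le_mul_right _ hc
  rw [← pow_add, add_comm l i] at h3
  nlinarith

private theorem f2_rep {i l a c r : ℕ} (hc : c < 2 ^ l) (hr : r < 2 ^ i) (t : ℕ) :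
    Blk.rep i l (a * 2 ^ (i + l) + c * 2 ^ i + r) t = a * 2 ^ (i + l) + t * 2 ^ i + r := by
  have h1 : (a * 2 ^ (i + l) + c * 2 ^ i + r) / 2 ^ (i + l) = a := by
    rw [add_assoc, mul_comm a, Nat.mul_add_div (by positivity), Nat.div_eq_of_lt (f2_lt hc hr), add_zero]
  have h2 : (a * 2 ^ (i + l) + c * 2 ^ i + r) % 2 ^ i = r := by
    have h5 : a * 2 ^ (i + l) + c * 2 ^ i + r = 2 ^ i * (a * 2 ^ l + c) + r := by
      rw [pow_add]
      ring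
    rw [h5, Nat.mul_add_mod, Nat.mod_eq_of_lt hr]
  unfold Blk.rep
  rw [h1, h2]

private theorem f2_all {i l e l' x t s : ℕ} (ht : t < 2 ^ l) (hs : s < 2 ^ l') :
    Blk.rep i l x t / 2 ^ (i + l + e) = x / 2 ^ (i + l + e) ∧
    Blk.rep (i + l + e) l' x s / 2 ^ i % 2 ^ l = x / 2 ^ i % 2 ^ l ∧
    Blk.rep (i + l + e) l' (Blk.rep i l x t) s = Blk.rep i l (Blk.rep (i + l + e) l' x s) t := by
  obtain ⟨a, c, r, hc, hr, hx⟩ := f2_dec i l x
  obtain ⟨A, k, b, hk, hb, ha⟩ := f2_dec e l' a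
  have hR : ∀ c, c < 2 ^ l → b * 2 ^ (i + l) + c * 2 ^ i + r < 2 ^ (i + l + e) := by
    intro c hc
    have h1 := f2_lt hc hr
    have h2 : (b + 1) * 2 ^ (i + l) ≤ 2 ^ e * 2 ^ (i + l) := Nat.mul_le_mul_right _ hb
    rw [← pow_add, add_comm e (i + l)] at h2
    nlinarith
  have form : ∀ k c : ℕ, (A * 2 ^ (e + l') + k * 2 ^ e + b) * 2 ^ (i + l) + c * 2 ^ i + r =
      A * 2 ^ (i + l + e + l') + k * 2 ^ (i + l + e) + (b * 2 ^ (i + l) + c * 2 ^ i + r) := by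
    intro k c
    simp only [pow_add]
    ring
  have hx' : x = A * 2 ^ (i + l + e + l') + k * 2 ^ (i + l + e) + (b * 2 ^ (i + l) + c * 2 ^ i + r) := by
    rw [← form, ← ha]
    exact hx
  have r1 : Blk.rep i l x t = A * 2 ^ (i + l + e + l') + k * 2 ^ (i + l + e) + (b * 2 ^ (i + l) + t * 2 ^ i + r) := by
    rw [← form, ← ha, hx, f2_rep hc hr]
  have r2 : Blk.rep (i + l + e) l' x s = A * 2 ^ (i + l + e + l') + s * 2 ^ (i + l + e) +
      (b * 2 ^ (i + l) + c * 2 ^ i + r) := by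
    rw [hx', f2_rep hk (hR c hc)]
  refine ⟨?_, ?_, ?_⟩
  · rw [r1, hx']
    have h5 : ∀ c, c < 2 ^ l → (A * 2 ^ (i + l + e + l') + k * 2 ^ (i + l + e) + (b * 2 ^ (i + l) + c * 2 ^ i + r)) /
        2 ^ (i + l + e) = A * 2 ^ l' + k := by
      intro c hc
      have h6 : A * 2 ^ (i + l + e + l') + k * 2 ^ (i + l + e) = 2 ^ (i + l + e) * (A * 2 ^ l' + k) := by
        rw [pow_add 2 (i + l + e) l']
        ring
      rw [h6, Nat.mul_add_div (by positivity), Nat.div_eq_of_lt (hR c hc), add_zero]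
    rw [h5 t ht, h5 c hc]
  · have h7 : ∀ a' : ℕ, (a' * 2 ^ (i + l) + c * 2 ^ i + r) / 2 ^ i % 2 ^ l = c := by
      intro a'
      have h8 : a' * 2 ^ (i + l) + c * 2 ^ i + r = 2 ^ i * (2 ^ l * a' + c) + r := by
        rw [pow_add]
        ring
      rw [h8, Nat.mul_add_div (by positivity), Nat.div_eq_of_lt hr, add_zero, Nat.mul_add_mod, Nat.mod_eq_of_lt hc]
    rw [r2, ← form, h7, hx, h7]
  · rw [r1, r2, f2_rep hk (hR t ht), ← form s c, f2_rep hc hr, form]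

theorem comm_bits_bits (B : Blk V m) {i l i' l' : ℕ} (h : i + l ≤ m) (h' : i' + l' ≤ m) (hd : i + l ≤ i') :
    Blk.Comm (B.bits i' l' h') (B.bits i l h) := by
  obtain ⟨e, rfl⟩ := Nat.exists_eq_add_of_le hd
  refine ⟨?_, ?_, ?_⟩
  · intro v t ht
    have h1 := Blk.rep_lt h (B.pos_lt v) ht
    show B.pos (B.nd v (Blk.rep i l (B.pos v) (t % 2 ^ l))) / 2 ^ (i + l + e) % 2 ^ l' =
      B.pos v / 2 ^ (i + l + e) % 2 ^ l'
    rw [Nat.mod_eq_of_lt ht, B.pos_nd v _ h1, (f2_all (l' := l') (s := 0) ht (by positivity)).1]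
  · intro v s hs
    have h1 := Blk.rep_lt h' (B.pos_lt v) hs
    show B.pos (B.nd v (Blk.rep (i + l + e) l' (B.pos v) (s % 2 ^ l'))) / 2 ^ i % 2 ^ l = B.pos v / 2 ^ i % 2 ^ l
    rw [Nat.mod_eq_of_lt hs, B.pos_nd v _ h1, (f2_all (t := 0) (by positivity) hs).2.1]
  · intro v s t hs ht
    have h1 := Blk.rep_lt h (B.pos_lt v) ht
    have h2 := Blk.rep_lt h' (B.pos_lt v) hs
    show B.nd (B.nd v (Blk.rep i l (B.pos v) (t % 2 ^ l)))
        (Blk.rep (i + l + e) l' (B.pos (B.nd v (Blk.rep i l (B.pos v) (t % 2 ^ l)))) (s % 2 ^ l')) =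
      B.nd (B.nd v (Blk.rep (i + l + e) l' (B.pos v) (s % 2 ^ l')))
        (Blk.rep i l (B.pos (B.nd v (Blk.rep (i + l + e) l' (B.pos v) (s % 2 ^ l')))) (t % 2 ^ l))
    rw [Nat.mod_eq_of_lt hs, Nat.mod_eq_of_lt ht, B.pos_nd v _ h1, B.pos_nd v _ h2,
      B.nd_nd v _ _ h1 (Blk.rep_lt h' h1 hs), B.nd_nd v _ _ h2 (Blk.rep_lt h h2 ht), (f2_all ht hs).2.2]

theorem comm_bits {BS : Blk V m} {BE : Blk V l} (h : Blk.Comm BS BE) {i j i' j' : ℕ} (h1 : i + j ≤ m) (h2 : i' + j' ≤ l) :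
    Blk.Comm (BS.bits i j h1) (BE.bits i' j' h2) := by
  have hS : ∀ v t, t < 2 ^ j → Blk.rep i j (BS.pos v) t < 2 ^ m := fun v t ht => Blk.rep_lt h1 (BS.pos_lt v) ht
  have hE : ∀ v t, t < 2 ^ j' → Blk.rep i' j' (BE.pos v) t < 2 ^ l := fun v t ht => Blk.rep_lt h2 (BE.pos_lt v) ht
  refine ⟨?_, ?_, ?_⟩
  · intro v t ht
    show BS.pos (BE.nd v (Blk.rep i' j' (BE.pos v) (t % 2 ^ j'))) / 2 ^ i % 2 ^ j = BS.pos v / 2 ^ i % 2 ^ j
    rw [Nat.mod_eq_of_lt ht, h.pS v _ (hE v t ht)]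
  · intro v t ht
    show BE.pos (BS.nd v (Blk.rep i j (BS.pos v) (t % 2 ^ j))) / 2 ^ i' % 2 ^ j' = BE.pos v / 2 ^ i' % 2 ^ j'
    rw [Nat.mod_eq_of_lt ht, h.pE v _ (hS v t ht)]
  · intro v s t hs ht
    show BS.nd (BE.nd v (Blk.rep i' j' (BE.pos v) (t % 2 ^ j')))
        (Blk.rep i j (BS.pos (BE.nd v (Blk.rep i' j' (BE.pos v) (t % 2 ^ j')))) (s % 2 ^ j)) =
      BE.nd (BS.nd v (Blk.rep i j (BS.pos v) (s % 2 ^ j)))
        (Blk.rep i' j' (BE.pos (BS.nd v (Blk.rep i j (BS.pos v) (s % 2 ^ j)))) (t % 2 ^ j'))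
    rw [Nat.mod_eq_of_lt hs, Nat.mod_eq_of_lt ht, h.pS v _ (hE v t ht), h.pE v _ (hS v s hs),
      h.com v _ _ (hS v s hs) (hE v t ht)]

/-- Transport. -/
theorem comm_conj {BS : Blk V m} {BE : Blk V l} (h : Blk.Comm BS BE) (φ : Equiv.Perm V) : Blk.Comm (BS.conj φ) (BE.conj φ) := by
  refine ⟨?_, ?_, ?_⟩
  · intro v t ht
    show BS.pos (φ.symm (φ (BE.nd (φ.symm v) t))) = BS.pos (φ.symm v)
    rw [Equiv.symm_apply_apply, h.pS _ t ht]
  · intro v t ht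
    show BE.pos (φ.symm (φ (BS.nd (φ.symm v) t))) = BE.pos (φ.symm v)
    rw [Equiv.symm_apply_apply, h.pE _ t ht]
  · intro v s t hs ht
    show φ (BS.nd (φ.symm (φ (BE.nd (φ.symm v) t))) s) = φ (BE.nd (φ.symm (φ (BS.nd (φ.symm v) s))) t)
    rw [Equiv.symm_apply_apply, Equiv.symm_apply_apply, h.com _ s t hs ht]

end Pool.Agent.H31.HS
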