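import Mathlib
import Pool.Agent.H31.HS.BitF1
import Pool.Agent.H31.HS.BitF2

/-!
# BitF3: products

`prod_cls`: `(prod BS BE h).cls v u` says `BS.nd (BE.nd v (BE.pos u)) (BS.pos u) = u`.  Take `z = BE.nd v (BE.pos u)`.  Conversely `BE.cls v z`, `BS.cls z u`:
`BE.pos z = BE.pos u` (`h.pE`, as `u = BS.nd z (BS.pos u)`), so `BE.nd v (BE.pos u) = z`.
`prod_bits_low`, `prod_bits_high`: `Blk.ext'`; numbers: `(x * 2^l + y) / 2^i % 2^l' = y / 2^i % 2^l'` for `i + l' ≤ l`, `(x * 2^l + y) / 2^(l+i) = x / 2^i` for `y < 2^l`;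
classes: `bits_cls`, `prod_cls` (a node of the `BE`-class has the same `BS`-number and conversely).
`prod_bits_bits`: `Blk.ext'`; numbers: `x / 2^(i+l) % 2^l' * 2^l + x / 2^i % 2^l = x / 2^i % 2^(l'+l)`.
-/

set_option autoImplicit false

namespace Pool.Agent.H31.HS

variable {V : Type} {m l : ℕ}

private theorem f3_iff {BS : Blk V m} {BE : Blk V l} (h : Blk.Comm BS BE) (v u : V) :
    (Blk.prod BS BE h).cls v u ↔ BS.nd (BE.nd v (BE.pos u)) (BS.pos u) = u := by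
  have h2 := BE.pos_lt u
  have h3 : (BS.pos u * 2 ^ l + BE.pos u) % 2 ^ l = BE.pos u := by
    rw [mul_comm, Nat.mul_add_mod, Nat.mod_eq_of_lt h2]
  have h4 : (BS.pos u * 2 ^ l + BE.pos u) / 2 ^ l = BS.pos u := by
    rw [mul_comm, Nat.mul_add_div (by positivity), Nat.div_eq_of_lt h2, add_zero]
  show BS.nd (BE.nd v ((BS.pos u * 2 ^ l + BE.pos u) % 2 ^ l)) ((BS.pos u * 2 ^ l + BE.pos u) / 2 ^ l) = u ↔ _
  rw [h3, h4]

private theorem f3_pE {BS : Blk V m} {BE : Blk V l} (h : Blk.Comm BS BE) {z u : V} (hz : BS.cls z u) :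
    BE.pos u = BE.pos z := by
  have h1 := h.pE z _ (BS.pos_lt u)
  unfold Blk.cls at hz
  rw [hz] at h1
  exact h1

private theorem f3_pS {BS : Blk V m} {BE : Blk V l} (h : Blk.Comm BS BE) {z u : V} (hz : BE.cls z u) :
    BS.pos u = BS.pos z := by
  have h1 := h.pS z _ (BE.pos_lt u)
  unfold Blk.cls at hz
  rw [hz] at h1
  exact h1

theorem prod_cls {BS : Blk V m} {BE : Blk V l} (h : Blk.Comm BS BE) (v u : V) :
    (Blk.prod BS BE h).cls v u ↔ ∃ z, BE.cls v z ∧ BS.cls z u := by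
  rw [f3_iff]
  constructor
  · intro h1
    refine ⟨BE.nd v (BE.pos u), BE.cls_nd v (BE.pos_lt u), ?_⟩
    exact h1
  · rintro ⟨z, h1, h2⟩
    have h3 := f3_pE h h2
    have h4 : BE.nd v (BE.pos u) = z := by
      rw [h3]
      exact h1
    rw [h4]
    exact h2

private theorem f3_low {x y l i : ℕ} (hi : i ≤ l) :
    (x * 2 ^ l + y) / 2 ^ i = x * 2 ^ (l - i) + y / 2 ^ i := by
  have e1 : (2 : ℕ) ^ l = 2 ^ i * 2 ^ (l - i) := by
    rw [← pow_add]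
    congr 1
    omega
  rw [e1, show x * (2 ^ i * 2 ^ (l - i)) = 2 ^ i * (x * 2 ^ (l - i)) by ring, Nat.mul_add_div (by positivity)]

private theorem f3_high {x y l : ℕ} (hy : y < 2 ^ l) (i : ℕ) : (x * 2 ^ l + y) / 2 ^ (l + i) = x / 2 ^ i := by
  rw [pow_add, ← Nat.div_div_eq_div_mul, mul_comm x, Nat.mul_add_div (by positivity), Nat.div_eq_of_lt hy, add_zero]

private theorem f3_mod {x y l : ℕ} (hy : y < 2 ^ l) : (x * 2 ^ l + y) % 2 ^ l = y := by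
  rw [mul_comm, Nat.mul_add_mod, Nat.mod_eq_of_lt hy]

private theorem f3_lt {y l i : ℕ} (hi : i ≤ l) (hy : y < 2 ^ l) : y / 2 ^ i < 2 ^ (l - i) := by
  rw [Nat.div_lt_iff_lt_mul (by positivity), ← pow_add, Nat.sub_add_cancel hi]
  exact hy

/-- comparison of the two parts -/
private theorem f3_split {x y x' y' N : ℕ} (hy : y < N) (hy' : y' < N) (h : x * N + y = x' * N + y') :
    x = x' ∧ y = y' := by
  have h0 : 0 < N := by omega
  have h1 : (x * N + y) / N = x := by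
    rw [mul_comm, Nat.mul_add_div h0, Nat.div_eq_of_lt hy, add_zero]
  have h2 : (x' * N + y') / N = x' := by
    rw [mul_comm, Nat.mul_add_div h0, Nat.div_eq_of_lt hy', add_zero]
  have h3 : x = x' := by rw [← h1, ← h2, h]
  subst h3
  exact ⟨rfl, by omega⟩

theorem prod_bits_low {BS : Blk V m} {BE : Blk V l} (h : Blk.Comm BS BE) {i l' : ℕ} (h1 : i + l' ≤ l) (h2 : i + l' ≤ m + l) :
    (Blk.prod BS BE h).bits i l' h2 = BE.bits i l' h1 := by
  refine Blk.ext' (fun v => ?_) ?_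
  · show (BS.pos v * 2 ^ l + BE.pos v) / 2 ^ i % 2 ^ l' = BE.pos v / 2 ^ i % 2 ^ l'
    rw [f3_low (by omega)]
    have e1 : (2 : ℕ) ^ (l - i) = 2 ^ l' * 2 ^ (l - i - l') := by
      rw [← pow_add]
      congr 1
      omega
    rw [e1, show BS.pos v * (2 ^ l' * 2 ^ (l - i - l')) = 2 ^ l' * (BS.pos v * 2 ^ (l - i - l')) by ring,
      Nat.mul_add_mod]
  · intro v u hvu
    rw [bits_cls, prod_cls] at hvu
    rw [bits_cls]
    obtain ⟨⟨z, hz1, hz2⟩, h3, h4⟩ := hvu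
    have h3' : (BS.pos v * 2 ^ l + BE.pos v) / 2 ^ (i + l') = (BS.pos u * 2 ^ l + BE.pos u) / 2 ^ (i + l') := h3
    have h4' : (BS.pos v * 2 ^ l + BE.pos v) % 2 ^ i = (BS.pos u * 2 ^ l + BE.pos u) % 2 ^ i := h4
    rw [f3_low h1, f3_low h1] at h3'
    obtain ⟨h5, h6⟩ := f3_split (f3_lt h1 (BE.pos_lt v)) (f3_lt h1 (BE.pos_lt u)) h3'
    have h7 : z = u := BS.eq_of_cls hz2 (by rw [← h5, f3_pS h hz1])
    subst h7
    refine ⟨hz1, h6, ?_⟩
    have h8 : ∀ x y : ℕ, (x * 2 ^ l + y) % 2 ^ i = y % 2 ^ i := by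
      intro x y
      have e1 : (2 : ℕ) ^ l = 2 ^ i * 2 ^ (l - i) := by
        rw [← pow_add]
        congr 1
        omega
      rw [e1, show x * (2 ^ i * 2 ^ (l - i)) = 2 ^ i * (x * 2 ^ (l - i)) by ring, Nat.mul_add_mod]
    rw [h8, h8] at h4'
    exact h4'

theorem prod_bits_high {BS : Blk V m} {BE : Blk V l} (h : Blk.Comm BS BE) {i l' : ℕ} (h1 : i + l' ≤ m) (h2 : l + i + l' ≤ m + l) :
    (Blk.prod BS BE h).bits (l + i) l' h2 = BS.bits i l' h1 := by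
  refine Blk.ext' (fun v => ?_) ?_
  · show (BS.pos v * 2 ^ l + BE.pos v) / 2 ^ (l + i) % 2 ^ l' = BS.pos v / 2 ^ i % 2 ^ l'
    rw [f3_high (BE.pos_lt v)]
  · intro v u hvu
    rw [bits_cls, prod_cls] at hvu
    rw [bits_cls]
    obtain ⟨⟨z, hz1, hz2⟩, h3, h4⟩ := hvu
    have h3' : (BS.pos v * 2 ^ l + BE.pos v) / 2 ^ (l + i + l') = (BS.pos u * 2 ^ l + BE.pos u) / 2 ^ (l + i + l') := h3
    have h4' : (BS.pos v * 2 ^ l + BE.pos v) % 2 ^ (l + i) = (BS.pos u * 2 ^ l + BE.pos u) % 2 ^ (l + i) := h4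
    rw [add_assoc, f3_high (BE.pos_lt v), f3_high (BE.pos_lt u)] at h3'
    rw [pow_add, Nat.mod_mul, Nat.mod_mul, f3_mod (BE.pos_lt v), f3_mod (BE.pos_lt u)] at h4'
    have h5 : ∀ x y : ℕ, y < 2 ^ l → (x * 2 ^ l + y) / 2 ^ l = x := by
      intro x y hy
      have := f3_high (x := x) hy 0
      rwa [add_zero, pow_zero, Nat.div_one] at this
    rw [h5 _ _ (BE.pos_lt v), h5 _ _ (BE.pos_lt u)] at h4'
    have h6 : BS.pos v % 2 ^ i * 2 ^ l + BE.pos v = BS.pos u % 2 ^ i * 2 ^ l + BE.pos u := by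
      rw [mul_comm (BS.pos v % 2 ^ i), mul_comm (BS.pos u % 2 ^ i)]
      omega
    obtain ⟨h7, h8⟩ := f3_split (BE.pos_lt v) (BE.pos_lt u) h6
    have h9 : v = z := BE.eq_of_cls hz1 (by rw [h8, f3_pE h hz2])
    subst h9
    exact ⟨hz2, h3', h7⟩

theorem prod_bits_bits (B : Blk V m) {i l l' : ℕ} (h1 : i + l ≤ m) (h2 : i + l + l' ≤ m) (h3 : i + (l' + l) ≤ m) :
    Blk.prod (B.bits (i + l) l' h2) (B.bits i l h1) (comm_bits_bits B h1 h2 le_rfl) = B.bits i (l' + l) h3 := by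
  refine Blk.ext' (fun v => ?_) ?_
  · show B.pos v / 2 ^ (i + l) % 2 ^ l' * 2 ^ l + B.pos v / 2 ^ i % 2 ^ l = B.pos v / 2 ^ i % 2 ^ (l' + l)
    rw [add_comm l' l, pow_add 2 l l', Nat.mod_mul, Nat.div_div_eq_div_mul, ← pow_add]
    ring
  · intro v u hvu
    rw [prod_cls] at hvu
    obtain ⟨z, hz1, hz2⟩ := hvu
    rw [bits_cls] at hz1 hz2 ⊢
    obtain ⟨a1, a2, a3⟩ := hz1
    obtain ⟨b1, b2, b3⟩ := hz2
    refine ⟨B.cls_trans a1 b1, ?_, ?_⟩
    · have e1 : i + (l' + l) = i + l + l' := by omega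
      rw [e1, ← b2, pow_add 2 (i + l) l', ← Nat.div_div_eq_div_mul, ← Nat.div_div_eq_div_mul, a2]
    · have h5 : ∀ x : ℕ, x % 2 ^ (i + l) % 2 ^ i = x % 2 ^ i := fun x =>
        Nat.mod_mod_of_dvd _ (pow_dvd_pow 2 (by omega))
      rw [a3, ← h5 (B.pos z), b3, h5]

end Pool.Agent.H31.HS
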