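import Mathlib
import Pool.Agent.H69.HS.E1
import Pool.Agent.H31.HS.BitF3
import Pool.Agent.H31.HS.Srt

/-!
# WDef: wide routing, definitions

`B : Blk V m`, `m = g + Q + Z * Q`: the number of a node consists of `g` layer bits (low), `Q` balance bits, and `Z` chunks of `Q` unit bits (high).
`Lay`, `Bal`, `Uni`: the three parts; `Lyr`: one layer (balance and unit bits, number `p * 2^Q + b`); `Pln jj`: the plane (chunk number `jj` from below, balance bits),
number `t * 2^Q + β`.  `src v p b`: the node of the layer of `v` with unit `p` and balance number `b`.  `dl δ v p`: value of `δ` at the unit `p` of the class of `v`.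
Moving items have labels `((p, b, e), c)`: origin `(p, b)`, target unit `e`, label `c` of the content.
`DlOK`: `δ` is a partial injective map of the units with the density property.
`Inv j A`: state after `j` stages: every item is at a place whose unit number has the first `j` chunks of `e` and the other chunks of the unit part of `π (p, b)`;
no duplicates; complete in layers which are not bad.
-/

set_option autoImplicit false

namespace Pool.Agent.H31.HS

/-- Labels of moving items. -/
abbrev Lb (X : Type) := (ℕ × ℕ × ℕ) × Option X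

theorem chunk_le {Q Z jj : ℕ} (h : jj < Z) : jj * Q + Q ≤ Z * Q := by
  have h1 : (jj + 1) * Q ≤ Z * Q := Nat.mul_le_mul_right _ h
  linarith

section

variable {V : Type} {m g Q Z : ℕ} (B : Blk V m) (hm : m = g + Q + Z * Q)

def Lay : Blk V g := B.bits 0 g (by omega)

def Bal : Blk V Q := B.bits g Q (by omega)

def Uni : Blk V (Z * Q) := B.bits (g + Q) (Z * Q) (by omega)

def Lyr : Blk V (Z * Q + Q) := B.bits g (Z * Q + Q) (by omega)

def Pln (jj : ℕ) (hj : jj < Z) : Blk V (Q + Q) :=
  Blk.prod (B.bits (g + Q + jj * Q) Q (by have := chunk_le (Q := Q) hj; omega)) (B.bits g Q (by omega))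
    (comm_bits_bits B (by omega) (by have := chunk_le (Q := Q) hj; omega) (by omega))

/-- The node of the layer of `v` with unit `p` and balance number `b`. -/
def src (v : V) (p b : ℕ) : V := (Lyr B hm).nd v (p * 2 ^ Q + b)

/-- The map on unit numbers. -/
def dl (δ : V → Option ℕ) (v : V) (p : ℕ) : Option ℕ := δ ((Uni B hm).nd v p)

/-- The unit part of `π (p, b)`. -/
def pun {Z Q : ℕ} (π : Equiv.Perm (Fin (2 ^ (Z * Q)) × Fin (2 ^ Q))) (p b : ℕ) : ℕ :=
  if h : p < 2 ^ (Z * Q) ∧ b < 2 ^ Q then (π (⟨p, h.1⟩, ⟨b, h.2⟩)).1.val else 0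

/-- Hypotheses on the map of the units. -/
structure DlOK (c1 : ℕ) (δ : V → Option ℕ) : Prop where
  unit : ∀ v u, B.cls v u → (Uni B hm).pos v = (Uni B hm).pos u → δ v = δ u
  lt : ∀ v e, δ v = some e → e < 2 ^ (Z * Q)
  inj : ∀ v u e, B.cls v u → δ v = some e → δ u = some e → (Uni B hm).pos v = (Uni B hm).pos u
  dens : ∀ v, H69.HS.DensD Z Q c1 (dl B hm δ v)

/-- State after `j` stages. -/
structure Inv {X R : Type} (c1 : ℕ) (π : ℕ → Equiv.Perm (Fin (2 ^ (Z * Q)) × Fin (2 ^ Q))) (δ : V → Option ℕ)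
    (a0 : V → Option X × Option R) (j : ℕ) (A : V → Option (Lb X) × Option R) : Prop where
  i1 : ∀ v p b e c, (A v).1 = some ((p, b, e), c) → p < 2 ^ (Z * Q) ∧ b < 2 ^ Q ∧ δ (src B hm v p b) = some e ∧
    (c, (A v).2) = a0 (src B hm v p b)
  i2 : ∀ v p b e c, (A v).1 = some ((p, b, e), c) →
    (Uni B hm).pos v / 2 ^ ((Z - j) * Q) = e / 2 ^ ((Z - j) * Q) ∧
      (Uni B hm).pos v % 2 ^ ((Z - j) * Q) = pun (π ((Lay B hm).pos v)) p b % 2 ^ ((Z - j) * Q)
  i3 : ∀ v u p b e c e' c', (Lyr B hm).cls v u → (A v).1 = some ((p, b, e), c) → (A u).1 = some ((p, b, e'), c') → v = u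
  i4 : ∀ v, (A v).1 = none → A v = emp
  i5 : ∀ v p b e, p < 2 ^ (Z * Q) → b < 2 ^ Q → δ (src B hm v p b) = some e →
    ¬ H69.HS.BadLayer Z Q c1 (π ((Lay B hm).pos v)) (dl B hm δ v) → ∃ u c, (Lyr B hm).cls v u ∧ (A u).1 = some ((p, b, e), c)

end

section

variable {V X R : Type} {m : ℕ}

/-- Number of items of the class of `u` with the same group `tt` as the item `x` and smaller key. -/
noncomputable def rkT (PL : Blk V m) (tt κ : X → ℕ) (A : V → Option X × Option R) (u : V) (x : X) : ℕ := by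
  classical
  exact ((Finset.range (2 ^ m)).filter (fun t => ∃ x', (A (PL.nd u t)).1 = some x' ∧ tt x' = tt x ∧ κ x' < κ x)).card

/-- Result of one stage in a plane (`Q + Q` bits): the place number `t * 2^Q + β` gets the `γ`-th item of the group `t`, if `γ < cap`, where `γ = β` or its reversal. -/
def StageSpec {Q : ℕ} (PL : Blk V (Q + Q)) (tt κ : X → ℕ) (cap : ℕ) (rv : Bool) (A A' : V → Option X × Option R) : Prop :=
  ∀ v, (∀ u x, PL.cls v u → (A u).1 = some x → tt x = PL.pos v / 2 ^ Q →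
      rkT PL tt κ A u x = (if rv then rev Q (PL.pos v % 2 ^ Q) else PL.pos v % 2 ^ Q) → rkT PL tt κ A u x < cap → A' v = A u) ∧
    ((∀ u x, PL.cls v u → (A u).1 = some x → ¬ (tt x = PL.pos v / 2 ^ Q ∧
      rkT PL tt κ A u x = (if rv then rev Q (PL.pos v % 2 ^ Q) else PL.pos v % 2 ^ Q) ∧ rkT PL tt κ A u x < cap)) → A' v = emp)

/-- Packing of the lines with at most `cap` items and reversal. -/
def LineSpec {Q : ℕ} (BB : Blk V Q) (cap : ℕ) (A A' : V → Option X × Option R) : Prop :=
  ∀ v, (∀ u, BB.cls v u → (A u).1.isSome → cnt BB (fun z => (A z).1.isSome) u = rev Q (BB.pos v) → rev Q (BB.pos v) < cap → A' v = A u) ∧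
    ((∀ u, BB.cls v u → (A u).1.isSome → ¬ (cnt BB (fun z => (A z).1.isSome) u = rev Q (BB.pos v) ∧ rev Q (BB.pos v) < cap)) → A' v = emp)

end

/-- The group of an item in the stage for the chunk `jj`. -/
def ttW {X : Type} (Q jj : ℕ) (x : Lb X) : ℕ := x.1.2.2 / 2 ^ (jj * Q) % 2 ^ Q

/-- The key in the stage for the chunk `jj`: group, then balance number of the origin, then unit of the origin. -/
def kapW {X : Type} (Q Z jj : ℕ) (x : Lb X) : ℕ := (ttW Q jj x * 2 ^ Q + x.1.2.1) * 2 ^ (Z * Q) + x.1.1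

/-- Specification of the routing of the units. -/
def WRSpec {V X R : Type} {m g Q Z : ℕ} (B : Blk V m) (hm : m = g + Q + Z * Q) (δ : V → Option ℕ) (a b : V → Option X × Option R) (v : V) : Prop :=
  (∀ p, p < 2 ^ (Z * Q) → δ ((Uni B hm).nd v p) = some ((Uni B hm).pos v) → b v = a ((Uni B hm).nd v p)) ∧
    ((∀ p, p < 2 ^ (Z * Q) → δ ((Uni B hm).nd v p) ≠ some ((Uni B hm).pos v)) → b v = emp)

end Pool.Agent.H31.HS
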