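import Mathlib
import Pool.Agent.H31.HS.BitF3

/-!
# LinF: lines of digit blocks and of products

`lines_bits`: digit `t` of the block of the digits `i, ..., i+l-1` is digit `i + t` (`bits_bits`; `k * i + k * t = k * (i + t)`).
`lines_prod`: digit `t < n2` of the product is digit `t` of `BE` (`prod_bits_low`), digit `n2 + t` is digit `t` of `BS` (`prod_bits_high`); use the fields
`hm : l = k * n2` to rewrite `k * (n2 + t) = l + k * t`.
`lines_mono`: `Sz.mono` in the hypotheses of `Rounds`.
-/

set_option autoImplicit false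

namespace Pool.Agent.H31.HS

variable {V Ω R : Type} {m l : ℕ}

private theorem lf_cast (B : Blk V m) {a b k : ℕ} (e : a = b) (ha : a + k ≤ m) (hb : b + k ≤ m) :
    B.bits a k ha = B.bits b k hb := by
  subst e
  rfl

theorem lines_bits {M : Mach V Ω R} {Lam k n r0 : ℕ} {B : Blk V m} (hL : Lines M Lam B k n r0) {i j : ℕ} (hij : i + j ≤ n)
    (h : k * i + k * j ≤ m) : Lines M Lam (B.bits (k * i) (k * j) h) k j r0 := by
  refine ⟨rfl, hL.hk, fun t ht htj => ?_⟩
  have h1 : k * (i + t) + k ≤ m := by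
    have e1 : k * (i + t) + k = k * i + (k * t + k) := by ring
    omega
  have h2 := hL.rnd (i + t) h1 (by omega)
  have e2 : k * i + k * t = k * (i + t) := by ring
  rw [bits_bits B h ht (by omega), lf_cast B e2 (by omega) h1]
  exact h2

theorem lines_prod {M : Mach V Ω R} {Lam k n1 n2 r0 : ℕ} {BS : Blk V m} {BE : Blk V l} (h : Blk.Comm BS BE)
    (hS : Lines M Lam BS k n1 r0) (hE : Lines M Lam BE k n2 r0) : Lines M Lam (Blk.prod BS BE h) k (n1 + n2) r0 := by
  have hm := hS.hm
  have hl := hE.hm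
  refine ⟨by rw [hm, hl]; ring, hS.hk, fun t ht htn => ?_⟩
  by_cases htn2 : t < n2
  · have h1 : k * t + k ≤ l := by
      rw [hl]
      calc k * t + k = k * (t + 1) := by ring
        _ ≤ k * n2 := Nat.mul_le_mul_left k htn2
    rw [prod_bits_low h h1 ht]
    exact hE.rnd t h1 htn2
  · obtain ⟨t', rfl⟩ := Nat.exists_eq_add_of_le (not_lt.1 htn2)
    have h1 : k * t' + k ≤ m := by
      rw [hm]
      calc k * t' + k = k * (t' + 1) := by ring
        _ ≤ k * n1 := Nat.mul_le_mul_left k (by omega)
    have e2 : k * (n2 + t') = l + k * t' := by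
      rw [hl]
      ring
    rw [lf_cast (Blk.prod BS BE h) e2 ht (by omega), prod_bits_high h h1 (by omega)]
    exact hS.rnd t' h1 (by omega)

theorem lines_mono {M : Mach V Ω R} {Lam Lam' k n r0 : ℕ} {B : Blk V m} (hL : Lines M Lam B k n r0) (h : Lam' ≤ Lam) :
    Lines M Lam' B k n r0 := by
  refine ⟨hL.hm, hL.hk, fun t ht htn => ?_⟩
  intro P X Y a b hX hY ha hb
  exact hL.rnd t ht htn P X Y a b (hX.mono h) (hY.mono h) ha hb

end Pool.Agent.H31.HS
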