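import Mathlib
import Pool.Agent.H31.HS.RBas

/-!
# Link: the machine of the cube sends one item along each link of each virtual node in `2^t` steps

Proof. `D = d + t`. Let `S` be the finite set of the hypothesis `Sz Lam`, `S.card ≤ Lam`; as `2 * Lam ≤ card L` there is an injective map
`enc : S × Bool → L` (`Function.Embedding.nonempty_of_card_le`).  For `τ : Node t` (there are `2^t`; enumerate them, or do an induction over a list of all `τ`) and a real
node `x` let `(x, τ) : Node (d+t)` be the virtual node (`Fin.append x τ`), `lowN (x, τ) = x`.  The real step `m_τ` is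
`m_τ x i ρ = some (record, enc (label, flag))`, where `(label, o) = a (x, τ) (castAdd t i) ρ`, `flag = o.isSome`, `record = o.getD x`.
It is valid after every extension of `P` (`Has` is monotone: `Has.mono`; own record: `own_held`).  Let `P'` be `P` with all steps `m_τ` in front.
A link `castAdd t i` of `(x, τ)` leads to `(flp i x, τ)`: the real node `flp i x` receives in step `m_τ` in direction `i` (note `flp i (flp i x) = x`) the message
`m_τ x i ρ`; so if `Sim P' (flp i x) ρ ρ'` then these messages are equal, hence the labels and flags are equal (`enc` injective), and the records are equal if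
the flag is true: `a _ _ ρ = a _ _ ρ'`; the record is held (definition of `held`, second part; `held_append`).
A link `natAdd d j` leads to a virtual node with the same real node (`lowN (flp (natAdd d j) v) = lowN v`): nothing to do (`Has.mono`, `Has` depends only on `lowN v`).
-/

set_option autoImplicit false

namespace Pool.Agent.H31.HS

private theorem has_congr {d t : ℕ} {L X : Type} {P : (cubeMach d t L).Pl} {v v' : Node (d + t)}
    {a : Inp d → X × Option (Node d)} (h : lowN v = lowN v') (ha : (cubeMach d t L).Has P v a) :
    (cubeMach d t L).Has P v' a := by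
  constructor
  · intro w w' hs
    apply ha.1 w w'
    show Sim P.1 (lowN v) w w'
    rw [h]
    exact hs
  · intro w r hr
    show r ∈ held P.1 (lowN v') w
    rw [← h]
    exact ha.2 w r hr

private theorem lowN_append {d t : ℕ} (x : Node d) (τ : Node t) : lowN (Fin.append x τ) = x := by
  funext i
  unfold lowN
  exact Fin.append_left x τ i

private theorem lowN_flp_cast {d t : ℕ} (i : Fin d) (v : Node (d + t)) :
    lowN (flp (Fin.castAdd t i) v) = flp i (lowN v) := by
  funext j
  unfold lowN flp
  by_cases hj : j = i
  · subst hj
    rw [Function.update_self, Function.update_self]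
  · rw [Function.update_of_ne hj, Function.update_of_ne]
    intro hc
    exact hj (Fin.castAdd_injective d t hc)

private theorem lowN_flp_nat {d t : ℕ} (j : Fin t) (v : Node (d + t)) :
    lowN (flp (Fin.natAdd d j) v) = lowN v := by
  funext i
  unfold lowN flp
  rw [Function.update_of_ne]
  intro hc
  have h1 := congrArg Fin.val hc
  rw [Fin.val_castAdd, Fin.val_natAdd] at h1
  have h2 := i.isLt
  omega

private theorem opt_eq {R : Type} {x : R} {o o' : Option R} (h1 : o.isSome = o'.isSome)
    (h2 : o.getD x = o'.getD x) : o = o' := by
  cases o with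
  | none =>
    cases o' with
    | none => rfl
    | some r' => simp at h1
  | some r =>
    cases o' with
    | none => simp at h1
    | some r' =>
      simp only [Option.getD_some] at h2
      rw [h2]

theorem link_step (d t : ℕ) (L : Type) [Fintype L] (Lam : ℕ) (h : 2 * Lam ≤ Fintype.card L) :
    LinkStep (cubeMach d t L) Lam (2 ^ t) := by
  classical
  intro P X a hSz ha
  obtain ⟨S, hSc, hS⟩ := hSz
  obtain ⟨enc⟩ : Nonempty (({s // s ∈ S} × Bool) ↪ L) := by
    apply Function.Embedding.nonempty_of_card_le
    rw [Fintype.card_prod, Fintype.card_coe, Fintype.card_bool]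
    omega
  have key : ∀ T : List (Node t), ∃ P' : (cubeMach d t L).Pl, (cubeMach d t L).ext P P' ∧
      (cubeMach d t L).len P' = (cubeMach d t L).len P + T.length ∧
      ∀ τ ∈ T, ∀ (x : Node d) (i : Fin d), (cubeMach d t L).Has P'
        (flp (Fin.castAdd t i) (Fin.append x τ)) (a (Fin.append x τ) (Fin.castAdd t i)) := by
    intro T
    induction T with
    | nil =>
      refine ⟨P, (cubeMach d t L).ext_refl P, rfl, ?_⟩
      intro τ hτ
      exact absurd hτ (List.not_mem_nil)
    | cons τ T ih =>
      obtain ⟨P', hext, hlen, hP'⟩ := ih
      obtain ⟨m, hm⟩ : ∃ m : Step d L, ∀ x i ρ, m x i ρ =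
          some ((a (Fin.append x τ) (Fin.castAdd t i) ρ).2.getD x,
            enc (⟨(a (Fin.append x τ) (Fin.castAdd t i) ρ).1,
              hS (Fin.append x τ, Fin.castAdd t i) ρ⟩,
              (a (Fin.append x τ) (Fin.castAdd t i) ρ).2.isSome)) := ⟨_, fun _ _ _ => rfl⟩
      have hHas : ∀ (x : Node d) (i : Fin d), (cubeMach d t L).Has P' (Fin.append x τ)
          (a (Fin.append x τ) (Fin.castAdd t i)) := fun x i => (ha _ _).mono hext
      have hknow : ∀ (x : Node d) (i : Fin d) (ρ ρ' : Inp d), Sim P'.1 x ρ ρ' →
          a (Fin.append x τ) (Fin.castAdd t i) ρ = a (Fin.append x τ) (Fin.castAdd t i) ρ' := by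
        intro x i ρ ρ' hs
        apply (hHas x i).1 ρ ρ'
        show Sim P'.1 (lowN (Fin.append x τ)) ρ ρ'
        rw [lowN_append]
        exact hs
      have hheld : ∀ (x : Node d) (i : Fin d) (ρ : Inp d) (r : Node d),
          (a (Fin.append x τ) (Fin.castAdd t i) ρ).2 = some r → r ∈ held P'.1 x ρ := by
        intro x i ρ r hr
        have h1 : r ∈ held P'.1 (lowN (Fin.append x τ)) ρ := (hHas x i).2 ρ r hr
        rw [lowN_append] at h1
        exact h1
      have hvalid : Valid (m :: P'.1) := by
        refine ⟨P'.2, ?_, ?_⟩
        · intro x i ρ r l hml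
          rw [hm] at hml
          have h1 : (a (Fin.append x τ) (Fin.castAdd t i) ρ).2.getD x = r :=
            (Prod.mk.inj (Option.some.inj hml)).1
          cases h2 : (a (Fin.append x τ) (Fin.castAdd t i) ρ).2 with
          | none =>
            rw [h2] at h1
            have h3 : x = r := h1
            rw [← h3]
            exact own_held _ _ _
          | some r' =>
            rw [h2] at h1
            have h3 : r' = r := h1
            rw [← h3]
            exact hheld x i ρ r' h2
        · intro x i ρ ρ' hs
          rw [hm, hm]
          have h1 := hknow x i ρ ρ' hs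
          simp only [h1]
      refine ⟨⟨m :: P'.1, hvalid⟩, (cubeMach d t L).ext_trans _ _ _ hext ⟨[m], rfl⟩, ?_, ?_⟩
      · show (m :: P'.1).length = P.1.length + (τ :: T).length
        have h1 : P'.1.length = P.1.length + T.length := hlen
        rw [List.length_cons, List.length_cons, h1]
        rfl
      · intro τ' hτ' x i
        rcases List.mem_cons.mp hτ' with rfl | hτ''
        · constructor
          · intro ρ ρ' hs
            have hs' : Sim (m :: P'.1) (flp i x) ρ ρ' := by
              have h1 : Sim (m :: P'.1) (lowN (flp (Fin.castAdd t i) (Fin.append x τ'))) ρ ρ' := hs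
              rw [lowN_flp_cast, lowN_append] at h1
              exact h1
            have h2 := hs'.2.1 i
            rw [flp_flp, hm, hm] at h2
            have h3 := Prod.mk.inj (Option.some.inj h2)
            have h4 := Prod.mk.inj (enc.injective h3.2)
            have h5 := congrArg Subtype.val h4.1
            exact Prod.ext h5 (opt_eq h4.2 h3.1)
          · intro ρ r hr
            show r ∈ held (m :: P'.1) (lowN (flp (Fin.castAdd t i) (Fin.append x τ'))) ρ
            rw [lowN_flp_cast, lowN_append]
            refine Or.inr ⟨i, enc (⟨(a (Fin.append x τ') (Fin.castAdd t i) ρ).1,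
              hS (Fin.append x τ', Fin.castAdd t i) ρ⟩,
              (a (Fin.append x τ') (Fin.castAdd t i) ρ).2.isSome), ?_⟩
            rw [flp_flp, hm, hr]
            rfl
        · exact (hP' τ' hτ'' x i).mono ⟨[m], rfl⟩
  obtain ⟨P', hext, hlen, hP'⟩ := key (Finset.univ : Finset (Node t)).toList
  refine ⟨P', hext, ?_, ?_⟩
  · rw [hlen, Finset.length_toList, Finset.card_univ]
    have h1 : Fintype.card (Node t) = 2 ^ t := by
      rw [Fintype.card_fun, Fintype.card_bool, Fintype.card_fin]
    rw [h1]
  · intro v i
    refine Fin.addCases (fun i => ?_) (fun j => ?_) i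
    · have h1 : Fin.append (lowN v) (fun j => v (Fin.natAdd d j)) = v := by
        unfold lowN
        exact Fin.append_castAdd_natAdd
      have h2 := hP' (fun j => v (Fin.natAdd d j)) (Finset.mem_toList.mpr (Finset.mem_univ _))
        (lowN v) i
      rw [h1] at h2
      exact h2
    · exact has_congr (lowN_flp_nat j v).symm ((ha v (Fin.natAdd d j)).mono hext)

end Pool.Agent.H31.HS
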