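import Mathlib
import Pool.Agent.H69.HS.Clos
import Pool.Agent.H31.HS.BitF1

/-!
# ClosB: every permutation inside the classes of `B` in three stages

`m = i + l`.  Choose for every class a representative `rho v := B.nd v 0` (constant on classes: `B.nd_of_cls`).  For a representative `r` the permutation
`Φ` gives a permutation of `Fin (2^i) × Fin (2^l)` (`(x, y) ↔ the node number y * 2^i + x` of the class of `r`, `x < 2^i`, `y < 2^l`); apply `H69.HS.clos` to it
(`f g h`, chosen for every `r`).  `Φ1 v`: same class, low bits `x` unchanged, high bits `f x y`; `Φ2`: high bits `y` unchanged, low bits `g y x`; `Φ3`: low bits `x`, high bits `h x y`.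
They are bijections of `V` (inverse: same formula with the inverse permutations; nodes stay in their class, so the representative does not change);
the class conditions: `bits_cls` (`2^(i+l) = 2^m`, all numbers below `2^m`; for `B.bits 0 i` the condition is: same `B.pos / 2^i`).
-/

set_option autoImplicit false

namespace Pool.Agent.H31.HS

variable {V : Type} {m : ℕ}

/-- representatives -/
private abbrev Rp (B : Blk V m) : Type := {r : V // B.pos r = 0}

private theorem num_lt {i l m : ℕ} (hm : m = i + l) (x : Fin (2 ^ i)) (y : Fin (2 ^ l)) :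
    y.1 * 2 ^ i + x.1 < 2 ^ m := by
  have h1 := x.2
  have h2 : (y.1 + 1) * 2 ^ i ≤ 2 ^ l * 2 ^ i := Nat.mul_le_mul_right _ y.2
  rw [hm, add_comm i l, pow_add]
  nlinarith

/-- coordinates -/
private def crd (B : Blk V m) {i l : ℕ} (hm : m = i + l) : V ≃ Rp B × (Fin (2 ^ i) × Fin (2 ^ l)) where
  toFun v := (⟨B.nd v 0, B.pos_nd v 0 (by positivity)⟩,
    (⟨B.pos v % 2 ^ i, Nat.mod_lt _ (by positivity)⟩, ⟨B.pos v / 2 ^ i, by
      rw [Nat.div_lt_iff_lt_mul (by positivity), ← pow_add, add_comm l i, ← hm]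
      exact B.pos_lt v⟩))
  invFun u := B.nd u.1.1 (u.2.2.1 * 2 ^ i + u.2.1.1)
  left_inv v := by
    simp only
    rw [B.nd_nd v 0 _ (by positivity) (by rw [Nat.div_add_mod']; exact B.pos_lt v),
      Nat.div_add_mod', B.nd_pos]
  right_inv u := by
    obtain ⟨⟨r, hr⟩, x, y⟩ := u
    have hlt := num_lt hm x y
    have hp : B.pos (B.nd r (y.1 * 2 ^ i + x.1)) = y.1 * 2 ^ i + x.1 := B.pos_nd r _ hlt
    have h0 : B.nd (B.nd r (y.1 * 2 ^ i + x.1)) 0 = r := by
      rw [B.nd_nd r _ 0 hlt (by positivity)]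
      have := B.nd_pos r
      rwa [hr] at this
    refine Prod.ext (Subtype.ext h0) (Prod.ext (Fin.ext ?_) (Fin.ext ?_))
    · change B.pos (B.nd r (y.1 * 2 ^ i + x.1)) % 2 ^ i = x.1
      rw [hp, Nat.mul_add_mod', Nat.mod_eq_of_lt x.2]
    · change B.pos (B.nd r (y.1 * 2 ^ i + x.1)) / 2 ^ i = y.1
      rw [hp, mul_comm, Nat.mul_add_div (by positivity), Nat.div_eq_of_lt x.2, add_zero]

private theorem crd_cls (B : Blk V m) {i l : ℕ} (hm : m = i + l) (v : V) (x : Fin (2 ^ i))
    (y : Fin (2 ^ l)) : B.cls v ((crd B hm).symm ((crd B hm v).1, (x, y))) := by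
  change B.cls v (B.nd (B.nd v 0) (y.1 * 2 ^ i + x.1))
  rw [B.nd_nd v 0 _ (by positivity) (num_lt hm x y)]
  exact B.cls_nd v (num_lt hm x y)

private theorem crd_pos (B : Blk V m) {i l : ℕ} (hm : m = i + l)
    (u : Rp B × (Fin (2 ^ i) × Fin (2 ^ l))) :
    B.pos ((crd B hm).symm u) = u.2.2.1 * 2 ^ i + u.2.1.1 :=
  B.pos_nd _ _ (num_lt hm u.2.1 u.2.2)

private theorem crd_eq (B : Blk V m) {i l : ℕ} (hm : m = i + l) {v u : V} (h : B.cls v u) :
    (crd B hm u).1 = (crd B hm v).1 := by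
  apply Subtype.ext
  change B.nd u 0 = B.nd v 0
  exact B.nd_of_cls h (by positivity)

/-- a permutation which keeps the class and the low bits -/
private def stH (B : Blk V m) {i l : ℕ} (hm : m = i + l)
    (f : Rp B → Fin (2 ^ i) → Equiv.Perm (Fin (2 ^ l))) : Equiv.Perm V where
  toFun v := (crd B hm).symm ((crd B hm v).1, ((crd B hm v).2.1,
    f (crd B hm v).1 (crd B hm v).2.1 (crd B hm v).2.2))
  invFun v := (crd B hm).symm ((crd B hm v).1, ((crd B hm v).2.1,
    (f (crd B hm v).1 (crd B hm v).2.1).symm (crd B hm v).2.2))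
  left_inv v := by
    simp only [Equiv.apply_symm_apply, Equiv.symm_apply_apply, Prod.mk.eta]
  right_inv v := by
    simp only [Equiv.apply_symm_apply, Equiv.symm_apply_apply, Prod.mk.eta]

/-- a permutation which keeps the class and the high bits -/
private def stL (B : Blk V m) {i l : ℕ} (hm : m = i + l)
    (g : Rp B → Fin (2 ^ l) → Equiv.Perm (Fin (2 ^ i))) : Equiv.Perm V where
  toFun v := (crd B hm).symm ((crd B hm v).1, (g (crd B hm v).1 (crd B hm v).2.2 (crd B hm v).2.1,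
    (crd B hm v).2.2))
  invFun v := (crd B hm).symm ((crd B hm v).1,
    ((g (crd B hm v).1 (crd B hm v).2.2).symm (crd B hm v).2.1, (crd B hm v).2.2))
  left_inv v := by
    simp only [Equiv.apply_symm_apply, Equiv.symm_apply_apply, Prod.mk.eta]
  right_inv v := by
    simp only [Equiv.apply_symm_apply, Equiv.symm_apply_apply, Prod.mk.eta]

private theorem stH_cls (B : Blk V m) {i l : ℕ} (hm : m = i + l) (h2 : i + l ≤ m)
    (f : Rp B → Fin (2 ^ i) → Equiv.Perm (Fin (2 ^ l))) (v : V) :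
    (B.bits i l h2).cls v (stH B hm f v) := by
  rw [bits_cls]
  refine ⟨crd_cls B hm v _ _, ?_, ?_⟩
  · rw [Nat.div_eq_of_lt (by rw [← hm]; exact B.pos_lt _),
      Nat.div_eq_of_lt (by rw [← hm]; exact B.pos_lt _)]
  · change _ = B.pos ((crd B hm).symm _) % 2 ^ i
    rw [crd_pos, Nat.mul_add_mod']
    change _ = (B.pos v % 2 ^ i) % 2 ^ i
    rw [Nat.mod_mod]

private theorem stL_cls (B : Blk V m) {i l : ℕ} (hm : m = i + l) (h1 : 0 + i ≤ m)
    (g : Rp B → Fin (2 ^ l) → Equiv.Perm (Fin (2 ^ i))) (v : V) :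
    (B.bits 0 i h1).cls v (stL B hm g v) := by
  rw [bits_cls]
  refine ⟨crd_cls B hm v _ _, ?_, ?_⟩
  · change _ = B.pos ((crd B hm).symm _) / 2 ^ (0 + i)
    rw [crd_pos, zero_add, mul_comm, Nat.mul_add_div (by positivity),
      Nat.div_eq_of_lt (Fin.is_lt _), add_zero]
    rfl
  · rw [pow_zero, Nat.mod_one, Nat.mod_one]

theorem clos_blk (B : Blk V m) {i l : ℕ} (hm : m = i + l) (h1 : 0 + i ≤ m) (h2 : i + l ≤ m) (Φ : Equiv.Perm V)
    (hΦ : ∀ v, B.cls v (Φ v)) :
    ∃ Φ1 Φ2 Φ3 : Equiv.Perm V, (∀ v, (B.bits i l h2).cls v (Φ1 v)) ∧ (∀ v, (B.bits 0 i h1).cls v (Φ2 v)) ∧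
      (∀ v, (B.bits i l h2).cls v (Φ3 v)) ∧ ∀ v, Φ v = Φ3 (Φ2 (Φ1 v)) := by
  have hE : ∀ u, (crd B hm (Φ ((crd B hm).symm u))).1 = u.1 := by
    intro u
    rw [crd_eq B hm (hΦ _), Equiv.apply_symm_apply]
  have hE' : ∀ u, (crd B hm (Φ.symm ((crd B hm).symm u))).1 = u.1 := by
    intro u
    have h3 := hΦ (Φ.symm ((crd B hm).symm u))
    rw [Equiv.apply_symm_apply] at h3
    rw [crd_eq B hm (B.cls_symm h3), Equiv.apply_symm_apply]
  have hex : ∀ r : Rp B, ∃ (f : Fin (2 ^ i) → Equiv.Perm (Fin (2 ^ l)))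
      (g : Fin (2 ^ l) → Equiv.Perm (Fin (2 ^ i))) (h : Fin (2 ^ i) → Equiv.Perm (Fin (2 ^ l))),
      ∀ a b, (crd B hm (Φ ((crd B hm).symm (r, (a, b))))).2 =
        (g (f a b) a, h (g (f a b) a) (f a b)) := by
    intro r
    let π : Equiv.Perm (Fin (2 ^ i) × Fin (2 ^ l)) :=
      { toFun := fun u => (crd B hm (Φ ((crd B hm).symm (r, u)))).2
        invFun := fun u => (crd B hm (Φ.symm ((crd B hm).symm (r, u)))).2
        left_inv := fun u => by
          have h3 : (r, (crd B hm (Φ ((crd B hm).symm (r, u)))).2) =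
              crd B hm (Φ ((crd B hm).symm (r, u))) := Prod.ext (hE (r, u)).symm rfl
          simp only
          rw [h3, Equiv.symm_apply_apply, Equiv.symm_apply_apply, Equiv.apply_symm_apply]
        right_inv := fun u => by
          have h3 : (r, (crd B hm (Φ.symm ((crd B hm).symm (r, u)))).2) =
              crd B hm (Φ.symm ((crd B hm).symm (r, u))) := Prod.ext (hE' (r, u)).symm rfl
          simp only
          rw [h3, Equiv.symm_apply_apply, Equiv.apply_symm_apply, Equiv.apply_symm_apply] }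
    obtain ⟨f, g, h, hfgh⟩ := H69.HS.clos π
    exact ⟨f, g, h, fun a b => hfgh a b⟩
  choose f g h hfgh using hex
  refine ⟨stH B hm f, stL B hm g, stH B hm h, stH_cls B hm h2 f, stL_cls B hm h1 g,
    stH_cls B hm h2 h, fun v => ?_⟩
  apply (crd B hm).injective
  have h3 := hfgh (crd B hm v).1 (crd B hm v).2.1 (crd B hm v).2.2
  rw [Prod.mk.eta, Equiv.symm_apply_apply] at h3
  have h4 : (crd B hm (Φ v)).1 = (crd B hm v).1 := crd_eq B hm (hΦ v)
  refine Prod.ext ?_ ?_
  · rw [h4]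
    change _ = (crd B hm ((crd B hm).symm _)).1
    rw [Equiv.apply_symm_apply]
    change _ = (crd B hm ((crd B hm).symm _)).1
    rw [Equiv.apply_symm_apply]
    change _ = (crd B hm ((crd B hm).symm _)).1
    rw [Equiv.apply_symm_apply]
  · rw [h3]
    simp only [stH, stL, Equiv.coe_fn_mk, Equiv.apply_symm_apply]

end Pool.Agent.H31.HS
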