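import Mathlib
import Pool.Agent.H31.HS.Lin

/-!
# Iter: iteration, local computations
-/

set_option autoImplicit false

namespace Pool.Agent.H31.HS

variable {V Ω R : Type} {M : Mach V Ω R}

namespace Mach

theorem Do.iter {c n : ℕ} {P : M.Pl} {Φ : ℕ → M.Pl → Prop} (h0 : Φ 0 P)
    (hs : ∀ t, t < n → ∀ P', M.ext P P' → Φ t P' → M.Do c P' (Φ (t + 1))) : M.Do (n * c) P (Φ n) := by
  induction n with
  | zero => exact Do.pure h0
  | succ n ih =>
    rw [Nat.succ_mul]
    exact (ih (fun t ht => hs t (by omega))).bind (fun P' he h => hs n (by omega) P' he h)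

/-- The item is relabelled. -/
theorem Has.map {X Y : Type} {P : M.Pl} {v : V} {a : Ω → X × Option R} (h : M.Has P v a) (f : X → Y) :
    M.Has P v (fun w => (f (a w).1, (a w).2)) := by
  constructor
  · intro w w' hs
    show (f (a w).1, (a w).2) = (f (a w').1, (a w').2)
    rw [h.1 w w' hs]
  · intro w r hr
    exact h.2 w r hr

/-- An item whose label and record are computed from something known: general form. -/
theorem Has.of {X Y : Type} {P : M.Pl} {v : V} {a : Ω → X × Option R} {b : Ω → Y × Option R} (ha : M.Has P v a) (hb : M.Knows P v b)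
    (h : ∀ w r, (b w).2 = some r → (a w).2 = some r) : M.Has P v b :=
  ⟨hb, fun w r hr => ha.2 w r (h w r hr)⟩

/-- Choice between two items by a known condition. -/
theorem Has.ite {X : Type} {P : M.Pl} {v : V} {a b : Ω → X × Option R} (ha : M.Has P v a) (hb : M.Has P v b) {p : Ω → Bool}
    (hp : M.Knows P v p) : M.Has P v (fun w => if p w then a w else b w) := by
  constructor
  · intro w w' hs
    show (if p w then a w else b w) = (if p w' then a w' else b w')
    rw [ha.1 w w' hs, hb.1 w w' hs, hp w w' hs]
  · intro w r hr
    have hr' : (if p w then a w else b w).2 = some r := hr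
    by_cases h : p w = true
    · rw [if_pos h] at hr'
      exact ha.2 w r hr'
    · rw [if_neg h] at hr'
      exact hb.2 w r hr'

/-- The empty item. -/
theorem Has.emp {X : Type} (P : M.Pl) (v : V) : M.Has P v (fun _ => ((none : Option X), (none : Option R))) := by
  constructor
  · intro w w' hs
    rfl
  · intro w r hr
    simp at hr

theorem Knows.triv {α : Sort*} {P : M.Pl} {v : V} {f g : Ω → α} (h : M.Knows P v f) (hg : ∀ w, g w = f w) : M.Knows P v g := by
  intro w w' hs
  rw [hg w, hg w']
  exact h w w' hs

theorem Has.triv {X : Type} {P : M.Pl} {v : V} {a b : Ω → X × Option R} (h : M.Has P v a) (hg : ∀ w, b w = a w) : M.Has P v b := by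
  have : b = a := funext hg
  rw [this]
  exact h

end Mach

end Pool.Agent.H31.HS
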