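import Mathlib
import Pool.Agent.H31.HS.Arr
import Pool.Agent.H31.HS.Iter

/-!
# SelR: one round of selection

`sel_round`: every node takes an item of its class which satisfies a criterion `C v u L`, where `L` are the labels of the class, or the empty item.
Proof: `b v w := if h : ∃ u, cls v u ∧ C v u (labels at w) then a h.choose w else emp` (classical).  Apply `hR` with `X`, `Y := Option X`; sizes: `Sm.sz`, `Sm.of_range`.
`Det`: if all items of the class agree at `w` and `w'`, then by `hC` (both directions) the predicates `fun u => cls v u ∧ C v u (labels)` at `w`, `w'` are equal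
(`funext`, `propext`), so the choices are equal (rewrite the predicate), and `b v w = b v w'`.  The record of `b v w` is the record of a member of the class.
`knows_round`: every node learns a function of the values of its class.  Items without record `(f v w, none)`.
-/

set_option autoImplicit false

namespace Pool.Agent.H31.HS

variable {V Ω R : Type}

theorem sel_round {M : Mach V Ω R} {Lam r0 S : ℕ} {cls : V → V → Prop} (hR : M.Rounds Lam cls r0) (hS : S + 1 ≤ Lam) {X : Type}
    (P : M.Pl) (a : V → Ω → Option X × Option R) (hs : Sm S a) (ha : ∀ v, M.Has P v (a v)) (C : V → V → (V → Option X) → Prop)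
    (hC : ∀ v u L L', (∀ z, cls v z → L z = L' z) → C v u L → C v u L') :
    M.Do r0 P (fun P' => ∃ b : V → Ω → Option X × Option R, (∀ v, M.Has P' v (b v)) ∧
      ∀ w v, (∃ u, cls v u ∧ C v u (fun z => (a z w).1) ∧ b v w = a u w) ∨
        ((∀ u, cls v u → ¬ C v u (fun z => (a z w).1)) ∧ b v w = emp)) := by
  classical
  obtain ⟨b, hb⟩ : ∃ b : V → Ω → Option X × Option R, b = fun v w =>
      if h : ∃ u, cls v u ∧ C v u (fun z => (a z w).1) then a h.choose w else emp := ⟨_, rfl⟩
  have hspec : ∀ w v, (∃ u, cls v u ∧ C v u (fun z => (a z w).1) ∧ b v w = a u w) ∨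
      ((∀ u, cls v u → ¬ C v u (fun z => (a z w).1)) ∧ b v w = emp) := by
    intro w v
    by_cases h : ∃ u, cls v u ∧ C v u (fun z => (a z w).1)
    · left
      refine ⟨h.choose, h.choose_spec.1, h.choose_spec.2, ?_⟩
      rw [hb]
      exact dif_pos h
    · right
      refine ⟨fun u h1 h2 => h ⟨u, h1, h2⟩, ?_⟩
      rw [hb]
      exact dif_neg h
  have haux : ∀ (w w' : Ω) (Q Q' : V → Prop), Q = Q' → (∀ u, Q u → a u w = a u w') →
      (if h : ∃ u, Q u then a h.choose w else emp) = (if h : ∃ u, Q' u then a h.choose w' else emp) := by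
    intro w w' Q Q' hQ h1
    subst hQ
    split_ifs with h
    · exact h1 _ h.choose_spec
    · rfl
  have hsb : Sm S b := by
    refine hs.of_range fun v w => ?_
    rcases hspec w v with ⟨u, _, _, h⟩ | ⟨_, h⟩
    · exact Or.inr ⟨u, w, h⟩
    · left
      rw [h]
      rfl
  refine (hR P (Option X) (Option X) a b (hs.sz.mono hS) (hsb.sz.mono hS) ha fun v => ⟨?_, ?_⟩).mono le_rfl
    fun P' _ h => ⟨b, h, hspec⟩
  · intro w w' h1 _
    have h2 : ∀ u, cls v u → a u w = a u w' := fun u hu => h1 ⟨u, hu⟩
    rw [hb]
    refine haux w w' _ _ ?_ fun u hu => h2 u hu.1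
    funext u
    refine propext ⟨fun h => ⟨h.1, ?_⟩, fun h => ⟨h.1, ?_⟩⟩
    · exact hC v u _ _ (fun z hz => by
        show (a z w).1 = (a z w').1
        rw [h2 z hz]) h.2
    · exact hC v u _ _ (fun z hz => by
        show (a z w').1 = (a z w).1
        rw [h2 z hz]) h.2
  · intro w r hr
    rcases hspec w v with ⟨u, hu, _, h⟩ | ⟨_, h⟩
    · rw [h] at hr
      exact ⟨⟨u, hu⟩, hr⟩
    · rw [h] at hr
      exact absurd hr (by simp [emp])

theorem knows_round {M : Mach V Ω R} {Lam r0 : ℕ} {cls : V → V → Prop} (hR : M.Rounds Lam cls r0) {X Y : Type}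
    (P : M.Pl) (f : V → Ω → X) (g : V → Ω → Y) (hf : Sz Lam f) (hg : Sz Lam g) (ha : ∀ v, M.Knows P v (f v))
    (hd : ∀ v w w', (∀ u, cls v u → f u w = f u w') → g v w = g v w') : M.Do r0 P (fun P' => ∀ v, M.Knows P' v (g v)) := by
  refine (hR P X Y (fun v w => (f v w, (none : Option R))) (fun v w => (g v w, (none : Option R))) hf hg
    (fun v => (ha v).has) fun v => ⟨?_, ?_⟩).mono le_rfl fun P' _ h => fun v => (h v).label
  · intro w w' h1 _
    have h2 : g v w = g v w' := hd v w w' fun u hu => congrArg Prod.fst (h1 ⟨u, hu⟩)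
    show (g v w, (none : Option R)) = (g v w', none)
    rw [h2]
  · intro w r hr
    simp at hr

end Pool.Agent.H31.HS
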