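import Mathlib
import Pool.Agent.H31.HS.ClosB
import Pool.Agent.H31.HS.SelR
import Pool.Agent.H31.HS.LinF

/-!
# Stat: a fixed permutation inside the classes costs `2 n` rounds

Induction over `n`, for all `B`, `Φ`, `X`, `a`, `P` (`B : Blk V m` with `m = k * n`).  `n = 0`: `m = 0`, classes are singletons, `Φ v = v`.  `n + 1`: `clos_blk` with `i = k n`, `l = k`:
`Φ = Φ3 Φ2 Φ1`.  A permutation `Ψ` inside the classes of digit `n` costs one round: `hL.rnd n` with items `a` and `b v = a (Ψ.symm v)` (`Det`: `b v` is one of the items of the class);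
sizes: `Sz.of_range`.  The middle one by induction hypothesis with `B.bits 0 (k n)` (`lines_bits` with `i = 0`; mind `k * 0`: use the fact that
`B.bits (k*0) (k*n)` and `B.bits 0 (k*n)` are equal, `Nat.mul_zero`).  If after the first stage `v` holds `a1 v = a (Φ1.symm v)`, then the stages compose to
`a (Φ.symm v)` at `v`.
-/

set_option autoImplicit false

namespace Pool.Agent.H31.HS

variable {V Ω R : Type} {m : ℕ}

private theorem one_round {M : Mach V Ω R} {Lam r0 q : ℕ} {B : Blk V q} (hR : M.Rounds Lam B.cls r0)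
    (Ψ : Equiv.Perm V) (hΨ : ∀ v, B.cls v (Ψ v)) {X : Type} (P : M.Pl) (a : V → Ω → X × Option R)
    (hs : Sz Lam (fun v w => (a v w).1)) (ha : ∀ v, M.Has P v (a v)) :
    M.Do r0 P (fun P' => ∀ v, M.Has P' (Ψ v) (a v)) := by
  have hc : ∀ v, B.cls v (Ψ.symm v) := by
    intro v
    have h := B.cls_symm (hΨ (Ψ.symm v))
    rw [Equiv.apply_symm_apply] at h
    exact h
  obtain ⟨P', h1, h2, h3⟩ := hR P X X a (fun v => a (Ψ.symm v)) hs
    (Sz.of_range hs (fun v w => ⟨Ψ.symm v, w, rfl⟩)) ha (fun v =>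
      ⟨fun w w' h4 _ => h4 ⟨Ψ.symm v, hc v⟩, fun w r hr => ⟨⟨Ψ.symm v, hc v⟩, hr⟩⟩)
  refine ⟨P', h1, h2, fun v => ?_⟩
  have h4 := h3 (Ψ v)
  rw [Equiv.symm_apply_apply] at h4
  exact h4

private theorem stat_aux {M : Mach V Ω R} {Lam k r0 : ℕ} (n : ℕ) : ∀ {m : ℕ} {B : Blk V m}
    (_ : Lines M Lam B k n r0) (Φ : Equiv.Perm V) (_ : ∀ v, B.cls v (Φ v)) {X : Type} (P : M.Pl)
    (a : V → Ω → X × Option R) (_ : Sz Lam (fun v w => (a v w).1))
    (_ : ∀ v, M.Has P v (a v)), M.Do (2 * n * r0) P (fun P' => ∀ v, M.Has P' (Φ v) (a v)) := by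
  induction n with
  | zero =>
    intro m B hL Φ hΦ X P a hs ha
    have hm : m = 0 := by rw [hL.hm, Nat.mul_zero]
    have h1 : ∀ v, Φ v = v := by
      intro v
      symm
      refine B.eq_of_cls (hΦ v) ?_
      have h2 := B.pos_lt v
      have h3 := B.pos_lt (Φ v)
      have h4 : 2 ^ m = 1 := by rw [hm, pow_zero]
      omega
    refine Mach.Do.pure fun v => ?_
    rw [h1 v]
    exact ha v
  | succ n ih =>
    intro m B hL Φ hΦ X P a hs ha
    have hm : m = k * n + k := by rw [hL.hm, Nat.mul_succ]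
    have h1 : 0 + k * n ≤ m := by omega
    have h2 : k * n + k ≤ m := by omega
    obtain ⟨Φ1, Φ2, Φ3, hΦ1, hΦ2, hΦ3, hΦe⟩ := clos_blk B hm h1 h2 Φ hΦ
    have hR := hL.rnd n h2 (Nat.lt_succ_self n)
    have hz : ∀ (z : ℕ) (hz : z + k * n ≤ m), z = 0 → B.bits z (k * n) hz = B.bits 0 (k * n) h1 := by
      rintro _ _ rfl
      rfl
    have hL' : Lines M Lam (B.bits 0 (k * n) h1) k n r0 := by
      have h3 : k * 0 + k * n ≤ m := by omega
      have h4 := lines_bits hL (i := 0) (j := n) (by omega) h3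
      rwa [hz (k * 0) h3 (Nat.mul_zero k)] at h4
    have hc : 2 * (n + 1) * r0 = r0 + (2 * n * r0 + r0) := by ring
    rw [hc]
    refine (one_round hR Φ1 hΦ1 P a hs ha).bind fun P1 _ hP1 => ?_
    have ha1 : ∀ v, M.Has P1 v (a (Φ1.symm v)) := by
      intro v
      have h5 := hP1 (Φ1.symm v)
      rw [Equiv.apply_symm_apply] at h5
      exact h5
    have hs1 : Sz Lam (fun v w => (a (Φ1.symm v) w).1) := Sz.of_range hs (fun v w => ⟨Φ1.symm v, w, rfl⟩)
    refine (ih hL' Φ2 hΦ2 P1 (fun v => a (Φ1.symm v)) hs1 ha1).bind fun P2 _ hP2 => ?_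
    have ha2 : ∀ v, M.Has P2 v (a (Φ1.symm (Φ2.symm v))) := by
      intro v
      have h5 := hP2 (Φ2.symm v)
      rw [Equiv.apply_symm_apply] at h5
      exact h5
    have hs2 : Sz Lam (fun v w => (a (Φ1.symm (Φ2.symm v)) w).1) :=
      Sz.of_range hs (fun v w => ⟨Φ1.symm (Φ2.symm v), w, rfl⟩)
    refine (one_round hR Φ3 hΦ3 P2 (fun v => a (Φ1.symm (Φ2.symm v))) hs2 ha2).mono le_rfl ?_
    intro P3 _ hP3 v
    have h5 := hP3 (Φ2 (Φ1 v))
    rw [← hΦe v] at h5
    simpa only [Equiv.symm_apply_apply] using h5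

theorem stat {M : Mach V Ω R} {Lam k n r0 : ℕ} {B : Blk V m} (hL : Lines M Lam B k n r0) (Φ : Equiv.Perm V)
    (hΦ : ∀ v, B.cls v (Φ v)) {X : Type} (P : M.Pl) (a : V → Ω → X × Option R) (hs : Sz Lam (fun v w => (a v w).1))
    (ha : ∀ v, M.Has P v (a v)) : M.Do (2 * n * r0) P (fun P' => ∀ v, M.Has P' (Φ v) (a v)) := by
  exact stat_aux n hL Φ hΦ P a hs ha

end Pool.Agent.H31.HS
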