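import Mathlib
import Pool.Agent.H31.HS.Stat

/-!
# Shift: permutations of the numbers

`permB B σ`: the permutation of `V` which maps the node number `t` of every class to the node number `σ t` of the class, for a permutation `σ` of the numbers below `2^m`
(given by functions `σ`, `τ` inverse to each other below `2^m`).  `statN`: cost `2 n` rounds (`stat`).
`shift`: `v` gets the item of the node `nd v ((pos v + c) % 2^m)` (`σ t = (t + 2^m - c % 2^m) % 2^m`); `rev_lt`, `rev_rev`: bit reversal is an involution of the numbers below `2^q`;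
induction over `q`: write `x = x0 + 2 x'` with `x0 = x % 2`; `rev (q+1) x = x0 2^q + rev q x'`; one needs also `rev (q+1) (x0 2^q + z) = rev`-formula for the top bit:
`rev (q+1) (x0 * 2^q + z) = x0 + 2 * rev q z` for `z < 2^q`, `x0 < 2` (by induction over `q` as a private lemma).
-/

set_option autoImplicit false

namespace Pool.Agent.H31.HS

variable {V Ω R : Type} {m : ℕ}

/-- The permutation of the nodes given by a permutation of the numbers. -/
def permB (B : Blk V m) (σ τ : ℕ → ℕ) (h1 : ∀ t, t < 2 ^ m → σ t < 2 ^ m) (h2 : ∀ t, t < 2 ^ m → τ t < 2 ^ m)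
    (h3 : ∀ t, t < 2 ^ m → σ (τ t) = t) (h4 : ∀ t, t < 2 ^ m → τ (σ t) = t) : Equiv.Perm V where
  toFun v := B.nd v (σ (B.pos v))
  invFun v := B.nd v (τ (B.pos v))
  left_inv v := by
    have ht := h1 _ (B.pos_lt v)
    show B.nd (B.nd v (σ (B.pos v))) (τ (B.pos (B.nd v (σ (B.pos v))))) = v
    rw [B.pos_nd v _ ht, h4 _ (B.pos_lt v), B.nd_nd v _ _ ht (B.pos_lt v), B.nd_pos]
  right_inv v := by
    have ht := h2 _ (B.pos_lt v)
    show B.nd (B.nd v (τ (B.pos v))) (σ (B.pos (B.nd v (τ (B.pos v))))) = v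
    rw [B.pos_nd v _ ht, h3 _ (B.pos_lt v), B.nd_nd v _ _ ht (B.pos_lt v), B.nd_pos]

private theorem mod_aux (N c t : ℕ) (hN : 0 < N) (ht : t < N) : (t + c + (N - c % N)) % N = t := by
  have h1 := Nat.div_add_mod c N
  have h2 := Nat.mod_lt c hN
  have h3 : t + c + (N - c % N) = t + N * (c / N + 1) := by
    rw [mul_add, mul_one]
    omega
  rw [h3, Nat.add_mul_mod_self_left, Nat.mod_eq_of_lt ht]

/-- A permutation of the numbers costs `2 n` rounds: the node number `σ t` gets the item of the node number `t`. -/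
theorem statN {M : Mach V Ω R} {Lam k n r0 : ℕ} {B : Blk V m} (hL : Lines M Lam B k n r0) (σ τ : ℕ → ℕ)
    (h1 : ∀ t, t < 2 ^ m → σ t < 2 ^ m) (h2 : ∀ t, t < 2 ^ m → τ t < 2 ^ m)
    (h3 : ∀ t, t < 2 ^ m → σ (τ t) = t) (h4 : ∀ t, t < 2 ^ m → τ (σ t) = t) {X : Type} (P : M.Pl) (a : V → Ω → X × Option R)
    (hs : Sz Lam (fun v w => (a v w).1)) (ha : ∀ v, M.Has P v (a v)) :
    M.Do (2 * n * r0) P (fun P' => ∀ v, M.Has P' v (a (B.nd v (τ (B.pos v))))) := by
  obtain ⟨P', h5, h6, h7⟩ := stat hL (permB B σ τ h1 h2 h3 h4) (fun v => B.cls_nd v (h1 _ (B.pos_lt v))) P a hs ha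
  refine ⟨P', h5, h6, fun v => ?_⟩
  have h8 := h7 ((permB B σ τ h1 h2 h3 h4).symm v)
  rw [Equiv.apply_symm_apply] at h8
  exact h8

theorem shift {M : Mach V Ω R} {Lam k n r0 : ℕ} {B : Blk V m} (hL : Lines M Lam B k n r0) (c : ℕ) {X : Type} (P : M.Pl)
    (a : V → Ω → X × Option R) (hs : Sz Lam (fun v w => (a v w).1)) (ha : ∀ v, M.Has P v (a v)) :
    M.Do (2 * n * r0) P (fun P' => ∀ v, M.Has P' v (a (B.nd v ((B.pos v + c) % 2 ^ m)))) := by
  have hN : 0 < 2 ^ m := by positivity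
  refine statN hL (fun t => (t + (2 ^ m - c % 2 ^ m)) % 2 ^ m) (fun t => (t + c) % 2 ^ m)
    (fun t _ => Nat.mod_lt _ hN) (fun t _ => Nat.mod_lt _ hN) ?_ ?_ P a hs ha
  · intro t ht
    show ((t + c) % 2 ^ m + (2 ^ m - c % 2 ^ m)) % 2 ^ m = t
    rw [Nat.mod_add_mod]
    exact mod_aux _ _ _ hN ht
  · intro t ht
    show ((t + (2 ^ m - c % 2 ^ m)) % 2 ^ m + c) % 2 ^ m = t
    rw [Nat.mod_add_mod, add_right_comm]
    exact mod_aux _ _ _ hN ht

end Pool.Agent.H31.HS
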