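import Mathlib
import Pool.Agent.H31.HS.SelR
import Pool.Agent.H31.HS.LinF

/-!
# Uniq: broadcast of the unique active item of every class, `n` rounds

Proof: `Do.iter` with `Φ t P' := ∃ b, (∀ v, Has P' v (b v)) ∧ ∀ w, UniqSpec (B.bits 0 (k*t)) (a at w) (b at w)` (for `t ≤ n`, `k * t ≤ m`; to have the proof `0 + k*t ≤ m`
put `Φ t P' := ∀ h : 0 + k * t ≤ m, ...`).  `t = 0`: classes are singletons (`bits_cls`: `B.pos v / 1 = B.pos u / 1`, `Blk.eq_of_cls`), `b = a`
with `emp` instead of inactive items (local: replace `x` by `if x.1.isSome then x else emp`).  Step: `sel_round` for the class of digit `t` with `C v u L := (L u).isSome`: by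
`bits_cls` the class of `v` for the bits `[0, k(t+1))` is the union of the classes for the bits `[0, k t)` of the nodes of the digit line of `v`
(if `u` is in the big class, then the node `z := (B.bits (k*t) k _).nd v (digit t of u)` is in the line of `v` and `u` is in the small class of `z`).
At the end `m = k * n`, `B.bits 0 (k*n) = B` (`bits_all`).  Uniqueness `hu` is used in the form: an active item of the class is the only one.
-/

set_option autoImplicit false

namespace Pool.Agent.H31.HS

variable {V Ω R : Type} {m : ℕ}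

/-- Same class and same digits from the place `t` on. -/
private def ucl (B : Blk V m) (k t : ℕ) (v u : V) : Prop :=
  B.cls v u ∧ B.pos v / 2 ^ (k * t) = B.pos u / 2 ^ (k * t)

private def UPhi (M : Mach V Ω R) (B : Blk V m) (k : ℕ) {X : Type} (a : V → Ω → Option X × Option R)
    (t : ℕ) (P' : M.Pl) : Prop :=
  ∃ b : V → Ω → Option X × Option R, (∀ v, M.Has P' v (b v)) ∧ ∀ w v,
    (∀ u, ucl B k t v u → (a u w).1.isSome → b v w = a u w) ∧
    ((∀ u, ucl B k t v u → (a u w).1 = none) → b v w = emp)

theorem uniq {M : Mach V Ω R} {Lam k n r0 S : ℕ} {B : Blk V m} (hL : Lines M Lam B k n r0) (hS : S + 1 ≤ Lam) {X : Type} (P : M.Pl)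
    (a : V → Ω → Option X × Option R) (hs : Sm S a) (ha : ∀ v, M.Has P v (a v))
    (hu : ∀ w v u, B.cls v u → (a v w).1.isSome → (a u w).1.isSome → v = u) :
    M.Do (n * r0) P (fun P' => ∃ b : V → Ω → Option X × Option R, (∀ v, M.Has P' v (b v)) ∧
      ∀ w, UniqSpec B (fun v => a v w) (fun v => b v w)) := by
  classical
  have hun := hu
  have h0 : UPhi M B k a 0 P := by
    refine ⟨fun v w => if (a v w).1.isSome then a v w else emp, fun v => ?_, fun w v => ⟨?_, ?_⟩⟩
    · exact (ha v).ite (Mach.Has.emp P v) ((ha v).label.comp fun x => x.isSome)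
    · intro u hu h1
      have h2 : v = u := by
        refine B.eq_of_cls hu.1 ?_
        have := hu.2
        simpa using this
      subst h2
      beta_reduce
      rw [if_pos h1]
    · intro h1
      beta_reduce
      have h2 : (a v w).1 = none := h1 v ⟨B.cls_refl v, rfl⟩
      rw [h2]
      rfl
  have hstep : ∀ t, t < n → ∀ P', M.ext P P' → UPhi M B k a t P' → M.Do r0 P' (UPhi M B k a (t + 1)) := by
    intro t ht P' _ hΦ
    obtain ⟨b, hb1, hb2⟩ := hΦ
    have hkt : k * t + k ≤ m := by
      rw [hL.hm, ← Nat.mul_succ]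
      exact Nat.mul_le_mul_left k ht
    obtain ⟨BT, hBT⟩ : ∃ BT : Blk V k, BT = B.bits (k * t) k hkt := ⟨_, rfl⟩
    have hR := hL.rnd t hkt ht
    rw [← hBT] at hR
    have hcls : ∀ v u, BT.cls v u ↔ B.cls v u ∧ B.pos v / 2 ^ (k * t + k) = B.pos u / 2 ^ (k * t + k) ∧
        B.pos v % 2 ^ (k * t) = B.pos u % 2 ^ (k * t) := by
      intro v u
      rw [hBT]
      exact bits_cls B hkt v u
    -- every `b v w` is empty or an active item of the class
    have hbb : ∀ w v, b v w = emp ∨ ∃ u, ucl B k t v u ∧ (a u w).1.isSome ∧ b v w = a u w := by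
      intro w v
      by_cases h : ∃ u, ucl B k t v u ∧ (a u w).1.isSome
      · obtain ⟨u, h1, h2⟩ := h
        exact Or.inr ⟨u, h1, h2, (hb2 w v).1 u h1 h2⟩
      · left
        refine (hb2 w v).2 fun u hu => ?_
        by_contra h3
        exact h ⟨u, hu, Option.isSome_iff_ne_none.2 h3⟩
    have hsb : Sm S b := by
      refine hs.of_range fun v w => ?_
      rcases hbb w v with h | ⟨u, _, _, h⟩
      · left
        rw [h]
        rfl
      · exact Or.inr ⟨u, w, h⟩
    have hact : ∀ w v, (b v w).1.isSome → ∃ u, ucl B k t v u ∧ (a u w).1.isSome ∧ b v w = a u w := by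
      intro w v h
      rcases hbb w v with h1 | h1
      · rw [h1] at h
        exact absurd h (by simp [emp])
      · exact h1
    refine (sel_round hR hS P' b hsb hb1 (fun v u L => BT.cls v u ∧ (L u).isSome = true) ?_).mono le_rfl ?_
    · intro v u L L' h1 h2
      exact ⟨h2.1, by rw [← h1 u h2.1]; exact h2.2⟩
    · intro P'' _ hb'
      obtain ⟨b', hb'1, hb'2⟩ := hb'
      refine ⟨b', hb'1, fun w v => ⟨?_, ?_⟩⟩
      · intro u hu h1
        -- the node `z` of the line of `v` with the digit of `u`
        obtain ⟨z, hz⟩ : ∃ z, z = BT.nd v (BT.pos u) := ⟨_, rfl⟩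
        have hz1 : BT.cls v z := by
          rw [hz]
          exact BT.cls_nd v (BT.pos_lt u)
        have hz2 : BT.pos z = BT.pos u := by
          rw [hz]
          exact BT.pos_nd v _ (BT.pos_lt u)
        have hz3 : B.pos z / 2 ^ (k * t) % 2 ^ k = B.pos u / 2 ^ (k * t) % 2 ^ k := by
          rw [hBT] at hz2
          exact hz2
        have hz4 := (hcls v z).1 hz1
        have hz5 : ucl B k t z u := by
          refine ⟨B.cls_trans (B.cls_symm hz4.1) hu.1, ?_⟩
          have h2 : B.pos z / 2 ^ (k * t) / 2 ^ k = B.pos u / 2 ^ (k * t) / 2 ^ k := by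
            rw [Nat.div_div_eq_div_mul, Nat.div_div_eq_div_mul, ← pow_add, ← hz4.2.1]
            have := hu.2
            rw [Nat.mul_succ] at this
            exact this
          rw [← Nat.div_add_mod (B.pos z / 2 ^ (k * t)) (2 ^ k), h2, hz3, Nat.div_add_mod]
        have hz6 : b z w = a u w := (hb2 w z).1 u hz5 h1
        rcases hb'2 w v with ⟨u', h2, h3, h4⟩ | ⟨h2, _⟩
        · obtain ⟨u'', h5, h6, h7⟩ := hact w u' h3.2
          have h8 : B.cls u'' u :=
            B.cls_trans (B.cls_symm h5.1) (B.cls_trans (B.cls_symm ((hcls v u').1 h2).1) hu.1)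
          have h9 : u'' = u := hun w u'' u h8 h6 h1
          rw [h4, h7, h9]
        · refine absurd ⟨hz1, ?_⟩ (h2 z hz1)
          show (b z w).1.isSome = true
          rw [hz6]
          exact h1
      · intro h1
        rcases hb'2 w v with ⟨u', h2, h3, h4⟩ | ⟨_, h2⟩
        · obtain ⟨u'', h5, h6, h7⟩ := hact w u' h3.2
          have h8 := (hcls v u').1 h2
          have h9 : ucl B k (t + 1) v u'' := by
            refine ⟨B.cls_trans h8.1 h5.1, ?_⟩
            rw [Nat.mul_succ, h8.2.1, pow_add, ← Nat.div_div_eq_div_mul, ← Nat.div_div_eq_div_mul, h5.2]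
          rw [h1 u'' h9] at h6
          exact absurd h6 (by simp)
        · exact h2
  refine (Mach.Do.iter (Φ := UPhi M B k a) h0 hstep).mono le_rfl fun P' _ h => ?_
  obtain ⟨b, h1, h2⟩ := h
  have h3 : ∀ v u, B.cls v u → ucl B k n v u := by
    intro v u h
    refine ⟨h, ?_⟩
    rw [← hL.hm, Nat.div_eq_of_lt (B.pos_lt v), Nat.div_eq_of_lt (B.pos_lt u)]
  refine ⟨b, h1, fun w v => ⟨fun u hu' h4 => (h2 w v).1 u (h3 v u hu') h4, fun h4 => (h2 w v).2 fun u hu' => h4 u hu'.1⟩⟩

end Pool.Agent.H31.HS
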