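import Mathlib
import Pool.Agent.H31.HS.Uniq

/-!
# Bcast: every node gets the item of the node number `τ v` of its class, `n` rounds

`τ` is a fixed function, constant on classes.  `uniq` with the array `if B.pos v = τ v then (some (a v w).1, (a v w).2) else emp` (the condition does not depend on the input): the only active node of the class of `v` is
`B.nd v (τ v)`.  Then the item is recovered from the array (see Bfx.lean: `Knows`: if the wrapped items are equal then the items are equal).  Sizes: `Sm S` for the wrapped labels.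
-/

set_option autoImplicit false

namespace Pool.Agent.H31.HS

variable {V Ω R : Type} {m : ℕ}

theorem bcast {M : Mach V Ω R} {Lam k n r0 S : ℕ} {B : Blk V m} (hL : Lines M Lam B k n r0) (hS : S + 1 ≤ Lam) (τ : V → ℕ)
    (h1 : ∀ v u, B.cls v u → τ v = τ u) (h2 : ∀ v, τ v < 2 ^ m) {X : Type} (P : M.Pl) (a : V → Ω → X × Option R)
    (hs : Sz S (fun v w => (a v w).1)) (ha : ∀ v, M.Has P v (a v)) :
    M.Do (n * r0) P (fun P' => ∀ v, M.Has P' v (a (B.nd v (τ v)))) := by
  classical
  obtain ⟨c, hcdef⟩ : ∃ c : V → Ω → Option X × Option R, ∀ v w, c v w =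
      if B.pos v = τ v then (some (a v w).1, (a v w).2) else emp :=
    ⟨fun v w => if B.pos v = τ v then (some (a v w).1, (a v w).2) else emp, fun _ _ => rfl⟩
  have hs' : Sm S c := by
    obtain ⟨T, h3, h4⟩ := hs
    refine ⟨T, h3, fun v w x hx => ?_⟩
    rw [hcdef] at hx
    by_cases h : B.pos v = τ v
    · rw [if_pos h] at hx
      have h5 : (a v w).1 = x := Option.some.inj hx
      rw [← h5]
      exact h4 v w
    · rw [if_neg h] at hx
      simp [emp] at hx
  have ha' : ∀ v, M.Has P v (c v) := by
    intro v
    by_cases h : B.pos v = τ v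
    · have h3 : c v = fun w => (some (a v w).1, (a v w).2) := by
        funext w
        rw [hcdef, if_pos h]
      rw [h3]
      refine ⟨fun w w' hw => ?_, fun w r hr => (ha v).2 w r hr⟩
      show (some (a v w).1, (a v w).2) = (some (a v w').1, (a v w').2)
      rw [(ha v).1 w w' hw]
    · have h3 : c v = fun _ => emp := by
        funext w
        rw [hcdef, if_neg h]
      rw [h3]
      refine ⟨fun w w' hw => rfl, fun w r hr => ?_⟩
      simp [emp] at hr
  have hact : ∀ v w, (c v w).1.isSome → B.pos v = τ v := by
    intro v w h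
    by_contra h3
    rw [hcdef, if_neg h3] at h
    simp [emp] at h
  have hu : ∀ w v u, B.cls v u → (c v w).1.isSome → (c u w).1.isSome → v = u := by
    intro w v u h h3 h4
    refine B.eq_of_cls h ?_
    rw [hact v w h3, hact u w h4, h1 v u h]
  refine (uniq hL hS P c hs' ha' hu).mono le_rfl ?_
  rintro P' _ ⟨b, hb, hspec⟩ v
  have hcls : B.cls v (B.nd v (τ v)) := B.cls_nd v (h2 v)
  have hau : ∀ w, c (B.nd v (τ v)) w = (some (a (B.nd v (τ v)) w).1, (a (B.nd v (τ v)) w).2) := by
    intro w
    rw [hcdef, if_pos]
    rw [B.pos_nd v _ (h2 v), ← h1 v _ hcls]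
  have hbv : ∀ w, b v w = (some (a (B.nd v (τ v)) w).1, (a (B.nd v (τ v)) w).2) := by
    intro w
    rw [← hau w]
    refine (hspec w v).1 _ hcls ?_
    show (c (B.nd v (τ v)) w).1.isSome = true
    rw [hau w]
    rfl
  constructor
  · intro w w' hw
    have h3 := (hb v).1 w w' hw
    rw [hbv w, hbv w'] at h3
    have h4 := Prod.mk.inj h3
    exact Prod.ext (Option.some.inj h4.1) h4.2
  · intro w r hr
    refine (hb v).2 w r ?_
    rw [hbv w]
    exact hr

end Pool.Agent.H31.HS
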