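import Mathlib
import Pool.Agent.H31.HS.Uniq

/-!
# Bfx: all nodes `(s, e)` get the item of the unit `e`, `n` rounds

`BS`, `BE` commuting numberings with the same number of bits.  `f v` is an item had by `v` which does not depend on the `BE`-number.  Every `v` gets `f (BS.nd v (BE.pos v))`.
Proof: `uniq` for `BS` with the array `a v w := if BS.pos v = BE.pos v then (some (f v w).1, (f v w).2) else emp` (the condition does not depend on `w`).  In a `BS`-class the number
`BE.pos` is constant (`hC.pE`), so the only active node is `u = BS.nd v (BE.pos v)`.  Then drop `some` (`Has.map` with a default: use the item only through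
`UniqSpec`: the result `b v w = (some (f u w).1, (f u w).2)`, so `f u w = ((b v w).1.get .., (b v w).2)`; for `Knows` of `f u`: if `b v w = b v w'` then `f u w = f u w'`).
-/

set_option autoImplicit false

namespace Pool.Agent.H31.HS

variable {V Ω R : Type} {z : ℕ}

theorem bfx {M : Mach V Ω R} {Lam k n r0 S : ℕ} {BS BE : Blk V z} (hC : Blk.Comm BS BE) (hL : Lines M Lam BS k n r0) (hS : S + 1 ≤ Lam)
    {X : Type} (P : M.Pl) (f : V → Ω → X × Option R) (hs : Sz S (fun v w => (f v w).1)) (ha : ∀ v, M.Has P v (f v)) :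
    M.Do (n * r0) P (fun P' => ∀ v, M.Has P' v (f (BS.nd v (BE.pos v)))) := by
  classical
  obtain ⟨a, hadef⟩ : ∃ a : V → Ω → Option X × Option R, ∀ v w, a v w =
      if BS.pos v = BE.pos v then (some (f v w).1, (f v w).2) else emp :=
    ⟨fun v w => if BS.pos v = BE.pos v then (some (f v w).1, (f v w).2) else emp, fun _ _ => rfl⟩
  have hs' : Sm S a := by
    obtain ⟨T, h1, h2⟩ := hs
    refine ⟨T, h1, fun v w x hx => ?_⟩
    rw [hadef] at hx
    by_cases h : BS.pos v = BE.pos v
    · rw [if_pos h] at hx
      have h3 : (f v w).1 = x := Option.some.inj hx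
      rw [← h3]
      exact h2 v w
    · rw [if_neg h] at hx
      simp [emp] at hx
  have ha' : ∀ v, M.Has P v (a v) := by
    intro v
    by_cases h : BS.pos v = BE.pos v
    · have h1 : a v = fun w => (some (f v w).1, (f v w).2) := by
        funext w
        rw [hadef, if_pos h]
      rw [h1]
      refine ⟨fun w w' hw => ?_, fun w r hr => (ha v).2 w r hr⟩
      show (some (f v w).1, (f v w).2) = (some (f v w').1, (f v w').2)
      rw [(ha v).1 w w' hw]
    · have h1 : a v = fun _ => emp := by
        funext w
        rw [hadef, if_neg h]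
      rw [h1]
      refine ⟨fun w w' hw => rfl, fun w r hr => ?_⟩
      simp [emp] at hr
  have hpE : ∀ v u, BS.cls v u → BE.pos u = BE.pos v := by
    intro v u h
    obtain ⟨t, ht, rfl⟩ := BS.cls_iff.1 h
    exact hC.pE v t ht
  have hact : ∀ v w, (a v w).1.isSome → BS.pos v = BE.pos v := by
    intro v w h
    by_contra h1
    rw [hadef, if_neg h1] at h
    simp [emp] at h
  have hu : ∀ w v u, BS.cls v u → (a v w).1.isSome → (a u w).1.isSome → v = u := by
    intro w v u h h1 h2
    refine BS.eq_of_cls h ?_
    rw [hact v w h1, hact u w h2, hpE v u h]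
  refine (uniq hL hS P a hs' ha' hu).mono le_rfl ?_
  rintro P' _ ⟨b, hb, hspec⟩ v
  have hlt : BE.pos v < 2 ^ z := BE.pos_lt v
  have hcls : BS.cls v (BS.nd v (BE.pos v)) := BS.cls_nd v hlt
  have hau : ∀ w, a (BS.nd v (BE.pos v)) w =
      (some (f (BS.nd v (BE.pos v)) w).1, (f (BS.nd v (BE.pos v)) w).2) := by
    intro w
    rw [hadef, if_pos]
    rw [BS.pos_nd v _ hlt, hC.pE v _ hlt]
  have hbv : ∀ w, b v w = (some (f (BS.nd v (BE.pos v)) w).1, (f (BS.nd v (BE.pos v)) w).2) := by
    intro w
    rw [← hau w]
    refine (hspec w v).1 _ hcls ?_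
    show (a (BS.nd v (BE.pos v)) w).1.isSome = true
    rw [hau w]
    rfl
  constructor
  · intro w w' hw
    have h1 := (hb v).1 w w' hw
    rw [hbv w, hbv w'] at h1
    have h2 := Prod.mk.inj h1
    exact Prod.ext (Option.some.inj h2.1) h2.2
  · intro w r hr
    refine (hb v).2 w r ?_
    rw [hbv w]
    exact hr

end Pool.Agent.H31.HS
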