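import Mathlib
import Pool.Agent.H31.HS.Srt
import Pool.Agent.H31.HS.Iter

/-!
# Cmp: comparisons of keys are known

Under `sim` the items `a w = a w'`, `b w = b w'`, and their records are compared in the same way (`Has.cmp`), so `KeyLoc` applies if both are nonempty; if one is empty the comparison depends only on the labels
(`kv = ⊤`).  `le`: `kv a ≤ kv b` iff not `kv b < kv a`.
-/

set_option autoImplicit false

namespace Pool.Agent.H31.HS

variable {V Ω R X : Type}

private theorem cmp_iff {M : Mach V Ω R} {key : Ω → X × Option R → ℕ} (hk : KeyLoc M key) {w w' : Ω}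
    {x y : Option X × Option R} (h : ∀ r s, x.2 = some r → y.2 = some s →
      ((M.lt w r s ↔ M.lt w' r s) ∧ (M.lt w s r ↔ M.lt w' s r))) :
    kv (key w) x < kv (key w) y ↔ kv (key w') x < kv (key w') y := by
  obtain ⟨x1, x2⟩ := x
  obtain ⟨y1, y2⟩ := y
  cases x1 with
  | none =>
    have e : ∀ w, ¬ kv (key w) (none, x2) < kv (key w) (y1, y2) := fun w => not_top_lt
    exact iff_of_false (e w) (e w')
  | some l =>
    cases y1 with
    | none =>
      have e : ∀ w, kv (key w) (some l, x2) < kv (key w) (none, y2) := fun w => WithTop.coe_lt_top _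
      exact iff_of_true (e w) (e w')
    | some l' =>
      have e : ∀ w, kv (key w) (some l, x2) < kv (key w) (some l', y2) ↔
          key w (l, x2) < key w (l', y2) := fun w => WithTop.coe_lt_coe
      rw [e w, e w']
      exact hk w w' (l, x2) (l', y2) h

theorem cmp_known {M : Mach V Ω R} {key : Ω → X × Option R → ℕ} (hk : KeyLoc M key) {P : M.Pl} {v : V} {a b : Ω → Option X × Option R}
    (ha : M.Has P v a) (hb : M.Has P v b) : M.Knows P v (fun w => decide (kv (key w) (a w) < kv (key w) (b w))) := by
  intro w w' hs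
  have h := cmp_iff hk (w := w) (w' := w') (x := a w) (y := b w) fun r s hr hs' =>
    ⟨ha.cmp hb hs hr hs', hb.cmp ha hs hs' hr⟩
  show decide (kv (key w) (a w) < kv (key w) (b w)) = decide (kv (key w') (a w') < kv (key w') (b w'))
  rw [← ha.1 w w' hs, ← hb.1 w w' hs]
  exact decide_eq_decide.2 h

theorem le_known {M : Mach V Ω R} {key : Ω → X × Option R → ℕ} (hk : KeyLoc M key) {P : M.Pl} {v : V} {a b : Ω → Option X × Option R}
    (ha : M.Has P v a) (hb : M.Has P v b) : M.Knows P v (fun w => decide (kv (key w) (a w) ≤ kv (key w) (b w))) := by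
  refine ((cmp_known hk hb ha).comp (fun c => !c)).triv fun w => ?_
  by_cases h : kv (key w) (a w) ≤ kv (key w) (b w)
  · have h2 : ¬ kv (key w) (b w) < kv (key w) (a w) := not_lt.2 h
    simp [h, h2]
  · have h2 : kv (key w) (b w) < kv (key w) (a w) := not_le.1 h
    simp [h, h2]

end Pool.Agent.H31.HS
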