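import Mathlib
import Pool.Agent.H31.HS.SelR
import Pool.Agent.H31.HS.LinF

/-!
# MvStep: moving items in the direction of one digit

`MvS B T a b`: the active item of `u` (label `x`) has moved to the place number `T u x` of its class, nothing else is in `b`.
`mv_step`: if `b` satisfies `MvS B T`, and `T' u x` arises from `T u x` by replacing the bits `i, ..., i+l-1` by `dg x < 2^l`, and the active items of a class have different
places under `T'`, then one round in the direction of these bits gives `b'` with `MvS B T'`.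
Proof: `sel_round` with the class of `B.bits i l` and `C v u L := ∃ x, L u = some x ∧ dg x = B.pos v / 2^i % 2^l`.  If the active item `x` of `u0` has `T' u0 x = B.pos v`, then it is in `b` at the node
`u` of the class with number `T u0 x`; `u` is in the class of `v` for `B.bits i l` (`bits_cls`, `rep_div`, `rep_mod`), and `dg x = B.pos v / 2^i % 2^l` (`rep_mid`).  Conversely if
`sel_round` gives `b u` with label `x`, then (by `MvS B T`, `b u` is not empty) `b u` is the item of some `u0` with `T u0 x = B.pos u`, and then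
`T' u0 x = rep i l (B.pos u) (dg x) = B.pos v`; by the uniqueness `hi` it is the item of the same `u0`.
-/

set_option autoImplicit false

namespace Pool.Agent.H31.HS

variable {V Ω R : Type} {m : ℕ}

/-- The active items have moved to their targets. -/
def MvS {X : Type} (B : Blk V m) (T : V → X → ℕ) (a b : V → Option X × Option R) : Prop :=
  ∀ v, (∀ u x, B.cls v u → (a u).1 = some x → T u x = B.pos v → b v = a u) ∧
    ((∀ u x, B.cls v u → (a u).1 = some x → T u x ≠ B.pos v) → b v = emp)

theorem mv_step {M : Mach V Ω R} {Lam r0 S i l : ℕ} {B : Blk V m} (h : i + l ≤ m) (hR : M.Rounds Lam (B.bits i l h).cls r0)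
    (hS : S + 1 ≤ Lam) {X : Type} (P : M.Pl) (a b : V → Ω → Option X × Option R) (hs : Sm S a) (hb : ∀ v, M.Has P v (b v))
    (T T' : V → X → ℕ) (dg : X → ℕ) (hdg : ∀ w v x, (a v w).1 = some x → dg x < 2 ^ l)
    (hT : ∀ w v x, (a v w).1 = some x → T v x < 2 ^ m) (hT' : ∀ w v x, (a v w).1 = some x → T' v x = Blk.rep i l (T v x) (dg x))
    (hi : ∀ w v u x x', B.cls v u → (a v w).1 = some x → (a u w).1 = some x' → T' v x = T' u x' → v = u)
    (hab : ∀ w, MvS B T (fun v => a v w) (fun v => b v w)) :
    M.Do r0 P (fun P' => ∃ b' : V → Ω → Option X × Option R, (∀ v, M.Has P' v (b' v)) ∧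
      ∀ w, MvS B T' (fun v => a v w) (fun v => b' v w)) := by
  have hcases : ∀ v w, (∃ u x, B.cls v u ∧ (a u w).1 = some x ∧ T u x = B.pos v ∧ b v w = a u w) ∨
      b v w = emp := by
    intro v w
    by_cases hex : ∃ u x, B.cls v u ∧ (a u w).1 = some x ∧ T u x = B.pos v
    · obtain ⟨u, x, h1, h2, h3⟩ := hex
      exact Or.inl ⟨u, x, h1, h2, h3, (hab w v).1 u x h1 h2 h3⟩
    · refine Or.inr ((hab w v).2 fun u x h1 h2 h3 => hex ⟨u, x, h1, h2, h3⟩)
  have hsb : Sm S b := hs.of_range fun v w => by
    rcases hcases v w with ⟨u, x, -, -, -, h4⟩ | h4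
    · exact Or.inr ⟨u, w, h4⟩
    · left
      rw [h4]
      rfl
  refine (sel_round hR hS P b hsb hb
    (fun v u L => (B.bits i l h).cls v u ∧ ∃ x, L u = some x ∧ dg x = B.pos v / 2 ^ i % 2 ^ l) ?_).mono le_rfl ?_
  · rintro v u L L' hLL ⟨h1, x, h2, h3⟩
    exact ⟨h1, x, by rw [← hLL u h1]; exact h2, h3⟩
  · rintro P' - ⟨b', hb', hb''⟩
    refine ⟨b', hb', fun w v => ?_⟩
    -- an item at `v` comes from an active item with target `B.pos v`
    have key : ∀ u, (B.bits i l h).cls v u → (∃ x, (b u w).1 = some x ∧ dg x = B.pos v / 2 ^ i % 2 ^ l) →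
        ∃ u1 x1, B.cls v u1 ∧ (a u1 w).1 = some x1 ∧ T' u1 x1 = B.pos v ∧ b u w = a u1 w := by
      rintro u hu ⟨x, hx, hd⟩
      rw [bits_cls] at hu
      obtain ⟨c1, c2, c3⟩ := hu
      rcases hcases u w with ⟨u1, x1, d1, d2, d3, d4⟩ | d
      · refine ⟨u1, x1, B.cls_trans c1 d1, d2, ?_, d4⟩
        have hx1 : x1 = x := by
          rw [d4, d2] at hx
          exact Option.some.inj hx
        rw [hT' w u1 x1 d2, d3, hx1, hd]
        have e1 := Blk.rep_self (i := i) (l := l) (x := B.pos v)
        unfold Blk.rep at e1 ⊢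
        rw [← c2, ← c3]
        exact e1
      · rw [d] at hx
        exact absurd hx (by simp [emp])
    constructor
    · intro u0 x hu0 hx hpos
      have hT0 := hT w u0 x hx
      have hd0 := hdg w u0 x hx
      have hT0' := hT' w u0 x hx
      rw [hpos] at hT0'
      have g1 : b (B.nd v (T u0 x)) w = a u0 w := by
        refine (hab w (B.nd v (T u0 x))).1 u0 x ?_ hx ?_
        · exact B.cls_trans (B.cls_symm (B.cls_nd v hT0)) hu0
        · rw [B.pos_nd v _ hT0]
      have g2 : (B.bits i l h).cls v (B.nd v (T u0 x)) := by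
        rw [bits_cls, B.pos_nd v _ hT0]
        refine ⟨B.cls_nd v hT0, ?_, ?_⟩
        · rw [hT0', Blk.rep_div hd0]
        · rw [hT0', Blk.rep_mod]
      have g3 : dg x = B.pos v / 2 ^ i % 2 ^ l := by
        rw [hT0', Blk.rep_mid hd0]
      rcases hb'' w v with ⟨u, c1, ⟨-, c2⟩, c3⟩ | ⟨c1, -⟩
      · obtain ⟨u1, x1, e1, e2, e3, e4⟩ := key u c1 c2
        have e5 : u0 = u1 := by
          refine hi w u0 u1 x x1 (B.cls_trans (B.cls_symm hu0) e1) hx e2 ?_
          rw [hpos, e3]
        show b' v w = a u0 w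
        rw [c3, e4, e5]
      · exact absurd ⟨g2, x, by
          show (b (B.nd v (T u0 x)) w).1 = some x
          rw [g1]
          exact hx, g3⟩ (c1 _ g2)
    · intro hno
      rcases hb'' w v with ⟨u, c1, ⟨-, c2⟩, c3⟩ | ⟨-, c2⟩
      · obtain ⟨u1, x1, e1, e2, e3, -⟩ := key u c1 c2
        exact absurd e3 (hno u1 x1 e1 e2)
      · exact c2

end Pool.Agent.H31.HS
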