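import Mathlib
import Pool.Agent.H31.HS.MvStep

/-!
# Conc: concentration, `n` rounds

`Do.iter` with `Φ t P' := ∃ b, Has .. ∧ MvS B (T_t) a b`, `T_t u x = rep 0 (k t) (B.pos u) (tau x % 2^(k t))` (`= B.pos u / 2^(kt) * 2^(kt) + tau x % 2^(kt)`): `T_0 u x = B.pos u`,
`T_n u x = tau x` (as `B.pos u < 2^m`, `tau x < 2^m`, `m = k n`).  Step: `mv_step` with bits `k t, ..., k t + k - 1` and `dg x = tau x / 2^(k t) % 2^k`.
No collision: for `v`, `u` in a class with `T_t v x = T_t u x'`, say `pos v < pos u`: `pos v / 2^(kt) = pos u / 2^(kt)`, so `pos u - pos v < 2^(kt)`, and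
`tau x ≡ tau x'` mod `2^(kt)`, but `0 < tau x' - tau x ≤ pos u - pos v < 2^(kt)`.  `t = 0`: `b = a` with inactive items replaced by `emp` (local).
-/

set_option autoImplicit false

namespace Pool.Agent.H31.HS

variable {V Ω R : Type} {m : ℕ}

private theorem cc_dm {q a r : ℕ} (hr : r < q) : (a * q + r) / q = a ∧ (a * q + r) % q = r := by
  have hq : 0 < q := by omega
  constructor
  · rw [mul_comm, Nat.mul_add_div hq, Nat.div_eq_of_lt hr, add_zero]
  · rw [mul_comm, Nat.mul_add_mod, Nat.mod_eq_of_lt hr]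

private theorem cc_coll {q p p' s s' : ℕ} (hq : 0 < q) (h1 : s < s') (h2 : s' + p ≤ s + p')
    (h : p / q * q + s % q = p' / q * q + s' % q) : False := by
  have g1 := cc_dm (a := p / q) (Nat.mod_lt s hq)
  have g2 := cc_dm (a := p' / q) (Nat.mod_lt s' hq)
  rw [h] at g1
  have e1 : p / q = p' / q := g1.1.symm.trans g2.1
  have e2 : s % q = s' % q := g1.2.symm.trans g2.2
  have f1 := Nat.div_add_mod p q
  have f2 := Nat.div_add_mod p' q
  have f3 := Nat.div_add_mod s q
  have f4 := Nat.div_add_mod s' q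
  have f5 := Nat.mod_lt p' hq
  have f6 : s / q < s' / q := by
    by_contra hc
    push Not at hc
    have : q * (s' / q) ≤ q * (s / q) := Nat.mul_le_mul_left _ hc
    omega
  have f7 : q * (s / q + 1) ≤ q * (s' / q) := Nat.mul_le_mul_left _ f6
  rw [mul_add, mul_one] at f7
  rw [e1] at f1
  omega

private theorem cc_rep {i k p s : ℕ} :
    p / 2 ^ (i + k) * 2 ^ (i + k) + s % 2 ^ (i + k) =
      Blk.rep i k (p / 2 ^ i * 2 ^ i + s % 2 ^ i) (s / 2 ^ i % 2 ^ k) := by
  have h1 := cc_dm (a := p / 2 ^ i) (Nat.mod_lt s (pow_pos two_pos i) : s % 2 ^ i < 2 ^ i)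
  unfold Blk.rep
  have h2 : (p / 2 ^ i * 2 ^ i + s % 2 ^ i) / 2 ^ (i + k) = p / 2 ^ (i + k) := by
    rw [pow_add, ← Nat.div_div_eq_div_mul, h1.1, Nat.div_div_eq_div_mul]
  rw [h2, h1.2, add_assoc]
  congr 1
  rw [pow_add, Nat.mod_mul]
  ring

theorem conc {M : Mach V Ω R} {Lam k n r0 S : ℕ} {B : Blk V m} (hL : Lines M Lam B k n r0) (hS : S + 1 ≤ Lam) {X : Type} (P : M.Pl)
    (a : V → Ω → Option X × Option R) (hs : Sm S a) (ha : ∀ v, M.Has P v (a v)) (tau : X → ℕ)
    (ht : ∀ w v x, (a v w).1 = some x → tau x < 2 ^ m)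
    (hi : ∀ w v u x x', B.cls v u → (a v w).1 = some x → (a u w).1 = some x' → B.pos v < B.pos u →
      tau x < tau x' ∧ tau x' + B.pos v ≤ tau x + B.pos u) :
    M.Do (n * r0) P (fun P' => ∃ b : V → Ω → Option X × Option R, (∀ v, M.Has P' v (b v)) ∧
      ∀ w, MoveSpec B tau (fun v => a v w) (fun v => b v w)) := by
  have hm := hL.hm
  have hΦ : M.Do (n * r0) P ((fun (t : ℕ) (P' : M.Pl) => t ≤ n → ∃ b : V → Ω → Option X × Option R,
      (∀ v, M.Has P' v (b v)) ∧ ∀ w, MvS B (fun u x => B.pos u / 2 ^ (k * t) * 2 ^ (k * t) + tau x % 2 ^ (k * t))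
        (fun v => a v w) (fun v => b v w)) n) := by
    refine Mach.Do.iter (c := r0) (n := n) (P := P) (Φ := fun (t : ℕ) (P' : M.Pl) => t ≤ n →
      ∃ b : V → Ω → Option X × Option R, (∀ v, M.Has P' v (b v)) ∧
        ∀ w, MvS B (fun u x => B.pos u / 2 ^ (k * t) * 2 ^ (k * t) + tau x % 2 ^ (k * t))
          (fun v => a v w) (fun v => b v w)) ?_ ?_
    · intro _
      classical
      refine ⟨fun v w => if (a v w).1.isSome then a v w else emp, fun v => ?_, fun w v => ?_⟩
      · have h1 := Mach.Has.ite (ha v) (Mach.Has.emp (X := X) P v) (p := fun w => (a v w).1.isSome)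
          ((ha v).label.comp Option.isSome)
        exact h1
      · have hz : ∀ u x, B.pos u / 2 ^ (k * 0) * 2 ^ (k * 0) + tau x % 2 ^ (k * 0) = B.pos u := by
          intro u x
          simp [Nat.mod_one]
        constructor
        · intro u x hu hx hp
          have hp' : B.pos u / 2 ^ (k * 0) * 2 ^ (k * 0) + tau x % 2 ^ (k * 0) = B.pos v := hp
          rw [hz] at hp'
          have huv : v = u := B.eq_of_cls hu hp'.symm
          subst huv
          show (if (a v w).1.isSome then a v w else emp) = a v w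
          have hx' : (a v w).1 = some x := hx
          rw [if_pos (by rw [hx']; rfl)]
        · intro hno
          show (if (a v w).1.isSome then a v w else emp) = emp
          rw [if_neg]
          intro hsome
          obtain ⟨x, hx⟩ := Option.isSome_iff_exists.1 hsome
          exact hno v x (B.cls_refl v) hx (hz v x)
    · intro t htn P1 hP1 hΦ1
      obtain ⟨b, hb, hab⟩ := hΦ1 (by omega)
      have hkt : k * t + k ≤ m := by
        rw [hm]
        calc k * t + k = k * (t + 1) := by ring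
          _ ≤ k * n := Nat.mul_le_mul_left _ htn
      have hkt' : k * (t + 1) = k * t + k := by ring
      refine (mv_step hkt (hL.rnd t hkt htn) hS P1 a b hs hb
        (fun u x => B.pos u / 2 ^ (k * t) * 2 ^ (k * t) + tau x % 2 ^ (k * t))
        (fun u x => B.pos u / 2 ^ (k * (t + 1)) * 2 ^ (k * (t + 1)) + tau x % 2 ^ (k * (t + 1)))
        (fun x => tau x / 2 ^ (k * t) % 2 ^ k) ?_ ?_ ?_ ?_ hab).mono le_rfl (fun P' _ h _ => h)
      · intro w v x _
        exact Nat.mod_lt _ (by positivity)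
      · intro w v x _
        have h1 := Blk.rep_lt (m := m) (i := 0) (l := k * t) (x := B.pos v) (t := tau x % 2 ^ (k * t))
          (by omega) (B.pos_lt v) (Nat.mod_lt _ (by positivity))
        unfold Blk.rep at h1
        simpa [Nat.mod_one] using h1
      · intro w v x _
        rw [hkt']
        exact cc_rep
      · intro w v u x x' hvu hx hx' heq
        by_contra hne
        have hpne : B.pos v ≠ B.pos u := fun h => hne (B.eq_of_cls hvu h)
        rcases lt_or_gt_of_ne hpne with hlt | hlt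
        · obtain ⟨h1, h2⟩ := hi w v u x x' hvu hx hx' hlt
          exact cc_coll (by positivity) h1 h2 heq
        · obtain ⟨h1, h2⟩ := hi w u v x' x (B.cls_symm hvu) hx' hx hlt
          exact cc_coll (by positivity) h1 h2 heq.symm
  refine hΦ.mono le_rfl fun P' _ hP' => ?_
  obtain ⟨b, hb, hab⟩ := hP' le_rfl
  refine ⟨b, hb, fun w v => ?_⟩
  have hz : ∀ u x, (a u w).1 = some x → B.pos u / 2 ^ (k * n) * 2 ^ (k * n) + tau x % 2 ^ (k * n) = tau x := by
    intro u x hx
    rw [← hm, Nat.div_eq_of_lt (B.pos_lt u), Nat.mod_eq_of_lt (ht w u x hx)]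
    simp
  constructor
  · intro u x hu hx hp
    refine (hab w v).1 u x hu hx ?_
    show B.pos u / 2 ^ (k * n) * 2 ^ (k * n) + tau x % 2 ^ (k * n) = B.pos v
    rw [hz u x hx, hp]
  · intro hno
    refine (hab w v).2 fun u x hu hx hp => ?_
    have hp' : B.pos u / 2 ^ (k * n) * 2 ^ (k * n) + tau x % 2 ^ (k * n) = B.pos v := hp
    rw [hz u x hx] at hp'
    exact hno u x hu hx hp'

end Pool.Agent.H31.HS
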