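import Mathlib
import Pool.Agent.H31.HS.SelR
import Pool.Agent.H31.HS.LinF

/-!
# Sums: sums over the classes, and prefix sums, `n` rounds

Write `B.bits 0 (k t)`: class sums `s_t v w = ∑ j < 2^(k t), f ((B.bits 0 (k t)).nd v j) w`; step: `s_{t+1} v = ∑ c < 2^k, s_t (line node with digit c)`: splitting
`j < 2^(k(t+1))` as `j = c 2^(k t) + j'`: `(B.bits 0 (k(t+1))).nd v (c 2^(kt) + j') = (B.bits 0 (k t)).nd ((B.bits (k t) k).nd v c) j'`.
`knows_round` (values at most `Bd`, sizes with `Sz.nat`; a class sum of a smaller block is at most the class sum of `B`: the smaller block is a set of nodes of the class,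
so compare the sums over `Finset.range` through the injection `j ↦ rep ..`; or prove the bound in the same induction from the top: `s_t v ≤ s_n v`).
`pre`: the pair `(p_t, s_t)`, `p_t v = ∑ j < (B.bits 0 (k t)).pos v, f (..)`; step: `p_{t+1} v = p_t v + ∑ c < (digit t of v), s_t (line node c)`.
At the end `B.bits 0 (k n) = B` (`bits_all`, `hL.hm`).
-/

/-!
# Sums: sums over the classes, and prefix sums, `n` rounds

Write `B.bits 0 (k t)`: class sums `s_t v w = ∑ j < 2^(k t), f ((B.bits 0 (k t)).nd v j) w`; step: `s_{t+1} v = ∑ c < 2^k, s_t (line node with digit c)`: splitting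
`j < 2^(k(t+1))` as `j = c 2^(k t) + j'`: `(B.bits 0 (k(t+1))).nd v (c 2^(kt) + j') = (B.bits 0 (k t)).nd ((B.bits (k t) k).nd v c) j'`.
`knows_round` (values at most `Bd`, sizes with `Sz.nat`; a class sum of a smaller block is at most the class sum of `B`: the smaller block is a set of nodes of the class,
so compare the sums over `Finset.range` through the injection `j ↦ rep ..`; or prove the bound in the same induction from the top: `s_t v ≤ s_n v`).
`pre`: the pair `(p_t, s_t)`, `p_t v = ∑ j < (B.bits 0 (k t)).pos v, f (..)`; step: `p_{t+1} v = p_t v + ∑ c < (digit t of v), s_t (line node c)`.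
At the end `B.bits 0 (k n) = B` (`bits_all`, `hL.hm`).
-/

set_option autoImplicit false

namespace Pool.Agent.H31.HS

variable {V Ω R : Type} {m : ℕ}

/-- Sum over the aligned interval of length `2^l`. -/
private def ss (B : Blk V m) (f : V → ℕ) (l : ℕ) (v : V) : ℕ :=
  ∑ j ∈ Finset.range (2 ^ l), f (B.nd v (B.pos v / 2 ^ l * 2 ^ l + j))

/-- Sum over the part before `v` of the aligned interval of length `2^l`. -/
private def pp (B : Blk V m) (f : V → ℕ) (l : ℕ) (v : V) : ℕ :=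
  ∑ j ∈ Finset.range (B.pos v % 2 ^ l), f (B.nd v (B.pos v / 2 ^ l * 2 ^ l + j))

private theorem sum_blocks (g : ℕ → ℕ) (C N : ℕ) :
    ∑ j ∈ Finset.range (C * N), g j = ∑ c ∈ Finset.range C, ∑ j ∈ Finset.range N, g (c * N + j) := by
  induction C with
  | zero => simp
  | succ C ih => rw [Nat.succ_mul, Finset.sum_range_add, ih, Finset.sum_range_succ]

private theorem base_le {x l : ℕ} (h : l ≤ m) (hx : x < 2 ^ m) : x / 2 ^ l * 2 ^ l + 2 ^ l ≤ 2 ^ m := by
  have h1 : x / 2 ^ l < 2 ^ (m - l) := by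
    rw [Nat.div_lt_iff_lt_mul (by positivity), ← pow_add, Nat.sub_add_cancel h]
    exact hx
  have h2 : (x / 2 ^ l + 1) * 2 ^ l ≤ 2 ^ (m - l) * 2 ^ l := Nat.mul_le_mul_right _ h1
  rw [← pow_add, Nat.sub_add_cancel h] at h2
  rw [← Nat.succ_mul]
  exact h2

private theorem ss_line (B : Blk V m) (f : V → ℕ) {l k : ℕ} (h : l + k ≤ m) (v : V) {c : ℕ} (hc : c < 2 ^ k) :
    ss B f l ((B.bits l k h).nd v c) =
      ∑ j ∈ Finset.range (2 ^ l), f (B.nd v (B.pos v / 2 ^ (l + k) * 2 ^ (l + k) + (c * 2 ^ l + j))) := by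
  have hu : (B.bits l k h).nd v c = B.nd v (Blk.rep l k (B.pos v) c) := by
    show B.nd v (Blk.rep l k (B.pos v) (c % 2 ^ k)) = _
    rw [Nat.mod_eq_of_lt hc]
  have hlt := Blk.rep_lt h (B.pos_lt v) hc
  have hdiv : Blk.rep l k (B.pos v) c / 2 ^ l * 2 ^ l = B.pos v / 2 ^ (l + k) * 2 ^ (l + k) + c * 2 ^ l := by
    unfold Blk.rep
    have h1 : B.pos v / 2 ^ (l + k) * 2 ^ (l + k) + c * 2 ^ l + B.pos v % 2 ^ l =
        2 ^ l * (B.pos v / 2 ^ (l + k) * 2 ^ k + c) + B.pos v % 2 ^ l := by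
      rw [pow_add]
      ring
    rw [h1, Nat.mul_add_div (by positivity), Nat.div_eq_of_lt (Nat.mod_lt _ (by positivity)), add_zero, pow_add]
    ring
  unfold ss
  rw [hu, B.pos_nd v _ hlt, hdiv]
  apply Finset.sum_congr rfl
  intro j hj
  rw [Finset.mem_range] at hj
  have h2 := base_le (x := Blk.rep l k (B.pos v) c) (l := l) (m := m) (by omega) hlt
  rw [hdiv] at h2
  rw [B.nd_nd v _ _ hlt (by omega), add_assoc]

private theorem ss_step (B : Blk V m) (f : V → ℕ) {l k : ℕ} (h : l + k ≤ m) (v : V) :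
    ss B f (l + k) v = ∑ c ∈ Finset.range (2 ^ k), ss B f l ((B.bits l k h).nd v c) := by
  have h1 : ss B f (l + k) v = ∑ j ∈ Finset.range (2 ^ k * 2 ^ l), f (B.nd v (B.pos v / 2 ^ (l + k) * 2 ^ (l + k) + j)) := by
    unfold ss
    have h2 : (2 : ℕ) ^ (l + k) = 2 ^ k * 2 ^ l := by rw [add_comm l k, pow_add]
    exact congrArg (fun N => ∑ j ∈ Finset.range N, f (B.nd v (B.pos v / 2 ^ (l + k) * 2 ^ (l + k) + j))) h2
  rw [h1, sum_blocks]
  apply Finset.sum_congr rfl
  intro c hc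
  rw [ss_line B f h v (Finset.mem_range.1 hc)]

private theorem pp_step (B : Blk V m) (f : V → ℕ) {l k : ℕ} (h : l + k ≤ m) (v : V) :
    pp B f (l + k) v = ∑ c ∈ Finset.range ((B.bits l k h).pos v), ss B f l ((B.bits l k h).nd v c) + pp B f l v := by
  have hpos : (B.bits l k h).pos v = B.pos v / 2 ^ l % 2 ^ k := rfl
  have h2 : B.pos v % 2 ^ (l + k) = (B.pos v / 2 ^ l % 2 ^ k) * 2 ^ l + B.pos v % 2 ^ l := by
    rw [pow_add, Nat.mod_mul]
    ring
  have h3 : B.pos v / 2 ^ (l + k) * 2 ^ (l + k) + (B.pos v / 2 ^ l % 2 ^ k) * 2 ^ l = B.pos v / 2 ^ l * 2 ^ l := by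
    have h4 := Nat.div_add_mod (B.pos v / 2 ^ l) (2 ^ k)
    rw [Nat.div_div_eq_div_mul, ← pow_add] at h4
    calc B.pos v / 2 ^ (l + k) * 2 ^ (l + k) + (B.pos v / 2 ^ l % 2 ^ k) * 2 ^ l
        = (2 ^ k * (B.pos v / 2 ^ (l + k)) + B.pos v / 2 ^ l % 2 ^ k) * 2 ^ l := by
          rw [pow_add]
          ring
      _ = _ := by rw [h4]
  unfold pp
  rw [h2, Finset.sum_range_add, sum_blocks, hpos]
  congr 1
  · apply Finset.sum_congr rfl
    intro c hc
    rw [ss_line B f h v ((Finset.mem_range.1 hc).trans (Nat.mod_lt _ (by positivity)))]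
  · apply Finset.sum_congr rfl
    intro j _
    rw [← add_assoc, h3]

private theorem ss_le (B : Blk V m) (f : V → ℕ) {l : ℕ} (h : l ≤ m) (v : V) :
    ss B f l v ≤ ∑ j ∈ Finset.range (2 ^ m), f (B.nd v j) := by
  unfold ss
  have h1 := base_le h (B.pos_lt v)
  have h2 : ∑ j ∈ Finset.range (2 ^ l), f (B.nd v (B.pos v / 2 ^ l * 2 ^ l + j)) =
      ∑ j ∈ Finset.Ico (B.pos v / 2 ^ l * 2 ^ l) (B.pos v / 2 ^ l * 2 ^ l + 2 ^ l), f (B.nd v j) := by
    rw [Finset.sum_Ico_eq_sum_range, Nat.add_sub_cancel_left]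
  rw [h2]
  apply Finset.sum_le_sum_of_subset
  intro j hj
  rw [Finset.mem_Ico] at hj
  rw [Finset.mem_range]
  omega

private theorem pp_le (B : Blk V m) (f : V → ℕ) {l : ℕ} (v : V) : pp B f l v ≤ ss B f l v := by
  unfold pp ss
  apply Finset.sum_le_sum_of_subset
  intro j hj
  rw [Finset.mem_range] at hj ⊢
  exact hj.trans (Nat.mod_lt _ (by positivity))

private theorem ss_zero (B : Blk V m) (f : V → ℕ) (v : V) : ss B f 0 v = f v := by
  unfold ss
  simp [B.nd_pos]

private theorem pp_zero (B : Blk V m) (f : V → ℕ) (v : V) : pp B f 0 v = 0 := by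
  unfold pp
  simp [Nat.mod_one]

private theorem ss_top (B : Blk V m) (f : V → ℕ) (v : V) : ss B f m v = ∑ j ∈ Finset.range (2 ^ m), f (B.nd v j) := by
  unfold ss
  simp [Nat.div_eq_of_lt (B.pos_lt v)]

private theorem pp_top (B : Blk V m) (f : V → ℕ) (v : V) : pp B f m v = ∑ j ∈ Finset.range (B.pos v), f (B.nd v j) := by
  unfold pp
  simp [Nat.div_eq_of_lt (B.pos_lt v), Nat.mod_eq_of_lt (B.pos_lt v)]

private theorem ss_congr (B : Blk V m) (f g : V → ℕ) {l k : ℕ} (h : l + k ≤ m) (v : V)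
    (hfg : ∀ u, (B.bits l k h).cls v u → ss B f l u = ss B g l u) : ss B f (l + k) v = ss B g (l + k) v := by
  rw [ss_step B f h, ss_step B g h]
  apply Finset.sum_congr rfl
  intro c hc
  exact hfg _ ((B.bits l k h).cls_nd v (Finset.mem_range.1 hc))

private theorem pp_congr (B : Blk V m) (f g : V → ℕ) {l k : ℕ} (h : l + k ≤ m) (v : V)
    (hfg : ∀ u, (B.bits l k h).cls v u → ss B f l u = ss B g l u) (hp : pp B f l v = pp B g l v) :
    pp B f (l + k) v = pp B g (l + k) v := by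
  rw [pp_step B f h, pp_step B g h, hp]
  congr 1
  apply Finset.sum_congr rfl
  intro c hc
  exact hfg _ ((B.bits l k h).cls_nd v ((Finset.mem_range.1 hc).trans ((B.bits l k h).pos_lt v)))

private theorem step_le {k n t : ℕ} (hm : m = k * n) (ht : t < n) : k * t + k ≤ m := by
  rw [hm, ← Nat.mul_succ]
  exact Nat.mul_le_mul_left _ ht

theorem lsum {M : Mach V Ω R} {Lam k n r0 Bd : ℕ} {B : Blk V m} (hL : Lines M Lam B k n r0) (hB : Bd + 1 ≤ Lam) (P : M.Pl)
    (f : V → Ω → ℕ) (hf : ∀ v, M.Knows P v (f v)) (hb : ∀ v w, ∑ t ∈ Finset.range (2 ^ m), f (B.nd v t) w ≤ Bd) :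
    M.Do (n * r0) P (fun P' => ∀ v, M.Knows P' v (fun w => ∑ t ∈ Finset.range (2 ^ m), f (B.nd v t) w)) := by
  have hsz : ∀ l, l ≤ m → Sz Lam (fun v w => ss B (fun z => f z w) l v) := fun l hl =>
    Sz.nat (fun v w => (Nat.lt_succ_of_le ((ss_le B _ hl v).trans (hb v w))).trans_le hB)
  have h0 : M.Do (n * r0) P (fun P' => ∀ v, M.Knows P' v (fun w => ss B (fun z => f z w) (k * n) v)) := by
    refine Mach.Do.iter (Φ := fun t P' => ∀ v, M.Knows P' v (fun w => ss B (fun z => f z w) (k * t) v)) ?_ ?_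
    · intro v
      refine (hf v).triv (fun w => ?_)
      rw [mul_zero, ss_zero]
    · intro t ht P' _ hP'
      have hle := step_le hL.hm ht
      have h1 : k * (t + 1) = k * t + k := by ring
      rw [h1]
      exact knows_round (hL.rnd t hle ht) P' (fun v w => ss B (fun z => f z w) (k * t) v)
        (fun v w => ss B (fun z => f z w) (k * t + k) v) (hsz _ (by omega)) (hsz _ hle) hP'
        (fun v w w' h => ss_congr B _ _ hle v h)
  rw [← hL.hm] at h0
  refine h0.mono le_rfl (fun P' _ hP' v => (hP' v).triv (fun w => ?_))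
  rw [ss_top]

theorem pre {M : Mach V Ω R} {Lam k n r0 Bd : ℕ} {B : Blk V m} (hL : Lines M Lam B k n r0) (hB : (Bd + 1) * (Bd + 1) ≤ Lam) (P : M.Pl)
    (f : V → Ω → ℕ) (hf : ∀ v, M.Knows P v (f v)) (hb : ∀ v w, ∑ t ∈ Finset.range (2 ^ m), f (B.nd v t) w ≤ Bd) :
    M.Do (n * r0) P (fun P' => ∀ v, M.Knows P' v (fun w => ∑ t ∈ Finset.range (B.pos v), f (B.nd v t) w)) := by
  have hs1 : ∀ l, l ≤ m → Sz (Bd + 1) (fun v w => ss B (fun z => f z w) l v) := fun l hl =>
    Sz.nat (fun v w => Nat.lt_succ_of_le ((ss_le B _ hl v).trans (hb v w)))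
  have hs2 : ∀ l, l ≤ m → Sz (Bd + 1) (fun v w => pp B (fun z => f z w) l v) := fun l hl =>
    Sz.nat (fun v w => Nat.lt_succ_of_le ((pp_le B _ v).trans ((ss_le B _ hl v).trans (hb v w))))
  have hsz : ∀ l, l ≤ m → Sz Lam (fun v w => (ss B (fun z => f z w) l v, pp B (fun z => f z w) l v)) := fun l hl =>
    ((hs1 l hl).prod (hs2 l hl)).mono hB
  have h0 : M.Do (n * r0) P (fun P' => ∀ v, M.Knows P' v
      (fun w => (ss B (fun z => f z w) (k * n) v, pp B (fun z => f z w) (k * n) v))) := by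
    refine Mach.Do.iter (Φ := fun t P' => ∀ v, M.Knows P' v
      (fun w => (ss B (fun z => f z w) (k * t) v, pp B (fun z => f z w) (k * t) v))) ?_ ?_
    · intro v w w' hw
      show (ss B (fun z => f z w) (k * 0) v, pp B (fun z => f z w) (k * 0) v) =
        (ss B (fun z => f z w') (k * 0) v, pp B (fun z => f z w') (k * 0) v)
      rw [mul_zero, ss_zero, ss_zero, pp_zero, pp_zero, hf v w w' hw]
    · intro t ht P' _ hP'
      have hle := step_le hL.hm ht
      have h1 : k * (t + 1) = k * t + k := by ring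
      rw [h1]
      refine knows_round (hL.rnd t hle ht) P' (fun v w => (ss B (fun z => f z w) (k * t) v, pp B (fun z => f z w) (k * t) v))
        (fun v w => (ss B (fun z => f z w) (k * t + k) v, pp B (fun z => f z w) (k * t + k) v)) (hsz _ (by omega)) (hsz _ hle) hP'
        (fun v w w' h => ?_)
      have h2 : ∀ u, (B.bits (k * t) k hle).cls v u → ss B (fun z => f z w) (k * t) u = ss B (fun z => f z w') (k * t) u :=
        fun u hu => congrArg Prod.fst (h u hu)
      have h3 : pp B (fun z => f z w) (k * t) v = pp B (fun z => f z w') (k * t) v :=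
        congrArg Prod.snd (h v ((B.bits (k * t) k hle).cls_refl v))
      exact Prod.ext (ss_congr B _ _ hle v h2) (pp_congr B _ _ hle v h2 h3)
  rw [← hL.hm] at h0
  refine h0.mono le_rfl (fun P' _ hP' v => ?_)
  refine ((hP' v).comp Prod.snd).triv (fun w => ?_)
  rw [← pp_top B (fun z => f z w) v]

end Pool.Agent.H31.HS
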