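import Mathlib
import Pool.Agent.H31.HS.Sums
import Pool.Agent.H31.HS.Conc

/-!
# Pack: `2 n` rounds; and the count itself, `n` rounds

`count`: `pre` with `f v w = if (o v w) then 1 else 0`, `Bd = 2^m` (`≤ W`); `∑ t ∈ range (pos v), f (nd v t) w = cnt B (o · w) v` (`Finset.card_filter`).
`pack`: with `c v w = cnt ..` known, the new array has labels `(x, c)` (`Sm.pair`, at most `S * W` labels), `conc` with `tau (x, c) = c` (for active `v`, `u` with `pos v < pos u`:
`c v < c u` and `c u - c v ≤ pos u - pos v`; `c < 2^m`); then the label `c` is dropped (`Has.map` with `Option.map Prod.fst`).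
Sizes: `(2^m + 1) * (2^m + 1) ≤ W * W ≤ Lam`, `S * W + 1 ≤ S * W^2 ≤ Lam` for `S ≥ 1`.
-/

/-!
# Pack: `2 n` rounds; and the count itself, `n` rounds

`count`: `pre` with `f v w = if (o v w) then 1 else 0`, `Bd = 2^m` (`≤ W`); `∑ t ∈ range (pos v), f (nd v t) w = cnt B (o · w) v` (`Finset.card_filter`).
`pack`: with `c v w = cnt ..` known, the new array has labels `(x, c)` (`Sm.pair`, at most `S * W` labels), `conc` with `tau (x, c) = c` (for active `v`, `u` with `pos v < pos u`:
`c v < c u` and `c u - c v ≤ pos u - pos v`; `c < 2^m`); then the label `c` is dropped (`Has.map` with `Option.map Prod.fst`).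
Sizes: `(2^m + 1) * (2^m + 1) ≤ W * W ≤ Lam`, `S * W + 1 ≤ S * W^2 ≤ Lam` for `S ≥ 1`.
-/

set_option autoImplicit false

namespace Pool.Agent.H31.HS

variable {V Ω R : Type} {m : ℕ}

theorem count {M : Mach V Ω R} {Lam k n r0 W : ℕ} {B : Blk V m} (hL : Lines M Lam B k n r0) (hW : 2 ^ m < W) (hl : W ^ 2 ≤ Lam) (P : M.Pl)
    (o : V → Ω → Bool) (ho : ∀ v, M.Knows P v (o v)) :
    M.Do (n * r0) P (fun P' => ∀ v, M.Knows P' v (fun w => cnt B (fun z => o z w) v)) := by
  have h1 : (2 ^ m + 1) * (2 ^ m + 1) ≤ Lam := by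
    refine le_trans ?_ hl
    rw [pow_two]
    exact Nat.mul_le_mul hW hW
  refine (pre hL h1 P (fun v w => if o v w = true then 1 else 0) (fun v => (ho v).comp (fun b : Bool => if b = true then 1 else 0))
    (fun v w => ?_)).mono le_rfl (fun P' _ hP' v => ?_)
  · refine (Finset.sum_le_card_nsmul _ _ 1 (fun t _ => ?_)).trans (by simp)
    split_ifs <;> omega
  · refine Eq.mp (congrArg (fun f => M.Knows P' v f) ?_) (hP' v)
    funext w
    unfold cnt
    rw [Finset.card_filter]

private theorem cnt_le (B : Blk V m) (o : V → Bool) (v : V) : cnt B o v ≤ B.pos v := by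
  unfold cnt
  exact (Finset.card_filter_le _ _).trans (by simp)

private theorem cnt_cls (B : Blk V m) (o : V → Bool) {v u : V} (h : B.cls v u) :
    cnt B o u = ((Finset.range (B.pos u)).filter (fun t => o (B.nd v t) = true)).card := by
  unfold cnt
  congr 1
  apply Finset.filter_congr
  intro t ht
  rw [B.nd_of_cls h ((Finset.mem_range.1 ht).trans (B.pos_lt u))]

private theorem cnt_lt (B : Blk V m) (o : V → Bool) {v u : V} (h : B.cls v u) (hv : o v = true) (hp : B.pos v < B.pos u) :
    cnt B o v < cnt B o u := by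
  rw [cnt_cls B o h]
  unfold cnt
  apply Finset.card_lt_card
  rw [Finset.ssubset_iff_of_subset]
  · refine ⟨B.pos v, ?_, ?_⟩
    · rw [Finset.mem_filter, Finset.mem_range, B.nd_pos]
      exact ⟨hp, hv⟩
    · rw [Finset.mem_filter, Finset.mem_range]
      exact fun h => lt_irrefl _ h.1
  · intro t ht
    rw [Finset.mem_filter, Finset.mem_range] at ht ⊢
    exact ⟨ht.1.trans hp, ht.2⟩

private theorem cnt_diff (B : Blk V m) (o : V → Bool) {v u : V} (h : B.cls v u) (hp : B.pos v < B.pos u) :
    cnt B o u + B.pos v ≤ cnt B o v + B.pos u := by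
  rw [cnt_cls B o h]
  unfold cnt
  have h1 : (Finset.range (B.pos u)).filter (fun t => o (B.nd v t) = true) ⊆
      ((Finset.range (B.pos v)).filter (fun t => o (B.nd v t) = true)) ∪ Finset.Ico (B.pos v) (B.pos u) := by
    intro t ht
    rw [Finset.mem_filter, Finset.mem_range] at ht
    rw [Finset.mem_union, Finset.mem_filter, Finset.mem_range, Finset.mem_Ico]
    by_cases h2 : t < B.pos v
    · exact Or.inl ⟨h2, ht.2⟩
    · exact Or.inr ⟨not_lt.1 h2, ht.1⟩
  have h2 := (Finset.card_le_card h1).trans (Finset.card_union_le _ _)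
  rw [Nat.card_Ico] at h2
  omega

private theorem has_map {M : Mach V Ω R} {X Y : Type} {P : M.Pl} {v : V} {a : Ω → X × Option R} (h : M.Has P v a) (g : X → Y) :
    M.Has P v (fun w => (g (a w).1, (a w).2)) := by
  refine ⟨fun w w' hs => ?_, fun w r hr => h.2 w r hr⟩
  show (g (a w).1, (a w).2) = (g (a w').1, (a w').2)
  rw [h.1 w w' hs]

private theorem has_tag {M : Mach V Ω R} {X Y : Type} {P : M.Pl} {v : V} {a : Ω → Option X × Option R} {c : Ω → Y} (h : M.Has P v a)
    (hc : M.Knows P v c) : M.Has P v (fun w => ((a w).1.map (fun x => (x, c w)), (a w).2)) := by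
  refine ⟨fun w w' hs => ?_, fun w r hr => h.2 w r hr⟩
  show ((a w).1.map (fun x => (x, c w)), (a w).2) = ((a w').1.map (fun x => (x, c w')), (a w').2)
  rw [h.1 w w' hs, hc w w' hs]

theorem pack {M : Mach V Ω R} {Lam k n r0 W S : ℕ} {B : Blk V m} (hL : Lines M Lam B k n r0) (hW : 2 ^ m < W) (hS : 1 ≤ S)
    (hl : S * W ^ 2 ≤ Lam) {X : Type} (P : M.Pl) (a : V → Ω → Option X × Option R) (hs : Sm S a) (ha : ∀ v, M.Has P v (a v)) :
    M.Do (2 * n * r0) P (fun P' => ∃ b : V → Ω → Option X × Option R, (∀ v, M.Has P' v (b v)) ∧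
      ∀ w, PackSpec B (fun v => a v w) (fun v => b v w)) := by
  have hW1 : 1 ≤ 2 ^ m := Nat.one_le_two_pow
  have hl' : W ^ 2 ≤ Lam := le_trans (Nat.le_mul_of_pos_left _ hS) hl
  have hl2 : S * W + 1 ≤ Lam := by
    refine le_trans ?_ hl
    have h1 : 1 ≤ S * W := Nat.mul_pos hS (by omega)
    have h2 : S * W * 2 ≤ S * W * W := Nat.mul_le_mul_left _ (by omega)
    have h3 : S * W ^ 2 = S * W * W := by ring
    omega
  have h0 := count hL hW hl' P (fun v w => (a v w).1.isSome) (fun v => (ha v).label.comp Option.isSome)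
  have hcost : 2 * n * r0 = n * r0 + n * r0 := by ring
  rw [hcost]
  refine h0.bind (fun P' hP' hc => ?_)
  have hlt : ∀ v w, cnt B (fun z => (a z w).1.isSome) v < 2 ^ m := fun v w => (cnt_le B _ v).trans_lt (B.pos_lt v)
  have hget : ∀ v w (y : X × ℕ), ((a v w).1.map (fun x => (x, cnt B (fun z => (a z w).1.isSome) v))) = some y →
      (a v w).1 = some y.1 ∧ y.2 = cnt B (fun z => (a z w).1.isSome) v := by
    intro v w y hy
    rw [Option.map_eq_some_iff] at hy
    obtain ⟨x, hx, rfl⟩ := hy
    exact ⟨hx, rfl⟩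
  have hsm : Sm (S * W) (fun v w => ((a v w).1.map (fun x => (x, cnt B (fun z => (a z w).1.isSome) v)), (a v w).2)) :=
    Sm.pair hs (Sz.nat (n := W) (f := fun v w => cnt B (fun z => (a z w).1.isSome) v) (fun v w => (hlt v w).trans hW))
      (fun v w y hy => hget v w y hy)
  refine (conc hL hl2 P' (fun v w => ((a v w).1.map (fun x => (x, cnt B (fun z => (a z w).1.isSome) v)), (a v w).2)) hsm
    (fun v => has_tag ((ha v).mono hP') (hc v)) Prod.snd ?_ ?_).mono le_rfl ?_
  · intro w v y hy
    rw [(hget v w y hy).2]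
    exact hlt v w
  · intro w v u y y' hcls hy hy' hp
    obtain ⟨h1, h2⟩ := hget v w y hy
    obtain ⟨h3, h4⟩ := hget u w y' hy'
    show y.2 < y'.2 ∧ y'.2 + B.pos v ≤ y.2 + B.pos u
    rw [h2, h4]
    exact ⟨cnt_lt B _ hcls (by rw [h1]; rfl) hp, cnt_diff B _ hcls hp⟩
  · rintro P'' _ ⟨b, hb, hspec⟩
    refine ⟨fun v w => ((b v w).1.map Prod.fst, (b v w).2), fun v => has_map (hb v) (Option.map Prod.fst), fun w v => ⟨?_, ?_⟩⟩
    · intro u hu hs1 hcn
      obtain ⟨x, hx⟩ := Option.isSome_iff_exists.1 hs1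
      have h1 := (hspec w v).1 u (x, cnt B (fun z => (a z w).1.isSome) u) hu (by
        show (a u w).1.map _ = _
        have hx' : (a u w).1 = some x := hx
        rw [hx']
        rfl) hcn
      show ((b v w).1.map Prod.fst, (b v w).2) = a u w
      have h2 : b v w = ((a u w).1.map (fun x => (x, cnt B (fun z => (a z w).1.isSome) u)), (a u w).2) := h1
      rw [h2]
      refine Prod.ext ?_ rfl
      show ((a u w).1.map _).map Prod.fst = (a u w).1
      rw [Option.map_map]
      exact congrFun Option.map_id _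
    · intro hno
      have h1 := (hspec w v).2 (fun u y hu hy => by
        obtain ⟨h2, h3⟩ := hget u w y hy
        show y.2 ≠ B.pos v
        rw [h3]
        exact hno u hu (by
          show (a u w).1.isSome = true
          rw [h2]
          rfl))
      show ((b v w).1.map Prod.fst, (b v w).2) = emp
      have h2 : b v w = emp := h1
      rw [h2]
      rfl

end Pool.Agent.H31.HS
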