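import Mathlib
import Pool.Agent.H31.HS.SelR
import Pool.Agent.H31.HS.LinF

/-!
# Scan: every node gets the last active item at or before it, `2 n` rounds

`Do.iter` with cost `2 * r0` per digit.  After `t` digits every `v` has two items: `A v` = last active item in its class of `B.bits 0 (k t)` (empty if there is none), and
`b v` = last active item at or before `v` in that class (`ScanSpec (B.bits 0 (k t))`).  Step, first round (`sel_round` on `A`, line of digit `t`): `A' v` = `A u` for the `u` of the line with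
the largest number such that `A u` is active: `C v u L := (L u).isSome ∧ ∀ u', line v u' → B.pos u < B.pos u' → L u' = none`.  Second round (`sel_round` on `A`):
`c v` = `A u` for the `u` of the line with the largest number below `B.pos v` such that `A u` is active; `b' v = if (b v).1.isSome then b v else c v` (`Has.ite`).
Nodes of the class of `B.bits 0 (k(t+1))` with smaller digit `t` have smaller numbers; with equal digit `t` they are in the same small class.
The relation `S + 1 ≤ Lam` gives the sizes (`Sm.of_range`).  At the end `bits_all`.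
-/

set_option autoImplicit false

namespace Pool.Agent.H31.HS

variable {V Ω R : Type} {m : ℕ}

/-- same class and same quotient of the numbers by `N` -/
private def QC (B : Blk V m) (N : ℕ) (v u : V) : Prop := B.cls v u ∧ B.pos v / N = B.pos u / N

/-- `x` is the last active item of the class of `v` -/
private def EA {X : Type} (B : Blk V m) (N : ℕ) (a : V → Option X × Option R) (v : V)
    (x : Option X × Option R) : Prop :=
  (∃ u, QC B N v u ∧ (a u).1.isSome ∧
    (∀ u', QC B N v u' → (a u').1.isSome → B.pos u' ≤ B.pos u) ∧ x = a u) ∨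
  ((∀ u, QC B N v u → ¬ (a u).1.isSome) ∧ x = emp)

/-- `x` is the last active item of the class of `v` at or before `v` -/
private def EB {X : Type} (B : Blk V m) (N : ℕ) (a : V → Option X × Option R) (v : V)
    (x : Option X × Option R) : Prop :=
  (∃ u, QC B N v u ∧ (a u).1.isSome ∧ B.pos u ≤ B.pos v ∧
    (∀ u', QC B N v u' → (a u').1.isSome → B.pos u' ≤ B.pos v → B.pos u' ≤ B.pos u) ∧ x = a u) ∨
  ((∀ u, QC B N v u → B.pos u ≤ B.pos v → ¬ (a u).1.isSome) ∧ x = emp)

/-- the line of digit `t` -/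
private def LnP (B : Blk V m) (N K : ℕ) (ln : V → V → Prop) : Prop :=
  (∀ v u, ln v u ↔ B.cls v u ∧ B.pos v / (N * K) = B.pos u / (N * K) ∧
    B.pos v % N = B.pos u % N) ∧
  ∀ v u, B.cls v u → B.pos v / (N * K) = B.pos u / (N * K) → ∃ z, ln v z ∧ QC B N z u

private theorem exists_max {W : Type} (Q : W → Prop) (f : W → ℕ) (n : ℕ) (hf : ∀ v, f v < n)
    (h : ∃ v, Q v) : ∃ v, Q v ∧ ∀ v', Q v' → f v' ≤ f v := by
  classical
  have hex : ∃ k, ∃ v, Q v ∧ n - f v = k := by
    obtain ⟨v, hv⟩ := h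
    exact ⟨n - f v, v, hv, rfl⟩
  obtain ⟨v, hv, hk⟩ := Nat.find_spec hex
  refine ⟨v, hv, fun v' hv' => ?_⟩
  by_contra hcon
  push Not at hcon
  have h1 := hf v'
  exact Nat.find_min hex (m := n - f v') (by omega) ⟨v', hv', rfl⟩

private theorem quot_lt {N p p' : ℕ} (h : p < p') (hm : p % N = p' % N) : p / N < p' / N := by
  rcases lt_or_eq_of_le (Nat.div_le_div_right (c := N) h.le) with h1 | h1
  · exact h1
  · have h2 := Nat.div_add_mod p N
    have h3 := Nat.div_add_mod p' N
    rw [h1, hm, h3] at h2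
    omega

private theorem quot_trans {N K p p' : ℕ} (h : p / N = p' / N) : p / (N * K) = p' / (N * K) := by
  rw [← Nat.div_div_eq_div_mul, ← Nat.div_div_eq_div_mul, h]

private theorem EA_some {X : Type} {B : Blk V m} {N : ℕ} {a : V → Option X × Option R} {z : V}
    {x : Option X × Option R} (h : EA B N a z x) (hx : x.1.isSome) :
    ∃ u, QC B N z u ∧ (a u).1.isSome ∧
      (∀ u', QC B N z u' → (a u').1.isSome → B.pos u' ≤ B.pos u) ∧ x = a u := by
  rcases h with h | h
  · exact h
  · rw [h.2] at hx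
    exact absurd hx (by simp [emp])

private theorem EA_act {X : Type} {B : Blk V m} {N : ℕ} {a : V → Option X × Option R} {z u : V}
    {x : Option X × Option R} (h : EA B N a z x) (hu : QC B N z u) (hx : (a u).1.isSome) :
    x.1.isSome := by
  rcases h with ⟨u', h1, h2, h3, h4⟩ | h
  · rw [h4]
    exact h2
  · exact absurd hx (h.1 u hu)

/-- comparison of two active items by means of the line -/
private theorem cmp_line {B : Blk V m} {N K : ℕ} {ln : V → V → Prop} (hl : LnP B N K ln)
    {v z z' u u' : V} (hz : ln v z) (hz' : ln v z') (hu : QC B N z u) (hu' : QC B N z' u')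
    (hle : B.pos z' ≤ B.pos z) : (z' = z) ∨ B.pos u' < B.pos u := by
  have h1 := (hl.1 v z).1 hz
  have h2 := (hl.1 v z').1 hz'
  rcases lt_or_eq_of_le hle with h3 | h3
  · right
    have h4 := quot_lt h3 (h2.2.2.symm.trans h1.2.2)
    rw [hu.2, hu'.2] at h4
    exact Nat.lt_of_div_lt_div h4
  · left
    exact B.eq_of_cls (B.cls_trans (B.cls_symm h2.1) h1.1) h3

private theorem EA_step {X : Type} {B : Blk V m} {N K : ℕ} {ln : V → V → Prop}
    (hl : LnP B N K ln) {a A : V → Option X × Option R} (hA : ∀ v, EA B N a v (A v)) {v : V}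
    {x : Option X × Option R}
    (hx : (∃ z, ln v z ∧ ((A z).1.isSome ∧ ∀ z', ln v z' → B.pos z < B.pos z' → (A z').1 = none) ∧
        x = A z) ∨
      ((∀ z, ln v z → ¬ ((A z).1.isSome ∧ ∀ z', ln v z' → B.pos z < B.pos z' → (A z').1 = none)) ∧
        x = emp)) :
    EA B (N * K) a v x := by
  rcases hx with ⟨z, hz, ⟨hs, hmax⟩, hx⟩ | ⟨hno, hx⟩
  · obtain ⟨u, hu, hau, hum, hAz⟩ := EA_some (hA z) hs
    have h1 := (hl.1 v z).1 hz
    left
    refine ⟨u, ⟨B.cls_trans h1.1 hu.1, h1.2.1.trans (quot_trans hu.2)⟩, hau, ?_, hx.trans hAz⟩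
    intro u' hu' hau'
    obtain ⟨z', hz', hzu'⟩ := hl.2 v u' hu'.1 hu'.2
    have hs' := EA_act (hA z') hzu' hau'
    have hle : B.pos z' ≤ B.pos z := by
      by_contra hcon
      push Not at hcon
      rw [hmax z' hz' hcon] at hs'
      exact absurd hs' (by simp)
    rcases cmp_line hl hz hz' hu hzu' hle with h2 | h2
    · rw [h2] at hzu'
      exact hum u' hzu' hau'
    · exact h2.le
  · right
    refine ⟨?_, hx⟩
    intro u hu hau
    obtain ⟨z, hz, hzu⟩ := hl.2 v u hu.1 hu.2
    have hs := EA_act (hA z) hzu hau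
    obtain ⟨z1, ⟨hz1, hs1⟩, hmax⟩ := exists_max (fun z => ln v z ∧ (A z).1.isSome) B.pos (2 ^ m)
      B.pos_lt ⟨z, hz, hs⟩
    refine hno z1 hz1 ⟨hs1, fun z' hz' hlt => ?_⟩
    by_contra hcon
    have h2 := hmax z' ⟨hz', Option.isSome_iff_ne_none.mpr hcon⟩
    omega

private theorem EB_step {X : Type} {B : Blk V m} {N K : ℕ} {ln : V → V → Prop}
    (hl : LnP B N K ln) {a A : V → Option X × Option R} (hA : ∀ v, EA B N a v (A v)) {v : V}
    {x y : Option X × Option R} (hy : EB B N a v y)
    (hx : (∃ z, ln v z ∧ (B.pos z < B.pos v ∧ (A z).1.isSome ∧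
          ∀ z', ln v z' → B.pos z' < B.pos v → B.pos z < B.pos z' → (A z').1 = none) ∧ x = A z) ∨
      ((∀ z, ln v z → ¬ (B.pos z < B.pos v ∧ (A z).1.isSome ∧
          ∀ z', ln v z' → B.pos z' < B.pos v → B.pos z < B.pos z' → (A z').1 = none)) ∧
        x = emp)) :
    EB B (N * K) a v (if y.1.isSome then y else x) := by
  rcases hy with ⟨u, hu, hau, huv, hum, hy⟩ | ⟨hno, hy⟩
  · have hys : y.1.isSome := by
      rw [hy]
      exact hau
    rw [if_pos hys]
    left
    refine ⟨u, ⟨hu.1, quot_trans hu.2⟩, hau, huv, ?_, hy⟩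
    intro u' hu' hau' huv'
    rcases lt_or_eq_of_le (Nat.div_le_div_right (c := N) huv') with h1 | h1
    · rw [hu.2] at h1
      exact (Nat.lt_of_div_lt_div h1).le
    · exact hum u' ⟨hu'.1, h1.symm⟩ hau' huv'
  · have hys : ¬ y.1.isSome := by
      rw [hy]
      simp [emp]
    rw [if_neg hys]
    have hfar : ∀ u', QC B (N * K) v u' → (a u').1.isSome → B.pos u' ≤ B.pos v →
        B.pos u' / N < B.pos v / N := by
      intro u' hu' hau' huv'
      rcases lt_or_eq_of_le (Nat.div_le_div_right (c := N) huv') with h1 | h1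
      · exact h1
      · exact absurd hau' (hno u' ⟨hu'.1, h1.symm⟩ huv')
    rcases hx with ⟨z, hz, ⟨hzv, hs, hmax⟩, hx⟩ | ⟨hno', hx⟩
    · obtain ⟨u, hu, hau, hum, hAz⟩ := EA_some (hA z) hs
      have h1 := (hl.1 v z).1 hz
      left
      have huv : B.pos u < B.pos v := by
        have h2 := quot_lt hzv h1.2.2.symm
        rw [hu.2] at h2
        exact Nat.lt_of_div_lt_div h2
      refine ⟨u, ⟨B.cls_trans h1.1 hu.1, h1.2.1.trans (quot_trans hu.2)⟩, hau, huv.le, ?_,
        hx.trans hAz⟩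
      intro u' hu' hau' huv'
      obtain ⟨z', hz', hzu'⟩ := hl.2 v u' hu'.1 hu'.2
      have hs' := EA_act (hA z') hzu' hau'
      have h3 := hfar u' hu' hau' huv'
      rw [← hzu'.2] at h3
      have h4 : B.pos z' < B.pos v := Nat.lt_of_div_lt_div h3
      have hle : B.pos z' ≤ B.pos z := by
        by_contra hcon
        push Not at hcon
        rw [hmax z' hz' h4 hcon] at hs'
        exact absurd hs' (by simp)
      rcases cmp_line hl hz hz' hu hzu' hle with h2 | h2
      · rw [h2] at hzu'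
        exact hum u' hzu' hau'
      · exact h2.le
    · right
      refine ⟨?_, hx⟩
      intro u hu huv hau
      obtain ⟨z, hz, hzu⟩ := hl.2 v u hu.1 hu.2
      have hs := EA_act (hA z) hzu hau
      have h3 := hfar u hu hau huv
      rw [← hzu.2] at h3
      have h4 : B.pos z < B.pos v := Nat.lt_of_div_lt_div h3
      obtain ⟨z1, ⟨hz1, hv1, hs1⟩, hmax⟩ := exists_max
        (fun z => ln v z ∧ B.pos z < B.pos v ∧ (A z).1.isSome) B.pos (2 ^ m)
        B.pos_lt ⟨z, hz, h4, hs⟩
      refine hno' z1 hz1 ⟨hv1, hs1, fun z' hz' hzv' hlt => ?_⟩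
      by_contra hcon
      have h2 := hmax z' ⟨hz', hzv', Option.isSome_iff_ne_none.mpr hcon⟩
      omega

private theorem lnP_bits (B : Blk V m) {k t : ℕ} (h : k * t + k ≤ m) :
    LnP B (2 ^ (k * t)) (2 ^ k) (B.bits (k * t) k h).cls := by
  have h0 : ∀ v u, (B.bits (k * t) k h).cls v u ↔ B.cls v u ∧
      B.pos v / (2 ^ (k * t) * 2 ^ k) = B.pos u / (2 ^ (k * t) * 2 ^ k) ∧
      B.pos v % 2 ^ (k * t) = B.pos u % 2 ^ (k * t) := by
    intro v u
    rw [bits_cls, pow_add]
  refine ⟨h0, fun v u hc hq => ?_⟩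
  have hlt := (B.bits (k * t) k h).pos_lt u
  refine ⟨(B.bits (k * t) k h).nd v ((B.bits (k * t) k h).pos u),
    (B.bits (k * t) k h).cls_nd v hlt, ?_⟩
  have h1 := (h0 _ _).1 ((B.bits (k * t) k h).cls_nd v hlt)
  have h2 := (B.bits (k * t) k h).pos_nd v _ hlt
  obtain ⟨z, hz⟩ : ∃ z, z = (B.bits (k * t) k h).nd v ((B.bits (k * t) k h).pos u) := ⟨_, rfl⟩
  rw [← hz] at h1 h2 ⊢
  refine ⟨B.cls_trans (B.cls_symm h1.1) hc, ?_⟩
  have h3 : B.pos z / 2 ^ (k * t) % 2 ^ k = B.pos u / 2 ^ (k * t) % 2 ^ k := h2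
  have h4 : B.pos z / (2 ^ (k * t) * 2 ^ k) = B.pos u / (2 ^ (k * t) * 2 ^ k) :=
    h1.2.1.symm.trans hq
  rw [← Nat.div_div_eq_div_mul, ← Nat.div_div_eq_div_mul] at h4
  rw [← Nat.div_add_mod (B.pos z / 2 ^ (k * t)) (2 ^ k),
    ← Nat.div_add_mod (B.pos u / 2 ^ (k * t)) (2 ^ k), h3, h4]

theorem scan {M : Mach V Ω R} {Lam k n r0 S : ℕ} {B : Blk V m} (hL : Lines M Lam B k n r0) (hS : S + 1 ≤ Lam) {X : Type} (P : M.Pl)
    (a : V → Ω → Option X × Option R) (hs : Sm S a) (ha : ∀ v, M.Has P v (a v)) :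
    M.Do (2 * n * r0) P (fun P' => ∃ b : V → Ω → Option X × Option R, (∀ v, M.Has P' v (b v)) ∧
      ∀ w, ScanSpec B (fun v => a v w) (fun v => b v w)) := by
  classical
  have hiter : M.Do (n * (r0 + r0)) P (fun P' => ∃ A b : V → Ω → Option X × Option R, Sm S A ∧
      (∀ v, M.Has P' v (A v)) ∧ (∀ v, M.Has P' v (b v)) ∧
      ∀ w, (∀ v, EA B (2 ^ (k * n)) (fun u => a u w) v (A v w)) ∧
        ∀ v, EB B (2 ^ (k * n)) (fun u => a u w) v (b v w)) := by
    refine Mach.Do.iter (Φ := fun t P' => ∃ A b : V → Ω → Option X × Option R, Sm S A ∧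
      (∀ v, M.Has P' v (A v)) ∧ (∀ v, M.Has P' v (b v)) ∧
      ∀ w, (∀ v, EA B (2 ^ (k * t)) (fun u => a u w) v (A v w)) ∧
        ∀ v, EB B (2 ^ (k * t)) (fun u => a u w) v (b v w)) ?_ ?_
    · obtain ⟨a0, ha0⟩ : ∃ a0 : V → Ω → Option X × Option R, ∀ v w, a0 v w =
          if (a v w).1.isSome then a v w else emp := ⟨_, fun _ _ => rfl⟩
      have hHas0 : ∀ v, M.Has P v (a0 v) := fun v =>
        ((ha v).ite (Mach.Has.emp P v) (p := fun w => (a v w).1.isSome)
          ((ha v).label.comp (fun x => x.isSome))).triv (fun w => ha0 v w)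
      have hSm0 : Sm S a0 := hs.of_range (fun v w => by
        rw [ha0]
        by_cases hv : (a v w).1.isSome = true
        · rw [if_pos hv]
          exact Or.inr ⟨v, w, rfl⟩
        · rw [if_neg hv]
          exact Or.inl rfl)
      refine ⟨a0, a0, hSm0, hHas0, hHas0, fun w => ?_⟩
      have h0 : ∀ v u, QC B (2 ^ (k * 0)) v u → v = u := by
        intro v u h
        have h1 := h.2
        rw [Nat.mul_zero, pow_zero, Nat.div_one, Nat.div_one] at h1
        exact B.eq_of_cls h.1 h1
      refine ⟨fun v => ?_, fun v => ?_⟩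
      · rw [ha0]
        by_cases hv : (a v w).1.isSome = true
        · rw [if_pos hv]
          left
          exact ⟨v, ⟨B.cls_refl v, rfl⟩, hv, fun u' hu' _ => by rw [h0 v u' hu'], rfl⟩
        · rw [if_neg hv]
          right
          refine ⟨fun u hu => ?_, rfl⟩
          rw [← h0 v u hu]
          exact hv
      · rw [ha0]
        by_cases hv : (a v w).1.isSome = true
        · rw [if_pos hv]
          left
          exact ⟨v, ⟨B.cls_refl v, rfl⟩, hv, le_rfl, fun u' hu' _ _ => by rw [h0 v u' hu'], rfl⟩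
        · rw [if_neg hv]
          right
          refine ⟨fun u hu _ => ?_, rfl⟩
          rw [← h0 v u hu]
          exact hv
    · intro t ht P' _ hΦ
      obtain ⟨A, b, hSm, hA, hb, hE⟩ := hΦ
      have hkt : k * t + k ≤ m := by
        rw [hL.hm, ← Nat.mul_succ]
        exact Nat.mul_le_mul_left k ht
      have hR := hL.rnd t hkt ht
      have hl := lnP_bits B hkt
      obtain ⟨ln, hln⟩ : ∃ ln : V → V → Prop, ln = (B.bits (k * t) k hkt).cls := ⟨_, rfl⟩
      rw [← hln] at hR hl
      have hN : 2 ^ (k * (t + 1)) = 2 ^ (k * t) * 2 ^ k := by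
        rw [Nat.mul_succ, pow_add]
      refine Mach.Do.bind (sel_round hR hS P' A hSm hA (fun v z L => ln v z ∧ ((L z).isSome ∧
        ∀ z', ln v z' → B.pos z < B.pos z' → L z' = none)) ?_) ?_
      · rintro v z L L' hLL ⟨h1, h2, h3⟩
        refine ⟨h1, ?_, fun z' hz' hlt => ?_⟩
        · rw [← hLL z h1]
          exact h2
        · rw [← hLL z' hz']
          exact h3 z' hz' hlt
      · rintro P1 he1 ⟨A', hA', hsel1⟩
        refine (sel_round hR hS P1 A hSm (fun v => (hA v).mono he1) (fun v z L => ln v z ∧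
          (B.pos z < B.pos v ∧ (L z).isSome ∧
            ∀ z', ln v z' → B.pos z' < B.pos v → B.pos z < B.pos z' → L z' = none)) ?_).mono le_rfl
          ?_
        · rintro v z L L' hLL ⟨h1, h2, h3, h4⟩
          refine ⟨h1, h2, ?_, fun z' hz' hv' hlt => ?_⟩
          · rw [← hLL z h1]
            exact h3
          · rw [← hLL z' hz']
            exact h4 z' hz' hv' hlt
        · rintro P2 he2 ⟨c, hc, hsel2⟩
          refine ⟨A', fun v w => if (b v w).1.isSome then b v w else c v w, ?_,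
            fun v => (hA' v).mono he2, fun v => ?_, fun w => ⟨fun v => ?_, fun v => ?_⟩⟩
          · refine hSm.of_range (fun v w => ?_)
            rcases hsel1 w v with ⟨z, _, _, h3⟩ | ⟨_, h3⟩
            · exact Or.inr ⟨z, w, h3⟩
            · left
              rw [h3]
              rfl
          · exact (((hb v).mono he1).mono he2).ite (hc v)
              ((((hb v).mono he1).mono he2).label.comp (fun x => x.isSome))
          · rw [hN]
            refine EA_step hl (hE w).1 ?_
            rcases hsel1 w v with ⟨z, h1, h2, h3⟩ | ⟨h1, h3⟩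
            · exact Or.inl ⟨z, h1, h2.2, h3⟩
            · exact Or.inr ⟨fun z hz hcz => h1 z hz ⟨hz, hcz⟩, h3⟩
          · rw [hN]
            refine EB_step hl (hE w).1 ((hE w).2 v) ?_
            rcases hsel2 w v with ⟨z, h1, h2, h3⟩ | ⟨h1, h3⟩
            · exact Or.inl ⟨z, h1, h2.2, h3⟩
            · exact Or.inr ⟨fun z hz hcz => h1 z hz ⟨hz, hcz⟩, h3⟩
  refine hiter.mono (le_of_eq (by ring)) ?_
  rintro P' _ ⟨A, b, _, _, hb, hE⟩
  refine ⟨b, hb, fun w v => ?_⟩
  have hq : ∀ u, B.pos u / 2 ^ (k * n) = 0 := by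
    intro u
    rw [← hL.hm]
    exact Nat.div_eq_of_lt (B.pos_lt u)
  have hQC : ∀ u, B.cls v u → QC B (2 ^ (k * n)) v u := fun u hu => ⟨hu, by rw [hq, hq]⟩
  rcases (hE w).2 v with ⟨u0, hu0, hau0, huv0, hum0, hx⟩ | ⟨hno, hx⟩
  · refine ⟨?_, ?_⟩
    · intro u hu hau huv hum
      have h1 := hum0 u (hQC u hu) hau huv
      have h2 := hum u0 hu0.1 hau0 huv0
      have h3 : u0 = u := B.eq_of_cls (B.cls_trans (B.cls_symm hu0.1) hu) (le_antisymm h2 h1)
      rw [h3] at hx
      exact hx
    · intro hno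
      have h1 := hno u0 hu0.1 huv0
      have h2 : (a u0 w).1.isSome := hau0
      have h3 : (a u0 w).1 = none := h1
      rw [h3] at h2
      exact absurd h2 (by simp)
  · refine ⟨?_, ?_⟩
    · intro u hu hau huv _
      exact absurd hau (hno u (hQC u hu) huv)
    · intro _
      exact hx

end Pool.Agent.H31.HS
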