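import Mathlib
import Pool.Agent.H31.HS.MvStep

/-!
# Spread: `n` rounds

`Do.iter`, high digits first: after `t` steps `T_t u x = rep (k (n-t)) (k t) (B.pos u) (tau x / 2^(k (n-t)))`, that is: the digits from `n - t` on are those of `tau x`, the lower ones those of `B.pos u`.
`T_0 u x = B.pos u`, `T_n u x = tau x`.  Step: `mv_step` with the bits `i, ..., i + k - 1`, `i = k (n-t-1)`, and `dg x = tau x / 2^i % 2^k`.
No collision: `T_t v x = T_t u x'`, `pos v < pos u`, `i = k (n-t)`: `pos v ≡ pos u` mod `2^i` and `tau x / 2^i = tau x' / 2^i`, so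
`0 < pos u - pos v ≤ tau x' - tau x < 2^i`: contradiction.  `t = 0`: `b = a` with inactive items replaced by `emp` (local).
-/

set_option autoImplicit false

namespace Pool.Agent.H31.HS

variable {V Ω R : Type} {m : ℕ}

private theorem sp_dm {q a r : ℕ} (hr : r < q) : (a * q + r) / q = a ∧ (a * q + r) % q = r := by
  have hq : 0 < q := by omega
  constructor
  · rw [mul_comm, Nat.mul_add_div hq, Nat.div_eq_of_lt hr, add_zero]
  · rw [mul_comm, Nat.mul_add_mod, Nat.mod_eq_of_lt hr]

private theorem sp_coll {q p p' s s' : ℕ} (hq : 0 < q) (hpp : p < p') (h2 : s + p' ≤ s' + p)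
    (h : s / q * q + p % q = s' / q * q + p' % q) : False := by
  have g1 := sp_dm (a := s / q) (Nat.mod_lt p hq)
  have g2 := sp_dm (a := s' / q) (Nat.mod_lt p' hq)
  rw [h] at g1
  have e1 : s / q = s' / q := g1.1.symm.trans g2.1
  have e2 : p % q = p' % q := g1.2.symm.trans g2.2
  have f1 := Nat.div_add_mod p q
  have f2 := Nat.div_add_mod p' q
  have f3 := Nat.div_add_mod s q
  have f4 := Nat.div_add_mod s' q
  have f5 := Nat.mod_lt s' hq
  have f6 : p / q < p' / q := by
    by_contra hc
    push Not at hc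
    have : q * (p' / q) ≤ q * (p / q) := Nat.mul_le_mul_left _ hc
    omega
  have f7 : q * (p / q + 1) ≤ q * (p' / q) := Nat.mul_le_mul_left _ f6
  rw [mul_add, mul_one] at f7
  rw [e1] at f3
  omega

private theorem sp_rep {i k p s : ℕ} :
    s / 2 ^ i * 2 ^ i + p % 2 ^ i =
      Blk.rep i k (s / 2 ^ (i + k) * 2 ^ (i + k) + p % 2 ^ (i + k)) (s / 2 ^ i % 2 ^ k) := by
  have h1 := sp_dm (a := s / 2 ^ (i + k)) (Nat.mod_lt p (pow_pos two_pos (i + k)) : p % 2 ^ (i + k) < 2 ^ (i + k))
  unfold Blk.rep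
  have h2 : (s / 2 ^ (i + k) * 2 ^ (i + k) + p % 2 ^ (i + k)) % 2 ^ i = p % 2 ^ i := by
    have h3 : s / 2 ^ (i + k) * 2 ^ (i + k) = 2 ^ i * (s / 2 ^ (i + k) * 2 ^ k) := by
      rw [pow_add]
      ring
    rw [h3, Nat.mul_add_mod, Nat.mod_mod_of_dvd _ (pow_dvd_pow 2 (Nat.le_add_right i k))]
  rw [h1.1, h2]
  congr 1
  have h4 := Nat.div_add_mod (s / 2 ^ i) (2 ^ k)
  rw [Nat.div_div_eq_div_mul, ← pow_add] at h4
  calc s / 2 ^ i * 2 ^ i = (2 ^ k * (s / 2 ^ (i + k)) + s / 2 ^ i % 2 ^ k) * 2 ^ i := by rw [h4]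
    _ = s / 2 ^ (i + k) * 2 ^ (i + k) + s / 2 ^ i % 2 ^ k * 2 ^ i := by
      rw [pow_add]
      ring

theorem spread {M : Mach V Ω R} {Lam k n r0 S : ℕ} {B : Blk V m} (hL : Lines M Lam B k n r0) (hS : S + 1 ≤ Lam) {X : Type} (P : M.Pl)
    (a : V → Ω → Option X × Option R) (hs : Sm S a) (ha : ∀ v, M.Has P v (a v)) (tau : X → ℕ)
    (ht : ∀ w v x, (a v w).1 = some x → tau x < 2 ^ m)
    (hi : ∀ w v u x x', B.cls v u → (a v w).1 = some x → (a u w).1 = some x' → B.pos v < B.pos u →
      tau x + B.pos u ≤ tau x' + B.pos v) :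
    M.Do (n * r0) P (fun P' => ∃ b : V → Ω → Option X × Option R, (∀ v, M.Has P' v (b v)) ∧
      ∀ w, MoveSpec B tau (fun v => a v w) (fun v => b v w)) := by
  have hm := hL.hm
  have hΦ : M.Do (n * r0) P ((fun (t : ℕ) (P' : M.Pl) => t ≤ n → ∃ b : V → Ω → Option X × Option R,
      (∀ v, M.Has P' v (b v)) ∧ ∀ w, MvS B (fun u x => tau x / 2 ^ (k * (n - t)) * 2 ^ (k * (n - t)) + B.pos u % 2 ^ (k * (n - t)))
        (fun v => a v w) (fun v => b v w)) n) := by
    refine Mach.Do.iter (c := r0) (n := n) (P := P) (Φ := fun (t : ℕ) (P' : M.Pl) => t ≤ n →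
      ∃ b : V → Ω → Option X × Option R, (∀ v, M.Has P' v (b v)) ∧
        ∀ w, MvS B (fun u x => tau x / 2 ^ (k * (n - t)) * 2 ^ (k * (n - t)) + B.pos u % 2 ^ (k * (n - t)))
          (fun v => a v w) (fun v => b v w)) ?_ ?_
    · intro _
      classical
      refine ⟨fun v w => if (a v w).1.isSome then a v w else emp, fun v => ?_, fun w v => ?_⟩
      · have h1 := Mach.Has.ite (ha v) (Mach.Has.emp (X := X) P v) (p := fun w => (a v w).1.isSome)
          ((ha v).label.comp Option.isSome)
        exact h1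
      · have hz : ∀ u x, (a u w).1 = some x →
            tau x / 2 ^ (k * (n - 0)) * 2 ^ (k * (n - 0)) + B.pos u % 2 ^ (k * (n - 0)) = B.pos u := by
          intro u x hx
          rw [Nat.sub_zero, ← hm, Nat.div_eq_of_lt (ht w u x hx), Nat.mod_eq_of_lt (B.pos_lt u)]
          simp
        constructor
        · intro u x hu hx hp
          have hp' : tau x / 2 ^ (k * (n - 0)) * 2 ^ (k * (n - 0)) + B.pos u % 2 ^ (k * (n - 0)) = B.pos v := hp
          rw [hz u x hx] at hp'
          have huv : v = u := B.eq_of_cls hu hp'.symm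
          subst huv
          show (if (a v w).1.isSome then a v w else emp) = a v w
          have hx' : (a v w).1 = some x := hx
          rw [if_pos (by rw [hx']; rfl)]
        · intro hno
          show (if (a v w).1.isSome then a v w else emp) = emp
          rw [if_neg]
          intro hsome
          obtain ⟨x, hx⟩ := Option.isSome_iff_exists.1 hsome
          exact hno v x (B.cls_refl v) hx (hz v x hx)
    · intro t htn P1 hP1 hΦ1
      obtain ⟨b, hb, hab⟩ := hΦ1 (by omega)
      obtain ⟨e, he⟩ : ∃ e, n - t = e + 1 := ⟨n - t - 1, by omega⟩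
      have he' : n - (t + 1) = e := by omega
      have hen : e < n := by omega
      have hke : k * e + k ≤ m := by
        rw [hm]
        calc k * e + k = k * (e + 1) := by ring
          _ ≤ k * n := Nat.mul_le_mul_left _ hen
      have hke' : k * (e + 1) = k * e + k := by ring
      rw [he, hke'] at hab
      rw [he']
      refine (mv_step hke (hL.rnd e hke hen) hS P1 a b hs hb
        (fun u x => tau x / 2 ^ (k * e + k) * 2 ^ (k * e + k) + B.pos u % 2 ^ (k * e + k))
        (fun u x => tau x / 2 ^ (k * e) * 2 ^ (k * e) + B.pos u % 2 ^ (k * e))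
        (fun x => tau x / 2 ^ (k * e) % 2 ^ k) ?_ ?_ ?_ ?_ hab).mono le_rfl (fun P' _ h _ => h)
      · intro w v x _
        exact Nat.mod_lt _ (by positivity)
      · intro w v x hx
        have h1 := Blk.rep_lt (m := m) (i := 0) (l := k * e + k) (x := tau x) (t := B.pos v % 2 ^ (k * e + k))
          (by omega) (ht w v x hx) (Nat.mod_lt _ (by positivity))
        unfold Blk.rep at h1
        simpa [Nat.mod_one] using h1
      · intro w v x _
        exact sp_rep
      · intro w v u x x' hvu hx hx' heq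
        by_contra hne
        have hpne : B.pos v ≠ B.pos u := fun h => hne (B.eq_of_cls hvu h)
        rcases lt_or_gt_of_ne hpne with hlt | hlt
        · have h1 := hi w v u x x' hvu hx hx' hlt
          exact sp_coll (by positivity) hlt h1 heq
        · have h1 := hi w u v x' x (B.cls_symm hvu) hx' hx hlt
          exact sp_coll (by positivity) hlt h1 heq.symm
  refine hΦ.mono le_rfl fun P' _ hP' => ?_
  obtain ⟨b, hb, hab⟩ := hP' le_rfl
  refine ⟨b, hb, fun w v => ?_⟩
  have hz : ∀ u x, tau x / 2 ^ (k * (n - n)) * 2 ^ (k * (n - n)) + B.pos u % 2 ^ (k * (n - n)) = tau x := by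
    intro u x
    simp [Nat.mod_one]
  constructor
  · intro u x hu hx hp
    refine (hab w v).1 u x hu hx ?_
    show tau x / 2 ^ (k * (n - n)) * 2 ^ (k * (n - n)) + B.pos u % 2 ^ (k * (n - n)) = B.pos v
    rw [hz u x, hp]
  · intro hno
    refine (hab w v).2 fun u x hu hx hp => ?_
    have hp' : tau x / 2 ^ (k * (n - n)) * 2 ^ (k * (n - n)) + B.pos u % 2 ^ (k * (n - n)) = B.pos v := hp
    rw [hz u x] at hp'
    exact hno u x hu hx hp'

end Pool.Agent.H31.HS
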