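import Mathlib
import Pool.Agent.H31.HS.Pack
import Pool.Agent.H31.HS.Conc
import Pool.Agent.H31.HS.Spread
import Pool.Agent.H31.HS.Scan

/-!
# Distr: copies of items, `5 n` rounds

Node `u` wants its item at the `kp u` consecutive places from `bs u = sum of kp before u` on.  `count` of the nodes with `kp ≥ 1`: `idx u` (`n`); `conc` with labels `(y, idx, bs, kp)` for the `u` with `kp u ≥ 1`,
`tau = idx` (`n`); `spread` with `tau = bs` (`n`): for `u < u'` with `kp ≥ 1`: after `conc` the numbers are `idx u < idx u'`, and `bs u' - bs u ≥ idx u' - idx u` (each active node between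
contributes at least 1); `bs u < 2^m` because `bs u + kp u ≤ 2^m`, `kp u ≥ 1`.  `scan` (`2 n`): `v` gets the item with the largest `bs u ≤ pos v`; local: keep it iff `pos v < bs u + kp u`.
If `bs u ≤ pos v < bs u + kp u`, then `u` is the active node with the largest `bs ≤ pos v`.  If the total sum is `≤ pos v` nothing is kept.
Sizes: `S * W^3` labels (and `+ 1`), `conc`, `spread`, `scan` need `+ 1 ≤ Lam`; `count` needs `W^2 ≤ Lam`.
-/

/-!
# Distr: copies of items, `5 n` rounds

Node `u` wants its item at the `kp u` consecutive places from `bs u = sum of kp before u` on.  `count` of the nodes with `kp ≥ 1`: `idx u` (`n`); `conc` with labels `(y, idx, bs, kp)` for the `u` with `kp u ≥ 1`,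
`tau = idx` (`n`); `spread` with `tau = bs` (`n`): for `u < u'` with `kp ≥ 1`: after `conc` the numbers are `idx u < idx u'`, and `bs u' - bs u ≥ idx u' - idx u` (each active node between
contributes at least 1); `bs u < 2^m` because `bs u + kp u ≤ 2^m`, `kp u ≥ 1`.  `scan` (`2 n`): `v` gets the item with the largest `bs u ≤ pos v`; local: keep it iff `pos v < bs u + kp u`.
If `bs u ≤ pos v < bs u + kp u`, then `u` is the active node with the largest `bs ≤ pos v`.  If the total sum is `≤ pos v` nothing is kept.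
Sizes: `S * W^3` labels (and `+ 1`), `conc`, `spread`, `scan` need `+ 1 ≤ Lam`; `count` needs `W^2 ≤ Lam`.
-/

set_option autoImplicit false

namespace Pool.Agent.H31.HS

open Finset

variable {V Ω R : Type} {m : ℕ}

private theorem cntD_cls (B : Blk V m) (o : V → Bool) {v u : V} (h : B.cls v u) :
    cnt B o u = ((Finset.range (B.pos u)).filter (fun t => o (B.nd v t) = true)).card := by
  unfold cnt
  congr 1
  apply Finset.filter_congr
  intro t ht
  rw [B.nd_of_cls h ((Finset.mem_range.1 ht).trans (B.pos_lt u))]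

private theorem cntD_lt (B : Blk V m) (o : V → Bool) {v u : V} (h : B.cls v u) (hv : o v = true) (hp : B.pos v < B.pos u) :
    cnt B o v < cnt B o u := by
  rw [cntD_cls B o h]
  unfold cnt
  apply Finset.card_lt_card
  rw [Finset.ssubset_iff_of_subset]
  · refine ⟨B.pos v, ?_, ?_⟩
    · rw [Finset.mem_filter, Finset.mem_range, B.nd_pos]
      exact ⟨hp, hv⟩
    · rw [Finset.mem_filter, Finset.mem_range]
      exact fun h => lt_irrefl _ h.1
  · intro t ht
    rw [Finset.mem_filter, Finset.mem_range] at ht ⊢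
    exact ⟨ht.1.trans hp, ht.2⟩

private theorem cntD_diff (B : Blk V m) (o : V → Bool) {v u : V} (h : B.cls v u) (hp : B.pos v < B.pos u) :
    cnt B o u + B.pos v ≤ cnt B o v + B.pos u := by
  rw [cntD_cls B o h]
  unfold cnt
  have h1 : (Finset.range (B.pos u)).filter (fun t => o (B.nd v t) = true) ⊆
      ((Finset.range (B.pos v)).filter (fun t => o (B.nd v t) = true)) ∪ Finset.Ico (B.pos v) (B.pos u) := by
    intro t ht
    rw [Finset.mem_filter, Finset.mem_range] at ht
    rw [Finset.mem_union, Finset.mem_filter, Finset.mem_range, Finset.mem_Ico]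
    by_cases h2 : t < B.pos v
    · exact Or.inl ⟨h2, ht.2⟩
    · exact Or.inr ⟨not_lt.1 h2, ht.1⟩
  have h2 := (Finset.card_le_card h1).trans (Finset.card_union_le _ _)
  rw [Nat.card_Ico] at h2
  omega

private theorem cntD_le (B : Blk V m) (o : V → Bool) (v : V) : cnt B o v ≤ B.pos v := by
  unfold cnt
  exact (Finset.card_filter_le _ _).trans (by simp)

section pure

variable (B : Blk V m) (kp : V → ℕ)

private def bse (v : V) : ℕ := ∑ t ∈ range (B.pos v), kp (B.nd v t)

private theorem bse_cls {v u : V} (h : B.cls v u) : bse B kp u = ∑ t ∈ range (B.pos u), kp (B.nd v t) := by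
  unfold bse
  apply Finset.sum_congr rfl
  intro t ht
  rw [B.nd_of_cls h ((Finset.mem_range.1 ht).trans (B.pos_lt u))]

private theorem bse_kp {v u : V} (h : B.cls v u) :
    bse B kp u + kp u = ∑ t ∈ range (B.pos u + 1), kp (B.nd v t) := by
  rw [bse_cls B kp h, Finset.sum_range_succ]
  congr 1
  have h1 : B.nd v (B.pos u) = u := h
  rw [h1]

private theorem bse_mono {v u : V} (h : B.cls v u) (hp : B.pos v < B.pos u) : bse B kp v + kp v ≤ bse B kp u := by
  rw [bse_kp B kp (B.cls_refl v), bse_cls B kp h]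
  apply Finset.sum_le_sum_of_subset
  intro t ht
  rw [Finset.mem_range] at ht ⊢
  omega

private theorem bse_tot {v u : V} (h : B.cls v u) : bse B kp u + kp u ≤ ∑ t ∈ range (2 ^ m), kp (B.nd v t) := by
  rw [bse_kp B kp h]
  apply Finset.sum_le_sum_of_subset
  intro t ht
  have := B.pos_lt u
  rw [Finset.mem_range] at ht ⊢
  omega

private def ixd (v : V) : ℕ := cnt B (fun z => decide (1 ≤ kp z)) v

private theorem ixd_bse {v u : V} (h : B.cls v u) (hp : B.pos v ≤ B.pos u) :
    bse B kp v + ixd B kp u ≤ bse B kp u + ixd B kp v := by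
  have h1 : ixd B kp u = ∑ t ∈ range (B.pos u), if (fun z => decide (1 ≤ kp z)) (B.nd v t) = true then 1 else 0 := by
    unfold ixd
    rw [cntD_cls B _ h, Finset.card_filter]
  have h2 : ixd B kp v = ∑ t ∈ range (B.pos v), if (fun z => decide (1 ≤ kp z)) (B.nd v t) = true then 1 else 0 := by
    unfold ixd cnt
    rw [Finset.card_filter]
  have h3 : bse B kp v = ∑ t ∈ range (B.pos v), kp (B.nd v t) := rfl
  rw [h1, h2, h3, bse_cls B kp h, ← Finset.sum_range_add_sum_Ico (fun t => kp (B.nd v t)) hp,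
    ← Finset.sum_range_add_sum_Ico (fun t => if (fun z => decide (1 ≤ kp z)) (B.nd v t) = true then 1 else 0) hp]
  have h4 : ∑ t ∈ Finset.Ico (B.pos v) (B.pos u), (if (fun z => decide (1 ≤ kp z)) (B.nd v t) = true then 1 else 0) ≤
      ∑ t ∈ Finset.Ico (B.pos v) (B.pos u), kp (B.nd v t) := by
    apply Finset.sum_le_sum
    intro t _
    simp only [decide_eq_true_eq]
    split_ifs <;> omega
  omega

variable {Y : Type}

/-- The items of the nodes with `kp ≥ 1`. -/
private def it0 (A : V → Y × Option R) (ix kp bs : V → ℕ) (v : V) : Option (Y × ℕ × ℕ × ℕ) × Option R :=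
  if 1 ≤ kp v then (some ((A v).1, ix v, bs v, kp v), (A v).2) else emp

/-- Local computation at the end. -/
private def fin (x : ℕ) (i : Option (Y × ℕ × ℕ × ℕ) × Option R) : Option (Y × ℕ) × Option R :=
  match i.1 with
  | none => emp
  | some l => if x < l.2.2.1 + l.2.2.2 then (some (l.1, l.2.2.1), i.2) else emp

private theorem fin_rec {x : ℕ} {i : Option (Y × ℕ × ℕ × ℕ) × Option R} {r : R} (hr : (fin x i).2 = some r) : i.2 = some r := by
  unfold fin at hr
  rcases h1 : i.1 with _ | l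
  · rw [h1] at hr
    simp [emp] at hr
  · rw [h1] at hr
    simp only at hr
    split_ifs at hr
    · exact hr
    · simp [emp] at hr

private theorem it0_pos {A : V → Y × Option R} {ix kp bs : V → ℕ} {v : V} (h : 1 ≤ kp v) :
    it0 A ix kp bs v = (some ((A v).1, ix v, bs v, kp v), (A v).2) := if_pos h

private theorem it0_some {A : V → Y × Option R} {ix kp bs : V → ℕ} {v : V} {x : Y × ℕ × ℕ × ℕ} (h : (it0 A ix kp bs v).1 = some x) :
    1 ≤ kp v ∧ x = ((A v).1, ix v, bs v, kp v) := by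
  unfold it0 at h
  split_ifs at h with h1
  · exact ⟨h1, (Option.some.inj h).symm⟩
  · simp [emp] at h

private theorem it0_isSome {A : V → Y × Option R} {ix kp bs : V → ℕ} {v : V} (h : (it0 A ix kp bs v).1.isSome = true) : 1 ≤ kp v := by
  obtain ⟨x, hx⟩ := Option.isSome_iff_exists.1 h
  exact (it0_some hx).1

/-- After `MoveSpec` an item comes from an item. -/
private theorem mv_cases {X : Type} {B : Blk V m} {tau : X → ℕ} {a b : V → Option X × Option R} (h : MoveSpec B tau a b) (v : V) :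
    b v = emp ∨ ∃ u x, B.cls v u ∧ (a u).1 = some x ∧ tau x = B.pos v ∧ b v = a u := by
  by_cases h1 : ∃ u x, B.cls v u ∧ (a u).1 = some x ∧ tau x = B.pos v
  · obtain ⟨u, x, h2, h3, h4⟩ := h1
    exact Or.inr ⟨u, x, h2, h3, h4, (h v).1 u x h2 h3 h4⟩
  · exact Or.inl ((h v).2 (fun u x h2 h3 h4 => h1 ⟨u, x, h2, h3, h4⟩))

private theorem scan_cases {X : Type} {B : Blk V m} {a b : V → Option X × Option R} (h : ScanSpec B a b) (v : V) :
    b v = emp ∨ ∃ u, B.cls v u ∧ (a u).1.isSome = true ∧ B.pos u ≤ B.pos v ∧ b v = a u := by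
  by_cases h1 : ∃ u, B.cls v u ∧ (a u).1.isSome = true ∧ B.pos u ≤ B.pos v
  · obtain ⟨u0, h2, h3, h4⟩ := h1
    have hne : ((range (B.pos v + 1)).filter (fun t => (a (B.nd v t)).1.isSome = true)).Nonempty := by
      refine ⟨B.pos u0, Finset.mem_filter.2 ⟨Finset.mem_range.2 (by omega), ?_⟩⟩
      have h5 : B.nd v (B.pos u0) = u0 := h2
      rw [h5]
      exact h3
    obtain ⟨t, ht, hmax⟩ := Finset.exists_max_image _ (fun t => t) hne
    rw [Finset.mem_filter, Finset.mem_range] at ht
    have hlt : t < 2 ^ m := by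
      have := B.pos_lt v
      omega
    refine Or.inr ⟨B.nd v t, B.cls_nd v hlt, ht.2, by rw [B.pos_nd v t hlt]; omega, ?_⟩
    refine (h v).1 _ (B.cls_nd v hlt) ht.2 (by rw [B.pos_nd v t hlt]; omega) (fun u' h5 h6 h7 => ?_)
    rw [B.pos_nd v t hlt]
    apply hmax
    rw [Finset.mem_filter, Finset.mem_range]
    refine ⟨by omega, ?_⟩
    have h8 : B.nd v (B.pos u') = u' := h5
    rw [h8]
    exact h6
  · refine Or.inl ((h v).2 (fun u h2 h3 => ?_))
    by_contra h4
    exact h1 ⟨u, h2, Option.isSome_iff_ne_none.2 h4, h3⟩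

/-- The array after `conc` and `spread`. -/
private theorem two_moves {A : V → Y × Option R}
    {b1 b2 : V → Option (Y × ℕ × ℕ × ℕ) × Option R}
    (h1 : MoveSpec B (fun x => x.2.1) (it0 A (ixd B kp) kp (bse B kp)) b1) (h2 : MoveSpec B (fun x => x.2.2.1) b1 b2) :
    (∀ v p, B.cls v p → 1 ≤ kp p → bse B kp p = B.pos v → b2 v = it0 A (ixd B kp) kp (bse B kp) p) ∧
      ∀ v, (b2 v).1.isSome = true → ∃ p, B.cls v p ∧ 1 ≤ kp p ∧ bse B kp p = B.pos v ∧ b2 v = it0 A (ixd B kp) kp (bse B kp) p := by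
  constructor
  · intro v p hc hk hb
    have hlt : ixd B kp p < 2 ^ m := (cntD_le B _ p).trans_lt (B.pos_lt p)
    have h3 : b1 (B.nd v (ixd B kp p)) = it0 A (ixd B kp) kp (bse B kp) p := by
      refine (h1 (B.nd v (ixd B kp p))).1 p ((A p).1, ixd B kp p, bse B kp p, kp p)
        (B.cls_trans (B.cls_symm (B.cls_nd v hlt)) hc) (by rw [it0_pos hk]) ?_
      show ixd B kp p = _
      rw [B.pos_nd v _ hlt]
    rw [← h3]
    refine (h2 v).1 _ ((A p).1, ixd B kp p, bse B kp p, kp p) (B.cls_nd v hlt) (by rw [h3, it0_pos hk]) hb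
  · intro v hv
    rcases mv_cases h2 v with h3 | ⟨u, x, h3, h4, h5, h6⟩
    · rw [h3] at hv
      simp [emp] at hv
    · rcases mv_cases h1 u with h7 | ⟨p, y, h7, h8, h9, h10⟩
      · rw [h7] at h4
        simp [emp] at h4
      · rw [h10] at h4 h6
        obtain ⟨h11, h12⟩ := it0_some h4
        refine ⟨p, B.cls_trans h3 h7, h11, ?_, h6⟩
        rw [h12] at h5
        exact h5

private theorem distr_pure {A : V → Y × Option R}
    {b1 b2 b3 : V → Option (Y × ℕ × ℕ × ℕ) × Option R}
    (h1 : MoveSpec B (fun x => x.2.1) (it0 A (ixd B kp) kp (bse B kp)) b1) (h2 : MoveSpec B (fun x => x.2.2.1) b1 b2)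
    (h3 : ScanSpec B b2 b3) (v : V) :
    (∀ u, B.cls v u → bse B kp u ≤ B.pos v → B.pos v < bse B kp u + kp u → fin (B.pos v) (b3 v) = (some ((A u).1, bse B kp u), (A u).2)) ∧
        (∑ t ∈ range (2 ^ m), kp (B.nd v t) ≤ B.pos v → fin (B.pos v) (b3 v) = emp) := by
  obtain ⟨g1, g2⟩ := two_moves B kp h1 h2
  constructor
  · intro u hu hb1 hb2
    have hk : 1 ≤ kp u := by omega
    have hlt : bse B kp u < 2 ^ m := hb1.trans_lt (B.pos_lt v)
    have h4 : b2 (B.nd v (bse B kp u)) = it0 A (ixd B kp) kp (bse B kp) u :=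
      g1 _ u (B.cls_trans (B.cls_symm (B.cls_nd v hlt)) hu) hk (B.pos_nd v _ hlt).symm
    have h5 : b3 v = it0 A (ixd B kp) kp (bse B kp) u := by
      rw [← h4]
      refine (h3 v).1 _ (B.cls_nd v hlt) (by rw [h4, it0_pos hk]; rfl) (by rw [B.pos_nd v _ hlt]; exact hb1) (fun u' c1 c2 c3 => ?_)
      obtain ⟨q, q1, q2, q3, _⟩ := g2 u' c2
      rw [B.pos_nd v _ hlt, ← q3]
      have hq : B.cls u q := B.cls_trans (B.cls_symm hu) (B.cls_trans c1 q1)
      rcases lt_trichotomy (B.pos q) (B.pos u) with h6 | h6 | h6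
      · exact (Nat.le_add_right _ _).trans (bse_mono B kp (B.cls_symm hq) h6)
      · rw [B.eq_of_cls hq h6.symm]
      · have h7 := bse_mono B kp hq h6
        omega
    rw [h5, it0_pos hk]
    exact if_pos hb2
  · intro htot
    rcases scan_cases h3 v with h4 | ⟨u', c1, c2, _, c4⟩
    · rw [h4]
      rfl
    · obtain ⟨q, q1, q2, q3, q4⟩ := g2 u' c2
      rw [c4, q4, it0_pos q2]
      have h5 := bse_tot B kp (B.cls_trans c1 q1)
      refine if_neg ?_
      show ¬ B.pos v < bse B kp q + kp q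
      omega

end pure

private theorem sz_sm {n : ℕ} {I X : Type} {f : I → Ω → X} {b : I → Ω → Option X × Option R} (h : Sz n f)
    (hb : ∀ i w x, (b i w).1 = some x → x = f i w) : Sm n b := by
  obtain ⟨S, h1, h2⟩ := h
  refine ⟨S, h1, fun i w x hx => ?_⟩
  rw [hb i w x hx]
  exact h2 i w

theorem distr {M : Mach V Ω R} {Lam k n r0 W S : ℕ} {B : Blk V m} (hL : Lines M Lam B k n r0) (hW : 2 ^ m < W) (hS : 1 ≤ S)
    (hl : S * W ^ 4 ≤ Lam) {Y : Type} (P : M.Pl) (A : V → Ω → Y × Option R) (hs : Sz S (fun v w => (A v w).1))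
    (ha : ∀ v, M.Has P v (A v)) (kp bs : V → Ω → ℕ) (hk : ∀ v, M.Knows P v (kp v)) (hb : ∀ v, M.Knows P v (bs v))
    (hbs : ∀ v w, bs v w = ∑ t ∈ range (B.pos v), kp (B.nd v t) w) (hsum : ∀ v w, ∑ t ∈ range (2 ^ m), kp (B.nd v t) w ≤ 2 ^ m) :
    M.Do (5 * n * r0) P (fun P' => ∃ b : V → Ω → Option (Y × ℕ) × Option R, (∀ v, M.Has P' v (b v)) ∧
      ∀ w v, (∀ u, B.cls v u → bs u w ≤ B.pos v → B.pos v < bs u w + kp u w → b v w = (some ((A u w).1, bs u w), (A u w).2)) ∧
        (∑ t ∈ range (2 ^ m), kp (B.nd v t) w ≤ B.pos v → b v w = emp)) := by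
  have hW1 : 1 ≤ 2 ^ m := Nat.one_le_two_pow
  have hbs' : ∀ w, (fun v => bs v w) = bse B (fun v => kp v w) := fun w => funext (fun v => hbs v w)
  have hl2 : W ^ 2 ≤ Lam := by
    refine le_trans ?_ hl
    have h1 : W ^ 2 ≤ W ^ 4 := Nat.pow_le_pow_right (by omega) (by norm_num)
    exact h1.trans (Nat.le_mul_of_pos_left _ hS)
  have hl3 : S * (W * (W * W)) + 1 ≤ Lam := by
    refine le_trans ?_ hl
    have hWp : 0 < W := by omega
    have h1 : 1 ≤ S * (W * (W * W)) := Nat.mul_pos hS (Nat.mul_pos hWp (Nat.mul_pos hWp hWp))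
    have h2 : S * (W * (W * W)) * 2 ≤ S * (W * (W * W)) * W := Nat.mul_le_mul_left _ (by omega)
    have h3 : S * W ^ 4 = S * (W * (W * W)) * W := by ring
    omega
  -- the index
  have hcost : 5 * n * r0 = n * r0 + (n * r0 + (n * r0 + 2 * n * r0)) := by ring
  rw [hcost]
  refine (count hL hW hl2 P (fun v w => decide (1 ≤ kp v w)) (fun v => (hk v).comp (fun x => decide (1 ≤ x)))).bind (fun P1 e1 hix => ?_)
  have hix' : ∀ v, M.Knows P1 v (fun w => ixd B (fun z => kp z w) v) := hix
  have hltx : ∀ v w, ixd B (fun z => kp z w) v < 2 ^ m := fun v w => (cntD_le B _ v).trans_lt (B.pos_lt v)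
  have hbk : ∀ v w, bs v w + kp v w ≤ 2 ^ m := by
    intro v w
    have h1 := (bse_tot B (fun z => kp z w) (B.cls_refl v)).trans (hsum v w)
    have h2 := congrFun (hbs' w) v
    rw [← h2] at h1
    exact h1
  -- the first array
  have hsz : Sz (S * (W * (W * W))) (fun v w => ((A v w).1, ixd B (fun z => kp z w) v, bs v w, kp v w)) := by
    refine hs.prod (Sz.prod (Sz.nat (n := W) (f := fun v w => ixd B (fun z => kp z w) v) (fun v w => (hltx v w).trans hW))
      (Sz.prod (Sz.nat (n := W) (f := bs) (fun v w => ?_)) (Sz.nat (n := W) (f := kp) (fun v w => ?_))))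
    · have := hbk v w
      omega
    · have := hbk v w
      omega
  have hsm0 : Sm (S * (W * (W * W))) (fun v w => it0 (fun v => A v w) (ixd B (fun z => kp z w)) (fun z => kp z w) (fun z => bs z w) v) :=
    sz_sm hsz (fun v w x hx => (it0_some hx).2)
  have hhas0 : ∀ v, M.Has P1 v (fun w => it0 (fun v => A v w) (ixd B (fun z => kp z w)) (fun z => kp z w) (fun z => bs z w) v) := by
    intro v
    refine ((ha v).mono e1).of (fun w w' hs' => ?_) (fun w r hr => ?_)
    · show (if 1 ≤ kp v w then (some ((A v w).1, ixd B (fun z => kp z w) v, bs v w, kp v w), (A v w).2) else emp) =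
        (if 1 ≤ kp v w' then (some ((A v w').1, ixd B (fun z => kp z w') v, bs v w', kp v w'), (A v w').2) else emp)
      rw [(ha v).1 w w' (M.ext_sim _ _ _ _ _ e1 hs'), hk v w w' (M.ext_sim _ _ _ _ _ e1 hs'), hb v w w' (M.ext_sim _ _ _ _ _ e1 hs')]
      have h1 : ixd B (fun z => kp z w) v = ixd B (fun z => kp z w') v := hix' v w w' hs'
      rw [h1]
    · unfold it0 at hr
      split_ifs at hr
      · exact hr
      · simp [emp] at hr
  refine (conc hL hl3 P1 _ hsm0 hhas0 (fun x => x.2.1) ?_ ?_).bind (fun P2 e2 => ?_)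
  · intro w v x hx
    rw [(it0_some hx).2]
    exact hltx v w
  · intro w v u x x' hc hx hx' hp
    have h1 := it0_some hx
    have h2 := it0_some hx'
    rw [h1.2, h2.2]
    show ixd B (fun z => kp z w) v < ixd B (fun z => kp z w) u ∧
      ixd B (fun z => kp z w) u + B.pos v ≤ ixd B (fun z => kp z w) v + B.pos u
    exact ⟨cntD_lt B (fun z => decide (1 ≤ kp z w)) hc (decide_eq_true h1.1) hp, cntD_diff B (fun z => decide (1 ≤ kp z w)) hc hp⟩
  rintro ⟨b1, hb1, hm1⟩
  have hsm1 : Sm (S * (W * (W * W))) b1 := by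
    refine hsm0.of_range (fun v w => ?_)
    rcases mv_cases (hm1 w) v with h1 | ⟨u, _, _, _, _, h5⟩
    · exact Or.inl (by rw [h1]; rfl)
    · exact Or.inr ⟨u, w, h5⟩
  -- an item of `b1`
  have hb1s : ∀ w v x, (b1 v w).1 = some x → ∃ p, B.cls v p ∧ 1 ≤ kp p w ∧ x = ((A p w).1, ixd B (fun z => kp z w) p, bs p w, kp p w) ∧
      ixd B (fun z => kp z w) p = B.pos v := by
    intro w v x hx
    rcases mv_cases (hm1 w) v with h1 | ⟨u, y, h1, h2, h3, h5⟩
    · rw [h1] at hx
      simp [emp] at hx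
    · rw [h5] at hx
      have h6 := it0_some hx
      have h7 := it0_some h2
      refine ⟨u, h1, h6.1, h6.2, ?_⟩
      rw [h7.2] at h3
      exact h3
  refine (spread hL hl3 P2 b1 hsm1 hb1 (fun x => x.2.2.1) ?_ ?_).bind (fun P3 e3 => ?_)
  · intro w v x hx
    obtain ⟨p, _, h2, h3, _⟩ := hb1s w v x hx
    rw [h3]
    have := hbk p w
    show bs p w < 2 ^ m
    omega
  · intro w v u x x' hc hx hx' hp
    obtain ⟨p, p1, p2, p3, p4⟩ := hb1s w v x hx
    obtain ⟨q, q1, q2, q3, q4⟩ := hb1s w u x' hx'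
    have hpq : B.cls p q := B.cls_trans (B.cls_symm p1) (B.cls_trans hc q1)
    have hlt : B.pos p ≤ B.pos q := by
      by_contra hcon
      have h1 := cntD_lt B (fun z => decide (1 ≤ kp z w)) (B.cls_symm hpq) (decide_eq_true q2) (not_le.1 hcon)
      have h2 : ixd B (fun z => kp z w) q < ixd B (fun z => kp z w) p := h1
      omega
    have h3 := ixd_bse B (fun z => kp z w) hpq hlt
    rw [← hbs' w, p4, q4] at h3
    rw [p3, q3]
    show bs p w + B.pos u ≤ bs q w + B.pos v
    exact h3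
  rintro ⟨b2, hb2, hm2⟩
  have hsm2 : Sm (S * (W * (W * W))) b2 := by
    refine hsm1.of_range (fun v w => ?_)
    rcases mv_cases (hm2 w) v with h1 | ⟨u, _, _, _, _, h5⟩
    · exact Or.inl (by rw [h1]; rfl)
    · exact Or.inr ⟨u, w, h5⟩
  refine (scan hL hl3 P3 b2 hsm2 hb2).mono le_rfl (fun P4 e4 => ?_)
  rintro ⟨b3, hb3, hm3⟩
  refine ⟨fun v w => fin (B.pos v) (b3 v w), fun v => ?_, fun w v => ?_⟩
  · exact (hb3 v).of ((hb3 v).1.comp (fin (B.pos v))) (fun w r hr => fin_rec hr)
  · have h1 := hm1 w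
    rw [hbs' w] at h1
    have h2 := distr_pure B (fun z => kp z w) (A := fun v => A v w) h1 (hm2 w) (hm3 w) v
    rw [← hbs' w] at h2
    exact h2

end Pool.Agent.H31.HS
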