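import Mathlib
import Pool.Agent.H31.HS.RBas

/-!
# Flood: a trivial plan (used for small dimensions)

In `d * 2^d` steps every processor learns all records and all comparisons.
-/

set_option autoImplicit false

namespace Pool.Agent.H31.HS

variable {d : ℕ} {L : Type}

/-- The record `s` is sent in the direction `i` by all processors which agree with `s` from the coordinate `i` on. -/
def fstep (i : Fin d) (l0 : L) (s : Node d) : Step d L := by
  classical
  exact fun v j _ => if j = i ∧ ∀ t, i ≤ t → s t = v t then some (s, l0) else none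

/-- All records which agree with `v` from the coordinate `n` on are held. -/
def HoldsFrom (n : ℕ) (P : Plan d L) : Prop := ∀ (v : Node d) (ρ : Inp d) (r : Node d), (∀ t : Fin d, n ≤ t.val → r t = v t) → r ∈ held P v ρ

theorem fstep_valid (i : Fin d) (l0 : L) (l : List (Node d)) (P : Plan d L) (hP : Valid P) (hH : HoldsFrom i.val P) :
    Valid (l.map (fstep i l0) ++ P) := by
  classical
  induction l with
  | nil => exact hP
  | cons s l ih =>
    refine ⟨ih, ?_, ?_⟩
    · intro v j ρ r lab h
      unfold fstep at h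
      by_cases hc : j = i ∧ ∀ t, i ≤ t → s t = v t
      · rw [if_pos hc] at h
        have h1 := Option.some.inj h
        rw [Prod.mk.injEq] at h1
        rw [← h1.1]
        exact held_append _ _ _ _ (hH v ρ s (fun t ht => hc.2 t ht))
      · rw [if_neg hc] at h
        exact absurd h (by simp)
    · intro v j ρ ρ' _
      rfl

theorem fstep_held (i : Fin d) (l0 : L) (l : List (Node d)) (P : Plan d L) (r : Node d) (hr : r ∈ l) (v : Node d) (ρ : Inp d)
    (h : ∀ t, i ≤ t → r t = flp i v t) : r ∈ held (l.map (fstep i l0) ++ P) v ρ := by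
  classical
  induction l with
  | nil => exact absurd hr (by simp)
  | cons s l ih =>
    rcases List.mem_cons.1 hr with rfl | hr'
    · right
      refine ⟨i, l0, ?_⟩
      unfold fstep
      rw [if_pos ⟨rfl, h⟩]
    · left
      exact ih hr'

theorem flood_aux (l0 : L) (n : ℕ) (hn : n ≤ d) :
    ∃ P : Plan d L, Valid P ∧ HoldsFrom n P ∧ P.length ≤ n * 2 ^ d := by
  classical
  induction n with
  | zero =>
    refine ⟨[], trivial, ?_, by simp⟩
    intro v ρ r h
    show r ∈ ({v} : Set (Node d))
    have : r = v := funext fun t => h t (Nat.zero_le _)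
    exact this
  | succ n ih =>
    obtain ⟨P, hV, hH, hlen⟩ := ih (by omega)
    obtain ⟨i, hi⟩ : ∃ i : Fin d, i.val = n := ⟨⟨n, by omega⟩, rfl⟩
    have hH' : HoldsFrom i.val P := by rw [hi]; exact hH
    refine ⟨(Finset.univ : Finset (Node d)).toList.map (fstep i l0) ++ P, fstep_valid i l0 _ P hV hH', ?_, ?_⟩
    · intro v ρ r h
      by_cases hr : r i = v i
      · refine held_append _ _ _ _ (hH v ρ r fun t ht => ?_)
        rcases Nat.lt_or_ge n t.val with h1 | h1
        · exact h t h1
        · have h2 : t = i := Fin.ext (by omega)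
          rw [h2]
          exact hr
      · refine fstep_held i l0 _ P r (by simp) v ρ fun t ht => ?_
        by_cases hti : t = i
        · rw [hti]
          unfold flp
          rw [Function.update_self]
          cases h1 : r i <;> cases h2 : v i <;> simp_all
        · unfold flp
          rw [Function.update_of_ne hti]
          refine h t ?_
          have h3 : i.val ≤ t.val := ht
          have h4 : t.val ≠ i.val := fun h => hti (Fin.ext h)
          omega
    · rw [List.length_append, List.length_map, Finset.length_toList, Finset.card_univ]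
      have h1 : Fintype.card (Node d) = 2 ^ d := by simp
      rw [h1]
      have h2 : (n + 1) * 2 ^ d = n * 2 ^ d + 2 ^ d := by ring
      omega

theorem nodeNum_lt' (v : Node d) : nodeNum v < 2 ^ d := by
  unfold nodeNum
  have h1 : ∑ i : Fin d, (if v i = true then 2 ^ (i : ℕ) else 0) ≤ ∑ i : Fin d, 2 ^ (i : ℕ) :=
    Finset.sum_le_sum fun i _ => by split_ifs <;> simp
  have h2 : ∑ i : Fin d, 2 ^ (i : ℕ) = 2 ^ d - 1 := by
    rw [Fin.sum_univ_eq_sum_range (fun i => 2 ^ i)]
    have h4 := Nat.geomSum_eq (le_refl 2) d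
    simpa using h4
  have h3 : 0 < 2 ^ d := by positivity
  omega

/-- Two inputs with the same comparisons are equal. -/
theorem inp_eq (ρ ρ' : Inp d) (h : ∀ a b, ρ a < ρ b ↔ ρ' a < ρ' b) : ρ = ρ' := by
  have h1 : StrictMono (fun x => ρ' (ρ.symm x)) := by
    intro x y hxy
    rw [← h]
    simpa using hxy
  have h2 : StrictMono (fun x => ρ (ρ'.symm x)) := by
    intro x y hxy
    rw [h]
    simpa using hxy
  have h3 : ∀ x : Fin (2 ^ d), x ≤ ρ' (ρ.symm x) := fun x => h1.le_apply
  have h4 : ∀ x : Fin (2 ^ d), x ≤ ρ (ρ'.symm x) := fun x => h2.le_apply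
  ext a
  have h5 := h3 (ρ a)
  have h6 := h4 (ρ' a)
  rw [Equiv.symm_apply_apply] at h5 h6
  exact congrArg Fin.val (le_antisymm h5 h6)

/-- The trivial plan. -/
theorem flood (d : ℕ) (L : Type) (l0 : L) : ∃ P : Plan d L, Valid P ∧ Sorts P ∧ P.length ≤ d * 2 ^ d := by
  obtain ⟨P, hV, hH, hlen⟩ := flood_aux (d := d) (L := L) l0 d le_rfl
  refine ⟨P, hV, ⟨fun v ρ => ρ.symm ⟨nodeNum v, nodeNum_lt' v⟩, fun v => ⟨fun ρ => ?_, fun ρ ρ' hs => ?_, fun ρ => ?_⟩⟩, hlen⟩
  · exact hH v ρ _ fun t ht => absurd t.isLt (by omega)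
  · have hall : ∀ r, r ∈ held P v ρ := fun r => hH v ρ r fun t ht => absurd t.isLt (by omega)
    have h1 : ρ = ρ' := inp_eq ρ ρ' fun a b => sim_cmp P v ρ ρ' a b hs (hall a) (hall b)
    rw [h1]
  · rw [Equiv.apply_symm_apply]

end Pool.Agent.H31.HS
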