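import Mathlib
import Pool.Agent.H31.HS.WDef

/-!
# GDef: sorted arrays with groups (definitions for one stage)

`Gsorted PL tt κ A`: the occupied places are the first ones of every class, keys `κ` increase with the number, and the groups `tt` are nondecreasing.
`gam PL tt A v`: number of places before `v` with an item of the same group (`0` for empty `v`).
-/

set_option autoImplicit false

namespace Pool.Agent.H31.HS

variable {V X R : Type} {m : ℕ}

def Gsorted (PL : Blk V m) (tt κ : X → ℕ) (A : V → Option X × Option R) : Prop :=
  (∀ v, (A v).1 = none → A v = emp) ∧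
  ∀ v u y, PL.cls v u → PL.pos v < PL.pos u → (A u).1 = some y → ∃ x, (A v).1 = some x ∧ κ x < κ y ∧ tt x ≤ tt y

noncomputable def gam (PL : Blk V m) (tt : X → ℕ) (A : V → Option X × Option R) (v : V) : ℕ := by
  classical
  exact ((Finset.range (PL.pos v)).filter (fun t => ∃ x y, (A v).1 = some x ∧ (A (PL.nd v t)).1 = some y ∧ tt y = tt x)).card

/-- Labels with the number in the group. -/
noncomputable def addG (PL : Blk V m) (tt : X → ℕ) (cap : ℕ) (A : V → Option X × Option R) (v : V) : Option (X × ℕ) × Option R :=
  match (A v).1 with
  | none => emp
  | some x => if gam PL tt A v < cap then (some (x, gam PL tt A v), (A v).2) else emp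

end Pool.Agent.H31.HS
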