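import Mathlib
import Pool.Agent.H31.HS.Srt
import Pool.Agent.H31.HS.GDef

/-!
# GCard: counting items before and after sorting

`sort_card`: `SortSpec B key a b` and `Dist B key a`: the map which sends an occupied place of `b` to the place of `a` with the same item is a bijection of the occupied places of the class
(injective since `b` is strictly increasing in the key; surjective by `SortSpec`; well defined by `Dist`), so the numbers of places whose item has a property `p` (false for `emp`) are equal.
`gam_rk`: in a `Gsorted` array the items of the class with the same group and smaller key are exactly the items before `v` with the same group.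
`rk_sort`: `rkT` of the same item before and after sorting (`sort_card` with `p y := ∃ x', y.1 = some x' ∧ tt x' = tt x ∧ κ x' < κ x`).
`gsorted_of`: a sorted array is `Gsorted` if `κ` is `tt`-major on the items (the items of `A1` are items of `A`).
-/

set_option autoImplicit false

namespace Pool.Agent.H31.HS

variable {V X R : Type} {m : ℕ}

private theorem gc_kv {key : X × Option R → ℕ} {x : Option X × Option R} {l : X}
    (hx : x.1 = some l) : kv key x = ((key (l, x.2) : ℕ) : WithTop ℕ) := by
  unfold kv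
  rw [hx]

private theorem gc_inj {B : Blk V m} {key : X × Option R → ℕ} {b : V → Option X × Option R}
    (hr : RunSorted B key m b) {v u : V} (hc : B.cls v u) (hv : (b v).1.isSome)
    (hu : (b u).1.isSome) (he : kv key (b v) = kv key (b u)) : v = u := by
  have hd : ∀ z : V, B.pos z / 2 ^ m = 0 := fun z => Nat.div_eq_of_lt (B.pos_lt z)
  rcases Nat.lt_trichotomy (B.pos v) (B.pos u) with h | h | h
  · exact absurd he (hr v u hc (by rw [hd, hd]) h hu).ne
  · exact B.eq_of_cls hc h
  · exact absurd he (hr u v (B.cls_symm hc) (by rw [hd, hd]) h hv).ne'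

open Classical in
theorem sort_card {B : Blk V m} {key : X × Option R → ℕ} {a b : V → Option X × Option R} (hd : Dist B key a) (hs : SortSpec B key a b)
    (p : Option X × Option R → Prop) (hp : ∀ x, p x → x.1.isSome) (v u : V) (hc : B.cls v u) :
    ((Finset.range (2 ^ m)).filter (fun t => p (a (B.nd v t)))).card = ((Finset.range (2 ^ m)).filter (fun t => p (b (B.nd u t)))).card := by
  obtain ⟨h1, h2, h3, h4⟩ := hs
  refine le_antisymm ?_ ?_
  · -- every place of `a` goes to a place of `b`
    have hex : ∀ t, ∃ s, t ∈ (Finset.range (2 ^ m)).filter (fun t => p (a (B.nd v t))) →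
        s < 2 ^ m ∧ b (B.nd u s) = a (B.nd v t) := by
      intro t
      by_cases ht : t ∈ (Finset.range (2 ^ m)).filter (fun t => p (a (B.nd v t)))
      · have ht' := Finset.mem_filter.1 ht
        have htm := Finset.mem_range.1 ht'.1
        obtain ⟨w, hw1, hw2⟩ := h2 (B.nd v t) (hp _ ht'.2)
        have hcw : B.cls u w := B.cls_trans (B.cls_trans (B.cls_symm hc) (B.cls_nd v htm)) hw1
        refine ⟨B.pos w, fun _ => ⟨B.pos_lt w, ?_⟩⟩
        have h5 : B.nd u (B.pos w) = w := hcw
        rw [h5, hw2]
      · exact ⟨0, fun h => absurd h ht⟩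
    choose F hF using hex
    refine Finset.card_le_card_of_injOn F ?_ ?_
    · intro t ht
      have h5 := hF t (Finset.mem_coe.1 ht)
      have h6 := Finset.mem_filter.1 (Finset.mem_coe.1 ht)
      refine Finset.mem_coe.2 (Finset.mem_filter.2 ⟨Finset.mem_range.2 h5.1, ?_⟩)
      rw [h5.2]
      exact h6.2
    · intro t ht s hs hts
      have h5 := hF t (Finset.mem_coe.1 ht)
      have h6 := hF s (Finset.mem_coe.1 hs)
      have h7 := Finset.mem_filter.1 (Finset.mem_coe.1 ht)
      have h8 := Finset.mem_filter.1 (Finset.mem_coe.1 hs)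
      have e1 : a (B.nd v t) = a (B.nd v s) := by rw [← h5.2, ← h6.2, hts]
      have htm := Finset.mem_range.1 h7.1
      have hsm := Finset.mem_range.1 h8.1
      have h9 := hd (B.nd v t) (B.nd v s) (B.cls_trans (B.cls_symm (B.cls_nd v htm)) (B.cls_nd v hsm))
        (hp _ h7.2) (hp _ h8.2) (by rw [e1])
      rw [← B.pos_nd v t htm, h9, B.pos_nd v s hsm]
  · have hex : ∀ t, ∃ s, t ∈ (Finset.range (2 ^ m)).filter (fun t => p (b (B.nd u t))) →
        s < 2 ^ m ∧ a (B.nd v s) = b (B.nd u t) := by
      intro t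
      by_cases ht : t ∈ (Finset.range (2 ^ m)).filter (fun t => p (b (B.nd u t)))
      · have ht' := Finset.mem_filter.1 ht
        have htm := Finset.mem_range.1 ht'.1
        obtain ⟨w, hw1, hw2⟩ := h1 (B.nd u t) (hp _ ht'.2)
        have hcw : B.cls v w := B.cls_trans (B.cls_trans hc (B.cls_nd u htm)) hw1
        refine ⟨B.pos w, fun _ => ⟨B.pos_lt w, ?_⟩⟩
        have h5 : B.nd v (B.pos w) = w := hcw
        rw [h5, hw2]
      · exact ⟨0, fun h => absurd h ht⟩
    choose F hF using hex
    refine Finset.card_le_card_of_injOn F ?_ ?_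
    · intro t ht
      have h5 := hF t (Finset.mem_coe.1 ht)
      have h6 := Finset.mem_filter.1 (Finset.mem_coe.1 ht)
      refine Finset.mem_coe.2 (Finset.mem_filter.2 ⟨Finset.mem_range.2 h5.1, ?_⟩)
      rw [h5.2]
      exact h6.2
    · intro t ht s hs hts
      have h5 := hF t (Finset.mem_coe.1 ht)
      have h6 := hF s (Finset.mem_coe.1 hs)
      have h7 := Finset.mem_filter.1 (Finset.mem_coe.1 ht)
      have h8 := Finset.mem_filter.1 (Finset.mem_coe.1 hs)
      have e1 : b (B.nd u t) = b (B.nd u s) := by rw [← h5.2, ← h6.2, hts]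
      have htm := Finset.mem_range.1 h7.1
      have hsm := Finset.mem_range.1 h8.1
      have h9 := gc_inj h4 (B.cls_trans (B.cls_symm (B.cls_nd u htm)) (B.cls_nd u hsm))
        (hp _ h7.2) (hp _ h8.2) (by rw [e1])
      rw [← B.pos_nd u t htm, h9, B.pos_nd u s hsm]

theorem gam_rk {PL : Blk V m} {tt κ : X → ℕ} {A : V → Option X × Option R} (h : Gsorted PL tt κ A) (v : V) (x : X) (hx : (A v).1 = some x) :
    rkT PL tt κ A v x = gam PL tt A v := by
  classical
  unfold rkT gam
  congr 1
  ext t
  rw [Finset.mem_filter, Finset.mem_filter, Finset.mem_range, Finset.mem_range]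
  constructor
  · rintro ⟨h1, x', h2, h3, h4⟩
    have hc := PL.cls_nd v h1
    have hlt : t < PL.pos v := by
      by_contra hcon
      rcases Nat.lt_or_eq_of_le (not_lt.1 hcon) with h5 | h5
      · have h6 : PL.pos v < PL.pos (PL.nd v t) := by
          rw [PL.pos_nd v t h1]
          exact h5
        obtain ⟨y, h7, h8, -⟩ := h.2 v (PL.nd v t) x' hc h6 h2
        rw [hx] at h7
        rw [← Option.some.inj h7] at h8
        omega
      · rw [← h5, PL.nd_pos, hx] at h2
        rw [← Option.some.inj h2] at h4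
        exact lt_irrefl _ h4
    exact ⟨hlt, x, x', hx, h2, h3⟩
  · rintro ⟨h1, x1, y, h2, h3, h4⟩
    have h1m : t < 2 ^ m := h1.trans (PL.pos_lt v)
    rw [hx] at h2
    rw [← Option.some.inj h2] at h4
    refine ⟨h1m, y, h3, h4, ?_⟩
    have h6 : PL.pos (PL.nd v t) < PL.pos v := by
      rw [PL.pos_nd v t h1m]
      exact h1
    obtain ⟨z, h7, h8, -⟩ := h.2 (PL.nd v t) v x (PL.cls_symm (PL.cls_nd v h1m)) h6 hx
    rw [h3] at h7
    rw [← Option.some.inj h7] at h8
    exact h8

theorem rk_sort {PL : Blk V m} {tt κ : X → ℕ} {A A1 : V → Option X × Option R} (hd : Dist PL (fun x => κ x.1) A)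
    (hs : SortSpec PL (fun x => κ x.1) A A1) (v u : V) (hc : PL.cls v u) (x : X) :
    rkT PL tt κ A v x = rkT PL tt κ A1 u x := by
  classical
  have h0 := sort_card hd hs (fun y => ∃ x', y.1 = some x' ∧ tt x' = tt x ∧ κ x' < κ x)
    (fun y hy => by
      obtain ⟨x', h1, -⟩ := hy
      rw [h1]
      rfl) v u hc
  unfold rkT
  refine Eq.trans ?_ (h0.trans ?_)
  · congr
  · congr

theorem gsorted_of {PL : Blk V m} {tt κ : X → ℕ} {A A1 : V → Option X × Option R}
    (hmon : ∀ v u x y, PL.cls v u → (A v).1 = some x → (A u).1 = some y → tt x < tt y → κ x < κ y)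
    (hs : SortSpec PL (fun x => κ x.1) A A1) : Gsorted PL tt κ A1 := by
  obtain ⟨h1, h2, h3, h4⟩ := hs
  refine ⟨h3, ?_⟩
  intro v u y hc hlt hy
  have hd : ∀ z : V, PL.pos z / 2 ^ m = 0 := fun z => Nat.div_eq_of_lt (PL.pos_lt z)
  have hus : (A1 u).1.isSome := by
    rw [hy]
    rfl
  have h5 := h4 v u hc (by rw [hd, hd]) hlt hus
  rw [gc_kv (x := A1 u) hy] at h5
  rcases hx : (A1 v).1 with _ | x
  · exfalso
    have h6 : kv (fun x : X × Option R => κ x.1) (A1 v) = ⊤ := by
      unfold kv
      rw [hx]
    rw [h6] at h5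
    exact not_top_lt h5
  · rw [gc_kv (x := A1 v) hx] at h5
    have h6 : κ x < κ y := by exact_mod_cast h5
    refine ⟨x, rfl, h6, ?_⟩
    by_contra hcon
    rw [not_le] at hcon
    have hvs : (A1 v).1.isSome := by
      rw [hx]
      rfl
    obtain ⟨v', hv1, hv2⟩ := h1 v hvs
    obtain ⟨u', hu1, hu2⟩ := h1 u hus
    rw [hv2] at hx
    rw [hu2] at hy
    have h7 := hmon u' v' y x (PL.cls_trans (PL.cls_symm hu1) (PL.cls_trans (PL.cls_symm hc) hv1))
      hy hx hcon
    omega

end Pool.Agent.H31.HS
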