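import Mathlib
import Pool.Agent.H31.HS.GDef
import Pool.Agent.H31.HS.Scan
import Pool.Agent.H31.HS.Shift

/-!
# GGam: the number in the group, `4 n` rounds

`shift` with `c = 2^m - 1`: every `v` with `pos v > 0` gets the item of its predecessor (`(pos v + 2^m - 1) % 2^m = pos v - 1`).  A place `v` is a start if it is occupied and (`pos v = 0` or the
group of the predecessor is different); this is known to `v`.  `scan` for the array with label `pos v` (a number) at the starts and `emp` elsewhere gives `R0 v` = number of the last start at or before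
`v`.  In a sorted array with nondecreasing groups the places with the group of `v` before `v` are exactly those with number in `[R0 v, pos v)`: so `gam v = pos v - R0 v` for occupied `v`
(and `0` for empty `v`), which is known to `v`.  Sizes: shift: labels of `A` (with `none`): `S + 1`; scan: `W` labels.
-/

set_option autoImplicit false

namespace Pool.Agent.H31.HS

variable {V Ω R : Type} {m : ℕ}

/-- the predecessor in the class -/
private def prd (PL : Blk V m) (v : V) : V := PL.nd v ((PL.pos v + (2 ^ m - 1)) % 2 ^ m)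

private theorem prd_pos {PL : Blk V m} {v : V} (h : 0 < PL.pos v) :
    prd PL v = PL.nd v (PL.pos v - 1) := by
  unfold prd
  have h1 := PL.pos_lt v
  have h2 : PL.pos v + (2 ^ m - 1) = (PL.pos v - 1) + 2 ^ m := by omega
  rw [h2, Nat.add_mod_right, Nat.mod_eq_of_lt (by omega)]

/-- the label of a start -/
private noncomputable def stf {X : Type} (tt : X → ℕ) (p : ℕ) (x y : Option X) : Option ℕ := by
  classical
  exact if ∃ z, x = some z ∧ (p = 0 ∨ ∀ z', y = some z' → tt z' ≠ tt z) then some p else none

private theorem gam_eq {X : Type} (PL : Blk V m) (tt κ : X → ℕ) (a : V → Option X × Option R)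
    (ha : Gsorted PL tt κ a) (b : V → Option ℕ × Option R)
    (hb : ScanSpec PL (fun v => (stf tt (PL.pos v) (a v).1 (a (prd PL v)).1, (none : Option R))) b)
    (v : V) : gam PL tt a v = if (a v).1.isSome then PL.pos v - ((b v).1).getD 0 else 0 := by
  classical
  rcases hav : (a v).1 with _ | x
  · unfold gam
    rw [Option.isSome_none, if_neg (by simp), Finset.card_eq_zero, Finset.filter_eq_empty_iff]
    rintro t _ ⟨x, y, h1, _⟩
    rw [hav] at h1
    exact absurd h1 (by simp)
  · rw [Option.isSome_some, if_pos rfl]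
    -- the places of the group
    have hlt : ∀ t, t ≤ PL.pos v → t < 2 ^ m := fun t ht => ht.trans_lt (PL.pos_lt v)
    have hex : ∃ t, t ≤ PL.pos v ∧ ∃ y, (a (PL.nd v t)).1 = some y ∧ tt y = tt x :=
      ⟨PL.pos v, le_rfl, x, by rw [PL.nd_pos]; exact hav, rfl⟩
    obtain ⟨r, hr⟩ : ∃ r, r = Nat.find hex := ⟨_, rfl⟩
    have hr1 := Nat.find_spec hex
    rw [← hr] at hr1
    obtain ⟨hrv, yr, hyr, htr⟩ := hr1
    have hmin : ∀ t, t < r → ∀ y, (a (PL.nd v t)).1 = some y → tt y ≠ tt x := by
      intro t ht y h1 h2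
      rw [hr] at ht
      exact Nat.find_min hex ht ⟨(ht.trans_le (hr ▸ hrv)).le, y, h1, h2⟩
    have hall : ∀ t, r ≤ t → t ≤ PL.pos v → ∃ y, (a (PL.nd v t)).1 = some y ∧ tt y = tt x := by
      intro t h1 h2
      -- `t` is occupied
      have h3 : ∃ y, (a (PL.nd v t)).1 = some y ∧ tt y ≤ tt x := by
        rcases h2.eq_or_lt with h4 | h4
        · rw [h4, PL.nd_pos]
          exact ⟨x, hav, le_rfl⟩
        · obtain ⟨y, h5, _, h6⟩ := ha.2 (PL.nd v t) v x (PL.cls_symm (PL.cls_nd v (hlt t h2)))
            (by rw [PL.pos_nd v t (hlt t h2)]; exact h4) hav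
          exact ⟨y, h5, h6⟩
      obtain ⟨y, h4, h5⟩ := h3
      refine ⟨y, h4, le_antisymm h5 ?_⟩
      rcases h1.eq_or_lt with h6 | h6
      · subst h6
        rw [hyr] at h4
        rw [← Option.some.inj h4, htr]
      · obtain ⟨y', h7, _, h8⟩ := ha.2 (PL.nd v r) (PL.nd v t) y
          (PL.cls_trans (PL.cls_symm (PL.cls_nd v (hlt r hrv))) (PL.cls_nd v (hlt t h2)))
          (by rw [PL.pos_nd v t (hlt t h2), PL.pos_nd v r (hlt r hrv)]; exact h6) h4
        rw [hyr] at h7
        rw [← Option.some.inj h7, htr] at h8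
        exact h8
    -- the value of `gam`
    have hg : gam PL tt a v = PL.pos v - r := by
      unfold gam
      have h1 : (Finset.range (PL.pos v)).filter (fun t => ∃ x y, (a v).1 = some x ∧
          (a (PL.nd v t)).1 = some y ∧ tt y = tt x) = Finset.Ico r (PL.pos v) := by
        ext t
        rw [Finset.mem_filter, Finset.mem_range, Finset.mem_Ico]
        constructor
        · rintro ⟨h1, x', y, h2, h3, h4⟩
          refine ⟨?_, h1⟩
          rw [hav] at h2
          rw [← Option.some.inj h2] at h4
          by_contra hcon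
          exact hmin t (not_le.1 hcon) y h3 h4
        · rintro ⟨h1, h2⟩
          obtain ⟨y, h3, h4⟩ := hall t h1 h2.le
          exact ⟨h2, x, y, hav, h3, h4⟩
      rw [h1, Nat.card_Ico]
    -- the start
    have hpr : ∀ t, 0 < t → t ≤ PL.pos v → prd PL (PL.nd v t) = PL.nd v (t - 1) := by
      intro t h1 h2
      have h3 := PL.pos_nd v t (hlt t h2)
      rw [prd_pos (by rw [h3]; exact h1), h3, PL.nd_nd v t (t - 1) (hlt t h2)
        (hlt (t - 1) (by omega))]
    have hst : stf tt (PL.pos (PL.nd v r)) (a (PL.nd v r)).1 (a (prd PL (PL.nd v r))).1 =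
        some r := by
      unfold stf
      rw [PL.pos_nd v r (hlt r hrv), if_pos]
      refine ⟨yr, hyr, ?_⟩
      rcases Nat.eq_zero_or_pos r with h1 | h1
      · exact Or.inl h1
      · right
        intro z' hz'
        rw [hpr r h1 hrv] at hz'
        rw [htr]
        exact hmin (r - 1) (by omega) z' hz'
    have hbv := (hb v).1 (PL.nd v r) (PL.cls_nd v (hlt r hrv)) (by
      show (stf tt (PL.pos (PL.nd v r)) (a (PL.nd v r)).1 (a (prd PL (PL.nd v r))).1).isSome
      rw [hst]
      rfl) (by rw [PL.pos_nd v r (hlt r hrv)]; exact hrv) (by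
      intro u' hc hs' hle
      rw [PL.pos_nd v r (hlt r hrv)]
      by_contra hcon
      push Not at hcon
      have hu : u' = PL.nd v (PL.pos u') := hc.symm
      obtain ⟨y, h1, h2⟩ := hall (PL.pos u') hcon.le hle
      obtain ⟨y', h3, h4⟩ := hall (PL.pos u' - 1) (by omega) (by omega)
      have hs2 : (stf tt (PL.pos u') (a u').1 (a (prd PL u')).1).isSome := hs'
      unfold stf at hs2
      split_ifs at hs2 with h5
      · obtain ⟨z, h6, h7⟩ := h5
        rcases h7 with h7 | h7
        · omega
        · rw [← hu] at h1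
          rw [h1] at h6
          have e1 : prd PL u' = PL.nd v (PL.pos u' - 1) := by
            have e2 := hpr (PL.pos u') (by omega) hle
            rwa [← hu] at e2
          rw [e1] at h7
          refine h7 y' h3 ?_
          rw [h4, ← Option.some.inj h6, h2]
      · exact absurd hs2 (by simp))
    rw [hg, hbv]
    show PL.pos v - r = PL.pos v - (stf tt (PL.pos (PL.nd v r)) (a (PL.nd v r)).1
      (a (prd PL (PL.nd v r))).1).getD 0
    rw [hst]
    rfl

theorem gam_known {M : Mach V Ω R} {Lam k n r0 W S : ℕ} {PL : Blk V m} (hL : Lines M Lam PL k n r0) (hW : 2 ^ m < W) (hS : 1 ≤ S)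
    (hl : S * W ^ 2 ≤ Lam) {X : Type} (tt κ : X → ℕ) (P : M.Pl) (A : V → Ω → Option X × Option R) (hs : Sm S A)
    (ha : ∀ v, M.Has P v (A v)) (hA : ∀ w, Gsorted PL tt κ (fun v => A v w)) :
    M.Do (4 * n * r0) P (fun P' => ∀ v, M.Knows P' v (fun w => gam PL tt (fun u => A u w) v)) := by
  have hp : 1 ≤ 2 ^ m := Nat.one_le_two_pow
  have hW2 : 2 ≤ W := by omega
  have hW4 : 4 ≤ W ^ 2 := by nlinarith
  have h1 : S + 1 ≤ Lam := by
    refine le_trans ?_ hl
    exact le_trans (by omega : S + 1 ≤ S * 4) (Nat.mul_le_mul_left _ hW4)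
  have h2 : W + 1 ≤ Lam := by
    refine le_trans ?_ hl
    have h3 : W + 1 ≤ W ^ 2 := by nlinarith
    exact h3.trans (Nat.le_mul_of_pos_left _ hS)
  have hcost : 4 * n * r0 = 2 * n * r0 + 2 * n * r0 := by ring
  rw [hcost]
  refine Mach.Do.bind (shift hL (2 ^ m - 1) P A (hs.sz.mono h1) ha) ?_
  intro P1 he1 hP1
  have hk : ∀ v, M.Knows P1 v (fun w => stf tt (PL.pos v) (A v w).1 (A (prd PL v) w).1) :=
    fun v => Mach.Knows.comp2 ((ha v).mono he1).label (hP1 v).label (stf tt (PL.pos v))
  have hsm : Sm W (fun v w => (stf tt (PL.pos v) (A v w).1 (A (prd PL v) w).1,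
      (none : Option R))) := by
    refine ⟨Finset.range W, by simp, fun v w x hx => ?_⟩
    rw [Finset.mem_range]
    have h3 : stf tt (PL.pos v) (A v w).1 (A (prd PL v) w).1 = some x := hx
    unfold stf at h3
    split_ifs at h3 with h4
    rw [← Option.some.inj h3]
    exact (PL.pos_lt v).trans hW
  refine (scan hL h2 P1 (fun v w => (stf tt (PL.pos v) (A v w).1 (A (prd PL v) w).1,
    (none : Option R))) hsm (fun v => (hk v).has)).mono le_rfl ?_
  rintro P2 he2 ⟨b, hb, hsp⟩ v
  have h3 : (fun w => gam PL tt (fun u => A u w) v) = fun w =>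
      if (A v w).1.isSome then PL.pos v - ((b v w).1).getD 0 else 0 := by
    funext w
    exact gam_eq PL tt κ (fun u => A u w) (hA w) (fun v => b v w) (hsp w) v
  rw [h3]
  exact Mach.Knows.comp2 (((ha v).mono he1).mono he2).label (hb v).label
    (fun (x : Option X) (y : Option ℕ) => if x.isSome then PL.pos v - y.getD 0 else 0)

end Pool.Agent.H31.HS
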