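import Mathlib
import Pool.Agent.H31.HS.GDef
import Pool.Agent.H31.HS.Pack
import Pool.Agent.H31.HS.Spread

/-!
# GSpr: from the sorted array to the places `t * 2^Q + γ`

With `gam` known every node has `addG` (local; dropped if `gam ≥ cap`).  `pack` (cost `2 * (q+q) * r0`, `S * W` labels), then `spread` with target
`tau (x, γ) = tt x * 2^Q + γ` (cost `(q+q) * r0`).  Condition of `spread`: let `v`, `u` be consecutive in the packed array (then add up), or directly: for `pos v < pos u` in the packed array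
with items `(x, γ)`, `(y, γ')`: if `tt x = tt y` then `γ' - γ = pos u - pos v` (the kept items of one group are those with `gam < cap`, with `gam = 0, 1, 2, ...` in order); if `tt x < tt y`:
the number of kept items from `x` (inclusive) to `y` (exclusive) is at most `(2^Q - γ) + (tt y - tt x - 1) * 2^Q + γ'` (every group has at most `cap ≤ 2^Q` kept items).
Useful formulation: kept items are determined by their value `tau`, `tau` is strictly increasing along the order, so the number of kept items between them is at most the difference of `tau`: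
`pos u - pos v` = number of kept items `z` with `v ≤ z < u` in the order of the sorted array `≤` number of values of `tau` in `[tau v, tau u)`.  (`tau` strictly increasing: same group: `γ`
increases; different group: `γ < cap ≤ 2^Q`.)
Result: `MoveSpec` relative to the packed array; as items: the place `v` has the item `(x, γ)` of `addG` with `tt x * 2^Q + γ = pos v`.
-/

set_option autoImplicit false

namespace Pool.Agent.H31.HS

variable {V Ω R : Type} {Q : ℕ}

private theorem gs_has {M : Mach V Ω R} {X : Type} {PL : Blk V (Q + Q)} {tt : X → ℕ} (cap : ℕ) {P : M.Pl} {A : V → Ω → Option X × Option R}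
    {v : V} (ha : M.Has P v (A v)) (hg : M.Knows P v (fun w => gam PL tt (fun u => A u w) v)) :
    M.Has P v (fun w => addG PL tt cap (fun u => A u w) v) := by
  constructor
  · intro w w' hs
    have h1 := ha.1 w w' hs
    have h2 : gam PL tt (fun u => A u w) v = gam PL tt (fun u => A u w') v := hg w w' hs
    show addG PL tt cap (fun u => A u w) v = addG PL tt cap (fun u => A u w') v
    unfold addG
    rw [h2]
    show (match (A v w).1 with
      | none => emp
      | some x => if gam PL tt (fun u => A u w') v < cap then (some (x, gam PL tt (fun u => A u w') v), (A v w).2) else emp) = _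
    rw [h1]
    rfl
  · intro w r hr
    refine ha.2 w r ?_
    have h3 : (addG PL tt cap (fun u => A u w) v).2 = some r := hr
    unfold addG at h3
    show (A v w).2 = some r
    rcases h4 : (A v w).1 with _ | x
    · simp only [h4] at h3
      exact absurd h3 (by simp [emp])
    · simp only [h4] at h3
      split_ifs at h3 with h5
      · exact h3
      · exact absurd h3 (by simp [emp])

private theorem gs_some {X : Type} {PL : Blk V (Q + Q)} {tt : X → ℕ} {cap : ℕ} {A : V → Option X × Option R} {v : V} {y : X × ℕ}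
    (h : (addG PL tt cap A v).1 = some y) : (A v).1 = some y.1 ∧ y.2 = gam PL tt A v ∧ y.2 < cap := by
  unfold addG at h
  rcases h4 : (A v).1 with _ | x
  · simp only [h4] at h
    exact absurd h (by simp [emp])
  · simp only [h4] at h
    split_ifs at h with h5
    · have h6 : (x, gam PL tt A v) = y := Option.some.inj h
      subst h6
      exact ⟨rfl, rfl, h5⟩
    · exact absurd h (by simp [emp])

private theorem gs_gam {X : Type} {PL : Blk V (Q + Q)} {tt : X → ℕ} {A : V → Option X × Option R} {v u : V} {x y : X}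
    (h : PL.cls v u) (hv : (A v).1 = some x) (hu : (A u).1 = some y) (ht : tt x = tt y) (hp : PL.pos v < PL.pos u) :
    gam PL tt A v < gam PL tt A u := by
  classical
  unfold gam
  apply Finset.card_lt_card
  rw [Finset.ssubset_iff_of_subset]
  · refine ⟨PL.pos v, ?_, ?_⟩
    · rw [Finset.mem_filter, Finset.mem_range, PL.nd_of_cls h (PL.pos_lt v), PL.nd_pos]
      exact ⟨hp, y, x, hu, hv, ht⟩
    · rw [Finset.mem_filter, Finset.mem_range]
      exact fun h => lt_irrefl _ h.1
  · intro t ht1
    rw [Finset.mem_filter, Finset.mem_range] at ht1 ⊢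
    obtain ⟨h1, x', z, h2, h3, h4⟩ := ht1
    have h5 : x' = x := Option.some.inj (h2.symm.trans hv)
    subst h5
    refine ⟨h1.trans hp, y, z, hu, ?_, h4.trans ht⟩
    rw [PL.nd_of_cls h (h1.trans (PL.pos_lt v))]
    exact h3

/-- `tau` increases. -/
private theorem gs_mono {X : Type} {PL : Blk V (Q + Q)} {tt κ : X → ℕ} {cap : ℕ} (hcap : cap ≤ 2 ^ Q) {A : V → Option X × Option R}
    (hA : Gsorted PL tt κ A) {v u : V} {x y : X × ℕ} (h : PL.cls v u) (hv : (addG PL tt cap A v).1 = some x)
    (hu : (addG PL tt cap A u).1 = some y) (hp : PL.pos v < PL.pos u) : tt x.1 * 2 ^ Q + x.2 < tt y.1 * 2 ^ Q + y.2 := by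
  obtain ⟨h1, h2, h3⟩ := gs_some hv
  obtain ⟨h4, h5, h6⟩ := gs_some hu
  obtain ⟨x', h7, _, h8⟩ := hA.2 v u y.1 h hp h4
  have h9 : x' = x.1 := Option.some.inj (h7.symm.trans h1)
  rw [h9] at h8
  rcases Nat.lt_or_ge (tt x.1) (tt y.1) with hlt | hge
  · have h10 : (tt x.1 + 1) * 2 ^ Q ≤ tt y.1 * 2 ^ Q := Nat.mul_le_mul_right _ hlt
    rw [add_mul, one_mul] at h10
    omega
  · have h10 : tt x.1 = tt y.1 := le_antisymm h8 hge
    have h11 := gs_gam h h1 h4 h10 hp
    rw [h10]
    omega

private theorem gs_cnt {X : Type} {PL : Blk V (Q + Q)} {tt κ : X → ℕ} {cap : ℕ} (hcap : cap ≤ 2 ^ Q) {A : V → Option X × Option R}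
    (hA : Gsorted PL tt κ A) {v u : V} {x y : X × ℕ} (h : PL.cls v u) (hv : (addG PL tt cap A v).1 = some x)
    (hu : (addG PL tt cap A u).1 = some y) (hp : PL.pos v < PL.pos u) :
    tt x.1 * 2 ^ Q + x.2 + cnt PL (fun z => (addG PL tt cap A z).1.isSome) u ≤
      tt y.1 * 2 ^ Q + y.2 + cnt PL (fun z => (addG PL tt cap A z).1.isSome) v := by
  classical
  set o : V → Bool := fun z => (addG PL tt cap A z).1.isSome with ho
  -- tau of a place
  let f : ℕ → ℕ := fun t => match (addG PL tt cap A (PL.nd v t)).1 with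
    | none => 0
    | some z => tt z.1 * 2 ^ Q + z.2
  have hf : ∀ t z, (addG PL tt cap A (PL.nd v t)).1 = some z → f t = tt z.1 * 2 ^ Q + z.2 := by
    intro t z hz
    show (match (addG PL tt cap A (PL.nd v t)).1 with
      | none => 0
      | some z => tt z.1 * 2 ^ Q + z.2) = _
    rw [hz]
  have hfm : ∀ s t, s < t → t < 2 ^ (Q + Q) → o (PL.nd v s) = true → o (PL.nd v t) = true → f s < f t := by
    intro s t hst ht h1 h2
    obtain ⟨z, hz⟩ := Option.isSome_iff_exists.1 h1
    obtain ⟨z', hz'⟩ := Option.isSome_iff_exists.1 h2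
    rw [hf s z hz, hf t z' hz']
    refine gs_mono hcap hA (PL.cls_trans (PL.cls_symm (PL.cls_nd v (hst.trans ht))) (PL.cls_nd v ht)) hz hz' ?_
    rw [PL.pos_nd v s (hst.trans ht), PL.pos_nd v t ht]
    exact hst
  have hfv : f (PL.pos v) = tt x.1 * 2 ^ Q + x.2 := hf _ x (by rw [PL.nd_pos]; exact hv)
  have huv : PL.nd v (PL.pos u) = u := h
  have hfu : f (PL.pos u) = tt y.1 * 2 ^ Q + y.2 := hf _ y (by rw [huv]; exact hu)
  have hov : o (PL.nd v (PL.pos v)) = true := by
    rw [PL.nd_pos]
    show (addG PL tt cap A v).1.isSome = true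
    rw [hv]
    rfl
  have hou : o (PL.nd v (PL.pos u)) = true := by
    rw [huv]
    show (addG PL tt cap A u).1.isSome = true
    rw [hu]
    rfl
  have hcu : cnt PL o u = ((Finset.range (PL.pos u)).filter (fun t => o (PL.nd v t) = true)).card := by
    unfold cnt
    congr 1
    apply Finset.filter_congr
    intro t ht
    rw [PL.nd_of_cls h ((Finset.mem_range.1 ht).trans (PL.pos_lt u))]
  have h1 : ((Finset.range (PL.pos u)).filter (fun t => o (PL.nd v t) = true)).card ≤
      ((Finset.range (PL.pos v)).filter (fun t => o (PL.nd v t) = true)).card + (Finset.Ico (f (PL.pos v)) (f (PL.pos u))).card := by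
    have h2 : (Finset.range (PL.pos u)).filter (fun t => o (PL.nd v t) = true) ⊆
        ((Finset.range (PL.pos v)).filter (fun t => o (PL.nd v t) = true)) ∪
          (Finset.Ico (PL.pos v) (PL.pos u)).filter (fun t => o (PL.nd v t) = true) := by
      intro t ht
      rw [Finset.mem_filter, Finset.mem_range] at ht
      rw [Finset.mem_union, Finset.mem_filter, Finset.mem_filter, Finset.mem_range, Finset.mem_Ico]
      by_cases h2 : t < PL.pos v
      · exact Or.inl ⟨h2, ht.2⟩
      · exact Or.inr ⟨⟨not_lt.1 h2, ht.1⟩, ht.2⟩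
    refine (Finset.card_le_card h2).trans ((Finset.card_union_le _ _).trans (Nat.add_le_add_left ?_ _))
    refine Finset.card_le_card_of_injOn f ?_ ?_
    · intro t ht
      rw [Finset.mem_coe, Finset.mem_filter, Finset.mem_Ico] at ht
      rw [Finset.mem_coe, Finset.mem_Ico]
      obtain ⟨⟨h3, h4⟩, h5⟩ := ht
      refine ⟨?_, hfm t _ h4 (PL.pos_lt u) h5 hou⟩
      rcases Nat.eq_or_lt_of_le h3 with h6 | h6
      · rw [h6]
      · exact (hfm _ t h6 (h4.trans (PL.pos_lt u)) hov h5).le
    · intro s hs t ht hst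
      rw [Finset.mem_coe, Finset.mem_filter, Finset.mem_Ico] at hs ht
      by_contra hne
      rcases Nat.lt_or_gt_of_ne hne with h6 | h6
      · exact absurd hst (hfm s t h6 (ht.1.2.trans (PL.pos_lt u)) hs.2 ht.2).ne
      · exact absurd hst (hfm t s h6 (hs.1.2.trans (PL.pos_lt u)) ht.2 hs.2).ne'
  rw [hcu]
  have h2 : cnt PL o v = ((Finset.range (PL.pos v)).filter (fun t => o (PL.nd v t) = true)).card := rfl
  rw [h2, ← hfv, ← hfu]
  rw [Nat.card_Ico] at h1
  have h3 : f (PL.pos v) < f (PL.pos u) := hfm _ _ hp (PL.pos_lt u) hov hou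
  omega

private theorem gs_cls (B : Blk V (Q + Q)) (o : V → Bool) {v u : V} (h : B.cls v u) (hp : B.pos v ≤ B.pos u) : cnt B o v ≤ cnt B o u := by
  unfold cnt
  apply Finset.card_le_card
  intro t ht
  rw [Finset.mem_filter, Finset.mem_range] at ht ⊢
  refine ⟨ht.1.trans_le hp, ?_⟩
  rw [B.nd_of_cls h (ht.1.trans (B.pos_lt v))]
  exact ht.2

theorem grp_spread {M : Mach V Ω R} {Lam k q r0 W S : ℕ} {PL : Blk V (Q + Q)} (hL : Lines M Lam PL k (q + q) r0) (hW : 2 ^ (Q + Q) < W)
    (hS : 1 ≤ S) (hl : S * W ^ 3 ≤ Lam) (cap : ℕ) (hcap : cap ≤ 2 ^ Q) {X : Type} (tt κ : X → ℕ) (P : M.Pl)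
    (A : V → Ω → Option X × Option R) (hs : Sm S A) (ha : ∀ v, M.Has P v (A v)) (hA : ∀ w, Gsorted PL tt κ (fun v => A v w))
    (htt : ∀ w v x, (A v w).1 = some x → tt x < 2 ^ Q) (hg : ∀ v, M.Knows P v (fun w => gam PL tt (fun u => A u w) v)) :
    M.Do (6 * q * r0) P (fun P' => ∃ b : V → Ω → Option (X × ℕ) × Option R, (∀ v, M.Has P' v (b v)) ∧
      ∀ w, MoveSpec PL (fun x => tt x.1 * 2 ^ Q + x.2) (fun v => addG PL tt cap (fun u => A u w) v) (fun v => b v w)) := by
  obtain hcost : 6 * q * r0 = 2 * (q + q) * r0 + (q + q) * r0 := by ring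
  have hW0 : 0 < W := Nat.lt_of_le_of_lt (Nat.zero_le _) hW
  have hSW : 1 ≤ S * W := Nat.mul_pos hS hW0
  have hl1 : S * W * W ^ 2 ≤ Lam := by
    refine le_trans (le_of_eq ?_) hl
    ring
  have hW1 : 1 ≤ 2 ^ (Q + Q) := Nat.one_le_two_pow
  have hl2 : S * W + 1 ≤ Lam := by
    refine le_trans ?_ hl1
    have h2 : 2 ≤ W ^ 2 := by
      have h3 : 2 ≤ W := Nat.lt_of_le_of_lt hW1 hW
      calc 2 ≤ W := h3
        _ ≤ W ^ 2 := Nat.le_self_pow two_ne_zero W
    have h4 : S * W * 2 ≤ S * W * W ^ 2 := Nat.mul_le_mul_left _ h2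
    omega
  have hsm : Sm (S * W) (fun v w => addG PL tt cap (fun u => A u w) v) := by
    refine Sm.pair (f := fun v w => min (gam PL tt (fun u => A u w) v) cap) hs (Sz.nat (n := W) (fun v w => ?_)) ?_
    · show min (gam PL tt (fun u => A u w) v) cap < W
      have h1 : 2 ^ Q ≤ 2 ^ (Q + Q) := Nat.pow_le_pow_right two_pos (by omega)
      exact (min_le_right _ _).trans_lt (hcap.trans_lt (h1.trans_lt hW))
    · intro v w y hy
      obtain ⟨h1, h2, h3⟩ := gs_some hy
      refine ⟨h1, ?_⟩
      show y.2 = min (gam PL tt (fun u => A u w) v) cap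
      rw [← h2]
      exact (min_eq_left h3.le).symm
  rw [hcost]
  refine (pack hL hW hSW hl1 P (fun v w => addG PL tt cap (fun u => A u w) v) hsm (fun v => gs_has cap (ha v) (hg v))).bind ?_
  rintro P' _ ⟨b0, hb0, hsp0⟩
  -- the packed array
  have horig : ∀ w v x, (b0 v w).1 = some x → ∃ u, PL.cls v u ∧ (addG PL tt cap (fun u => A u w) u).1 = some x ∧
      b0 v w = addG PL tt cap (fun u => A u w) u ∧
      cnt PL (fun z => (addG PL tt cap (fun u => A u w) z).1.isSome) u = PL.pos v := by
    intro w v x hx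
    by_contra hno
    have h1 := (hsp0 w v).2 (fun u hu hs1 hc => ?_)
    · have h2 : b0 v w = emp := h1
      rw [h2] at hx
      exact absurd hx (by simp [emp])
    · have h2 : b0 v w = addG PL tt cap (fun u => A u w) u := (hsp0 w v).1 u hu hs1 hc
      refine hno ⟨u, hu, ?_, h2, hc⟩
      rw [← h2]
      exact hx
  have hsm0 : Sm (S * W) b0 := by
    refine Sm.of_range hsm (fun v w => ?_)
    rcases h1 : (b0 v w).1 with _ | x
    · exact Or.inl rfl
    · obtain ⟨u, _, _, h2, _⟩ := horig w v x h1
      exact Or.inr ⟨u, w, h2⟩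
  refine (spread hL hl2 P' b0 hsm0 hb0 (fun x => tt x.1 * 2 ^ Q + x.2) ?_ ?_).mono le_rfl ?_
  · intro w v x hx
    obtain ⟨u, _, h1, _, _⟩ := horig w v x hx
    obtain ⟨h2, h3, h4⟩ := gs_some h1
    have h5 : tt x.1 < 2 ^ Q := htt w u x.1 h2
    have h6 : (tt x.1 + 1) * 2 ^ Q ≤ 2 ^ Q * 2 ^ Q := Nat.mul_le_mul_right _ h5
    show tt x.1 * 2 ^ Q + x.2 < 2 ^ (Q + Q)
    rw [pow_add]
    rw [add_mul, one_mul] at h6
    omega
  · intro w v u x x' hvu hx hx' hp
    obtain ⟨v', h1, h2, _, h3⟩ := horig w v x hx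
    obtain ⟨u', h4, h5, _, h6⟩ := horig w u x' hx'
    have hc : PL.cls v' u' := PL.cls_trans (PL.cls_symm h1) (PL.cls_trans hvu h4)
    have hpp : PL.pos v' < PL.pos u' := by
      by_contra hge
      have h7 := gs_cls PL (fun z => (addG PL tt cap (fun u => A u w) z).1.isSome) (PL.cls_symm hc) (not_lt.1 hge)
      rw [h3, h6] at h7
      omega
    have h7 := gs_cnt hcap (hA w) hc h2 h5 hpp
    rw [h3, h6] at h7
    exact h7
  · rintro P'' _ ⟨b, hb, hspec⟩
    refine ⟨b, hb, fun w v => ⟨?_, ?_⟩⟩
    · intro u x hu hx htau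
      have hx' : (addG PL tt cap (fun u => A u w) u).1 = some x := hx
      -- the place of the item in the packed array
      have hclt : cnt PL (fun z => (addG PL tt cap (fun u => A u w) z).1.isSome) u < 2 ^ (Q + Q) := by
        refine lt_of_le_of_lt ?_ (PL.pos_lt u)
        unfold cnt
        exact (Finset.card_filter_le _ _).trans (by simp)
      have h1 : PL.cls v (PL.nd v (cnt PL (fun z => (addG PL tt cap (fun u => A u w) z).1.isSome) u)) := PL.cls_nd v hclt
      have h2 : b0 (PL.nd v (cnt PL (fun z => (addG PL tt cap (fun u => A u w) z).1.isSome) u)) w =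
          addG PL tt cap (fun u => A u w) u := by
        refine (hsp0 w _).1 u (PL.cls_trans (PL.cls_symm h1) hu) ?_ ?_
        · show (addG PL tt cap (fun u => A u w) u).1.isSome = true
          rw [hx']
          rfl
        · rw [PL.pos_nd v _ hclt]
      have h3 : b v w = b0 (PL.nd v (cnt PL (fun z => (addG PL tt cap (fun u => A u w) z).1.isSome) u)) w := by
        refine (hspec w v).1 _ x h1 ?_ htau
        show (b0 (PL.nd v (cnt PL (fun z => (addG PL tt cap (fun u => A u w) z).1.isSome) u)) w).1 = some x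
        rw [h2]
        exact hx'
      exact h3.trans h2
    · intro hno
      refine (hspec w v).2 (fun z x hz hx => ?_)
      obtain ⟨u, h1, h2, _, _⟩ := horig w z x hx
      exact hno u x (PL.cls_trans hz h1) h2

end Pool.Agent.H31.HS
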