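import Mathlib
import Pool.Agent.H31.HS.Srt

/-!
# Rev: bit reversal

`rev (s+1) x = x % 2 * 2^s + rev s (x / 2)`.  `rev_lt`: induction.  `rev_top`: `rev (s+1) (x0 * 2^s + z) = x0 + 2 * rev s z` for `x0 < 2`, `z < 2^s`: induction over `s`
(`s + 1`: the lowest bit of `x0 2^(s+1) + z` is `z % 2`, the half is `x0 2^s + z / 2`).  `rev_rev`: induction with `rev_top`.
`rev_div`: the top `s - i` bits of `rev s x` are the reversal of the low `s - i` bits of `x`: `rev s x / 2^i = rev (s-i) (x % 2^(s-i))` for `i ≤ s`: induction over `s - i` or over `s`.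
`rev_aligned`: the numbers `r < N` with `rev q r` in an aligned interval of length `2^i` (`i ≤ q`): they have given low `q - i` bits, so there are at most `N / 2^(q-i) + 1`.
(By `rev_div`: `rev q r / 2^i = A` says `rev (q-i) (r % 2^(q-i)) = A`, so `r % 2^(q-i) = rev (q-i) A` is a fixed number; count `r < N` in a residue class: `Nat.count_modEq_card`
or the injection `r ↦ r / 2^(q-i)` into `range (N / 2^(q-i) + 1)`.)
-/

/-!
# Rev: bit reversal

`rev (s+1) x = x % 2 * 2^s + rev s (x / 2)`.  `rev_lt`: induction.  `rev_top`: `rev (s+1) (x0 * 2^s + z) = x0 + 2 * rev s z` for `x0 < 2`, `z < 2^s`: induction over `s`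
(`s + 1`: the lowest bit of `x0 2^(s+1) + z` is `z % 2`, the half is `x0 2^s + z / 2`).  `rev_rev`: induction with `rev_top`.
`rev_div`: the top `s - i` bits of `rev s x` are the reversal of the low `s - i` bits of `x`: `rev s x / 2^i = rev (s-i) (x % 2^(s-i))` for `i ≤ s`: induction over `s - i` or over `s`.
`rev_aligned`: the numbers `r < N` with `rev q r` in an aligned interval of length `2^i` (`i ≤ q`): they have given low `q - i` bits, so there are at most `N / 2^(q-i) + 1`.
(By `rev_div`: `rev q r / 2^i = A` says `rev (q-i) (r % 2^(q-i)) = A`, so `r % 2^(q-i) = rev (q-i) A` is a fixed number; count `r < N` in a residue class: `Nat.count_modEq_card`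
or the injection `r ↦ r / 2^(q-i)` into `range (N / 2^(q-i) + 1)`.)
-/

set_option autoImplicit false

namespace Pool.Agent.H31.HS

theorem rev_lt (s x : ℕ) : rev s x < 2 ^ s := by
  induction s generalizing x with
  | zero => simp [rev]
  | succ s ih =>
    have h1 := ih (x / 2)
    have h2 : x % 2 * 2 ^ s ≤ 1 * 2 ^ s := Nat.mul_le_mul_right _ (by omega)
    rw [rev, pow_succ]
    omega

private theorem rev_top (s x0 z : ℕ) (hx : x0 < 2) (hz : z < 2 ^ s) :
    rev (s + 1) (x0 * 2 ^ s + z) = x0 + 2 * rev s z := by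
  induction s generalizing z with
  | zero =>
    have hz0 : z = 0 := by simpa using hz
    subst hz0
    simp only [rev, pow_zero, mul_one, add_zero]
    omega
  | succ s ih =>
    have h1 : (x0 * 2 ^ (s + 1) + z) % 2 = z % 2 := by
      rw [pow_succ, ← mul_assoc]
      omega
    have h2 : (x0 * 2 ^ (s + 1) + z) / 2 = x0 * 2 ^ s + z / 2 := by
      rw [pow_succ, ← mul_assoc]
      omega
    have h3 : z / 2 < 2 ^ s := by
      rw [pow_succ] at hz
      omega
    rw [rev, h1, h2, ih (z / 2) h3, rev, pow_succ]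
    ring

theorem rev_rev (s x : ℕ) (hx : x < 2 ^ s) : rev s (rev s x) = x := by
  induction s generalizing x with
  | zero =>
    have : x = 0 := by simpa using hx
    subst this
    simp [rev]
  | succ s ih =>
    have h1 : x / 2 < 2 ^ s := by
      rw [pow_succ] at hx
      omega
    have h2 : rev (s + 1) x = x % 2 * 2 ^ s + rev s (x / 2) := rfl
    rw [h2, rev_top s (x % 2) (rev s (x / 2)) (Nat.mod_lt _ two_pos) (rev_lt _ _), ih _ h1]
    omega

theorem rev_div (s i x : ℕ) (hi : i ≤ s) : rev s x / 2 ^ i = rev (s - i) (x % 2 ^ (s - i)) := by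
  induction s generalizing x with
  | zero =>
    have : i = 0 := by omega
    subst this
    simp [rev]
  | succ s ih =>
    rcases Nat.lt_or_ge s i with h | h
    · have h1 : i = s + 1 := by omega
      subst h1
      rw [Nat.div_eq_of_lt (rev_lt _ _), Nat.sub_self]
      rfl
    · have h2 : s + 1 - i = (s - i) + 1 := by omega
      obtain ⟨k, hk⟩ : ∃ k, k = s - i := ⟨_, rfl⟩
      have h3 : 2 ^ s = 2 ^ k * 2 ^ i := by
        rw [← pow_add]
        congr 1
        omega
      have h4 : rev (s + 1) x = x % 2 * 2 ^ s + rev s (x / 2) := rfl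
      have h5 : (x % 2 * 2 ^ s + rev s (x / 2)) / 2 ^ i =
          x % 2 * 2 ^ k + rev s (x / 2) / 2 ^ i := by
        rw [h3, ← mul_assoc, mul_comm (x % 2 * 2 ^ k) (2 ^ i),
          Nat.mul_add_div (by positivity : 0 < 2 ^ i)]
      rw [h4, h5, ih (x / 2) h, h2, ← hk, rev]
      have h6 : x % 2 ^ (k + 1) % 2 = x % 2 := by
        refine Nat.mod_mod_of_dvd _ ?_
        rw [pow_succ]
        exact Nat.dvd_mul_left _ _
      have h7 : x % 2 ^ (k + 1) / 2 = x / 2 % 2 ^ k := by
        rw [pow_succ, mul_comm, Nat.mod_mul_right_div_self]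
      rw [h6, h7]

theorem rev_aligned (q i N A : ℕ) (hi : i ≤ q) :
    ((Finset.range N).filter (fun r => rev q r / 2 ^ i = A)).card ≤ N / 2 ^ (q - i) + 1 := by
  have h1 : ((Finset.range N).filter (fun r => rev q r / 2 ^ i = A)).card ≤
      (Finset.range (N / 2 ^ (q - i) + 1)).card := by
    have hm : ∀ r, rev q r / 2 ^ i = A → r % 2 ^ (q - i) = rev (q - i) A := by
      intro r hr
      rw [rev_div q i r hi] at hr
      rw [← hr, rev_rev _ _ (Nat.mod_lt _ (by positivity))]
    refine Finset.card_le_card_of_injOn (fun r => r / 2 ^ (q - i)) ?_ ?_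
    · intro r hr
      have h2 := (Finset.mem_filter.1 (Finset.mem_coe.1 hr)).1
      rw [Finset.mem_range] at h2
      have h3 : r / 2 ^ (q - i) ≤ N / 2 ^ (q - i) := Nat.div_le_div_right h2.le
      exact Finset.mem_coe.2 (Finset.mem_range.2 (Nat.lt_succ_of_le h3))
    · intro r hr r' hr' he
      have h2 := hm r (Finset.mem_filter.1 (Finset.mem_coe.1 hr)).2
      have h3 := hm r' (Finset.mem_filter.1 (Finset.mem_coe.1 hr')).2
      have h4 : r / 2 ^ (q - i) = r' / 2 ^ (q - i) := he
      rw [← Nat.div_add_mod r (2 ^ (q - i)), ← Nat.div_add_mod r' (2 ^ (q - i)), h2, h3, h4]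
  rwa [Finset.card_range] at h1

end Pool.Agent.H31.HS
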