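import Mathlib
import Pool.Agent.H31.HS.GGam
import Pool.Agent.H31.HS.GSpr
import Pool.Agent.H31.HS.GCard
import Pool.Agent.H31.HS.Rev
import Pool.Agent.H31.HS.LinF
import Pool.Agent.H31.HS.Iter

/-!
# GStage: one stage in a plane

1. `hPS` with the key `fun _ x => κ x.1` (`KeyLoc` trivially, the key does not depend on the input): sorted array `A1` with `SortSpec`; `gsorted_of`: `Gsorted A1`.
2. `gam_known` (cost `4 * (q+q) * r0`), `grp_spread` (cost `6 * q * r0`): array `b1`; drop the number from the label (`Has.map` with `Option.map Prod.fst`): `b2`.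
3. if `rv`: `statN` for `PL.bits 0 Q` (`lines_bits` with `i = 0`, `j = q`; `Q = k * q`) with `σ = τ = rev Q`: cost `2 * q * r0`: `A' v = b2 (node with the low bits reversed)`; else `A' = b2`.
`StageSpec`: `b2 v` is the item `x` of `A1` with `tt x * 2^Q + gam = pos v`, `gam < cap ≤ 2^Q` (so `tt x = pos v / 2^Q`, `gam = pos v % 2^Q`); `gam = rkT A1` (`gam_rk`) `= rkT A` (`rk_sort`); the items of
`A1` are those of `A` in the class.  With reversal: the node with number `t * 2^Q + rev Q β` is in the same class (`bits_cls`), `rev_rev`.  Costs: `8 + 6 + 2 = 16`.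
Sizes: `A1`: the items are items of `A` (`Sm.of_range`); `b2`: likewise.
-/

set_option autoImplicit false

namespace Pool.Agent.H31.HS

variable {V Ω R : Type} {Q : ℕ}

/-- Specification without reversal. -/
private def StS {X R : Type} (PL : Blk V (Q + Q)) (tt κ : X → ℕ) (cap : ℕ) (A A' : V → Option X × Option R) : Prop :=
  ∀ v, (∀ u x, PL.cls v u → (A u).1 = some x → tt x = PL.pos v / 2 ^ Q →
      rkT PL tt κ A u x = PL.pos v % 2 ^ Q → rkT PL tt κ A u x < cap → A' v = A u) ∧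
    ((∀ u x, PL.cls v u → (A u).1 = some x → ¬ (tt x = PL.pos v / 2 ^ Q ∧
      rkT PL tt κ A u x = PL.pos v % 2 ^ Q ∧ rkT PL tt κ A u x < cap)) → A' v = emp)

private theorem div_mod_aux {N x g p : ℕ} (hg : g < N) (h : x * N + g = p) : x = p / N ∧ g = p % N := by
  have hN : 0 < N := by omega
  subst h
  refine ⟨?_, ?_⟩
  · rw [mul_comm x N, Nat.mul_add_div hN, Nat.div_eq_of_lt hg, add_zero]
  · rw [mul_comm x N, Nat.mul_add_mod, Nat.mod_eq_of_lt hg]

/-- The specification after sorting and spreading (for one input). -/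
private theorem stS_of {X : Type} {PL : Blk V (Q + Q)} {tt κ : X → ℕ} {cap : ℕ} (hcap : cap ≤ 2 ^ Q)
    {A A1 : V → Option X × Option R} {b : V → Option (X × ℕ) × Option R}
    (hd : Dist PL (fun x => κ x.1) A) (hs : SortSpec PL (fun x => κ x.1) A A1) (hg : Gsorted PL tt κ A1)
    (hb : MoveSpec PL (fun x => tt x.1 * 2 ^ Q + x.2) (fun v => addG PL tt cap A1 v) b) :
    StS PL tt κ cap A (fun v => ((b v).1.map Prod.fst, (b v).2)) := by
  have hadd : ∀ v x, (A1 v).1 = some x → gam PL tt A1 v < cap →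
      addG PL tt cap A1 v = (some (x, gam PL tt A1 v), (A1 v).2) := by
    intro v x hx hc
    unfold addG
    rw [hx]
    simp only [if_pos hc]
  have hadd' : ∀ v x g, (addG PL tt cap A1 v).1 = some (x, g) → (A1 v).1 = some x ∧ g = gam PL tt A1 v ∧ g < cap := by
    intro v x g h
    rcases h1 : (A1 v).1 with _ | y
    · unfold addG at h
      rw [h1] at h
      exact absurd h (by simp [emp])
    · by_cases hc : gam PL tt A1 v < cap
      · rw [hadd v y h1 hc] at h
        have h2 := Option.some.inj h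
        rw [Prod.mk.injEq] at h2
        exact ⟨by rw [h2.1], h2.2.symm, by rw [← h2.2]; exact hc⟩
      · unfold addG at h
        rw [h1] at h
        simp only [if_neg hc] at h
        exact absurd h (by simp [emp])
  intro v
  constructor
  · intro u x hvu hx ht hr hrc
    obtain ⟨u1, hc1, he1⟩ := hs.2.1 u (by rw [hx]; rfl)
    have hx1 : (A1 u1).1 = some x := by rw [he1]; exact hx
    have h1 : rkT PL tt κ A u x = gam PL tt A1 u1 := by
      rw [rk_sort hd hs u u1 hc1 x, gam_rk hg u1 x hx1]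
    rw [h1] at hr hrc
    have h2 := hadd u1 x hx1 hrc
    have h3 := (hb v).1 u1 (x, gam PL tt A1 u1) (PL.cls_trans hvu hc1) (by
      show (addG PL tt cap A1 u1).1 = _
      rw [h2]) (by
      show tt x * 2 ^ Q + gam PL tt A1 u1 = PL.pos v
      rw [ht, hr, Nat.div_add_mod'])
    show ((b v).1.map Prod.fst, (b v).2) = A u
    have h3' : b v = addG PL tt cap A1 u1 := h3
    rw [h3', h2, ← he1]
    show (some x, (A1 u1).2) = A1 u1
    rw [← hx1]
  · intro h
    have h3 := (hb v).2 (by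
      rintro u ⟨x, g⟩ hvu hx ht
      obtain ⟨h4, h5, h6⟩ := hadd' u x g hx
      obtain ⟨u0, hc0, he0⟩ := hs.1 u (by rw [h4]; rfl)
      have hx0 : (A u0).1 = some x := by rw [← he0]; exact h4
      obtain ⟨e1, e2⟩ := div_mod_aux (h6.trans_le hcap) ht
      have h7 : rkT PL tt κ A u0 x = g := by
        rw [rk_sort hd hs u0 u (PL.cls_symm hc0) x, gam_rk hg u x h4, h5]
      exact h u0 x (PL.cls_trans hvu hc0) hx0 ⟨e1, by rw [h7]; exact e2, by rw [h7]; exact h6⟩)
    show ((b v).1.map Prod.fst, (b v).2) = emp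
    rw [h3]
    rfl

theorem stage {M : Mach V Ω R} {Lam k q r0 W S S2 : ℕ} {PL : Blk V (Q + Q)} (hL : Lines M Lam PL k (q + q) r0) (hQ : Q = k * q)
    (hW : 2 ^ (Q + Q) < W) (hS : 1 ≤ S) (hl : S * W ^ 3 ≤ Lam) {D : (V → Bool) → Prop} (hPS : CanS M S PL D S2) (cap : ℕ)
    (hcap : cap ≤ 2 ^ Q) (rv : Bool) {X : Type} (tt κ : X → ℕ) (P : M.Pl)
    (A : V → Ω → Option X × Option R) (hs : Sm S A) (ha : ∀ v, M.Has P v (A v)) (hD : ∀ w, D (fun v => (A v w).1.isSome))
    (hmon : ∀ w v u x y, PL.cls v u → (A v w).1 = some x → (A u w).1 = some y → tt x < tt y → κ x < κ y)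
    (htt : ∀ w v x, (A v w).1 = some x → tt x < 2 ^ Q)
    (hdist : ∀ w v u x y, PL.cls v u → (A v w).1 = some x → (A u w).1 = some y → κ x = κ y → v = u) :
    M.Do (S2 + 16 * q * r0) P (fun P' => ∃ A' : V → Ω → Option X × Option R, (∀ v, M.Has P' v (A' v)) ∧
      ∀ w, StageSpec PL tt κ cap rv (fun v => A v w) (fun v => A' v w)) := by
  have hW0 : 0 < 2 ^ (Q + Q) := by positivity
  have hW2 : 2 ≤ W := by omega
  have hl2 : S * W ^ 2 ≤ Lam := (Nat.mul_le_mul_left S (Nat.pow_le_pow_right (by omega) (by norm_num))).trans hl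
  have hl1 : S + 1 ≤ Lam := by
    have h1 : S * 2 ≤ S * W ^ 3 := Nat.mul_le_mul_left S (by
      calc 2 ≤ W := hW2
        _ = W ^ 1 := (pow_one W).symm
        _ ≤ W ^ 3 := Nat.pow_le_pow_right (by omega) (by norm_num))
    omega
  have hd : ∀ w, Dist PL (fun x : X × Option R => κ x.1) (fun v => A v w) := by
    intro w v u hvu hv hu he
    obtain ⟨x, hx⟩ := Option.isSome_iff_exists.1 hv
    obtain ⟨y, hy⟩ := Option.isSome_iff_exists.1 hu
    refine hdist w v u x y hvu hx hy ?_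
    unfold kv at he
    simp only [hx, hy] at he
    exact_mod_cast he
  have hcost : S2 + 16 * q * r0 = S2 + (4 * (q + q) * r0 + (6 * q * r0 + 2 * q * r0)) := by ring
  rw [hcost]
  refine (hPS X (fun _ x => κ x.1) P A (fun w w' x y _ => Iff.rfl) hs ha hd hD).bind ?_
  rintro P1 - ⟨A1, ha1, hs1⟩
  have hA1 : ∀ v w, (A1 v w).1 = none ∨ ∃ i w', A1 v w = A i w' := by
    intro v w
    rcases h1 : (A1 v w).1 with _ | x
    · exact Or.inl rfl
    · obtain ⟨u, _, h2⟩ := (hs1 w).1 v (by rw [h1]; rfl)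
      exact Or.inr ⟨u, w, h2⟩
  have hsm1 : Sm S A1 := hs.of_range hA1
  have hgs : ∀ w, Gsorted PL tt κ (fun v => A1 v w) := fun w =>
    gsorted_of (fun v u x y => hmon w v u x y) (hs1 w)
  have htt1 : ∀ w v x, (A1 v w).1 = some x → tt x < 2 ^ Q := by
    intro w v x hx
    obtain ⟨u, _, h2⟩ := (hs1 w).1 v (by rw [hx]; rfl)
    have h2' : A1 v w = A u w := h2
    exact htt w u x (by rw [← h2']; exact hx)
  refine (gam_known hL hW hS hl2 tt κ P1 A1 hsm1 ha1 hgs).bind ?_
  intro P2 hP2 hgam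
  refine (grp_spread hL hW hS hl cap hcap tt κ P2 A1 hsm1 (fun v => (ha1 v).mono hP2) hgs htt1 hgam).bind ?_
  rintro P3 hP3 ⟨b, hb, hbs⟩
  obtain ⟨b2, hb2⟩ : ∃ b2 : V → Ω → Option X × Option R, b2 = fun v w => ((b v w).1.map Prod.fst, (b v w).2) := ⟨_, rfl⟩
  have hHas : ∀ v, M.Has P3 v (b2 v) := by
    intro v
    rw [hb2]
    exact ⟨(hb v).1.comp (fun x => (x.1.map Prod.fst, x.2)), fun w r hr => (hb v).2 w r hr⟩
  have hSt : ∀ w, StS PL tt κ cap (fun v => A v w) (fun v => b2 v w) := by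
    intro w
    rw [hb2]
    exact stS_of hcap (hd w) (hs1 w) (hgs w) (hbs w)
  have hb2A : ∀ v w, (b2 v w).1 = none ∨ ∃ i w', b2 v w = A i w' := by
    intro v w
    classical
    by_cases h : ∃ u x, PL.cls v u ∧ (A u w).1 = some x ∧ tt x = PL.pos v / 2 ^ Q ∧
      rkT PL tt κ (fun v => A v w) u x = PL.pos v % 2 ^ Q ∧ rkT PL tt κ (fun v => A v w) u x < cap
    · obtain ⟨u, x, h1, h2, h3, h4, h5⟩ := h
      exact Or.inr ⟨u, w, (hSt w v).1 u x h1 h2 h3 h4 h5⟩
    · left
      have h1 := (hSt w v).2 (fun u x h1 h2 h3 => h ⟨u, x, h1, h2, h3⟩)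
      simp only at h1
      rw [h1]
      rfl
  have hsm2 : Sz Lam (fun v w => (b2 v w).1) := (hs.of_range hb2A).sz.mono hl1
  cases rv with
  | false =>
    refine Mach.Do.pure ⟨b2, hHas, fun w v => ?_⟩
    exact hSt w v
  | true =>
    have hh : k * 0 + k * q ≤ Q + Q := by rw [hQ]; omega
    have hL' := lines_bits hL (i := 0) (j := q) (by omega) hh
    have hkq : k * q = Q := hQ.symm
    obtain ⟨P4, h1, h2, h3⟩ := statN hL' (rev (k * q)) (rev (k * q)) (fun t _ => rev_lt _ t) (fun t _ => rev_lt _ t)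
      (fun t ht => rev_rev _ t ht) (fun t ht => rev_rev _ t ht) P3 b2 hsm2 hHas
    refine ⟨P4, h1, h2, fun v => b2 ((PL.bits (k * 0) (k * q) hh).nd v (rev (k * q) ((PL.bits (k * 0) (k * q) hh).pos v))), h3, ?_⟩
    intro w v
    have hp : (PL.bits (k * 0) (k * q) hh).pos v = PL.pos v % 2 ^ Q := by
      show PL.pos v / 2 ^ (k * 0) % 2 ^ (k * q) = _
      rw [mul_zero, pow_zero, Nat.div_one, hkq]
    obtain ⟨v', hv'⟩ : ∃ v', v' = (PL.bits (k * 0) (k * q) hh).nd v (rev (k * q) ((PL.bits (k * 0) (k * q) hh).pos v)) := ⟨_, rfl⟩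
    have hrl : rev Q (PL.pos v % 2 ^ Q) < 2 ^ Q := rev_lt _ _
    have hnd : v' = PL.nd v (PL.pos v / 2 ^ Q * 2 ^ Q + rev Q (PL.pos v % 2 ^ Q)) := by
      rw [hv', hp]
      show PL.nd v (Blk.rep (k * 0) (k * q) (PL.pos v) (rev (k * q) (PL.pos v % 2 ^ Q) % 2 ^ (k * q))) = _
      unfold Blk.rep
      rw [mul_zero, zero_add, hkq, pow_zero, mul_one, Nat.mod_one, add_zero, Nat.mod_eq_of_lt hrl]
    have hlt : PL.pos v / 2 ^ Q * 2 ^ Q + rev Q (PL.pos v % 2 ^ Q) < 2 ^ (Q + Q) := by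
      have h4 : PL.pos v / 2 ^ Q < 2 ^ Q := by
        rw [Nat.div_lt_iff_lt_mul (by positivity), ← pow_add]
        exact PL.pos_lt v
      have h5 : (PL.pos v / 2 ^ Q + 1) * 2 ^ Q ≤ 2 ^ Q * 2 ^ Q := Nat.mul_le_mul_right _ h4
      rw [pow_add]
      nlinarith
    have hpv : PL.pos v' = PL.pos v / 2 ^ Q * 2 ^ Q + rev Q (PL.pos v % 2 ^ Q) := by
      rw [hnd, PL.pos_nd v _ hlt]
    have hcl : PL.cls v v' := by
      rw [hnd]
      exact PL.cls_nd v hlt
    obtain ⟨e1, e2⟩ := div_mod_aux hrl hpv.symm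
    have h5 := hSt w v'
    rw [← e1, ← e2] at h5
    have h6 : b2 ((PL.bits (k * 0) (k * q) hh).nd v (rev (k * q) ((PL.bits (k * 0) (k * q) hh).pos v))) w = b2 v' w := by rw [hv']
    constructor
    · intro u x hvu hx ht hr hc
      show b2 _ w = A u w
      rw [h6]
      exact h5.1 u x (PL.cls_trans (PL.cls_symm hcl) hvu) hx ht hr hc
    · intro h
      show b2 _ w = emp
      rw [h6]
      exact h5.2 fun u x hvu hx => h u x (PL.cls_trans hcl hvu) hx

end Pool.Agent.H31.HS
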