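import Mathlib
import Pool.Agent.H31.HS.Srt

/-!
# RDef: replicas (definitions)

`RB` is a numbering which commutes with the others; its classes are sets of replicas: the labels (without the label of the content) are the same on the classes of `RB`.
`RBC RB pr a`: the values `pr` of the labels are constant on the classes of `RB`.
`CanR M S PL RB D c`: arrays whose keys `κ` (functions of the label) are constant on the classes of `RB`, with pattern `D` of occupied places, can be sorted in the classes of `PL` in `c` steps.
-/

set_option autoImplicit false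

namespace Pool.Agent.H31.HS

variable {V Ω R : Type} {l r : ℕ}

/-- The values `pr` of the labels are constant on the classes of `RB`. -/
def RBC {X Y R : Type} (RB : Blk V r) (pr : X → Y) (a : V → Option X × Option R) : Prop :=
  ∀ v u, RB.cls v u → (a v).1.map pr = (a u).1.map pr

/-- Sorting of arrays with replicated keys. -/
def CanR (M : Mach V Ω R) (S : ℕ) (PL : Blk V l) (RB : Blk V r) (D : (V → Bool) → Prop) (c : ℕ) : Prop :=
  ∀ (X : Type) (κ : X → ℕ) (P : M.Pl) (a : V → Ω → Option X × Option R), Sm S a → (∀ v, M.Has P v (a v)) →
    (∀ w, Dist PL (fun x => κ x.1) (fun v => a v w)) → (∀ w, D (fun v => (a v w).1.isSome)) →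
    (∀ w, RBC RB κ (fun v => a v w)) →
      M.Do c P (fun P' => ∃ b : V → Ω → Option X × Option R, (∀ v, M.Has P' v (b v)) ∧
        ∀ w, SortSpec PL (fun x => κ x.1) (fun v => a v w) (fun v => b v w))

/-- Sorting of all arrays. -/
theorem CanS.canR {M : Mach V Ω R} {S c : ℕ} {PL : Blk V l} {RB : Blk V r} {D : (V → Bool) → Prop} (h : CanS M S PL D c) :
    CanR M S PL RB D c := by
  intro X κ P a hs ha hd hD _
  exact h X (fun _ x => κ x.1) P a (fun w w' x y _ => Iff.rfl) hs ha hd hD

end Pool.Agent.H31.HS
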