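import Mathlib
import Pool.Agent.H31.HS.WDef

/-!
# WBas: places as triples (unit, balance number, layer)

Everything from `bits_cls` (`B.pos v < 2^m`, so `B.pos v / 2^m = 0`) and arithmetic: with `x = B.pos v`: layer number `x / 2^0 % 2^g = x % 2^g`, balance number `x / 2^g % 2^Q`, unit number
`x / 2^(g+Q) % 2^(Z*Q) = x / 2^(g+Q)` (as `x < 2^(g+Q+Z*Q)`), number in the layer `x / 2^g % 2^(Z*Q+Q) = x / 2^g`, and `x / 2^g = (x / 2^(g+Q)) * 2^Q + x / 2^g % 2^Q`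
(`Nat.div_add_mod`, `Nat.div_div_eq_div_mul`, `pow_add`).
-/

set_option autoImplicit false

namespace Pool.Agent.H31.HS

variable {V : Type} {m g Q Z : ℕ} (B : Blk V m) (hm : m = g + Q + Z * Q)

include hm in
private theorem wb_lt (v : V) : B.pos v < 2 ^ (g + Q + Z * Q) := by
  exact lt_of_lt_of_eq (B.pos_lt v) (congrArg (fun n => 2 ^ n) hm)

theorem lay_num (v : V) : (Lay B hm).pos v = B.pos v % 2 ^ g := by
  show B.pos v / 2 ^ 0 % 2 ^ g = _
  rw [pow_zero, Nat.div_one]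

theorem bal_num (v : V) : (Bal B hm).pos v = B.pos v / 2 ^ g % 2 ^ Q := rfl

theorem uni_num (v : V) : (Uni B hm).pos v = B.pos v / 2 ^ (g + Q) := by
  show B.pos v / 2 ^ (g + Q) % 2 ^ (Z * Q) = _
  refine Nat.mod_eq_of_lt ?_
  rw [Nat.div_lt_iff_lt_mul (by positivity), ← pow_add, add_comm (Z * Q)]
  exact wb_lt B hm v

theorem lyr_num (v : V) : (Lyr B hm).pos v = B.pos v / 2 ^ g := by
  show B.pos v / 2 ^ g % 2 ^ (Z * Q + Q) = _
  refine Nat.mod_eq_of_lt ?_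
  rw [Nat.div_lt_iff_lt_mul (by positivity), ← pow_add, show Z * Q + Q + g = g + Q + Z * Q by ring]
  exact wb_lt B hm v

theorem lyr_pos (v : V) : (Lyr B hm).pos v = (Uni B hm).pos v * 2 ^ Q + (Bal B hm).pos v := by
  rw [lyr_num, uni_num, bal_num, pow_add, ← Nat.div_div_eq_div_mul, mul_comm, Nat.div_add_mod]

theorem lyr_cls (v u : V) : (Lyr B hm).cls v u ↔ B.cls v u ∧ (Lay B hm).pos v = (Lay B hm).pos u := by
  have h0 : ∀ v, B.pos v / 2 ^ (g + (Z * Q + Q)) = 0 := fun v => by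
    refine Nat.div_eq_of_lt ?_
    rw [show g + (Z * Q + Q) = g + Q + Z * Q by ring]
    exact wb_lt B hm v
  unfold Lyr
  rw [bits_cls, lay_num, lay_num, h0, h0]
  tauto

theorem node_ext {v u : V} (h : B.cls v u) (h1 : (Lay B hm).pos v = (Lay B hm).pos u) (h2 : (Bal B hm).pos v = (Bal B hm).pos u)
    (h3 : (Uni B hm).pos v = (Uni B hm).pos u) : v = u := by
  refine B.eq_of_cls h ?_
  have h4 : (Lyr B hm).pos v = (Lyr B hm).pos u := by rw [lyr_pos, lyr_pos, h2, h3]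
  rw [lyr_num, lyr_num] at h4
  rw [lay_num, lay_num] at h1
  rw [← Nat.div_add_mod (B.pos v) (2 ^ g), h4, h1, Nat.div_add_mod]

theorem bal_cls (v u : V) : (Bal B hm).cls v u ↔ (Lyr B hm).cls v u ∧ (Uni B hm).pos v = (Uni B hm).pos u := by
  unfold Bal
  rw [bits_cls, lyr_cls, lay_num, lay_num, uni_num, uni_num]
  tauto

theorem uni_cls (v u : V) : (Uni B hm).cls v u ↔ (Lyr B hm).cls v u ∧ (Bal B hm).pos v = (Bal B hm).pos u := by
  have h0 : ∀ v, B.pos v / 2 ^ (g + Q + Z * Q) = 0 := fun v => Nat.div_eq_of_lt (wb_lt B hm v)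
  unfold Uni
  rw [bits_cls, lyr_cls, lay_num, lay_num, bal_num, bal_num, h0, h0]
  constructor
  · rintro ⟨h1, -, h2⟩
    refine ⟨⟨h1, ?_⟩, ?_⟩
    · have h3 : ∀ x : ℕ, x % 2 ^ (g + Q) % 2 ^ g = x % 2 ^ g := fun x =>
        Nat.mod_mod_of_dvd _ (pow_dvd_pow 2 (by omega))
      rw [← h3 (B.pos v), h2, h3]
    · have h3 : ∀ x : ℕ, x % 2 ^ (g + Q) / 2 ^ g = x / 2 ^ g % 2 ^ Q := fun x => by
        rw [pow_add, Nat.mod_mul_right_div_self]
      rw [← h3 (B.pos v), h2, h3]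
  · rintro ⟨⟨h1, h2⟩, h3⟩
    refine ⟨h1, rfl, ?_⟩
    rw [pow_add, Nat.mod_mul, Nat.mod_mul, h2, h3]

theorem lay_cls (v u : V) :
    (Lay B hm).cls v u ↔ B.cls v u ∧ (Uni B hm).pos v = (Uni B hm).pos u ∧ (Bal B hm).pos v = (Bal B hm).pos u := by
  unfold Lay
  rw [bits_cls]
  constructor
  · rintro ⟨h1, h2, -⟩
    rw [zero_add] at h2
    refine ⟨h1, ?_, ?_⟩
    · rw [uni_num, uni_num, pow_add, ← Nat.div_div_eq_div_mul, ← Nat.div_div_eq_div_mul, h2]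
    · rw [bal_num, bal_num, h2]
  · rintro ⟨h1, h2, h3⟩
    have h4 : (Lyr B hm).pos v = (Lyr B hm).pos u := by rw [lyr_pos, lyr_pos, h2, h3]
    rw [lyr_num, lyr_num] at h4
    refine ⟨h1, ?_, ?_⟩
    · rw [zero_add]
      exact h4
    · rw [pow_zero, Nat.mod_one, Nat.mod_one]

end Pool.Agent.H31.HS
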