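import Mathlib
import Pool.Agent.H31.HS.WBas

/-!
# WPln: the planes

`Pln B hm jj hj` is the product of the bits `g+Q+jj*Q, ..` (`Q` bits) and the balance bits.  With `x = B.pos v`: `x / 2^(g+Q+jj*Q) % 2^Q = (x / 2^(g+Q)) / 2^(jj*Q) % 2^Q`, and
`(Uni B hm).pos v = x / 2^(g+Q)`.  `pln_cls`: `prod_cls`, `bits_cls`.  `pln_low`: `prod_bits_low` with `i = 0`, `l' = Q`, and `bits_bits` or `bits_all`.
-/

set_option autoImplicit false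

namespace Pool.Agent.H31.HS

variable {V : Type} {m g Q Z : ℕ} (B : Blk V m) (hm : m = g + Q + Z * Q)

theorem pln_pos (jj : ℕ) (hj : jj < Z) (v : V) :
    (Pln B hm jj hj).pos v = (Uni B hm).pos v / 2 ^ (jj * Q) % 2 ^ Q * 2 ^ Q + (Bal B hm).pos v := by
  show B.pos v / 2 ^ (g + Q + jj * Q) % 2 ^ Q * 2 ^ Q + B.pos v / 2 ^ g % 2 ^ Q = _
  rw [uni_num, bal_num, Nat.div_div_eq_div_mul, ← pow_add]

theorem pln_cls (jj : ℕ) (hj : jj < Z) (v u : V) :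
    (Pln B hm jj hj).cls v u ↔ (Lyr B hm).cls v u ∧ (Uni B hm).pos v / 2 ^ (jj * Q + Q) = (Uni B hm).pos u / 2 ^ (jj * Q + Q) ∧
      (Uni B hm).pos v % 2 ^ (jj * Q) = (Uni B hm).pos u % 2 ^ (jj * Q) := by
  have hc := chunk_le (Q := Q) hj
  have e1 : ∀ x : ℕ, x / 2 ^ (g + Q) / 2 ^ (jj * Q + Q) = x / 2 ^ (g + Q + jj * Q + Q) := fun x => by
    rw [Nat.div_div_eq_div_mul, ← pow_add]
    congr 2
    omega
  have e2 : ∀ x : ℕ, x / 2 ^ (g + Q) % 2 ^ (jj * Q) = x % 2 ^ (g + Q + jj * Q) / 2 ^ (g + Q) := fun x => by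
    rw [pow_add 2 (g + Q) (jj * Q), Nat.mod_mul_right_div_self]
  unfold Pln
  rw [prod_cls, lyr_cls, lay_num, lay_num, uni_num, uni_num]
  constructor
  · rintro ⟨z, hz1, hz2⟩
    rw [bits_cls] at hz1 hz2
    obtain ⟨a1, a2, a3⟩ := hz1
    obtain ⟨b1, b2, b3⟩ := hz2
    refine ⟨⟨B.cls_trans a1 b1, ?_⟩, ?_, ?_⟩
    · have h3 : ∀ x : ℕ, x % 2 ^ (g + Q + jj * Q) % 2 ^ g = x % 2 ^ g := fun x =>
        Nat.mod_mod_of_dvd _ (pow_dvd_pow 2 (by omega))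
      rw [a3, ← h3 (B.pos z), b3, h3]
    · rw [a2, e1, e1, b2]
    · rw [a2, e2, e2, b3]
  · rintro ⟨⟨h1, h2⟩, h3, h4⟩
    obtain ⟨z, hz⟩ : ∃ z, z = (Bal B hm).nd v ((Bal B hm).pos u) := ⟨_, rfl⟩
    have hz1 : (Bal B hm).cls v z := by
      rw [hz]
      exact (Bal B hm).cls_nd v ((Bal B hm).pos_lt u)
    have hz2 : (Bal B hm).pos z = (Bal B hm).pos u := by
      rw [hz]
      exact (Bal B hm).pos_nd v _ ((Bal B hm).pos_lt u)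
    refine ⟨z, hz1, ?_⟩
    rw [bits_cls]
    have hz3 : B.cls v z ∧ B.pos v / 2 ^ (g + Q) = B.pos z / 2 ^ (g + Q) ∧ B.pos v % 2 ^ g = B.pos z % 2 ^ g := by
      have h5 := hz1
      unfold Bal at h5
      rwa [bits_cls] at h5
    obtain ⟨a1, a2, a3⟩ := hz3
    rw [bal_num, bal_num] at hz2
    have h6 : B.pos z % 2 ^ (g + Q) = B.pos u % 2 ^ (g + Q) := by
      rw [pow_add, Nat.mod_mul, Nat.mod_mul, ← a3, h2, hz2]
    refine ⟨B.cls_trans (B.cls_symm a1) h1, ?_, ?_⟩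
    · rw [← e1, ← e1, ← a2, h3]
    · rw [pow_add 2 (g + Q) (jj * Q), Nat.mod_mul, Nat.mod_mul, h6, ← a2, h4]

theorem pln_low (jj : ℕ) (hj : jj < Z) (h : 0 + Q ≤ Q + Q) : (Pln B hm jj hj).bits 0 Q h = Bal B hm := by
  unfold Pln
  rw [prod_bits_low _ (by omega : 0 + Q ≤ Q), bits_all]
  rfl

end Pool.Agent.H31.HS
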