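import Mathlib
import Pool.Agent.H31.HS.RDef
import Pool.Agent.H31.HS.WDef
import Pool.Agent.H31.HS.WPln
import Pool.Agent.H31.HS.BitF2

/-!
# RPure: labels stay the same on replicas (pure)

`RB` commutes with `PL` (resp. `BB`).  If `u = RB.nd v t` (`u` in the `RB`-class of `v`), then for `z` in the `PL`-class of `v` the node `z' = RB.nd z t` is in the `PL`-class of `u`, has the same `PL`-number, and `A z'` has the same
`pr`-label as `A z` (`h`); more precisely `PL.nd u s = RB.nd (PL.nd v s) t` for `s < 2^l` (`Comm.com`).  So `rkT` and `cnt` are the same at `z` and `z'`, and `StageSpec` (`LineSpec`) gives the same `pr`-label at `v` and `u`.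
`comm_pln`: `B.bits i l` commutes with `RB` (`comm_bits` with the whole block `RB`, `bits_all`), and products of commuting blocks commute with `RB`: check the three fields from the definition of `prod`.
-/

set_option autoImplicit false

namespace Pool.Agent.H31.HS

variable {V X R Y : Type} {m r : ℕ}

private theorem rp_nd {l : ℕ} {PL : Blk V l} {RB : Blk V r} (hC : Blk.Comm PL RB) {v y : V} (h : RB.cls v y) {u : V}
    (hu : PL.cls v u) : PL.cls y (RB.nd u (RB.pos y)) ∧ PL.pos (RB.nd u (RB.pos y)) = PL.pos u ∧ PL.pos y = PL.pos v := by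
  have ht := RB.pos_lt y
  have h1 : RB.nd v (RB.pos y) = y := h
  have h2 : PL.nd v (PL.pos u) = u := hu
  have h3 := hC.com v (PL.pos u) (RB.pos y) (PL.pos_lt u) ht
  rw [h1, h2] at h3
  refine ⟨?_, hC.pS u _ ht, ?_⟩
  · rw [← h3]
    exact PL.cls_nd y (PL.pos_lt u)
  · have h4 := hC.pS v _ ht
    rwa [h1] at h4

private theorem rp_map {Y' : Type} {pr : X → Y'} {a b : Option X} (h : a.map pr = b.map pr) (x : X) (hx : a = some x) :
    ∃ y, b = some y ∧ pr x = pr y := by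
  subst hx
  cases b with
  | none => simp at h
  | some y => exact ⟨y, rfl, by simpa using h⟩

private theorem rp_some {Y' : Type} {pr : X → Y'} {a b : Option X} (h : a.map pr = b.map pr) :
    a.isSome = b.isSome := by
  have h1 : (a.map pr).isSome = (b.map pr).isSome := by rw [h]
  simpa using h1

private theorem rp_cnt {l : ℕ} {PL : Blk V l} {RB : Blk V r} (hC : Blk.Comm PL RB) {pr : X → Y}
    {A : V → Option X × Option R} (h : RBC RB pr A) (u : V) {t : ℕ} (ht : t < 2 ^ r) :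
    cnt PL (fun z => (A z).1.isSome) (RB.nd u t) = cnt PL (fun z => (A z).1.isSome) u := by
  unfold cnt
  rw [hC.pS u t ht]
  congr 1
  refine Finset.filter_congr fun s hs => ?_
  rw [Finset.mem_range] at hs
  rw [hC.com u s t (hs.trans (PL.pos_lt u)) ht]
  have h1 := h (PL.nd u s) (RB.nd (PL.nd u s) t) (RB.cls_nd _ ht)
  show (A (RB.nd (PL.nd u s) t)).1.isSome = true ↔ (A (PL.nd u s)).1.isSome = true
  rw [rp_some h1]

private theorem rp_rk {l : ℕ} {PL : Blk V l} {RB : Blk V r} (hC : Blk.Comm PL RB) {pr : X → Y} {tt κ : X → ℕ}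
    (htt : ∀ x y, pr x = pr y → tt x = tt y) (hκ : ∀ x y, pr x = pr y → κ x = κ y)
    {A : V → Option X × Option R} (h : RBC RB pr A) (u : V) {t : ℕ} (ht : t < 2 ^ r) {x x' : X} (hx : pr x = pr x') :
    rkT PL tt κ A (RB.nd u t) x' = rkT PL tt κ A u x := by
  unfold rkT
  congr 1
  refine Finset.filter_congr fun s hs => ?_
  rw [Finset.mem_range] at hs
  rw [hC.com u s t hs ht, ← htt _ _ hx, ← hκ _ _ hx]
  have h1 := h (PL.nd u s) (RB.nd (PL.nd u s) t) (RB.cls_nd _ ht)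
  constructor
  · rintro ⟨y, a1, a2, a3⟩
    obtain ⟨y', b1, b2⟩ := rp_map h1.symm y a1
    exact ⟨y', b1, by rw [← htt _ _ b2, a2], by rw [← hκ _ _ b2]; exact a3⟩
  · rintro ⟨y, a1, a2, a3⟩
    obtain ⟨y', b1, b2⟩ := rp_map h1 y a1
    exact ⟨y', b1, by rw [← htt _ _ b2, a2], by rw [← hκ _ _ b2]; exact a3⟩

theorem rb_line {Q : ℕ} {BB : Blk V Q} {RB : Blk V r} (hC : Blk.Comm BB RB) {cap : ℕ} {pr : X → Y} {A A' : V → Option X × Option R}
    (hs : LineSpec BB cap A A') (h : RBC RB pr A) : RBC RB pr A' := by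
  -- one direction
  have key : ∀ v y, RB.cls v y → ∀ u, BB.cls v u → (A u).1.isSome = true →
      cnt BB (fun z => (A z).1.isSome) u = rev Q (BB.pos v) → rev Q (BB.pos v) < cap →
      A' v = A u ∧ ∃ u', A' y = A u' ∧ (A u).1.map pr = (A u').1.map pr := by
    intro v y hvy u hu h1 h2 h3
    obtain ⟨c1, c2, c3⟩ := rp_nd hC hvy hu
    have ht := RB.pos_lt y
    have h4 := h u (RB.nd u (RB.pos y)) (RB.cls_nd u ht)
    refine ⟨(hs v).1 u hu h1 h2 h3, RB.nd u (RB.pos y), ?_, h4⟩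
    refine (hs y).1 _ c1 ?_ ?_ ?_
    · rw [← rp_some h4]
      exact h1
    · rw [rp_cnt hC h u ht, c3]
      exact h2
    · rw [c3]
      exact h3
  intro v y hvy
  by_cases hv : ∃ u, BB.cls v u ∧ (A u).1.isSome = true ∧
      cnt BB (fun z => (A z).1.isSome) u = rev Q (BB.pos v) ∧ rev Q (BB.pos v) < cap
  · obtain ⟨u, a1, a2, a3, a4⟩ := hv
    obtain ⟨e1, u', e2, e3⟩ := key v y hvy u a1 a2 a3 a4
    rw [e1, e2, e3]
  · have e1 : A' v = emp := (hs v).2 fun u a1 a2 a3 => hv ⟨u, a1, a2, a3.1, a3.2⟩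
    by_cases hy : ∃ u, BB.cls y u ∧ (A u).1.isSome = true ∧
        cnt BB (fun z => (A z).1.isSome) u = rev Q (BB.pos y) ∧ rev Q (BB.pos y) < cap
    · obtain ⟨u, a1, a2, a3, a4⟩ := hy
      obtain ⟨f1, u', f2, f3⟩ := key y v (RB.cls_symm hvy) u a1 a2 a3 a4
      rw [f1, f2, f3]
    · have e2 : A' y = emp := (hs y).2 fun u a1 a2 a3 => hy ⟨u, a1, a2, a3.1, a3.2⟩
      rw [e1, e2]

theorem rb_stage {Q : ℕ} {PL : Blk V (Q + Q)} {RB : Blk V r} (hC : Blk.Comm PL RB) {tt κ : X → ℕ} {cap : ℕ} {rv : Bool} {pr : X → Y}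
    (ht : ∀ x y, pr x = pr y → tt x = tt y) (hκ : ∀ x y, pr x = pr y → κ x = κ y) {A A' : V → Option X × Option R}
    (hs : StageSpec PL tt κ cap rv A A') (h : RBC RB pr A) : RBC RB pr A' := by
  have key : ∀ v y, RB.cls v y → ∀ u x, PL.cls v u → (A u).1 = some x → tt x = PL.pos v / 2 ^ Q →
      rkT PL tt κ A u x = (if rv then rev Q (PL.pos v % 2 ^ Q) else PL.pos v % 2 ^ Q) → rkT PL tt κ A u x < cap →
      A' v = A u ∧ ∃ u', A' y = A u' ∧ (A u).1.map pr = (A u').1.map pr := by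
    intro v y hvy u x hu h1 h2 h3 h5
    obtain ⟨c1, c2, c3⟩ := rp_nd hC hvy hu
    have htt := RB.pos_lt y
    have h4 := h u (RB.nd u (RB.pos y)) (RB.cls_nd u htt)
    obtain ⟨x', d1, d2⟩ := rp_map h4 x h1
    have d3 := rp_rk hC ht hκ h u htt d2
    refine ⟨(hs v).1 u x hu h1 h2 h3 h5, RB.nd u (RB.pos y), ?_, h4⟩
    refine (hs y).1 _ x' c1 d1 ?_ ?_ ?_
    · rw [← ht _ _ d2, c3]
      exact h2
    · rw [d3, c3]
      exact h3
    · rw [d3]
      exact h5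
  intro v y hvy
  by_cases hv : ∃ u x, PL.cls v u ∧ (A u).1 = some x ∧ tt x = PL.pos v / 2 ^ Q ∧
      rkT PL tt κ A u x = (if rv then rev Q (PL.pos v % 2 ^ Q) else PL.pos v % 2 ^ Q) ∧ rkT PL tt κ A u x < cap
  · obtain ⟨u, x, a1, a2, a3, a4, a5⟩ := hv
    obtain ⟨e1, u', e2, e3⟩ := key v y hvy u x a1 a2 a3 a4 a5
    rw [e1, e2, e3]
  · have e1 : A' v = emp := (hs v).2 fun u x a1 a2 a3 => hv ⟨u, x, a1, a2, a3.1, a3.2.1, a3.2.2⟩
    by_cases hy : ∃ u x, PL.cls y u ∧ (A u).1 = some x ∧ tt x = PL.pos y / 2 ^ Q ∧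
        rkT PL tt κ A u x = (if rv then rev Q (PL.pos y % 2 ^ Q) else PL.pos y % 2 ^ Q) ∧ rkT PL tt κ A u x < cap
    · obtain ⟨u, x, a1, a2, a3, a4, a5⟩ := hy
      obtain ⟨f1, u', f2, f3⟩ := key y v (RB.cls_symm hvy) u x a1 a2 a3 a4 a5
      rw [f1, f2, f3]
    · have e2 : A' y = emp := (hs y).2 fun u x a1 a2 a3 => hy ⟨u, x, a1, a2, a3.1, a3.2.1, a3.2.2⟩
      rw [e1, e2]

theorem comm_bits_rb {B : Blk V m} {RB : Blk V r} (hC : Blk.Comm B RB) {i l : ℕ} (h : i + l ≤ m) : Blk.Comm (B.bits i l h) RB := by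
  have h1 := comm_bits hC h (show 0 + r ≤ r by omega)
  rwa [bits_all] at h1

private theorem rp_prod {m l : ℕ} {BS : Blk V m} {BE : Blk V l} (h : Blk.Comm BS BE) {RB : Blk V r}
    (h1 : Blk.Comm BS RB) (h2 : Blk.Comm BE RB) : Blk.Comm (Blk.prod BS BE h) RB := by
  have hs0 : ∀ s : ℕ, s % 2 ^ l < 2 ^ l := fun s => Nat.mod_lt _ (by positivity)
  have hs1 : ∀ s : ℕ, s < 2 ^ (m + l) → s / 2 ^ l < 2 ^ m := by
    intro s hs
    rw [Nat.div_lt_iff_lt_mul (by positivity), ← pow_add]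
    exact hs
  refine ⟨?_, ?_, ?_⟩
  · intro v t ht
    show BS.pos (RB.nd v t) * 2 ^ l + BE.pos (RB.nd v t) = BS.pos v * 2 ^ l + BE.pos v
    rw [h1.pS v t ht, h2.pS v t ht]
  · intro v s hs
    show RB.pos (BS.nd (BE.nd v (s % 2 ^ l)) (s / 2 ^ l)) = RB.pos v
    rw [h1.pE _ _ (hs1 s hs), h2.pE _ _ (hs0 s)]
  · intro v s t hs ht
    show BS.nd (BE.nd (RB.nd v t) (s % 2 ^ l)) (s / 2 ^ l) = RB.nd (BS.nd (BE.nd v (s % 2 ^ l)) (s / 2 ^ l)) t
    rw [h2.com v _ t (hs0 s) ht, h1.com _ _ t (hs1 s hs) ht]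

theorem comm_pln {g Q Z : ℕ} (B : Blk V m) (hm : m = g + Q + Z * Q) {RB : Blk V r} (hC : Blk.Comm B RB) (jj : ℕ) (hj : jj < Z) :
    Blk.Comm (Pln B hm jj hj) RB := by
  unfold Pln
  exact rp_prod _ (comm_bits_rb hC _) (comm_bits_rb hC _)

end Pool.Agent.H31.HS
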