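import Mathlib
import Pool.Agent.H31.HS.RDef
import Pool.Agent.H31.HS.RPure
import Pool.Agent.H31.HS.Bfx
import Pool.Agent.H31.HS.Sums
import Pool.Agent.H31.HS.LinF

/-!
# PS1: sorting a plane with replicas: ranks

`prk PL κ a v`: number of places of the class of `v` whose item has a smaller key than that of `v` (`kv`, so for an empty `v`: number of all items).
`E = RB.bits 0 (Q+Q)` (`lines_bits`; commutes with `PL`: `comm_symm`, `comm_bits_rb`).  `bfx` with `BS = PL`, `BE = E` for the item `((a v w).1.map κ, none)` (at most `S + 1` values: `Sm.sz`, `Sz.comp`): `v` knows the key label of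
`PL.nd v (E.pos v)`; `h v w = 1` if this key is smaller (`none` = infinity) than the own one, else `0`; `lsum` for `E`: at the node `E.nd v t` the own key is that of `v` (`RBC`, the `E`-class is contained in the `RB`-class:
`bits_cls`), and the other key is that of `PL.nd (E.nd v t) t = E.nd (PL.nd v t) t`, the same as that of `PL.nd v t` (`RBC`).  So the sum is `prk`.  Cost `(2q + 2q) * r0`.
-/

set_option autoImplicit false

namespace Pool.Agent.H31.HS

variable {V Ω R X : Type} {Q r k q r0 Lam W S : ℕ}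

/-- Number of places with smaller key. -/
noncomputable def prk {l : ℕ} (PL : Blk V l) (κ : X → ℕ) (a : V → Option X × Option R) (v : V) : ℕ :=
  ((Finset.range (2 ^ l)).filter (fun t => kv (fun x : X × Option R => κ x.1) (a (PL.nd v t)) < kv (fun x : X × Option R => κ x.1) (a v))).card

private def ps1G (x : Option ℕ) : WithTop ℕ :=
  match x with
  | none => ⊤
  | some n => (n : WithTop ℕ)

private theorem ps1_kv (κ : X → ℕ) (x : Option X × Option R) :
    kv (fun x : X × Option R => κ x.1) x = ps1G (x.1.map κ) := by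
  rcases x with ⟨x, r⟩
  cases x <;> rfl

private theorem ps1_cast {m i l i' l' n : ℕ} {M : Mach V Ω R} (B : Blk V m) (hi : i = i') (hl : l = l')
    (h : i + l ≤ m) (h' : i' + l' ≤ m) (hL : Lines M Lam (B.bits i l h) k n r0) :
    Lines M Lam (B.bits i' l' h') k n r0 := by
  subst hi hl
  exact hL

theorem ps_rank {M : Mach V Ω R} {PL : Blk V (Q + Q)} {RB : Blk V (5 * Q)} (hC : Blk.Comm PL RB) (hQ : Q = k * q)
    (hL : Lines M Lam PL k (q + q) r0) (hR : Lines M Lam RB k (5 * q) r0) (hW : 2 ^ (Q + Q) < W) (hS : 1 ≤ S) (hl : S * W ^ 2 ≤ Lam)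
    (κ : X → ℕ) (P : M.Pl) (a : V → Ω → Option X × Option R) (hs : Sm S a) (ha : ∀ v, M.Has P v (a v))
    (hr : ∀ w, RBC RB κ (fun v => a v w)) :
    M.Do (4 * q * r0) P (fun P' => ∀ v, M.Knows P' v (fun w => prk PL κ (fun u => a u w) v)) := by
  classical
  have hW2 : 2 ≤ W := by
    have h1 : 1 ≤ 2 ^ (Q + Q) := Nat.one_le_two_pow
    omega
  have hWW : W * 2 ≤ W ^ 2 := by
    rw [sq]
    exact Nat.mul_le_mul_left _ hW2
  have hSW : W ^ 2 ≤ S * W ^ 2 := Nat.le_mul_of_pos_left _ hS
  have hSW2 : S * 4 ≤ S * W ^ 2 := Nat.mul_le_mul_left _ (by omega)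
  have hle : 0 + (Q + Q) ≤ 5 * Q := by omega
  have hE : Lines M Lam (RB.bits 0 (Q + Q) hle) k (q + q) r0 := by
    have h1 : k * 0 + k * (q + q) ≤ 5 * Q := by
      rw [hQ]
      nlinarith
    refine ps1_cast RB (by simp) ?_ h1 hle (lines_bits hR (by omega) h1)
    rw [hQ]
    ring
  have hCE : Blk.Comm PL (RB.bits 0 (Q + Q) hle) := comm_symm (comm_bits_rb (comm_symm hC) hle)
  have hEc : ∀ v u, (RB.bits 0 (Q + Q) hle).cls v u → RB.cls v u := fun v u h => ((bits_cls RB hle v u).1 h).1
  revert hE hCE hEc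
  generalize RB.bits 0 (Q + Q) hle = E
  intro hE hCE hEc
  have hkey : ∀ (w : Ω) v u, E.cls v u → (a v w).1.map κ = (a u w).1.map κ := fun w v u h => hr w v u (hEc v u h)
  have e1 : 4 * q * r0 = (q + q) * r0 + (q + q) * r0 := by ring
  rw [e1]
  have hsz : Sz (S + 1) (fun v w => ((fun v w => (((a v w).1.map κ : Option ℕ), (none : Option R))) v w).1) :=
    hs.sz.comp (Option.map κ)
  refine (bfx hCE hL (show (S + 1) + 1 ≤ Lam by omega) P
    (fun v w => (((a v w).1.map κ : Option ℕ), (none : Option R))) hsz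
    (fun v => ((ha v).label.comp (Option.map κ)).has)).bind ?_
  intro P' he hP'
  have hk : ∀ v, M.Knows P' v (fun w => if ps1G ((a (PL.nd v (E.pos v)) w).1.map κ) < ps1G ((a v w).1.map κ) then 1 else 0) := by
    intro v
    exact (hP' v).label.comp2 (((ha v).mono he).label) (fun x y => if ps1G x < ps1G (y.map κ) then 1 else 0)
  refine (lsum hE (show 2 ^ (Q + Q) + 1 ≤ Lam by omega) P'
    (fun v w => if ps1G ((a (PL.nd v (E.pos v)) w).1.map κ) < ps1G ((a v w).1.map κ) then 1 else 0) hk ?_).mono le_rfl ?_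
  · intro v w
    refine (Finset.sum_le_card_nsmul _ _ 1 (fun t _ => ?_)).trans ?_
    · split_ifs <;> omega
    · simp
  · intro P'' _ hP'' v
    refine (hP'' v).triv fun w => ?_
    unfold prk
    rw [Finset.card_filter]
    refine Finset.sum_congr rfl fun t ht => ?_
    rw [Finset.mem_range] at ht
    rw [ps1_kv, ps1_kv, E.pos_nd v t ht, hCE.com v t t ht ht, ← hkey w v _ (E.cls_nd v ht),
      ← hkey w (PL.nd v t) _ (E.cls_nd (PL.nd v t) ht)]

end Pool.Agent.H31.HS
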