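import Mathlib
import Pool.Agent.H31.HS.PS1
import Pool.Agent.H31.HS.WDef
import Pool.Agent.H31.HS.BitF3

/-!
# PS2: sorting a plane with replicas: the setting for wide routing with chunks of one digit (pure)

`B2 = prod PL (RB.bits 0 (4Q+k))`, number of bits `2Q + (4Q+k) = 4Q + k + (2q) k`: layers = `4Q` bits, balance chunk = one digit, units = the places of the plane (`Z = 2 q` chunks of `k` bits).
`uni_B2`: unit number = `PL.pos`, and `(Uni B2 _).nd v p = PL.nd v p` (`prod_bits_high`; the number of bits `2 * q * k` is `Q + Q`: check `pos` and `nd` directly from the definitions of `bits` and `prod`).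
`dlt16 v = some (16 * prk v)` if `v` is occupied, else `none`.
`dlok16`: `unit`: nodes `v`, `u` of a class of `B2` with the same `PL.pos`: `u` is in the `RB`-class of `v`, so the keys are the same (`RBC`), and the whole `PL`-classes have the same keys (commutation), so `dlt16` is the same.
`lt`: `16 * prk < 2^(2Q)`: `prk v` of an occupied `v` is smaller than the number of occupied places of the class, which is at most `2^(2Q) / 16`.  `inj`: different occupied places of a `PL`-class have different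
ranks (`Dist`); in a class of `B2` reduce to one `PL`-class with `RBC`.  `dens` (`c1 = 0`): the values are different multiples of 16; an aligned interval of length `2^i`, `i = (Z-j) k ≥ k ≥ 4`, contains `2^(i-4)`
multiples of 16: `16 * card ≤ 2^i` (injection `p ↦ prk`, values in an aligned interval of length `2^(i-4)`).
-/

set_option autoImplicit false

namespace Pool.Agent.H31.HS

variable {V R X : Type} {Q k q : ℕ}

/-- The numbering for the inner wide routing. -/
def B2 (PL : Blk V (Q + Q)) (RB : Blk V (5 * Q)) (hC : Blk.Comm PL RB) (hk : 0 + (4 * Q + k) ≤ 5 * Q) : Blk V (Q + Q + (4 * Q + k)) :=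
  Blk.prod PL (RB.bits 0 (4 * Q + k) hk) (comm_symm (comm_bits_rb (comm_symm hC) hk))

theorem hm2 (hQ : Q = k * q) : Q + Q + (4 * Q + k) = 4 * Q + k + 2 * q * k := by
  rw [hQ]
  ring

/-- Targets: 16 times the rank. -/
noncomputable def dlt16 (PL : Blk V (Q + Q)) (κ : X → ℕ) (a : V → Option X × Option R) (v : V) : Option ℕ :=
  if (a v).1.isSome then some (16 * prk PL κ a v) else none

private theorem s2_gen {m l l' : ℕ} {BS : Blk V m} {BE : Blk V l} (h : Blk.Comm BS BE) (hl : l' = m) (h2 : l + l' ≤ m + l) (v : V) :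
    ((Blk.prod BS BE h).bits l l' h2).pos v = BS.pos v ∧ ∀ p, p < 2 ^ m → ((Blk.prod BS BE h).bits l l' h2).nd v p = BS.nd v p := by
  subst hl
  have h3 : (Blk.prod BS BE h).bits l l' h2 = BS := by
    have h4 := prod_bits_high h (i := 0) (l' := l') (by omega) (by omega)
    rw [bits_all] at h4
    exact h4
  rw [h3]
  exact ⟨rfl, fun _ _ => rfl⟩

theorem uni_B2 (PL : Blk V (Q + Q)) (RB : Blk V (5 * Q)) (hC : Blk.Comm PL RB) (hk : 0 + (4 * Q + k) ≤ 5 * Q) (hQ : Q = k * q) (v : V) :
    (Uni (B2 PL RB hC hk) (hm2 hQ)).pos v = PL.pos v ∧ ∀ p, p < 2 ^ (Q + Q) → (Uni (B2 PL RB hC hk) (hm2 hQ)).nd v p = PL.nd v p := by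
  have hl : 2 * q * k = Q + Q := by
    rw [hQ]
    ring
  exact s2_gen (comm_symm (comm_bits_rb (comm_symm hC) hk)) hl (by omega) v

private theorem s2_kv {κ : X → ℕ} {x y : Option X × Option R} (h : x.1.map κ = y.1.map κ) :
    kv (fun x : X × Option R => κ x.1) x = kv (fun x : X × Option R => κ x.1) y := by
  obtain ⟨x1, x2⟩ := x
  obtain ⟨y1, y2⟩ := y
  unfold kv
  cases x1 with
  | none =>
    cases y1 with
    | none => rfl
    | some y => simp at h
  | some x =>
    cases y1 with
    | none => simp at h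
    | some y =>
      have h1 : κ x = κ y := by simpa using h
      simp only [h1]

private theorem s2_some {κ : X → ℕ} {x y : Option X × Option R} (h : x.1.map κ = y.1.map κ) : x.1.isSome = y.1.isSome := by
  have h1 : (x.1.map κ).isSome = (y.1.map κ).isSome := by rw [h]
  simpa using h1

private theorem s2_top {κ : X → ℕ} {x : Option X × Option R} {y : WithTop ℕ} (h : kv (fun x : X × Option R => κ x.1) x < y) : x.1.isSome = true := by
  obtain ⟨x1, x2⟩ := x
  cases x1 with
  | none =>
    have h1 : (⊤ : WithTop ℕ) < y := h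
    exact absurd h1 not_top_lt
  | some x => rfl

/-- same rank on replicas -/
private theorem s2_prk {l r : ℕ} {PL : Blk V l} {RB : Blk V r} (hC : Blk.Comm PL RB) {κ : X → ℕ} {a : V → Option X × Option R}
    (hr : RBC RB κ a) {v u : V} (h : RB.cls v u) : prk PL κ a v = prk PL κ a u := by
  unfold prk
  congr 1
  refine Finset.filter_congr fun t ht => ?_
  rw [Finset.mem_range] at ht
  have h1 : RB.nd v (RB.pos u) = u := h
  have h3 := hC.com v t (RB.pos u) ht (RB.pos_lt u)
  rw [h1] at h3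
  have h4 := hr (PL.nd v t) (RB.nd (PL.nd v t) (RB.pos u)) (RB.cls_nd _ (RB.pos_lt u))
  rw [← h3] at h4
  rw [s2_kv h4, s2_kv (hr v u h)]

private theorem s2_dlt {l r : ℕ} {PL : Blk V (l + l)} {RB : Blk V r} (hC : Blk.Comm PL RB) {κ : X → ℕ} {a : V → Option X × Option R}
    (hr : RBC RB κ a) {v u : V} (h : RB.cls v u) : dlt16 PL κ a v = dlt16 PL κ a u := by
  unfold dlt16
  rw [s2_prk hC hr h, s2_some (hr v u h)]

/-- ranks in one class are different -/
private theorem s2_lt {l : ℕ} {PL : Blk V l} {κ : X → ℕ} {a : V → Option X × Option R} {v u : V} (h : PL.cls v u)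
    (hl : kv (fun x : X × Option R => κ x.1) (a v) < kv (fun x : X × Option R => κ x.1) (a u)) :
    prk PL κ a v < prk PL κ a u := by
  unfold prk
  refine Finset.card_lt_card ?_
  rw [Finset.ssubset_iff_of_subset]
  · refine ⟨PL.pos v, ?_, ?_⟩
    · rw [Finset.mem_filter, Finset.mem_range]
      refine ⟨PL.pos_lt v, ?_⟩
      rw [PL.nd_of_cls h (PL.pos_lt v), PL.nd_pos]
      exact hl
    · rw [Finset.mem_filter, PL.nd_pos]
      exact fun hc => absurd hc.2 (lt_irrefl _)
  · intro t ht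
    rw [Finset.mem_filter, Finset.mem_range] at ht ⊢
    rw [PL.nd_of_cls h ht.1]
    exact ⟨ht.1, ht.2.trans hl⟩

private theorem s2_inj {l : ℕ} {PL : Blk V l} {κ : X → ℕ} {a : V → Option X × Option R} (hd : Dist PL (fun x => κ x.1) a) {v u : V}
    (h : PL.cls v u) (h1 : (a v).1.isSome = true) (h2 : (a u).1.isSome = true) (he : prk PL κ a v = prk PL κ a u) : v = u := by
  by_contra hc
  rcases lt_trichotomy (kv (fun x : X × Option R => κ x.1) (a v)) (kv (fun x : X × Option R => κ x.1) (a u)) with h3 | h3 | h3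
  · have := s2_lt h h3
    omega
  · exact hc (hd v u h h1 h2 h3)
  · have := s2_lt (PL.cls_symm h) h3
    omega

private theorem s2_dec {l : ℕ} {PL : Blk V (l + l)} {κ : X → ℕ} {a : V → Option X × Option R} {v : V} {e : ℕ}
    (h : dlt16 PL κ a v = some e) : (a v).1.isSome = true ∧ e = 16 * prk PL κ a v := by
  unfold dlt16 at h
  by_cases h1 : (a v).1.isSome = true
  · rw [if_pos h1] at h
    exact ⟨h1, (Option.some.inj h).symm⟩
  · rw [if_neg h1] at h
    exact absurd h (by simp)

private theorem s2_bd {l : ℕ} {PL : Blk V l} {κ : X → ℕ} {a : V → Option X × Option R} {v : V}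
    (ho : 16 * occ PL (fun u => (a u).1.isSome) v l ≤ 2 ^ l) (h1 : (a v).1.isSome = true) : 16 * prk PL κ a v < 2 ^ l := by
  have h2 : prk PL κ a v < occ PL (fun u => (a u).1.isSome) v l := by
    unfold prk occ
    rw [Nat.div_eq_of_lt (PL.pos_lt v)]
    refine Finset.card_lt_card ?_
    rw [Finset.ssubset_iff_of_subset]
    · refine ⟨PL.pos v, ?_, ?_⟩
      · rw [Finset.mem_filter, Finset.mem_range]
        refine ⟨PL.pos_lt v, ?_⟩
        rw [Nat.zero_mul, Nat.zero_add, PL.nd_pos]
        exact h1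
      · rw [Finset.mem_filter, PL.nd_pos]
        exact fun hc => absurd hc.2 (lt_irrefl _)
    · intro t ht
      rw [Finset.mem_filter, Finset.mem_range] at ht ⊢
      rw [Nat.zero_mul, Nat.zero_add]
      exact ⟨ht.1, s2_top ht.2⟩
  omega

theorem dlok16 (PL : Blk V (Q + Q)) (RB : Blk V (5 * Q)) (hC : Blk.Comm PL RB) (hk : 0 + (4 * Q + k) ≤ 5 * Q) (hQ : Q = k * q)
    (hk4 : 4 ≤ k) {κ : X → ℕ} {a : V → Option X × Option R} (hd : Dist PL (fun x => κ x.1) a) (hr : RBC RB κ a)
    (ho : ∀ v, 16 * occ PL (fun u => (a u).1.isSome) v (Q + Q) ≤ 2 ^ (Q + Q)) :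
    DlOK (B2 PL RB hC hk) (hm2 hQ) 0 (dlt16 PL κ a) := by
  have hl : 2 * q * k = Q + Q := by
    rw [hQ]
    ring
  have hCb := comm_symm (comm_bits_rb (comm_symm hC) hk)
  have hcls : ∀ v u, (B2 PL RB hC hk).cls v u → ∃ z, RB.cls v z ∧ PL.pos z = PL.pos v ∧ PL.cls z u := by
    intro v u h
    obtain ⟨z, h1, h2⟩ := (prod_cls hCb v u).1 h
    refine ⟨z, ((bits_cls RB hk v z).1 h1).1, ?_, h2⟩
    have h3 := hCb.pS v _ ((RB.bits 0 (4 * Q + k) hk).pos_lt z)
    have h4 : (RB.bits 0 (4 * Q + k) hk).nd v ((RB.bits 0 (4 * Q + k) hk).pos z) = z := h1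
    rw [h4] at h3
    exact h3
  refine ⟨?_, ?_, ?_, ?_⟩
  · intro v u h hp
    rw [(uni_B2 PL RB hC hk hQ v).1, (uni_B2 PL RB hC hk hQ u).1] at hp
    obtain ⟨z, h1, h2, h3⟩ := hcls v u h
    have h4 : z = u := PL.eq_of_cls h3 (by rw [h2, hp])
    subst h4
    exact s2_dlt hC hr h1
  · intro v e h
    obtain ⟨h1, h2⟩ := s2_dec h
    rw [hl, h2]
    exact s2_bd (ho v) h1
  · intro v u e h h1 h2
    rw [(uni_B2 PL RB hC hk hQ v).1, (uni_B2 PL RB hC hk hQ u).1]
    obtain ⟨z, h3, h4, h5⟩ := hcls v u h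
    rw [s2_dlt hC hr h3] at h1
    obtain ⟨a1, a2⟩ := s2_dec h1
    obtain ⟨b1, b2⟩ := s2_dec h2
    have h6 : z = u := s2_inj hd h5 a1 b1 (by omega)
    rw [← h4, h6]
  · intro v j hj a'
    obtain ⟨i, hi⟩ : ∃ i, (2 * q - j) * k = i + 4 := by
      have h1 : 1 * k ≤ (2 * q - j) * k := Nat.mul_le_mul_right _ (by omega)
      exact ⟨(2 * q - j) * k - 4, by omega⟩
    rw [hi, hl]
    have h2 : ((Finset.range (2 ^ (Q + Q))).filter fun p => ∃ t, dl (B2 PL RB hC hk) (hm2 hQ) (dlt16 PL κ a) v p = some t ∧ t / 2 ^ (i + 4) = a').card ≤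
        (Finset.Ico (a' * 2 ^ i) ((a' + 1) * 2 ^ i)).card := by
      have key : ∀ p, p < 2 ^ (Q + Q) → ∀ t, dl (B2 PL RB hC hk) (hm2 hQ) (dlt16 PL κ a) v p = some t →
          (a (PL.nd v p)).1.isSome = true ∧ t = 16 * prk PL κ a (PL.nd v p) := by
        intro p hp t h
        unfold dl at h
        rw [(uni_B2 PL RB hC hk hQ v).2 p hp] at h
        exact s2_dec h
      refine Finset.card_le_card_of_injOn (fun p => prk PL κ a (PL.nd v p)) ?_ ?_
      · intro p hp
        rw [Finset.mem_coe, Finset.mem_filter, Finset.mem_range] at hp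
        obtain ⟨hp1, t, h3, h4⟩ := hp
        obtain ⟨-, h5⟩ := key p hp1 t h3
        have h6 : (2 : ℕ) ^ (i + 4) = 2 ^ i * 16 := by
          rw [pow_add]
          norm_num
        rw [h5, h6, mul_comm 16, Nat.mul_div_mul_right _ _ (by norm_num)] at h4
        have h7 := Nat.div_add_mod (prk PL κ a (PL.nd v p)) (2 ^ i)
        have h8 := Nat.mod_lt (prk PL κ a (PL.nd v p)) (show 0 < 2 ^ i by positivity)
        rw [h4] at h7
        rw [Finset.mem_coe, Finset.mem_Ico]
        show a' * 2 ^ i ≤ prk PL κ a (PL.nd v p) ∧ prk PL κ a (PL.nd v p) < (a' + 1) * 2 ^ i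
        rw [add_mul, one_mul, mul_comm a']
        omega
      · intro p hp p' hp' he
        rw [Finset.mem_coe, Finset.mem_filter, Finset.mem_range] at hp hp'
        obtain ⟨hp1, t, h3, -⟩ := hp
        obtain ⟨hp1', t', h3', -⟩ := hp'
        obtain ⟨h5, -⟩ := key p hp1 t h3
        obtain ⟨h5', -⟩ := key p' hp1' t' h3'
        have hc : PL.cls (PL.nd v p) (PL.nd v p') := by
          unfold Blk.cls
          rw [PL.pos_nd v p' hp1', PL.nd_nd v p p' hp1 hp1']
        have h6 := s2_inj hd hc h5 h5' he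
        rw [← PL.pos_nd v p hp1, h6, PL.pos_nd v p' hp1']
    rw [Nat.card_Ico] at h2
    have h3 : (a' + 1) * 2 ^ i - a' * 2 ^ i = 2 ^ i := by
      rw [add_mul, one_mul, Nat.add_sub_cancel_left]
    rw [h3] at h2
    calc 2 ^ (0 + 4) * _ ≤ 2 ^ (0 + 4) * 2 ^ i := Nat.mul_le_mul_left _ h2
      _ = 2 ^ (i + 4) := by
        rw [← pow_add]
        congr 1
        omega

end Pool.Agent.H31.HS
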