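import Mathlib
import Pool.Agent.H31.HS.WBas

/-!
# WSrc: the nodes `src`, and `dl`

`src B hm v p b = (Lyr B hm).nd v (p * 2^Q + b)` with `p * 2^Q + b < 2^(Z*Q+Q)`; `pos_nd`, `lyr_pos` give the unit and balance numbers (division with remainder by `2^Q`).
`dl`: `(Uni B hm).nd v p` has unit number `p` and is in the `B`-class of `v` (`uni_cls`, `lyr_cls`).
-/

set_option autoImplicit false

namespace Pool.Agent.H31.HS

variable {V : Type} {m g Q Z : ℕ} (B : Blk V m) (hm : m = g + Q + Z * Q)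

private theorem ws_lt {p b : ℕ} (hp : p < 2 ^ (Z * Q)) (hb : b < 2 ^ Q) : p * 2 ^ Q + b < 2 ^ (Z * Q + Q) := by
  have h1 : (p + 1) * 2 ^ Q ≤ 2 ^ (Z * Q) * 2 ^ Q := Nat.mul_le_mul_right _ hp
  rw [← pow_add] at h1
  nlinarith

private theorem ws_split {x y x' y' N : ℕ} (hy : y < N) (hy' : y' < N) (h : x * N + y = x' * N + y') :
    x = x' ∧ y = y' := by
  have h0 : 0 < N := by omega
  have h1 : (x * N + y) / N = x := by
    rw [mul_comm, Nat.mul_add_div h0, Nat.div_eq_of_lt hy, add_zero]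
  have h2 : (x' * N + y') / N = x' := by
    rw [mul_comm, Nat.mul_add_div h0, Nat.div_eq_of_lt hy', add_zero]
  have h3 : x = x' := by rw [← h1, ← h2, h]
  subst h3
  exact ⟨rfl, by omega⟩

private theorem ws_pos (v : V) {p b : ℕ} (hp : p < 2 ^ (Z * Q)) (hb : b < 2 ^ Q) :
    (Uni B hm).pos (src B hm v p b) = p ∧ (Bal B hm).pos (src B hm v p b) = b := by
  have h1 : (Lyr B hm).pos (src B hm v p b) = p * 2 ^ Q + b := (Lyr B hm).pos_nd v _ (ws_lt hp hb)
  rw [lyr_pos] at h1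
  exact ws_split ((Bal B hm).pos_lt _) hb h1

theorem src_cls (v : V) {p b : ℕ} (hp : p < 2 ^ (Z * Q)) (hb : b < 2 ^ Q) : (Lyr B hm).cls v (src B hm v p b) := by
  exact (Lyr B hm).cls_nd v (ws_lt hp hb)

theorem src_uni (v : V) {p b : ℕ} (hp : p < 2 ^ (Z * Q)) (hb : b < 2 ^ Q) : (Uni B hm).pos (src B hm v p b) = p := by
  exact (ws_pos B hm v hp hb).1

theorem src_bal (v : V) {p b : ℕ} (hp : p < 2 ^ (Z * Q)) (hb : b < 2 ^ Q) : (Bal B hm).pos (src B hm v p b) = b := by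
  exact (ws_pos B hm v hp hb).2

theorem src_self (v : V) : src B hm v ((Uni B hm).pos v) ((Bal B hm).pos v) = v := by
  unfold src
  rw [← lyr_pos, Blk.nd_pos]

theorem src_of_cls {v u : V} (h : (Lyr B hm).cls v u) {p b : ℕ} (hp : p < 2 ^ (Z * Q)) (hb : b < 2 ^ Q) :
    src B hm u p b = src B hm v p b := by
  exact (Lyr B hm).nd_of_cls h (ws_lt hp hb)

/-- The node with unit `p` and the same balance and layer number. -/
theorem uni_nd (v : V) {p : ℕ} (hp : p < 2 ^ (Z * Q)) : (Uni B hm).nd v p = src B hm v p ((Bal B hm).pos v) := by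
  have hb := (Bal B hm).pos_lt v
  have h1 := (uni_cls B hm v _).1 ((Uni B hm).cls_nd v hp)
  have h2 := src_cls B hm v hp hb
  refine (Lyr B hm).eq_of_cls ((Lyr B hm).cls_trans ((Lyr B hm).cls_symm h1.1) h2) ?_
  rw [lyr_pos, lyr_pos, src_uni B hm v hp hb, src_bal B hm v hp hb, (Uni B hm).pos_nd v p hp, ← h1.2]

theorem dl_src {δ : V → Option ℕ} (h : ∀ v u, B.cls v u → (Uni B hm).pos v = (Uni B hm).pos u → δ v = δ u) (v : V) {p b : ℕ}
    (hp : p < 2 ^ (Z * Q)) (hb : b < 2 ^ Q) : δ (src B hm v p b) = dl B hm δ v p := by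
  unfold dl
  have h1 := (uni_cls B hm v _).1 ((Uni B hm).cls_nd v hp)
  have h2 := src_cls B hm v hp hb
  have h3 := ((lyr_cls B hm _ _).1 h1.1).1
  have h4 := ((lyr_cls B hm _ _).1 h2).1
  refine h _ _ (B.cls_trans (B.cls_symm h4) h3) ?_
  rw [src_uni B hm v hp hb, (Uni B hm).pos_nd v p hp]

theorem dl_cls {δ : V → Option ℕ} (h : ∀ v u, B.cls v u → (Uni B hm).pos v = (Uni B hm).pos u → δ v = δ u) {v u : V} (hc : B.cls v u)
    {p : ℕ} (hp : p < 2 ^ (Z * Q)) : dl B hm δ v p = dl B hm δ u p := by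
  unfold dl
  have h1 := (uni_cls B hm v _).1 ((Uni B hm).cls_nd v hp)
  have h2 := (uni_cls B hm u _).1 ((Uni B hm).cls_nd u hp)
  have h3 := ((lyr_cls B hm _ _).1 h1.1).1
  have h4 := ((lyr_cls B hm _ _).1 h2.1).1
  refine h _ _ (B.cls_trans (B.cls_symm h3) (B.cls_trans hc h4)) ?_
  rw [(Uni B hm).pos_nd v p hp, (Uni B hm).pos_nd u p hp]

theorem dl_self {δ : V → Option ℕ} (v : V) : dl B hm δ v ((Uni B hm).pos v) = δ v := by
  unfold dl
  rw [Blk.nd_pos]

end Pool.Agent.H31.HS
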