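import Mathlib
import Pool.Agent.H31.HS.WSrc

/-!
# WEnd: complete layers (pure part)

`nIt A v` = number of occupied places of the layer of `v`, `nDom δ v` = number of units `p` with `δ_p ≠ none`; the layer is complete if `nIt = 2^Q * nDom`.
The map (occupied place) ↦ `(p, b)` is an injection (`i3`) into the set of pairs with `δ_p ≠ none`, `b < 2^Q` (`i1`, `dl_src`), which has `2^Q * nDom` elements; it is surjective if the layer is not bad
(`i5`): `end_good`.
`end_content`: complete: so it is surjective: every `(p, b)` with `δ_p ≠ none` is at some place of the layer.  Fix `v`, `e0 = unit of v`.  If `δ_p = e0` for some `p < 2^(Z*Q)`: the items `(p, b)`, `b < 2^Q`, are at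
places with unit number `e0` (`i2` with `j = Z`: division by `2^(0*Q) = 1`), that is in the balance line of `v` (`bal_cls`); these are `2^Q` different places, so all places of the line; by `hline` the
number `b` is strictly increasing along the line, so the place with balance number `β` has `b = β` (a strictly increasing map of `{0, .., 2^Q-1}` to itself; all items of the line have
`e = e0`, so the same `p` by `inj`).  So `A v` has the item `(p, bal v)`, and its content is `a0 (src v p (bal v)) = a0 ((Uni B hm).nd v p)` (`i1`, `uni_nd`).  If there is no such `p`: an item at `v` would have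
`δ (src v p b) = some e` with `e = unit of v` (`i1`, `i2`, `dl_src`), contradiction; so `A v = emp`.
-/

set_option autoImplicit false

namespace Pool.Agent.H31.HS

variable {V X R : Type} {m g Q Z : ℕ} (B : Blk V m) (hm : m = g + Q + Z * Q)

/-- Number of items of the layer. -/
def nIt (A : V → Option (Lb X) × Option R) (v : V) : ℕ :=
  ((Finset.range (2 ^ (Z * Q + Q))).filter (fun t => (A ((Lyr B hm).nd v t)).1.isSome = true)).card

/-- Number of units in the domain of `δ`. -/
def nDom (δ : V → Option ℕ) (v : V) : ℕ :=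
  ((Finset.range (2 ^ (Z * Q))).filter (fun t => (δ ((Uni B hm).nd v t)).isSome = true)).card

/-- The content of an item. -/
def cont (x : Option (Lb X) × Option R) : Option X × Option R :=
  match x.1 with
  | none => emp
  | some y => (y.2, x.2)

private theorem we_mono {n : ℕ} {F : ℕ → ℕ} (h1 : ∀ b, b < n → F b < n)
    (h2 : ∀ b c, b < c → c < n → F b < F c) : ∀ b, b < n → F b = b := by
  intro b hb
  have h3 : ∀ b, b < n → b ≤ F b := by
    intro b
    induction b with
    | zero => intro _; exact Nat.zero_le _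
    | succ b ih =>
      intro hb
      have h4 := ih (by omega)
      have h5 := h2 b (b + 1) (by omega) hb
      omega
  have h6 : ∀ k, b + k < n → F b + k ≤ F (b + k) := by
    intro k
    induction k with
    | zero => intro _; exact le_rfl
    | succ k ih =>
      intro hk
      have h7 := ih (by omega)
      have h8 := h2 (b + k) (b + (k + 1)) (by omega) hk
      omega
  have h9 := h6 (n - 1 - b) (by omega)
  have h10 := h1 (b + (n - 1 - b)) (by omega)
  have h11 := h3 b hb
  omega

/-- The pairs `(p, b)` with `p` in the domain. -/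
private def weP (δ : V → Option ℕ) (v : V) : Finset (ℕ × ℕ) :=
  ((Finset.range (2 ^ (Z * Q))).filter (fun t => (δ ((Uni B hm).nd v t)).isSome = true)) ×ˢ
    Finset.range (2 ^ Q)

private theorem we_card (δ : V → Option ℕ) (v : V) : (weP B hm δ v).card = 2 ^ Q * nDom B hm δ v := by
  unfold weP nDom
  rw [Finset.card_product, Finset.card_range, mul_comm]

private theorem we_mem {δ : V → Option ℕ} {v : V} {p b : ℕ} :
    (p, b) ∈ weP B hm δ v ↔ p < 2 ^ (Z * Q) ∧ (δ ((Uni B hm).nd v p)).isSome = true ∧ b < 2 ^ Q := by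
  unfold weP
  rw [Finset.mem_product, Finset.mem_filter, Finset.mem_range, Finset.mem_range]
  exact ⟨fun h => ⟨h.1.1, h.1.2, h.2⟩, fun h => ⟨⟨h.1, h.2.1⟩, h.2.2⟩⟩

/-- The label of an occupied place. -/
private def weF (A : V → Option (Lb X) × Option R) (v : V) (t : ℕ) : ℕ × ℕ :=
  match (A ((Lyr B hm).nd v t)).1 with
  | none => (0, 0)
  | some y => (y.1.1, y.1.2.1)

private theorem weF_eq {A : V → Option (Lb X) × Option R} {v : V} {t : ℕ} {y : Lb X}
    (h : (A ((Lyr B hm).nd v t)).1 = some y) : weF B hm A v t = (y.1.1, y.1.2.1) := by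
  unfold weF
  rw [h]

private theorem we_maps {c1 j : ℕ} {π : ℕ → Equiv.Perm (Fin (2 ^ (Z * Q)) × Fin (2 ^ Q))} {δ : V → Option ℕ} {a0 : V → Option X × Option R}
    (hδ : DlOK B hm c1 δ) {A : V → Option (Lb X) × Option R} (hA : Inv B hm c1 π δ a0 j A) (v : V) (t : ℕ)
    (ht : t ∈ (Finset.range (2 ^ (Z * Q + Q))).filter (fun t => (A ((Lyr B hm).nd v t)).1.isSome = true)) :
    weF B hm A v t ∈ weP B hm δ v := by
  rw [Finset.mem_filter, Finset.mem_range, Option.isSome_iff_exists] at ht
  obtain ⟨h1, ⟨⟨p, b, e⟩, c⟩, h2⟩ := ht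
  obtain ⟨h3, h4, h5, -⟩ := hA.i1 _ p b e c h2
  rw [src_of_cls B hm ((Lyr B hm).cls_nd v h1) h3 h4, dl_src B hm hδ.unit v h3 h4] at h5
  rw [weF_eq B hm h2, we_mem]
  refine ⟨h3, ?_, h4⟩
  have h6 : δ ((Uni B hm).nd v p) = some e := h5
  rw [h6]
  rfl

private theorem we_inj {c1 j : ℕ} {π : ℕ → Equiv.Perm (Fin (2 ^ (Z * Q)) × Fin (2 ^ Q))} {δ : V → Option ℕ} {a0 : V → Option X × Option R}
    {A : V → Option (Lb X) × Option R} (hA : Inv B hm c1 π δ a0 j A) (v : V) :
    Set.InjOn (weF B hm A v) ((Finset.range (2 ^ (Z * Q + Q))).filter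
      (fun t => (A ((Lyr B hm).nd v t)).1.isSome = true) : Finset ℕ) := by
  intro t ht s hs hts
  have ht' := Finset.mem_coe.1 ht
  have hs' := Finset.mem_coe.1 hs
  rw [Finset.mem_filter, Finset.mem_range, Option.isSome_iff_exists] at ht' hs'
  obtain ⟨h1, ⟨⟨p, b, e⟩, c⟩, h2⟩ := ht'
  obtain ⟨k1, ⟨⟨p', b', e'⟩, c'⟩, k2⟩ := hs'
  rw [weF_eq B hm h2, weF_eq B hm k2] at hts
  have h3 := Prod.mk.inj hts
  have h4 : p = p' := h3.1
  have h5 : b = b' := h3.2
  subst h4 h5
  have h6 := hA.i3 _ _ p b e c e' c' ((Lyr B hm).cls_trans ((Lyr B hm).cls_symm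
    ((Lyr B hm).cls_nd v h1)) ((Lyr B hm).cls_nd v k1)) h2 k2
  rw [← (Lyr B hm).pos_nd v t h1, h6, (Lyr B hm).pos_nd v s k1]

theorem end_good {c1 : ℕ} {π : ℕ → Equiv.Perm (Fin (2 ^ (Z * Q)) × Fin (2 ^ Q))} {δ : V → Option ℕ} {a0 : V → Option X × Option R}
    (hδ : DlOK B hm c1 δ) {A : V → Option (Lb X) × Option R} (hA : Inv B hm c1 π δ a0 Z A) (v : V)
    (hb : ¬ H69.HS.BadLayer Z Q c1 (π ((Lay B hm).pos v)) (dl B hm δ v)) : nIt B hm A v = 2 ^ Q * nDom B hm δ v := by
  rw [← we_card]
  unfold nIt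
  refine le_antisymm ?_ ?_
  · exact Finset.card_le_card_of_injOn (weF B hm A v) (fun t ht => we_maps B hm hδ hA v t ht)
      (we_inj B hm hA v)
  · rw [← Finset.card_image_of_injOn (we_inj B hm hA v)]
    refine Finset.card_le_card ?_
    rintro ⟨p, b⟩ hpb
    rw [we_mem] at hpb
    obtain ⟨h1, h2, h3⟩ := hpb
    obtain ⟨e, he⟩ := Option.isSome_iff_exists.1 h2
    have h4 : δ (src B hm v p b) = some e := by
      rw [dl_src B hm hδ.unit v h1 h3]
      exact he
    obtain ⟨u, c, h5, h6⟩ := hA.i5 v p b e h1 h3 h4 hb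
    have h7 : (Lyr B hm).nd v ((Lyr B hm).pos u) = u := h5
    refine Finset.mem_image.2 ⟨(Lyr B hm).pos u, ?_, ?_⟩
    · rw [Finset.mem_filter, Finset.mem_range, h7, h6]
      exact ⟨(Lyr B hm).pos_lt u, rfl⟩
    · exact weF_eq B hm (by rw [h7]; exact h6)

theorem end_content {c1 : ℕ} {π : ℕ → Equiv.Perm (Fin (2 ^ (Z * Q)) × Fin (2 ^ Q))} {δ : V → Option ℕ} {a0 : V → Option X × Option R}
    (hδ : DlOK B hm c1 δ) {A : V → Option (Lb X) × Option R} (hA : Inv B hm c1 π δ a0 Z A)
    (hline : ∀ v u y, (Bal B hm).cls v u → (Bal B hm).pos v < (Bal B hm).pos u → (A u).1 = some y →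
      ∃ x, (A v).1 = some x ∧ (x.1.1 = y.1.1 → x.1.2.1 < y.1.2.1)) (v : V) (hc : nIt B hm A v = 2 ^ Q * nDom B hm δ v) :
    WRSpec B hm δ a0 (fun u => cont (A u)) v := by
  have hZ : (Z - Z) * Q = 0 := by rw [Nat.sub_self, zero_mul]
  have hI2 : ∀ v p b e c, (A v).1 = some ((p, b, e), c) → (Uni B hm).pos v = e := by
    intro v p b e c h
    have h1 := (hA.i2 v p b e c h).1
    rw [hZ, pow_zero, Nat.div_one, Nat.div_one] at h1
    exact h1
  have hdl : ∀ v p b, p < 2 ^ (Z * Q) → b < 2 ^ Q →
      δ (src B hm v p b) = δ ((Uni B hm).nd v p) := fun v p b hp hb => dl_src B hm hδ.unit v hp hb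
  constructor
  · intro p hp hpe
    -- every item of the unit `p`
    have himg : ((Finset.range (2 ^ (Z * Q + Q))).filter
        (fun t => (A ((Lyr B hm).nd v t)).1.isSome = true)).image (weF B hm A v) = weP B hm δ v := by
      refine Finset.eq_of_subset_of_card_le ?_ ?_
      · intro y hy
        obtain ⟨t, ht, rfl⟩ := Finset.mem_image.1 hy
        exact we_maps B hm hδ hA v t ht
      · rw [Finset.card_image_of_injOn (we_inj B hm hA v), we_card]
        exact le_of_eq hc.symm
    have hex : ∀ b, ∃ u, b < 2 ^ Q → (Bal B hm).cls v u ∧ ∃ c, (A u).1 = some ((p, b, (Uni B hm).pos v), c) := by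
      intro b
      by_cases hb : b < 2 ^ Q
      · have h1 : (p, b) ∈ weP B hm δ v := by
          rw [we_mem, hpe]
          exact ⟨hp, rfl, hb⟩
        rw [← himg] at h1
        obtain ⟨t, ht, h2⟩ := Finset.mem_image.1 h1
        rw [Finset.mem_filter, Finset.mem_range, Option.isSome_iff_exists] at ht
        obtain ⟨h3, ⟨⟨p', b', e⟩, c⟩, h4⟩ := ht
        rw [weF_eq B hm h4] at h2
        have h5 := Prod.mk.inj h2
        have h6 : p' = p := h5.1
        have h7 : b' = b := h5.2
        subst h6 h7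
        have hcl := (Lyr B hm).cls_nd v h3
        have h8 := (hA.i1 _ p' b' e c h4).2.2.1
        rw [src_of_cls B hm hcl hp hb, hdl v p' b' hp hb, hpe] at h8
        have h9 : (Uni B hm).pos v = e := Option.some.inj h8
        rw [← h9] at h4
        refine ⟨(Lyr B hm).nd v t, fun _ => ⟨?_, c, h4⟩⟩
        rw [bal_cls]
        exact ⟨hcl, (hI2 _ _ _ _ _ h4).symm⟩
      · exact ⟨v, fun h => absurd h hb⟩
    choose U hU using hex
    have hUinj : Set.InjOn (fun b => (Bal B hm).pos (U b)) (Finset.range (2 ^ Q) : Finset ℕ) := by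
      intro b hb b' hb' hbb
      obtain ⟨h1, c, h2⟩ := hU b (Finset.mem_range.1 (Finset.mem_coe.1 hb))
      obtain ⟨h3, c', h4⟩ := hU b' (Finset.mem_range.1 (Finset.mem_coe.1 hb'))
      have h5 : U b = U b' := (Bal B hm).eq_of_cls
        ((Bal B hm).cls_trans ((Bal B hm).cls_symm h1) h3) hbb
      rw [h5, h4] at h2
      have h6 := Option.some.inj h2
      simp only [Prod.mk.injEq] at h6
      exact h6.1.2.1.symm
    have himg2 : (Finset.range (2 ^ Q)).image (fun b => (Bal B hm).pos (U b)) = Finset.range (2 ^ Q) := by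
      refine Finset.eq_of_subset_of_card_le ?_ ?_
      · intro y hy
        obtain ⟨b, -, rfl⟩ := Finset.mem_image.1 hy
        exact Finset.mem_range.2 ((Bal B hm).pos_lt _)
      · rw [Finset.card_image_of_injOn hUinj]
    have hex2 : ∀ β, ∃ b, β < 2 ^ Q → b < 2 ^ Q ∧
        ∃ c, (A ((Bal B hm).nd v β)).1 = some ((p, b, (Uni B hm).pos v), c) := by
      intro β
      by_cases hβ : β < 2 ^ Q
      · have h1 : β ∈ (Finset.range (2 ^ Q)).image (fun b => (Bal B hm).pos (U b)) := by
          rw [himg2]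
          exact Finset.mem_range.2 hβ
        obtain ⟨b, hb, h2⟩ := Finset.mem_image.1 h1
        have hb' := Finset.mem_range.1 hb
        obtain ⟨h3, c, h4⟩ := hU b hb'
        refine ⟨b, fun _ => ⟨hb', c, ?_⟩⟩
        have h5 : (Bal B hm).nd v β = U b := by
          rw [← h2]
          exact h3
        rw [h5]
        exact h4
      · exact ⟨0, fun h => absurd h hβ⟩
    choose F hF using hex2
    have hFid := we_mono (n := 2 ^ Q) (F := F) (fun b hb => (hF b hb).1) (by
      intro b b' hbb hb'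
      have hb : b < 2 ^ Q := by omega
      obtain ⟨-, c, h1⟩ := hF b hb
      obtain ⟨-, c', h2⟩ := hF b' hb'
      have h3 := hline ((Bal B hm).nd v b) ((Bal B hm).nd v b') _
        ((Bal B hm).cls_trans ((Bal B hm).cls_symm ((Bal B hm).cls_nd v hb))
          ((Bal B hm).cls_nd v hb')) (by
            rw [(Bal B hm).pos_nd v b hb, (Bal B hm).pos_nd v b' hb']
            exact hbb) h2
      obtain ⟨x, h4, h5⟩ := h3
      rw [h1] at h4
      rw [← Option.some.inj h4] at h5
      exact h5 rfl)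
    have hβ := (Bal B hm).pos_lt v
    obtain ⟨-, c, h1⟩ := hF _ hβ
    rw [hFid _ hβ, (Bal B hm).nd_pos] at h1
    have h2 := (hA.i1 v p _ _ c h1).2.2.2
    show cont (A v) = _
    rw [uni_nd B hm v hp, ← h2]
    unfold cont
    rw [h1]
  · intro hno
    show cont (A v) = emp
    rcases hx : (A v).1 with _ | ⟨⟨p, b, e⟩, c⟩
    · unfold cont
      rw [hx]
    · exfalso
      obtain ⟨h1, h2, h3, -⟩ := hA.i1 v p b e c hx
      rw [hdl v p b h1 h2] at h3
      refine hno p h1 ?_
      rw [h3, hI2 v p b e c hx]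

end Pool.Agent.H31.HS
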