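import Mathlib
import Pool.Agent.H31.HS.Uniq
import Pool.Agent.H31.HS.BitF2

/-!
# RSmall: routing of few items, `3 n` rounds

`BU`, `BT` commuting numberings with the same number `z` of bits.  Items are relevant at the nodes with `BT.pos = 0`; `dst` (a function of the label) is the wanted `BU`-number, injective.
1. `uniq` for `BT`, active: `BT.pos v = 0`: `C2 v = C (BT.nd v 0)`.  2. `uniq` for `BU` with the array `C2` restricted to the `v` with `dst (label of C2 v) = some (BT.pos v)` (in a `BU`-class `BT.pos` is constant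
and `C2 u = C (node with BT.pos = 0 and the BU-number of u)`, so by injectivity at most one active): `C3 v` = item of the class whose `dst` is `BT.pos v`.
3. `uniq` for `BT`, active: `BU.pos v = BT.pos v` and `C3 v` not empty: `b v = C3 (BT.nd v (BU.pos v))`.  For `v` with `BT.pos v = 0`: `b v` is the item `C u` with `u` in the `BU`-class of `v` and
`dst = BU.pos v`; `emp` if there is none.
-/

set_option autoImplicit false

namespace Pool.Agent.H31.HS

variable {V Ω R : Type} {z : ℕ}

/-- Restriction by a local condition on the labels, then broadcast. -/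
private theorem rs_step {M : Mach V Ω R} {Lam k n r0 S : ℕ} {B : Blk V z} (hL : Lines M Lam B k n r0) (hS : S + 1 ≤ Lam)
    {Y : Type} (P : M.Pl) (a : V → Ω → Option Y × Option R) (hs : Sm S a) (ha : ∀ v, M.Has P v (a v))
    (q : V → Option Y → Prop) (hq : ∀ v o, q v o → o.isSome = true)
    (hu : ∀ w v u, B.cls v u → q v (a v w).1 → q u (a u w).1 → v = u) :
    M.Do (n * r0) P (fun P' => ∃ b : V → Ω → Option Y × Option R, (∀ v, M.Has P' v (b v)) ∧
      ∀ w v, (∀ u, B.cls v u → q u (a u w).1 → b v w = a u w) ∧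
        ((∀ u, B.cls v u → ¬ q u (a u w).1) → b v w = emp)) := by
  classical
  obtain ⟨a', ha'⟩ : ∃ a' : V → Ω → Option Y × Option R, a' = fun v w =>
      if decide (q v (a v w).1) = true then a v w else emp := ⟨_, rfl⟩
  have e1 : ∀ v w, q v (a v w).1 → a' v w = a v w := by
    intro v w h
    rw [ha']
    exact if_pos (decide_eq_true h)
  have e2 : ∀ v w, ¬ q v (a v w).1 → a' v w = emp := by
    intro v w h
    rw [ha']
    refine if_neg ?_
    rw [decide_eq_true_iff]
    exact h
  have e3 : ∀ v w, (a' v w).1.isSome = true → q v (a v w).1 := by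
    intro v w h
    by_contra h1
    rw [e2 v w h1] at h
    exact absurd h (by simp [emp])
  have h1 : ∀ v, M.Has P v (a' v) := by
    intro v
    rw [ha']
    exact (ha v).ite (Mach.Has.emp P v) ((ha v).label.comp fun o => decide (q v o))
  have h2 : Sm S a' := by
    refine hs.of_range fun v w => ?_
    by_cases h : q v (a v w).1
    · exact Or.inr ⟨v, w, e1 v w h⟩
    · left
      rw [e2 v w h]
      rfl
  refine (uniq hL hS P a' h2 h1 ?_).mono le_rfl ?_
  · intro w v u hc h3 h4
    exact hu w v u hc (e3 v w h3) (e3 u w h4)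
  · rintro P' - ⟨b, hb1, hb2⟩
    refine ⟨b, hb1, fun w v => ⟨?_, ?_⟩⟩
    · intro u hc h3
      have h4 : b v w = a' u w := by
        refine (hb2 w v).1 u hc ?_
        show (a' u w).1.isSome = true
        rw [e1 u w h3]
        exact hq _ _ h3
      rw [h4, e1 u w h3]
    · intro h3
      refine (hb2 w v).2 fun u hc => ?_
      show (a' u w).1 = none
      rw [e2 u w (h3 u hc)]
      rfl

theorem small_route {M : Mach V Ω R} {Lam k n r0 S : ℕ} {BU BT : Blk V z} (hC : Blk.Comm BU BT) (hU : Lines M Lam BU k n r0)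
    (hT : Lines M Lam BT k n r0) (hS : S + 1 ≤ Lam) {Y : Type} (dst : Y → Option ℕ) (P : M.Pl) (C : V → Ω → Option Y × Option R)
    (hs : Sm S C) (ha : ∀ v, M.Has P v (C v))
    (hi : ∀ w v u x y e, BU.cls v u → BT.pos v = 0 → (C v w).1 = some x → (C u w).1 = some y → dst x = some e → dst y = some e → v = u) :
    M.Do (3 * n * r0) P (fun P' => ∃ b : V → Ω → Option Y × Option R, (∀ v, M.Has P' v (b v)) ∧
      (∀ v w, b v w = emp ∨ ∃ u, b v w = C u w) ∧
      ∀ w v, BT.pos v = 0 →
        (∀ u y, BU.cls v u → (C u w).1 = some y → dst y = some (BU.pos v) → b v w = C u w) ∧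
          ((∀ u y, BU.cls v u → (C u w).1 = some y → dst y ≠ some (BU.pos v)) → b v w = emp)) := by
  classical
  have hz : (0 : ℕ) < 2 ^ z := by positivity
  have hpT : ∀ v u, BU.cls v u → BT.pos v = BT.pos u := by
    intro v u h
    have h1 := hC.pE v (BU.pos u) (BU.pos_lt u)
    rw [show BU.nd v (BU.pos u) = u from h] at h1
    exact h1.symm
  have hpU : ∀ v u, BT.cls v u → BU.pos v = BU.pos u := by
    intro v u h
    have h1 := hC.pS v (BT.pos u) (BT.pos_lt u)
    rw [show BT.nd v (BT.pos u) = u from h] at h1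
    exact h1.symm
  -- moving a class of BU along BT
  have hmv : ∀ v u t, t < 2 ^ z → BU.cls v u → BU.cls (BT.nd v t) (BT.nd u t) := by
    intro v u t ht h
    have h1 := hC.com v (BU.pos u) t (BU.pos_lt u) ht
    rw [show BU.nd v (BU.pos u) = u from h] at h1
    rw [← h1]
    exact BU.cls_nd _ (BU.pos_lt u)
  -- first broadcast
  have st1 : M.Do (n * r0) P (fun P' => ∃ b : V → Ω → Option Y × Option R, (∀ v, M.Has P' v (b v)) ∧
      ∀ w v, (((C (BT.nd v 0) w).1.isSome = true → b v w = C (BT.nd v 0) w) ∧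
        ((C (BT.nd v 0) w).1.isSome ≠ true → b v w = emp))) := by
    refine (rs_step hT hS P C hs ha (fun v o => BT.pos v = 0 ∧ o.isSome = true) (fun v o h => h.2) ?_).mono le_rfl ?_
    · intro w v u hc h1 h2
      exact BT.eq_of_cls hc (by rw [h1.1, h2.1])
    · rintro P' - ⟨b, hb1, hb2⟩
      refine ⟨b, hb1, fun w v => ⟨fun h => ?_, fun h => ?_⟩⟩
      · exact (hb2 w v).1 _ (BT.cls_nd v hz) ⟨BT.pos_nd v 0 hz, h⟩
      · refine (hb2 w v).2 fun u hc h1 => h ?_
        have h2 : u = BT.nd v 0 := by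
          have h3 : BT.nd v (BT.pos u) = u := hc
          rw [h1.1] at h3
          exact h3.symm
        rw [← h2]
        exact h1.2
  have hn : 3 * n * r0 = n * r0 + (n * r0 + n * r0) := by ring
  rw [hn]
  refine st1.bind ?_
  rintro P1 - ⟨C2, hC2, hC2s⟩
  have hC2v : ∀ v w x, (C2 v w).1 = some x → C2 v w = C (BT.nd v 0) w := by
    intro v w x hx
    by_cases h : (C (BT.nd v 0) w).1.isSome = true
    · exact (hC2s w v).1 h
    · rw [(hC2s w v).2 h] at hx
      exact absurd hx (by simp [emp])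
  have hC2e : ∀ v w, C2 v w = emp ∨ C2 v w = C (BT.nd v 0) w := by
    intro v w
    by_cases h : (C (BT.nd v 0) w).1.isSome = true
    · exact Or.inr ((hC2s w v).1 h)
    · exact Or.inl ((hC2s w v).2 h)
  have hsm2 : Sm S C2 := by
    refine hs.of_range fun v w => ?_
    rcases hC2e v w with h | h
    · left
      rw [h]
      rfl
    · exact Or.inr ⟨_, w, h⟩
  -- second broadcast
  have st2 := rs_step hU hS P1 C2 hsm2 hC2 (fun v o => ∃ x, o = some x ∧ dst x = some (BT.pos v))
    (by
      rintro v o ⟨x, rfl, -⟩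
      rfl)
    (by
      rintro w v u hc ⟨x, hx, hdx⟩ ⟨y, hy, hdy⟩
      have h1 := hC2v v w x hx
      have h2 := hC2v u w y hy
      rw [h1] at hx
      rw [h2] at hy
      have h3 := hi w (BT.nd v 0) (BT.nd u 0) x y (BT.pos v) (hmv v u 0 hz hc) (BT.pos_nd v 0 hz) hx hy hdx
        (by rw [hdy, hpT v u hc])
      have h4 : BU.pos v = BU.pos u := by
        rw [hpU v _ (BT.cls_nd v hz), hpU u _ (BT.cls_nd u hz), h3]
      exact BU.eq_of_cls hc h4)
  refine st2.bind ?_
  rintro P2 - ⟨C3, hC3, hC3s⟩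
  have hC3v : ∀ v w, C3 v w = emp ∨ ∃ u, BU.cls v u ∧ (∃ x, (C2 u w).1 = some x ∧ dst x = some (BT.pos u)) ∧
      C3 v w = C2 u w := by
    intro v w
    by_cases h : ∃ u, BU.cls v u ∧ ∃ x, (C2 u w).1 = some x ∧ dst x = some (BT.pos u)
    · obtain ⟨u, h1, h2⟩ := h
      exact Or.inr ⟨u, h1, h2, (hC3s w v).1 u h1 h2⟩
    · exact Or.inl ((hC3s w v).2 fun u h1 h2 => h ⟨u, h1, h2⟩)
  have hsm3 : Sm S C3 := by
    refine hsm2.of_range fun v w => ?_
    rcases hC3v v w with h | ⟨u, -, -, h⟩
    · left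
      rw [h]
      rfl
    · exact Or.inr ⟨_, w, h⟩
  -- third broadcast
  have st3 := rs_step hT hS P2 C3 hsm3 hC3 (fun v o => BU.pos v = BT.pos v ∧ o.isSome = true) (fun v o h => h.2)
    (by
      rintro w v u hc ⟨h1, -⟩ ⟨h2, -⟩
      exact BT.eq_of_cls hc (by rw [← h1, ← h2, hpU v u hc]))
  refine st3.mono le_rfl ?_
  rintro P3 - ⟨b, hb, hbs⟩
  have hbv : ∀ v w, b v w = emp ∨ ∃ u, BT.cls v u ∧ (BU.pos u = BT.pos u ∧ (C3 u w).1.isSome = true) ∧
      b v w = C3 u w := by
    intro v w
    by_cases h : ∃ u, BT.cls v u ∧ (BU.pos u = BT.pos u ∧ (C3 u w).1.isSome = true)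
    · obtain ⟨u, h1, h2⟩ := h
      exact Or.inr ⟨u, h1, h2, (hbs w v).1 u h1 h2⟩
    · exact Or.inl ((hbs w v).2 fun u h1 h2 => h ⟨u, h1, h2⟩)
  refine ⟨b, hb, ?_, ?_⟩
  · intro v w
    rcases hbv v w with h | ⟨u, -, -, h⟩
    · exact Or.inl h
    · rcases hC3v u w with h1 | ⟨u1, -, -, h1⟩
      · left
        rw [h, h1]
      · rcases hC2e u1 w with h2 | h2
        · left
          rw [h, h1, h2]
        · right
          exact ⟨_, by rw [h, h1, h2]⟩
  · intro w v hv0
    have hv : BT.nd v 0 = v := by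
      have h1 := BT.nd_pos v
      rw [hv0] at h1
      exact h1
    constructor
    · intro u y hc hy hdy
      have hu0 : BT.nd u 0 = u := by
        have h1 := BT.nd_pos u
        rw [← hpT v u hc, hv0] at h1
        exact h1
      have he := BU.pos_lt v
      obtain ⟨e, hee⟩ : ∃ e, e = BU.pos v := ⟨_, rfl⟩
      rw [← hee] at he hdy
      have h1 : BT.nd (BT.nd u e) 0 = u := by
        rw [BT.nd_nd u e 0 he hz, hu0]
      have h2 : C2 (BT.nd u e) w = C u w := by
        have h3 := (hC2s w (BT.nd u e)).1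
        rw [h1] at h3
        refine h3 ?_
        rw [hy]
        rfl
      have h3 : C3 (BT.nd v e) w = C u w := by
        rw [← h2]
        refine (hC3s w (BT.nd v e)).1 (BT.nd u e) (hmv v u e he hc) ⟨y, ?_, ?_⟩
        · rw [h2]
          exact hy
        · rw [BT.pos_nd u e he]
          exact hdy
      have h4 : b v w = C3 (BT.nd v e) w := by
        refine (hbs w v).1 (BT.nd v e) (BT.cls_nd v he) ⟨?_, ?_⟩
        · rw [BT.pos_nd v e he, ← hpU v _ (BT.cls_nd v he), hee]
        · rw [h3, hy]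
          rfl
      rw [h4, h3]
    · intro hno
      refine (hbs w v).2 ?_
      rintro u hc ⟨h1, h2⟩
      rcases hC3v u w with h3 | ⟨u', h4, ⟨x, h5, h6⟩, h7⟩
      · rw [h3] at h2
        exact absurd h2 (by simp [emp])
      · have h8 := hC2v u' w x h5
        rw [h8] at h5
        refine hno (BT.nd u' 0) x ?_ h5 ?_
        · have h9 := hmv u u' 0 hz h4
          rw [BT.nd_of_cls hc hz, hv] at h9
          exact h9
        · rw [h6, ← hpT u u' h4, ← h1, hpU v u hc]

end Pool.Agent.H31.HS
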