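import Mathlib
import Pool.Agent.H31.HS.LinF
import Pool.Agent.H31.HS.WDef

/-!
# WLin: lines and commutation for the parts of the numbers

`Q = k q`, `g = k gl`, `m = k n`: `lines_bits` (`k * gl`, `k * q`, ... ; rewrite `Z * (k*q) = k * (Z*q)`), `lines_prod` for the planes.  Commutation: `comm_bits_bits`.
(If types like `Blk V (Z * (k * q))` and `Blk V (k * (Z * q))` do not match: `Lines` has the field `hm`, so prove the fields directly:
`refine ⟨by ring, hL.hk, fun t h ht => ?_⟩`, and digit `t` of the part is digit `t + offset` of `B` by `bits_bits`.)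
-/

set_option autoImplicit false

namespace Pool.Agent.H31.HS

variable {V Ω R : Type} {m g Q Z k n q gl r0 Lam : ℕ} {M : Mach V Ω R} {B : Blk V m}

private theorem wl_cast (B : Blk V m) {a b k : ℕ} (e : a = b) (ha : a + k ≤ m) (hb : b + k ≤ m) :
    B.bits a k ha = B.bits b k hb := by
  subst e
  rfl

private theorem wl_part (hL : Lines M Lam B k n r0) {i l a c : ℕ} (h : i + l ≤ m) (hi : i = k * a) (hl : l = k * c) :
    Lines M Lam (B.bits i l h) k c r0 := by
  refine ⟨hl, hL.hk, fun t ht htc => ?_⟩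
  have e2 : i + k * t = k * (a + t) := by
    rw [hi]
    ring
  have h1 : k * (a + t) + k ≤ m := by omega
  have h3 : a + t < n := by
    have h4 : k * (a + t + 1) ≤ k * n := by
      have h5 := hL.hm
      have h6 : k * (a + t + 1) = k * (a + t) + k := by ring
      omega
    exact Nat.le_of_mul_le_mul_left h4 (Nat.lt_of_lt_of_le Nat.zero_lt_one hL.hk)
  rw [bits_bits B h ht (by omega), wl_cast B e2 (by omega) h1]
  exact hL.rnd (a + t) h1 h3

theorem lines_lay (hm : m = g + Q + Z * Q) (hL : Lines M Lam B k n r0) (hQ : Q = k * q) (hg : g = k * gl) :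
    Lines M Lam (Lay B hm) k gl r0 := by
  exact wl_part hL _ (a := 0) (by rw [mul_zero]) hg

theorem lines_bal (hm : m = g + Q + Z * Q) (hL : Lines M Lam B k n r0) (hQ : Q = k * q) (hg : g = k * gl) :
    Lines M Lam (Bal B hm) k q r0 := by
  exact wl_part hL _ hg hQ

theorem lines_uni (hm : m = g + Q + Z * Q) (hL : Lines M Lam B k n r0) (hQ : Q = k * q) (hg : g = k * gl) :
    Lines M Lam (Uni B hm) k (Z * q) r0 := by
  exact wl_part hL _ (a := gl + q) (by rw [hg, hQ]; ring) (by rw [hQ]; ring)

theorem lines_lyr (hm : m = g + Q + Z * Q) (hL : Lines M Lam B k n r0) (hQ : Q = k * q) (hg : g = k * gl) :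
    Lines M Lam (Lyr B hm) k (Z * q + q) r0 := by
  exact wl_part hL _ hg (by rw [hQ]; ring)

theorem lines_pln (hm : m = g + Q + Z * Q) (hL : Lines M Lam B k n r0) (hQ : Q = k * q) (hg : g = k * gl) (jj : ℕ) (hj : jj < Z) :
    Lines M Lam (Pln B hm jj hj) k (q + q) r0 := by
  exact lines_prod _ (wl_part hL _ (a := gl + q + jj * q) (by rw [hg, hQ]; ring) hQ) (wl_part hL _ hg hQ)

theorem comm_uni_lay (hm : m = g + Q + Z * Q) : Blk.Comm (Uni B hm) (Lay B hm) := by
  exact comm_bits_bits B _ _ (by omega)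

theorem comm_uni_bal (hm : m = g + Q + Z * Q) : Blk.Comm (Uni B hm) (Bal B hm) := by
  exact comm_bits_bits B _ _ (by omega)

theorem comm_bal_lay (hm : m = g + Q + Z * Q) : Blk.Comm (Bal B hm) (Lay B hm) := by
  exact comm_bits_bits B _ _ (by omega)

theorem comm_lyr_lay (hm : m = g + Q + Z * Q) : Blk.Comm (Lyr B hm) (Lay B hm) := by
  exact comm_bits_bits B _ _ (by omega)

end Pool.Agent.H31.HS
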