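import Mathlib
import Pool.Agent.H31.HS.RSmall
import Pool.Agent.H31.HS.Pack
import Pool.Agent.H31.HS.Spread
import Pool.Agent.H31.HS.WLin
import Pool.Agent.H31.HS.WSrc

/-!
# WRep: the incomplete layers are routed separately

`inc`: known marks of layers (constant on layers), fewer than `2^(Z*Q)` in every group; `2 * (Z*Q) ≤ g`.  Let `z = Z*Q`, `BL = Lay B hm` (`gl` digits), `BT = B.bits (g - z) z` = top `z` bits of the layer number
(lines: `Z*q` digits; `BT` is `(Lay B hm).bits (g-z) z` by `bits_bits`), `BU = Uni B hm`; `BU`, `BT` commute.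
1. `count` for `BL` with `o = inc`: `r v` = number of marked layers before the layer of `v` (cost `gl * r0`).
2. `conc` for `BL` with the items `C0 v = (some ((r, l, δ v), label of the content), record)` for marked `v`, `l = BL.pos v`, target `tau = r` (`r` is strictly increasing on the marked layers with differences at most
those of the layer numbers): `C v` at the layer number `r`: item of the `r`-th marked layer, same unit and balance number (cost `gl * r0`).  As `r < 2^z ≤ 2^(g-z)`: nonempty only for `BT.pos = 0`.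
3. `small_route` with `dst = δ` (component of the label) (cost `3 * (Z*q) * r0`): `D v` for `BT.pos v = 0`.  (Injectivity: `DlOK.inj`; a `BU`-class with `BT.pos = 0`, layer number `r`: all
items of the class come from the same layer `l_r`.)
4. At `v` with `C v = (some ((r, l, _), _), _)` put `C5 v = (some (l, label.2 of D v or none), record of D v or none)`; `emp` if `C v` is empty.  `spread` for `BL` with `tau (l, c) = l` (cost `gl * r0`; `r < r'` implies
`l' - l ≥ r' - r`).  5. local: drop `l`: `b v = (c, record)`.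
For marked `v` in layer `l`, rank `r`: `b v` = content of the item `D (v with layer number r)` = content of the node `(p, bal v, l)` with `δ_p = unit of v`, or empty: `WRSpec`.
Sizes: labels `((r, l, δ), c)`: `W * W * (W + 1) * (S + 1) ≤ S * W^5`.
-/

set_option autoImplicit false

namespace Pool.Agent.H31.HS

variable {V Ω R : Type} {m g Q Z k n q gl r0 Lam W S c1 : ℕ}

private theorem wr_cnt_cls {l : ℕ} (B : Blk V l) (o : V → Bool) {v u : V} (h : B.cls v u) :
    cnt B o u = ((Finset.range (B.pos u)).filter (fun t => o (B.nd v t) = true)).card := by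
  unfold cnt
  congr 1
  apply Finset.filter_congr
  intro t ht
  rw [B.nd_of_cls h ((Finset.mem_range.1 ht).trans (B.pos_lt u))]

private theorem wr_cnt_lt {l : ℕ} (B : Blk V l) (o : V → Bool) {v u : V} (h : B.cls v u) (hv : o v = true)
    (hp : B.pos v < B.pos u) : cnt B o v < cnt B o u := by
  rw [wr_cnt_cls B o h]
  unfold cnt
  apply Finset.card_lt_card
  rw [Finset.ssubset_iff_of_subset]
  · refine ⟨B.pos v, ?_, ?_⟩
    · rw [Finset.mem_filter, Finset.mem_range, B.nd_pos]
      exact ⟨hp, hv⟩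
    · rw [Finset.mem_filter, Finset.mem_range]
      exact fun h => lt_irrefl _ h.1
  · intro t ht
    rw [Finset.mem_filter, Finset.mem_range] at ht ⊢
    exact ⟨ht.1.trans hp, ht.2⟩

private theorem wr_cnt_diff {l : ℕ} (B : Blk V l) (o : V → Bool) {v u : V} (h : B.cls v u) (hp : B.pos v < B.pos u) :
    cnt B o u + B.pos v ≤ cnt B o v + B.pos u := by
  rw [wr_cnt_cls B o h]
  unfold cnt
  have h1 : (Finset.range (B.pos u)).filter (fun t => o (B.nd v t) = true) ⊆
      ((Finset.range (B.pos v)).filter (fun t => o (B.nd v t) = true)) ∪ Finset.Ico (B.pos v) (B.pos u) := by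
    intro t ht
    rw [Finset.mem_filter, Finset.mem_range] at ht
    rw [Finset.mem_union, Finset.mem_filter, Finset.mem_range, Finset.mem_Ico]
    by_cases h2 : t < B.pos v
    · exact Or.inl ⟨h2, ht.2⟩
    · exact Or.inr ⟨not_lt.1 h2, ht.1⟩
  have h2 := (Finset.card_le_card h1).trans (Finset.card_union_le _ _)
  rw [Nat.card_Ico] at h2
  omega

/-- the ranks of marked layers are ordered as the layers -/
private theorem wr_rank {l : ℕ} (B : Blk V l) (o : V → Bool) {v u : V} (h : B.cls v u) (hv : o v = true)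
    (hu : o u = true) (hr : cnt B o v < cnt B o u) : B.pos v + cnt B o u ≤ B.pos u + cnt B o v := by
  rcases lt_trichotomy (B.pos v) (B.pos u) with h1 | h1 | h1
  · have := wr_cnt_diff B o h h1
    omega
  · rw [B.eq_of_cls h h1] at hr
    exact absurd hr (lt_irrefl _)
  · have := wr_cnt_lt B o (B.cls_symm h) hu h1
    omega

private theorem wr_nd (B : Blk V m) (hm : m = g + Q + Z * Q) (v : V) {r : ℕ} (hr : r < 2 ^ g) :
    (Lay B hm).cls v ((Lay B hm).nd v r) ∧ (Lay B hm).pos ((Lay B hm).nd v r) = r ∧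
      B.cls v ((Lay B hm).nd v r) ∧ (Uni B hm).pos v = (Uni B hm).pos ((Lay B hm).nd v r) ∧
      (Bal B hm).pos v = (Bal B hm).pos ((Lay B hm).nd v r) := by
  have h1 := (Lay B hm).cls_nd v hr
  have h2 := (lay_cls B hm v _).1 h1
  exact ⟨h1, (Lay B hm).pos_nd v r hr, h2.1, h2.2.1, h2.2.2⟩

private theorem wr_top (B : Blk V m) (hm : m = g + Q + Z * Q) {z : ℕ} (hz : z ≤ g) (h : g - z + z ≤ m) {v : V}
    (hv : (Lay B hm).pos v < 2 ^ (g - z)) : (B.bits (g - z) z h).pos v = 0 := by
  have h1 : (Lay B hm).pos v = B.pos v % 2 ^ g := by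
    show B.pos v / 2 ^ 0 % 2 ^ g = B.pos v % 2 ^ g
    rw [pow_zero, Nat.div_one]
  show B.pos v / 2 ^ (g - z) % 2 ^ z = 0
  rw [← Nat.mod_mul_right_div_self, ← pow_add, Nat.sub_add_cancel hz]
  rw [h1] at hv
  exact Nat.div_eq_of_lt hv

private theorem wr_core {X : Type} (B : Blk V m) (hm : m = g + Q + Z * Q) (hgz : 2 * (Z * Q) ≤ g)
    (hTm : g - Z * Q + Z * Q ≤ m) {δ : V → Option ℕ} (hd : DlOK B hm c1 δ) {inc : V → Bool}
    (hi1 : ∀ v u, (Lyr B hm).cls v u → inc v = inc u)
    (hi2 : ∀ v, ((Finset.range (2 ^ g)).filter (fun t => inc ((Lay B hm).nd v t) = true)).card < 2 ^ (Z * Q))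
    (a : V → Option X × Option R)
    {C0 C D : V → Option ((ℕ × ℕ × Option ℕ) × Option X) × Option R}
    (hC0 : ∀ v, C0 v = if inc v = true then
      (some ((cnt (Lay B hm) inc v, (Lay B hm).pos v, δ v), (a v).1), (a v).2) else emp)
    (hC : MoveSpec (Lay B hm) (fun x => x.1.1) C0 C)
    (hD : ∀ v, (B.bits (g - Z * Q) (Z * Q) hTm).pos v = 0 →
        (∀ u y, (Uni B hm).cls v u → (C u).1 = some y → y.1.2.2 = some ((Uni B hm).pos v) → D v = C u) ∧
          ((∀ u y, (Uni B hm).cls v u → (C u).1 = some y → y.1.2.2 ≠ some ((Uni B hm).pos v)) → D v = emp))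
    {C5 E : V → Option (ℕ × Option X) × Option R}
    (hC5 : ∀ v, C5 v = ((C v).1.map (fun x => (x.1.2.1, (D v).1.bind Prod.snd)),
      if (C v).1.isSome then (D v).2 else none))
    (hE : MoveSpec (Lay B hm) (fun x => x.1) C5 E) {b : V → Option X × Option R}
    (hb : ∀ v, b v = ((E v).1.bind Prod.snd, (E v).2)) (v : V) (hv : inc v = true) :
    WRSpec B hm δ a b v := by
  have hzg : Z * Q ≤ g := by omega
  have hpow : 2 ^ (Z * Q) ≤ 2 ^ (g - Z * Q) := Nat.pow_le_pow_right (by norm_num) (by omega)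
  have hpow2 : 2 ^ (g - Z * Q) ≤ 2 ^ g := Nat.pow_le_pow_right (by norm_num) (by omega)
  have hrank : ∀ u, cnt (Lay B hm) inc u < 2 ^ (Z * Q) := by
    intro u
    refine lt_of_le_of_lt ?_ (hi2 u)
    unfold cnt
    apply Finset.card_le_card
    intro t ht
    rw [Finset.mem_filter, Finset.mem_range] at ht ⊢
    exact ⟨ht.1.trans ((Lay B hm).pos_lt u), ht.2⟩
  -- the compressed node of a marked node
  have hhat : ∀ u, inc u = true → C ((Lay B hm).nd u (cnt (Lay B hm) inc u)) = C0 u ∧
      (C0 u).1 = some ((cnt (Lay B hm) inc u, (Lay B hm).pos u, δ u), (a u).1) := by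
    intro u hu
    have h1 : (C0 u).1 = some ((cnt (Lay B hm) inc u, (Lay B hm).pos u, δ u), (a u).1) := by
      rw [hC0, if_pos hu]
    have hr := hrank u
    obtain ⟨h2, h3, _⟩ := wr_nd B hm u (r := cnt (Lay B hm) inc u) (by omega)
    exact ⟨(hC _).1 u _ ((Lay B hm).cls_symm h2) h1 h3.symm, h1⟩
  have hr := hrank v
  obtain ⟨w1, w2, w3, w4, w5⟩ := wr_nd B hm v (r := cnt (Lay B hm) inc v) (by omega)
  obtain ⟨x1, x2⟩ := hhat v hv
  obtain ⟨v', hv'⟩ : ∃ v', v' = (Lay B hm).nd v (cnt (Lay B hm) inc v) := ⟨_, rfl⟩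
  rw [← hv'] at w1 w2 w3 w4 w5 x1
  have hT : (B.bits (g - Z * Q) (Z * Q) hTm).pos v' = 0 :=
    wr_top B hm hzg hTm (by rw [w2]; omega)
  have hC5v : C5 v' = (some ((Lay B hm).pos v, (D v').1.bind Prod.snd), (D v').2) := by
    rw [hC5, x1, x2]
    rfl
  have hEv : E v = C5 v' := (hE v).1 v' ((Lay B hm).pos v, (D v').1.bind Prod.snd) w1
    (by rw [hC5v]) rfl
  have hbv : b v = ((D v').1.bind Prod.snd, (D v').2) := by
    rw [hb, hEv, hC5v]
    rfl
  constructor
  · intro p hp hδp
    obtain ⟨u0, hu0⟩ : ∃ u0, u0 = (Uni B hm).nd v p := ⟨_, rfl⟩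
    have hU := (Uni B hm).cls_nd v hp
    rw [← hu0] at hδp hU ⊢
    obtain ⟨hL, hBal⟩ := (uni_cls B hm v u0).1 hU
    obtain ⟨hB, hLay⟩ := (lyr_cls B hm v u0).1 hL
    have hu0i : inc u0 = true := by
      rw [← hi1 v u0 hL]
      exact hv
    have hcnt : cnt (Lay B hm) inc u0 = cnt (Lay B hm) inc v := by
      unfold cnt
      rw [← hLay]
      congr 1
      apply Finset.filter_congr
      intro t ht
      have ht' : t < 2 ^ g := (Finset.mem_range.1 ht).trans ((Lay B hm).pos_lt v)
      obtain ⟨_, y2, y3, _⟩ := wr_nd B hm v ht'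
      obtain ⟨_, z2, z3, _⟩ := wr_nd B hm u0 ht'
      have h1 : (Lyr B hm).cls ((Lay B hm).nd u0 t) ((Lay B hm).nd v t) := by
        rw [lyr_cls]
        refine ⟨B.cls_trans (B.cls_symm z3) (B.cls_trans (B.cls_symm hB) y3), ?_⟩
        rw [y2, z2]
      rw [hi1 _ _ h1]
    obtain ⟨y1, y2⟩ := hhat u0 hu0i
    rw [hcnt] at y1 y2
    obtain ⟨t1, t2, t3, t4, t5⟩ := wr_nd B hm u0 (r := cnt (Lay B hm) inc v) (by omega)
    obtain ⟨u', hu'⟩ : ∃ u', u' = (Lay B hm).nd u0 (cnt (Lay B hm) inc v) := ⟨_, rfl⟩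
    rw [← hu'] at t1 t2 t3 t4 t5 y1
    have hUU : (Uni B hm).cls v' u' := by
      rw [uni_cls, lyr_cls]
      refine ⟨⟨B.cls_trans (B.cls_symm w3) (B.cls_trans hB t3), ?_⟩, ?_⟩
      · rw [w2, t2]
      · rw [← w5, hBal, t5]
    have hDv := (hD v' hT).1 u' _ hUU (by rw [y1]; exact y2) (by
      show δ u0 = some ((Uni B hm).pos v')
      rw [hδp, w4])
    have h0 : C0 u0 = (some ((cnt (Lay B hm) inc v, (Lay B hm).pos u0, δ u0), (a u0).1), (a u0).2) := by
      rw [hC0, if_pos hu0i, hcnt]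
    rw [hbv, hDv, y1, h0]
    rfl
  · intro hno
    have hDv : D v' = emp := by
      refine (hD v' hT).2 fun u y hu hy hdy => ?_
      -- `C u` is the item of a marked node
      by_cases hex : ∃ u0, (Lay B hm).cls u u0 ∧ inc u0 = true ∧ cnt (Lay B hm) inc u0 = (Lay B hm).pos u
      · obtain ⟨u0, hcu, hiu, hcn⟩ := hex
        have h1 := (hC u).1 u0 ((cnt (Lay B hm) inc u0, (Lay B hm).pos u0, δ u0), (a u0).1) hcu
          (hhat u0 hiu).2 hcn
        rw [h1, (hhat u0 hiu).2] at hy
        have hy' : y = ((cnt (Lay B hm) inc u0, (Lay B hm).pos u0, δ u0), (a u0).1) :=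
          (Option.some.inj hy).symm
        rw [hy'] at hdy
        have hδ0 : δ u0 = some ((Uni B hm).pos v') := hdy
        have hp : (Uni B hm).pos u0 < 2 ^ (Z * Q) := (Uni B hm).pos_lt u0
        have hBvu : B.cls v u0 := by
          have h2 := ((lyr_cls B hm v' u).1 ((uni_cls B hm v' u).1 hu).1).1
          exact B.cls_trans w3 (B.cls_trans h2 ((lay_cls B hm u u0).1 hcu).1)
        have hBvn : B.cls v ((Uni B hm).nd v ((Uni B hm).pos u0)) :=
          ((lyr_cls B hm _ _).1 ((uni_cls B hm _ _).1 ((Uni B hm).cls_nd v hp)).1).1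
        have h3 : δ ((Uni B hm).nd v ((Uni B hm).pos u0)) = δ u0 :=
          hd.unit _ _ (B.cls_trans (B.cls_symm hBvn) hBvu) ((Uni B hm).pos_nd v _ hp)
        refine hno _ hp ?_
        rw [h3, hδ0, w4]
      · have h1 : C u = emp := by
          refine (hC u).2 fun u0 x hcu hx hcn => hex ⟨u0, hcu, ?_, ?_⟩
          · by_contra hi
            rw [hC0, if_neg hi] at hx
            exact absurd hx (by simp [emp])
          · by_cases hi : inc u0 = true
            · rw [hC0, if_pos hi] at hx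
              have hx' := Option.some.inj hx
              rw [← hx'] at hcn
              exact hcn
            · rw [hC0, if_neg hi] at hx
              exact absurd hx (by simp [emp])
        rw [h1] at hy
        exact absurd hy (by simp [emp])
    rw [hbv, hDv]
    rfl

private theorem wr_bits_congr (B : Blk V m) {i i' l : ℕ} (h : i = i') (h1 : i + l ≤ m) (h2 : i' + l ≤ m) :
    B.bits i l h1 = B.bits i' l h2 := by
  subst h
  rfl

private theorem wr_lines {M : Mach V Ω R} {B : Blk V m} (hm : m = g + Q + Z * Q) (hL : Lines M Lam B k n r0)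
    (hQ : Q = k * q) (hg : g = k * gl) (hzg : Z * Q ≤ g) (hTm : g - Z * Q + Z * Q ≤ m) :
    Lines M Lam (B.bits (g - Z * Q) (Z * Q) hTm) k (Z * q) r0 := by
  have hkZ : Z * Q = k * (Z * q) := by
    rw [hQ]
    ring
  refine ⟨hkZ, hL.hk, fun t h ht => ?_⟩
  have h1 : g - Z * Q + k * t + k ≤ m := by omega
  rw [bits_bits B hTm h h1]
  have h2 : g - Z * Q + k * t = k * (gl - Z * q + t) := by
    rw [hkZ, hg, ← Nat.mul_sub, ← Nat.mul_add]
  have h3 : k * (gl - Z * q + t) + k ≤ m := by
    rw [← h2]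
    exact h1
  have h4 : gl - Z * q + t < n := by
    have h5 : k * (gl - Z * q + t + 1) ≤ k * n := by
      rw [← hL.hm, Nat.mul_add, Nat.mul_one]
      exact h3
    exact Nat.le_of_mul_le_mul_left h5 hL.hk
  rw [wr_bits_congr B h2 h1 h3]
  exact hL.rnd _ h3 h4

private theorem wr_cnt_le {l : ℕ} (B : Blk V l) (o : V → Bool) (v : V) : cnt B o v ≤ B.pos v := by
  unfold cnt
  exact (Finset.card_filter_le _ _).trans (by simp)

theorem w_repair {M : Mach V Ω R} {B : Blk V m} (hm : m = g + Q + Z * Q) (hL : Lines M Lam B k n r0) (hQ : Q = k * q) (hg : g = k * gl)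
    (hW : 2 ^ m < W) (hS : 1 ≤ S) (hl : S * W ^ 6 ≤ Lam) (hgz : 2 * (Z * Q) ≤ g)
    {X : Type} (P : M.Pl) (a : V → Ω → Option X × Option R) (hs : Sm S a) (ha : ∀ v, M.Has P v (a v)) (δ : V → Ω → Option ℕ)
    (hδ : ∀ v, M.Knows P v (δ v)) (hd : ∀ w, DlOK B hm c1 (fun v => δ v w)) (inc : V → Ω → Bool) (hi : ∀ v, M.Knows P v (inc v))
    (hi1 : ∀ w v u, (Lyr B hm).cls v u → inc v w = inc u w)
    (hi2 : ∀ w v, ((Finset.range (2 ^ g)).filter (fun t => inc ((Lay B hm).nd v t) w = true)).card < 2 ^ (Z * Q)) :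
    M.Do ((3 * gl + 3 * (Z * q)) * r0) P (fun P' => ∃ b : V → Ω → Option X × Option R, (∀ v, M.Has P' v (b v)) ∧
      ∀ w v, inc v w = true → WRSpec B hm (fun u => δ u w) (fun u => a u w) (fun u => b u w) v) := by
  classical
  have hW1 : 1 ≤ 2 ^ m := Nat.one_le_two_pow
  have hW2 : 2 ≤ W := by omega
  have hzg : Z * Q ≤ g := by omega
  have hTm : g - Z * Q + Z * Q ≤ m := by omega
  have h2g : 2 ^ g ≤ 2 ^ m := Nat.pow_le_pow_right (by norm_num) (by omega)
  have hgW : 2 ^ g < W := by omega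
  have h2z : 2 ^ (Z * Q) ≤ 2 ^ m := Nat.pow_le_pow_right (by norm_num) (by omega)
  have hzW : 2 ^ (Z * Q) < W := by omega
  -- sizes
  have hWp : ∀ j, 1 ≤ W ^ j := fun j => Nat.one_le_pow _ _ (by omega)
  have hl2 : W ^ 2 ≤ Lam := by
    refine le_trans ?_ hl
    calc W ^ 2 ≤ W ^ 6 := Nat.pow_le_pow_right (by omega) (by norm_num)
      _ ≤ S * W ^ 6 := Nat.le_mul_of_pos_left _ hS
  have hSz1 : W * (W * (W + 1)) * (S + 1) + 1 ≤ Lam := by
    refine le_trans ?_ hl
    have h1 : W * (W * (W + 1)) * (S + 1) ≤ W * (W * (W * 2)) * (S * 2) := by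
      gcongr <;> omega
    have h2 : W * (W * (W * 2)) * (S * 2) = S * W ^ 3 * (2 * 2) := by ring
    have h3 : S * W ^ 3 * (2 * 2) ≤ S * W ^ 3 * (W * W) := by gcongr
    have h4 : S * W ^ 3 * (W * W) = S * W ^ 5 := by ring
    have h5 : S * W ^ 5 + 1 ≤ S * W ^ 5 * 2 := by
      have : 1 ≤ S * W ^ 5 := Nat.mul_pos hS (hWp 5)
      omega
    have h6 : S * W ^ 5 * 2 ≤ S * W ^ 5 * W := by gcongr
    have h7 : S * W ^ 5 * W = S * W ^ 6 := by ring
    omega
  have hSz2 : W * (S + 1) + 1 ≤ Lam := by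
    refine le_trans ?_ hSz1
    have h1 : W * (S + 1) ≤ W * (W * (W + 1)) * (S + 1) := by
      gcongr
      calc W = W * 1 := (Nat.mul_one W).symm
        _ ≤ W * (W * (W + 1)) := Nat.mul_le_mul_left _ (Nat.mul_pos (by omega) (by omega))
    omega
  have hLL := lines_lay hm hL hQ hg
  have hLU := lines_uni hm hL hQ hg
  have hLT := wr_lines hm hL hQ hg hzg hTm
  have hCm : Blk.Comm (Uni B hm) (B.bits (g - Z * Q) (Z * Q) hTm) :=
    comm_bits_bits B hTm (by omega) (by omega)
  obtain ⟨Sa, hSa1, hSa2⟩ := hs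
  have hlabA : ∀ v w, (a v w).1 ∈ insert none (Sa.image some) := by
    intro v w
    rcases h1 : (a v w).1 with _ | x
    · exact Finset.mem_insert_self _ _
    · exact Finset.mem_insert_of_mem (Finset.mem_image_of_mem some (hSa2 v w x h1))
  have hcardA : (insert none (Sa.image some)).card ≤ S + 1 := by
    refine (Finset.card_insert_le _ _).trans ?_
    have h3 : (Sa.image some).card ≤ Sa.card := Finset.card_image_le
    omega
  have hcost : (3 * gl + 3 * (Z * q)) * r0 = gl * r0 + (gl * r0 + (3 * (Z * q) * r0 + gl * r0)) := by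
    ring
  rw [hcost]
  refine (count hLL hgW hl2 P inc hi).bind (fun P1 he1 hc => ?_)
  obtain ⟨C0, hC0⟩ : ∃ C0 : V → Ω → Option ((ℕ × ℕ × Option ℕ) × Option X) × Option R, ∀ v w, C0 v w =
      if inc v w = true then
        (some ((cnt (Lay B hm) (fun z => inc z w) v, (Lay B hm).pos v, δ v w), (a v w).1), (a v w).2)
      else emp := ⟨_, fun _ _ => rfl⟩
  have hx0 : ∀ v w x, (C0 v w).1 = some x → inc v w = true ∧
      x = ((cnt (Lay B hm) (fun z => inc z w) v, (Lay B hm).pos v, δ v w), (a v w).1) := by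
    intro v w x hx
    by_cases hv : inc v w = true
    · rw [hC0, if_pos hv] at hx
      exact ⟨hv, (Option.some.inj hx).symm⟩
    · rw [hC0, if_neg hv] at hx
      exact absurd hx (by simp [emp])
  have hHas0 : ∀ v, M.Has P1 v (C0 v) := by
    intro v
    refine Mach.Has.of ((ha v).mono he1) ?_ ?_
    · intro w w' hs
      have e1 : cnt (Lay B hm) (fun z => inc z w) v = cnt (Lay B hm) (fun z => inc z w') v := hc v w w' hs
      have e2 : δ v w = δ v w' := (hδ v).mono he1 w w' hs
      have e3 : inc v w = inc v w' := (hi v).mono he1 w w' hs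
      have e4 : a v w = a v w' := ((ha v).mono he1).1 w w' hs
      rw [hC0, hC0, e1, e2, e3, e4]
    · intro w r hr
      by_cases hv : inc v w = true
      · rw [hC0, if_pos hv] at hr
        exact hr
      · rw [hC0, if_neg hv] at hr
        exact absurd hr (by simp [emp])
  have hSm0 : Sm (W * (W * (W + 1)) * (S + 1)) C0 := by
    refine ⟨((Finset.range W) ×ˢ ((Finset.range W) ×ˢ (insert none ((Finset.range W).image some)))) ×ˢ
      (insert none (Sa.image some)), ?_, ?_⟩
    · rw [Finset.card_product, Finset.card_product, Finset.card_product, Finset.card_range]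
      have h1 : (insert none ((Finset.range W).image some)).card ≤ W + 1 := by
        refine (Finset.card_insert_le _ _).trans ?_
        have h3 : ((Finset.range W).image some).card ≤ (Finset.range W).card := Finset.card_image_le
        rw [Finset.card_range] at h3
        omega
      gcongr
    · intro v w x hx
      obtain ⟨_, rfl⟩ := hx0 v w x hx
      have h1 := wr_cnt_le (Lay B hm) (fun z => inc z w) v
      have h2 := (Lay B hm).pos_lt v
      have h6 : cnt (Lay B hm) (fun z => inc z w) v < W := by omega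
      have h7 : (Lay B hm).pos v < W := by omega
      refine Finset.mem_product.2 ⟨Finset.mem_product.2 ⟨Finset.mem_range.2 h6,
        Finset.mem_product.2 ⟨Finset.mem_range.2 h7, ?_⟩⟩, hlabA v w⟩
      show δ v w ∈ insert none ((Finset.range W).image some)
      rcases h3 : δ v w with _ | e
      · exact Finset.mem_insert_self _ _
      · have h4 := (hd w).lt v e h3
        exact Finset.mem_insert_of_mem (Finset.mem_image_of_mem some (Finset.mem_range.2 (by omega)))
  refine (conc hLL hSz1 P1 C0 hSm0 hHas0 (fun x => x.1.1) ?_ ?_).bind (fun P2 he2 hC => ?_)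
  · intro w v x hx
    obtain ⟨_, rfl⟩ := hx0 v w x hx
    exact lt_of_le_of_lt (wr_cnt_le (Lay B hm) (fun z => inc z w) v) ((Lay B hm).pos_lt v)
  · intro w v u x x' hcls hx hx' hp
    obtain ⟨hv, rfl⟩ := hx0 v w x hx
    obtain ⟨hu, rfl⟩ := hx0 u w x' hx'
    exact ⟨wr_cnt_lt (Lay B hm) (fun z => inc z w) hcls hv hp,
      wr_cnt_diff (Lay B hm) (fun z => inc z w) hcls hp⟩
  obtain ⟨C, hCH, hCS⟩ := hC
  have hCcase : ∀ v w, C v w = emp ∨ ∃ v1, (Lay B hm).cls v v1 ∧ inc v1 w = true ∧
      cnt (Lay B hm) (fun z => inc z w) v1 = (Lay B hm).pos v ∧ C v w = C0 v1 w := by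
    intro v w
    by_cases hex : ∃ u x, (Lay B hm).cls v u ∧ (C0 u w).1 = some x ∧ x.1.1 = (Lay B hm).pos v
    · obtain ⟨u, x, h1, h2, h3⟩ := hex
      obtain ⟨h4, h5⟩ := hx0 u w x h2
      refine Or.inr ⟨u, h1, h4, ?_, (hCS w v).1 u x h1 h2 h3⟩
      rw [h5] at h3
      exact h3
    · exact Or.inl ((hCS w v).2 fun u x h1 h2 h3 => hex ⟨u, x, h1, h2, h3⟩)
  have hSmC : Sm (W * (W * (W + 1)) * (S + 1)) C := hSm0.of_range fun v w => by
    rcases hCcase v w with h1 | ⟨v1, _, _, _, h1⟩
    · left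
      rw [h1]
      rfl
    · exact Or.inr ⟨v1, w, h1⟩
  have hCsome : ∀ v w x, (C v w).1 = some x → ∃ v1, (Lay B hm).cls v v1 ∧ inc v1 w = true ∧
      cnt (Lay B hm) (fun z => inc z w) v1 = (Lay B hm).pos v ∧
      x = ((cnt (Lay B hm) (fun z => inc z w) v1, (Lay B hm).pos v1, δ v1 w), (a v1 w).1) := by
    intro v w x hx
    rcases hCcase v w with h1 | ⟨v1, h1, h2, h3, h4⟩
    · rw [h1] at hx
      exact absurd hx (by simp [emp])
    · rw [h4] at hx
      exact ⟨v1, h1, h2, h3, (hx0 v1 w x hx).2⟩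
  refine (small_route hCm hLU hLT hSz1 (fun y => y.1.2.2) P2 C hSmC hCH ?_).bind
    (fun P3 he3 hD => ?_)
  · intro w v u x y e hU _ hx hy hxe hye
    obtain ⟨v1, h1, _, _, h3⟩ := hCsome v w x hx
    obtain ⟨u1, h4, _, _, h6⟩ := hCsome u w y hy
    have hv1 : δ v1 w = some e := by
      rw [h3] at hxe
      exact hxe
    have hu1 : δ u1 w = some e := by
      rw [h6] at hye
      exact hye
    obtain ⟨h7, h8, _⟩ := (lay_cls B hm v v1).1 h1
    obtain ⟨h9, h10, _⟩ := (lay_cls B hm u u1).1 h4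
    have h11 := ((lyr_cls B hm v u).1 ((uni_cls B hm v u).1 hU).1).1
    have h12 := (hd w).inj v1 u1 e (B.cls_trans (B.cls_symm h7) (B.cls_trans h11 h9)) hv1 hu1
    exact (Uni B hm).eq_of_cls hU (by rw [h8, h12, h10])
  obtain ⟨D, hDH, hDC, hDS⟩ := hD
  have hDlab : ∀ v w, (D v w).1.bind Prod.snd ∈ insert none (Sa.image some) := by
    intro v w
    rcases h1 : (D v w).1 with _ | y
    · exact Finset.mem_insert_self _ _
    · show y.2 ∈ insert none (Sa.image some)
      rcases hDC v w with h2 | ⟨u, h2⟩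
      · rw [h2] at h1
        exact absurd h1 (by simp [emp])
      · rw [h2] at h1
        obtain ⟨u1, _, _, _, h3⟩ := hCsome u w y h1
        rw [h3]
        exact hlabA u1 w
  obtain ⟨C5, hC5⟩ : ∃ C5 : V → Ω → Option (ℕ × Option X) × Option R, ∀ v w, C5 v w =
      ((C v w).1.map (fun x => (x.1.2.1, (D v w).1.bind Prod.snd)),
      if (C v w).1.isSome then (D v w).2 else none) := ⟨_, fun _ _ => rfl⟩
  have hx5 : ∀ v w x, (C5 v w).1 = some x → ∃ v1, (Lay B hm).cls v v1 ∧ inc v1 w = true ∧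
      cnt (Lay B hm) (fun z => inc z w) v1 = (Lay B hm).pos v ∧ x.1 = (Lay B hm).pos v1 ∧
      x.2 = (D v w).1.bind Prod.snd := by
    intro v w x hx
    rw [hC5] at hx
    obtain ⟨y, hy, hyx⟩ := Option.map_eq_some_iff.1 hx
    obtain ⟨v1, h1, h2, h3, h4⟩ := hCsome v w y hy
    refine ⟨v1, h1, h2, h3, ?_, ?_⟩
    · rw [← hyx, h4]
    · rw [← hyx]
  have hHas5 : ∀ v, M.Has P3 v (C5 v) := by
    intro v
    refine Mach.Has.of (hDH v) ?_ ?_
    · intro w w' hs
      have e1 : C v w = C v w' := ((hCH v).mono he3).1 w w' hs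
      have e2 : D v w = D v w' := (hDH v).1 w w' hs
      rw [hC5, hC5, e1, e2]
    · intro w r hr
      rw [hC5] at hr
      by_cases h1 : (C v w).1.isSome = true
      · have hr' : (if (C v w).1.isSome then (D v w).2 else none) = some r := hr
        rw [if_pos h1] at hr'
        exact hr'
      · have hr' : (if (C v w).1.isSome then (D v w).2 else none) = some r := hr
        rw [if_neg h1] at hr'
        exact absurd hr' (by simp)
  have hSm5 : Sm (W * (S + 1)) C5 := by
    refine ⟨(Finset.range W) ×ˢ (insert none (Sa.image some)), ?_, ?_⟩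
    · rw [Finset.card_product, Finset.card_range]
      gcongr
    · intro v w x hx
      obtain ⟨v1, _, _, _, h4, h5⟩ := hx5 v w x hx
      have h6 := (Lay B hm).pos_lt v1
      refine Finset.mem_product.2 ⟨Finset.mem_range.2 (by omega), ?_⟩
      rw [h5]
      exact hDlab v w
  refine (spread hLL hSz2 P3 C5 hSm5 hHas5 (fun x => x.1) ?_ ?_).mono le_rfl ?_
  · intro w v x hx
    obtain ⟨v1, _, _, _, h4, _⟩ := hx5 v w x hx
    show x.1 < 2 ^ g
    rw [h4]
    exact (Lay B hm).pos_lt v1
  · intro w v u x x' hcls hx hx' hp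
    obtain ⟨v1, h1, h2, h3, h4, _⟩ := hx5 v w x hx
    obtain ⟨u1, h5, h6, h7, h8, _⟩ := hx5 u w x' hx'
    have h9 := wr_rank (Lay B hm) (fun z => inc z w)
      ((Lay B hm).cls_trans ((Lay B hm).cls_symm h1) ((Lay B hm).cls_trans hcls h5)) h2 h6 (by
        rw [h3, h7]
        exact hp)
    show x.1 + (Lay B hm).pos u ≤ x'.1 + (Lay B hm).pos v
    rw [h4, h8, ← h3, ← h7]
    exact h9
  · rintro P4 _ ⟨E, hEH, hES⟩
    refine ⟨fun v w => ((E v w).1.bind Prod.snd, (E v w).2), fun v => ?_, fun w v hv => ?_⟩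
    · refine Mach.Has.of (hEH v) ?_ (fun w r hr => hr)
      intro w w' hs
      have e1 : E v w = E v w' := (hEH v).1 w w' hs
      show ((E v w).1.bind Prod.snd, (E v w).2) = ((E v w').1.bind Prod.snd, (E v w').2)
      rw [e1]
    · exact wr_core B hm hgz hTm (hd w) (inc := fun u => inc u w) (hi1 w) (hi2 w) (fun u => a u w)
        (C0 := fun u => C0 u w) (C := fun u => C u w) (D := fun u => D u w)
        (fun u => hC0 u w) (hCS w) (fun u hu => hDS w u hu) (C5 := fun u => C5 u w)
        (E := fun u => E u w) (fun u => hC5 u w) (hES w) (fun u => rfl) v hv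

end Pool.Agent.H31.HS
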