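import Mathlib
import Pool.Agent.H31.HS.WSrc
import Pool.Agent.H31.HS.Rev

/-!
# WInitP: the state after the first permutation (pure part)

`ini v` = item of the origin `v`: label `((unit, balance number, e), label of the content)` if `δ v = some e`, empty otherwise.  `A1 (Φ v) = ini v`; `A` arises from `A1` by
`LineSpec` in the balance lines with `cap = 2^(Q-c1)`.
`i1`: an item of `A` at `v` is an item of `A1` at some `u` of the line, `u = Φ v0`, `v0` in the same layer, `p = unit v0`, `b = bal v0`, `src B hm v p b = v0` (`src_of_cls`, `src_self`).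
`i2` for `j = 0`: `(Z-0)*Q = Z*Q`: unit numbers and `e` are below `2^(Z*Q)`, so both quotients are `0`; unit of `v` = unit of `u` = `pun (π ..) p b`.
`i3`: the same `(p, b)` in the same layer means the same `v0`, so the same `u`; `cnt` of `u` is `rev Q (bal v)`, and `rev` is injective below `2^Q` (`rev_rev`).
`i4`: the second part of `LineSpec` or the item is nonempty.  `i5`: if the layer is not bad, take `j = 0`, `a = 0`, `s = unit of Φ v0`: the number of the `(p, b)` with `δ_p ≠ none`
(`t / 2^(Z*Q) = 0` since `t < 2^(Z*Q)`) and `pun = s` is at most `2^(Q-c1)`; the active places of `A1` in the line with unit `s` correspond to such pairs (injection), so `cnt` of `Φ v0`,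
which does not count `Φ v0`, is smaller than `2^(Q-c1)`; the place of the line with balance number `rev Q cnt` has the item.
`RevPat`: `Nn = min (number of active places of A1 in the line) (2^(Q-c1))`: a place with balance number `t` is occupied iff `rev Q t < Nn` (the values of `cnt` on the active places are exactly
`0, ..., number - 1`), iff `t = rev Q r` with `r < Nn` (`rev_rev`).
-/

/-!
# WInitP: the state after the first permutation (pure part)

`ini v` = item of the origin `v`: label `((unit, balance number, e), label of the content)` if `δ v = some e`, empty otherwise.  `A1 (Φ v) = ini v`; `A` arises from `A1` by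
`LineSpec` in the balance lines with `cap = 2^(Q-c1)`.
`i1`: an item of `A` at `v` is an item of `A1` at some `u` of the line, `u = Φ v0`, `v0` in the same layer, `p = unit v0`, `b = bal v0`, `src B hm v p b = v0` (`src_of_cls`, `src_self`).
`i2` for `j = 0`: `(Z-0)*Q = Z*Q`: unit numbers and `e` are below `2^(Z*Q)`, so both quotients are `0`; unit of `v` = unit of `u` = `pun (π ..) p b`.
`i3`: the same `(p, b)` in the same layer means the same `v0`, so the same `u`; `cnt` of `u` is `rev Q (bal v)`, and `rev` is injective below `2^Q` (`rev_rev`).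
`i4`: the second part of `LineSpec` or the item is nonempty.  `i5`: if the layer is not bad, take `j = 0`, `a = 0`, `s = unit of Φ v0`: the number of the `(p, b)` with `δ_p ≠ none`
(`t / 2^(Z*Q) = 0` since `t < 2^(Z*Q)`) and `pun = s` is at most `2^(Q-c1)`; the active places of `A1` in the line with unit `s` correspond to such pairs (injection), so `cnt` of `Φ v0`,
which does not count `Φ v0`, is smaller than `2^(Q-c1)`; the place of the line with balance number `rev Q cnt` has the item.
`RevPat`: `Nn = min (number of active places of A1 in the line) (2^(Q-c1))`: a place with balance number `t` is occupied iff `rev Q t < Nn` (the values of `cnt` on the active places are exactly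
`0, ..., number - 1`), iff `t = rev Q r` with `r < Nn` (`rev_rev`).
-/

set_option autoImplicit false

namespace Pool.Agent.H31.HS

variable {V X R : Type} {m g Q Z : ℕ} (B : Blk V m) (hm : m = g + Q + Z * Q)

/-- The items at their origin. -/
def ini (δ : V → Option ℕ) (a0 : V → Option X × Option R) (v : V) : Option (Lb X) × Option R :=
  match δ v with
  | none => emp
  | some e => (some (((Uni B hm).pos v, (Bal B hm).pos v, e), (a0 v).1), (a0 v).2)

private theorem ini_some {δ : V → Option ℕ} {a0 : V → Option X × Option R} {v : V} {e : ℕ} (h : δ v = some e) :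
    ini B hm δ a0 v = (some (((Uni B hm).pos v, (Bal B hm).pos v, e), (a0 v).1), (a0 v).2) := by
  unfold ini
  rw [h]

private theorem ini_isSome {δ : V → Option ℕ} {a0 : V → Option X × Option R} {v : V} (h : (ini B hm δ a0 v).1.isSome = true) :
    ∃ e, δ v = some e := by
  unfold ini at h
  rcases h1 : δ v with _ | e
  · rw [h1] at h
    simp [emp] at h
  · exact ⟨e, rfl⟩

private theorem cnt_cls' {q : ℕ} (BB : Blk V q) (o : V → Bool) {v u : V} (h : BB.cls v u) :
    cnt BB o u = ((Finset.range (BB.pos u)).filter (fun t => o (BB.nd v t) = true)).card := by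
  unfold cnt
  congr 1
  apply Finset.filter_congr
  intro t ht
  rw [BB.nd_of_cls h ((Finset.mem_range.1 ht).trans (BB.pos_lt u))]

private theorem cnt_lt_tot {q : ℕ} (BB : Blk V q) (o : V → Bool) {v u : V} (h : BB.cls v u) (hu : o u = true) :
    cnt BB o u + 1 ≤ ((Finset.range (2 ^ q)).filter (fun t => o (BB.nd v t) = true)).card := by
  rw [cnt_cls' BB o h, Nat.succ_le_iff]
  apply Finset.card_lt_card
  rw [Finset.ssubset_iff_of_subset]
  · refine ⟨BB.pos u, ?_, ?_⟩
    · rw [Finset.mem_filter, Finset.mem_range]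
      refine ⟨BB.pos_lt u, ?_⟩
      have h1 : BB.nd v (BB.pos u) = u := h
      rw [h1]
      exact hu
    · rw [Finset.mem_filter, Finset.mem_range]
      exact fun h => lt_irrefl _ h.1
  · intro t ht
    rw [Finset.mem_filter, Finset.mem_range] at ht ⊢
    exact ⟨ht.1.trans (BB.pos_lt u), ht.2⟩

private theorem enum (p : ℕ → Bool) (N c : ℕ) (h : c < ((Finset.range N).filter (fun t => p t = true)).card) :
    ∃ t, t < N ∧ p t = true ∧ ((Finset.range t).filter (fun t => p t = true)).card = c := by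
  induction N with
  | zero => simp at h
  | succ N ih =>
    by_cases h1 : c < ((Finset.range N).filter (fun t => p t = true)).card
    · obtain ⟨t, h2, h3⟩ := ih h1
      exact ⟨t, by omega, h3⟩
    · rw [Finset.range_add_one, Finset.filter_insert] at h
      by_cases h2 : p N = true
      · rw [if_pos h2, Finset.card_insert_of_notMem (by simp)] at h
        exact ⟨N, Nat.lt_succ_self N, h2, by omega⟩
      · rw [if_neg h2] at h
        exact absurd h h1

private theorem line_cases {q : ℕ} {BB : Blk V q} {cap : ℕ} {A1 A : V → Option X × Option R} (h4 : LineSpec BB cap A1 A) (v : V) :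
    A v = emp ∨ ∃ u, BB.cls v u ∧ (A1 u).1.isSome = true ∧ cnt BB (fun z => (A1 z).1.isSome) u = rev q (BB.pos v) ∧
      rev q (BB.pos v) < cap ∧ A v = A1 u := by
  by_cases h : ∃ u, BB.cls v u ∧ (A1 u).1.isSome = true ∧ cnt BB (fun z => (A1 z).1.isSome) u = rev q (BB.pos v) ∧
      rev q (BB.pos v) < cap
  · obtain ⟨u, h1, h2, h3, h5⟩ := h
    exact Or.inr ⟨u, h1, h2, h3, h5, (h4 v).1 u h1 h2 h3 h5⟩
  · refine Or.inl ((h4 v).2 (fun u h1 h2 h3 => h ⟨u, h1, h2, h3.1, h3.2⟩))

private theorem line_revPat {q : ℕ} {BB : Blk V q} {c1 : ℕ} {A1 A : V → Option X × Option R} (h4 : LineSpec BB (2 ^ (q - c1)) A1 A) :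
    RevPat BB c1 (fun v => (A v).1.isSome) := by
  intro v
  refine ⟨min ((Finset.range (2 ^ q)).filter (fun t => (A1 (BB.nd v t)).1.isSome = true)).card (2 ^ (q - c1)), min_le_right _ _,
    fun t ht => ⟨fun h => ?_, ?_⟩⟩
  · rcases line_cases h4 (BB.nd v t) with h1 | ⟨u, h1, h2, h3, h5, h6⟩
    · have h' : (A (BB.nd v t)).1.isSome = true := h
      rw [h1] at h'
      simp [emp] at h'
    · rw [BB.pos_nd v t ht] at h3 h5
      refine ⟨rev q t, lt_min ?_ h5, (rev_rev q t ht).symm⟩
      have h7 : BB.cls v u := BB.cls_trans (BB.cls_nd v ht) h1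
      have h8 := cnt_lt_tot BB (fun z => (A1 z).1.isSome) h7 h2
      rw [h3] at h8
      exact h8
  · rintro ⟨r, hr, rfl⟩
    obtain ⟨hr1, hr2⟩ := lt_min_iff.1 hr
    obtain ⟨t', h1, h2, h3⟩ := enum (fun t => (A1 (BB.nd v t)).1.isSome) (2 ^ q) r hr1
    have hrq : r < 2 ^ q := hr2.trans_le (Nat.pow_le_pow_right (by norm_num) (Nat.sub_le _ _))
    have hc : cnt BB (fun z => (A1 z).1.isSome) (BB.nd v t') = r := by
      rw [cnt_cls' BB _ (BB.cls_nd v h1), BB.pos_nd v t' h1]
      exact h3
    have h5 := (h4 (BB.nd v (rev q r))).1 (BB.nd v t')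
      (BB.cls_trans (BB.cls_symm (BB.cls_nd v (rev_lt q r))) (BB.cls_nd v h1)) h2
      (by rw [hc, BB.pos_nd v _ (rev_lt q r), rev_rev q r hrq]) (by rw [BB.pos_nd v _ (rev_lt q r), rev_rev q r hrq]; exact hr2)
    show (A (BB.nd v (rev q r))).1.isSome = true
    rw [h5]
    exact h2

private theorem src_eq {v v0 : V} (h : (Lyr B hm).cls v v0) : src B hm v ((Uni B hm).pos v0) ((Bal B hm).pos v0) = v0 := by
  rw [← src_of_cls B hm h ((Uni B hm).pos_lt v0) ((Bal B hm).pos_lt v0)]
  exact src_self B hm v0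

private theorem pun_lt (π : Equiv.Perm (Fin (2 ^ (Z * Q)) × Fin (2 ^ Q))) (p b : ℕ) : pun π p b < 2 ^ (Z * Q) := by
  unfold pun
  split_ifs with h
  · exact Fin.is_lt _
  · positivity

theorem init_inv {c1 : ℕ} (hZ : 1 ≤ Z) {π : ℕ → Equiv.Perm (Fin (2 ^ (Z * Q)) × Fin (2 ^ Q))} {δ : V → Option ℕ}
    {a0 : V → Option X × Option R} (hδ : DlOK B hm c1 δ) {Φ : Equiv.Perm V} (h1 : ∀ v, (Lyr B hm).cls v (Φ v))
    (h2 : ∀ v, (Uni B hm).pos (Φ v) = pun (π ((Lay B hm).pos v)) ((Uni B hm).pos v) ((Bal B hm).pos v))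
    {A1 A : V → Option (Lb X) × Option R} (h3 : ∀ v, A1 (Φ v) = ini B hm δ a0 v) (h4 : LineSpec (Bal B hm) (2 ^ (Q - c1)) A1 A) :
    Inv B hm c1 π δ a0 0 A ∧ RevPat (Bal B hm) c1 (fun v => (A v).1.isSome) := by
  have hnone : ∀ v, (A v).1 = none → A v = emp := by
    intro v hv
    rcases line_cases h4 v with h | ⟨u, _, h5, _, _, h6⟩
    · exact h
    · rw [← h6, hv] at h5
      simp at h5
  -- extraction of the origin
  have hE : ∀ v p b e c, (A v).1 = some ((p, b, e), c) → ∃ v0, (Bal B hm).cls v (Φ v0) ∧ (Lyr B hm).cls v v0 ∧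
      p = (Uni B hm).pos v0 ∧ b = (Bal B hm).pos v0 ∧ δ v0 = some e ∧ (c, (A v).2) = a0 v0 ∧
      cnt (Bal B hm) (fun z => (A1 z).1.isSome) (Φ v0) = rev Q ((Bal B hm).pos v) := by
    intro v p b e c hv
    rcases line_cases h4 v with h | ⟨u, h5, h6, h7, h8, h9⟩
    · rw [h] at hv
      simp [emp] at hv
    · have hu : Φ (Φ.symm u) = u := Φ.apply_symm_apply u
      rw [← hu] at h5 h6 h7 h9
      have hl : (Lyr B hm).cls v (Φ.symm u) :=
        (Lyr B hm).cls_trans ((bal_cls B hm _ _).1 h5).1 ((Lyr B hm).cls_symm (h1 _))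
      rw [h3] at h6 h9
      obtain ⟨e', he'⟩ := ini_isSome B hm h6
      rw [ini_some B hm he'] at h9
      rw [h9] at hv
      have hv' : (((Uni B hm).pos (Φ.symm u), (Bal B hm).pos (Φ.symm u), e'), (a0 (Φ.symm u)).1) = ((p, b, e), c) :=
        Option.some.inj hv
      simp only [Prod.mk.injEq] at hv'
      obtain ⟨⟨hp, hb, he⟩, hc⟩ := hv'
      refine ⟨Φ.symm u, h5, hl, hp.symm, hb.symm, by rw [he', he], ?_, h7⟩
      rw [h9, ← hc]
  refine ⟨⟨?_, ?_, ?_, hnone, ?_⟩, line_revPat h4⟩
  · intro v p b e c hv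
    obtain ⟨v0, _, hl, hp, hb, hd, ha, _⟩ := hE v p b e c hv
    rw [hp, hb, src_eq B hm hl]
    exact ⟨(Uni B hm).pos_lt v0, (Bal B hm).pos_lt v0, hd, ha⟩
  · intro v p b e c hv
    obtain ⟨v0, hb1, hl, hp, hb, hd, _, _⟩ := hE v p b e c hv
    have he := hδ.lt v0 e hd
    rw [Nat.sub_zero, Nat.div_eq_of_lt ((Uni B hm).pos_lt v), Nat.div_eq_of_lt he, Nat.mod_eq_of_lt ((Uni B hm).pos_lt v),
      Nat.mod_eq_of_lt (pun_lt _ _ _)]
    refine ⟨rfl, ?_⟩
    rw [((bal_cls B hm _ _).1 hb1).2, h2, ((lyr_cls B hm _ _).1 hl).2, hp, hb]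
  · intro v u p b e c e' c' hvu hv hu
    obtain ⟨v0, hb1, hl, hp, hb, _, _, hc⟩ := hE v p b e c hv
    obtain ⟨u0, hb1', hl', hp', hb', _, _, hc'⟩ := hE u p b e' c' hu
    have h0 : v0 = u0 := by
      have h5 := src_eq B hm hl
      have h6 := src_eq B hm ((Lyr B hm).cls_trans hvu hl')
      rw [← hp, ← hb] at h5
      rw [← hp', ← hb'] at h6
      rw [← h5, h6]
    rw [← h0] at hb1' hc'
    apply (Bal B hm).eq_of_cls ((Bal B hm).cls_trans hb1 ((Bal B hm).cls_symm hb1'))
    rw [← rev_rev Q _ ((Bal B hm).pos_lt v), ← rev_rev Q _ ((Bal B hm).pos_lt u), ← hc, ← hc']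
  · intro v p b e hp hb hde hbad
    have hl0 := src_cls B hm v hp hb
    have hu0 := src_uni B hm v hp hb
    have hb0 := src_bal B hm v hp hb
    generalize hv0 : src B hm v p b = v0 at hde hl0 hu0 hb0
    have hini : A1 (Φ v0) = (some ((p, b, e), (a0 v0).1), (a0 v0).2) := by
      rw [h3, ini_some B hm hde, hu0, hb0]
    have hact : (A1 (Φ v0)).1.isSome = true := by rw [hini]; rfl
    have hlw : (Lyr B hm).cls v (Φ v0) := (Lyr B hm).cls_trans hl0 (h1 v0)
    -- the count is small
    have hN : ((Finset.range (2 ^ Q)).filter (fun t => (A1 ((Bal B hm).nd (Φ v0) t)).1.isSome = true)).card ≤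
        H69.HS.NN Z Q (π ((Lay B hm).pos v)) (dl B hm δ v) 0 0 ((Uni B hm).pos (Φ v0)) := by
      have hkey : ∀ t, t < 2 ^ Q → (A1 ((Bal B hm).nd (Φ v0) t)).1.isSome = true →
          (Lyr B hm).cls v (Φ.symm ((Bal B hm).nd (Φ v0) t)) ∧ (Uni B hm).pos ((Bal B hm).nd (Φ v0) t) = (Uni B hm).pos (Φ v0) ∧
            ∃ e', δ (Φ.symm ((Bal B hm).nd (Φ v0) t)) = some e' := by
        intro t ht ha
        have h5 := (bal_cls B hm _ _).1 ((Bal B hm).cls_nd (Φ v0) ht)
        refine ⟨?_, h5.2.symm, ?_⟩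
        · refine (Lyr B hm).cls_trans hlw ((Lyr B hm).cls_trans h5.1 ?_)
          have h6 := (Lyr B hm).cls_symm (h1 (Φ.symm ((Bal B hm).nd (Φ v0) t)))
          rwa [Φ.apply_symm_apply] at h6
        · rw [← Φ.apply_symm_apply ((Bal B hm).nd (Φ v0) t), h3] at ha
          exact ini_isSome B hm ha
      unfold H69.HS.NN
      refine Finset.card_le_card_of_injOn (fun t => ((⟨(Uni B hm).pos (Φ.symm ((Bal B hm).nd (Φ v0) t)), (Uni B hm).pos_lt _⟩,
        ⟨(Bal B hm).pos (Φ.symm ((Bal B hm).nd (Φ v0) t)), (Bal B hm).pos_lt _⟩) : Fin (2 ^ (Z * Q)) × Fin (2 ^ Q))) ?_ ?_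
      · intro t ht
        have ht' := Finset.mem_filter.1 (Finset.mem_coe.1 ht)
        obtain ⟨h5, h6, e', h7⟩ := hkey t (Finset.mem_range.1 ht'.1) ht'.2
        refine Finset.mem_coe.2 (Finset.mem_filter.2 ⟨Finset.mem_univ _, ⟨e', ?_, ?_⟩, ?_⟩)
        · show dl B hm δ v ((Uni B hm).pos (Φ.symm ((Bal B hm).nd (Φ v0) t))) = some e'
          rw [← dl_src B hm hδ.unit v ((Uni B hm).pos_lt _) ((Bal B hm).pos_lt (Φ.symm ((Bal B hm).nd (Φ v0) t))), src_eq B hm h5, h7]
        · rw [Nat.sub_zero]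
          exact Nat.div_eq_of_lt (hδ.lt _ e' h7)
        · rw [Nat.sub_zero, Nat.mod_eq_of_lt (Fin.is_lt _), ← h6]
          have h8 := h2 (Φ.symm ((Bal B hm).nd (Φ v0) t))
          rw [Φ.apply_symm_apply] at h8
          rw [h8, ← ((lyr_cls B hm _ _).1 h5).2]
          unfold pun
          rw [dif_pos ⟨(Uni B hm).pos_lt _, (Bal B hm).pos_lt _⟩]
      · intro t ht t' ht' he
        have hta := Finset.mem_filter.1 (Finset.mem_coe.1 ht)
        have htb := Finset.mem_filter.1 (Finset.mem_coe.1 ht')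
        obtain ⟨h5, _, _⟩ := hkey t (Finset.mem_range.1 hta.1) hta.2
        obtain ⟨h5', _, _⟩ := hkey t' (Finset.mem_range.1 htb.1) htb.2
        simp only [Prod.mk.injEq, Fin.mk.injEq] at he
        have h6 := src_eq B hm h5
        have h7 := src_eq B hm h5'
        rw [he.1, he.2, h7] at h6
        have h8 := congrArg (Bal B hm).pos (Φ.symm.injective h6)
        rw [(Bal B hm).pos_nd _ _ (Finset.mem_range.1 hta.1), (Bal B hm).pos_nd _ _ (Finset.mem_range.1 htb.1)] at h8
        exact h8.symm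
    have hN2 : H69.HS.NN Z Q (π ((Lay B hm).pos v)) (dl B hm δ v) 0 0 ((Uni B hm).pos (Φ v0)) ≤ 2 ^ (Q - c1) := by
      by_contra hcon
      refine hbad ⟨0, 0, (Uni B hm).pos (Φ v0), by omega, by positivity, ?_, not_le.1 hcon⟩
      rw [Nat.sub_zero]
      exact (Uni B hm).pos_lt _
    have hc := cnt_lt_tot (Bal B hm) (fun z => (A1 z).1.isSome) ((Bal B hm).cls_refl (Φ v0)) hact
    have hcap : cnt (Bal B hm) (fun z => (A1 z).1.isSome) (Φ v0) < 2 ^ (Q - c1) := (hc.trans hN).trans hN2
    have hcq : cnt (Bal B hm) (fun z => (A1 z).1.isSome) (Φ v0) < 2 ^ Q :=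
      hcap.trans_le (Nat.pow_le_pow_right (by norm_num) (Nat.sub_le _ _))
    have hr := rev_lt Q (cnt (Bal B hm) (fun z => (A1 z).1.isSome) (Φ v0))
    have hrr := rev_rev Q _ hcq
    refine ⟨(Bal B hm).nd (Φ v0) (rev Q (cnt (Bal B hm) (fun z => (A1 z).1.isSome) (Φ v0))), (a0 v0).1, ?_, ?_⟩
    · exact (Lyr B hm).cls_trans hlw ((bal_cls B hm _ _).1 ((Bal B hm).cls_nd (Φ v0) hr)).1
    · have h5 := (h4 ((Bal B hm).nd (Φ v0) (rev Q (cnt (Bal B hm) (fun z => (A1 z).1.isSome) (Φ v0))))).1 (Φ v0)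
        ((Bal B hm).cls_symm ((Bal B hm).cls_nd (Φ v0) hr)) hact
        (by rw [(Bal B hm).pos_nd _ _ hr, hrr]) (by rw [(Bal B hm).pos_nd _ _ hr, hrr]; exact hcap)
      rw [h5, hini]

end Pool.Agent.H31.HS
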