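import Mathlib
import Pool.Agent.H31.HS.Pack
import Pool.Agent.H31.HS.Shift
import Pool.Agent.H31.HS.Rev
import Pool.Agent.H31.HS.WDef

/-!
# WLine: packing the lines, at most `cap` items, and bit reversal: `4 n` rounds

`pack`, then drop the items with `B.pos v ≥ cap` (the condition does not depend on the input: `Has.ite`, `Has.emp`), then `statN` with `σ = τ = rev m` (`rev_lt`, `rev_rev`):
`v` gets the item of the node number `rev m (B.pos v)`.  Sizes: `Sm.of_range`, `Sm.sz`, `S + 1 ≤ S * W^2 ≤ Lam` (`W ≥ 2`).
-/

set_option autoImplicit false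

namespace Pool.Agent.H31.HS

variable {V Ω R : Type} {m : ℕ}

theorem line_pack {M : Mach V Ω R} {Lam k n r0 W S : ℕ} {B : Blk V m} (hL : Lines M Lam B k n r0) (hW : 2 ^ m < W) (hS : 1 ≤ S)
    (hl : S * W ^ 2 ≤ Lam) (cap : ℕ) {X : Type} (P : M.Pl) (a : V → Ω → Option X × Option R) (hs : Sm S a) (ha : ∀ v, M.Has P v (a v)) :
    M.Do (4 * n * r0) P (fun P' => ∃ b : V → Ω → Option X × Option R, (∀ v, M.Has P' v (b v)) ∧
      ∀ w, LineSpec B cap (fun v => a v w) (fun v => b v w)) := by
  classical
  have hm1 : 1 ≤ 2 ^ m := Nat.one_le_two_pow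
  have hSL : S + 1 ≤ Lam := by
    refine le_trans ?_ hl
    have h1 : 2 ≤ W := by omega
    have h2 : S * 2 ≤ S * W := Nat.mul_le_mul_left _ h1
    have h3 : S * W * 1 ≤ S * W * W := Nat.mul_le_mul_left _ (by omega)
    have h4 : S * W ^ 2 = S * W * W := by ring
    omega
  have h0 := pack hL hW hS hl P a hs ha
  have h1 : M.Do (2 * n * r0 + 2 * n * r0) P (fun P' => ∃ b : V → Ω → Option X × Option R, (∀ v, M.Has P' v (b v)) ∧
      ∀ w, LineSpec B cap (fun v => a v w) (fun v => b v w)) := by
    refine h0.bind ?_
    rintro P1 hP1 ⟨b, hb, hspec⟩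
    obtain ⟨b', hb'⟩ : ∃ b' : V → Ω → Option X × Option R, b' = fun v w => if B.pos v < cap then b v w else emp :=
      ⟨_, rfl⟩
    have hbs : Sm S b := by
      refine hs.of_range fun v w => ?_
      by_cases hex : ∃ u, B.cls v u ∧ (a u w).1.isSome ∧ cnt B (fun z => (a z w).1.isSome) u = B.pos v
      · obtain ⟨u, h1, h2, h3⟩ := hex
        right
        exact ⟨u, w, (hspec w v).1 u h1 h2 h3⟩
      · left
        have h2 := (hspec w v).2 (fun u h1 h2 h3 => hex ⟨u, h1, h2, h3⟩)
        have h3 : b v w = emp := h2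
        rw [h3]
        rfl
    have hbs' : Sm S b' := by
      refine hbs.of_range fun v w => ?_
      rw [hb']
      by_cases h : B.pos v < cap
      · right
        exact ⟨v, w, if_pos h⟩
      · left
        show (if B.pos v < cap then b v w else emp).1 = none
        rw [if_neg h]
        rfl
    have hhas : ∀ v, M.Has P1 v (b' v) := by
      intro v
      rw [hb']
      by_cases h : B.pos v < cap
      · have h2 : (fun w => if B.pos v < cap then b v w else emp) = b v := by
          funext w
          exact if_pos h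
        show M.Has P1 v (fun w => if B.pos v < cap then b v w else emp)
        rw [h2]
        exact hb v
      · have h2 : (fun w => if B.pos v < cap then b v w else emp) = fun _ => ((none : Option X), (none : Option R)) := by
          funext w
          exact if_neg h
        show M.Has P1 v (fun w => if B.pos v < cap then b v w else emp)
        rw [h2]
        exact Mach.Has.emp P1 v
    have h3 := statN hL (rev m) (rev m) (fun t _ => rev_lt m t) (fun t _ => rev_lt m t) (fun t ht => rev_rev m t ht)
      (fun t ht => rev_rev m t ht) P1 b' (hbs'.sz.mono hSL) hhas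
    refine h3.mono le_rfl fun P2 _ h4 => ⟨fun v => b' (B.nd v (rev m (B.pos v))), h4, fun w v => ?_⟩
    have hpos : B.pos (B.nd v (rev m (B.pos v))) = rev m (B.pos v) := B.pos_nd v _ (rev_lt m _)
    have hcls : B.cls v (B.nd v (rev m (B.pos v))) := B.cls_nd v (rev_lt m _)
    obtain ⟨v', hv'⟩ : ∃ v', v' = B.nd v (rev m (B.pos v)) := ⟨_, rfl⟩
    refine ⟨?_, ?_⟩
    · intro u h5 h6 h7 h8
      show b' (B.nd v (rev m (B.pos v))) w = a u w
      rw [← hv'] at hpos hcls ⊢
      rw [hb']
      show (if B.pos v' < cap then b v' w else emp) = a u w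
      rw [if_pos (by rw [hpos]; exact h8)]
      exact (hspec w v').1 u (B.cls_trans (B.cls_symm hcls) h5) h6 (by rw [hpos]; exact h7)
    · intro h5
      show b' (B.nd v (rev m (B.pos v))) w = emp
      rw [← hv'] at hpos hcls ⊢
      rw [hb']
      show (if B.pos v' < cap then b v' w else emp) = emp
      split_ifs with h6
      · refine (hspec w v').2 fun u h7 h8 h9 => ?_
        rw [hpos] at h6 h9
        exact h5 u (B.cls_trans hcls h7) h8 ⟨h9, h6⟩
      · rfl
  refine h1.mono (le_of_eq ?_) fun P' _ h => h
  ring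

end Pool.Agent.H31.HS
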