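import Mathlib
import Pool.Agent.H31.HS.WSrc

/-!
# WPerm: the layer permutations as a permutation of `V`

`Φ v := src B hm v (π (..)).1 (π (..)).2`, where `π = π (layer number of v)` is applied to (unit number, balance number) of `v`; inverse with the inverse permutations
(`src_cls`, `lyr_cls`: the layer number does not change; `src_uni`, `src_bal`, `src_of_cls`, `src_self`).
-/

/-!
# WPerm: the layer permutations as a permutation of `V`

`Φ v := src B hm v (π (..)).1 (π (..)).2`, where `π = π (layer number of v)` is applied to (unit number, balance number) of `v`; inverse with the inverse permutations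
(`src_cls`, `lyr_cls`: the layer number does not change; `src_uni`, `src_bal`, `src_of_cls`, `src_self`).
-/

set_option autoImplicit false

namespace Pool.Agent.H31.HS

variable {V : Type} {m g Q Z : ℕ} (B : Blk V m) (hm : m = g + Q + Z * Q)

/-- (Unit number, balance number) of `v`. -/
private def pl (v : V) : Fin (2 ^ (Z * Q)) × Fin (2 ^ Q) := (⟨(Uni B hm).pos v, (Uni B hm).pos_lt v⟩, ⟨(Bal B hm).pos v, (Bal B hm).pos_lt v⟩)

private def fw (π : ℕ → Equiv.Perm (Fin (2 ^ (Z * Q)) × Fin (2 ^ Q))) (v : V) : V :=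
  src B hm v (π ((Lay B hm).pos v) (pl B hm v)).1.val (π ((Lay B hm).pos v) (pl B hm v)).2.val

private theorem fw_cls (π : ℕ → Equiv.Perm (Fin (2 ^ (Z * Q)) × Fin (2 ^ Q))) (v : V) : (Lyr B hm).cls v (fw B hm π v) :=
  src_cls B hm v (Fin.is_lt _) (Fin.is_lt _)

private theorem fw_lay (π : ℕ → Equiv.Perm (Fin (2 ^ (Z * Q)) × Fin (2 ^ Q))) (v : V) :
    (Lay B hm).pos (fw B hm π v) = (Lay B hm).pos v :=
  (((lyr_cls B hm v _).1 (fw_cls B hm π v)).2).symm

private theorem fw_pl (π : ℕ → Equiv.Perm (Fin (2 ^ (Z * Q)) × Fin (2 ^ Q))) (v : V) :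
    pl B hm (fw B hm π v) = π ((Lay B hm).pos v) (pl B hm v) := by
  refine Prod.ext (Fin.ext ?_) (Fin.ext ?_)
  · exact src_uni B hm v (Fin.is_lt _) (Fin.is_lt _)
  · exact src_bal B hm v (Fin.is_lt _) (Fin.is_lt _)

private theorem fw_fw (π π' : ℕ → Equiv.Perm (Fin (2 ^ (Z * Q)) × Fin (2 ^ Q))) (h : ∀ l x, π' l (π l x) = x) (v : V) :
    fw B hm π' (fw B hm π v) = v := by
  have h1 : fw B hm π' (fw B hm π v) = src B hm (fw B hm π v) (pl B hm v).1.val (pl B hm v).2.val := by
    conv_lhs => unfold fw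
    rw [show src B hm v (π ((Lay B hm).pos v) (pl B hm v)).1.val (π ((Lay B hm).pos v) (pl B hm v)).2.val = fw B hm π v from rfl,
      fw_lay, fw_pl, h]
  rw [h1, src_of_cls B hm (fw_cls B hm π v) (Fin.is_lt _) (Fin.is_lt _)]
  exact src_self B hm v

theorem lay_perm (π : ℕ → Equiv.Perm (Fin (2 ^ (Z * Q)) × Fin (2 ^ Q))) :
    ∃ Φ : Equiv.Perm V, (∀ v, (Lyr B hm).cls v (Φ v)) ∧
      ∀ v, (Uni B hm).pos (Φ v) = pun (π ((Lay B hm).pos v)) ((Uni B hm).pos v) ((Bal B hm).pos v) := by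
  refine ⟨⟨fw B hm π, fw B hm (fun l => (π l).symm), fw_fw B hm _ _ (fun l x => (π l).symm_apply_apply x),
    fw_fw B hm _ _ (fun l x => (π l).apply_symm_apply x)⟩, fun v => fw_cls B hm π v, fun v => ?_⟩
  have h1 : (Uni B hm).pos (fw B hm π v) = (π ((Lay B hm).pos v) (pl B hm v)).1.val := congrArg (fun x => x.1.val) (fw_pl B hm π v)
  refine h1.trans ?_
  unfold pun
  rw [dif_pos ⟨(Uni B hm).pos_lt v, (Bal B hm).pos_lt v⟩]
  rfl

end Pool.Agent.H31.HS
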