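import Mathlib
import Pool.Agent.H31.HS.WInitP
import Pool.Agent.H31.HS.WPerm
import Pool.Agent.H31.HS.WLine
import Pool.Agent.H31.HS.WLin

/-!
# WInit: the first step of wide routing

`lay_perm` gives `Φ`; `ini` is had by every node (local: from the content, `δ`, and the position); `stat` for `Lyr` (`lines_lyr`): cost `2 * (Z*q+q) * r0`; then `line_pack` for `Bal` (`lines_bal`)
with `cap = 2^(Q-c1)`: cost `4 * q * r0`; `init_inv`.  Sizes: the labels `((p, b, e), c)`: `p, b, e < W`, `c` among `S + 1` values: at most `W^3 * (S+1) ≤ S * W^4` (`W ≥ 2`);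
`S * W^6 ≤ Lam`; for `stat` the label `none` included: `S * W^4 + 1 ≤ Lam`.
-/

set_option autoImplicit false

namespace Pool.Agent.H31.HS

variable {V Ω R : Type} {m g Q Z k n q gl r0 Lam W S c1 : ℕ}

private theorem lab_sm {I X : Type} {S W : ℕ} {a : I → Ω → Option X × Option R} (hs : Sm S a)
    {b : I → Ω → Option (Lb X) × Option R} (hb : ∀ i w x, (b i w).1 = some x →
      x.1.1 < W ∧ x.1.2.1 < W ∧ x.1.2.2 < W ∧ ∃ i' w', x.2 = (a i' w').1) : Sm (W * (W * W) * (S + 1)) b := by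
  obtain ⟨T, h1, h2⟩ := hs.sz
  refine ⟨(Finset.range W ×ˢ (Finset.range W ×ˢ Finset.range W)) ×ˢ T, ?_, fun i w x hx => ?_⟩
  · rw [Finset.card_product, Finset.card_product, Finset.card_product, Finset.card_range]
    exact Nat.mul_le_mul le_rfl h1
  · obtain ⟨h3, h4, h5, i', w', h6⟩ := hb i w x hx
    refine Finset.mem_product.2 ⟨Finset.mem_product.2 ⟨Finset.mem_range.2 h3,
      Finset.mem_product.2 ⟨Finset.mem_range.2 h4, Finset.mem_range.2 h5⟩⟩, ?_⟩
    rw [h6]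
    exact h2 i' w'

private theorem w_two (hW : 2 ^ m < W) : 2 ≤ W := by
  have h1 : 1 ≤ 2 ^ m := Nat.one_le_two_pow
  omega

private theorem lab_le (hW : 2 ≤ W) (hS : 1 ≤ S) : W * (W * W) * (S + 1) ≤ S * W ^ 4 := by
  calc W * (W * W) * (S + 1) ≤ W * (W * W) * (W * S) := by
        refine Nat.mul_le_mul le_rfl ?_
        calc S + 1 ≤ 2 * S := by omega
          _ ≤ W * S := Nat.mul_le_mul hW le_rfl
    _ = S * W ^ 4 := by ring

private theorem uni_ltW (B : Blk V m) (hm : m = g + Q + Z * Q) (hW : 2 ^ m < W) {x : ℕ} (h : x < 2 ^ (Z * Q)) : x < W := by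
  have h1 : 2 ^ (Z * Q) ≤ 2 ^ m := Nat.pow_le_pow_right (by norm_num) (by omega)
  omega

private theorem bal_ltW (B : Blk V m) (hm : m = g + Q + Z * Q) (hW : 2 ^ m < W) {x : ℕ} (h : x < 2 ^ Q) : x < W := by
  have h1 : 2 ^ Q ≤ 2 ^ m := Nat.pow_le_pow_right (by norm_num) (by omega)
  omega

private theorem ini_has {M : Mach V Ω R} {B : Blk V m} (hm : m = g + Q + Z * Q)
    {X : Type} {P : M.Pl} {a : V → Ω → Option X × Option R} (ha : ∀ v, M.Has P v (a v)) {δ : V → Ω → Option ℕ}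
    (hδ : ∀ v, M.Knows P v (δ v)) (v : V) :
    M.Has P v (fun w => ini B hm (fun v => δ v w) (fun v => a v w) v) := by
  constructor
  · intro w w' hs
    have h1 := (ha v).1 w w' hs
    have h2 := hδ v w w' hs
    simp only [ini, h1, h2]
  · intro w r hr
    rcases h1 : δ v w with _ | e
    · simp only [ini, h1, emp] at hr
      exact absurd hr (by simp)
    · simp only [ini, h1] at hr
      exact (ha v).2 w r hr

private theorem ini_lab {B : Blk V m} (hm : m = g + Q + Z * Q) (hW : 2 ^ m < W)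
    {X : Type} {a : V → Ω → Option X × Option R} {δ : V → Ω → Option ℕ} (hd : ∀ w, DlOK B hm c1 (fun v => δ v w))
    (v : V) (w : Ω) (x : Lb X) (hx : (ini B hm (fun v => δ v w) (fun v => a v w) v).1 = some x) :
    x.1.1 < W ∧ x.1.2.1 < W ∧ x.1.2.2 < W ∧ ∃ i' w', x.2 = (a i' w').1 := by
  rcases h1 : δ v w with _ | e
  · simp only [ini, h1, emp] at hx
    exact absurd hx (by simp)
  · simp only [ini, h1, Option.some.injEq] at hx
    subst hx
    exact ⟨uni_ltW B hm hW ((Uni B hm).pos_lt v), bal_ltW B hm hW ((Bal B hm).pos_lt v),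
      uni_ltW B hm hW ((hd w).lt v e h1), v, w, rfl⟩

theorem w_init {M : Mach V Ω R} {B : Blk V m} (hm : m = g + Q + Z * Q) (hL : Lines M Lam B k n r0) (hQ : Q = k * q) (hg : g = k * gl)
    (hZ : 1 ≤ Z) (hW : 2 ^ m < W) (hS : 1 ≤ S) (hl : S * W ^ 6 ≤ Lam) (π : ℕ → Equiv.Perm (Fin (2 ^ (Z * Q)) × Fin (2 ^ Q)))
    {X : Type} (P : M.Pl) (a : V → Ω → Option X × Option R) (hs : Sm S a) (ha : ∀ v, M.Has P v (a v)) (δ : V → Ω → Option ℕ)
    (hδ : ∀ v, M.Knows P v (δ v)) (hd : ∀ w, DlOK B hm c1 (fun v => δ v w)) :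
    M.Do ((2 * (Z * q) + 6 * q) * r0) P (fun P' => ∃ A : V → Ω → Option (Lb X) × Option R, (∀ v, M.Has P' v (A v)) ∧
      ∀ w, Inv B hm c1 π (fun v => δ v w) (fun v => a v w) 0 (fun v => A v w) ∧
        RevPat (Bal B hm) c1 (fun v => (A v w).1.isSome)) := by
  have hW2 := w_two hW
  obtain ⟨Φ, hΦ1, hΦ2⟩ := lay_perm B hm π
  have hsm : Sm (S * W ^ 4) (fun v w => ini B hm (fun v => δ v w) (fun v => a v w) v) :=
    (lab_sm hs (ini_lab hm hW hd)).mono (lab_le hW2 hS)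
  have hsz : Sz Lam (fun v w => (ini B hm (fun v => δ v w) (fun v => a v w) v).1) := by
    refine hsm.sz.mono (le_trans ?_ hl)
    have h1 : 1 ≤ S * W ^ 4 := Nat.mul_pos hS (by positivity)
    calc S * W ^ 4 + 1 ≤ S * W ^ 4 * (2 * 2) := by omega
      _ ≤ S * W ^ 4 * (W * W) := Nat.mul_le_mul le_rfl (Nat.mul_le_mul hW2 hW2)
      _ = S * W ^ 6 := by ring
  have hc : (2 * (Z * q) + 6 * q) * r0 = 2 * (Z * q + q) * r0 + 4 * q * r0 := by ring
  rw [hc]
  refine (stat (lines_lyr hm hL hQ hg) Φ hΦ1 P (fun v w => ini B hm (fun v => δ v w) (fun v => a v w) v) hsz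
    (ini_has hm ha hδ)).bind fun P1 _ hP1 => ?_
  have hA1 : ∀ v, M.Has P1 v (fun w => ini B hm (fun v => δ v w) (fun v => a v w) (Φ.symm v)) := by
    intro v
    have h5 := hP1 (Φ.symm v)
    rw [Equiv.apply_symm_apply] at h5
    exact h5
  have hsm1 : Sm (S * W ^ 4) (fun v w => ini B hm (fun v => δ v w) (fun v => a v w) (Φ.symm v)) :=
    hsm.of_range fun v w => Or.inr ⟨Φ.symm v, w, rfl⟩
  have hWQ : 2 ^ Q < W := by
    have h1 : 2 ^ Q ≤ 2 ^ m := Nat.pow_le_pow_right (by norm_num) (by omega)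
    omega
  refine (line_pack (lines_bal hm hL hQ hg) hWQ (Nat.mul_pos hS (by positivity)) (le_trans (le_of_eq (by ring)) hl)
    (2 ^ (Q - c1)) P1 (fun v w => ini B hm (fun v => δ v w) (fun v => a v w) (Φ.symm v)) hsm1 hA1).mono le_rfl ?_
  rintro P2 _ ⟨A, hA, hA'⟩
  refine ⟨A, hA, fun w => ?_⟩
  exact init_inv B hm hZ (hd w) hΦ1 hΦ2 (A1 := fun v => ini B hm (fun v => δ v w) (fun v => a v w) (Φ.symm v))
    (fun v => by
      show ini B hm (fun v => δ v w) (fun v => a v w) (Φ.symm (Φ v)) = _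
      rw [Equiv.symm_apply_apply]) (hA' w)

/-- Size of the labels of a state. -/
theorem inv_sm {B : Blk V m} (hm : m = g + Q + Z * Q) (hW : 2 ^ m < W) (hS : 1 ≤ S) {π : ℕ → Equiv.Perm (Fin (2 ^ (Z * Q)) × Fin (2 ^ Q))}
    {X : Type} {a : V → Ω → Option X × Option R} (hs : Sm S a) {δ : V → Ω → Option ℕ} (hd : ∀ w, DlOK B hm c1 (fun v => δ v w)) {j : ℕ}
    {A : V → Ω → Option (Lb X) × Option R} (hA : ∀ w, Inv B hm c1 π (fun v => δ v w) (fun v => a v w) j (fun v => A v w)) :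
    Sm (S * W ^ 4) A := by
  refine (lab_sm hs (fun v w x hx => ?_)).mono (lab_le (w_two hW) hS)
  obtain ⟨⟨p, b, e⟩, c⟩ := x
  obtain ⟨h1, h2, h3, h4⟩ := (hA w).i1 v p b e c hx
  exact ⟨uni_ltW B hm hW h1, bal_ltW B hm hW h2, uni_ltW B hm hW ((hd w).lt _ e h3), src B hm v p b, w, by
    have h5 := congrArg Prod.fst h4
    exact h5⟩

end Pool.Agent.H31.HS
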