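import Mathlib
import Pool.Agent.H31.HS.WDef
import Pool.Agent.H31.HS.Rev
import Pool.Agent.H31.HS.BitF1

/-!
# WPat: occupied places after a stage

`stage_pat`: fix a line (class of `PL.bits 0 Q`, that is the places `t * 2^Q + β`, `β < 2^Q`, of a class).  The items of the class with group `t` have the ranks `0, ..., N-1`, each exactly once (the keys of
different places are different; induction or: the rank is an injective map into `range N`).  So the place `t * 2^Q + β` is occupied in `A'` iff `rev Q β < min N cap`; put `Nn = min N cap ≤ 2^(Q-c1)`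
and `β = rev Q (rev Q β)`.
`stage_line`: without reversal: the place `β` has the item of rank `β` (if `β < cap`); if `β < β'` and `β'` is occupied, then `β` is occupied and the key is smaller (rank is strictly increasing
in the key inside a group: `rkT u x < rkT u y` iff `κ x < κ y`, for items of the same group).
`lt_of_kapW`: same group and smaller `kapW`, same `p`: then smaller `b`.
-/

set_option autoImplicit false

namespace Pool.Agent.H31.HS

variable {V X R : Type} {Q : ℕ}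

private theorem wp_div {a t β : ℕ} (hβ : β < 2 ^ Q) (h : a = t * 2 ^ Q + β) : a / 2 ^ Q = t ∧ a % 2 ^ Q = β := by
  rw [h]
  constructor
  · rw [mul_comm, Nat.mul_add_div (by positivity), Nat.div_eq_of_lt hβ, add_zero]
  · rw [mul_comm, Nat.mul_add_mod, Nat.mod_eq_of_lt hβ]

/-- Facts on a line: the place with the low number `β`. -/
private theorem wp_line (PL : Blk V (Q + Q)) (h : 0 + Q ≤ Q + Q) (v : V) {β : ℕ} (hβ : β < 2 ^ Q) :
    PL.cls v ((PL.bits 0 Q h).nd v β) ∧ PL.pos ((PL.bits 0 Q h).nd v β) / 2 ^ Q = PL.pos v / 2 ^ Q ∧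
      PL.pos ((PL.bits 0 Q h).nd v β) % 2 ^ Q = β := by
  have h1 := (bits_cls PL h v _).1 ((PL.bits 0 Q h).cls_nd v hβ)
  have h2 := (PL.bits 0 Q h).pos_nd v β hβ
  have h3 : (PL.bits 0 Q h).pos ((PL.bits 0 Q h).nd v β) =
      PL.pos ((PL.bits 0 Q h).nd v β) / 2 ^ 0 % 2 ^ Q := rfl
  rw [h3, pow_zero, Nat.div_one] at h2
  have h4 := h1.2.1
  rw [zero_add] at h4
  exact ⟨h1.1, h4.symm, h2⟩

private theorem wp_bpos (PL : Blk V (Q + Q)) (h : 0 + Q ≤ Q + Q) (v : V) :
    (PL.bits 0 Q h).pos v = PL.pos v % 2 ^ Q := by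
  show PL.pos v / 2 ^ 0 % 2 ^ Q = _
  rw [pow_zero, Nat.div_one]

/-- The rank is strictly monotone in the key inside a group. -/
private theorem wp_mono {PL : Blk V (Q + Q)} {tt κ : X → ℕ} {A : V → Option X × Option R} {u w : V} {x y : X}
    (hc : PL.cls u w) (hx : (A u).1 = some x) (ht : tt x = tt y) (hk : κ x < κ y) :
    rkT PL tt κ A u x < rkT PL tt κ A w y := by
  classical
  unfold rkT
  refine Finset.card_lt_card ?_
  rw [Finset.ssubset_iff_of_subset]
  · refine ⟨PL.pos u, ?_, ?_⟩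
    · rw [Finset.mem_filter, Finset.mem_range]
      refine ⟨PL.pos_lt u, x, ?_, ht, hk⟩
      have h1 : PL.nd w (PL.pos u) = u := PL.cls_symm hc
      rw [h1]
      exact hx
    · rw [Finset.mem_filter]
      rintro ⟨-, x', h1, -, h2⟩
      rw [PL.nd_pos, hx] at h1
      rw [← Option.some.inj h1] at h2
      exact lt_irrefl _ h2
  · intro t ht'
    rw [Finset.mem_filter, Finset.mem_range] at ht' ⊢
    obtain ⟨h1, x', h2, h3, h4⟩ := ht'
    refine ⟨h1, x', ?_, h3.trans ht, h4.trans hk⟩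
    rw [PL.nd_of_cls hc h1]
    exact h2

private theorem wp_rk_cls {PL : Blk V (Q + Q)} {tt κ : X → ℕ} {A : V → Option X × Option R} {u w : V} (x : X)
    (hc : PL.cls u w) : rkT PL tt κ A u x = rkT PL tt κ A w x := by
  classical
  unfold rkT
  congr 1
  ext t
  rw [Finset.mem_filter, Finset.mem_filter, Finset.mem_range]
  constructor
  · rintro ⟨h1, h2⟩
    rw [PL.nd_of_cls hc h1]
    exact ⟨h1, h2⟩
  · rintro ⟨h1, h2⟩
    rw [PL.nd_of_cls hc h1] at h2
    exact ⟨h1, h2⟩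

open Classical in
/-- The places of the items of the group `g` in the class of `v`. -/
private noncomputable def wpG (PL : Blk V (Q + Q)) (tt : X → ℕ) (A : V → Option X × Option R) (v : V) (g : ℕ) :
    Finset ℕ :=
  (Finset.range (2 ^ (Q + Q))).filter (fun t => ∃ x, (A (PL.nd v t)).1 = some x ∧ tt x = g)

/-- Every rank below the number of items of the group is taken. -/
private theorem wp_surj {PL : Blk V (Q + Q)} {tt κ : X → ℕ} {A : V → Option X × Option R}
    (hdist : ∀ v u x y, PL.cls v u → (A v).1 = some x → (A u).1 = some y → κ x = κ y → v = u)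
    (v : V) (g : ℕ) : ∀ r, r < (wpG PL tt A v g).card ↔
      ∃ u x, PL.cls v u ∧ (A u).1 = some x ∧ tt x = g ∧ rkT PL tt κ A u x = r := by
  classical
  have hex : ∀ t, ∃ r, t ∈ wpG PL tt A v g → ∃ x, (A (PL.nd v t)).1 = some x ∧ tt x = g ∧
      rkT PL tt κ A (PL.nd v t) x = r := by
    intro t
    by_cases ht : t ∈ wpG PL tt A v g
    · unfold wpG at ht
      rw [Finset.mem_filter] at ht
      obtain ⟨-, x, h1, h2⟩ := ht
      exact ⟨_, fun _ => ⟨x, h1, h2, rfl⟩⟩
    · exact ⟨0, fun h => absurd h ht⟩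
  choose f hf using hex
  have hmem : ∀ t, t ∈ wpG PL tt A v g → t < 2 ^ (Q + Q) := by
    intro t ht
    unfold wpG at ht
    exact Finset.mem_range.1 (Finset.mem_filter.1 ht).1
  have hlt : ∀ t ∈ wpG PL tt A v g, f t < (wpG PL tt A v g).card := by
    intro t ht
    obtain ⟨x, h1, h2, h3⟩ := hf t ht
    rw [← h3]
    unfold rkT
    refine Finset.card_lt_card ?_
    rw [Finset.ssubset_iff_of_subset]
    · refine ⟨t, ht, ?_⟩
      rw [Finset.mem_filter]
      rintro ⟨h0, x', h4, -, h5⟩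
      rw [PL.nd_of_cls (PL.cls_nd v (hmem t ht)) (Finset.mem_range.1 h0), h1] at h4
      rw [← Option.some.inj h4] at h5
      exact lt_irrefl _ h5
    · intro s hs
      rw [Finset.mem_filter, Finset.mem_range] at hs
      obtain ⟨h4, x', h5, h6, -⟩ := hs
      unfold wpG
      rw [Finset.mem_filter, Finset.mem_range]
      rw [PL.nd_of_cls (PL.cls_nd v (hmem t ht)) h4] at h5
      exact ⟨h4, x', h5, h6.trans h2⟩
  have hinj : Set.InjOn f (wpG PL tt A v g : Set ℕ) := by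
    intro t ht s hs hts
    have ht' := Finset.mem_coe.1 ht
    have hs' := Finset.mem_coe.1 hs
    obtain ⟨x, h1, h2, h3⟩ := hf t ht'
    obtain ⟨y, h4, h5, h6⟩ := hf s hs'
    have hcc : PL.cls (PL.nd v t) (PL.nd v s) :=
      PL.cls_trans (PL.cls_symm (PL.cls_nd v (hmem t ht'))) (PL.cls_nd v (hmem s hs'))
    have hk : κ x = κ y := by
      rcases Nat.lt_trichotomy (κ x) (κ y) with h | h | h
      · have := wp_mono (κ := κ) hcc h1 (h2.trans h5.symm) h
        rw [h3, h6, hts] at this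
        exact absurd this (lt_irrefl _)
      · exact h
      · have := wp_mono (κ := κ) (PL.cls_symm hcc) h4 (h5.trans h2.symm) h
        rw [h3, h6, hts] at this
        exact absurd this (lt_irrefl _)
    have h7 := hdist _ _ x y hcc h1 h4 hk
    rw [← PL.pos_nd v t (hmem t ht'), h7, PL.pos_nd v s (hmem s hs')]
  have himg : (wpG PL tt A v g).image f = Finset.range (wpG PL tt A v g).card := by
    refine Finset.eq_of_subset_of_card_le ?_ ?_
    · intro r hr
      obtain ⟨t, ht, rfl⟩ := Finset.mem_image.1 hr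
      exact Finset.mem_range.2 (hlt t ht)
    · rw [Finset.card_range, Finset.card_image_of_injOn hinj]
  intro r
  constructor
  · intro hr
    have h1 : r ∈ (wpG PL tt A v g).image f := by
      rw [himg]
      exact Finset.mem_range.2 hr
    obtain ⟨t, ht, h2⟩ := Finset.mem_image.1 h1
    obtain ⟨x, h3, h4, h5⟩ := hf t ht
    exact ⟨PL.nd v t, x, PL.cls_nd v (hmem t ht), h3, h4, by rw [h5, h2]⟩
  · rintro ⟨u, x, hc, hx, hg, hr⟩
    have ht : PL.pos u ∈ wpG PL tt A v g := by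
      unfold wpG
      rw [Finset.mem_filter, Finset.mem_range]
      have h1 : PL.nd v (PL.pos u) = u := hc
      exact ⟨PL.pos_lt u, x, by rw [h1]; exact hx, hg⟩
    obtain ⟨y, h3, h4, h5⟩ := hf _ ht
    have h1 : PL.nd v (PL.pos u) = u := hc
    rw [h1] at h3 h5
    rw [hx] at h3
    rw [← Option.some.inj h3, hr] at h5
    rw [h5]
    exact hlt _ ht

/-- The occupied places of `A'`. -/
private theorem wp_occ {PL : Blk V (Q + Q)} {tt κ : X → ℕ} {cap : ℕ} {rv : Bool} {A A' : V → Option X × Option R}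
    (hs : StageSpec PL tt κ cap rv A A') (v : V) (x : X) : (A' v).1 = some x ↔
      ∃ u, PL.cls v u ∧ (A u).1 = some x ∧ tt x = PL.pos v / 2 ^ Q ∧
        rkT PL tt κ A u x = (if rv then rev Q (PL.pos v % 2 ^ Q) else PL.pos v % 2 ^ Q) ∧
        rkT PL tt κ A u x < cap := by
  constructor
  · intro hx
    by_contra hcon
    have h2 : A' v = emp := by
      refine (hs v).2 (fun u x' hc hx' hh => hcon ?_)
      have h3 := (hs v).1 u x' hc hx' hh.1 hh.2.1 hh.2.2
      have h4 : x' = x := by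
        rw [h3, hx'] at hx
        exact Option.some.inj hx
      rw [h4] at hx' hh
      exact ⟨u, hc, hx', hh.1, hh.2.1, hh.2.2⟩
    rw [h2] at hx
    exact absurd hx (by simp [emp])
  · rintro ⟨u, hc, hx, h1, h2, h3⟩
    rw [(hs v).1 u x hc hx h1 h2 h3]
    exact hx

theorem stage_pat {PL : Blk V (Q + Q)} {tt κ : X → ℕ} {c1 : ℕ} {A A' : V → Option X × Option R}
    (hdist : ∀ v u x y, PL.cls v u → (A v).1 = some x → (A u).1 = some y → κ x = κ y → v = u)
    (hs : StageSpec PL tt κ (2 ^ (Q - c1)) true A A') (h : 0 + Q ≤ Q + Q) : RevPat (PL.bits 0 Q h) c1 (fun v => (A' v).1.isSome) := by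
  intro v
  refine ⟨min (wpG PL tt A v (PL.pos v / 2 ^ Q)).card (2 ^ (Q - c1)), min_le_right _ _, ?_⟩
  intro t ht
  obtain ⟨hc, hd, hm⟩ := wp_line PL h v ht
  obtain ⟨w, hw⟩ : ∃ w, w = (PL.bits 0 Q h).nd v t := ⟨_, rfl⟩
  rw [← hw] at hc hd hm ⊢
  show (A' w).1.isSome = true ↔ _
  rw [Option.isSome_iff_exists]
  constructor
  · rintro ⟨x, hx⟩
    obtain ⟨u, h1, h2, h3, h4, h5⟩ := (wp_occ hs w x).1 hx
    rw [if_pos rfl, hm] at h4
    refine ⟨rev Q t, ?_, (rev_rev Q t ht).symm⟩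
    rw [lt_min_iff]
    constructor
    · rw [wp_surj (κ := κ) hdist v (PL.pos v / 2 ^ Q) (rev Q t)]
      exact ⟨u, x, PL.cls_trans hc h1, h2, by rw [h3, hd], h4⟩
    · rw [← h4]
      exact h5
  · rintro ⟨r, hr, hrt⟩
    rw [lt_min_iff] at hr
    obtain ⟨u, x, h1, h2, h3, h4⟩ := (wp_surj (κ := κ) hdist v (PL.pos v / 2 ^ Q) r).1 hr.1
    have hrQ : r < 2 ^ Q := hr.2.trans_le (Nat.pow_le_pow_right two_pos (Nat.sub_le _ _))
    refine ⟨x, (wp_occ hs w x).2 ⟨u, PL.cls_trans (PL.cls_symm hc) h1, h2, by rw [h3, hd], ?_, ?_⟩⟩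
    · rw [if_pos rfl, hm, hrt, rev_rev Q r hrQ]
      exact h4
    · rw [h4]
      exact hr.2

theorem stage_line {PL : Blk V (Q + Q)} {tt κ : X → ℕ} {A A' : V → Option X × Option R}
    (hdist : ∀ v u x y, PL.cls v u → (A v).1 = some x → (A u).1 = some y → κ x = κ y → v = u)
    (hs : StageSpec PL tt κ (2 ^ Q) false A A') (h : 0 + Q ≤ Q + Q) (v u : V) (hc : (PL.bits 0 Q h).cls v u)
    (hlt : (PL.bits 0 Q h).pos v < (PL.bits 0 Q h).pos u) (y : X) (hy : (A' u).1 = some y) :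
    ∃ x, (A' v).1 = some x ∧ tt x = tt y ∧ κ x < κ y := by
  rw [wp_bpos, wp_bpos] at hlt
  have hcc := (bits_cls PL h v u).1 hc
  have hd := hcc.2.1
  rw [zero_add] at hd
  obtain ⟨u', h1, h2, h3, h4, h5⟩ := (wp_occ hs u y).1 hy
  simp only [Bool.false_eq_true, if_false] at h4
  have hcap : PL.pos v % 2 ^ Q < (wpG PL tt A v (PL.pos v / 2 ^ Q)).card := by
    refine hlt.trans ?_
    rw [← h4]
    rw [wp_surj (κ := κ) hdist v (PL.pos v / 2 ^ Q)]
    exact ⟨u', y, PL.cls_trans hcc.1 h1, h2, by rw [h3, hd], rfl⟩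
  obtain ⟨w, x, k1, k2, k3, k4⟩ := (wp_surj (κ := κ) hdist v (PL.pos v / 2 ^ Q) _).1 hcap
  refine ⟨x, (wp_occ hs v x).2 ⟨w, k1, k2, k3, ?_, ?_⟩, ?_, ?_⟩
  · simp only [Bool.false_eq_true, if_false]
    exact k4
  · rw [k4]
    exact Nat.mod_lt _ (by positivity)
  · rw [k3, h3, hd]
  · have htt : tt y = tt x := by rw [k3, h3, hd]
    by_contra hcon
    have hcw : PL.cls u' w := PL.cls_trans (PL.cls_symm (PL.cls_trans hcc.1 h1)) k1
    rcases Nat.lt_or_eq_of_le (not_lt.1 hcon) with h6 | h6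
    · have h7 := wp_mono (κ := κ) hcw h2 htt h6
      omega
    · have h7 := hdist u' w y x hcw h2 k2 h6
      rw [h7] at h4
      rw [h7, k2] at h2
      rw [← Option.some.inj h2, k4] at h4
      omega

theorem lt_of_kapW {Z jj : ℕ} {x y : Lb X} (h : ttW Q jj x = ttW Q jj y) (h1 : x.1.1 = y.1.1) (hk : kapW Q Z jj x < kapW Q Z jj y) :
    x.1.2.1 < y.1.2.1 := by
  unfold kapW at hk
  rw [h, h1] at hk
  by_contra hcon
  have h2 : (ttW Q jj y * 2 ^ Q + y.1.2.1) * 2 ^ (Z * Q) ≤ (ttW Q jj y * 2 ^ Q + x.1.2.1) * 2 ^ (Z * Q) :=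
    Nat.mul_le_mul_right _ (by omega)
  omega

/-- Different places of a plane have different keys. -/
theorem kap_dist {m g Z c1 j jj : ℕ} {B : Blk V m} (hm : m = g + Q + Z * Q) (hjj : jj < Z)
    {π : ℕ → Equiv.Perm (Fin (2 ^ (Z * Q)) × Fin (2 ^ Q))} {δ : V → Option ℕ} {a0 : V → Option X × Option R}
    {A : V → Option (Lb X) × Option R} (hA : Inv B hm c1 π δ a0 j A) (v u : V) (x y : Lb X) (hc : (Lyr B hm).cls v u)
    (hx : (A v).1 = some x) (hy : (A u).1 = some y) (hk : kapW Q Z jj x = kapW Q Z jj y) : v = u := by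
  obtain ⟨⟨p, b, e⟩, c⟩ := x
  obtain ⟨⟨p', b', e'⟩, c'⟩ := y
  obtain ⟨h1, h2, -, -⟩ := hA.i1 v p b e c hx
  obtain ⟨h3, h4, -, -⟩ := hA.i1 u p' b' e' c' hy
  have hpos : 0 < 2 ^ (Z * Q) := by positivity
  have hposQ : 0 < 2 ^ Q := by positivity
  obtain ⟨s, hs⟩ : ∃ s, s = ttW Q jj (((p, b, e), c) : Lb X) := ⟨_, rfl⟩
  obtain ⟨s', hs'⟩ : ∃ s', s' = ttW Q jj (((p', b', e'), c') : Lb X) := ⟨_, rfl⟩
  have hk' : (s * 2 ^ Q + b) * 2 ^ (Z * Q) + p = (s' * 2 ^ Q + b') * 2 ^ (Z * Q) + p' := by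
    rw [hs, hs']
    exact hk
  have e1 : p = p' := by
    have h5 := congrArg (fun n => n % 2 ^ (Z * Q)) hk'
    simp only [mul_comm _ (2 ^ (Z * Q)), Nat.mul_add_mod, Nat.mod_eq_of_lt h1, Nat.mod_eq_of_lt h3] at h5
    exact h5
  have e2 : s * 2 ^ Q + b = s' * 2 ^ Q + b' := by
    rw [e1] at hk'
    exact Nat.eq_of_mul_eq_mul_right hpos (Nat.add_right_cancel hk')
  have e3 : b = b' := by
    have h5 := congrArg (fun n => n % 2 ^ Q) e2
    simp only [mul_comm _ (2 ^ Q), Nat.mul_add_mod, Nat.mod_eq_of_lt h2, Nat.mod_eq_of_lt h4] at h5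
    exact h5
  rw [← e1, ← e3] at hy
  exact hA.i3 v u p b e c e' c' hc hx hy

end Pool.Agent.H31.HS
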