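import Mathlib
import Pool.Agent.H31.HS.WSrc
import Pool.Agent.H31.HS.WPln
import Pool.Agent.H31.HS.Rev

/-!
# WStep: one stage preserves the invariant (pure part)

`jj = Z - 1 - j` (`j < Z`), `tt = ttW Q jj`, `κ = kapW Q Z jj`, `cap = 2^(Q-c1)` and `rv = true` if `0 < jj`; `cap = 2^Q`, `rv = false` if `jj = 0`.
By `StageSpec` every item of `A'` at `v` is an item of `A` at some `u` of the plane class with `tt x = (unit of v) / 2^(jj*Q) % 2^Q` (`pln_pos`), and the class is contained in the layer (`pln_cls`).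
`i1`: same item, same layer (`src_of_cls`).  `i2`: `(Z-j)*Q = jj*Q+Q`, `(Z-(j+1))*Q = jj*Q`; from `pln_cls`, `i2` at `u`, `tt x = e / 2^(jj*Q) % 2^Q`: `(unit v) / 2^(jj*Q) = e / 2^(jj*Q)` since
`y / 2^(jj*Q) = y / 2^(jj*Q+Q) * 2^Q + y / 2^(jj*Q) % 2^Q`; and `(unit v) % 2^(jj*Q) = (unit u) % 2^(jj*Q) = pun % 2^(jj*Q)` (`Nat.mod_mod_of_dvd`).
`i3`: two places `v`, `v'` of the layer with items `(p, b, ..)`: both come from the same `u` (`i3` for `A`), so they are in the plane class of `u`, have the same chunk `tt x` and the same rank `rkT`, so the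
same balance number (`rev_rev`).  `i4`: clear.
`i5`: the layer is not bad, the item `(p, b)` is at `u` in `A`.  Let `t = tt x`, `ρ = rkT .. u x`.  If `jj > 0`: the items of the plane class of `u` with group `t` are different items `(p', b')` with
`δ_{p'} = e'`, `e' / 2^(jj*Q) = e / 2^(jj*Q)` (`i2`) and `pun p' b' % 2^(jj*Q) = s := (unit u) % 2^(jj*Q)`: their number is at most `NN Z Q π (dl δ) (j+1) (e / 2^(jj*Q)) s ≤ 2^(Q-c1)`
(not bad, `j + 1 < Z`), and `ρ` does not count the item itself, so `ρ < cap`.  If `jj = 0`: the items of the group have `e' = e`, so `p' = p` (`inj`), the `b'` are different numbers below `2^Q`: `ρ < 2^Q`.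
The place of the plane class with number `t * 2^Q + (ρ or rev Q ρ)` has the item.
-/

set_option autoImplicit false

namespace Pool.Agent.H31.HS

variable {V X R : Type} {m g Q Z : ℕ} (B : Blk V m) (hm : m = g + Q + Z * Q)

private theorem ws_num {jj Q a b : ℕ} (h1 : a / 2 ^ (jj * Q + Q) = b / 2 ^ (jj * Q + Q))
    (h2 : a / 2 ^ (jj * Q) % 2 ^ Q = b / 2 ^ (jj * Q) % 2 ^ Q) :
    a / 2 ^ (jj * Q) = b / 2 ^ (jj * Q) := by
  rw [pow_add, ← Nat.div_div_eq_div_mul, ← Nat.div_div_eq_div_mul] at h1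
  rw [← Nat.div_add_mod (a / 2 ^ (jj * Q)) (2 ^ Q), ← Nat.div_add_mod (b / 2 ^ (jj * Q)) (2 ^ Q),
    h1, h2]

private theorem ws_mod {jj Q a b : ℕ} (h1 : a % 2 ^ (jj * Q + Q) = b % 2 ^ (jj * Q + Q)) :
    a % 2 ^ (jj * Q) = b % 2 ^ (jj * Q) := by
  have hd : 2 ^ (jj * Q) ∣ 2 ^ (jj * Q + Q) := pow_dvd_pow 2 (by omega)
  rw [← Nat.mod_mod_of_dvd a hd, ← Nat.mod_mod_of_dvd b hd, h1]

private theorem ws_orig {V X R : Type} {Q : ℕ} {PL : Blk V (Q + Q)} {tt κ : X → ℕ} {cap : ℕ}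
    {rv : Bool} {A A' : V → Option X × Option R} (hs : StageSpec PL tt κ cap rv A A') (v : V)
    (x : X) (hx : (A' v).1 = some x) :
    ∃ u, PL.cls v u ∧ A' v = A u ∧ (A u).1 = some x ∧ tt x = PL.pos v / 2 ^ Q ∧
      rkT PL tt κ A u x = (if rv then rev Q (PL.pos v % 2 ^ Q) else PL.pos v % 2 ^ Q) := by
  by_contra hcon
  have h2 : A' v = emp := by
    refine (hs v).2 (fun u x' hc hx' hh => hcon ?_)
    have h3 := (hs v).1 u x' hc hx' hh.1 hh.2.1 hh.2.2
    have h4 : x' = x := by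
      rw [h3, hx'] at hx
      exact Option.some.inj hx
    rw [h4] at hx' hh
    exact ⟨u, hc, h3, hx', hh.1, hh.2.1⟩
  rw [h2] at hx
  exact absurd hx (by simp [emp])

/-- The rank and the item itself: at most `n` places. -/
private theorem ws_rank {V X R : Type} {Q : ℕ} (PL : Blk V (Q + Q)) (tt κ : X → ℕ)
    (A : V → Option X × Option R) (u : V) (x : X) (hx : (A u).1 = some x) (n : ℕ)
    (hn : ∀ S : Finset ℕ, (∀ t ∈ S, t < 2 ^ (Q + Q) ∧ ∃ x', (A (PL.nd u t)).1 = some x' ∧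
      tt x' = tt x) → S.card ≤ n) : rkT PL tt κ A u x < n := by
  classical
  unfold rkT
  obtain ⟨S, hS⟩ : ∃ S : Finset ℕ, S = (Finset.range (2 ^ (Q + Q))).filter
    (fun t => ∃ x', (A (PL.nd u t)).1 = some x' ∧ tt x' = tt x ∧ κ x' < κ x) := ⟨_, rfl⟩
  have h1 : PL.pos u ∉ S := by
    rw [hS, Finset.mem_filter]
    rintro ⟨-, x', h2, -, h3⟩
    rw [PL.nd_pos, hx] at h2
    rw [← Option.some.inj h2] at h3
    exact lt_irrefl _ h3
  have h2 := hn (insert (PL.pos u) S) (by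
    intro t ht
    rcases Finset.mem_insert.1 ht with h3 | h3
    · rw [h3]
      refine ⟨PL.pos_lt u, x, ?_, rfl⟩
      rw [PL.nd_pos]
      exact hx
    · rw [hS, Finset.mem_filter, Finset.mem_range] at h3
      obtain ⟨h4, x', h5, h6, -⟩ := h3
      exact ⟨h4, x', h5, h6⟩)
  rw [Finset.card_insert_of_notMem h1] at h2
  rw [← hS]
  exact h2

theorem inv_step {c1 j jj : ℕ} (hj : jj + 1 + j = Z) (hjj : jj < Z) {π : ℕ → Equiv.Perm (Fin (2 ^ (Z * Q)) × Fin (2 ^ Q))}
    {δ : V → Option ℕ} {a0 : V → Option X × Option R} (hδ : DlOK B hm c1 δ) {A A' : V → Option (Lb X) × Option R}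
    (hA : Inv B hm c1 π δ a0 j A) {cap : ℕ} {rv : Bool} (hcap : cap = if 0 < jj then 2 ^ (Q - c1) else 2 ^ Q) (hrv : rv = decide (0 < jj))
    (hs : StageSpec (Pln B hm jj hjj) (ttW Q jj) (kapW Q Z jj) cap rv A A') : Inv B hm c1 π δ a0 (j + 1) A' := by
  have hZj : (Z - j) * Q = jj * Q + Q := by
    have : Z - j = jj + 1 := by omega
    rw [this, add_mul, one_mul]
  have hZj1 : (Z - (j + 1)) * Q = jj * Q := by
    have : Z - (j + 1) = jj := by omega
    rw [this]
  have hposd : ∀ v, (Pln B hm jj hjj).pos v / 2 ^ Q = (Uni B hm).pos v / 2 ^ (jj * Q) % 2 ^ Q := by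
    intro v
    rw [pln_pos, mul_comm, Nat.mul_add_div (by positivity), Nat.div_eq_of_lt ((Bal B hm).pos_lt v),
      add_zero]
  have hplc : ∀ v u, (Pln B hm jj hjj).cls v u → (Lyr B hm).cls v u := fun v u h =>
    ((pln_cls B hm jj hjj v u).1 h).1
  have hlay : ∀ v u, (Lyr B hm).cls v u → (Lay B hm).pos v = (Lay B hm).pos u := fun v u h =>
    ((lyr_cls B hm v u).1 h).2
  -- invariants at a place, with `jj`
  have hI2 : ∀ v p b e c, (A v).1 = some ((p, b, e), c) →
      (Uni B hm).pos v / 2 ^ (jj * Q + Q) = e / 2 ^ (jj * Q + Q) ∧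
        (Uni B hm).pos v % 2 ^ (jj * Q + Q) = pun (π ((Lay B hm).pos v)) p b % 2 ^ (jj * Q + Q) := by
    intro v p b e c h
    have h1 := hA.i2 v p b e c h
    rw [hZj] at h1
    exact h1
  refine ⟨?_, ?_, ?_, ?_, ?_⟩
  · intro v p b e c h
    obtain ⟨u, hc, hAu, hu, ht, hr⟩ := ws_orig hs v _ h
    obtain ⟨h1, h2, h3, h4⟩ := hA.i1 u p b e c hu
    have h5 := src_of_cls B hm (hplc _ _ hc) h1 h2
    rw [h5] at h3 h4
    rw [← hAu] at h4
    exact ⟨h1, h2, h3, h4⟩
  · intro v p b e c h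
    obtain ⟨u, hc, hAu, hu, ht, hr⟩ := ws_orig hs v _ h
    have h1 := hI2 u p b e c hu
    have h2 := (pln_cls B hm jj hjj v u).1 hc
    rw [hposd] at ht
    rw [hZj1]
    constructor
    · exact ws_num (h2.2.1.trans h1.1) ht.symm
    · rw [h2.2.2, hlay _ _ h2.1]
      exact ws_mod h1.2
  · intro v u p b e c e' c' hcl hv hu
    obtain ⟨u1, hc1, hA1, h1, ht1, hr1⟩ := ws_orig hs v _ hv
    obtain ⟨u2, hc2, hA2, h2, ht2, hr2⟩ := ws_orig hs u _ hu
    have hcl' : (Lyr B hm).cls u1 u2 := (Lyr B hm).cls_trans ((Lyr B hm).cls_symm (hplc _ _ hc1))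
      ((Lyr B hm).cls_trans hcl (hplc _ _ hc2))
    have h12 := hA.i3 u1 u2 p b e c e' c' hcl' h1 h2
    rw [← h12] at h2 hc2 hr2
    rw [h1] at h2
    have hx := Option.some.inj h2
    rw [← hx] at ht2 hr2
    have hcc : (Pln B hm jj hjj).cls v u :=
      (Pln B hm jj hjj).cls_trans hc1 ((Pln B hm jj hjj).cls_symm hc2)
    refine (Pln B hm jj hjj).eq_of_cls hcc ?_
    have hd : (Pln B hm jj hjj).pos v / 2 ^ Q = (Pln B hm jj hjj).pos u / 2 ^ Q := by
      rw [← ht1, ← ht2]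
    have hmd : (Pln B hm jj hjj).pos v % 2 ^ Q = (Pln B hm jj hjj).pos u % 2 ^ Q := by
      have h3 := hr1.symm.trans hr2
      cases rv with
      | false => simpa using h3
      | true =>
        have h4 : rev Q ((Pln B hm jj hjj).pos v % 2 ^ Q) = rev Q ((Pln B hm jj hjj).pos u % 2 ^ Q) := by
          simpa using h3
        rw [← rev_rev Q _ (Nat.mod_lt _ (by positivity)), h4,
          rev_rev Q _ (Nat.mod_lt _ (by positivity))]
    rw [← Nat.div_add_mod ((Pln B hm jj hjj).pos v) (2 ^ Q),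
      ← Nat.div_add_mod ((Pln B hm jj hjj).pos u) (2 ^ Q), hd, hmd]
  · intro v hv
    refine (hs v).2 (fun u x hc hx hh => ?_)
    have h3 := (hs v).1 u x hc hx hh.1 hh.2.1 hh.2.2
    rw [h3, hx] at hv
    exact absurd hv (by simp)
  · intro v p b e hp hb hδe hbad
    obtain ⟨u, c, hcl, hu⟩ := hA.i5 v p b e hp hb hδe hbad
    obtain ⟨x, hxd⟩ : ∃ x : Lb X, x = ((p, b, e), c) := ⟨_, rfl⟩
    have hux : (A u).1 = some x := by rw [hxd]; exact hu
    have htx : ttW Q jj x = e / 2 ^ (jj * Q) % 2 ^ Q := by rw [hxd]; rfl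
    have hUe := hI2 u p b e c hu
    -- the places of the group
    have hgrp : ∀ t, t < 2 ^ (Q + Q) → ∀ x' : Lb X, (A ((Pln B hm jj hjj).nd u t)).1 = some x' →
        ttW Q jj x' = ttW Q jj x → x'.1.1 < 2 ^ (Z * Q) ∧ x'.1.2.1 < 2 ^ Q ∧
          δ (src B hm v x'.1.1 x'.1.2.1) = some x'.1.2.2 ∧
          x'.1.2.2 / 2 ^ (jj * Q) = e / 2 ^ (jj * Q) ∧
          pun (π ((Lay B hm).pos v)) x'.1.1 x'.1.2.1 % 2 ^ (jj * Q) =
            (Uni B hm).pos u % 2 ^ (jj * Q) := by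
      intro t ht x' hx' htt
      obtain ⟨⟨p', b', e'⟩, c'⟩ := x'
      have hc := (Pln B hm jj hjj).cls_nd u ht
      have hc2 := (pln_cls B hm jj hjj u _).1 hc
      have hcv : (Lyr B hm).cls v ((Pln B hm jj hjj).nd u t) := (Lyr B hm).cls_trans hcl hc2.1
      obtain ⟨h1, h2, h3, -⟩ := hA.i1 _ p' b' e' c' hx'
      have h4 := hI2 _ p' b' e' c' hx'
      rw [src_of_cls B hm hcv h1 h2] at h3
      refine ⟨h1, h2, h3, ?_, ?_⟩
      · refine ws_num ?_ ?_
        · rw [← h4.1, ← hc2.2.1, hUe.1]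
        · rw [htx] at htt
          exact htt
      · rw [hlay _ _ hcv, hc2.2.2]
        exact (ws_mod h4.2).symm
    have hinj3 : ∀ t, t < 2 ^ (Q + Q) → ∀ s, s < 2 ^ (Q + Q) → ∀ x' y' : Lb X,
        (A ((Pln B hm jj hjj).nd u t)).1 = some x' → (A ((Pln B hm jj hjj).nd u s)).1 = some y' →
        x'.1.1 = y'.1.1 → x'.1.2.1 = y'.1.2.1 → t = s := by
      intro t ht s hs' x' y' hx' hy' h1 h2
      obtain ⟨⟨p', b', e'⟩, c'⟩ := x'
      obtain ⟨⟨p2, b2, e2⟩, c2⟩ := y'
      simp only at h1 h2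
      subst h1 h2
      have hct := hplc _ _ ((Pln B hm jj hjj).cls_nd u ht)
      have hcs := hplc _ _ ((Pln B hm jj hjj).cls_nd u hs')
      have h3 := hA.i3 _ _ p' b' e' c' e2 c2 ((Lyr B hm).cls_trans ((Lyr B hm).cls_symm hct) hcs)
        hx' hy'
      rw [← (Pln B hm jj hjj).pos_nd u t ht, h3, (Pln B hm jj hjj).pos_nd u s hs']
    have hρ : rkT (Pln B hm jj hjj) (ttW Q jj) (kapW Q Z jj) A u x < cap := by
      refine ws_rank _ _ _ A u x hux cap fun S hS => ?_
      have hS1 : ∀ t, ∃ x', t ∈ S → t < 2 ^ (Q + Q) ∧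
          (A ((Pln B hm jj hjj).nd u t)).1 = some x' ∧ ttW Q jj x' = ttW Q jj x := by
        intro t
        by_cases ht : t ∈ S
        · obtain ⟨h1, x', h2⟩ := hS t ht
          exact ⟨x', fun _ => ⟨h1, h2⟩⟩
        · exact ⟨x, fun h => absurd h ht⟩
      choose F hF using hS1
      rcases Nat.eq_zero_or_pos jj with hj0 | hj0
      · -- the last stage
        rw [hcap, if_neg (by omega)]
        rw [← Finset.card_range (2 ^ Q)]
        refine Finset.card_le_card_of_injOn (fun t => (F t).1.2.1) ?_ ?_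
        · intro t ht
          have h1 := hF t (Finset.mem_coe.1 ht)
          exact Finset.mem_coe.2 (Finset.mem_range.2 (hgrp t h1.1 _ h1.2.1 h1.2.2).2.1)
        · intro t ht s hs' hts
          have h1 := hF t (Finset.mem_coe.1 ht)
          have h2 := hF s (Finset.mem_coe.1 hs')
          obtain ⟨g1, g2, g3, g4, -⟩ := hgrp t h1.1 _ h1.2.1 h1.2.2
          obtain ⟨k1, k2, k3, k4, -⟩ := hgrp s h2.1 _ h2.2.1 h2.2.2
          refine hinj3 t h1.1 s h2.1 _ _ h1.2.1 h2.2.1 ?_ hts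
          rw [hj0, zero_mul, pow_zero, Nat.div_one, Nat.div_one] at g4 k4
          rw [g4] at g3
          rw [k4] at k3
          have hcc : B.cls (src B hm v (F t).1.1 (F t).1.2.1) (src B hm v (F s).1.1 (F s).1.2.1) :=
            B.cls_trans (B.cls_symm ((lyr_cls B hm _ _).1 (src_cls B hm v g1 g2)).1)
              ((lyr_cls B hm _ _).1 (src_cls B hm v k1 k2)).1
          have h5 := hδ.inj _ _ e hcc g3 k3
          rw [src_uni B hm v g1 g2, src_uni B hm v k1 k2] at h5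
          exact h5
      · rw [hcap, if_pos hj0]
        have hnb : H69.HS.NN Z Q (π ((Lay B hm).pos v)) (dl B hm δ v) (j + 1) (e / 2 ^ (jj * Q))
            ((Uni B hm).pos u % 2 ^ (jj * Q)) ≤ 2 ^ (Q - c1) := by
          by_contra hcon
          refine hbad ⟨j + 1, e / 2 ^ (jj * Q), (Uni B hm).pos u % 2 ^ (jj * Q), by omega, ?_, ?_,
            not_le.1 hcon⟩
          · have he := hδ.lt _ e hδe
            rw [Nat.div_lt_iff_lt_mul (by positivity), ← pow_add, ← add_mul]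
            have : j + 1 + jj = Z := by omega
            rw [this]
            exact he
          · rw [hZj1]
            exact Nat.mod_lt _ (by positivity)
        refine le_trans ?_ hnb
        unfold H69.HS.NN
        rw [hZj1]
        obtain ⟨W, hW⟩ : ∃ W : Finset (Fin (2 ^ (Z * Q)) × Fin (2 ^ Q)), W = Finset.univ.filter
          (fun x : Fin (2 ^ (Z * Q)) × Fin (2 ^ Q) =>
            (∃ t, dl B hm δ v x.1.val = some t ∧ t / 2 ^ (jj * Q) = e / 2 ^ (jj * Q)) ∧
              (π ((Lay B hm).pos v) x).1.val % 2 ^ (jj * Q) = (Uni B hm).pos u % 2 ^ (jj * Q)) :=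
          ⟨_, rfl⟩
        rw [← hW]
        have hWi : W.card = (W.image fun y => (y.1.val, y.2.val)).card := by
          rw [Finset.card_image_of_injective]
          rintro ⟨y1, y2⟩ ⟨z1, z2⟩ hyz
          simp only [Prod.mk.injEq] at hyz
          exact Prod.ext (Fin.ext hyz.1) (Fin.ext hyz.2)
        rw [hWi]
        refine Finset.card_le_card_of_injOn (fun t => ((F t).1.1, (F t).1.2.1)) ?_ ?_
        · intro t ht
          have h1 := hF t (Finset.mem_coe.1 ht)
          obtain ⟨g1, g2, g3, g4, g5⟩ := hgrp t h1.1 _ h1.2.1 h1.2.2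
          refine Finset.mem_coe.2 (Finset.mem_image.2 ⟨(⟨(F t).1.1, g1⟩, ⟨(F t).1.2.1, g2⟩), ?_, rfl⟩)
          rw [hW, Finset.mem_filter]
          refine ⟨Finset.mem_univ _, ⟨(F t).1.2.2, ?_, g4⟩, ?_⟩
          · rw [← dl_src B hm hδ.unit v g1 g2]
            exact g3
          · unfold pun at g5
            rw [dif_pos ⟨g1, g2⟩] at g5
            exact g5
        · intro t ht s hs' hts
          have h1 := hF t (Finset.mem_coe.1 ht)
          have h2 := hF s (Finset.mem_coe.1 hs')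
          have h34 := Prod.mk.inj hts
          have h3 : (F t).1.1 = (F s).1.1 := h34.1
          have h4 : (F t).1.2.1 = (F s).1.2.1 := h34.2
          exact hinj3 t h1.1 s h2.1 _ _ h1.2.1 h2.2.1 h3 h4
    obtain ⟨ρ, hρd⟩ : ∃ ρ : ℕ, ρ = rkT (Pln B hm jj hjj) (ttW Q jj) (kapW Q Z jj) A u x := ⟨_, rfl⟩
    rw [← hρd] at hρ
    have hcapQ : cap ≤ 2 ^ Q := by
      rw [hcap]
      split_ifs
      · exact Nat.pow_le_pow_right two_pos (Nat.sub_le _ _)
      · exact le_rfl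
    have hρQ : ρ < 2 ^ Q := hρ.trans_le hcapQ
    obtain ⟨β, hβ⟩ : ∃ β : ℕ, β = if rv then rev Q ρ else ρ := ⟨_, rfl⟩
    have hβQ : β < 2 ^ Q := by
      rw [hβ]
      split_ifs
      · exact rev_lt _ _
      · exact hρQ
    have hβρ : ρ = if rv then rev Q β else β := by
      rw [hβ]
      cases rv with
      | false => simp
      | true => simp [rev_rev Q ρ hρQ]
    have htQ : ttW Q jj x < 2 ^ Q := by
      rw [htx]
      exact Nat.mod_lt _ (by positivity)
    have hwlt : ttW Q jj x * 2 ^ Q + β < 2 ^ (Q + Q) := by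
      have h1 : (ttW Q jj x + 1) * 2 ^ Q ≤ 2 ^ Q * 2 ^ Q := Nat.mul_le_mul_right _ htQ
      rw [pow_add]
      nlinarith
    obtain ⟨w, hw⟩ : ∃ w : V, w = (Pln B hm jj hjj).nd u (ttW Q jj x * 2 ^ Q + β) := ⟨_, rfl⟩
    have hwpos : (Pln B hm jj hjj).pos w = ttW Q jj x * 2 ^ Q + β := by
      rw [hw, (Pln B hm jj hjj).pos_nd _ _ hwlt]
    have hwc : (Pln B hm jj hjj).cls w u := by
      rw [hw]
      exact (Pln B hm jj hjj).cls_symm ((Pln B hm jj hjj).cls_nd u hwlt)
    have hwd : (Pln B hm jj hjj).pos w / 2 ^ Q = ttW Q jj x := by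
      rw [hwpos, mul_comm, Nat.mul_add_div (by positivity), Nat.div_eq_of_lt hβQ, add_zero]
    have hwm : (Pln B hm jj hjj).pos w % 2 ^ Q = β := by
      rw [hwpos, mul_comm, Nat.mul_add_mod, Nat.mod_eq_of_lt hβQ]
    have hfin := (hs w).1 u x hwc hux hwd.symm (by rw [hwm, ← hρd]; exact hβρ) (by
      rw [← hρd]
      exact hρ)
    refine ⟨w, c, (Lyr B hm).cls_trans hcl ((Lyr B hm).cls_symm (hplc _ _ hwc)), ?_⟩
    rw [hfin]
    exact hu

end Pool.Agent.H31.HS
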