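import Mathlib
import Pool.Agent.H31.HS.GStage
import Pool.Agent.H31.HS.WStep
import Pool.Agent.H31.HS.WPat
import Pool.Agent.H31.HS.WInit
import Pool.Agent.H31.HS.WLin

/-!
# WStg: all stages of wide routing

`w_init`, then `Z` times `stage` for `PL = Pln B hm jj _`, `jj = Z - 1 - j` (`lines_pln`), with `tt = ttW Q jj`, `κ = kapW Q Z jj`, `D = fun o => RevPat (Bal B hm) c1 o`, `S` replaced by `S * W^4` (`inv_sm`).
Induction over `j < Z` (all `jj > 0` steps keep: `Inv j` and `RevPat`; `stage_pat` with `pln_low`), the last one (`jj = 0`) gives `Inv Z` and `hline` (`stage_line`, `lt_of_kapW`, `pln_low`; the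
places of a balance line are in one plane).  `hdist` from `kap_dist` (`pln_cls`), `htt`: `Nat.mod_lt`; `hmon`: `ttW x < ttW y` implies `kapW x < kapW y` for the items of the arrays (`b < 2^Q`, `p < 2^(Z*Q)` by `i1`).
Sizes: `S * W^4 * W^3 ≤ S * W^8 ≤ Lam`.  Cost: `(2*(Z*q) + 6*q) * r0 + Z * (S2 + 16*q*r0) ≤ Z * S2 + 24 * (Z*q) * r0` (`Z ≥ 1`).
-/

set_option autoImplicit false

namespace Pool.Agent.H31.HS

variable {V Ω R : Type} {m g Q Z k n q gl r0 Lam W S S2 c1 : ℕ}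

/-- the keys increase with the groups -/
private theorem wg_mon {X : Type} {jj : ℕ} {x y : Lb X} (hxb : x.1.2.1 < 2 ^ Q) (hxp : x.1.1 < 2 ^ (Z * Q))
    (h : ttW Q jj x < ttW Q jj y) : kapW Q Z jj x < kapW Q Z jj y := by
  unfold kapW
  have h1 : (ttW Q jj x + 1) * 2 ^ Q ≤ ttW Q jj y * 2 ^ Q := Nat.mul_le_mul_right _ h
  have h2 : ttW Q jj x * 2 ^ Q + x.1.2.1 + 1 ≤ ttW Q jj y * 2 ^ Q + y.1.2.1 := by
    have h3 : (ttW Q jj x + 1) * 2 ^ Q = ttW Q jj x * 2 ^ Q + 2 ^ Q := by ring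
    omega
  have h4 : (ttW Q jj x * 2 ^ Q + x.1.2.1 + 1) * 2 ^ (Z * Q) ≤ (ttW Q jj y * 2 ^ Q + y.1.2.1) * 2 ^ (Z * Q) :=
    Nat.mul_le_mul_right _ h2
  have h5 : (ttW Q jj x * 2 ^ Q + x.1.2.1 + 1) * 2 ^ (Z * Q) =
    (ttW Q jj x * 2 ^ Q + x.1.2.1) * 2 ^ (Z * Q) + 2 ^ (Z * Q) := by ring
  omega

/-- one stage -/
private theorem wg_stage {M : Mach V Ω R} {B : Blk V m} (hm : m = g + Q + Z * Q) (hL : Lines M Lam B k n r0) (hQ : Q = k * q)
    (hg : g = k * gl) (hW : 2 ^ m < W) (hS : 1 ≤ S) (hl : S * W ^ 8 ≤ Lam)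
    (π : ℕ → Equiv.Perm (Fin (2 ^ (Z * Q)) × Fin (2 ^ Q))) {j jj : ℕ} (hj : jj + 1 + j = Z) (hjj : jj < Z)
    (hPS : CanS M (S * W ^ 4) (Pln B hm jj hjj) (fun o => RevPat (Bal B hm) c1 o) S2)
    {X : Type} (P : M.Pl) (a : V → Ω → Option X × Option R) (hs : Sm S a) (δ : V → Ω → Option ℕ)
    (hd : ∀ w, DlOK B hm c1 (fun v => δ v w)) (A : V → Ω → Option (Lb X) × Option R) (hA : ∀ v, M.Has P v (A v))
    (hI : ∀ w, Inv B hm c1 π (fun v => δ v w) (fun v => a v w) j (fun v => A v w) ∧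
      RevPat (Bal B hm) c1 (fun v => (A v w).1.isSome)) :
    M.Do (S2 + 16 * q * r0) P (fun P' => ∃ A' : V → Ω → Option (Lb X) × Option R, (∀ v, M.Has P' v (A' v)) ∧
      ∀ w, Inv B hm c1 π (fun v => δ v w) (fun v => a v w) (j + 1) (fun v => A' v w) ∧
        StageSpec (Pln B hm jj hjj) (ttW Q jj) (kapW Q Z jj) (if 0 < jj then 2 ^ (Q - c1) else 2 ^ Q) (decide (0 < jj))
          (fun v => A v w) (fun v => A' v w)) := by
  have hW0 : 1 ≤ W := by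
    have : 0 < 2 ^ m := by positivity
    omega
  have hQm : Q + Q ≤ m := by
    have h1 : 1 * Q ≤ Z * Q := Nat.mul_le_mul_right _ (by omega)
    omega
  have hW' : 2 ^ (Q + Q) < W := lt_of_le_of_lt (Nat.pow_le_pow_right (by norm_num) hQm) hW
  have hS' : 1 ≤ S * W ^ 4 := Nat.one_le_iff_ne_zero.2 (by positivity)
  have hl' : S * W ^ 4 * W ^ 3 ≤ Lam := by
    refine le_trans ?_ hl
    have h1 : W ^ 7 ≤ W ^ 8 := Nat.pow_le_pow_right hW0 (by norm_num)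
    calc S * W ^ 4 * W ^ 3 = S * W ^ 7 := by ring
      _ ≤ S * W ^ 8 := Nat.mul_le_mul_left _ h1
  have hcap : (if 0 < jj then 2 ^ (Q - c1) else 2 ^ Q) ≤ 2 ^ Q := by
    split_ifs
    · exact Nat.pow_le_pow_right (by norm_num) (by omega)
    · exact le_rfl
  have hsA : Sm (S * W ^ 4) A := inv_sm hm hW hS hs hd fun w => (hI w).1
  refine (stage (lines_pln hm hL hQ hg jj hjj) hQ hW' hS' hl' hPS (if 0 < jj then 2 ^ (Q - c1) else 2 ^ Q) hcap
    (decide (0 < jj)) (ttW Q jj) (kapW Q Z jj) P A hsA hA (fun w => (hI w).2) ?_ ?_ ?_).mono le_rfl ?_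
  · intro w v u x y _ hx hy ht
    obtain ⟨⟨p, b, e⟩, c⟩ := x
    obtain ⟨h1, h2, -, -⟩ := (hI w).1.i1 v p b e c hx
    exact wg_mon h2 h1 ht
  · intro w v x _
    exact Nat.mod_lt _ (by positivity)
  · intro w v u x y hc hx hy hk
    exact kap_dist hm hjj (hI w).1 v u x y ((pln_cls B hm jj hjj v u).1 hc).1 hx hy hk
  · rintro P' - ⟨A', h1, h2⟩
    exact ⟨A', h1, fun w => ⟨inv_step B hm hj hjj (hd w) (hI w).1 rfl rfl (h2 w), h2 w⟩⟩

theorem w_stages {M : Mach V Ω R} {B : Blk V m} (hm : m = g + Q + Z * Q) (hL : Lines M Lam B k n r0) (hQ : Q = k * q) (hg : g = k * gl)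
    (hZ : 1 ≤ Z) (hW : 2 ^ m < W) (hS : 1 ≤ S) (hl : S * W ^ 8 ≤ Lam) (π : ℕ → Equiv.Perm (Fin (2 ^ (Z * Q)) × Fin (2 ^ Q)))
    (hPS : ∀ jj (hj : jj < Z), CanS M (S * W ^ 4) (Pln B hm jj hj) (fun o => RevPat (Bal B hm) c1 o) S2)
    {X : Type} (P : M.Pl) (a : V → Ω → Option X × Option R) (hs : Sm S a) (ha : ∀ v, M.Has P v (a v)) (δ : V → Ω → Option ℕ)
    (hδ : ∀ v, M.Knows P v (δ v)) (hd : ∀ w, DlOK B hm c1 (fun v => δ v w)) :
    M.Do (Z * S2 + 24 * (Z * q) * r0) P (fun P' => ∃ A : V → Ω → Option (Lb X) × Option R, (∀ v, M.Has P' v (A v)) ∧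
      ∀ w, Inv B hm c1 π (fun v => δ v w) (fun v => a v w) Z (fun v => A v w) ∧
        ∀ v u y, (Bal B hm).cls v u → (Bal B hm).pos v < (Bal B hm).pos u → (A u w).1 = some y →
          ∃ x, (A v w).1 = some x ∧ (x.1.1 = y.1.1 → x.1.2.1 < y.1.2.1)) := by
  obtain ⟨Φ, hΦ⟩ : ∃ Φ : ℕ → M.Pl → Prop, Φ = fun j P' => ∃ A : V → Ω → Option (Lb X) × Option R,
      (∀ v, M.Has P' v (A v)) ∧ ∀ w, Inv B hm c1 π (fun v => δ v w) (fun v => a v w) j (fun v => A v w) ∧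
        RevPat (Bal B hm) c1 (fun v => (A v w).1.isSome) := ⟨_, rfl⟩
  have hW0 : 1 ≤ W := by
    have : 0 < 2 ^ m := by positivity
    omega
  have hl6 : S * W ^ 6 ≤ Lam := (Nat.mul_le_mul_left _ (Nat.pow_le_pow_right hW0 (by norm_num))).trans hl
  have h0 := w_init (q := q) (gl := gl) hm hL hQ hg hZ hW hS hl6 π P a hs ha δ hδ hd
  have hdist : ∀ (jj : ℕ) (hjj : jj < Z) (j : ℕ) (w : Ω) (A : V → Ω → Option (Lb X) × Option R),
      Inv B hm c1 π (fun v => δ v w) (fun v => a v w) j (fun v => A v w) →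
      ∀ v u x y, (Pln B hm jj hjj).cls v u → (A v w).1 = some x → (A u w).1 = some y →
        kapW Q Z jj x = kapW Q Z jj y → v = u := by
    intro jj hjj j w A hA v u x y hc hx hy hk
    exact kap_dist hm hjj hA v u x y ((pln_cls B hm jj hjj v u).1 hc).1 hx hy hk
  have h1 : M.Do ((2 * (Z * q) + 6 * q) * r0 + (Z - 1) * (S2 + 16 * q * r0)) P (Φ (Z - 1)) := by
    refine h0.bind fun P1 _ hP1 => ?_
    refine Mach.Do.iter (Φ := Φ) ?_ ?_
    · rw [hΦ]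
      exact hP1
    · intro j hj P2 _ hP2
      rw [hΦ] at hP2
      obtain ⟨A, hA, hI⟩ := hP2
      have hjj : Z - 1 - j < Z := by omega
      refine (wg_stage hm hL hQ hg hW hS hl π (j := j) (jj := Z - 1 - j) (by omega) hjj (hPS _ hjj) P2 a hs δ hd A hA
        hI).mono le_rfl ?_
      rintro P3 - ⟨A', h2, h3⟩
      rw [hΦ]
      refine ⟨A', h2, fun w => ⟨(h3 w).1, ?_⟩⟩
      have h4 := (h3 w).2
      have hpos : 0 < Z - 1 - j := by omega
      rw [if_pos hpos, decide_eq_true hpos] at h4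
      have h5 := stage_pat (hdist _ hjj j w A (hI w).1) h4 (by omega)
      rw [pln_low] at h5
      exact h5
  have h2 : M.Do ((2 * (Z * q) + 6 * q) * r0 + (Z - 1) * (S2 + 16 * q * r0) + (S2 + 16 * q * r0)) P
      (fun P' => ∃ A : V → Ω → Option (Lb X) × Option R, (∀ v, M.Has P' v (A v)) ∧
      ∀ w, Inv B hm c1 π (fun v => δ v w) (fun v => a v w) Z (fun v => A v w) ∧
        ∀ v u y, (Bal B hm).cls v u → (Bal B hm).pos v < (Bal B hm).pos u → (A u w).1 = some y →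
          ∃ x, (A v w).1 = some x ∧ (x.1.1 = y.1.1 → x.1.2.1 < y.1.2.1)) := by
    refine h1.bind fun P1 _ hP1 => ?_
    rw [hΦ] at hP1
    obtain ⟨A, hA, hI⟩ := hP1
    have hjj : 0 < Z := by omega
    refine (wg_stage hm hL hQ hg hW hS hl π (j := Z - 1) (jj := 0) (by omega) hjj (hPS _ hjj) P1 a hs δ hd A hA
      hI).mono le_rfl ?_
    rintro P3 - ⟨A', h2, h3⟩
    have e1 : Z - 1 + 1 = Z := by omega
    refine ⟨A', h2, fun w => ⟨?_, ?_⟩⟩
    · have h4 := (h3 w).1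
      rw [e1] at h4
      exact h4
    · intro v u y hc hlt hy
      have h4 := (h3 w).2
      rw [if_neg (lt_irrefl 0), decide_eq_false (lt_irrefl 0)] at h4
      have hlow := pln_low B hm 0 hjj (by omega)
      obtain ⟨x, hx1, hx2, hx3⟩ := stage_line (hdist 0 hjj (Z - 1) w A (hI w).1) h4 (by omega) v u
        (by rw [hlow]; exact hc) (by rw [hlow]; exact hlt) y hy
      exact ⟨x, hx1, fun h5 => lt_of_kapW hx2 h5 hx3⟩
  refine h2.mono ?_ fun P' _ h => h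
  obtain ⟨z, hz⟩ : ∃ z, Z = z + 1 := ⟨Z - 1, by omega⟩
  rw [hz]
  have e2 : z + 1 - 1 = z := by omega
  rw [e2]
  have h3 : q * r0 ≤ (z + 1) * q * r0 := by
    have h4 : 1 * (q * r0) ≤ (z + 1) * (q * r0) := Nat.mul_le_mul_right _ (by omega)
    calc q * r0 = 1 * (q * r0) := by ring
      _ ≤ (z + 1) * (q * r0) := h4
      _ = (z + 1) * q * r0 := by ring
  calc (2 * ((z + 1) * q) + 6 * q) * r0 + z * (S2 + 16 * q * r0) + (S2 + 16 * q * r0)
      = (z + 1) * S2 + 18 * ((z + 1) * q * r0) + 6 * (q * r0) := by ring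
    _ ≤ (z + 1) * S2 + 18 * ((z + 1) * q * r0) + 6 * ((z + 1) * q * r0) := by omega
    _ = (z + 1) * S2 + 24 * ((z + 1) * q) * r0 := by ring

end Pool.Agent.H31.HS
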