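import Mathlib
import Pool.Agent.H31.HS.PS2
import Pool.Agent.H31.HS.WR
import Pool.Agent.H69.HS.ColSort

/-!
# PS3: sorting a plane with replicas: routing to 16 times the rank

`wide_route` for `B = B2 PL RB hC hk` with chunks of one digit: `Q := k`, `q := 1`, `Z := 2 * q`, `g := 4 * Q`, `gl := 4 * q`, `n := 4 q + 1 + 2 q` (lines: `lines_prod` of `PL` and `lines_bits` of `RB`, digits
`(q+q) + (4q+1)`), `c1 = 0`, `hG : 2^0 * (2Q + 4Q + k + 2) ≤ 2^k` from `7Q + 2 ≤ 2^k` (`k ≤ Q`).  Planes `Pln .. jj` have `k + k` bits, two digits (`lines_pln`); `H69.HS.columnsort` with `N = 8`: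
`8 * (k/4) = k + k`, and `canS_all`.  `CanS` with `True` gives `CanS` with any pattern.  `δ = dlt16` is known from `prk` (and whether the place is occupied).  `WRSpec` is translated with `uni_B2`.
Cost: `2 q * (c 8 * r0) + 40 * (6 q + 1) * r0`.
-/

set_option autoImplicit false

namespace Pool.Agent.H31.HS

variable {V Ω R X : Type} {Q k q r0 Lam W S : ℕ}

theorem canS_all {M : Mach V Ω R} {m l c : ℕ} {B : Blk V m} {D : (V → Bool) → Prop} (h : 0 + l ≤ m) (hl : l = m)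
    (hc : CanS M S (B.bits 0 l h) D c) : CanS M S B D c := by
  subst hl
  rw [bits_all] at hc
  exact hc

private theorem ps3_cast {m : ℕ} (B : Blk V m) {a b k : ℕ} (e : a = b) (ha : a + k ≤ m) (hb : b + k ≤ m) :
    B.bits a k ha = B.bits b k hb := by
  subst e
  rfl

private theorem ps3_part {M : Mach V Ω R} {m n : ℕ} {B : Blk V m} (hL : Lines M Lam B k n r0) {i l a c : ℕ} (h : i + l ≤ m)
    (hi : i = k * a) (hl : l = k * c) : Lines M Lam (B.bits i l h) k c r0 := by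
  refine ⟨hl, hL.hk, fun t ht htc => ?_⟩
  have e2 : i + k * t = k * (a + t) := by
    rw [hi]
    ring
  have h1 : k * (a + t) + k ≤ m := by omega
  have h3 : a + t < n := by
    have h4 : k * (a + t + 1) ≤ k * n := by
      have h5 := hL.hm
      have h6 : k * (a + t + 1) = k * (a + t) + k := by ring
      omega
    exact Nat.le_of_mul_le_mul_left h4 (Nat.lt_of_lt_of_le Nat.zero_lt_one hL.hk)
  rw [bits_bits B h ht (by omega), ps3_cast B e2 (by omega) h1]
  exact hL.rnd (a + t) h1 h3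

theorem canS_pat {M : Mach V Ω R} {m c : ℕ} {B : Blk V m} {D : (V → Bool) → Prop} (hc : CanS M S B (fun _ => True) c) : CanS M S B D c := by
  intro X key P a h1 h2 h3 h4 _
  exact hc X key P a h1 h2 h3 h4 (fun _ => trivial)

theorem ps_route : ∃ C : ℕ, ∀ {V Ω R X : Type} {Q k q r0 Lam W S : ℕ} {M : Mach V Ω R} {PL : Blk V (Q + Q)} {RB : Blk V (5 * Q)}
    (hC : Blk.Comm PL RB) (hQ : Q = k * q) (hk4 : 4 ∣ k) (hk : 1 ≤ k) (hq : 1 ≤ q) (h7 : 7 * Q + 2 ≤ 2 ^ k)
    (hL : Lines M Lam PL k (q + q) r0) (hR : Lines M Lam RB k (5 * q) r0) (hW : 2 ^ (7 * Q) < W) (hS : 1 ≤ S) (hl : S * W ^ 8 ≤ Lam)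
    (κ : X → ℕ) (P : M.Pl) (a : V → Ω → Option X × Option R) (hs : Sm S a) (ha : ∀ v, M.Has P v (a v))
    (hd : ∀ w, Dist PL (fun x => κ x.1) (fun v => a v w)) (hr : ∀ w, RBC RB κ (fun v => a v w))
    (ho : ∀ w v, 16 * occ PL (fun u => (a u w).1.isSome) v (Q + Q) ≤ 2 ^ (Q + Q))
    (hp : ∀ v, M.Knows P v (fun w => prk PL κ (fun u => a u w) v)),
    M.Do (C * q * r0) P (fun P' => ∃ b : V → Ω → Option X × Option R, (∀ v, M.Has P' v (b v)) ∧
      ∀ w v, (∀ p, p < 2 ^ (Q + Q) → (a (PL.nd v p) w).1.isSome → 16 * prk PL κ (fun u => a u w) (PL.nd v p) = PL.pos v →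
          b v w = a (PL.nd v p) w) ∧
        ((∀ p, p < 2 ^ (Q + Q) → (a (PL.nd v p) w).1.isSome → 16 * prk PL κ (fun u => a u w) (PL.nd v p) ≠ PL.pos v) → b v w = emp)) := by
  classical
  obtain ⟨cN, hcN⟩ := H69.HS.columnsort
  refine ⟨2 * cN 8 + 280, ?_⟩
  intro V Ω R X Q k q r0 Lam W S M PL RB hC hQ hk4 hk hq h7 hL hR hW hS hl κ P a hs ha hd hr ho hp
  have hkQ : k ≤ Q := by
    rw [hQ]
    exact Nat.le_mul_of_pos_right _ hq
  have hk5 : 0 + (4 * Q + k) ≤ 5 * Q := by omega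
  have hk44 : 4 ≤ k := Nat.le_of_dvd hk hk4
  have hW2 : 2 ≤ W := by
    have : 1 ≤ 2 ^ (7 * Q) := Nat.one_le_two_pow
    omega
  obtain ⟨B, hB⟩ : ∃ B, B = B2 PL RB hC hk5 := ⟨_, rfl⟩
  have hLB : Lines M Lam B k ((q + q) + (4 * q + 1)) r0 := by
    rw [hB]
    exact lines_prod _ hL (ps3_part hR hk5 (a := 0) (by rw [mul_zero]) (by rw [hQ]; ring))
  have hm := hm2 hQ
  have hS4 : S * W ^ 4 + 1 ≤ Lam := by
    have h1 : 1 ≤ S * W ^ 4 := Nat.mul_pos hS (pow_pos (by omega) 4)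
    calc S * W ^ 4 + 1 ≤ S * W ^ 4 * 2 := by omega
      _ ≤ S * W ^ 4 * W ^ 4 := Nat.mul_le_mul_left _ (hW2.trans (Nat.le_self_pow (by norm_num) W))
      _ = S * W ^ 8 := by ring
      _ ≤ Lam := hl
  have hkk : k = k * 1 := (mul_one k).symm
  have hgg : 4 * Q = k * (4 * q) := by
    rw [hQ]
    ring
  have h8 : 8 * (k / 4) = k + k := by
    obtain ⟨d, rfl⟩ := hk4
    rw [Nat.mul_div_cancel_left d (by norm_num)]
    ring
  have hPS : ∀ jj (hj : jj < 2 * q), CanS M (S * W ^ 4) (Pln B hm jj hj) (fun o => RevPat (Bal B hm) 0 o) (cN 8 * r0) := by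
    intro jj hj
    refine canS_pat (canS_all (by omega) h8 ?_)
    exact hcN M Lam (S * W ^ 4) k (1 + 1) r0 8 (Pln B hm jj hj) hk4 (lines_pln hm hLB hkk hgg jj hj) hS4 (by omega)
  have hδ : ∀ v, M.Knows P v (fun w => dlt16 PL κ (fun u => a u w) v) := by
    intro v
    refine Mach.Knows.triv (Mach.Knows.comp2 (ha v).label (hp v) (fun x y => if x.isSome then some (16 * y) else none)) ?_
    intro w
    rfl
  have hW' : 2 ^ (Q + Q + (4 * Q + k)) < W :=
    lt_of_le_of_lt (Nat.pow_le_pow_right (by norm_num) (by omega)) hW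
  have hwr := wide_route (W := W) (S := S) (c1 := 0) (S2 := cN 8 * r0) hm hLB hkk hgg (by omega)
    (by rw [hQ]; exact le_of_eq (by ring)) (by rw [pow_zero, one_mul]; omega)
    hW' hS hl hPS P a hs ha (fun v w => dlt16 PL κ (fun u => a u w) v) hδ
    (fun w => by
      rw [hB]
      exact dlok16 PL RB hC hk5 hQ hk44 (hd w) (hr w) (ho w))
  refine hwr.mono ?_ ?_
  · have h1 : 2 * q * (cN 8 * r0) + 40 * (q + q + (4 * q + 1)) * r0 = (2 * cN 8 * q + 40 * (6 * q + 1)) * r0 := by ring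
    have h2 : 40 * (6 * q + 1) ≤ 280 * q := by omega
    rw [h1]
    have h3 : (2 * cN 8 + 280) * q * r0 = (2 * cN 8 * q + 280 * q) * r0 := by ring
    rw [h3]
    exact Nat.mul_le_mul_right _ (Nat.add_le_add_left h2 _)
  rintro P' _ ⟨b, hb, hspec⟩
  refine ⟨b, hb, fun w v => ?_⟩
  have hU := uni_B2 PL RB hC hk5 hQ v
  rw [← hB] at hU
  obtain ⟨hU1, hU2⟩ := hU
  have hpw : 2 ^ (2 * q * k) = 2 ^ (Q + Q) := by
    congr 1
    rw [hQ]
    ring
  obtain ⟨hw1, hw2⟩ := hspec w v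
  rw [hpw, hU1] at hw1 hw2
  constructor
  · intro p hpp h1 h2
    have h3 := hw1 p hpp (by
      rw [hU2 p hpp]
      show (if (a (PL.nd v p) w).1.isSome then some (16 * prk PL κ (fun u => a u w) (PL.nd v p)) else none) = some (PL.pos v)
      rw [if_pos h1, h2])
    rw [hU2 p hpp] at h3
    exact h3
  · intro h
    refine hw2 fun p hpp h1 => ?_
    rw [hU2 p hpp] at h1
    change (if (a (PL.nd v p) w).1.isSome then some (16 * prk PL κ (fun u => a u w) (PL.nd v p)) else none) = some (PL.pos v) at h1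
    by_cases h3 : (a (PL.nd v p) w).1.isSome = true
    · rw [if_pos h3] at h1
      exact h p hpp h3 (Option.some.inj h1)
    · rw [if_neg h3] at h1
      exact absurd h1 (by simp)

end Pool.Agent.H31.HS
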