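import Mathlib
import Pool.Agent.H31.HS.PS3
import Pool.Agent.H31.HS.Conc

/-!
# PS4: sorting a plane with replicas

`ps_rank` (cost `4 q r0`), `ps_route` (cost `C q r0`): array `b` with the item of rank `ρ` at the place number `16 ρ`; `conc` for `PL` (cost `2 q r0`) with labels `(x, PL.pos v / 16)` (`Sm.pair`, `S * W` labels) and
`tau (x, ρ) = ρ` (occupied places of `b` have numbers divisible by 16; for `pos v < pos u`: `pos v / 16 < pos u / 16` and `pos u / 16 + pos v ≤ pos v / 16 + pos u`); drop the number from the label.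
Result: the place number `ρ` has the item of rank `ρ`: `SortSpec`: the ranks of the items of a class are `0, ..., N-1` (`prk` is injective on the occupied places by `Dist`, strictly increasing in the key, and at most
`N - 1`, so surjective onto `range N`).
`pat_occ`: `RevPat` for the low `Q` bits of a plane: every line has at most `2^(Q-4)` occupied places, so the plane has at most `2^Q * 2^(Q-4)`.
-/

set_option autoImplicit false

namespace Pool.Agent.H31.HS

private noncomputable def rk4 (n : ℕ) (f : ℕ → WithTop ℕ) (t : ℕ) : ℕ := ((Finset.range n).filter (fun s => f s < f t)).card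

private theorem rk4_lt {n : ℕ} {f : ℕ → WithTop ℕ} {s t : ℕ} (hs : s < n) (h : f s < f t) : rk4 n f s < rk4 n f t := by
  unfold rk4
  apply Finset.card_lt_card
  rw [Finset.ssubset_iff_of_subset]
  · exact ⟨s, by simp [hs, h], by simp⟩
  · intro r hr
    simp only [Finset.mem_filter] at hr ⊢
    exact ⟨hr.1, hr.2.trans h⟩

private theorem rk4_surj {n : ℕ} {f : ℕ → WithTop ℕ} (hf : ∀ s t, s < n → t < n → f s = f t → f s ≠ ⊤ → s = t) {t ρ : ℕ}
    (hρ : ρ < rk4 n f t) : ∃ s, s < n ∧ f s < f t ∧ rk4 n f s = ρ := by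
  classical
  obtain ⟨A, hA⟩ : ∃ A : Finset ℕ, A = (Finset.range n).filter (fun s => f s < f t) := ⟨_, rfl⟩
  have hc : A.card = rk4 n f t := by
    rw [hA]
    rfl
  have h1 : A.image (rk4 n f) ⊆ Finset.range (rk4 n f t) := by
    intro r hr
    obtain ⟨s, hs, rfl⟩ := Finset.mem_image.1 hr
    rw [hA, Finset.mem_filter, Finset.mem_range] at hs
    exact Finset.mem_range.2 (rk4_lt hs.1 hs.2)
  have h2 : (A.image (rk4 n f)).card = rk4 n f t := by
    rw [Finset.card_image_of_injOn, hc]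
    intro s hs s' hs' he
    rw [Finset.mem_coe, hA, Finset.mem_filter, Finset.mem_range] at hs hs'
    have he' : rk4 n f s = rk4 n f s' := he
    rcases lt_trichotomy (f s) (f s') with h | h | h
    · have := rk4_lt (n := n) hs.1 h
      omega
    · exact hf s s' hs.1 hs'.1 h hs.2.ne_top
    · have := rk4_lt (n := n) hs'.1 h
      omega
  have h3 : A.image (rk4 n f) = Finset.range (rk4 n f t) :=
    Finset.eq_of_subset_of_card_le h1 (by rw [h2, Finset.card_range])
  have h4 : ρ ∈ A.image (rk4 n f) := by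
    rw [h3]
    exact Finset.mem_range.2 hρ
  obtain ⟨s, hs, he⟩ := Finset.mem_image.1 h4
  rw [hA, Finset.mem_filter, Finset.mem_range] at hs
  exact ⟨s, hs.1, hs.2, he⟩

private theorem rk4_le {n : ℕ} {f : ℕ → WithTop ℕ} {t : ℕ} (ht : t < n) (h : f t ≠ ⊤) :
    rk4 n f t < ((Finset.range n).filter (fun s => f s ≠ ⊤)).card := by
  unfold rk4
  apply Finset.card_lt_card
  rw [Finset.ssubset_iff_of_subset]
  · exact ⟨t, by simp [ht, h], by simp⟩
  · intro r hr
    simp only [Finset.mem_filter] at hr ⊢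
    exact ⟨hr.1, hr.2.ne_top⟩

private theorem kv4 {X R : Type} {key : X × Option R → ℕ} {x : Option X × Option R} : kv key x ≠ ⊤ ↔ x.1.isSome = true := by
  obtain ⟨x1, x2⟩ := x
  cases x1 with
  | none => simp [kv]
  | some y => simp [kv]

private theorem prk4 {V X R : Type} {l : ℕ} {PL : Blk V l} {κ : X → ℕ} {a : V → Option X × Option R} {v u : V} (h : PL.cls v u) :
    prk PL κ a u = rk4 (2 ^ l) (fun t => kv (fun x : X × Option R => κ x.1) (a (PL.nd v t))) (PL.pos u) := by
  have hu : PL.nd v (PL.pos u) = u := h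
  unfold prk rk4
  congr 1
  apply Finset.filter_congr
  intro t ht
  rw [Finset.mem_range] at ht
  show kv (fun x : X × Option R => κ x.1) (a (PL.nd u t)) < kv (fun x : X × Option R => κ x.1) (a u) ↔
    kv (fun x : X × Option R => κ x.1) (a (PL.nd v t)) < kv (fun x : X × Option R => κ x.1) (a (PL.nd v (PL.pos u)))
  rw [PL.nd_of_cls h ht, hu]

private theorem fin4 {V X R : Type} {l : ℕ} {PL : Blk V l} {κ : X → ℕ} {a b c : V → Option X × Option R}
    (hd : Dist PL (fun x => κ x.1) a) (ho : ∀ v, 16 * occ PL (fun u => (a u).1.isSome) v l ≤ 2 ^ l)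
    (h1 : ∀ v, (∀ p, p < 2 ^ l → (a (PL.nd v p)).1.isSome → 16 * prk PL κ a (PL.nd v p) = PL.pos v → b v = a (PL.nd v p)) ∧
      ((∀ p, p < 2 ^ l → (a (PL.nd v p)).1.isSome → 16 * prk PL κ a (PL.nd v p) ≠ PL.pos v) → b v = emp))
    (h2 : ∀ v, (∀ u, PL.cls v u → (b u).1.isSome → PL.pos u / 16 = PL.pos v → c v = b u) ∧
      ((∀ u, PL.cls v u → (b u).1.isSome → PL.pos u / 16 ≠ PL.pos v) → c v = emp)) :
    SortSpec PL (fun x => κ x.1) a c := by
  have hlt : ∀ u, (a u).1.isSome → 16 * prk PL κ a u < 2 ^ l := by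
    intro u hu
    have e1 := prk4 (κ := κ) (a := a) (PL.cls_refl u)
    have e2 : rk4 (2 ^ l) (fun t => kv (fun x : X × Option R => κ x.1) (a (PL.nd u t))) (PL.pos u) <
        ((Finset.range (2 ^ l)).filter (fun t => kv (fun x : X × Option R => κ x.1) (a (PL.nd u t)) ≠ ⊤)).card := by
      refine rk4_le (PL.pos_lt u) ?_
      show kv _ (a (PL.nd u (PL.pos u))) ≠ ⊤
      rw [PL.nd_pos, kv4]
      exact hu
    have e3 : ((Finset.range (2 ^ l)).filter (fun t => kv (fun x : X × Option R => κ x.1) (a (PL.nd u t)) ≠ ⊤)).card =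
        occ PL (fun u => (a u).1.isSome) u l := by
      unfold occ
      congr 1
      apply Finset.filter_congr
      intro t _
      rw [Nat.div_eq_of_lt (PL.pos_lt u), zero_mul, zero_add, kv4]
    have e4 := ho u
    rw [e1]
    rw [e3] at e2
    omega
  have hc : ∀ v u, PL.cls v u → (a u).1.isSome → prk PL κ a u = PL.pos v → c v = a u := by
    intro v u hvu hu hp
    have g1 := hlt u hu
    have g2 := PL.cls_nd v g1
    have g3 : PL.nd (PL.nd v (16 * prk PL κ a u)) (PL.pos u) = u := PL.cls_trans (PL.cls_symm g2) hvu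
    have g4 : b (PL.nd v (16 * prk PL κ a u)) = a u := by
      have g5 := (h1 (PL.nd v (16 * prk PL κ a u))).1 (PL.pos u) (PL.pos_lt u)
      rw [g3] at g5
      exact g5 hu (PL.pos_nd v _ g1).symm
    have g6 := (h2 v).1 _ g2 (by rw [g4]; exact hu) (by rw [PL.pos_nd v _ g1, ← hp]; omega)
    rw [g6, g4]
  have hc' : ∀ v, (∃ u, PL.cls v u ∧ (a u).1.isSome ∧ prk PL κ a u = PL.pos v ∧ c v = a u) ∨ c v = emp := by
    intro v
    by_cases h : ∃ u, PL.cls v u ∧ (b u).1.isSome ∧ PL.pos u / 16 = PL.pos v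
    · obtain ⟨u, g1, g2, g3⟩ := h
      left
      by_cases h' : ∃ p, p < 2 ^ l ∧ (a (PL.nd u p)).1.isSome ∧ 16 * prk PL κ a (PL.nd u p) = PL.pos u
      · obtain ⟨p, g4, g5, g6⟩ := h'
        have g7 := PL.cls_trans g1 (PL.cls_nd u g4)
        have g8 : prk PL κ a (PL.nd u p) = PL.pos v := by omega
        exact ⟨_, g7, g5, g8, hc v _ g7 g5 g8⟩
      · exfalso
        have g9 := (h1 u).2 (fun p hp1 hp2 hp3 => h' ⟨p, hp1, hp2, hp3⟩)
        rw [g9] at g2
        exact absurd g2 (by simp [emp])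
    · right
      exact (h2 v).2 (fun u hu1 hu2 hu3 => h ⟨u, hu1, hu2, hu3⟩)
  refine ⟨?_, ?_, ?_, ?_⟩
  · intro v hv
    rcases hc' v with ⟨u, g1, -, -, g4⟩ | g
    · exact ⟨u, g1, g4⟩
    · rw [g] at hv
      exact absurd hv (by simp [emp])
  · intro u hu
    have g1 : prk PL κ a u < 2 ^ l := by
      have := hlt u hu
      omega
    refine ⟨PL.nd u (prk PL κ a u), PL.cls_nd u g1, ?_⟩
    exact hc _ _ (PL.cls_symm (PL.cls_nd u g1)) hu (PL.pos_nd u _ g1).symm
  · intro v hv
    rcases hc' v with ⟨u, -, g2, -, g4⟩ | g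
    · rw [← g4, hv] at g2
      exact absurd g2 (by simp)
    · exact g
  · intro v u hvu _ hlt' hu
    rcases hc' u with ⟨u1, g1, g2, g3, g4⟩ | g
    · have g5 := PL.cls_trans hvu g1
      have e1 := prk4 (κ := κ) (a := a) g5
      have e2 : PL.pos v < rk4 (2 ^ l) (fun t => kv (fun x : X × Option R => κ x.1) (a (PL.nd v t))) (PL.pos u1) := by
        rw [← e1, g3]
        exact hlt'
      obtain ⟨s, s1, s2, s3⟩ := rk4_surj (f := fun t => kv (fun x : X × Option R => κ x.1) (a (PL.nd v t))) (n := 2 ^ l) (by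
        intro s t hs ht he hne
        have he' : kv (fun x : X × Option R => κ x.1) (a (PL.nd v s)) = kv (fun x : X × Option R => κ x.1) (a (PL.nd v t)) := he
        have i1 : (a (PL.nd v s)).1.isSome := kv4.1 hne
        have i2 : (a (PL.nd v t)).1.isSome := kv4.1 (by rw [← he']; exact hne)
        have i3 := hd _ _ (PL.cls_trans (PL.cls_symm (PL.cls_nd v hs)) (PL.cls_nd v ht)) i1 i2 he'
        have i4 := congrArg PL.pos i3
        rwa [PL.pos_nd v _ hs, PL.pos_nd v _ ht] at i4) e2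
      have s2' : kv (fun x : X × Option R => κ x.1) (a (PL.nd v s)) < kv (fun x : X × Option R => κ x.1) (a (PL.nd v (PL.pos u1))) := s2
      have e3 : PL.nd v (PL.pos u1) = u1 := g5
      rw [e3] at s2'
      have s4 : (a (PL.nd v s)).1.isSome := kv4.1 s2'.ne_top
      have s5 := prk4 (κ := κ) (a := a) (PL.cls_nd v s1)
      rw [PL.pos_nd v _ s1, s3] at s5
      have s6 := hc v _ (PL.cls_nd v s1) s4 s5
      rw [s6, g4]
      exact s2'
    · rw [g] at hu
      exact absurd hu (by simp [emp])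

theorem ps_sort : ∃ C : ℕ, ∀ {V Ω R : Type} {Q k q r0 Lam W S : ℕ} {M : Mach V Ω R} {PL : Blk V (Q + Q)} {RB : Blk V (5 * Q)}
    (hC : Blk.Comm PL RB) (hQ : Q = k * q) (hk4 : 4 ∣ k) (hk : 1 ≤ k) (hq : 1 ≤ q) (h7 : 7 * Q + 2 ≤ 2 ^ k)
    (hL : Lines M Lam PL k (q + q) r0) (hR : Lines M Lam RB k (5 * q) r0) (hW : 2 ^ (7 * Q) < W) (hS : 1 ≤ S) (hl : S * W ^ 8 ≤ Lam),
    CanR M S PL RB (fun o => ∀ v, 16 * occ PL o v (Q + Q) ≤ 2 ^ (Q + Q)) (C * q * r0) := by
  obtain ⟨C0, hC0⟩ := ps_route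
  refine ⟨4 + C0 + 2, ?_⟩
  intro V Ω R Q k q r0 Lam W S M PL RB hC hQ hk4 hk hq h7 hL hR hW hS hl X κ P a hs ha hd hD hr
  have hW1 : 1 ≤ W := Nat.one_le_of_lt hW
  have hW2 : 2 ^ (Q + Q) < W := lt_of_le_of_lt (Nat.pow_le_pow_right (by norm_num) (by omega)) hW
  have hW3 : 2 ≤ W := by
    have : 1 ≤ 2 ^ (7 * Q) := Nat.one_le_two_pow
    omega
  have hl2 : S * W ^ 2 ≤ Lam := le_trans (Nat.mul_le_mul_left _ (Nat.pow_le_pow_right hW1 (by norm_num))) hl
  have hl1 : S * W + 1 ≤ Lam := by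
    have e1 : S * W * 2 ≤ S * W * W := Nat.mul_le_mul_left _ hW3
    have e2 : S * W ^ 2 = S * W * W := by ring
    have e3 : 1 ≤ S * W := Nat.mul_pos hS hW1
    omega
  have hcost : (4 + C0 + 2) * q * r0 = 4 * q * r0 + (C0 * q * r0 + (q + q) * r0) := by ring
  rw [hcost]
  refine (ps_rank hC hQ hL hR hW2 hS hl2 κ P a hs ha hr).bind fun P1 he1 hp => ?_
  refine (hC0 hC hQ hk4 hk hq h7 hL hR hW hS hl κ P1 a hs (fun v => (ha v).mono he1) hd hr hD hp).bind fun P2 he2 hb0 => ?_
  obtain ⟨b, hb, hbs⟩ := hb0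
  -- the occupied places of `b`
  have hbc : ∀ w v, (∃ p, p < 2 ^ (Q + Q) ∧ (a (PL.nd v p) w).1.isSome ∧ 16 * prk PL κ (fun u => a u w) (PL.nd v p) = PL.pos v ∧
      b v w = a (PL.nd v p) w) ∨ b v w = emp := by
    intro w v
    by_cases h : ∃ p, p < 2 ^ (Q + Q) ∧ (a (PL.nd v p) w).1.isSome ∧ 16 * prk PL κ (fun u => a u w) (PL.nd v p) = PL.pos v
    · obtain ⟨p, g1, g2, g3⟩ := h
      exact Or.inl ⟨p, g1, g2, g3, (hbs w v).1 p g1 g2 g3⟩
    · exact Or.inr ((hbs w v).2 fun p g1 g2 g3 => h ⟨p, g1, g2, g3⟩)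
  have hb16 : ∀ w v x, (b v w).1 = some x → 16 * (PL.pos v / 16) = PL.pos v := by
    intro w v x hx
    rcases hbc w v with ⟨p, -, -, g, -⟩ | g
    · omega
    · rw [g] at hx
      exact absurd hx (by simp [emp])
  have hsb : Sm S b := hs.of_range fun v w => by
    rcases hbc w v with ⟨p, -, -, -, g⟩ | g
    · exact Or.inr ⟨_, w, g⟩
    · left
      rw [g]
      rfl
  have hsa2 : Sm (S * W) (fun v w => ((b v w).1.map (fun x => (x, PL.pos v / 16)), (b v w).2)) := by
    refine Sm.pair hsb (Sz.nat (n := W) (f := fun v (_ : Ω) => PL.pos v / 16) ?_) ?_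
    · intro v _
      exact lt_of_le_of_lt (Nat.div_le_self _ _) ((PL.pos_lt v).trans hW2)
    · intro v w x hx
      have hx' : (b v w).1.map (fun x => (x, PL.pos v / 16)) = some x := hx
      rw [Option.map_eq_some_iff] at hx'
      obtain ⟨y, hy, rfl⟩ := hx'
      exact ⟨hy, rfl⟩
  refine (conc hL hl1 P2 (fun v w => ((b v w).1.map (fun x => (x, PL.pos v / 16)), (b v w).2)) hsa2
    (fun v => (hb v).map (Option.map (fun x => (x, PL.pos v / 16)))) Prod.snd ?_ ?_).mono le_rfl ?_
  · intro w v x hx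
    have hx' : (b v w).1.map (fun x => (x, PL.pos v / 16)) = some x := hx
    rw [Option.map_eq_some_iff] at hx'
    obtain ⟨y, hy, rfl⟩ := hx'
    exact lt_of_le_of_lt (Nat.div_le_self _ _) (PL.pos_lt v)
  · intro w v u x x' _ hx hx' hlt
    have h1 : (b v w).1.map (fun x => (x, PL.pos v / 16)) = some x := hx
    have h2 : (b u w).1.map (fun x => (x, PL.pos u / 16)) = some x' := hx'
    rw [Option.map_eq_some_iff] at h1 h2
    obtain ⟨y, hy, rfl⟩ := h1
    obtain ⟨y', hy', rfl⟩ := h2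
    have g1 := hb16 w v y hy
    have g2 := hb16 w u y' hy'
    show PL.pos v / 16 < PL.pos u / 16 ∧ PL.pos u / 16 + PL.pos v ≤ PL.pos v / 16 + PL.pos u
    omega
  · rintro P3 - ⟨b2, hb2, hm⟩
    refine ⟨fun v w => ((b2 v w).1.map Prod.fst, (b2 v w).2), fun v => (hb2 v).map (Option.map Prod.fst), fun w => ?_⟩
    refine fin4 (b := fun v => b v w) (hd w) (hD w) (fun v => hbs w v) (fun v => ⟨?_, ?_⟩)
    · intro u hu hsome hpos
      obtain ⟨x, hx⟩ := Option.isSome_iff_exists.1 hsome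
      have hx' : (b u w).1 = some x := hx
      have g := (hm w v).1 u (x, PL.pos u / 16) hu (by
        show (b u w).1.map (fun x => (x, PL.pos u / 16)) = some (x, PL.pos u / 16)
        rw [hx']
        rfl) hpos
      have g' : b2 v w = ((b u w).1.map (fun x => (x, PL.pos u / 16)), (b u w).2) := g
      show ((b2 v w).1.map Prod.fst, (b2 v w).2) = b u w
      rw [g']
      show (((b u w).1.map (fun x => (x, PL.pos u / 16))).map Prod.fst, (b u w).2) = b u w
      rw [hx']
      show (some x, (b u w).2) = b u w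
      rw [← hx']
    · intro hno
      have g := (hm w v).2 (by
        intro u x hu hx
        have hx' : (b u w).1.map (fun x => (x, PL.pos u / 16)) = some x := hx
        rw [Option.map_eq_some_iff] at hx'
        obtain ⟨y, hy, rfl⟩ := hx'
        exact hno u hu (by
          show (b u w).1.isSome = true
          rw [hy]
          rfl))
      have g' : b2 v w = emp := g
      show ((b2 v w).1.map Prod.fst, (b2 v w).2) = emp
      rw [g']
      rfl

private theorem blocks4 (p : ℕ → Prop) [DecidablePred p] (K N : ℕ) (h : ∀ c, c < N → ((Finset.range N).filter (fun j => p (c * N + j))).card ≤ K) :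
    ∀ C, C ≤ N → ((Finset.range (C * N)).filter p).card ≤ C * K := by
  intro C
  induction C with
  | zero => simp
  | succ C ih =>
    intro hC
    have h1 := ih (by omega)
    have h2 := h C (by omega)
    have h3 : ((Finset.range ((C + 1) * N)).filter p).card =
        ((Finset.range (C * N)).filter p).card + ((Finset.range N).filter (fun j => p (C * N + j))).card := by
      rw [Finset.card_filter, Finset.card_filter, Finset.card_filter, Nat.succ_mul, Finset.sum_range_add]
    rw [h3, Nat.succ_mul]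
    omega

theorem pat_occ {V : Type} {Q : ℕ} (hQ4 : 4 ≤ Q) {PL : Blk V (Q + Q)} (h : 0 + Q ≤ Q + Q) {o : V → Bool}
    (ho : RevPat (PL.bits 0 Q h) 4 o) (v : V) : 16 * occ PL o v (Q + Q) ≤ 2 ^ (Q + Q) := by
  have h0 : occ PL o v (Q + Q) = ((Finset.range (2 ^ Q * 2 ^ Q)).filter (fun t => o (PL.nd v t) = true)).card := by
    unfold occ
    rw [pow_add]
    congr 1
    apply Finset.filter_congr
    intro t _
    rw [← pow_add, Nat.div_eq_of_lt (PL.pos_lt v), zero_mul, zero_add]
  have h1 : ∀ c, c < 2 ^ Q → ((Finset.range (2 ^ Q)).filter (fun j => o (PL.nd v (c * 2 ^ Q + j)) = true)).card ≤ 2 ^ (Q - 4) := by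
    intro c hc
    have hlt : ∀ j, j < 2 ^ Q → c * 2 ^ Q + j < 2 ^ (Q + Q) := by
      intro j hj
      have e1 : (c + 1) * 2 ^ Q ≤ 2 ^ Q * 2 ^ Q := Nat.mul_le_mul_right _ hc
      rw [pow_add]
      nlinarith
    obtain ⟨N, hN, hNt⟩ := ho (PL.nd v (c * 2 ^ Q + 0))
    have h2 : ((Finset.range (2 ^ Q)).filter (fun j => o (PL.nd v (c * 2 ^ Q + j)) = true)).card ≤
        ((Finset.range N).image (rev Q)).card := by
      apply Finset.card_le_card
      intro j hj
      rw [Finset.mem_filter, Finset.mem_range] at hj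
      have e1 : (PL.bits 0 Q h).nd (PL.nd v (c * 2 ^ Q + 0)) j = PL.nd v (c * 2 ^ Q + j) := by
        have g1 := hlt 0 (by positivity)
        show PL.nd (PL.nd v (c * 2 ^ Q + 0)) (Blk.rep 0 Q (PL.pos (PL.nd v (c * 2 ^ Q + 0))) (j % 2 ^ Q)) = _
        rw [PL.pos_nd v _ g1, Nat.mod_eq_of_lt hj.1]
        have g2 : Blk.rep 0 Q (c * 2 ^ Q + 0) j = c * 2 ^ Q + j := by
          unfold Blk.rep
          rw [zero_add, add_zero, Nat.mul_div_cancel _ (by positivity), pow_zero, mul_one, Nat.mod_one, add_zero]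
        rw [g2, PL.nd_nd v _ _ g1 (hlt j hj.1)]
      have e2 := (hNt j hj.1).1 (by rw [e1]; exact hj.2)
      obtain ⟨r, hr, rfl⟩ := e2
      exact Finset.mem_image.2 ⟨r, Finset.mem_range.2 hr, rfl⟩
    refine h2.trans (Finset.card_image_le.trans ?_)
    rw [Finset.card_range]
    exact hN
  have h3 := blocks4 (fun t => o (PL.nd v t) = true) (2 ^ (Q - 4)) (2 ^ Q) h1 (2 ^ Q) le_rfl
  rw [h0]
  have h4 : 2 ^ (Q + Q) = 16 * (2 ^ Q * 2 ^ (Q - 4)) := by
    rw [← pow_add, show (16 : ℕ) = 2 ^ 4 by norm_num, ← pow_add]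
    congr 1
    omega
  rw [h4]
  omega

end Pool.Agent.H31.HS
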