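import Mathlib
import Pool.Agent.H31.HS.WBas
import Pool.Agent.H31.HS.WDef
import Pool.Agent.H31.HS.BitF2
import Pool.Agent.H31.HS.BitF3

/-!
# PSR0: ranks by comparisons, sorted arrays from ranks (pure part of PSR)

`rkK PL K v`: number of keys of the class smaller than the key of `v`.  `RankSpec`: the place number `r` has the item of rank `r`.
-/

set_option autoImplicit false

namespace Pool.Agent.H31.HS

section rank

variable {V : Type} {n : ℕ}

/-- Both keys are present and the first one is smaller. -/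
def oLt (a b : Option ℕ) : Bool :=
  match a, b with
  | some i, some j => decide (i < j)
  | _, _ => false

theorem oLt_some {i j : ℕ} : oLt (some i) (some j) = true ↔ i < j := by
  show decide (i < j) = true ↔ i < j
  exact decide_eq_true_iff

theorem oLt_iff {a b : Option ℕ} : oLt a b = true ↔ ∃ i j, a = some i ∧ b = some j ∧ i < j := by
  constructor
  · intro h
    rcases a with _ | i
    · exact absurd h (by simp [oLt])
    · rcases b with _ | j
      · exact absurd h (by simp [oLt])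
      · exact ⟨i, j, rfl, rfl, oLt_some.1 h⟩
  · rintro ⟨i, j, rfl, rfl, h⟩
    exact oLt_some.2 h

/-- Number of the smaller keys in the class. -/
def rkK (PL : Blk V n) (K : V → Option ℕ) (v : V) : ℕ :=
  ((Finset.range (2 ^ n)).filter (fun t => oLt (K (PL.nd v t)) (K v) = true)).card

/-- Number of the keys in the class. -/
def actK (PL : Blk V n) (K : V → Option ℕ) (v : V) : ℕ :=
  ((Finset.range (2 ^ n)).filter (fun t => (K (PL.nd v t)).isSome = true)).card

theorem rkK_lt {PL : Blk V n} {K : V → Option ℕ} {v u : V} (hc : PL.cls v u) {i j : ℕ} (hv : K v = some i) (hu : K u = some j)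
    (h : i < j) : rkK PL K v < rkK PL K u := by
  unfold rkK
  refine Finset.card_lt_card ?_
  rw [Finset.ssubset_iff_of_subset]
  · refine ⟨PL.pos v, ?_, ?_⟩
    · rw [Finset.mem_filter, Finset.mem_range]
      refine ⟨PL.pos_lt v, ?_⟩
      rw [PL.nd_of_cls hc (PL.pos_lt v), PL.nd_pos, hv, hu]
      exact oLt_some.2 h
    · rw [Finset.mem_filter]
      rintro ⟨-, h1⟩
      rw [PL.nd_pos, hv] at h1
      exact absurd (oLt_some.1 h1) (lt_irrefl i)
  · intro t ht
    rw [Finset.mem_filter, Finset.mem_range] at ht ⊢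
    refine ⟨ht.1, ?_⟩
    obtain ⟨e, i', h1, h2, h3⟩ := oLt_iff.1 ht.2
    rw [PL.nd_of_cls hc ht.1, h1, hu]
    rw [hv] at h2
    have h4 := Option.some.inj h2
    exact oLt_some.2 (by omega)

theorem rkK_lt_act {PL : Blk V n} {K : V → Option ℕ} {v : V} (hv : (K v).isSome = true) : rkK PL K v < actK PL K v := by
  unfold rkK actK
  refine Finset.card_lt_card ?_
  rw [Finset.ssubset_iff_of_subset]
  · refine ⟨PL.pos v, ?_, ?_⟩
    · rw [Finset.mem_filter, Finset.mem_range]
      refine ⟨PL.pos_lt v, ?_⟩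
      rw [PL.nd_pos]
      exact hv
    · rw [Finset.mem_filter]
      rintro ⟨-, h1⟩
      rw [PL.nd_pos] at h1
      obtain ⟨i, j, h2, h3, h4⟩ := oLt_iff.1 h1
      rw [h2] at h3
      have := Option.some.inj h3
      omega
  · intro t ht
    rw [Finset.mem_filter] at ht ⊢
    obtain ⟨e, i', h1, h2, h3⟩ := oLt_iff.1 ht.2
    refine ⟨ht.1, ?_⟩
    rw [h1]
    rfl

theorem actK_cls {PL : Blk V n} {K : V → Option ℕ} {v u : V} (hc : PL.cls v u) : actK PL K u = actK PL K v := by
  unfold actK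
  congr 1
  refine Finset.filter_congr fun t ht => ?_
  rw [PL.nd_of_cls hc (Finset.mem_range.1 ht)]

/-- Different keys. -/
def DistK (PL : Blk V n) (K : V → Option ℕ) : Prop :=
  ∀ v u i, PL.cls v u → K v = some i → K u = some i → v = u

theorem rkK_inj {PL : Blk V n} {K : V → Option ℕ} (hd : DistK PL K) {v u : V} (hc : PL.cls v u) (hv : (K v).isSome = true)
    (hu : (K u).isSome = true) (h : rkK PL K v = rkK PL K u) : v = u := by
  obtain ⟨i, hi⟩ := Option.isSome_iff_exists.1 hv
  obtain ⟨j, hj⟩ := Option.isSome_iff_exists.1 hu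
  rcases lt_trichotomy i j with h1 | h1 | h1
  · have := rkK_lt hc hi hj h1
    omega
  · subst h1
    exact hd v u i hc hi hj
  · have := rkK_lt (PL.cls_symm hc) hj hi h1
    omega

theorem rkK_key {PL : Blk V n} {K : V → Option ℕ} (hd : DistK PL K) {v u : V} (hc : PL.cls v u) {i j : ℕ} (hv : K v = some i)
    (hu : K u = some j) (h : rkK PL K v < rkK PL K u) : i < j := by
  rcases lt_trichotomy i j with h1 | h1 | h1
  · exact h1
  · subst h1
    have := hd v u i hc hv hu
    subst this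
    omega
  · have := rkK_lt (PL.cls_symm hc) hu hv h1
    omega

/-- Every number below the number of keys is a rank. -/
theorem rkK_surj {PL : Blk V n} {K : V → Option ℕ} (hd : DistK PL K) (v : V) {r : ℕ} (hr : r < actK PL K v) :
    ∃ u, PL.cls v u ∧ (K u).isSome = true ∧ rkK PL K u = r := by
  classical
  have h1 : ((Finset.range (2 ^ n)).filter (fun t => (K (PL.nd v t)).isSome = true)).image (fun t => rkK PL K (PL.nd v t)) =
      Finset.range (actK PL K v) := by
    refine Finset.eq_of_subset_of_card_le ?_ ?_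
    · intro x hx
      obtain ⟨t, ht, rfl⟩ := Finset.mem_image.1 hx
      rw [Finset.mem_filter, Finset.mem_range] at ht
      rw [Finset.mem_range, ← actK_cls (PL.cls_nd v ht.1)]
      exact rkK_lt_act ht.2
    · rw [Finset.card_range, Finset.card_image_of_injOn]
      · exact le_rfl
      · intro t ht s hs hts
        have ht' := Finset.mem_filter.1 (Finset.mem_coe.1 ht)
        have hs' := Finset.mem_filter.1 (Finset.mem_coe.1 hs)
        rw [Finset.mem_range] at ht' hs'
        have h2 := rkK_inj hd (PL.cls_trans (PL.cls_symm (PL.cls_nd v ht'.1)) (PL.cls_nd v hs'.1)) ht'.2 hs'.2 hts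
        have h3 := congrArg PL.pos h2
        rwa [PL.pos_nd v t ht'.1, PL.pos_nd v s hs'.1] at h3
  have h2 : r ∈ Finset.range (actK PL K v) := Finset.mem_range.2 hr
  rw [← h1] at h2
  obtain ⟨t, ht, hts⟩ := Finset.mem_image.1 h2
  rw [Finset.mem_filter, Finset.mem_range] at ht
  exact ⟨PL.nd v t, PL.cls_nd v ht.1, ht.2, hts⟩

end rank

section sorted

variable {V X R : Type} {n : ℕ}

/-- The keys of an array. -/
def keyO (κ : X → ℕ) (a : V → Option X × Option R) (v : V) : Option ℕ := (a v).1.map κ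

theorem keyO_isSome {κ : X → ℕ} {a : V → Option X × Option R} {v : V} : (keyO κ a v).isSome = (a v).1.isSome := by
  unfold keyO
  rw [Option.isSome_map]

theorem distK_of {PL : Blk V n} {κ : X → ℕ} {a : V → Option X × Option R} (hd : Dist PL (fun x => κ x.1) a) :
    DistK PL (keyO κ a) := by
  intro v u i hc hv hu
  unfold keyO at hv hu
  obtain ⟨x, hx, hxi⟩ := Option.map_eq_some_iff.1 hv
  obtain ⟨y, hy, hyi⟩ := Option.map_eq_some_iff.1 hu
  refine hd v u hc (by rw [hx]; rfl) (by rw [hy]; rfl) ?_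
  unfold kv
  simp only [hx, hy]
  rw [hxi, hyi]

/-- The place number `r` has the item of rank `r`. -/
def RankSpec (PL : Blk V n) (K : V → Option ℕ) (a b : V → Option X × Option R) : Prop :=
  ∀ v, (∀ u, PL.cls v u → (a u).1.isSome = true → rkK PL K u = PL.pos v → b v = a u) ∧
    ((∀ u, PL.cls v u → (a u).1.isSome = true → rkK PL K u ≠ PL.pos v) → b v = emp)

theorem actK_le {PL : Blk V n} {K : V → Option ℕ} (v : V) : actK PL K v ≤ 2 ^ n := by
  unfold actK
  exact (Finset.card_filter_le _ _).trans (by rw [Finset.card_range])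

theorem sort_of_rank {PL : Blk V n} {κ : X → ℕ} {a b : V → Option X × Option R} (hd : Dist PL (fun x => κ x.1) a)
    (hb : RankSpec PL (keyO κ a) a b) : SortSpec PL (fun x => κ x.1) a b := by
  classical
  have hK := distK_of hd
  have hex : ∀ v, (b v).1.isSome = true → ∃ u, PL.cls v u ∧ (a u).1.isSome = true ∧ rkK PL (keyO κ a) u = PL.pos v ∧ b v = a u := by
    intro v hv
    by_cases h : ∃ u, PL.cls v u ∧ (a u).1.isSome = true ∧ rkK PL (keyO κ a) u = PL.pos v
    · obtain ⟨u, h1, h2, h3⟩ := h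
      exact ⟨u, h1, h2, h3, (hb v).1 u h1 h2 h3⟩
    · have h1 := (hb v).2 (fun u h1 h2 h3 => h ⟨u, h1, h2, h3⟩)
      rw [h1] at hv
      simp [emp] at hv
  refine ⟨?_, ?_, ?_, ?_⟩
  · intro v hv
    obtain ⟨u, h1, _, _, h4⟩ := hex v hv
    exact ⟨u, h1, h4⟩
  · intro u hu
    have hu' : (keyO κ a u).isSome = true := by rw [keyO_isSome]; exact hu
    have h1 : rkK PL (keyO κ a) u < 2 ^ n := (rkK_lt_act hu').trans_le (actK_le u)
    refine ⟨PL.nd u (rkK PL (keyO κ a) u), PL.cls_nd u h1, ?_⟩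
    exact (hb _).1 u (PL.cls_symm (PL.cls_nd u h1)) hu (PL.pos_nd u _ h1).symm
  · intro v hv
    by_cases h : ∃ u, PL.cls v u ∧ (a u).1.isSome = true ∧ rkK PL (keyO κ a) u = PL.pos v
    · obtain ⟨u, h1, h2, h3⟩ := h
      have h4 := (hb v).1 u h1 h2 h3
      rw [h4] at hv
      rw [hv] at h2
      simp at h2
    · exact (hb v).2 (fun u h1 h2 h3 => h ⟨u, h1, h2, h3⟩)
  · intro v u hc _ hlt hu
    obtain ⟨u', h1, h2, h3, h4⟩ := hex u hu
    have hu' : (keyO κ a u').isSome = true := by rw [keyO_isSome]; exact h2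
    have h5 := rkK_lt_act (PL := PL) hu'
    have hcu : PL.cls v u' := PL.cls_trans hc h1
    rw [h3, actK_cls hcu] at h5
    obtain ⟨v', g1, g2, g3⟩ := rkK_surj hK v (hlt.trans h5)
    have g2' : (a v').1.isSome = true := by rw [← keyO_isSome (κ := κ)]; exact g2
    have g4 := (hb v).1 v' g1 g2' g3
    obtain ⟨i, hi⟩ := Option.isSome_iff_exists.1 g2
    obtain ⟨j, hj⟩ := Option.isSome_iff_exists.1 hu'
    have g5 : i < j := rkK_key hK (PL.cls_trans (PL.cls_symm g1) hcu) hi hj (by rw [g3, h3]; exact hlt)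
    rw [h4, g4]
    unfold keyO at hi hj
    obtain ⟨x, hx, hxi⟩ := Option.map_eq_some_iff.1 hi
    obtain ⟨y, hy, hyi⟩ := Option.map_eq_some_iff.1 hj
    unfold kv
    simp only [hx, hy]
    rw [hxi, hyi]
    exact_mod_cast g5

end sorted

section prod

variable {V : Type} {n l g k Z : ℕ}

theorem psr_uni_pos {PL : Blk V n} {RL : Blk V l} (hC : Blk.Comm PL RL) (hm : n + l = g + k + Z * k) (hl : l = g + k) (v : V) :
    (Uni (Blk.prod PL RL hC) hm).pos v = PL.pos v := by
  rw [uni_num]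
  show (PL.pos v * 2 ^ l + RL.pos v) / 2 ^ (g + k) = PL.pos v
  rw [← hl, mul_comm, Nat.mul_add_div (by positivity), Nat.div_eq_of_lt (RL.pos_lt v), add_zero]

theorem psr_uni_nd {PL : Blk V n} {RL : Blk V l} (hC : Blk.Comm PL RL) (hm : n + l = g + k + Z * k) (hl : l = g + k) (v : V) {p : ℕ}
    (hp : p < 2 ^ n) : (Uni (Blk.prod PL RL hC) hm).nd v p = PL.nd v p := by
  subst hl
  have hn : Z * k = n := by omega
  have hp' : p < 2 ^ (Z * k) := by rw [hn]; exact hp
  have hx := (Blk.prod PL RL hC).pos_lt v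
  have h0 : Blk.rep (g + k) (Z * k) ((Blk.prod PL RL hC).pos v) p < 2 ^ (n + (g + k)) := Blk.rep_lt (by omega) hx hp'
  have h1 : Blk.rep (g + k) (Z * k) ((Blk.prod PL RL hC).pos v) p % 2 ^ (g + k) = RL.pos v := by
    rw [Blk.rep_mod]
    show (PL.pos v * 2 ^ (g + k) + RL.pos v) % 2 ^ (g + k) = RL.pos v
    rw [mul_comm, Nat.mul_add_mod, Nat.mod_eq_of_lt (RL.pos_lt v)]
  have h2 : Blk.rep (g + k) (Z * k) ((Blk.prod PL RL hC).pos v) p / 2 ^ (g + k) = p := by
    have h3 := Blk.rep_mid (i := g + k) (l := Z * k) (x := (Blk.prod PL RL hC).pos v) hp'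
    have h4 : Blk.rep (g + k) (Z * k) ((Blk.prod PL RL hC).pos v) p / 2 ^ (g + k) < 2 ^ (Z * k) := by
      rw [Nat.div_lt_iff_lt_mul (by positivity), ← pow_add]
      have h5 : Z * k + (g + k) = n + (g + k) := by omega
      rw [h5]
      exact h0
    rwa [Nat.mod_eq_of_lt h4] at h3
  show (Blk.prod PL RL hC).nd v (Blk.rep (g + k) (Z * k) ((Blk.prod PL RL hC).pos v) (p % 2 ^ (Z * k))) = PL.nd v p
  rw [Nat.mod_eq_of_lt hp']
  show PL.nd (RL.nd v (Blk.rep (g + k) (Z * k) ((Blk.prod PL RL hC).pos v) p % 2 ^ (g + k)))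
    (Blk.rep (g + k) (Z * k) ((Blk.prod PL RL hC).pos v) p / 2 ^ (g + k)) = PL.nd v p
  rw [h1, h2, RL.nd_pos]

/-- Ranks are the same in all replicas. -/
theorem rkK_rep {r : ℕ} {PL : Blk V n} {RB : Blk V r} (hC : Blk.Comm PL RB) {K : V → Option ℕ} (hK : ∀ v u, RB.cls v u → K v = K u)
    {v u : V} (h : RB.cls v u) : rkK PL K v = rkK PL K u := by
  unfold rkK
  congr 1
  refine Finset.filter_congr fun t ht => ?_
  have ht' := Finset.mem_range.1 ht
  have h1 : RB.cls (PL.nd v t) (PL.nd u t) := by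
    have h2 : RB.nd v (RB.pos u) = u := h
    rw [← h2, hC.com v t _ ht' (RB.pos_lt u)]
    exact RB.cls_nd _ (RB.pos_lt u)
  rw [hK _ _ h, hK _ _ h1]

/-- The target of the units. -/
def dlK (PL : Blk V n) (K : V → Option ℕ) (v : V) : Option ℕ := if (K v).isSome = true then some (16 * rkK PL K v) else none

theorem dlK_some {PL : Blk V n} {K : V → Option ℕ} {v : V} {e : ℕ} (h : dlK PL K v = some e) :
    (K v).isSome = true ∧ e = 16 * rkK PL K v := by
  unfold dlK at h
  split_ifs at h with h1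
  exact ⟨h1, (Option.some.inj h).symm⟩

theorem psr_dlOK {r : ℕ} {PL : Blk V n} {RB : Blk V r} {RL : Blk V l} (hCR : Blk.Comm PL RB) (hC : Blk.Comm PL RL)
    (hRL : ∀ v u, RL.cls v u → RB.cls v u) (hm : n + l = g + k + Z * k) (hl : l = g + k) (hk : 4 ≤ k) {K : V → Option ℕ}
    (hK : ∀ v u, RB.cls v u → K v = K u) (hd : DistK PL K) (hf : ∀ v, 16 * actK PL K v ≤ 2 ^ n) :
    DlOK (Blk.prod PL RL hC) hm 0 (dlK PL K) := by
  have hn : Z * k = n := by omega
  have hcl : ∀ v u, (Blk.prod PL RL hC).cls v u → ∃ z, RB.cls v z ∧ PL.cls z u ∧ PL.pos v = PL.pos z := by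
    intro v u h
    obtain ⟨z, h1, h2⟩ := (prod_cls hC v u).1 h
    refine ⟨z, hRL v z h1, h2, ?_⟩
    have h3 : RL.nd v (RL.pos z) = z := h1
    rw [← h3, hC.pS v _ (RL.pos_lt z)]
  have hdr : ∀ v u, RB.cls v u → dlK PL K v = dlK PL K u := by
    intro v u h
    unfold dlK
    rw [hK v u h, rkK_rep hCR hK h]
  refine ⟨?_, ?_, ?_, ?_⟩
  · intro v u h hp
    rw [psr_uni_pos hC hm hl, psr_uni_pos hC hm hl] at hp
    obtain ⟨z, h1, h2, h3⟩ := hcl v u h
    have h4 : z = u := PL.eq_of_cls h2 (by rw [← h3, hp])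
    rw [← h4]
    exact hdr v z h1
  · intro v e h
    obtain ⟨h1, h2⟩ := dlK_some h
    have h3 := rkK_lt_act (PL := PL) h1
    have h4 := hf v
    rw [h2, hn]
    omega
  · intro v u e h hv hu
    rw [psr_uni_pos hC hm hl, psr_uni_pos hC hm hl]
    obtain ⟨z, h1, h2, h3⟩ := hcl v u h
    rw [hdr v z h1] at hv
    obtain ⟨g1, g2⟩ := dlK_some hv
    obtain ⟨g3, g4⟩ := dlK_some hu
    have h5 : z = u := rkK_inj hd h2 g1 g3 (by omega)
    rw [h3, h5]
  · intro v j hj a
    have hi : 4 ≤ (Z - j) * k := by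
      have h1 : 1 * k ≤ (Z - j) * k := Nat.mul_le_mul_right k (by omega)
      omega
    obtain ⟨i, hi'⟩ := Nat.exists_eq_add_of_le hi
    rw [hi']
    have h16 : (2 : ℕ) ^ (4 + i) = 16 * 2 ^ i := by
      rw [pow_add]
      norm_num
    have hcard : ((Finset.range (2 ^ (Z * k))).filter fun p => ∃ t, dl (Blk.prod PL RL hC) hm (dlK PL K) v p = some t ∧
        t / 2 ^ (4 + i) = a).card ≤ (Finset.Ico (a * 2 ^ i) ((a + 1) * 2 ^ i)).card := by
      refine Finset.card_le_card_of_injOn (fun p => rkK PL K (PL.nd v p)) ?_ ?_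
      · intro p hp
        obtain ⟨hp1, t, ht1, ht2⟩ := Finset.mem_filter.1 (Finset.mem_coe.1 hp)
        rw [Finset.mem_range, hn] at hp1
        unfold dl at ht1
        rw [psr_uni_nd hC hm hl v hp1] at ht1
        obtain ⟨g1, g2⟩ := dlK_some ht1
        have hpos : 0 < 2 ^ i := by positivity
        have e1 : t / 2 ^ (4 + i) = rkK PL K (PL.nd v p) / 2 ^ i := by
          rw [g2, h16, Nat.mul_div_mul_left _ _ (by norm_num)]
        rw [e1] at ht2
        have e2 := Nat.div_add_mod (rkK PL K (PL.nd v p)) (2 ^ i)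
        have e3 := Nat.mod_lt (rkK PL K (PL.nd v p)) hpos
        rw [ht2] at e2
        rw [Finset.mem_coe, Finset.mem_Ico]
        constructor
        · have : 2 ^ i * a = a * 2 ^ i := mul_comm _ _
          show a * 2 ^ i ≤ rkK PL K (PL.nd v p)
          omega
        · have : (a + 1) * 2 ^ i = 2 ^ i * a + 2 ^ i := by ring
          show rkK PL K (PL.nd v p) < (a + 1) * 2 ^ i
          omega
      · intro p hp s hs hps
        obtain ⟨hp1, t, ht1, _⟩ := Finset.mem_filter.1 (Finset.mem_coe.1 hp)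
        obtain ⟨hs1, t', ht1', _⟩ := Finset.mem_filter.1 (Finset.mem_coe.1 hs)
        rw [Finset.mem_range, hn] at hp1 hs1
        unfold dl at ht1 ht1'
        rw [psr_uni_nd hC hm hl v hp1] at ht1
        rw [psr_uni_nd hC hm hl v hs1] at ht1'
        have h2 := rkK_inj hd (PL.cls_trans (PL.cls_symm (PL.cls_nd v hp1)) (PL.cls_nd v hs1)) (dlK_some ht1).1 (dlK_some ht1').1 hps
        have h3 := congrArg PL.pos h2
        rwa [PL.pos_nd v p hp1, PL.pos_nd v s hs1] at h3
    rw [Nat.card_Ico] at hcard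
    have h5 : (a + 1) * 2 ^ i - a * 2 ^ i = 2 ^ i := by
      rw [add_mul, one_mul, Nat.add_sub_cancel_left]
    rw [h5] at hcard
    have h6 := Nat.mul_le_mul_left (2 ^ (0 + 4)) hcard
    refine h6.trans (le_of_eq ?_)
    rw [h16]
    norm_num

end prod

end Pool.Agent.H31.HS
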