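import Mathlib
import Pool.Agent.H31.HS.PSR0
import Pool.Agent.H31.HS.RDef
import Pool.Agent.H31.HS.WR
import Pool.Agent.H31.HS.Bfx
import Pool.Agent.H31.HS.Sums
import Pool.Agent.H31.HS.Conc
import Pool.Agent.H69.HS.ColSort

/-!
# PSR: sorting of a plane with replicas in `C * q` rounds (`2 Q` bits, `Q = k * q`)

Ranks by `bfx` and `lsum` over `2 Q` replica bits, then `wide_route` with the chunk `k` (units: the places of the plane, balance: one digit of the
replica bits, layers: `4 Q` other replica bits, `δ = 16 * rank`, planes by `columnsort`), then `conc` from `16 r` to `r`.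
-/

set_option autoImplicit false

namespace Pool.Agent.H31.HS

variable {V Ω R : Type}

/-- At most the sixteenth part of the places of every class is occupied. -/
def Few {n : ℕ} (PL : Blk V n) (o : V → Bool) : Prop :=
  ∀ v, 16 * ((Finset.range (2 ^ n)).filter (fun t => o (PL.nd v t) = true)).card ≤ 2 ^ n

theorem CanS.patMono {m S c : ℕ} {M : Mach V Ω R} {B : Blk V m} {D D' : (V → Bool) → Prop} (h : CanS M S B D c)
    (hD : ∀ o, D' o → D o) : CanS M S B D' c := by
  intro X key P a h1 h2 h3 h4 h5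
  exact h X key P a h1 h2 h3 h4 (fun w => hD _ (h5 w))

private theorem cs_full {M : Mach V Ω R} {c : ℕ → ℕ}
    (hc : ∀ {V Ω R : Type} {m : ℕ} (M : Mach V Ω R) (S W Lam k n r0 N : ℕ) (B : Blk V m),
      4 ∣ k → Lines M Lam B k n r0 → 2 ^ m < W → S * W ^ 3 ≤ Lam → ∀ h : 0 + N * (k / 4) ≤ m,
        CanS M S (B.bits 0 (N * (k / 4)) h) (fun _ => True) (c N * r0))
    {m S W Lam k n r0 N : ℕ} {B : Blk V m} (h4 : 4 ∣ k) (hL : Lines M Lam B k n r0) (hW : 2 ^ m < W) (hl : S * W ^ 3 ≤ Lam)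
    (hN : N * (k / 4) = m) (D : (V → Bool) → Prop) : CanS M S B D (c N * r0) := by
  subst hN
  have h1 := hc M S W Lam k n r0 N B h4 hL hW hl (by omega)
  rw [bits_all] at h1
  exact h1.patMono (fun _ _ => trivial)

/-- The array with ranks. -/
def aRk {X : Type} {n : ℕ} (PL : Blk V n) (K : V → Option ℕ) (a : V → Option X × Option R) (v : V) : Option (X × ℕ) × Option R :=
  ((a v).1.map (fun x => (x, rkK PL K v)), (a v).2)

section pure

variable {X : Type} {n : ℕ} {PL : Blk V n} {K : V → Option ℕ} {a : V → Option X × Option R} {b1 b2 : V → Option (X × ℕ) × Option R}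

/-- What `wide_route` gives. -/
def Rtd (PL : Blk V n) (K : V → Option ℕ) (a : V → Option X × Option R) (b1 : V → Option (X × ℕ) × Option R) : Prop :=
  ∀ v, (∀ p, p < 2 ^ n → dlK PL K (PL.nd v p) = some (PL.pos v) → b1 v = aRk PL K a (PL.nd v p)) ∧
    ((∀ p, p < 2 ^ n → dlK PL K (PL.nd v p) ≠ some (PL.pos v)) → b1 v = emp)

theorem rtd_some (hK : ∀ v, (K v).isSome = (a v).1.isSome) (h : Rtd PL K a b1) {v : V} {y : X × ℕ} (hy : (b1 v).1 = some y) :
    ∃ u, PL.cls v u ∧ (a u).1.isSome = true ∧ PL.pos v = 16 * rkK PL K u ∧ b1 v = aRk PL K a u ∧ y.2 = rkK PL K u := by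
  classical
  by_cases h1 : ∃ p, p < 2 ^ n ∧ dlK PL K (PL.nd v p) = some (PL.pos v)
  · obtain ⟨p, hp, h2⟩ := h1
    obtain ⟨h3, h4⟩ := dlK_some h2
    have h5 := (h v).1 p hp h2
    refine ⟨PL.nd v p, PL.cls_nd v hp, by rw [← hK]; exact h3, h4, h5, ?_⟩
    rw [h5] at hy
    unfold aRk at hy
    obtain ⟨x, _, hx⟩ := Option.map_eq_some_iff.1 hy
    rw [← hx]
  · have h2 := (h v).2 (fun p hp h3 => h1 ⟨p, hp, h3⟩)
    rw [h2] at hy
    simp [emp] at hy

theorem rank_of_rtd (hK : ∀ v, (K v).isSome = (a v).1.isSome) (hf : ∀ v, 16 * actK PL K v ≤ 2 ^ n) (h : Rtd PL K a b1)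
    (h2 : MoveSpec PL (fun y : X × ℕ => y.2) b1 b2) : RankSpec PL K a (fun v => ((b2 v).1.map Prod.fst, (b2 v).2)) := by
  intro v
  constructor
  · intro u hc hu hr
    have hKu : (K u).isSome = true := by rw [hK]; exact hu
    have h3 := rkK_lt_act (PL := PL) hKu
    have h4 := hf u
    have h16 : 16 * rkK PL K u < 2 ^ n := by omega
    obtain ⟨z, hz⟩ : ∃ z, z = PL.nd v (16 * rkK PL K u) := ⟨_, rfl⟩
    have hvz : PL.cls v z := by rw [hz]; exact PL.cls_nd v h16
    have hzu : PL.cls z u := PL.cls_trans (PL.cls_symm hvz) hc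
    have hpz : PL.pos z = 16 * rkK PL K u := by rw [hz, PL.pos_nd v _ h16]
    have hnd : PL.nd z (PL.pos u) = u := hzu
    have h5 : b1 z = aRk PL K a u := by
      have h6 := (h z).1 (PL.pos u) (PL.pos_lt u) (by
        rw [hnd]
        unfold dlK
        rw [if_pos hKu, hpz])
      rwa [hnd] at h6
    obtain ⟨x, hx⟩ := Option.isSome_iff_exists.1 hu
    have h7 : (b1 z).1 = some (x, rkK PL K u) := by
      rw [h5]
      unfold aRk
      rw [hx]
      rfl
    have h8 := (h2 v).1 z _ hvz h7 hr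
    show ((b2 v).1.map Prod.fst, (b2 v).2) = a u
    rw [h8, h5]
    unfold aRk
    refine Prod.ext ?_ rfl
    show Option.map Prod.fst (Option.map (fun x => (x, rkK PL K u)) (a u).1) = (a u).1
    rw [hx]
    rfl
  · intro hn
    have h8 := (h2 v).2 (fun u y hc hy hr => by
      obtain ⟨u', g1, g2, g3, g4, g5⟩ := rtd_some hK h hy
      exact hn u' (PL.cls_trans hc g1) g2 (by rw [← g5]; exact hr))
    show ((b2 v).1.map Prod.fst, (b2 v).2) = emp
    rw [h8]
    rfl

end pure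

private theorem few_act {n : ℕ} {X : Type} {PL : Blk V n} {κ : X → ℕ} {a : V → Option X × Option R}
    (h : Few PL (fun v => (a v).1.isSome)) (v : V) : 16 * actK PL (keyO κ a) v ≤ 2 ^ n := by
  have h1 := h v
  unfold actK
  have h2 : ((Finset.range (2 ^ n)).filter (fun t => (keyO κ a (PL.nd v t)).isSome = true)) =
      ((Finset.range (2 ^ n)).filter (fun t => (a (PL.nd v t)).1.isSome = true)) := by
    refine Finset.filter_congr fun t _ => ?_
    rw [keyO_isSome]
  rw [h2]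
  exact h1

/-- The ranks can be computed in `2 * n2` rounds (`n2` digits in the plane). -/
theorem ranks_known {M : Mach V Ω R} {Lam k n2 r0 n r S W : ℕ} {PL : Blk V n} {RB : Blk V r} (hC : Blk.Comm PL RB)
    (hLP : Lines M Lam PL k n2 r0) {nr : ℕ} (hLR : Lines M Lam RB k nr r0) (hnr : n2 ≤ nr) (hS : S + 2 ≤ Lam) (hW : 2 ^ n < W) (hWl : W ≤ Lam)
    (P : M.Pl) (K : V → Ω → Option ℕ) (hs : Sz (S + 1) K) (hK : ∀ v, M.Knows P v (K v)) (hrep : ∀ w v u, RB.cls v u → K v w = K u w) :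
    M.Do (2 * n2 * r0) P (fun P' => ∀ v, M.Knows P' v (fun w => rkK PL (fun u => K u w) v)) := by
  classical
  have hn := hLP.hm
  have hr := hLR.hm
  subst hn
  have hle : k * 0 + k * n2 ≤ r := by
    rw [hr, mul_zero, zero_add]
    exact Nat.mul_le_mul_left k hnr
  obtain ⟨E, hE⟩ : ∃ E : Blk V (k * n2), E = RB.bits (k * 0) (k * n2) hle := ⟨_, rfl⟩
  have hLE : Lines M Lam E k n2 r0 := by
    rw [hE]
    exact lines_bits hLR (by omega) hle
  have hCE : Blk.Comm PL E := by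
    have h1 := comm_bits hC (i := 0) (j := k * n2) (i' := k * 0) (j' := k * n2) (by omega) hle
    rw [bits_all] at h1
    rw [hE]
    exact h1
  have hEc : ∀ v u, E.cls v u → RB.cls v u := by
    intro v u h
    rw [hE, bits_cls] at h
    exact h.1
  have hcost : 2 * n2 * r0 = n2 * r0 + n2 * r0 := by ring
  rw [hcost]
  refine (bfx hCE hLP (S := S + 1) (by omega) P (fun v w => (K v w, (none : Option R))) hs (fun v => (hK v).has)).bind ?_
  intro P1 hP1 h1
  have hg : ∀ v, M.Knows P1 v (fun w => if oLt (K (PL.nd v (E.pos v)) w) (K v w) = true then 1 else 0) := by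
    intro v
    exact ((h1 v).label).comp2 ((hK v).mono hP1) (fun x y => if oLt x y = true then 1 else 0)
  have hsum : ∀ v w, ∑ t ∈ Finset.range (2 ^ (k * n2)), (if oLt (K (PL.nd (E.nd v t) (E.pos (E.nd v t))) w) (K (E.nd v t) w) = true then 1 else 0) =
      rkK PL (fun u => K u w) v := by
    intro v w
    unfold rkK
    rw [Finset.card_filter]
    refine Finset.sum_congr rfl fun t ht => ?_
    have ht' := Finset.mem_range.1 ht
    have e1 : E.pos (E.nd v t) = t := E.pos_nd v t ht'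
    have e2 : K (E.nd v t) w = K v w := (hrep w v _ (hEc _ _ (E.cls_nd v ht'))).symm
    have e3 : K (PL.nd (E.nd v t) t) w = K (PL.nd v t) w := by
      rw [hCE.com v t t ht' ht']
      exact (hrep w _ _ (hEc _ _ (E.cls_nd _ ht'))).symm
    rw [e1, e2, e3]
  refine (lsum hLE (Bd := 2 ^ (k * n2)) (by omega) P1
    (fun v w => if oLt (K (PL.nd v (E.pos v)) w) (K v w) = true then 1 else 0) hg ?_).mono le_rfl ?_
  · intro v w
    rw [hsum]
    unfold rkK
    exact (Finset.card_filter_le _ _).trans (by rw [Finset.card_range])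
  · intro P2 _ h2 v
    exact (h2 v).triv (fun w => (hsum v w).symm)

theorem plane_sort_aux {c : ℕ → ℕ}
    (hc : ∀ {V Ω R : Type} {m : ℕ} (M : Mach V Ω R) (S W Lam k n r0 N : ℕ) (B : Blk V m),
      4 ∣ k → Lines M Lam B k n r0 → 2 ^ m < W → S * W ^ 3 ≤ Lam → ∀ h : 0 + N * (k / 4) ≤ m,
        CanS M S (B.bits 0 (N * (k / 4)) h) (fun _ => True) (c N * r0))
    {M : Mach V Ω R} {Lam k q r0 n r S W : ℕ} {PL : Blk V n} {RB : Blk V r} (hC : Blk.Comm PL RB) (h4 : 4 ∣ k) (hq : 1 ≤ q)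
    (hk : 7 * (k * q) + 2 ≤ 2 ^ k) (hLP : Lines M Lam PL k (q + q) r0) (hLR : Lines M Lam RB k (5 * q) r0) (hW : 2 ^ (7 * (k * q)) < W)
    (hS : 1 ≤ S) (hl : S * W ^ 9 ≤ Lam) : CanR M S PL RB (Few PL) ((2 * c 8 + 286) * q * r0) := by
  classical
  intro X κ P a hs ha hd hD hrep
  have hk1 := hLP.hk
  have hk4 : 4 ≤ k := Nat.le_of_dvd (by omega) h4
  have hn := hLP.hm
  have hr := hLR.hm
  have hkq : k ≤ k * q := Nat.le_mul_of_pos_right k (by omega)
  have e0 : k * (q + q) = 2 * (k * q) := by ring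
  have e1 : k * (5 * q) = 5 * (k * q) := by ring
  have e2 : k * (4 * q) = 4 * (k * q) := by ring
  have e3 : 2 * q * k = 2 * (k * q) := by ring
  have hW2 : 2 ≤ W := by
    have : 1 ≤ 2 ^ (7 * (k * q)) := Nat.one_le_two_pow
    omega
  have hWW : ∀ i, W ≤ W * W ^ i := fun i => Nat.le_mul_of_pos_right W (by positivity)
  have hSW : ∀ i, i ≤ 9 → S * W ^ i ≤ Lam := fun i hi => (Nat.mul_le_mul_left S (Nat.pow_le_pow_right (by omega) hi)).trans hl
  have hWl : W ≤ Lam := by
    have h1 := hSW 1 (by omega)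
    rw [pow_one] at h1
    exact (Nat.le_mul_of_pos_left W hS).trans h1
  have hSl : S * W + 1 ≤ Lam := by
    have h1 := hSW 2 (by omega)
    have h2 : S * W ^ 2 = S * W * W := by ring
    have h3 : 1 ≤ S * W := Nat.mul_pos hS (by omega)
    have h4 : S * W * 2 ≤ S * W * W := Nat.mul_le_mul_left _ hW2
    omega
  have hS2 : S + 2 ≤ Lam := by
    have h1 := hSW 2 (by omega)
    have h2 : S * 4 ≤ S * W ^ 2 := Nat.mul_le_mul_left _ (by nlinarith)
    omega
  have hK : ∀ v, M.Knows P v (fun w => keyO κ (fun u => a u w) v) := fun v => (ha v).label.comp (Option.map κ)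
  have hsK : Sz (S + 1) (fun v w => keyO κ (fun u => a u w) v) := hs.sz.comp (Option.map κ)
  have hrepK : ∀ w v u, RB.cls v u → keyO κ (fun u => a u w) v = keyO κ (fun u => a u w) u := fun w v u h => hrep w v u h
  have hnn : n ≤ 7 * (k * q) := by omega
  have hWn : 2 ^ n < W := (Nat.pow_le_pow_right (by norm_num) hnn).trans_lt hW
  have hcost : (2 * c 8 + 286) * q * r0 = 2 * (q + q) * r0 + ((2 * q * (c 8 * r0) + 40 * (7 * q) * r0) + (q + q) * r0) := by ring
  rw [hcost]
  refine (ranks_known hC hLP hLR (by omega) hS2 hWn hWl P (fun v w => keyO κ (fun u => a u w) v) hsK hK hrepK).bind ?_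
  intro P1 hP1 hrk
  -- the block for wide_route
  have hle : 0 + (4 * (k * q) + k) ≤ r := by omega
  obtain ⟨RL, hRL⟩ : ∃ RL : Blk V (4 * (k * q) + k), RL = RB.bits 0 (4 * (k * q) + k) hle := ⟨_, rfl⟩
  have hRLc : ∀ v u, RL.cls v u → RB.cls v u := by
    intro v u h
    rw [hRL, bits_cls] at h
    exact h.1
  have hCL : Blk.Comm PL RL := by
    have h1 := comm_bits hC (i := 0) (j := n) (i' := 0) (j' := 4 * (k * q) + k) (by omega) hle
    rw [bits_all] at h1
    rw [hRL]
    exact h1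
  have hLL : Lines M Lam RL k (4 * q + 1) r0 := by
    have hle' : k * 0 + k * (4 * q + 1) ≤ r := by
      have : k * (4 * q + 1) = 4 * (k * q) + k := by ring
      omega
    have h1 := lines_bits hLR (i := 0) (j := 4 * q + 1) (by omega) hle'
    have h2 : ∀ (x y : ℕ) (hx : x = 0) (hy : y = 4 * (k * q) + k) (h' : x + y ≤ r), Lines M Lam (RB.bits x y h') k (4 * q + 1) r0 →
        Lines M Lam RL k (4 * q + 1) r0 := by
      intro x y hx hy h' h''
      subst hx hy
      rw [hRL]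
      exact h''
    exact h2 _ _ (mul_zero k) (by ring) hle' h1
  have hm : n + (4 * (k * q) + k) = 4 * (k * q) + k + 2 * q * k := by omega
  have hLB := lines_prod hCL hLP hLL
  have hmW : 2 ^ (n + (4 * (k * q) + k)) < W := (Nat.pow_le_pow_right (by norm_num) (by omega)).trans_lt hW
  have hPS : ∀ jj (hj : jj < 2 * q), CanS M (S * W * W ^ 4) (Pln (Blk.prod PL RL hCL) hm jj hj)
      (fun o => RevPat (Bal (Blk.prod PL RL hCL) hm) 0 o) (c 8 * r0) := by
    intro jj hj
    have h1 := lines_pln hm hLB (Q := k) (q := 1) (gl := 4 * q) (by omega) (by omega) jj hj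
    refine cs_full hc h4 h1 (W := W) ?_ ?_ ?_ _
    · exact (Nat.pow_le_pow_right (by norm_num) (by omega)).trans_lt hW
    · refine le_trans (le_of_eq ?_) (hSW 8 (by omega))
      ring
    · omega
  have hf : ∀ w v, 16 * actK PL (keyO κ (fun u => a u w)) v ≤ 2 ^ n := fun w v => few_act (hD w) v
  have hdK : ∀ w, DistK PL (keyO κ (fun u => a u w)) := fun w => distK_of (hd w)
  have hdl : ∀ w, DlOK (Blk.prod PL RL hCL) hm 0 (fun v => dlK PL (keyO κ (fun u => a u w)) v) := fun w =>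
    psr_dlOK hC hCL hRLc hm rfl hk4 (hrepK w) (hdK w) (hf w)
  -- the array with ranks
  obtain ⟨a1, ha1⟩ : ∃ a1 : V → Ω → Option (X × ℕ) × Option R, a1 = fun v w => aRk PL (keyO κ (fun u => a u w)) (fun u => a u w) v := ⟨_, rfl⟩
  have hrkn : ∀ v w, rkK PL (keyO κ (fun u => a u w)) v < W := by
    intro v w
    refine lt_of_le_of_lt ?_ hWn
    unfold rkK
    exact (Finset.card_filter_le _ _).trans (by rw [Finset.card_range])
  have hs1 : Sm (S * W) a1 := by
    refine Sm.pair hs (Sz.nat (n := W) (f := fun v w => rkK PL (keyO κ (fun u => a u w)) v) hrkn) ?_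
    intro v w x hx
    rw [ha1] at hx
    unfold aRk at hx
    obtain ⟨y, hy, hyx⟩ := Option.map_eq_some_iff.1 hx
    rw [← hyx]
    exact ⟨hy, rfl⟩
  have hH1 : ∀ v, M.Has P1 v (a1 v) := by
    intro v
    rw [ha1]
    refine Mach.Has.of (a := a v) ((ha v).mono hP1) ?_ (fun w r hr => hr)
    exact ((ha v).mono hP1).1.comp2 (hrk v) (fun x t => (x.1.map (fun y => (y, t)), x.2))
  have hδ : ∀ v, M.Knows P1 v (fun w => dlK PL (keyO κ (fun u => a u w)) v) := by
    intro v
    exact ((hK v).mono hP1).comp2 (hrk v) (fun x t => if x.isSome = true then some (16 * t) else none)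
  have hwr := wide_route (c1 := 0) (Q := k) (q := 1) (gl := 4 * q) hm hLB (by omega) (by omega) (by omega) (by omega)
    (by
      rw [pow_zero, one_mul]
      omega) hmW (Nat.mul_pos hS (by omega) : 1 ≤ S * W)
    (by
      refine le_trans (le_of_eq ?_) hl
      ring) hPS P1 a1 hs1 hH1 (fun v w => dlK PL (keyO κ (fun u => a u w)) v) hδ hdl
  have hcost2 : 2 * q * (c 8 * r0) + 40 * (q + q + (4 * q + 1)) * r0 ≤ 2 * q * (c 8 * r0) + 40 * (7 * q) * r0 := by
    refine Nat.add_le_add_left (Nat.mul_le_mul_right r0 ?_) _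
    omega
  refine (hwr.mono hcost2 (fun _ _ h => h)).bind ?_
  rintro P2 hP2 ⟨b1, hb1, hb1s⟩
  have hKs : ∀ w v, (keyO κ (fun u => a u w) v).isSome = (a v w).1.isSome := fun w v => keyO_isSome
  have hrtd : ∀ w, Rtd PL (keyO κ (fun u => a u w)) (fun u => a u w) (fun v => b1 v w) := by
    intro w v
    obtain ⟨g1, g2⟩ := hb1s w v
    have hZ : 2 * q * k = n := by omega
    constructor
    · intro p hp h
      have h1 := g1 p (by rw [hZ]; exact hp)
      rw [psr_uni_nd hCL hm rfl v hp, psr_uni_pos hCL hm rfl] at h1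
      have h2 := h1 h
      rw [ha1] at h2
      exact h2
    · intro h
      refine g2 (fun p hp => ?_)
      rw [hZ] at hp
      rw [psr_uni_nd hCL hm rfl v hp, psr_uni_pos hCL hm rfl]
      exact h p hp
  have hb1A : ∀ v w, (b1 v w).1 = none ∨ ∃ i w', b1 v w = a1 i w' := by
    intro v w
    rcases h1 : (b1 v w).1 with _ | y
    · exact Or.inl rfl
    · obtain ⟨u, _, _, _, h5, _⟩ := rtd_some (hKs w) (hrtd w) h1
      refine Or.inr ⟨u, w, ?_⟩
      rw [ha1]
      exact h5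
  have hmv := conc hLP hSl P2 b1 (hs1.of_range hb1A) hb1 (fun y : X × ℕ => y.2) ?_ ?_
  · refine hmv.mono le_rfl ?_
    rintro P3 _ ⟨b2, hb2, hb2s⟩
    refine ⟨fun v w => ((b2 v w).1.map Prod.fst, (b2 v w).2), fun v => (hb2 v).map (Option.map Prod.fst), fun w => ?_⟩
    exact sort_of_rank (hd w) (rank_of_rtd (hKs w) (hf w) (hrtd w) (hb2s w))
  · intro w v y hy
    obtain ⟨u, g1, g2, g3, g4, g5⟩ := rtd_some (hKs w) (hrtd w) hy
    have h1 := PL.pos_lt v
    show y.2 < 2 ^ n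
    omega
  · intro w v u y y' hvu hy hy' hlt
    obtain ⟨u1, g1, g2, g3, g4, g5⟩ := rtd_some (hKs w) (hrtd w) hy
    obtain ⟨u2, k1, k2, k3, k4, k5⟩ := rtd_some (hKs w) (hrtd w) hy'
    show y.2 < y'.2 ∧ y'.2 + PL.pos v ≤ y.2 + PL.pos u
    omega

/-- In a plane whose lines (low `Q` bits) have at most `2^(Q-4)` items, at most the sixteenth part is occupied. -/
theorem few_of_revPat {Q : ℕ} {PL : Blk V (Q + Q)} (hQ : 4 ≤ Q) (h : 0 + Q ≤ Q + Q) {o : V → Bool} (ho : RevPat (PL.bits 0 Q h) 4 o) :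
    Few PL o := by
  classical
  intro v
  have hcount : ∀ c, c < 2 ^ Q → ((Finset.range (2 ^ Q)).filter (fun t => o (PL.nd v (c * 2 ^ Q + t)) = true)).card ≤ 2 ^ (Q - 4) := by
    intro c hc
    have hb : c * 2 ^ Q < 2 ^ (Q + Q) := by
      rw [pow_add]
      exact Nat.mul_lt_mul_of_pos_right hc (by positivity)
    obtain ⟨N, hN, hN2⟩ := ho (PL.nd v (c * 2 ^ Q))
    have hnd : ∀ t, t < 2 ^ Q → (PL.bits 0 Q h).nd (PL.nd v (c * 2 ^ Q)) t = PL.nd v (c * 2 ^ Q + t) := by
      intro t ht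
      show PL.nd (PL.nd v (c * 2 ^ Q)) (Blk.rep 0 Q (PL.pos (PL.nd v (c * 2 ^ Q))) (t % 2 ^ Q)) = _
      have h1 : c * 2 ^ Q + t < 2 ^ (Q + Q) := by
        rw [pow_add]
        have : (c + 1) * 2 ^ Q ≤ 2 ^ Q * 2 ^ Q := Nat.mul_le_mul_right _ hc
        have h2 : (c + 1) * 2 ^ Q = c * 2 ^ Q + 2 ^ Q := by ring
        omega
      have h2 : Blk.rep 0 Q (c * 2 ^ Q) t = c * 2 ^ Q + t := by
        unfold Blk.rep
        rw [zero_add, pow_zero, mul_one, Nat.mod_one, add_zero, Nat.mul_div_cancel _ (by positivity)]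
      rw [PL.pos_nd v _ hb, Nat.mod_eq_of_lt ht, h2, PL.nd_nd v _ _ hb h1]
    have h3 : ((Finset.range (2 ^ Q)).filter (fun t => o (PL.nd v (c * 2 ^ Q + t)) = true)) ⊆ (Finset.range N).image (rev Q) := by
      intro t ht
      rw [Finset.mem_filter, Finset.mem_range] at ht
      obtain ⟨r, hr, hrt⟩ := (hN2 t ht.1).1 (by rw [hnd t ht.1]; exact ht.2)
      rw [Finset.mem_image]
      exact ⟨r, Finset.mem_range.2 hr, hrt.symm⟩
    exact (Finset.card_le_card h3).trans (Finset.card_image_le.trans (by rw [Finset.card_range]; exact hN))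
  have hsum : ((Finset.range (2 ^ (Q + Q))).filter (fun t => o (PL.nd v t) = true)).card =
      ∑ c ∈ Finset.range (2 ^ Q), ((Finset.range (2 ^ Q)).filter (fun t => o (PL.nd v (c * 2 ^ Q + t)) = true)).card := by
    have hblk : ∀ (g : ℕ → ℕ) (C N : ℕ), ∑ j ∈ Finset.range (C * N), g j = ∑ c ∈ Finset.range C, ∑ j ∈ Finset.range N, g (c * N + j) := by
      intro g C N
      induction C with
      | zero => simp
      | succ C ih => rw [Nat.succ_mul, Finset.sum_range_add, ih, Finset.sum_range_succ]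
    simp only [Finset.card_filter]
    rw [pow_add, hblk]
  rw [hsum]
  have h1 : ∑ c ∈ Finset.range (2 ^ Q), ((Finset.range (2 ^ Q)).filter (fun t => o (PL.nd v (c * 2 ^ Q + t)) = true)).card ≤
      2 ^ Q * 2 ^ (Q - 4) := by
    refine (Finset.sum_le_card_nsmul _ _ _ (fun c hc => hcount c (Finset.mem_range.1 hc))).trans ?_
    rw [Finset.card_range, smul_eq_mul]
  refine (Nat.mul_le_mul_left 16 h1).trans (le_of_eq ?_)
  obtain ⟨i, rfl⟩ := Nat.exists_eq_add_of_le hQ
  rw [Nat.add_sub_cancel_left, pow_add 2 (4 + i) (4 + i), pow_add 2 4 i]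
  ring

/-- **Sorting of a plane with replicas.** -/
theorem plane_sort : ∃ C : ℕ, ∀ {V Ω R : Type} {Q k q r0 Lam W S r : ℕ} {M : Mach V Ω R} {PL : Blk V (Q + Q)} {RB : Blk V r},
    Blk.Comm PL RB → 4 ∣ k → Q = k * q → 1 ≤ q → 7 * Q + 2 ≤ 2 ^ k → Lines M Lam PL k (q + q) r0 → Lines M Lam RB k (5 * q) r0 →
      2 ^ (7 * Q) < W → 1 ≤ S → S * W ^ 9 ≤ Lam → ∀ h : 0 + Q ≤ Q + Q,
        CanR M S PL RB (fun o => RevPat (PL.bits 0 Q h) 4 o) (C * q * r0) := by
  obtain ⟨c, hc⟩ := H69.HS.columnsort'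
  refine ⟨2 * c 8 + 286, ?_⟩
  intro V Ω R Q k q r0 Lam W S r M PL RB hC h4 hQ hq hk hLP hLR hW hS hl h
  have hk1 := hLP.hk
  have hk4 : 4 ≤ k := Nat.le_of_dvd (by omega) h4
  have hQ4 : 4 ≤ Q := by
    rw [hQ]
    calc 4 ≤ k * 1 := by omega
      _ ≤ k * q := Nat.mul_le_mul_left k hq
  have h1 := plane_sort_aux (c := c) hc hC h4 hq (by rw [← hQ]; exact hk) hLP hLR (by rw [← hQ]; exact hW) hS hl
  intro X κ P a g1 g2 g3 g4 g5
  exact h1 X κ P a g1 g2 g3 (fun w => few_of_revPat hQ4 h (g4 w)) g5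

end Pool.Agent.H31.HS
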