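import Mathlib
import Pool.Agent.H31.HS.WDef
import Pool.Agent.H31.HS.Iter

/-!
# SDef: splitting, definitions

`K x`: key of the item at the place `x < 2^m` of a class (`⊤`: empty).  `m = gs + z`: units `t < 2^z`, unit `t` = places `t * 2^gs, ..., (t+1) * 2^gs - 1`.  Runs: aligned intervals of length `2^(m-u)`.
`sF t`: key of the first place of the unit; the unit exists if it is not `⊤`.  `sR t`: rank of the unit (number of units with smaller `sF`); `sTot`: number of existing units.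
`sRn t`: rank of the next unit of the run, `sTot` if there is none.  Boundaries: `sBeta j` = smallest `sF t` with `sR t ≥ j c`.  The unit `t` is cut into the pieces `(t, j)`, `sLo t ≤ j ≤ sHi t`;
`sKap t`: their number, `sBase t`: number of pieces of smaller units; `sN`: number of all pieces.  Piece number `p < sN`: unit `sT p`, region `sJ p`; `sM p`: number of earlier pieces of the same region;
`sD s p = sJ p * 2^s + rev s (sM p)`: its target unit.
`sS s x x'`: the place `x` receives the item of the place `x'`.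
`SK`: hypotheses on `K` and the numbers.  `SPar`: numbers for the machine part.
`KK`: the keys of a class of an array.
-/

set_option autoImplicit false

namespace Pool.Agent.H31.HS

open Finset

section

variable (z gs u c s : ℕ) (K : ℕ → WithTop ℕ)

def sF (t : ℕ) : WithTop ℕ := K (t * 2 ^ gs)

def sR (t : ℕ) : ℕ := ((range (2 ^ z)).filter (fun t' => sF gs K t' < sF gs K t)).card

def sTot : ℕ := ((range (2 ^ z)).filter (fun t' => sF gs K t' ≠ ⊤)).card

def sRn (t : ℕ) : ℕ := if (t + 1) / 2 ^ (z - u) = t / 2 ^ (z - u) then sR z gs K (t + 1) else sTot z gs K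

def sLo (t : ℕ) : ℕ := sR z gs K t / c

def sHi (t : ℕ) : ℕ := (sRn z gs u K t - 1) / c

def sKap (t : ℕ) : ℕ := if sF gs K t = ⊤ then 0 else sHi z gs u c K t - sLo z gs c K t + 1

def sBase (t : ℕ) : ℕ := ∑ t' ∈ range t, sKap z gs u c K t'

def sN : ℕ := sBase z gs u c K (2 ^ z)

def sT (p : ℕ) : ℕ := ((range (2 ^ z)).filter (fun t => sBase z gs u c K (t + 1) ≤ p)).card

def sJ (p : ℕ) : ℕ := sLo z gs c K (sT z gs u c K p) + (p - sBase z gs u c K (sT z gs u c K p))

def sM (p : ℕ) : ℕ := ((range p).filter (fun p' => sJ z gs u c K p' = sJ z gs u c K p)).card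

def sD (p : ℕ) : Option ℕ :=
  if p < sN z gs u c K then some (sJ z gs u c K p * 2 ^ s + rev s (sM z gs u c K p)) else none

def sBeta (j : ℕ) : WithTop ℕ := ((range (2 ^ z)).filter (fun t => j * c ≤ sR z gs K t)).inf (sF gs K)

/-- The place `x` receives the item of the place `x'`. -/
def sS (x x' : ℕ) : Prop :=
  ∃ p, p < sN z gs u c K ∧ sD z gs u c s K p = some (x / 2 ^ gs) ∧ x' = sT z gs u c K p * 2 ^ gs + x % 2 ^ gs ∧
    sBeta z gs c K (x / 2 ^ (gs + s)) ≤ K x' ∧ K x' < sBeta z gs c K (x / 2 ^ (gs + s) + 1)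

end

/-- Hypotheses for the pure part. -/
structure SK (z gs u s c Q e : ℕ) (K : ℕ → WithTop ℕ) : Prop where
  inj : ∀ x x', x < 2 ^ (gs + z) → x' < 2 ^ (gs + z) → K x = K x' → K x ≠ ⊤ → x = x'
  run : ∀ x x', x < x' → x' < 2 ^ (gs + z) → x / 2 ^ (gs + z - u) = x' / 2 ^ (gs + z - u) → K x' ≠ ⊤ → K x < K x'
  dens : 2 ^ Q * ((range (2 ^ (gs + z))).filter (fun x => K x ≠ ⊤)).card ≤ e * 2 ^ (gs + z)
  hu : Q ≤ u
  hus : u + Q ≤ s
  hsz : s ≤ z
  huz : u + Q ≤ z
  hc : c = e * 2 ^ (s - Q) + 2 ^ (u + s - z)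
  he : e + 3 ≤ 2 ^ Q

/-- Numbers for the machine part. -/
structure SPar (m g Q Z k q gl u s e c c1 Lam W S : ℕ) : Prop where
  hm : m = g + Q + Z * Q
  hQ : Q = k * q
  hg : g = k * gl
  hZ : 1 ≤ Z
  hgz : 2 * (Z * Q) ≤ g
  hG : 2 ^ c1 * (m + 2) ≤ 2 ^ Q
  hW : 2 ^ m < W
  hS : 1 ≤ S
  hl : S * W ^ 10 ≤ Lam
  hu : Q ≤ u
  hus : u + Q ≤ s
  hsz : s ≤ Z * Q
  huz : u + Q ≤ Z * Q
  hc : c = e * 2 ^ (s - Q) + 2 ^ (u + s - Z * Q)
  he : 2 ^ (c1 + 4) * (e + 3) ≤ 2 ^ Q

section

variable {V Ω R X : Type} {m : ℕ}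

/-- The keys of the class of `v`. -/
def KK (B : Blk V m) (key : X × Option R → ℕ) (a : V → Option X × Option R) (v : V) (x : ℕ) : WithTop ℕ := kv key (a (B.nd v x))

/-- Same nonempty items in every class. -/
def SameItems (B : Blk V m) (a b : V → Option X × Option R) : Prop :=
  (∀ v, (b v).1.isSome → ∃ u, B.cls v u ∧ b v = a u) ∧ (∀ u, (a u).1.isSome → ∃ v, B.cls u v ∧ b v = a u)

/-- Keys increase along the occupied places. -/
def Incr (B : Blk V m) (key : X × Option R → ℕ) (a : V → Option X × Option R) : Prop :=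
  ∀ v u, B.cls v u → B.pos v < B.pos u → (a v).1.isSome → (a u).1.isSome → kv key (a v) < kv key (a u)

/-- `gs = g + Q` bits of a slot. -/
def Slot {g Q Z : ℕ} (B : Blk V m) (hm : m = g + Q + Z * Q) : Blk V (g + Q) := B.bits 0 (g + Q) (by omega)

/-- The `Z * Q` bits below the unit bits. -/
def Ext {g Q Z : ℕ} (B : Blk V m) (hm : m = g + Q + Z * Q) (hgz : 2 * (Z * Q) ≤ g) : Blk V (Z * Q) :=
  B.bits (g + Q - Z * Q) (Z * Q) (by omega)

end

end Pool.Agent.H31.HS
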