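import Mathlib
import Pool.Agent.H31.HS.SDef
import Pool.Agent.H31.HS.BitF1

/-!
# PkF: facts on packing and sorting specifications (pure)

`pack_same`: an active item of `b` at `v` is some `a u` (otherwise the second part of `PackSpec` gives `emp`); an active `a u` is at the place number `cnt u < 2^m`.
`same_coarse`: classes of `B.bits i l` are contained in classes of `B` (`bits_cls`).
-/

set_option autoImplicit false

namespace Pool.Agent.H31.HS

variable {V R X : Type} {m : ℕ}

private theorem cnt_lt_pow (B : Blk V m) (o : V → Bool) (u : V) : cnt B o u < 2 ^ m := by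
  have h1 : cnt B o u ≤ B.pos u := by
    unfold cnt
    exact (Finset.card_filter_le _ _).trans (by rw [Finset.card_range])
  exact lt_of_le_of_lt h1 (B.pos_lt u)

theorem pack_same {B : Blk V m} {a b : V → Option X × Option R} (h : PackSpec B a b) : SameItems B a b := by
  constructor
  · intro v hv
    by_contra hc
    have h2 : b v = emp := by
      refine (h v).2 (fun u hu hau he => hc ⟨u, hu, (h v).1 u hu hau he⟩)
    rw [h2] at hv
    simp [emp] at hv
  · intro u hu
    have ht : cnt B (fun z => (a z).1.isSome) u < 2 ^ m := cnt_lt_pow B _ u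
    refine ⟨B.nd u (cnt B (fun z => (a z).1.isSome) u), B.cls_nd u ht, ?_⟩
    refine (h _).1 u (B.cls_symm (B.cls_nd u ht)) hu ?_
    rw [B.pos_nd u _ ht]

theorem pack_emp {B : Blk V m} {a b : V → Option X × Option R} (h : PackSpec B a b) (v : V) (hv : (b v).1 = none) : b v = emp := by
  refine (h v).2 (fun u hu hau he => ?_)
  have h2 := (h v).1 u hu hau he
  rw [h2] at hv
  rw [hv] at hau
  simp at hau

theorem same_trans {B : Blk V m} {a b c : V → Option X × Option R} (h : SameItems B a b) (h' : SameItems B b c) : SameItems B a c := by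
  constructor
  · intro v hv
    obtain ⟨u, hu, he⟩ := h'.1 v hv
    rw [he] at hv
    obtain ⟨z, hz, he'⟩ := h.1 u hv
    exact ⟨z, B.cls_trans hu hz, he.trans he'⟩
  · intro u hu
    obtain ⟨v, hv, he⟩ := h.2 u hu
    rw [← he] at hu
    obtain ⟨z, hz, he'⟩ := h'.2 v hu
    exact ⟨z, B.cls_trans hv hz, he'.trans he⟩

theorem same_coarse {B : Blk V m} {i l : ℕ} (hi : i + l ≤ m) {a b : V → Option X × Option R} (h : SameItems (B.bits i l hi) a b) :
    SameItems B a b := by
  constructor
  · intro v hv
    obtain ⟨u, hu, he⟩ := h.1 v hv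
    exact ⟨u, ((bits_cls B hi v u).1 hu).1, he⟩
  · intro u hu
    obtain ⟨v, hv, he⟩ := h.2 u hu
    exact ⟨v, ((bits_cls B hi u v).1 hv).1, he⟩

end Pool.Agent.H31.HS
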