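import Mathlib
import Pool.Agent.H31.HS.SDef
import Pool.Agent.H31.HS.BitF1

/-!
# PkG: packing in aligned intervals (pure)

Classes of `B.bits 0 i h` are the aligned intervals of length `2^i` of the classes of `B` (`bits_cls`: same class, same `B.pos / 2^i`), with number `B.pos v % 2^i`.
`cnt_inj`: the active places of a class have the different values `0, ..., N-1` of `cnt` (`cnt` is strictly increasing along the active places; each value below `N` is attained).
`pack_run`: the place number `t` of a class of `B.bits 0 i` has the active item with `cnt = t`; if the place `t'` is occupied and `t < t'`, then there is an active place with `cnt = t` (`cnt_surj`), its number is smaller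
(`cnt` increasing), so its key is smaller (`Incr`).
`pack_dist`: the item of `b` at `v` is `a` of the active place with `cnt = number of v`: different places of `b` have different places of `a`, so different keys (different classes of `B.bits 0 i`: the places of `a` are
in different classes).
`pack_occ`: an aligned interval of length `2^j` (`i ≤ j`) is a union of `2^(j-i)` aligned intervals of length `2^i`; in each of them the numbers of active places of `a` and `b` are equal (bijection by `cnt`).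
-/

set_option autoImplicit false

namespace Pool.Agent.H31.HS

variable {V R X : Type} {m : ℕ}

private theorem pg_card (p : ℕ → Prop) [DecidablePred p] (t : ℕ) : ∀ N : ℕ,
    t < ((Finset.range N).filter p).card →
      ∃ x, x < N ∧ p x ∧ ((Finset.range x).filter p).card = t := by
  intro N
  induction N with
  | zero => intro h; simp at h
  | succ N ih =>
    intro h
    rw [Finset.range_add_one, Finset.filter_insert] at h
    split_ifs at h with hp
    · rw [Finset.card_insert_of_notMem (by simp)] at h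
      rcases Nat.lt_succ_iff_lt_or_eq.1 h with h1 | h1
      · obtain ⟨x, hx, h2⟩ := ih h1
        exact ⟨x, by omega, h2⟩
      · exact ⟨N, by omega, hp, h1.symm⟩
    · obtain ⟨x, hx, h2⟩ := ih h
      exact ⟨x, by omega, h2⟩

theorem cnt_lt {B : Blk V m} {o : V → Bool} {v u : V} (hc : B.cls v u) (h : B.pos v < B.pos u) (hv : o v = true) : cnt B o v < cnt B o u := by
  refine Finset.card_lt_card ⟨?_, ?_⟩
  · intro t ht
    rw [Finset.mem_filter, Finset.mem_range] at ht ⊢
    have h1 := B.pos_lt v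
    refine ⟨ht.1.trans h, ?_⟩
    rw [B.nd_of_cls hc (ht.1.trans h1)]
    exact ht.2
  · intro hsub
    have h1 : B.pos v ∈ (Finset.range (B.pos u)).filter (fun t => o (B.nd u t) = true) := by
      rw [Finset.mem_filter, Finset.mem_range]
      refine ⟨h, ?_⟩
      rw [B.nd_of_cls hc (B.pos_lt v), B.nd_pos]
      exact hv
    have h2 := hsub h1
    rw [Finset.mem_filter, Finset.mem_range] at h2
    exact lt_irrefl _ h2.1

theorem cnt_surj {B : Blk V m} {o : V → Bool} {u : V} {t : ℕ} (ht : t < cnt B o u) : ∃ v, B.cls u v ∧ o v = true ∧ B.pos v < B.pos u ∧ cnt B o v = t := by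
  obtain ⟨x, hx, hp, hc⟩ := pg_card (fun t => o (B.nd u t) = true) t (B.pos u) ht
  have hx2 : x < 2 ^ m := hx.trans (B.pos_lt u)
  have hpos : B.pos (B.nd u x) = x := B.pos_nd u x hx2
  refine ⟨B.nd u x, B.cls_nd u hx2, hp, by rw [hpos]; exact hx, ?_⟩
  unfold cnt
  rw [hpos, ← hc]
  congr 1
  refine Finset.filter_congr fun y hy => ?_
  rw [Finset.mem_range] at hy
  rw [B.nd_of_cls (B.cls_nd u hx2) (hy.trans hx2)]

private theorem pg_cls (B : Blk V m) {i : ℕ} (h : 0 + i ≤ m) (v u : V) :
    (B.bits 0 i h).cls v u ↔ B.cls v u ∧ B.pos v / 2 ^ i = B.pos u / 2 ^ i := by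
  rw [bits_cls, zero_add, pow_zero, Nat.mod_one, Nat.mod_one]
  simp

private theorem pg_pos (B : Blk V m) {i : ℕ} (h : 0 + i ≤ m) (v : V) :
    (B.bits 0 i h).pos v = B.pos v % 2 ^ i := by
  show B.pos v / 2 ^ 0 % 2 ^ i = _
  rw [pow_zero, Nat.div_one]

private theorem pg_ex {B : Blk V m} {a b : V → Option X × Option R} (hp : PackSpec B a b)
    {v : V} (hv : (b v).1.isSome) :
    ∃ u, B.cls v u ∧ (a u).1.isSome ∧ cnt B (fun z => (a z).1.isSome) u = B.pos v ∧
      b v = a u := by
  by_contra hcon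
  have h1 : b v = emp := (hp v).2 fun u hc hs hcnt =>
    hcon ⟨u, hc, hs, hcnt, (hp v).1 u hc hs hcnt⟩
  rw [h1] at hv
  simp [emp] at hv

private theorem pg_inj {B : Blk V m} {o : V → Bool} {v u : V} (hc : B.cls v u)
    (hv : o v = true) (hu : o u = true) (h : cnt B o v = cnt B o u) : v = u := by
  rcases lt_trichotomy (B.pos v) (B.pos u) with h1 | h1 | h1
  · exact absurd h (cnt_lt hc h1 hv).ne
  · exact B.eq_of_cls hc h1
  · exact absurd h (cnt_lt (B.cls_symm hc) h1 hu).ne'

private theorem pg_le (B : Blk V m) (o : V → Bool) (v : V) : cnt B o v ≤ B.pos v :=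
  (Finset.card_filter_le _ _).trans (Finset.card_range _).le

theorem pack_run {B : Blk V m} {i : ℕ} (h : 0 + i ≤ m) {key : X × Option R → ℕ} {a b : V → Option X × Option R}
    (hp : PackSpec (B.bits 0 i h) a b) (hi : Incr (B.bits 0 i h) key a) : RunSorted B key i b := by
  intro v u hc hq hlt hs
  have hcb : (B.bits 0 i h).cls v u := (pg_cls B h v u).2 ⟨hc, hq⟩
  obtain ⟨u', h1, h2, h3, h4⟩ := pg_ex hp hs
  have h5 : (B.bits 0 i h).pos v < (B.bits 0 i h).pos u := by
    rw [pg_pos, pg_pos]
    have e1 := Nat.div_add_mod (B.pos v) (2 ^ i)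
    have e2 := Nat.div_add_mod (B.pos u) (2 ^ i)
    rw [hq] at e1
    omega
  rw [← h3] at h5
  obtain ⟨v', g1, g2, g3, g4⟩ := cnt_surj h5
  have hvv : (B.bits 0 i h).cls v v' := Blk.cls_trans _ (Blk.cls_trans _ hcb h1) g1
  have e1 : b v = a v' := (hp v).1 v' hvv g2 g4
  rw [e1, h4]
  exact hi v' u' (Blk.cls_symm _ g1) g3 g2 h2

theorem pack_dist {B : Blk V m} {i : ℕ} (h : 0 + i ≤ m) {key : X × Option R → ℕ} {a b : V → Option X × Option R}
    (hp : PackSpec (B.bits 0 i h) a b) (hd : Dist B key a) : Dist B key b := by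
  intro v u hc hv hu he
  obtain ⟨v', g1, g2, g3, g4⟩ := pg_ex hp hv
  obtain ⟨u', h1, h2, h3, h4⟩ := pg_ex hp hu
  have c1 := ((pg_cls B h v v').1 g1).1
  have c2 := ((pg_cls B h u u').1 h1).1
  have hcc : B.cls v' u' := B.cls_trans (B.cls_trans (B.cls_symm c1) hc) c2
  rw [g4, h4] at he
  have heq : v' = u' := hd v' u' hcc g2 h2 he
  subst heq
  exact Blk.eq_of_cls _ (Blk.cls_trans _ g1 (Blk.cls_symm _ h1)) (g3.symm.trans h3)

private theorem pg_div {D P t c : ℕ} (hc : c < P) :
    (D * P + (t / P * P + c)) / P = D + t / P := by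
  have h1 : D * P + (t / P * P + c) = P * (D + t / P) + c := by ring
  rw [h1, Nat.mul_add_div (by omega), Nat.div_eq_of_lt hc, add_zero]

private theorem pg_mod {D P t c : ℕ} (hc : c < P) :
    (D * P + (t / P * P + c)) % P = c := by
  have h1 : D * P + (t / P * P + c) = P * (D + t / P) + c := by ring
  rw [h1, Nat.mul_add_mod, Nat.mod_eq_of_lt hc]

theorem pack_occ {B : Blk V m} {i j : ℕ} (h : 0 + i ≤ m) (hij : i ≤ j) (hj : j ≤ m) {a b : V → Option X × Option R}
    (hp : PackSpec (B.bits 0 i h) a b) (v : V) : occ B (fun u => (b u).1.isSome) v j = occ B (fun u => (a u).1.isSome) v j := by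
  obtain ⟨P, hP⟩ : ∃ P, P = 2 ^ i := ⟨_, rfl⟩
  have hP0 : 0 < P := by rw [hP]; positivity
  obtain ⟨E, hE⟩ : ∃ E, E = 2 ^ (j - i) := ⟨_, rfl⟩
  have hEP : (2 : ℕ) ^ j = E * P := by
    rw [hE, hP, ← pow_add]
    congr 1
    omega
  obtain ⟨D, hD⟩ : ∃ D, B.pos v / 2 ^ j * 2 ^ j = D * P :=
    ⟨B.pos v / 2 ^ j * E, by rw [hEP, mul_assoc]⟩
  have hlt : ∀ t, t < 2 ^ j → D * P + t < 2 ^ m := by
    intro t ht
    have h1 : B.pos v / 2 ^ j < 2 ^ (m - j) := by
      rw [Nat.div_lt_iff_lt_mul (by positivity), ← pow_add, Nat.sub_add_cancel hj]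
      exact B.pos_lt v
    have h2 : (B.pos v / 2 ^ j + 1) * 2 ^ j ≤ 2 ^ (m - j) * 2 ^ j := Nat.mul_le_mul_right _ h1
    rw [← pow_add, Nat.sub_add_cancel hj, add_mul, one_mul, hD] at h2
    omega
  obtain ⟨o, ho⟩ : ∃ o : V → Bool, o = fun z => (a z).1.isSome := ⟨_, rfl⟩
  have hcnt : ∀ w, cnt (B.bits 0 i h) o w < P := by
    intro w
    have h1 := pg_le (B.bits 0 i h) o w
    have h2 := (B.bits 0 i h).pos_lt w
    rw [← hP] at h2
    omega
  have hpos : ∀ t, t < 2 ^ j → B.pos (B.nd v (D * P + t)) = D * P + t := fun t ht =>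
    B.pos_nd v _ (hlt t ht)
  have hcls : ∀ t, t < 2 ^ j → B.cls v (B.nd v (D * P + t)) := fun t ht =>
    B.cls_nd v (hlt t ht)
  have hdt : ∀ t, (D * P + t) / P = D + t / P := by
    intro t
    rw [mul_comm, Nat.mul_add_div hP0]
  unfold occ
  rw [hD]
  symm
  refine Finset.card_bij
    (fun t _ => t / P * P + cnt (B.bits 0 i h) o (B.nd v (D * P + t))) ?_ ?_ ?_
  · intro t ht
    rw [Finset.mem_filter, Finset.mem_range] at ht
    obtain ⟨ht1, ht2⟩ := ht
    have hc := hcnt (B.nd v (D * P + t))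
    obtain ⟨c, hcc⟩ : ∃ c, c = cnt (B.bits 0 i h) o (B.nd v (D * P + t)) := ⟨_, rfl⟩
    rw [← hcc] at hc
    simp only [← hcc]
    rw [Finset.mem_filter, Finset.mem_range]
    have h1 : t / P * P + c < 2 ^ j := by
      rw [hEP] at ht1 ⊢
      have h2 : t / P < E := by
        rw [Nat.div_lt_iff_lt_mul hP0]
        exact ht1
      have h3 : (t / P + 1) * P ≤ E * P := Nat.mul_le_mul_right _ h2
      rw [add_mul, one_mul] at h3
      omega
    refine ⟨h1, ?_⟩
    have hb : b (B.nd v (D * P + (t / P * P + c))) = a (B.nd v (D * P + t)) := by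
      refine (hp _).1 _ ?_ ht2 ?_
      · rw [pg_cls]
        refine ⟨B.cls_trans (B.cls_symm (hcls _ h1)) (hcls t ht1), ?_⟩
        rw [hpos _ h1, hpos t ht1, ← hP, pg_div hc, hdt]
      · rw [pg_pos, hpos _ h1, ← hP, pg_mod hc, hcc, ho]
    simp only [hb]
    exact ht2
  · intro t ht t' ht' he
    rw [Finset.mem_filter, Finset.mem_range] at ht ht'
    obtain ⟨ht1, ht2⟩ := ht
    obtain ⟨ht1', ht2'⟩ := ht'
    have hc := hcnt (B.nd v (D * P + t))
    have hc' := hcnt (B.nd v (D * P + t'))
    have e1 := pg_div (D := D) (t := t) hc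
    have e2 := pg_mod (D := D) (t := t) hc
    have e1' := pg_div (D := D) (t := t') hc'
    have e2' := pg_mod (D := D) (t := t') hc'
    rw [he] at e1 e2
    have q1 : t / P = t' / P := by omega
    have q2 : cnt (B.bits 0 i h) o (B.nd v (D * P + t)) =
        cnt (B.bits 0 i h) o (B.nd v (D * P + t')) := by omega
    have hcl : (B.bits 0 i h).cls (B.nd v (D * P + t)) (B.nd v (D * P + t')) := by
      rw [pg_cls]
      refine ⟨B.cls_trans (B.cls_symm (hcls t ht1)) (hcls t' ht1'), ?_⟩
      rw [hpos t ht1, hpos t' ht1', ← hP, hdt, hdt, q1]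
    have hne := pg_inj hcl (by rw [ho]; exact ht2) (by rw [ho]; exact ht2') q2
    have h3 := congrArg B.pos hne
    rw [hpos t ht1, hpos t' ht1'] at h3
    omega
  · intro s hs
    rw [Finset.mem_filter, Finset.mem_range] at hs
    obtain ⟨hs1, hs2⟩ := hs
    obtain ⟨w, w1, w2, w3, -⟩ := pg_ex hp hs2
    rw [pg_cls, hpos s hs1, ← hP, hdt] at w1
    rw [pg_pos, hpos s hs1, ← hP] at w3
    obtain ⟨w4, w5⟩ := w1
    have f1 := Nat.div_add_mod (B.pos w) P
    rw [← w5] at f1
    have f2 : B.pos w % P < P := Nat.mod_lt _ hP0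
    have f3 : s / P < E := by
      rw [Nat.div_lt_iff_lt_mul hP0, ← hEP]
      exact hs1
    have f4 : (s / P + 1) * P ≤ E * P := Nat.mul_le_mul_right _ f3
    have f5 : P * (D + s / P) = D * P + s / P * P := by ring
    rw [add_mul, one_mul] at f4
    obtain ⟨t, ht⟩ : ∃ t, t = s / P * P + B.pos w % P := ⟨_, rfl⟩
    have ht1 : t < 2 ^ j := by
      rw [hEP]
      omega
    have ht2 : D * P + t = B.pos w := by omega
    have hw : B.nd v (D * P + t) = w := by
      rw [ht2]
      exact B.cls_trans (hcls s hs1) w4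
    have ht3 : t / P = s / P := by
      have := pg_div (D := 0) (t := s) f2
      rw [zero_mul, zero_add, zero_add] at this
      rw [ht, this]
    refine ⟨t, ?_, ?_⟩
    · rw [Finset.mem_filter, Finset.mem_range]
      refine ⟨ht1, ?_⟩
      simp only [hw]
      exact w2
    · simp only [hw]
      rw [ho, w3, ht3]
      have g1 : (D * P + s) % P = s % P := by
        rw [mul_comm, Nat.mul_add_mod]
      rw [g1, Nat.div_add_mod']

end Pool.Agent.H31.HS
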