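import Mathlib
import Pool.Agent.H31.HS.RPure
import Pool.Agent.H31.HS.WInitP
import Pool.Agent.H31.HS.WSrc

/-!
# RPerm: layer permutation and initial labels, with replicas

As `lay_perm` (WPerm.lean), `Φ v := src B hm v (π ..).1 (π ..).2` with `π` of the layer number of `v` applied to (unit number, balance number) of `v`.  If `RB` commutes with `B` then for `u = RB.nd v t`: the numbers
of `u` and `v` are equal (`hC.pS`, all parts are functions of `B.pos`), and `B.nd u x = RB.nd (B.nd v x) t`, so `Φ u = RB.nd (Φ v) t`.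
`ini_rb`: the label `((unit, balance number, e), c)` of `ini` without `c` depends on the numbers and on `δ`.
`ini_perm_rb`: `A1 v = ini (Φ.symm v)`: for `u = RB.nd v t`: `Φ.symm u = RB.nd (Φ.symm v) t`.
-/

set_option autoImplicit false

namespace Pool.Agent.H31.HS

variable {V X R : Type} {m g Q Z r : ℕ}

private theorem comm_nd {l : ℕ} {B : Blk V m} {RB : Blk V r} (hC : Blk.Comm B RB) {i : ℕ} (h : i + l ≤ m) {v : V} {t s : ℕ} (ht : t < 2 ^ r) (hs : s < 2 ^ l) :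
    (B.bits i l h).nd (RB.nd v t) s = RB.nd ((B.bits i l h).nd v s) t :=
  (comm_bits_rb hC h).com v s t hs ht

/-- (Unit number, balance number) of `v`. -/
private def plR (B : Blk V m) (hm : m = g + Q + Z * Q) (v : V) : Fin (2 ^ (Z * Q)) × Fin (2 ^ Q) :=
  (⟨(Uni B hm).pos v, (Uni B hm).pos_lt v⟩, ⟨(Bal B hm).pos v, (Bal B hm).pos_lt v⟩)

private def fwR (B : Blk V m) (hm : m = g + Q + Z * Q) (π : ℕ → Equiv.Perm (Fin (2 ^ (Z * Q)) × Fin (2 ^ Q))) (v : V) : V :=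
  src B hm v (π ((Lay B hm).pos v) (plR B hm v)).1.val (π ((Lay B hm).pos v) (plR B hm v)).2.val

private theorem fwR_cls (B : Blk V m) (hm : m = g + Q + Z * Q) (π : ℕ → Equiv.Perm (Fin (2 ^ (Z * Q)) × Fin (2 ^ Q))) (v : V) :
    (Lyr B hm).cls v (fwR B hm π v) :=
  src_cls B hm v (Fin.is_lt _) (Fin.is_lt _)

private theorem fwR_lay (B : Blk V m) (hm : m = g + Q + Z * Q) (π : ℕ → Equiv.Perm (Fin (2 ^ (Z * Q)) × Fin (2 ^ Q))) (v : V) :
    (Lay B hm).pos (fwR B hm π v) = (Lay B hm).pos v :=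
  (((lyr_cls B hm v _).1 (fwR_cls B hm π v)).2).symm

private theorem fwR_pl (B : Blk V m) (hm : m = g + Q + Z * Q) (π : ℕ → Equiv.Perm (Fin (2 ^ (Z * Q)) × Fin (2 ^ Q))) (v : V) :
    plR B hm (fwR B hm π v) = π ((Lay B hm).pos v) (plR B hm v) := by
  refine Prod.ext (Fin.ext ?_) (Fin.ext ?_)
  · exact src_uni B hm v (Fin.is_lt _) (Fin.is_lt _)
  · exact src_bal B hm v (Fin.is_lt _) (Fin.is_lt _)

private theorem fwR_fw (B : Blk V m) (hm : m = g + Q + Z * Q) (π π' : ℕ → Equiv.Perm (Fin (2 ^ (Z * Q)) × Fin (2 ^ Q)))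
    (h : ∀ l x, π' l (π l x) = x) (v : V) : fwR B hm π' (fwR B hm π v) = v := by
  have h1 : fwR B hm π' (fwR B hm π v) = src B hm (fwR B hm π v) (plR B hm v).1.val (plR B hm v).2.val := by
    conv_lhs => unfold fwR
    rw [show src B hm v (π ((Lay B hm).pos v) (plR B hm v)).1.val (π ((Lay B hm).pos v) (plR B hm v)).2.val = fwR B hm π v from rfl,
      fwR_lay, fwR_pl, h]
  rw [h1, src_of_cls B hm (fwR_cls B hm π v) (Fin.is_lt _) (Fin.is_lt _)]
  exact src_self B hm v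

private theorem src_rb {B : Blk V m} (hm : m = g + Q + Z * Q) {RB : Blk V r} (hC : Blk.Comm B RB) {v : V} {t : ℕ} (ht : t < 2 ^ r)
    {p b : ℕ} (hp : p < 2 ^ (Z * Q)) (hb : b < 2 ^ Q) : src B hm (RB.nd v t) p b = RB.nd (src B hm v p b) t := by
  have h1 : p * 2 ^ Q + b < 2 ^ (Z * Q + Q) := by
    have h2 : (p + 1) * 2 ^ Q ≤ 2 ^ (Z * Q) * 2 ^ Q := Nat.mul_le_mul_right _ hp
    rw [← pow_add] at h2
    have h3 : (p + 1) * 2 ^ Q = p * 2 ^ Q + 2 ^ Q := by ring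
    omega
  exact comm_nd hC (i := g) (l := Z * Q + Q) (by omega) ht h1

private theorem lay_rb {B : Blk V m} (hm : m = g + Q + Z * Q) {RB : Blk V r} (hC : Blk.Comm B RB) {v : V} {t : ℕ} (ht : t < 2 ^ r) :
    (Lay B hm).pos (RB.nd v t) = (Lay B hm).pos v :=
  (comm_bits_rb hC (i := 0) (l := g) (by omega)).pS v t ht

private theorem uni_rb {B : Blk V m} (hm : m = g + Q + Z * Q) {RB : Blk V r} (hC : Blk.Comm B RB) {v : V} {t : ℕ} (ht : t < 2 ^ r) :
    (Uni B hm).pos (RB.nd v t) = (Uni B hm).pos v :=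
  (comm_bits_rb hC (i := g + Q) (l := Z * Q) (by omega)).pS v t ht

private theorem bal_rb {B : Blk V m} (hm : m = g + Q + Z * Q) {RB : Blk V r} (hC : Blk.Comm B RB) {v : V} {t : ℕ} (ht : t < 2 ^ r) :
    (Bal B hm).pos (RB.nd v t) = (Bal B hm).pos v :=
  (comm_bits_rb hC (i := g) (l := Q) (by omega)).pS v t ht

private theorem plR_rb {B : Blk V m} (hm : m = g + Q + Z * Q) {RB : Blk V r} (hC : Blk.Comm B RB) {v : V} {t : ℕ} (ht : t < 2 ^ r) :
    plR B hm (RB.nd v t) = plR B hm v :=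
  Prod.ext (Fin.ext (uni_rb hm hC ht)) (Fin.ext (bal_rb hm hC ht))

theorem lay_permR (B : Blk V m) (hm : m = g + Q + Z * Q) {RB : Blk V r} (hC : Blk.Comm B RB)
    (π : ℕ → Equiv.Perm (Fin (2 ^ (Z * Q)) × Fin (2 ^ Q))) :
    ∃ Φ : Equiv.Perm V, (∀ v, (Lyr B hm).cls v (Φ v)) ∧
      (∀ v, (Uni B hm).pos (Φ v) = pun (π ((Lay B hm).pos v)) ((Uni B hm).pos v) ((Bal B hm).pos v)) ∧
      ∀ v t, t < 2 ^ r → Φ (RB.nd v t) = RB.nd (Φ v) t := by
  refine ⟨⟨fwR B hm π, fwR B hm (fun l => (π l).symm), fwR_fw B hm _ _ (fun l x => (π l).symm_apply_apply x),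
    fwR_fw B hm _ _ (fun l x => (π l).apply_symm_apply x)⟩, fun v => fwR_cls B hm π v, fun v => ?_, fun v t ht => ?_⟩
  · have h1 : (Uni B hm).pos (fwR B hm π v) = (π ((Lay B hm).pos v) (plR B hm v)).1.val := congrArg (fun x => x.1.val) (fwR_pl B hm π v)
    refine h1.trans ?_
    unfold pun
    rw [dif_pos ⟨(Uni B hm).pos_lt v, (Bal B hm).pos_lt v⟩]
    rfl
  · show fwR B hm π (RB.nd v t) = RB.nd (fwR B hm π v) t
    unfold fwR
    rw [lay_rb hm hC ht, plR_rb hm hC ht]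
    exact src_rb hm hC ht (Fin.is_lt _) (Fin.is_lt _)

theorem ini_perm_rb (B : Blk V m) (hm : m = g + Q + Z * Q) {RB : Blk V r} (hC : Blk.Comm B RB) {δ : V → Option ℕ}
    {a0 : V → Option X × Option R} (hδ : ∀ v u, RB.cls v u → δ v = δ u) {Φ : Equiv.Perm V}
    (hΦ : ∀ v t, t < 2 ^ r → Φ (RB.nd v t) = RB.nd (Φ v) t) :
    RBC RB (fun x : Lb X => x.1) (fun v => ini B hm δ a0 (Φ.symm v)) := by
  intro v u hvu
  obtain ⟨t, ht, rfl⟩ := RB.cls_iff.1 hvu
  have h1 : Φ.symm (RB.nd v t) = RB.nd (Φ.symm v) t := by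
    rw [Equiv.symm_apply_eq, hΦ _ _ ht, Equiv.apply_symm_apply]
  have h2 : δ (RB.nd (Φ.symm v) t) = δ (Φ.symm v) := (hδ _ _ (RB.cls_nd _ ht)).symm
  show (ini B hm δ a0 (Φ.symm v)).1.map _ = (ini B hm δ a0 (Φ.symm (RB.nd v t))).1.map _
  rw [h1]
  unfold ini
  rw [h2, uni_rb hm hC ht, bal_rb hm hC ht]
  rcases δ (Φ.symm v) with _ | e
  · rfl
  · rfl

end Pool.Agent.H31.HS
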