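import Mathlib
import Pool.Agent.H31.HS.RStage
import Pool.Agent.H31.HS.RPerm
import Pool.Agent.H31.HS.WStg

/-!
# RStg: all stages of wide routing, with replicas

The proof is that of WInit.lean (`w_init`) and WStg.lean (`w_stages`); copy it (their private lemmas too) with the following changes.  `lay_permR` instead of `lay_perm`; the state carries in addition
`∀ w, RBC RB (fun x : Lb X => x.1) (fun v => A v w)`: initially `ini_perm_rb`, `rb_line` (the block `Bal B hm` commutes with `RB`: `comm_bits_rb`); in a stage: the sorted array by `hPS` (`CanR`) with `κ = kapW Q Z jj`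
(`RBC RB κ` from `RBC RB Prod.fst`, as `kapW`, `ttW` depend only on `x.1`), then `stageD`, then `rb_stage` (`comm_pln`).  `Dist` for `kapW`: from `kap_dist`, as in the proof of `stage`.
-/

set_option autoImplicit false

namespace Pool.Agent.H31.HS

variable {V Ω R : Type} {m g Q Z k n q gl r0 r Lam W S S2 c1 : ℕ}

private theorem r_lab_sm {I X : Type} {S W : ℕ} {a : I → Ω → Option X × Option R} (hs : Sm S a)
    {b : I → Ω → Option (Lb X) × Option R} (hb : ∀ i w x, (b i w).1 = some x →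
      x.1.1 < W ∧ x.1.2.1 < W ∧ x.1.2.2 < W ∧ ∃ i' w', x.2 = (a i' w').1) : Sm (W * (W * W) * (S + 1)) b := by
  obtain ⟨T, h1, h2⟩ := hs.sz
  refine ⟨(Finset.range W ×ˢ (Finset.range W ×ˢ Finset.range W)) ×ˢ T, ?_, fun i w x hx => ?_⟩
  · rw [Finset.card_product, Finset.card_product, Finset.card_product, Finset.card_range]
    exact Nat.mul_le_mul le_rfl h1
  · obtain ⟨h3, h4, h5, i', w', h6⟩ := hb i w x hx
    refine Finset.mem_product.2 ⟨Finset.mem_product.2 ⟨Finset.mem_range.2 h3,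
      Finset.mem_product.2 ⟨Finset.mem_range.2 h4, Finset.mem_range.2 h5⟩⟩, ?_⟩
    rw [h6]
    exact h2 i' w'

private theorem r_w_two (hW : 2 ^ m < W) : 2 ≤ W := by
  have h1 : 1 ≤ 2 ^ m := Nat.one_le_two_pow
  omega

private theorem r_lab_le (hW : 2 ≤ W) (hS : 1 ≤ S) : W * (W * W) * (S + 1) ≤ S * W ^ 4 := by
  calc W * (W * W) * (S + 1) ≤ W * (W * W) * (W * S) := by
        refine Nat.mul_le_mul le_rfl ?_
        calc S + 1 ≤ 2 * S := by omega
          _ ≤ W * S := Nat.mul_le_mul hW le_rfl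
    _ = S * W ^ 4 := by ring

private theorem r_uni_ltW (B : Blk V m) (hm : m = g + Q + Z * Q) (hW : 2 ^ m < W) {x : ℕ} (h : x < 2 ^ (Z * Q)) : x < W := by
  have h1 : 2 ^ (Z * Q) ≤ 2 ^ m := Nat.pow_le_pow_right (by norm_num) (by omega)
  omega

private theorem r_bal_ltW (B : Blk V m) (hm : m = g + Q + Z * Q) (hW : 2 ^ m < W) {x : ℕ} (h : x < 2 ^ Q) : x < W := by
  have h1 : 2 ^ Q ≤ 2 ^ m := Nat.pow_le_pow_right (by norm_num) (by omega)
  omega

private theorem r_ini_has {M : Mach V Ω R} {B : Blk V m} (hm : m = g + Q + Z * Q)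
    {X : Type} {P : M.Pl} {a : V → Ω → Option X × Option R} (ha : ∀ v, M.Has P v (a v)) {δ : V → Ω → Option ℕ}
    (hδ : ∀ v, M.Knows P v (δ v)) (v : V) :
    M.Has P v (fun w => ini B hm (fun v => δ v w) (fun v => a v w) v) := by
  constructor
  · intro w w' hs
    have h1 := (ha v).1 w w' hs
    have h2 := hδ v w w' hs
    simp only [ini, h1, h2]
  · intro w r hr
    rcases h1 : δ v w with _ | e
    · simp only [ini, h1, emp] at hr
      exact absurd hr (by simp)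
    · simp only [ini, h1] at hr
      exact (ha v).2 w r hr

private theorem r_ini_lab {B : Blk V m} (hm : m = g + Q + Z * Q) (hW : 2 ^ m < W)
    {X : Type} {a : V → Ω → Option X × Option R} {δ : V → Ω → Option ℕ} (hd : ∀ w, DlOK B hm c1 (fun v => δ v w))
    (v : V) (w : Ω) (x : Lb X) (hx : (ini B hm (fun v => δ v w) (fun v => a v w) v).1 = some x) :
    x.1.1 < W ∧ x.1.2.1 < W ∧ x.1.2.2 < W ∧ ∃ i' w', x.2 = (a i' w').1 := by
  rcases h1 : δ v w with _ | e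
  · simp only [ini, h1, emp] at hx
    exact absurd hx (by simp)
  · simp only [ini, h1, Option.some.injEq] at hx
    subst hx
    exact ⟨r_uni_ltW B hm hW ((Uni B hm).pos_lt v), r_bal_ltW B hm hW ((Bal B hm).pos_lt v),
      r_uni_ltW B hm hW ((hd w).lt v e h1), v, w, rfl⟩

private theorem w_initR {M : Mach V Ω R} {B : Blk V m} (hm : m = g + Q + Z * Q) (hL : Lines M Lam B k n r0) (hQ : Q = k * q) (hg : g = k * gl)
    (hZ : 1 ≤ Z) (hW : 2 ^ m < W) (hS : 1 ≤ S) (hl : S * W ^ 6 ≤ Lam) (π : ℕ → Equiv.Perm (Fin (2 ^ (Z * Q)) × Fin (2 ^ Q)))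
    {RB : Blk V r} (hC : Blk.Comm B RB) {X : Type} (P : M.Pl) (a : V → Ω → Option X × Option R) (hs : Sm S a) (ha : ∀ v, M.Has P v (a v)) (δ : V → Ω → Option ℕ)
    (hδ : ∀ v, M.Knows P v (δ v)) (hd : ∀ w, DlOK B hm c1 (fun v => δ v w))
    (hδR : ∀ w v u, RB.cls v u → δ v w = δ u w) :
    M.Do ((2 * (Z * q) + 6 * q) * r0) P (fun P' => ∃ A : V → Ω → Option (Lb X) × Option R, (∀ v, M.Has P' v (A v)) ∧
      ∀ w, Inv B hm c1 π (fun v => δ v w) (fun v => a v w) 0 (fun v => A v w) ∧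
        RevPat (Bal B hm) c1 (fun v => (A v w).1.isSome) ∧ RBC RB (fun x : Lb X => x.1) (fun v => A v w)) := by
  have hW2 := r_w_two hW
  obtain ⟨Φ, hΦ1, hΦ2, hΦ3⟩ := lay_permR B hm hC π
  have hsm : Sm (S * W ^ 4) (fun v w => ini B hm (fun v => δ v w) (fun v => a v w) v) :=
    (r_lab_sm hs (r_ini_lab hm hW hd)).mono (r_lab_le hW2 hS)
  have hsz : Sz Lam (fun v w => (ini B hm (fun v => δ v w) (fun v => a v w) v).1) := by
    refine hsm.sz.mono (le_trans ?_ hl)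
    have h1 : 1 ≤ S * W ^ 4 := Nat.mul_pos hS (by positivity)
    calc S * W ^ 4 + 1 ≤ S * W ^ 4 * (2 * 2) := by omega
      _ ≤ S * W ^ 4 * (W * W) := Nat.mul_le_mul le_rfl (Nat.mul_le_mul hW2 hW2)
      _ = S * W ^ 6 := by ring
  have hc : (2 * (Z * q) + 6 * q) * r0 = 2 * (Z * q + q) * r0 + 4 * q * r0 := by ring
  rw [hc]
  refine (stat (lines_lyr hm hL hQ hg) Φ hΦ1 P (fun v w => ini B hm (fun v => δ v w) (fun v => a v w) v) hsz
    (r_ini_has hm ha hδ)).bind fun P1 _ hP1 => ?_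
  have hA1 : ∀ v, M.Has P1 v (fun w => ini B hm (fun v => δ v w) (fun v => a v w) (Φ.symm v)) := by
    intro v
    have h5 := hP1 (Φ.symm v)
    rw [Equiv.apply_symm_apply] at h5
    exact h5
  have hsm1 : Sm (S * W ^ 4) (fun v w => ini B hm (fun v => δ v w) (fun v => a v w) (Φ.symm v)) :=
    hsm.of_range fun v w => Or.inr ⟨Φ.symm v, w, rfl⟩
  have hWQ : 2 ^ Q < W := by
    have h1 : 2 ^ Q ≤ 2 ^ m := Nat.pow_le_pow_right (by norm_num) (by omega)
    omega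
  refine (line_pack (lines_bal hm hL hQ hg) hWQ (Nat.mul_pos hS (by positivity)) (le_trans (le_of_eq (by ring)) hl)
    (2 ^ (Q - c1)) P1 (fun v w => ini B hm (fun v => δ v w) (fun v => a v w) (Φ.symm v)) hsm1 hA1).mono le_rfl ?_
  rintro P2 _ ⟨A, hA, hA'⟩
  refine ⟨A, hA, fun w => ?_⟩
  have hrb : RBC RB (fun x : Lb X => x.1) (fun v => A v w) :=
    rb_line (comm_bits_rb hC (i := g) (l := Q) (by omega)) (hA' w) (ini_perm_rb B hm hC (hδR w) hΦ3)
  refine (fun hh : Inv B hm c1 π (fun v => δ v w) (fun v => a v w) 0 (fun v => A v w) ∧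
      RevPat (Bal B hm) c1 (fun v => (A v w).1.isSome) => ⟨hh.1, hh.2, hrb⟩) ?_
  exact init_inv B hm hZ (hd w) hΦ1 hΦ2 (A1 := fun v => ini B hm (fun v => δ v w) (fun v => a v w) (Φ.symm v))
    (fun v => by
      show ini B hm (fun v => δ v w) (fun v => a v w) (Φ.symm (Φ v)) = _
      rw [Equiv.symm_apply_apply]) (hA' w)

/-- the keys increase with the groups -/
private theorem wgr_mon {X : Type} {jj : ℕ} {x y : Lb X} (hxb : x.1.2.1 < 2 ^ Q) (hxp : x.1.1 < 2 ^ (Z * Q))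
    (h : ttW Q jj x < ttW Q jj y) : kapW Q Z jj x < kapW Q Z jj y := by
  unfold kapW
  have h1 : (ttW Q jj x + 1) * 2 ^ Q ≤ ttW Q jj y * 2 ^ Q := Nat.mul_le_mul_right _ h
  have h2 : ttW Q jj x * 2 ^ Q + x.1.2.1 + 1 ≤ ttW Q jj y * 2 ^ Q + y.1.2.1 := by
    have h3 : (ttW Q jj x + 1) * 2 ^ Q = ttW Q jj x * 2 ^ Q + 2 ^ Q := by ring
    omega
  have h4 : (ttW Q jj x * 2 ^ Q + x.1.2.1 + 1) * 2 ^ (Z * Q) ≤ (ttW Q jj y * 2 ^ Q + y.1.2.1) * 2 ^ (Z * Q) :=
    Nat.mul_le_mul_right _ h2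
  have h5 : (ttW Q jj x * 2 ^ Q + x.1.2.1 + 1) * 2 ^ (Z * Q) =
    (ttW Q jj x * 2 ^ Q + x.1.2.1) * 2 ^ (Z * Q) + 2 ^ (Z * Q) := by ring
  omega

/-- one stage -/
private theorem wgr_stage {M : Mach V Ω R} {B : Blk V m} (hm : m = g + Q + Z * Q) (hL : Lines M Lam B k n r0) (hQ : Q = k * q)
    (hg : g = k * gl) (hW : 2 ^ m < W) (hS : 1 ≤ S) (hl : S * W ^ 8 ≤ Lam)
    (π : ℕ → Equiv.Perm (Fin (2 ^ (Z * Q)) × Fin (2 ^ Q))) {j jj : ℕ} (hj : jj + 1 + j = Z) (hjj : jj < Z)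
    {RB : Blk V r} (hC : Blk.Comm B RB)
    (hPS : CanR M (S * W ^ 4) (Pln B hm jj hjj) RB (fun o => RevPat (Bal B hm) c1 o) S2)
    {X : Type} (P : M.Pl) (a : V → Ω → Option X × Option R) (hs : Sm S a) (δ : V → Ω → Option ℕ)
    (hd : ∀ w, DlOK B hm c1 (fun v => δ v w)) (A : V → Ω → Option (Lb X) × Option R) (hA : ∀ v, M.Has P v (A v))
    (hI : ∀ w, Inv B hm c1 π (fun v => δ v w) (fun v => a v w) j (fun v => A v w) ∧
      RevPat (Bal B hm) c1 (fun v => (A v w).1.isSome) ∧ RBC RB (fun x : Lb X => x.1) (fun v => A v w)) :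
    M.Do (S2 + 16 * q * r0) P (fun P' => ∃ A' : V → Ω → Option (Lb X) × Option R, (∀ v, M.Has P' v (A' v)) ∧
      ∀ w, Inv B hm c1 π (fun v => δ v w) (fun v => a v w) (j + 1) (fun v => A' v w) ∧
        StageSpec (Pln B hm jj hjj) (ttW Q jj) (kapW Q Z jj) (if 0 < jj then 2 ^ (Q - c1) else 2 ^ Q) (decide (0 < jj))
          (fun v => A v w) (fun v => A' v w) ∧ RBC RB (fun x : Lb X => x.1) (fun v => A' v w)) := by
  have hW0 : 1 ≤ W := by
    have : 0 < 2 ^ m := by positivity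
    omega
  have hQm : Q + Q ≤ m := by
    have h1 : 1 * Q ≤ Z * Q := Nat.mul_le_mul_right _ (by omega)
    omega
  have hW' : 2 ^ (Q + Q) < W := lt_of_le_of_lt (Nat.pow_le_pow_right (by norm_num) hQm) hW
  have hS' : 1 ≤ S * W ^ 4 := Nat.one_le_iff_ne_zero.2 (by positivity)
  have hl' : S * W ^ 4 * W ^ 3 ≤ Lam := by
    refine le_trans ?_ hl
    have h1 : W ^ 7 ≤ W ^ 8 := Nat.pow_le_pow_right hW0 (by norm_num)
    calc S * W ^ 4 * W ^ 3 = S * W ^ 7 := by ring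
      _ ≤ S * W ^ 8 := Nat.mul_le_mul_left _ h1
  have hcap : (if 0 < jj then 2 ^ (Q - c1) else 2 ^ Q) ≤ 2 ^ Q := by
    split_ifs
    · exact Nat.pow_le_pow_right (by norm_num) (by omega)
    · exact le_rfl
  have hsA : Sm (S * W ^ 4) A := inv_sm hm hW hS hs hd fun w => (hI w).1
  have hkd : ∀ w v u x y, (Pln B hm jj hjj).cls v u → (A v w).1 = some x → (A u w).1 = some y →
      kapW Q Z jj x = kapW Q Z jj y → v = u := by
    intro w v u x y hc hx hy hk
    exact kap_dist hm hjj (hI w).1 v u x y ((pln_cls B hm jj hjj v u).1 hc).1 hx hy hk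
  have hsort := hPS (Lb X) (kapW Q Z jj) P A hsA hA (by
    intro w v u hvu hv hu he
    obtain ⟨x, hx⟩ := Option.isSome_iff_exists.1 hv
    obtain ⟨y, hy⟩ := Option.isSome_iff_exists.1 hu
    refine hkd w v u x y hvu hx hy ?_
    unfold kv at he
    simp only [hx, hy] at he
    exact_mod_cast he) (fun w => (hI w).2.1) (by
    intro w v u hvu
    have h1 := (hI w).2.2 v u hvu
    have h2 : ∀ o : Option (Lb X), o.map (kapW Q Z jj) = (o.map (fun x => x.1)).map (fun l => kapW Q Z jj (l, (none : Option X))) := by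
      intro o
      rcases o with _ | x
      · rfl
      · rfl
    show (A v w).1.map _ = (A u w).1.map _
    rw [h2, h2 (A u w).1]
    exact congrArg _ h1)
  refine (stageD (lines_pln hm hL hQ hg jj hjj) hQ hW' hS' hl' (if 0 < jj then 2 ^ (Q - c1) else 2 ^ Q) hcap
    (decide (0 < jj)) (ttW Q jj) (kapW Q Z jj) P A hsA hsort ?_ ?_ hkd).mono le_rfl ?_
  · intro w v u x y _ hx hy ht
    obtain ⟨⟨p, b, e⟩, c⟩ := x
    obtain ⟨h1, h2, -, -⟩ := (hI w).1.i1 v p b e c hx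
    exact wgr_mon h2 h1 ht
  · intro w v x _
    exact Nat.mod_lt _ (by positivity)
  · rintro P' - ⟨A', h1, h2⟩
    refine ⟨A', h1, fun w => ⟨inv_step B hm hj hjj (hd w) (hI w).1 rfl rfl (h2 w), h2 w, ?_⟩⟩
    refine rb_stage (comm_pln B hm hC jj hjj) ?_ ?_ (h2 w) (hI w).2.2
    · intro x y h
      unfold ttW
      rw [h]
    · intro x y h
      unfold kapW ttW
      rw [h]

theorem w_stagesR {M : Mach V Ω R} {B : Blk V m} (hm : m = g + Q + Z * Q) (hL : Lines M Lam B k n r0) (hQ : Q = k * q) (hg : g = k * gl)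
    (hZ : 1 ≤ Z) (hW : 2 ^ m < W) (hS : 1 ≤ S) (hl : S * W ^ 8 ≤ Lam) (π : ℕ → Equiv.Perm (Fin (2 ^ (Z * Q)) × Fin (2 ^ Q)))
    {RB : Blk V r} (hC : Blk.Comm B RB)
    (hPS : ∀ jj (hj : jj < Z), CanR M (S * W ^ 4) (Pln B hm jj hj) RB (fun o => RevPat (Bal B hm) c1 o) S2)
    {X : Type} (P : M.Pl) (a : V → Ω → Option X × Option R) (hs : Sm S a) (ha : ∀ v, M.Has P v (a v)) (δ : V → Ω → Option ℕ)
    (hδ : ∀ v, M.Knows P v (δ v)) (hd : ∀ w, DlOK B hm c1 (fun v => δ v w)) (hδR : ∀ w v u, RB.cls v u → δ v w = δ u w) :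
    M.Do (Z * S2 + 24 * (Z * q) * r0) P (fun P' => ∃ A : V → Ω → Option (Lb X) × Option R, (∀ v, M.Has P' v (A v)) ∧
      ∀ w, Inv B hm c1 π (fun v => δ v w) (fun v => a v w) Z (fun v => A v w) ∧
        ∀ v u y, (Bal B hm).cls v u → (Bal B hm).pos v < (Bal B hm).pos u → (A u w).1 = some y →
          ∃ x, (A v w).1 = some x ∧ (x.1.1 = y.1.1 → x.1.2.1 < y.1.2.1)) := by
  obtain ⟨Φ, hΦ⟩ : ∃ Φ : ℕ → M.Pl → Prop, Φ = fun j P' => ∃ A : V → Ω → Option (Lb X) × Option R,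
      (∀ v, M.Has P' v (A v)) ∧ ∀ w, Inv B hm c1 π (fun v => δ v w) (fun v => a v w) j (fun v => A v w) ∧
        RevPat (Bal B hm) c1 (fun v => (A v w).1.isSome) ∧ RBC RB (fun x : Lb X => x.1) (fun v => A v w) := ⟨_, rfl⟩
  have hW0 : 1 ≤ W := by
    have : 0 < 2 ^ m := by positivity
    omega
  have hl6 : S * W ^ 6 ≤ Lam := (Nat.mul_le_mul_left _ (Nat.pow_le_pow_right hW0 (by norm_num))).trans hl
  have h0 := w_initR (q := q) (gl := gl) hm hL hQ hg hZ hW hS hl6 π hC P a hs ha δ hδ hd hδR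
  have hdist : ∀ (jj : ℕ) (hjj : jj < Z) (j : ℕ) (w : Ω) (A : V → Ω → Option (Lb X) × Option R),
      Inv B hm c1 π (fun v => δ v w) (fun v => a v w) j (fun v => A v w) →
      ∀ v u x y, (Pln B hm jj hjj).cls v u → (A v w).1 = some x → (A u w).1 = some y →
        kapW Q Z jj x = kapW Q Z jj y → v = u := by
    intro jj hjj j w A hA v u x y hc hx hy hk
    exact kap_dist hm hjj hA v u x y ((pln_cls B hm jj hjj v u).1 hc).1 hx hy hk
  have h1 : M.Do ((2 * (Z * q) + 6 * q) * r0 + (Z - 1) * (S2 + 16 * q * r0)) P (Φ (Z - 1)) := by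
    refine h0.bind fun P1 _ hP1 => ?_
    refine Mach.Do.iter (Φ := Φ) ?_ ?_
    · rw [hΦ]
      exact hP1
    · intro j hj P2 _ hP2
      rw [hΦ] at hP2
      obtain ⟨A, hA, hI⟩ := hP2
      have hjj : Z - 1 - j < Z := by omega
      refine (wgr_stage hm hL hQ hg hW hS hl π (j := j) (jj := Z - 1 - j) (by omega) hjj hC (hPS _ hjj) P2 a hs δ hd A hA
        hI).mono le_rfl ?_
      rintro P3 - ⟨A', h2, h3⟩
      rw [hΦ]
      refine ⟨A', h2, fun w => ⟨(h3 w).1, ?_, (h3 w).2.2⟩⟩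
      have h4 := (h3 w).2.1
      have hpos : 0 < Z - 1 - j := by omega
      rw [if_pos hpos, decide_eq_true hpos] at h4
      have h5 := stage_pat (hdist _ hjj j w A (hI w).1) h4 (by omega)
      rw [pln_low] at h5
      exact h5
  have h2 : M.Do ((2 * (Z * q) + 6 * q) * r0 + (Z - 1) * (S2 + 16 * q * r0) + (S2 + 16 * q * r0)) P
      (fun P' => ∃ A : V → Ω → Option (Lb X) × Option R, (∀ v, M.Has P' v (A v)) ∧
      ∀ w, Inv B hm c1 π (fun v => δ v w) (fun v => a v w) Z (fun v => A v w) ∧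
        ∀ v u y, (Bal B hm).cls v u → (Bal B hm).pos v < (Bal B hm).pos u → (A u w).1 = some y →
          ∃ x, (A v w).1 = some x ∧ (x.1.1 = y.1.1 → x.1.2.1 < y.1.2.1)) := by
    refine h1.bind fun P1 _ hP1 => ?_
    rw [hΦ] at hP1
    obtain ⟨A, hA, hI⟩ := hP1
    have hjj : 0 < Z := by omega
    refine (wgr_stage hm hL hQ hg hW hS hl π (j := Z - 1) (jj := 0) (by omega) hjj hC (hPS _ hjj) P1 a hs δ hd A hA
      hI).mono le_rfl ?_
    rintro P3 - ⟨A', h2, h3⟩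
    have e1 : Z - 1 + 1 = Z := by omega
    refine ⟨A', h2, fun w => ⟨?_, ?_⟩⟩
    · have h4 := (h3 w).1
      rw [e1] at h4
      exact h4
    · intro v u y hc hlt hy
      have h4 := (h3 w).2.1
      rw [if_neg (lt_irrefl 0), decide_eq_false (lt_irrefl 0)] at h4
      have hlow := pln_low B hm 0 hjj (by omega)
      obtain ⟨x, hx1, hx2, hx3⟩ := stage_line (hdist 0 hjj (Z - 1) w A (hI w).1) h4 (by omega) v u
        (by rw [hlow]; exact hc) (by rw [hlow]; exact hlt) y hy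
      exact ⟨x, hx1, fun h5 => lt_of_kapW hx2 h5 hx3⟩
  refine h2.mono ?_ fun P' _ h => h
  obtain ⟨z, hz⟩ : ∃ z, Z = z + 1 := ⟨Z - 1, by omega⟩
  rw [hz]
  have e2 : z + 1 - 1 = z := by omega
  rw [e2]
  have h3 : q * r0 ≤ (z + 1) * q * r0 := by
    have h4 : 1 * (q * r0) ≤ (z + 1) * (q * r0) := Nat.mul_le_mul_right _ (by omega)
    calc q * r0 = 1 * (q * r0) := by ring
      _ ≤ (z + 1) * (q * r0) := h4
      _ = (z + 1) * q * r0 := by ring
  calc (2 * ((z + 1) * q) + 6 * q) * r0 + z * (S2 + 16 * q * r0) + (S2 + 16 * q * r0)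
      = (z + 1) * S2 + 18 * ((z + 1) * q * r0) + 6 * (q * r0) := by ring
    _ ≤ (z + 1) * S2 + 18 * ((z + 1) * q * r0) + 6 * ((z + 1) * q * r0) := by omega
    _ = (z + 1) * S2 + 24 * ((z + 1) * q) * r0 := by ring

end Pool.Agent.H31.HS
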