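import Mathlib
import Pool.Agent.H31.HS.RStg
import Pool.Agent.H31.HS.WRep
import Pool.Agent.H31.HS.WEnd

/-!
# RWR: the theorem on wide routing, with replicas

The proof is that of WR.lean with `w_stagesR` instead of `w_stages`.
-/

set_option autoImplicit false

namespace Pool.Agent.H31.HS

variable {V Ω R : Type} {m g Q Z k n q gl r0 r Lam W S S2 c1 : ℕ}

private theorem wr_nIt {X : Type} (B : Blk V m) (hm : m = g + Q + Z * Q) (A : V → Option (Lb X) × Option R) (v : V) :
    ∑ t ∈ Finset.range (2 ^ (Z * Q + Q)), (if (A ((Lyr B hm).nd v t)).1.isSome = true then 1 else 0) = nIt B hm A v := by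
  unfold nIt
  rw [Finset.card_filter]

private theorem wr_nDom (B : Blk V m) (hm : m = g + Q + Z * Q) (δ : V → Option ℕ) (v : V) :
    ∑ t ∈ Finset.range (2 ^ (Z * Q)), (if (δ ((Uni B hm).nd v t)).isSome = true then 1 else 0) = nDom B hm δ v := by
  unfold nDom
  rw [Finset.card_filter]

private theorem wr_sum_le (N : ℕ) (p : ℕ → Prop) [DecidablePred p] :
    ∑ t ∈ Finset.range N, (if p t then 1 else 0) ≤ N := by
  rw [← Finset.card_filter]
  exact (Finset.card_filter_le _ _).trans (Finset.card_range N).le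

private theorem wr_dl (B : Blk V m) (hm : m = g + Q + Z * Q) {δ : V → Option ℕ}
    (h : ∀ v u, B.cls v u → (Uni B hm).pos v = (Uni B hm).pos u → δ v = δ u) {v u : V} (hc : B.cls v u) :
    dl B hm δ v = dl B hm δ u := by
  funext p
  have h1 : ∀ z, dl B hm δ z p = dl B hm δ z (p % 2 ^ (Z * Q)) := by
    intro z
    unfold dl
    rw [(Uni B hm).nd_mod]
  rw [h1 v, h1 u]
  exact dl_cls B hm h hc (Nat.mod_lt _ (by positivity))

private theorem wr_nIt_cls {X : Type} (B : Blk V m) (hm : m = g + Q + Z * Q) (A : V → Option (Lb X) × Option R) {v u : V}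
    (h : (Lyr B hm).cls v u) : nIt B hm A v = nIt B hm A u := by
  unfold nIt
  congr 1
  refine Finset.filter_congr fun t ht => ?_
  rw [(Lyr B hm).nd_of_cls h (Finset.mem_range.1 ht)]

private theorem wr_nDom_cls (B : Blk V m) (hm : m = g + Q + Z * Q) {δ : V → Option ℕ}
    (h : ∀ v u, B.cls v u → (Uni B hm).pos v = (Uni B hm).pos u → δ v = δ u) {v u : V} (hc : B.cls v u) :
    nDom B hm δ v = nDom B hm δ u := by
  have h1 := wr_dl B hm h hc
  unfold nDom
  congr 1
  refine Finset.filter_congr fun t _ => ?_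
  have h2 := congrFun h1 t
  unfold dl at h2
  rw [h2]

theorem wide_routeR {M : Mach V Ω R} {B : Blk V m} (hm : m = g + Q + Z * Q) (hL : Lines M Lam B k n r0) (hQ : Q = k * q)
    (hg : g = k * gl) (hZ : 1 ≤ Z) (hgz : 2 * (Z * Q) ≤ g) (hG : 2 ^ c1 * (m + 2) ≤ 2 ^ Q) (hW : 2 ^ m < W) (hS : 1 ≤ S)
    (hl : S * W ^ 8 ≤ Lam) {RB : Blk V r} (hC : Blk.Comm B RB)
    (hPS : ∀ jj (hj : jj < Z), CanR M (S * W ^ 4) (Pln B hm jj hj) RB (fun o => RevPat (Bal B hm) c1 o) S2)
    {X : Type} (P : M.Pl) (a : V → Ω → Option X × Option R) (hs : Sm S a) (ha : ∀ v, M.Has P v (a v)) (δ : V → Ω → Option ℕ)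
    (hδ : ∀ v, M.Knows P v (δ v)) (hd : ∀ w, DlOK B hm c1 (fun v => δ v w)) (hδR : ∀ w v u, RB.cls v u → δ v w = δ u w) :
    M.Do (Z * S2 + 40 * n * r0) P (fun P' => ∃ b : V → Ω → Option X × Option R, (∀ v, M.Has P' v (b v)) ∧
      ∀ w v, WRSpec B hm (fun u => δ u w) (fun u => a u w) (fun u => b u w) v) := by
  classical
  obtain ⟨π, hπ⟩ := H69.HS.e1 Z Q c1 g m (by omega) hG
  have hW1 : 1 ≤ W := by
    have : 1 ≤ 2 ^ m := Nat.one_le_two_pow
    omega
  have hWL : W ≤ Lam := by
    calc W = 1 * W ^ 1 := by rw [one_mul, pow_one]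
      _ ≤ S * W ^ 8 := Nat.mul_le_mul hS (Nat.pow_le_pow_right hW1 (by norm_num))
      _ ≤ Lam := hl
  have hB1 : 2 ^ (Z * Q + Q) + 1 ≤ Lam := by
    have h1 : 2 ^ (Z * Q + Q) ≤ 2 ^ m := Nat.pow_le_pow_right (by norm_num) (by omega)
    omega
  have hB2 : 2 ^ (Z * Q) + 1 ≤ Lam := by
    have h1 : 2 ^ (Z * Q) ≤ 2 ^ m := Nat.pow_le_pow_right (by norm_num) (by omega)
    omega
  have hl6 : S * W ^ 6 ≤ Lam := (Nat.mul_le_mul_left S (Nat.pow_le_pow_right hW1 (by norm_num))).trans hl
  have hn : n = gl + q + Z * q := by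
    have h1 := hL.hm
    have h2 := hL.hk
    have h3 : k * n = k * (gl + q + Z * q) := by
      rw [← h1, hm, hg, hQ]
      ring
    exact Nat.eq_of_mul_eq_mul_left (by omega) h3
  have h1 := w_stagesR hm hL hQ hg hZ hW hS hl π hC hPS P a hs ha δ hδ hd hδR
  have h2 : M.Do ((Z * S2 + 24 * (Z * q) * r0) + ((Z * q + q) * r0 + (Z * q * r0 + (3 * gl + 3 * (Z * q)) * r0))) P
      (fun P' => ∃ b : V → Ω → Option X × Option R, (∀ v, M.Has P' v (b v)) ∧
      ∀ w v, WRSpec B hm (fun u => δ u w) (fun u => a u w) (fun u => b u w) v) := by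
    refine h1.bind fun P1 he1 hP1 => ?_
    obtain ⟨A, hA, hAw⟩ := hP1
    have hl1 := lsum (lines_lyr hm hL hQ hg) hB1 P1
      (fun v w => if (A v w).1.isSome = true then 1 else 0)
      (fun v => ((hA v).label).comp (fun x : Option (Lb X) => if x.isSome = true then 1 else 0))
      (fun v w => wr_sum_le _ _)
    refine hl1.bind fun P2 he2 hP2 => ?_
    have hδ2 : ∀ v, M.Knows P2 v (δ v) := fun v => (hδ v).mono (M.ext_trans _ _ _ he1 he2)
    have hl2 := lsum (lines_uni hm hL hQ hg) hB2 P2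
      (fun v w => if (δ v w).isSome = true then 1 else 0)
      (fun v => (hδ2 v).comp (fun x : Option ℕ => if x.isSome = true then 1 else 0))
      (fun v w => wr_sum_le _ _)
    refine hl2.bind fun P3 he3 hP3 => ?_
    have he02 : M.ext P P2 := M.ext_trans _ _ _ he1 he2
    have he03 : M.ext P P3 := M.ext_trans _ _ _ he02 he3
    have hK1 : ∀ v, M.Knows P3 v (fun w => nIt B hm (fun u => A u w) v) := fun v =>
      ((hP2 v).mono he3).triv fun w => (wr_nIt B hm (fun u => A u w) v).symm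
    have hK2 : ∀ v, M.Knows P3 v (fun w => nDom B hm (fun u => δ u w) v) := fun v =>
      (hP3 v).triv fun w => (wr_nDom B hm (fun u => δ u w) v).symm
    obtain ⟨inc, hinc⟩ : ∃ inc : V → Ω → Bool, inc = fun v w =>
        decide (nIt B hm (fun u => A u w) v ≠ 2 ^ Q * nDom B hm (fun u => δ u w) v) := ⟨_, rfl⟩
    have hi : ∀ v, M.Knows P3 v (inc v) := fun v => by
      rw [hinc]
      exact (hK1 v).comp2 (hK2 v) (fun x y => decide (x ≠ 2 ^ Q * y))
    have hi1 : ∀ w v u, (Lyr B hm).cls v u → inc v w = inc u w := by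
      intro w v u h
      rw [hinc]
      simp only
      rw [wr_nIt_cls B hm (fun u => A u w) h, wr_nDom_cls B hm (hd w).unit ((lyr_cls B hm v u).1 h).1]
    have hi2 : ∀ w v, ((Finset.range (2 ^ g)).filter (fun t => inc ((Lay B hm).nd v t) w = true)).card < 2 ^ (Z * Q) := by
      intro w v
      refine hπ (dl B hm (fun u => δ u w) v) (fun p _ t ht => (hd w).lt _ t ht) ((hd w).dens v) _ fun l hl' => ?_
      rw [Finset.mem_filter, Finset.mem_range] at hl'
      refine ⟨hl'.1, ?_⟩
      by_contra hbad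
      have hcl : B.cls v ((Lay B hm).nd v l) :=
        ((lay_cls B hm v _).1 ((Lay B hm).cls_nd v hl'.1)).1
      have h3 := end_good B hm (hd w) (hAw w).1 ((Lay B hm).nd v l) (by
        rw [(Lay B hm).pos_nd v l hl'.1, ← wr_dl B hm (hd w).unit hcl]
        exact hbad)
      have h4 := hl'.2
      rw [hinc] at h4
      simp only [decide_eq_true_eq] at h4
      exact h4 h3
    have hrep := w_repair hm hL hQ hg hW hS hl6 hgz P3 a hs (fun v => (ha v).mono he03) δ
      (fun v => (hδ v).mono he03) hd inc hi hi1 hi2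
    refine hrep.mono le_rfl fun P4 he4 hP4 => ?_
    obtain ⟨b1, hb1, hb1w⟩ := hP4
    have hA4 : ∀ v, M.Has P4 v (A v) := fun v =>
      (hA v).mono (M.ext_trans _ _ _ (M.ext_trans _ _ _ he2 he3) he4)
    have hcont : ∀ v, M.Has P4 v (fun w => cont (A v w)) := by
      intro v
      refine (hA4 v).of ((hA4 v).1.comp cont) fun w r hr => ?_
      rcases hx : A v w with ⟨x, y⟩
      rw [hx] at hr
      unfold cont at hr
      cases x with
      | none => simp [emp] at hr
      | some z => exact hr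
    refine ⟨fun v w => if inc v w then b1 v w else cont (A v w), fun v =>
      (hb1 v).ite (hcont v) ((hi v).mono he4), fun w v => ?_⟩
    by_cases hv : inc v w = true
    · have h3 := hb1w w v hv
      unfold WRSpec at h3 ⊢
      simp only [hv, if_true]
      exact h3
    · have hv2 : nIt B hm (fun u => A u w) v = 2 ^ Q * nDom B hm (fun u => δ u w) v := by
        by_contra hcon
        apply hv
        rw [hinc]
        simp only [decide_eq_true_eq]
        exact hcon
      have h3 := end_content B hm (hd w) (hAw w).1 (hAw w).2 v hv2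
      unfold WRSpec at h3 ⊢
      simp only [hv]
      exact h3
  refine h2.mono ?_ fun P' _ h => h
  rw [hn]
  have h3 : (Z * S2 + 24 * (Z * q) * r0) + ((Z * q + q) * r0 + (Z * q * r0 + (3 * gl + 3 * (Z * q)) * r0)) =
      Z * S2 + (29 * (Z * q) + q + 3 * gl) * r0 := by ring
  rw [h3]
  exact Nat.add_le_add_left (Nat.mul_le_mul_right _ (by omega)) _

end Pool.Agent.H31.HS
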