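import Mathlib
import Pool.Agent.H31.HS.SDef

/-!
# SP1: number of existing units

`sTot ≤ e 2^(z-Q) + 2^u`.  A unit `t` is full if all its `2^gs` places are occupied; the full units together have at most `N` places, `N` = number of occupied places,
`2^Q N ≤ e 2^(gs+z)`, so there are at most `e 2^(z-Q)` of them (`Q ≤ u ≤ z`).  Existing units which are not full: at most one in every run (`t / 2^(z-u)`, there are `2^u` runs): if `t < t'` are in the
same run and `t'` exists, then every place of `t` is before the first place of `t'` in the same run, so it is occupied (`run`: `K x < K (t' 2^gs)`), so `t` is full.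
`rank` facts: `sR t` counts smaller `sF`; `sF` is injective on existing units (`inj`).  `s_rank_surj`: the ranks of the existing units are `sTot` different numbers below `sTot`.
-/

set_option autoImplicit false

namespace Pool.Agent.H31.HS

variable {z gs u s c Q e : ℕ} {K : ℕ → WithTop ℕ}

theorem sp1_fin (T : Finset ℕ) (P : ℕ → Prop) [DecidablePred P] (hT : ∀ t ∈ T, t < 2 ^ z ∧ ∀ i < 2 ^ gs, P (t * 2 ^ gs + i)) :
    T.card * 2 ^ gs ≤ ((Finset.range (2 ^ (gs + z))).filter P).card := by
  have h1 : (T ×ˢ Finset.range (2 ^ gs)).card ≤ ((Finset.range (2 ^ (gs + z))).filter P).card := by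
    apply Finset.card_le_card_of_injOn (fun p => p.1 * 2 ^ gs + p.2)
    · intro p hp
      rw [Finset.mem_coe, Finset.mem_product, Finset.mem_range] at hp
      obtain ⟨h2, h3⟩ := hT p.1 hp.1
      rw [Finset.mem_coe, Finset.mem_filter, Finset.mem_range]
      refine ⟨?_, h3 _ hp.2⟩
      have h4 : (p.1 + 1) * 2 ^ gs ≤ 2 ^ z * 2 ^ gs := Nat.mul_le_mul_right _ h2
      rw [pow_add, mul_comm (2 ^ gs)]
      have h5 : (p.1 + 1) * 2 ^ gs = p.1 * 2 ^ gs + 2 ^ gs := by ring
      have h6 := hp.2
      show p.1 * 2 ^ gs + p.2 < 2 ^ z * 2 ^ gs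
      omega
    · intro p hp p' hp' hpp
      rw [Finset.mem_coe, Finset.mem_product, Finset.mem_range] at hp hp'
      have h0 : 0 < 2 ^ gs := by positivity
      simp only at hpp
      have e1 : p.1 = p'.1 := by
        have : (p.1 * 2 ^ gs + p.2) / 2 ^ gs = (p'.1 * 2 ^ gs + p'.2) / 2 ^ gs := by rw [hpp]
        rwa [mul_comm, Nat.mul_add_div h0, Nat.div_eq_of_lt hp.2, mul_comm p'.1, Nat.mul_add_div h0,
          Nat.div_eq_of_lt hp'.2, add_zero, add_zero] at this
      have e2 : p.2 = p'.2 := by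
        rw [e1] at hpp
        omega
      exact Prod.ext e1 e2
  rwa [Finset.card_product, Finset.card_range] at h1

theorem s_tot_le (h : SK z gs u s c Q e K) : sTot z gs K ≤ e * 2 ^ (z - Q) + 2 ^ u := by
  classical
  unfold sTot
  set E := (Finset.range (2 ^ z)).filter (fun t' => sF gs K t' ≠ ⊤) with hE
  have huz := h.huz
  have hQz : Q ≤ z := by omega
  have hu : u ≤ z := by omega
  have h0 : 0 < 2 ^ gs := by positivity
  rw [← Finset.card_filter_add_card_filter_not (s := E) (fun t => ∀ i < 2 ^ gs, K (t * 2 ^ gs + i) ≠ ⊤)]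
  apply Nat.add_le_add
  · have h1 := sp1_fin (z := z) (gs := gs) (E.filter (fun t => ∀ i < 2 ^ gs, K (t * 2 ^ gs + i) ≠ ⊤)) (fun x => K x ≠ ⊤) (by
      intro t ht
      rw [Finset.mem_filter, hE, Finset.mem_filter, Finset.mem_range] at ht
      exact ⟨ht.1.1, ht.2⟩)
    have h2 := h.dens
    have h3 : 2 ^ Q * 2 ^ gs * (E.filter (fun t => ∀ i < 2 ^ gs, K (t * 2 ^ gs + i) ≠ ⊤)).card ≤ 2 ^ Q * 2 ^ gs * (e * 2 ^ (z - Q)) := by
      calc _ = 2 ^ Q * ((E.filter (fun t => ∀ i < 2 ^ gs, K (t * 2 ^ gs + i) ≠ ⊤)).card * 2 ^ gs) := by ring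
        _ ≤ 2 ^ Q * ((Finset.range (2 ^ (gs + z))).filter (fun x => K x ≠ ⊤)).card := Nat.mul_le_mul_left _ h1
        _ ≤ e * 2 ^ (gs + z) := by convert h2
        _ = _ := by
          have : 2 ^ (gs + z) = 2 ^ gs * (2 ^ Q * 2 ^ (z - Q)) := by
            rw [← pow_add, ← pow_add]
            congr 1
            omega
          rw [this]
          ring
    exact Nat.le_of_mul_le_mul_left h3 (by positivity)
  · have h1 : (E.filter (fun t => ¬ ∀ i < 2 ^ gs, K (t * 2 ^ gs + i) ≠ ⊤)).card ≤ (Finset.range (2 ^ u)).card := by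
      apply Finset.card_le_card_of_injOn (fun t => t / 2 ^ (z - u))
      · intro t ht
        rw [Finset.mem_coe, Finset.mem_filter, hE, Finset.mem_filter, Finset.mem_range] at ht
        rw [Finset.mem_coe, Finset.mem_range]
        apply Nat.div_lt_of_lt_mul
        rw [← pow_add]
        have : z - u + u = z := by omega
        rw [this]
        exact ht.1.1
      · have key : ∀ t t' : ℕ, t' < 2 ^ z → sF gs K t' ≠ ⊤ → t < t' → t / 2 ^ (z - u) = t' / 2 ^ (z - u) →
            ∀ i < 2 ^ gs, K (t * 2 ^ gs + i) ≠ ⊤ := by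
          intro t t' ht' hF hlt hdiv i hi
          have e1 : (t + 1) * 2 ^ gs ≤ t' * 2 ^ gs := Nat.mul_le_mul_right _ hlt
          have e2 : (t + 1) * 2 ^ gs = t * 2 ^ gs + 2 ^ gs := by ring
          have e3 : t' * 2 ^ gs < 2 ^ (gs + z) := by
            rw [pow_add, mul_comm (2 ^ gs)]
            exact Nat.mul_lt_mul_of_pos_right ht' h0
          have e4 : gs + z - u = gs + (z - u) := by omega
          have e5 : (t * 2 ^ gs + i) / 2 ^ (gs + z - u) = t / 2 ^ (z - u) := by
            rw [e4, pow_add, ← Nat.div_div_eq_div_mul, mul_comm t, Nat.mul_add_div h0, Nat.div_eq_of_lt hi, add_zero]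
          have e6 : (t' * 2 ^ gs) / 2 ^ (gs + z - u) = t' / 2 ^ (z - u) := by
            rw [e4, pow_add, ← Nat.div_div_eq_div_mul, Nat.mul_div_cancel _ h0]
          have e7 := h.run (t * 2 ^ gs + i) (t' * 2 ^ gs) (by omega) e3 (by rw [e5, e6, hdiv]) hF
          exact (lt_of_lt_of_le e7 le_top).ne
        intro t ht t' ht' htt
        rw [Finset.mem_coe, Finset.mem_filter, hE, Finset.mem_filter, Finset.mem_range] at ht ht'
        simp only at htt
        rcases lt_trichotomy t t' with hlt | heq | hlt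
        · exact absurd (key t t' ht'.1.1 ht'.1.2 hlt htt) ht.2
        · exact heq
        · exact absurd (key t' t ht.1.1 ht.1.2 hlt htt.symm) ht'.2
    rwa [Finset.card_range] at h1

end Pool.Agent.H31.HS
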