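import Mathlib
import Pool.Agent.H31.HS.SDef

/-!
# SP2: ranks of the units

`sR t` = number of units with smaller `sF`.  `sF` is injective on existing units (`inj` at the places `t * 2^gs < 2^(gs+z)`).  `s_rank_lt`: the units counted in `sR t` exist and `t` itself is not counted.
`s_rank_lt_iff`: `sF t < sF t'`: the set of `t` is contained in that of `t'`, strictly (it lacks `t`); conversely by totality.  `s_rank_surj`: the rank is an injective map from the `sTot` existing units to
`range sTot`, so it is surjective.  `s_rank_top`: `t' ` is counted iff it exists.  `s_rank_next`: in one run `sF` is increasing (`run`) as long as the unit exists.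
-/

set_option autoImplicit false

namespace Pool.Agent.H31.HS

variable {z gs u s c Q e : ℕ} {K : ℕ → WithTop ℕ}

theorem s_rank_lt (t : ℕ) (ht : t < 2 ^ z) (h1 : sF gs K t ≠ ⊤) : sR z gs K t < sTot z gs K := by
  rw [sR, sTot]
  refine Finset.card_lt_card ((Finset.ssubset_iff_of_subset ?_).2 ⟨t, ?_, ?_⟩)
  · intro t' ht'
    rw [Finset.mem_filter] at ht' ⊢
    exact ⟨ht'.1, ne_top_of_lt ht'.2⟩
  · rw [Finset.mem_filter, Finset.mem_range]
    exact ⟨ht, h1⟩
  · rw [Finset.mem_filter]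
    exact fun h => lt_irrefl _ h.2

theorem s_rank_le (t : ℕ) : sR z gs K t ≤ sTot z gs K := by
  rw [sR, sTot]
  refine Finset.card_le_card fun t' ht' => ?_
  rw [Finset.mem_filter] at ht' ⊢
  exact ⟨ht'.1, ne_top_of_lt ht'.2⟩

theorem s_rank_lt_iff (t t' : ℕ) (ht : t < 2 ^ z) (ht' : t' < 2 ^ z) :
    sR z gs K t < sR z gs K t' ↔ sF gs K t < sF gs K t' := by
  constructor
  · intro h
    by_contra hcon
    rw [not_lt] at hcon
    refine absurd h (not_lt.2 ?_)
    rw [sR, sR]
    refine Finset.card_le_card fun t'' ht'' => ?_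
    rw [Finset.mem_filter] at ht'' ⊢
    exact ⟨ht''.1, lt_of_lt_of_le ht''.2 hcon⟩
  · intro h
    rw [sR, sR]
    refine Finset.card_lt_card ((Finset.ssubset_iff_of_subset ?_).2 ⟨t, ?_, ?_⟩)
    · intro t'' ht''
      rw [Finset.mem_filter] at ht'' ⊢
      exact ⟨ht''.1, ht''.2.trans h⟩
    · rw [Finset.mem_filter, Finset.mem_range]
      exact ⟨ht, h⟩
    · rw [Finset.mem_filter]
      exact fun h => lt_irrefl _ h.2

theorem sp2_place (t : ℕ) (ht : t < 2 ^ z) : t * 2 ^ gs < 2 ^ (gs + z) := by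
  rw [pow_add, mul_comm]
  exact Nat.mul_lt_mul_of_pos_left ht (by positivity)

theorem sp2_inj (h : SK z gs u s c Q e K) (t t' : ℕ) (ht : t < 2 ^ z) (ht' : t' < 2 ^ z) (h1 : sF gs K t ≠ ⊤)
    (h2 : sR z gs K t = sR z gs K t') : t = t' := by
  have h3 : ¬ sF gs K t < sF gs K t' := by
    intro h4
    have := (s_rank_lt_iff t t' ht ht').2 h4
    omega
  have h4 : ¬ sF gs K t' < sF gs K t := by
    intro h4
    have := (s_rank_lt_iff t' t ht' ht).2 h4
    omega
  have h5 : sF gs K t = sF gs K t' := le_antisymm (not_lt.1 h4) (not_lt.1 h3)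
  have h6 : t * 2 ^ gs = t' * 2 ^ gs := h.inj _ _ (sp2_place t ht) (sp2_place t' ht') h5 h1
  exact Nat.eq_of_mul_eq_mul_right (by positivity) h6

theorem s_rank_surj (h : SK z gs u s c Q e K) (i : ℕ) (hi : i < sTot z gs K) : ∃ t, t < 2 ^ z ∧ sF gs K t ≠ ⊤ ∧ sR z gs K t = i := by
  classical
  obtain ⟨E, hE⟩ : ∃ E, E = (Finset.range (2 ^ z)).filter (fun t' => sF gs K t' ≠ ⊤) := ⟨_, rfl⟩
  have hsub : E.image (sR z gs K) ⊆ Finset.range (sTot z gs K) := by
    intro r hr
    rw [Finset.mem_image] at hr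
    obtain ⟨t, ht, rfl⟩ := hr
    rw [hE, Finset.mem_filter, Finset.mem_range] at ht
    exact Finset.mem_range.2 (s_rank_lt t ht.1 ht.2)
  have hinj : Set.InjOn (sR z gs K) (E : Set ℕ) := by
    intro t ht t' ht' htt
    rw [Finset.mem_coe, hE, Finset.mem_filter, Finset.mem_range] at ht ht'
    exact sp2_inj h t t' ht.1 ht'.1 ht.2 htt
  have heq : E.image (sR z gs K) = Finset.range (sTot z gs K) := by
    refine Finset.eq_of_subset_of_card_le hsub ?_
    rw [Finset.card_image_of_injOn hinj, Finset.card_range, hE, sTot]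
  have h1 : i ∈ E.image (sR z gs K) := by
    rw [heq]
    exact Finset.mem_range.2 hi
  rw [Finset.mem_image] at h1
  obtain ⟨t, ht, hti⟩ := h1
  rw [hE, Finset.mem_filter, Finset.mem_range] at ht
  exact ⟨t, ht.1, ht.2, hti⟩

theorem s_rank_top (t : ℕ) (h1 : sF gs K t = ⊤) : sR z gs K t = sTot z gs K := by
  rw [sR, sTot, h1]
  congr 1
  refine Finset.filter_congr fun t' _ => ?_
  exact lt_top_iff_ne_top

theorem s_rank_inj (h : SK z gs u s c Q e K) (t t' : ℕ) (ht : t < 2 ^ z) (ht' : t' < 2 ^ z) (h1 : sF gs K t ≠ ⊤)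
    (h2 : sR z gs K t = sR z gs K t') : t = t' := by
  exact sp2_inj h t t' ht ht' h1 h2

/-- The rank of an existing unit is smaller than that of the next one. -/
theorem sp2_div (h : SK z gs u s c Q e K) (x : ℕ) :
    x / 2 ^ (gs + z - u) = x / 2 ^ gs / 2 ^ (z - u) := by
  have h1 := h.huz
  rw [Nat.div_div_eq_div_mul, ← pow_add]
  congr 2
  omega

theorem sp2_next (h : SK z gs u s c Q e K) (t : ℕ) (ht : t < 2 ^ z)
    (h2 : (t + 1) / 2 ^ (z - u) = t / 2 ^ (z - u)) : t + 1 < 2 ^ z := by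
  have h1 := h.huz
  have h3 : 2 ^ z = 2 ^ u * 2 ^ (z - u) := by
    rw [← pow_add]
    congr 1
    omega
  have h4 : t / 2 ^ (z - u) < 2 ^ u := by
    rw [Nat.div_lt_iff_lt_mul (by positivity), ← h3]
    exact ht
  rw [← h2, Nat.div_lt_iff_lt_mul (by positivity), ← h3] at h4
  exact h4

theorem s_rank_next (h : SK z gs u s c Q e K) (t : ℕ) (ht : t < 2 ^ z) (h1 : sF gs K t ≠ ⊤) : sR z gs K t < sRn z gs u K t := by
  rw [sRn]
  split_ifs with h2
  · have h3 := sp2_next h t ht h2
    by_cases h4 : sF gs K (t + 1) = ⊤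
    · rw [s_rank_top (t + 1) h4]
      exact s_rank_lt t ht h1
    · refine (s_rank_lt_iff t (t + 1) ht h3).2 ?_
      refine h.run _ _ ?_ (sp2_place _ h3) ?_ h4
      · exact Nat.mul_lt_mul_of_pos_right (Nat.lt_succ_self t) (by positivity)
      · rw [sp2_div h, sp2_div h, Nat.mul_div_cancel _ (by positivity),
          Nat.mul_div_cancel _ (by positivity)]
        exact h2.symm
  · exact s_rank_lt t ht h1

theorem s_next_le (t : ℕ) : sRn z gs u K t ≤ sTot z gs K := by
  rw [sRn]
  split_ifs with h2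
  · exact s_rank_le _
  · exact le_rfl

end Pool.Agent.H31.HS
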