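import Mathlib
import Pool.Agent.H31.HS.SP2

/-!
# SP3: the boundaries `sBeta`

`sBeta j` is the infimum of `sF t` over the `t < 2^z` with `j c ≤ sR t`.  `s_beta_eq`: if `sR t = j c`, `t` existing, then `t` is in the set and every other `t'` of the set has `sR t ≤ sR t'`, so
`sF t ≤ sF t'` (`s_rank_lt_iff`).  `s_beta_top`: if no existing unit has rank `j c` then `sTot ≤ j c` (`s_rank_surj`), so the units of the set do not exist (`s_rank_lt`).
`s_beta_mono`: smaller set.  `s_beta_le`: if `sBeta j ≤ κ ≠ ⊤`, then some `t < 2^z` with `j c ≤ sR t` has `sF t ≤ κ` (the infimum over a finite set in a linear order is attained, or `⊤`).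
`s_beta_zero`: the first place of the run of `x` is the first place of a unit, with key at most `K x` (`run`).  `s_region`: the largest `j` with `sBeta j ≤ K x` (`sBeta j = ⊤` for `j ≥ sTot`, as `c ≥ 1`).
-/

set_option autoImplicit false

namespace Pool.Agent.H31.HS

variable {z gs u s c Q e : ℕ} {K : ℕ → WithTop ℕ}

theorem s_c_pos (h : SK z gs u s c Q e K) : 1 ≤ c := by
  rw [h.hc]
  have : 1 ≤ 2 ^ (u + s - z) := Nat.one_le_two_pow
  omega

theorem s_beta_eq (t j : ℕ) (ht : t < 2 ^ z) (h2 : sR z gs K t = j * c) :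
    sBeta z gs c K j = sF gs K t := by
  rw [sBeta]
  refine le_antisymm (Finset.inf_le ?_) (Finset.le_inf fun t' ht' => ?_)
  · rw [Finset.mem_filter, Finset.mem_range, h2]
    exact ⟨ht, le_rfl⟩
  · rw [Finset.mem_filter, Finset.mem_range, ← h2] at ht'
    by_contra hcon
    rw [not_le] at hcon
    have := (s_rank_lt_iff t' t ht'.1 ht).2 hcon
    omega

theorem sp3_top (j : ℕ) (h1 : sTot z gs K ≤ j * c) : sBeta z gs c K j = ⊤ := by
  rw [sBeta, eq_top_iff]
  refine Finset.le_inf fun t' ht' => ?_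
  rw [Finset.mem_filter, Finset.mem_range] at ht'
  by_contra hcon
  have h2 : sF gs K t' ≠ ⊤ := fun h3 => hcon (by rw [h3])
  have := s_rank_lt t' ht'.1 h2
  omega

theorem s_beta_top (h : SK z gs u s c Q e K) (j : ℕ) (h1 : ∀ t, t < 2 ^ z → sF gs K t ≠ ⊤ → sR z gs K t ≠ j * c) : sBeta z gs c K j = ⊤ := by
  refine sp3_top j ?_
  by_contra hcon
  rw [not_le] at hcon
  obtain ⟨t, ht, h2, h3⟩ := s_rank_surj h (j * c) hcon
  exact h1 t ht h2 h3

theorem s_beta_mono (j j' : ℕ) (h : j ≤ j') : sBeta z gs c K j ≤ sBeta z gs c K j' := by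
  rw [sBeta, sBeta]
  refine Finset.inf_mono fun t ht => ?_
  rw [Finset.mem_filter] at ht ⊢
  exact ⟨ht.1, (Nat.mul_le_mul_right c h).trans ht.2⟩

theorem s_beta_le (j : ℕ) (κ : WithTop ℕ) (hκ : κ ≠ ⊤) (h : sBeta z gs c K j ≤ κ) :
    ∃ t, t < 2 ^ z ∧ j * c ≤ sR z gs K t ∧ sF gs K t ≤ κ := by
  rw [sBeta] at h
  rcases Finset.eq_empty_or_nonempty
    ((Finset.range (2 ^ z)).filter (fun t => j * c ≤ sR z gs K t)) with h1 | h1
  · rw [h1, Finset.inf_empty, top_le_iff] at h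
    exact absurd h hκ
  · obtain ⟨t, ht, h2⟩ := Finset.exists_mem_eq_inf _ h1 (sF gs K)
    rw [Finset.mem_filter, Finset.mem_range] at ht
    rw [h2] at h
    exact ⟨t, ht.1, ht.2, h⟩

theorem sp3_unit (x : ℕ) (hx : x < 2 ^ (gs + z)) : x / 2 ^ gs < 2 ^ z := by
  rw [Nat.div_lt_iff_lt_mul (by positivity), ← pow_add, add_comm]
  exact hx

theorem sp3_first (h : SK z gs u s c Q e K) (x : ℕ) (hx : x < 2 ^ (gs + z)) (h1 : K x ≠ ⊤) :
    sF gs K (x / 2 ^ gs) ≤ K x := by
  rw [sF]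
  rcases (Nat.div_mul_le_self x (2 ^ gs)).lt_or_eq with h2 | h2
  · refine (h.run _ _ h2 hx ?_ h1).le
    rw [sp2_div h, sp2_div h, Nat.mul_div_cancel _ (by positivity)]
  · rw [h2]

theorem s_beta_zero (h : SK z gs u s c Q e K) (x : ℕ) (hx : x < 2 ^ (gs + z)) : sBeta z gs c K 0 ≤ K x := by
  have h1 : sBeta z gs c K 0 ≤ sF gs K (x / 2 ^ gs) := by
    rw [sBeta]
    refine Finset.inf_le ?_
    rw [Finset.mem_filter, Finset.mem_range, zero_mul]
    exact ⟨sp3_unit x hx, Nat.zero_le _⟩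
  by_cases h2 : K x = ⊤
  · rw [h2]
    exact le_top
  · exact h1.trans (sp3_first h x hx h2)

theorem s_region (h : SK z gs u s c Q e K) (x : ℕ) (hx : x < 2 ^ (gs + z)) (h1 : K x ≠ ⊤) :
    ∃ j, sBeta z gs c K j ≤ K x ∧ K x < sBeta z gs c K (j + 1) := by
  classical
  have hex : ∃ j, ¬ sBeta z gs c K j ≤ K x := by
    refine ⟨sTot z gs K, ?_⟩
    rw [sp3_top (sTot z gs K) (Nat.le_mul_of_pos_right _ (s_c_pos h)), top_le_iff]
    exact h1
  obtain ⟨j, hj⟩ : ∃ j, Nat.find hex = j + 1 := by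
    refine ⟨Nat.find hex - 1, ?_⟩
    have h2 : Nat.find hex ≠ 0 := by
      intro h3
      have h4 := Nat.find_spec hex
      rw [h3] at h4
      exact h4 (s_beta_zero h x hx)
    omega
  refine ⟨j, ?_, ?_⟩
  · have h2 := Nat.find_min hex (m := j) (by omega)
    exact not_not.1 h2
  · have h2 := Nat.find_spec hex
    rw [hj] at h2
    exact not_le.1 h2

end Pool.Agent.H31.HS
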