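import Mathlib
import Pool.Agent.H31.HS.SP2

/-!
# SP5: numbering of the pieces

`sBase` is nondecreasing, `sBase (t+1) = sBase t + sKap t`.  `sT p` = number of the `t < 2^z` with `sBase (t+1) ≤ p`; these are an initial segment, so for `p < sN = sBase (2^z)`: `sBase (sT p) ≤ p < sBase (sT p + 1)`,
`sT p < 2^z`, and `sKap (sT p) ≠ 0` so the unit exists.  `s_T_eq`: uniqueness.  `sJ p - sLo = p - sBase < sKap = sHi - sLo + 1`; note `sLo t ≤ sHi t` for existing units (`s_rank_next`).
-/

set_option autoImplicit false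

namespace Pool.Agent.H31.HS

variable {z gs u s c Q e : ℕ} {K : ℕ → WithTop ℕ}

theorem s_base_mono (t t' : ℕ) (h : t ≤ t') : sBase z gs u c K t ≤ sBase z gs u c K t' := by
  unfold sBase
  exact Finset.sum_le_sum_of_subset (Finset.range_mono h)

private theorem sp5_succ (t : ℕ) : sBase z gs u c K (t + 1) = sBase z gs u c K t + sKap z gs u c K t := by
  unfold sBase
  exact Finset.sum_range_succ _ _

private theorem sp5_dc (S : Finset ℕ) (hS : ∀ a b, a ≤ b → b ∈ S → a ∈ S) (x : ℕ) : x ∈ S ↔ x < S.card := by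
  have hex : ∃ m, m ∉ S := Infinite.exists_notMem_finset S
  obtain ⟨m, hm1, hm2⟩ : ∃ m, m ∉ S ∧ ∀ a, a < m → a ∈ S := by
    classical
    exact ⟨Nat.find hex, Nat.find_spec hex, fun a ha => not_not.1 (Nat.find_min hex ha)⟩
  have h1 : S = Finset.range m := by
    ext x
    rw [Finset.mem_range]
    constructor
    · intro hx
      by_contra hlt
      exact hm1 (hS m x (not_lt.1 hlt) hx)
    · exact hm2 x
  rw [h1, Finset.card_range, Finset.mem_range]

private theorem sp5_T (p x : ℕ) : (x < 2 ^ z ∧ sBase z gs u c K (x + 1) ≤ p) ↔ x < sT z gs u c K p := by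
  have h1 := sp5_dc ((Finset.range (2 ^ z)).filter (fun t => sBase z gs u c K (t + 1) ≤ p)) (by
    intro a b hab hb
    rw [Finset.mem_filter, Finset.mem_range] at hb ⊢
    exact ⟨lt_of_le_of_lt hab hb.1, (s_base_mono _ _ (Nat.succ_le_succ hab)).trans hb.2⟩) x
  rw [Finset.mem_filter, Finset.mem_range] at h1
  exact h1

theorem s_T (p : ℕ) (hp : p < sN z gs u c K) :
    sT z gs u c K p < 2 ^ z ∧ sBase z gs u c K (sT z gs u c K p) ≤ p ∧ p < sBase z gs u c K (sT z gs u c K p + 1) ∧
      sF gs K (sT z gs u c K p) ≠ ⊤ := by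
  have h0 : sT z gs u c K p < 2 ^ z := by
    by_contra h
    have hz : 0 < 2 ^ z := by positivity
    have h1 := (sp5_T (z := z) (gs := gs) (u := u) (c := c) (K := K) p (2 ^ z - 1)).2 (by omega)
    rw [Nat.sub_add_cancel hz] at h1
    exact absurd hp (not_lt.2 h1.2)
  have h1 : sBase z gs u c K (sT z gs u c K p) ≤ p := by
    rcases Nat.eq_zero_or_pos (sT z gs u c K p) with h | h
    · rw [h]
      unfold sBase
      simp
    · have h2 := (sp5_T (z := z) (gs := gs) (u := u) (c := c) (K := K) p (sT z gs u c K p - 1)).2 (by omega)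
      rw [Nat.sub_add_cancel h] at h2
      exact h2.2
  have h2 : p < sBase z gs u c K (sT z gs u c K p + 1) := by
    by_contra h
    have h3 := (sp5_T (z := z) (gs := gs) (u := u) (c := c) (K := K) p (sT z gs u c K p)).1 ⟨h0, not_lt.1 h⟩
    exact lt_irrefl _ h3
  refine ⟨h0, h1, h2, fun h => ?_⟩
  rw [sp5_succ] at h2
  have h3 : sKap z gs u c K (sT z gs u c K p) = 0 := by
    unfold sKap
    rw [if_pos h]
  omega

theorem s_T_eq (t p : ℕ) (ht : t < 2 ^ z) (h1 : sBase z gs u c K t ≤ p) (h2 : p < sBase z gs u c K (t + 1)) : sT z gs u c K p = t := by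
  rcases lt_trichotomy (sT z gs u c K p) t with h | h | h
  · exfalso
    have h3 := (sp5_T (z := z) (gs := gs) (u := u) (c := c) (K := K) p (sT z gs u c K p)).1
      ⟨h.trans ht, (s_base_mono _ _ (Nat.succ_le_of_lt h)).trans h1⟩
    exact lt_irrefl _ h3
  · exact h
  · exfalso
    have h3 := ((sp5_T (z := z) (gs := gs) (u := u) (c := c) (K := K) p t).2 h).2
    omega

private theorem sp5_J (t p : ℕ) (h : sT z gs u c K p = t) :
    sJ z gs u c K p = sLo z gs c K t + (p - sBase z gs u c K t) := by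
  unfold sJ
  rw [h]

theorem s_piece (h : SK z gs u s c Q e K) (t j : ℕ) (ht : t < 2 ^ z) (h1 : sF gs K t ≠ ⊤) (h2 : sLo z gs c K t ≤ j)
    (h3 : j ≤ sHi z gs u c K t) : ∃ p, p < sN z gs u c K ∧ sT z gs u c K p = t ∧ sJ z gs u c K p = j := by
  have hk : sKap z gs u c K t = sHi z gs u c K t - sLo z gs c K t + 1 := by
    unfold sKap
    rw [if_neg h1]
  have hs := sp5_succ (z := z) (gs := gs) (u := u) (c := c) (K := K) t
  have h4 : sBase z gs u c K t + (j - sLo z gs c K t) < sBase z gs u c K (t + 1) := by omega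
  have h5 := s_T_eq (z := z) (gs := gs) (u := u) (c := c) (K := K) t
    (sBase z gs u c K t + (j - sLo z gs c K t)) ht (Nat.le_add_right _ _) h4
  refine ⟨sBase z gs u c K t + (j - sLo z gs c K t), ?_, h5, ?_⟩
  · unfold sN
    exact lt_of_lt_of_le h4 (s_base_mono _ _ (Nat.succ_le_of_lt ht))
  · rw [sp5_J _ _ h5]
    omega

theorem s_piece_inj (p p' : ℕ) (hp : p < sN z gs u c K) (hp' : p' < sN z gs u c K) (h1 : sT z gs u c K p = sT z gs u c K p')
    (h2 : sJ z gs u c K p = sJ z gs u c K p') : p = p' := by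
  have a1 := (s_T p hp).2.1
  have a2 := (s_T p' hp').2.1
  rw [sp5_J (sT z gs u c K p') p h1, sp5_J (sT z gs u c K p') p' rfl] at h2
  rw [h1] at a1
  omega

theorem s_J_mem (h : SK z gs u s c Q e K) (p : ℕ) (hp : p < sN z gs u c K) :
    sLo z gs c K (sT z gs u c K p) ≤ sJ z gs u c K p ∧ sJ z gs u c K p ≤ sHi z gs u c K (sT z gs u c K p) := by
  obtain ⟨a0, a1, a2, a3⟩ := s_T p hp
  have hk : sKap z gs u c K (sT z gs u c K p) =
      sHi z gs u c K (sT z gs u c K p) - sLo z gs c K (sT z gs u c K p) + 1 := by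
    unfold sKap
    rw [if_neg a3]
  have hs := sp5_succ (z := z) (gs := gs) (u := u) (c := c) (K := K) (sT z gs u c K p)
  have hn := s_rank_next h (sT z gs u c K p) a0 a3
  have hl : sLo z gs c K (sT z gs u c K p) ≤ sHi z gs u c K (sT z gs u c K p) := by
    unfold sLo sHi
    exact Nat.div_le_div_right (Nat.le_sub_one_of_lt hn)
  rw [sp5_J (sT z gs u c K p) p rfl]
  omega

end Pool.Agent.H31.HS
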