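import Mathlib
import Pool.Agent.H31.HS.SP1
import Pool.Agent.H31.HS.SP3
import Pool.Agent.H31.HS.SP5

/-!
# SP6: at most `c + 2^u` pieces for one region; numbers

`s_c2`: the map `p ↦ sT p` is injective on the pieces of the region `j` (`s_piece_inj`).  Existing units `t` with `sLo t = j` have ranks in `[j c, j c + c)`: at most `c` (`s_rank_inj`).  Existing units with
`sLo t < j ≤ sHi t`: `sR t < j c` and `j c ≤ sRn t - 1`, so `j c < sRn t`: at most one in every run `t / 2^(z-u)` (`2^u` runs): if `t1 < t2` are two of them in the same run, then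
`sRn t1 = sR (t1+1) ≤ sR t2 < j c` (`t1 + 1` is in the run, `sF` is increasing in the run), contradiction.
`s_num`: `c + 2^u ≤ (e+2) 2^(s-Q)`: `c = e 2^(s-Q) + 2^(u+s-z)`, `2^(u+s-z) ≤ 2^(s-Q)` (`u + Q ≤ z`, `Q ≤ s`), `2^u ≤ 2^(s-Q)`.
`s_tot_c`: `sTot ≤ e 2^(z-Q) + 2^u ≤ c 2^(z-s)`.  `s_J_lt`: `sJ ≤ sHi = (sRn - 1)/c`, `1 ≤ sRn ≤ sTot ≤ c 2^(z-s)`.
`s_N_le`: `sN = ∑ over j < 2^(z-s)` of the number of pieces of the region `≤ 2^(z-s) (c + 2^u) ≤ (e+2) 2^(z-Q) ≤ 2^z`.
-/

set_option autoImplicit false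

namespace Pool.Agent.H31.HS

open Finset

variable {z gs u s c Q e : ℕ} {K : ℕ → WithTop ℕ}

theorem s_c2 (h : SK z gs u s c Q e K) (j : ℕ) :
    ((range (sN z gs u c K)).filter (fun p => sJ z gs u c K p = j)).card ≤ c + 2 ^ u := by
  classical
  have hc1 := s_c_pos h
  have huz : u ≤ z := by have := h.huz; omega
  -- first places in a run
  have hrun : ∀ t t', t < t' → t' < 2 ^ z → t / 2 ^ (z - u) = t' / 2 ^ (z - u) → sF gs K t' ≠ ⊤ → sF gs K t < sF gs K t' := by
    intro t t' htt ht' heq hne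
    have e : gs + z - u = gs + (z - u) := by omega
    refine h.run (t * 2 ^ gs) (t' * 2 ^ gs) (Nat.mul_lt_mul_of_pos_right htt (by positivity)) ?_ ?_ hne
    · rw [pow_add, mul_comm (2 ^ gs)]
      exact Nat.mul_lt_mul_of_pos_right ht' (by positivity)
    · rw [e, pow_add, ← Nat.div_div_eq_div_mul, ← Nat.div_div_eq_div_mul, Nat.mul_div_cancel _ (by positivity),
        Nat.mul_div_cancel _ (by positivity)]
      exact heq
  set A : Finset ℕ := (range (2 ^ z)).filter (fun t => sF gs K t ≠ ⊤ ∧ sLo z gs c K t = j) with hA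
  set B : Finset ℕ := (range (2 ^ z)).filter (fun t => sF gs K t ≠ ⊤ ∧ sLo z gs c K t < j ∧ j ≤ sHi z gs u c K t) with hB
  have hAc : A.card ≤ c := by
    have h1 : A.card ≤ (Ico (j * c) (j * c + c)).card := by
      refine card_le_card_of_injOn (sR z gs K) ?_ ?_
      · intro t ht
        rw [mem_coe, hA, mem_filter, mem_range] at ht
        obtain ⟨_, _, h2⟩ := ht
        rw [mem_coe, mem_Ico]
        unfold sLo at h2
        have h3 := Nat.div_add_mod (sR z gs K t) c
        have h4 := Nat.mod_lt (sR z gs K t) hc1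
        rw [h2, mul_comm c j] at h3
        omega
      · intro t ht t' ht' htt
        rw [mem_coe, hA, mem_filter, mem_range] at ht ht'
        exact s_rank_inj h t t' ht.1 ht'.1 ht.2.1 htt
    rw [Nat.card_Ico] at h1
    omega
  have hBc : B.card ≤ 2 ^ u := by
    have h1 : B.card ≤ (range (2 ^ u)).card := by
      refine card_le_card_of_injOn (fun t => t / 2 ^ (z - u)) ?_ ?_
      · intro t ht
        rw [mem_coe, hB, mem_filter, mem_range] at ht
        rw [mem_coe, mem_range]
        show t / 2 ^ (z - u) < 2 ^ u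
        rw [Nat.div_lt_iff_lt_mul (by positivity), ← pow_add]
        have e : u + (z - u) = z := by omega
        rw [e]
        exact ht.1
      · have key : ∀ t t', t ∈ B → t' ∈ B → t / 2 ^ (z - u) = t' / 2 ^ (z - u) → ¬ t < t' := by
          intro t t' ht ht' heq hlt
          rw [hB, mem_filter, mem_range] at ht ht'
          obtain ⟨a1, a2, a3, a4⟩ := ht
          obtain ⟨b1, b2, b3, b4⟩ := ht'
          have h2 := s_rank_next h t a1 a2
          have h3 : (t + 1) / 2 ^ (z - u) = t / 2 ^ (z - u) := by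
            refine le_antisymm ?_ (Nat.div_le_div_right (Nat.le_succ t))
            rw [heq]
            exact Nat.div_le_div_right hlt
          have h4 : sRn z gs u K t = sR z gs K (t + 1) := by
            unfold sRn
            rw [if_pos h3]
          have h5 : sR z gs K (t + 1) ≤ sR z gs K t' := by
            rcases Nat.eq_or_lt_of_le (show t + 1 ≤ t' from hlt) with h6 | h6
            · rw [h6]
            · exact ((s_rank_lt_iff (t + 1) t' (h6.trans b1) b1).2 (hrun (t + 1) t' h6 b1 (h3.trans heq) b2)).le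
          have h6 : j * c ≤ sRn z gs u K t - 1 := by
            unfold sHi at a4
            exact (Nat.le_div_iff_mul_le hc1).1 a4
          have h7 : sR z gs K t' < j * c := by
            unfold sLo at b3
            exact (Nat.div_lt_iff_lt_mul hc1).1 b3
          rw [h4] at h6 h2
          omega
        intro t ht t' ht' heq
        rcases Nat.lt_trichotomy t t' with h2 | h2 | h2
        · exact absurd h2 (key t t' ht ht' heq)
        · exact h2
        · exact absurd h2 (key t' t ht' ht heq.symm)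
    rw [card_range] at h1
    exact h1
  have h1 : ((range (sN z gs u c K)).filter (fun p => sJ z gs u c K p = j)).card ≤ (A ∪ B).card := by
    refine card_le_card_of_injOn (sT z gs u c K) ?_ ?_
    · intro p hp
      rw [mem_coe, mem_filter, mem_range] at hp
      obtain ⟨h2, h3⟩ := hp
      obtain ⟨h4, _, _, h5⟩ := s_T p h2
      obtain ⟨h6, h7⟩ := s_J_mem h p h2
      rw [h3] at h6 h7
      rw [mem_coe, mem_union, hA, hB, mem_filter, mem_filter, mem_range]
      rcases Nat.eq_or_lt_of_le h6 with h8 | h8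
      · exact Or.inl ⟨h4, h5, h8⟩
      · exact Or.inr ⟨h4, h5, h8, h7⟩
    · intro p hp p' hp' hpp
      rw [mem_coe, mem_filter, mem_range] at hp hp'
      exact s_piece_inj p p' hp.1 hp'.1 hpp (hp.2.trans hp'.2.symm)
  have h2 := card_union_le A B
  omega

theorem s_num (h : SK z gs u s c Q e K) : c + 2 ^ u ≤ (e + 2) * 2 ^ (s - Q) := by
  have h1 := h.hu
  have h2 := h.hus
  have h3 := h.huz
  have h4 : 2 ^ (u + s - z) ≤ 2 ^ (s - Q) := Nat.pow_le_pow_right two_pos (by omega)
  have h5 : 2 ^ u ≤ 2 ^ (s - Q) := Nat.pow_le_pow_right two_pos (by omega)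
  rw [h.hc, add_mul]
  omega

theorem s_tot_c (h : SK z gs u s c Q e K) : sTot z gs K ≤ c * 2 ^ (z - s) := by
  have h1 := h.hu
  have h2 := h.hus
  have h3 := h.huz
  have h4 := h.hsz
  refine (s_tot_le h).trans ?_
  rw [h.hc, add_mul, mul_assoc, ← pow_add, ← pow_add]
  have e : s - Q + (z - s) = z - Q := by omega
  rw [e]
  exact Nat.add_le_add_left (Nat.pow_le_pow_right two_pos (by omega)) _

theorem s_J_lt (h : SK z gs u s c Q e K) (p : ℕ) (hp : p < sN z gs u c K) : sJ z gs u c K p < 2 ^ (z - s) := by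
  have hc1 := s_c_pos h
  obtain ⟨h1, _, _, h2⟩ := s_T p hp
  obtain ⟨_, h3⟩ := s_J_mem h p hp
  have h4 := s_rank_next h _ h1 h2
  have h5 : sRn z gs u K (sT z gs u c K p) ≤ c * 2 ^ (z - s) := (s_next_le _).trans (s_tot_c h)
  refine h3.trans_lt ?_
  unfold sHi
  refine Nat.div_lt_of_lt_mul ?_
  omega

theorem s_N_le (h : SK z gs u s c Q e K) : sN z gs u c K ≤ 2 ^ z := by
  classical
  have h1 := h.hu
  have h2 := h.hus
  have h3 := h.huz
  have h4 := h.hsz
  have h5 : (range (sN z gs u c K)).card ≤ (c + 2 ^ u) * (range (2 ^ (z - s))).card := by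
    refine card_le_mul_card_image_of_maps_to (f := sJ z gs u c K) ?_ _ ?_
    · intro p hp
      rw [mem_range] at hp ⊢
      exact s_J_lt h p hp
    · intro j _
      exact s_c2 h j
  rw [card_range, card_range] at h5
  calc sN z gs u c K ≤ (c + 2 ^ u) * 2 ^ (z - s) := h5
    _ ≤ (e + 2) * 2 ^ (s - Q) * 2 ^ (z - s) := Nat.mul_le_mul_right _ (s_num h)
    _ = (e + 2) * 2 ^ (z - Q) := by
      rw [mul_assoc, ← pow_add]
      congr 2
      omega
    _ ≤ 2 ^ Q * 2 ^ (z - Q) := Nat.mul_le_mul_right _ (by have := h.he; omega)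
    _ = 2 ^ z := by
      rw [← pow_add]
      congr 1
      omega

end Pool.Agent.H31.HS
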