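import Mathlib
import Pool.Agent.H31.HS.SP6
import Pool.Agent.H31.HS.Rev

/-!
# SP7: the map `sD`

`s_M_lt`: `sM p` counts earlier pieces of the same region, `p` itself is one more: `sM p < c + 2^u ≤ (e+2) 2^(s-Q) ≤ 2^s` (`e + 3 ≤ 2^Q`, `Q ≤ s`).
`s_D_val`: if `sD p = some t` then `p < sN`, `t / 2^s = sJ p`, `t % 2^s = rev s (sM p)` (`rev_lt`), `t < 2^z` (`s_J_lt`).
`s_D_inj`: same `sJ`, `sM` (`rev_rev`); if `p < p'` then `sM p < sM p'` since `p` is counted in `sM p'`.
`s_D_dens` (`Q ≤ i ≤ z`): `i ≥ s`: `t / 2^i = A` means `sJ p / 2^(i-s) = A`: `2^(i-s)` regions with at most `(e+2) 2^(s-Q)` pieces.  `i < s`: the region is `A / 2^(s-i)`, and `rev s (sM p) / 2^i = A % 2^(s-i)`; the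
`sM p` are different numbers below `(e+2) 2^(s-Q)`; `rev_aligned`: at most `(e+2) 2^(s-Q) / 2^(s-i) + 1 = (e+2) 2^(i-Q) + 1`.
-/

set_option autoImplicit false

namespace Pool.Agent.H31.HS

open Finset

variable {z gs u s c Q e : ℕ} {K : ℕ → WithTop ℕ}

theorem s_M_lt (h : SK z gs u s c Q e K) (p : ℕ) (hp : p < sN z gs u c K) : sM z gs u c K p < (e + 2) * 2 ^ (s - Q) := by
  have h1 := s_c2 h (sJ z gs u c K p)
  have h2 := s_num h
  have h3 : sM z gs u c K p < ((range (sN z gs u c K)).filter (fun p' => sJ z gs u c K p' = sJ z gs u c K p)).card := by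
    unfold sM
    apply Finset.card_lt_card
    rw [Finset.ssubset_iff_of_subset]
    · exact ⟨p, mem_filter.2 ⟨mem_range.2 hp, rfl⟩, fun hx => lt_irrefl _ (mem_range.1 (mem_filter.1 hx).1)⟩
    · intro x hx
      simp only [mem_filter, mem_range] at hx ⊢
      exact ⟨hx.1.trans hp, hx.2⟩
  omega

private theorem s7_M_lt (h : SK z gs u s c Q e K) (p : ℕ) (hp : p < sN z gs u c K) : sM z gs u c K p < 2 ^ s := by
  refine (s_M_lt h p hp).trans_le ?_
  have h1 := h.he
  have h2 := h.hus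
  have h3 : (2 : ℕ) ^ s = 2 ^ Q * 2 ^ (s - Q) := by
    rw [← pow_add]
    congr 1
    omega
  rw [h3]
  exact Nat.mul_le_mul_right _ (by omega)

private theorem s7_inj {p p' : ℕ} (h1 : sJ z gs u c K p = sJ z gs u c K p') (h2 : sM z gs u c K p = sM z gs u c K p') : p = p' := by
  have key : ∀ a b : ℕ, a < b → sJ z gs u c K a = sJ z gs u c K b → sM z gs u c K a < sM z gs u c K b := by
    intro a b hab hJ
    unfold sM
    apply Finset.card_lt_card
    rw [Finset.ssubset_iff_of_subset]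
    · exact ⟨a, mem_filter.2 ⟨mem_range.2 hab, hJ⟩, fun hx => lt_irrefl _ (mem_range.1 (mem_filter.1 hx).1)⟩
    · intro x hx
      simp only [mem_filter, mem_range] at hx ⊢
      exact ⟨hx.1.trans hab, hx.2.trans hJ⟩
  rcases lt_trichotomy p p' with h | h | h
  · exact absurd h2 (key _ _ h h1).ne
  · exact h
  · exact absurd h2 (key _ _ h h1.symm).ne'

theorem s_D_val (h : SK z gs u s c Q e K) (p t : ℕ) (hp : sD z gs u c s K p = some t) :
    p < sN z gs u c K ∧ t / 2 ^ s = sJ z gs u c K p ∧ t % 2 ^ s = rev s (sM z gs u c K p) ∧ t < 2 ^ z := by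
  unfold sD at hp
  by_cases h1 : p < sN z gs u c K
  · rw [if_pos h1] at hp
    have h2 : sJ z gs u c K p * 2 ^ s + rev s (sM z gs u c K p) = t := Option.some.inj hp
    have h3 := rev_lt s (sM z gs u c K p)
    have h4 := s_J_lt h p h1
    have h5 : 0 < 2 ^ s := by positivity
    refine ⟨h1, ?_, ?_, ?_⟩
    · rw [← h2, mul_comm, Nat.mul_add_div h5, Nat.div_eq_of_lt h3, add_zero]
    · rw [← h2, mul_comm, Nat.mul_add_mod, Nat.mod_eq_of_lt h3]
    · have h6 : (2 : ℕ) ^ z = 2 ^ (z - s) * 2 ^ s := by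
        rw [← pow_add]
        congr 1
        have := h.hsz
        omega
      have h7 : (sJ z gs u c K p + 1) * 2 ^ s ≤ 2 ^ (z - s) * 2 ^ s := Nat.mul_le_mul_right _ h4
      rw [h6, ← h2]
      rw [add_mul, one_mul] at h7
      omega
  · rw [if_neg h1] at hp
    exact absurd hp (by simp)

theorem s_D_inj (h : SK z gs u s c Q e K) (p p' t : ℕ) (hp : sD z gs u c s K p = some t) (hp' : sD z gs u c s K p' = some t) : p = p' := by
  obtain ⟨a1, a2, a3, -⟩ := s_D_val h p t hp
  obtain ⟨b1, b2, b3, -⟩ := s_D_val h p' t hp'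
  apply s7_inj (a2.symm.trans b2)
  rw [← rev_rev s _ (s7_M_lt h p a1), ← rev_rev s _ (s7_M_lt h p' b1), ← a3, ← b3]

theorem s_D_dens (h : SK z gs u s c Q e K) (i A : ℕ) (h1 : Q ≤ i) (h2 : i ≤ z) :
    ((range (2 ^ z)).filter (fun p => ∃ t, sD z gs u c s K p = some t ∧ t / 2 ^ i = A)).card ≤ (e + 3) * 2 ^ (i - Q) := by
  have hQs : Q ≤ s := by
    have := h.hus
    omega
  rcases Nat.lt_or_ge i s with hi | hi
  · -- `i < s`
    have g1 : ((range (2 ^ z)).filter (fun p => ∃ t, sD z gs u c s K p = some t ∧ t / 2 ^ i = A)).card ≤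
        ((range ((e + 2) * 2 ^ (s - Q))).filter (fun r => rev s r / 2 ^ i = A % 2 ^ (s - i))).card := by
      have hs : (2 : ℕ) ^ s = 2 ^ i * 2 ^ (s - i) := by
        rw [← pow_add]
        congr 1
        omega
      refine Finset.card_le_card_of_injOn (fun p => sM z gs u c K p) ?_ ?_
      · intro p hp
        obtain ⟨t, ht, hA⟩ := (mem_filter.1 (mem_coe.1 hp)).2
        obtain ⟨a1, a2, a3, -⟩ := s_D_val h p t ht
        refine mem_coe.2 (mem_filter.2 ⟨mem_range.2 (s_M_lt h p a1), ?_⟩)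
        rw [← a3, ← hA, hs, Nat.mod_mul_right_div_self]
      · intro p hp p' hp' hM
        obtain ⟨t, ht, hA⟩ := (mem_filter.1 (mem_coe.1 hp)).2
        obtain ⟨t', ht', hA'⟩ := (mem_filter.1 (mem_coe.1 hp')).2
        obtain ⟨a1, a2, -, -⟩ := s_D_val h p t ht
        obtain ⟨b1, b2, -, -⟩ := s_D_val h p' t' ht'
        refine s7_inj ?_ hM
        rw [← a2, ← b2, hs, ← Nat.div_div_eq_div_mul, ← Nat.div_div_eq_div_mul, hA, hA']
    have g2 := rev_aligned s i ((e + 2) * 2 ^ (s - Q)) (A % 2 ^ (s - i)) hi.le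
    have g3 : (e + 2) * 2 ^ (s - Q) / 2 ^ (s - i) = (e + 2) * 2 ^ (i - Q) := by
      have : (2 : ℕ) ^ (s - Q) = 2 ^ (i - Q) * 2 ^ (s - i) := by
        rw [← pow_add]
        congr 1
        omega
      rw [this, ← mul_assoc]
      exact Nat.mul_div_cancel _ (by positivity)
    rw [g3] at g2
    have g4 : 1 ≤ 2 ^ (i - Q) := Nat.one_le_two_pow
    have g5 : (e + 3) * 2 ^ (i - Q) = (e + 2) * 2 ^ (i - Q) + 2 ^ (i - Q) := by ring
    omega
  · -- `s ≤ i`
    have g1 : ((range (2 ^ z)).filter (fun p => ∃ t, sD z gs u c s K p = some t ∧ t / 2 ^ i = A)) ⊆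
        (range (sN z gs u c K)).filter (fun p => sJ z gs u c K p / 2 ^ (i - s) = A) := by
      intro p hp
      obtain ⟨t, ht, hA⟩ := (mem_filter.1 hp).2
      obtain ⟨a1, a2, -, -⟩ := s_D_val h p t ht
      refine mem_filter.2 ⟨mem_range.2 a1, ?_⟩
      rw [← a2, Nat.div_div_eq_div_mul, ← pow_add, Nat.add_sub_cancel' hi, hA]
    refine (card_le_card g1).trans ?_
    have g2 := Finset.card_le_mul_card_image (f := fun p => sJ z gs u c K p)
      ((range (sN z gs u c K)).filter (fun p => sJ z gs u c K p / 2 ^ (i - s) = A)) ((e + 2) * 2 ^ (s - Q)) (by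
        intro a _
        refine le_trans (card_le_card ?_) ((s_c2 h a).trans (s_num h))
        intro x hx
        simp only [mem_filter, mem_range] at hx ⊢
        exact ⟨hx.1.1, hx.2⟩)
    have g3 : (((range (sN z gs u c K)).filter (fun p => sJ z gs u c K p / 2 ^ (i - s) = A)).image
        (fun p => sJ z gs u c K p)).card ≤ 2 ^ (i - s) := by
      have g4 : ((range (sN z gs u c K)).filter (fun p => sJ z gs u c K p / 2 ^ (i - s) = A)).image
        (fun p => sJ z gs u c K p) ⊆ Ico (2 ^ (i - s) * A) (2 ^ (i - s) * A + 2 ^ (i - s)) := by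
        intro j hj
        obtain ⟨p, hp, rfl⟩ := mem_image.1 hj
        have h3 := (mem_filter.1 hp).2
        rw [mem_Ico, ← h3]
        have h4 := Nat.div_add_mod (sJ z gs u c K p) (2 ^ (i - s))
        have h5 := Nat.mod_lt (sJ z gs u c K p) (show 0 < 2 ^ (i - s) by positivity)
        omega
      refine (card_le_card g4).trans ?_
      rw [Nat.card_Ico, Nat.add_sub_cancel_left]
    refine g2.trans ?_
    have g5 : (2 : ℕ) ^ (i - Q) = 2 ^ (s - Q) * 2 ^ (i - s) := by
      rw [← pow_add]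
      congr 1
      omega
    rw [g5, ← mul_assoc]
    exact Nat.mul_le_mul (Nat.mul_le_mul_right _ (by omega)) g3

end Pool.Agent.H31.HS
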