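import Mathlib
import Pool.Agent.H31.HS.SDef
import Pool.Agent.H31.HS.SP7
import Pool.Agent.H31.HS.WSrc

/-!
# SA1: from arrays to the pure part

`KK_cls`: `B.nd u x = B.nd v x` for all `x` (`nd_mod`, `nd_of_cls`).  `sk_of`: `m = (g+Q) + Z*Q`; `inj` from `Dist`, `run` from `RunSorted` (`x < 2^m`: `B.pos (B.nd v x) = x`; occupied: `kv ≠ ⊤`),
`dens` from `Dens` with `i = m` (`occ` at `i = m` counts the whole class: `pos v / 2^m = 0`), the numbers from `SPar` (`e + 3 ≤ 2^(c1+4) (e+3) ≤ 2^Q`).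
`sd_ok`: `δ v = sD (keys of the class of v) (unit of v)`: `unit`: `KK_cls`; `lt`, `inj`: `s_D_val`, `s_D_inj`; `dens`: `dl B hm δ v p = sD (KK .. v) p` (`uni_cls`, `lyr_cls`, `KK_cls`), `s_D_dens` with `i = (Z-j)*Q`
(`Q ≤ i ≤ Z*Q`), and `2^(c1+4) * (e+3) * 2^(i-Q) ≤ 2^Q * 2^(i-Q) = 2^i`.
-/

/-!
# SA1: from arrays to the pure part

`KK_cls`: `B.nd u x = B.nd v x` for all `x` (`nd_mod`, `nd_of_cls`).  `sk_of`: `m = (g+Q) + Z*Q`; `inj` from `Dist`, `run` from `RunSorted` (`x < 2^m`: `B.pos (B.nd v x) = x`; occupied: `kv ≠ ⊤`),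
`dens` from `Dens` with `i = m` (`occ` at `i = m` counts the whole class: `pos v / 2^m = 0`), the numbers from `SPar` (`e + 3 ≤ 2^(c1+4) (e+3) ≤ 2^Q`).
`sd_ok`: `δ v = sD (keys of the class of v) (unit of v)`: `unit`: `KK_cls`; `lt`, `inj`: `s_D_val`, `s_D_inj`; `dens`: `dl B hm δ v p = sD (KK .. v) p` (`uni_cls`, `lyr_cls`, `KK_cls`), `s_D_dens` with `i = (Z-j)*Q`
(`Q ≤ i ≤ Z*Q`), and `2^(c1+4) * (e+3) * 2^(i-Q) ≤ 2^Q * 2^(i-Q) = 2^i`.
-/

set_option autoImplicit false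

namespace Pool.Agent.H31.HS

variable {V R X : Type} {m g Q Z k q gl u s e c c1 Lam W S : ℕ}

theorem KK_cls (B : Blk V m) (key : X × Option R → ℕ) (a : V → Option X × Option R) {v v' : V} (h : B.cls v v') :
    KK B key a v = KK B key a v' := by
  funext x
  unfold KK
  rw [← B.nd_mod v x, ← B.nd_mod v' x, B.nd_of_cls h (Nat.mod_lt _ (by positivity))]

private theorem kv_some {key : X × Option R → ℕ} {x : Option X × Option R} : kv key x ≠ ⊤ ↔ x.1.isSome = true := by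
  unfold kv
  rcases h : x.1 with _ | l
  · simp
  · simp

theorem sk_of {B : Blk V m} (hp : SPar m g Q Z k q gl u s e c c1 Lam W S) {key : X × Option R → ℕ} {a : V → Option X × Option R}
    (hd : Dist B key a) (hr : RunSorted B key (m - u) a) (hD : Dens B u Q e (fun v => (a v).1.isSome)) (v : V) :
    SK (Z * Q) (g + Q) u s c Q e (KK B key a v) := by
  have hm := hp.hm
  subst hm
  refine ⟨?_, ?_, ?_, hp.hu, hp.hus, hp.hsz, hp.huz, hp.hc, ?_⟩
  · intro x x' hx hx' he hne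
    have h1 := hd (B.nd v x) (B.nd v x') (B.cls_trans (B.cls_symm (B.cls_nd v hx)) (B.cls_nd v hx')) (kv_some.1 hne)
      (kv_some.1 (fun h => hne (he.trans h))) he
    have h2 := congrArg B.pos h1
    rwa [B.pos_nd v x hx, B.pos_nd v x' hx'] at h2
  · intro x x' hlt hx' hdiv hne
    have hx : x < 2 ^ (g + Q + Z * Q) := hlt.trans hx'
    exact hr (B.nd v x) (B.nd v x') (B.cls_trans (B.cls_symm (B.cls_nd v hx)) (B.cls_nd v hx'))
      (by rw [B.pos_nd v x hx, B.pos_nd v x' hx']; exact hdiv) (by rw [B.pos_nd v x hx, B.pos_nd v x' hx']; exact hlt) (kv_some.1 hne)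
  · have h1 := hD v (g + Q + Z * Q) le_rfl (Or.inl rfl)
    refine le_trans (Nat.mul_le_mul_left _ ?_) h1
    unfold occ
    apply Finset.card_le_card
    intro x hx
    rw [Finset.mem_filter] at hx ⊢
    refine ⟨hx.1, ?_⟩
    rw [Nat.div_eq_of_lt (B.pos_lt v), zero_mul, zero_add]
    exact kv_some.1 hx.2
  · have h1 := hp.he
    have h2 : 1 ≤ 2 ^ (c1 + 4) := Nat.one_le_two_pow
    calc e + 3 = 1 * (e + 3) := (one_mul _).symm
      _ ≤ 2 ^ (c1 + 4) * (e + 3) := Nat.mul_le_mul_right _ h2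
      _ ≤ 2 ^ Q := h1

theorem sd_ok {B : Blk V m} (hp : SPar m g Q Z k q gl u s e c c1 Lam W S) {key : X × Option R → ℕ} {a : V → Option X × Option R}
    (hk : ∀ v, SK (Z * Q) (g + Q) u s c Q e (KK B key a v)) :
    DlOK B hp.hm c1 (fun v => sD (Z * Q) (g + Q) u c s (KK B key a v) ((Uni B hp.hm).pos v)) := by
  refine ⟨?_, ?_, ?_, ?_⟩
  · intro v v' hc hpos
    show sD (Z * Q) (g + Q) u c s (KK B key a v) ((Uni B hp.hm).pos v) = sD (Z * Q) (g + Q) u c s (KK B key a v') ((Uni B hp.hm).pos v')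
    rw [KK_cls B key a hc, hpos]
  · intro v t ht
    exact (s_D_val (hk v) _ t ht).2.2.2
  · intro v v' t hc ht ht'
    have ht2 : sD (Z * Q) (g + Q) u c s (KK B key a v') ((Uni B hp.hm).pos v') = some t := ht'
    rw [← KK_cls B key a hc] at ht2
    exact s_D_inj (hk v) _ _ t ht ht2
  · intro v j hj A
    have hdl : ∀ p, p < 2 ^ (Z * Q) →
        dl B hp.hm (fun v => sD (Z * Q) (g + Q) u c s (KK B key a v) ((Uni B hp.hm).pos v)) v p =
          sD (Z * Q) (g + Q) u c s (KK B key a v) p := by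
      intro p hp'
      have h1 : B.cls v ((Uni B hp.hm).nd v p) :=
        ((lyr_cls B hp.hm _ _).1 ((uni_cls B hp.hm _ _).1 ((Uni B hp.hm).cls_nd v hp')).1).1
      show sD (Z * Q) (g + Q) u c s (KK B key a ((Uni B hp.hm).nd v p)) ((Uni B hp.hm).pos ((Uni B hp.hm).nd v p)) = _
      rw [← KK_cls B key a h1, (Uni B hp.hm).pos_nd v p hp']
    have h1 : Q ≤ (Z - j) * Q := Nat.le_mul_of_pos_left _ (by omega)
    have h2 : (Z - j) * Q ≤ Z * Q := Nat.mul_le_mul_right _ (Nat.sub_le _ _)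
    have h3 := s_D_dens (hk v) ((Z - j) * Q) A h1 h2
    have h4 : ((Finset.range (2 ^ (Z * Q))).filter (fun p => ∃ t,
        dl B hp.hm (fun v => sD (Z * Q) (g + Q) u c s (KK B key a v) ((Uni B hp.hm).pos v)) v p = some t ∧
          t / 2 ^ ((Z - j) * Q) = A)).card ≤ (e + 3) * 2 ^ ((Z - j) * Q - Q) := by
      refine le_trans (Finset.card_le_card ?_) h3
      intro p hp'
      rw [Finset.mem_filter] at hp' ⊢
      refine ⟨hp'.1, ?_⟩
      rw [← hdl p (Finset.mem_range.1 hp'.1)]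
      exact hp'.2
    calc 2 ^ (c1 + 4) * ((Finset.range (2 ^ (Z * Q))).filter (fun p => ∃ t,
        dl B hp.hm (fun v => sD (Z * Q) (g + Q) u c s (KK B key a v) ((Uni B hp.hm).pos v)) v p = some t ∧
          t / 2 ^ ((Z - j) * Q) = A)).card
        ≤ 2 ^ (c1 + 4) * ((e + 3) * 2 ^ ((Z - j) * Q - Q)) := Nat.mul_le_mul_left _ h4
      _ = (2 ^ (c1 + 4) * (e + 3)) * 2 ^ ((Z - j) * Q - Q) := by ring
      _ ≤ 2 ^ Q * 2 ^ ((Z - j) * Q - Q) := Nat.mul_le_mul_right _ hp.he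
      _ = 2 ^ ((Z - j) * Q) := by rw [← pow_add, Nat.add_sub_cancel' h1]

end Pool.Agent.H31.HS
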