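import Mathlib
import Pool.Agent.H31.HS.SDef
import Pool.Agent.H31.HS.WLin
import Pool.Agent.H31.HS.WSrc

/-!
# SM0: slots and the block `Ext`

`frs v t` = first node of the unit `t` in the class of `v`.  `Slot` = the low `g + Q` bits, `Ext` = the `Z*Q` bits below the unit bits.  Lines: digits `0, .., gl+q-1` and `gl+q-Z*q, .., gl+q-1` of `B`
(`bits_bits` or `lines_bits`; `Z*Q = k*(Z*q)`, `g + Q = k*(gl+q)`).  Positions: with `x = B.pos v`: unit number `x / 2^(g+Q)`, slot number `x % 2^(g+Q)`, so `x = unit * 2^(g+Q) + slot`.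
`ext_uni`: the nodes of an `Ext`-class have the same unit number and the same class of `B`; the nodes of a `Uni`-class have the same `Ext`-number (`comm_bits_bits`).
-/

set_option autoImplicit false

namespace Pool.Agent.H31.HS

variable {V Ω R X : Type} {m g Q Z k n q gl r0 Lam : ℕ}

/-- The first node of the unit `t`. -/
def frs (g Q : ℕ) (B : Blk V m) (v : V) (t : ℕ) : V := B.nd v (t * 2 ^ (g + Q))

private theorem sm0_lt (B : Blk V m) (hm : m = g + Q + Z * Q) (v : V) : B.pos v / 2 ^ (g + Q) < 2 ^ (Z * Q) := by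
  rw [Nat.div_lt_iff_lt_mul (by positivity), ← pow_add]
  have h := B.pos_lt v
  have e : Z * Q + (g + Q) = m := by omega
  rw [e]
  exact h

theorem pos_uni (B : Blk V m) (hm : m = g + Q + Z * Q) (v : V) : (Uni B hm).pos v = B.pos v / 2 ^ (g + Q) := by
  show B.pos v / 2 ^ (g + Q) % 2 ^ (Z * Q) = B.pos v / 2 ^ (g + Q)
  exact Nat.mod_eq_of_lt (sm0_lt B hm v)

private theorem sm0_slot (B : Blk V m) (hm : m = g + Q + Z * Q) (v : V) : (Slot B hm).pos v = B.pos v % 2 ^ (g + Q) := by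
  show B.pos v / 2 ^ 0 % 2 ^ (g + Q) = B.pos v % 2 ^ (g + Q)
  rw [pow_zero, Nat.div_one]

theorem slot_nd (B : Blk V m) (hm : m = g + Q + Z * Q) (v : V) : (Slot B hm).nd v 0 = frs g Q B v ((Uni B hm).pos v) := by
  rw [pos_uni]
  show B.nd v (Blk.rep 0 (g + Q) (B.pos v) (0 % 2 ^ (g + Q))) = B.nd v (B.pos v / 2 ^ (g + Q) * 2 ^ (g + Q))
  congr 1
  unfold Blk.rep
  rw [Nat.zero_mod, zero_mul, add_zero, pow_zero, Nat.mod_one, add_zero, zero_add]

theorem pos_split (B : Blk V m) (hm : m = g + Q + Z * Q) (v : V) :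
    B.pos v = (Uni B hm).pos v * 2 ^ (g + Q) + (Slot B hm).pos v := by
  rw [pos_uni, sm0_slot]
  exact (Nat.div_add_mod' _ _).symm

private theorem sm0_cast (B : Blk V m) {a b k : ℕ} (e : a = b) (ha : a + k ≤ m) (hb : b + k ≤ m) :
    B.bits a k ha = B.bits b k hb := by
  subst e
  rfl

theorem lines_slot {M : Mach V Ω R} {B : Blk V m} (hm : m = g + Q + Z * Q) (hL : Lines M Lam B k n r0) (hQ : Q = k * q) (hg : g = k * gl) :
    Lines M Lam (Slot B hm) k (gl + q) r0 := by
  refine ⟨by rw [hQ, hg]; ring, hL.hk, fun t ht htn => ?_⟩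
  have h1 : k * t + k ≤ m := by omega
  have htn' : t < n := by
    have h2 : k * (t + 1) ≤ k * n := by
      rw [← hL.hm]
      calc k * (t + 1) = k * t + k := by ring
        _ ≤ m := h1
    have h3 := Nat.le_of_mul_le_mul_left h2 hL.hk
    omega
  unfold Slot
  rw [bits_bits B _ ht (by omega), sm0_cast B (Nat.zero_add (k * t)) (by omega) h1]
  exact hL.rnd t h1 htn'

theorem lines_ext {M : Mach V Ω R} {B : Blk V m} (hm : m = g + Q + Z * Q) (hgz : 2 * (Z * Q) ≤ g) (hL : Lines M Lam B k n r0)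
    (hQ : Q = k * q) (hg : g = k * gl) : Lines M Lam (Ext B hm hgz) k (Z * q) r0 := by
  refine ⟨by rw [hQ]; ring, hL.hk, fun t ht htn => ?_⟩
  have hk := hL.hk
  have e0 : Z * Q = k * (Z * q) := by rw [hQ]; ring
  have h0 : Z * q ≤ gl + q := by
    have h2 : k * (Z * q) ≤ k * gl := by
      rw [← e0, ← hg]
      omega
    have h3 := Nat.le_of_mul_le_mul_left h2 hk
    omega
  have e1 : g + Q - Z * Q = k * (gl + q - Z * q) := by
    rw [Nat.mul_sub, e0, hQ, hg]
    congr 1
    ring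
  have e2 : g + Q - Z * Q + k * t = k * (gl + q - Z * q + t) := by
    rw [e1]
    ring
  have h1 : k * (gl + q - Z * q + t) + k ≤ m := by
    rw [← e2]
    omega
  have htn' : gl + q - Z * q + t < n := by
    have h2 : k * (gl + q - Z * q + t + 1) ≤ k * n := by
      rw [← hL.hm]
      calc k * (gl + q - Z * q + t + 1) = k * (gl + q - Z * q + t) + k := by ring
        _ ≤ m := h1
    have h3 := Nat.le_of_mul_le_mul_left h2 hL.hk
    omega
  unfold Ext
  rw [bits_bits B _ ht (by omega), sm0_cast B e2 (by omega) h1]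
  exact hL.rnd _ h1 htn'

theorem comm_uni_ext (B : Blk V m) (hm : m = g + Q + Z * Q) (hgz : 2 * (Z * Q) ≤ g) : Blk.Comm (Uni B hm) (Ext B hm hgz) := by
  unfold Uni Ext
  exact comm_bits_bits B (by omega) (by omega) (by omega)

theorem ext_cls (B : Blk V m) (hm : m = g + Q + Z * Q) (hgz : 2 * (Z * Q) ≤ g) {v u : V} (h : (Ext B hm hgz).cls v u) :
    B.cls v u ∧ (Uni B hm).pos v = (Uni B hm).pos u := by
  unfold Ext at h
  rw [bits_cls] at h
  obtain ⟨h1, h2, _⟩ := h
  have e : g + Q - Z * Q + Z * Q = g + Q := by omega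
  rw [e] at h2
  refine ⟨h1, ?_⟩
  rw [pos_uni, pos_uni, h2]

theorem uni_cls' (B : Blk V m) (hm : m = g + Q + Z * Q) {v u : V} (h : (Uni B hm).cls v u) :
    B.cls v u ∧ (Slot B hm).pos v = (Slot B hm).pos u := by
  unfold Uni at h
  rw [bits_cls] at h
  obtain ⟨h1, _, h3⟩ := h
  refine ⟨h1, ?_⟩
  rw [sm0_slot, sm0_slot, h3]

theorem frs_cls (B : Blk V m) (hm : m = g + Q + Z * Q) {v u : V} (h : B.cls v u) (t : ℕ) : frs g Q B v t = frs g Q B u t := by
  unfold frs
  rw [← B.nd_mod v, ← B.nd_mod u]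
  exact (B.nd_of_cls h (Nat.mod_lt _ (by positivity))).symm

end Pool.Agent.H31.HS
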