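import Mathlib
import Pool.Agent.H31.HS.SM0
import Pool.Agent.H31.HS.SA1
import Pool.Agent.H31.HS.Bfx
import Pool.Agent.H31.HS.Bcast
import Pool.Agent.H31.HS.Sums
import Pool.Agent.H31.HS.Cmp

/-!
# SM1: first items and ranks of the units

1. `bcast` for `Slot` (`lines_slot`) with `τ = 0`: every `v` has the first item of its unit, `a (frs v (unit v))` (`slot_nd`); cost `(gl+q) * r0`.
2. `bfx` for `BS = Uni`, `BE = Ext` with this item: `v` gets `a (frs v (Ext.pos v))` (`uni_cls'`, `frs_cls`); cost `Z*q*r0`.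
3. the node compares (`cmp_known`): `h v w = 1` if `kv (a (frs v (Ext.pos v))) < kv (a (frs v (unit v)))`, else `0`; `lsum` for `Ext` (`lines_ext`): the sum over the `Ext`-class of `v` (where `Ext.pos` runs through
`0, .., 2^(Z*Q)-1`, unit and class constant: `ext_cls`) is `sR .. (unit v)` (`Finset.card_filter`; `sF (t) = kv key (a (frs v t))` by definition of `KK`, `sF`); same for `sTot`; cost `2 * (Z*q) * r0`.
Sizes: `S + 2`, sums `≤ 2^(Z*Q) < W`.
-/

set_option autoImplicit false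

namespace Pool.Agent.H31.HS

variable {V Ω R X : Type} {m g Q Z k n q gl r0 u s e c c1 Lam W S : ℕ}

private theorem sm1_kv (key : X × Option R → ℕ) (x : Option X × Option R) : kv key x ≠ ⊤ ↔ x.1.isSome = true := by
  obtain ⟨x1, x2⟩ := x
  cases x1 with
  | none => simp [kv]
  | some l => simp [kv]

private theorem sm1_lam (hp : SPar m g Q Z k q gl u s e c c1 Lam W S) : S + 1 + 1 ≤ Lam ∧ 2 ^ (Z * Q) + 1 ≤ Lam := by
  have h1 : 2 ^ m < W := hp.hW
  have h2 : 1 ≤ 2 ^ m := Nat.one_le_two_pow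
  have h3 : 2 ^ (Z * Q) ≤ 2 ^ m := Nat.pow_le_pow_right (by norm_num) (by have := hp.hm; omega)
  have hW2 : 2 ≤ W := by omega
  have hS := hp.hS
  have h4 : S * 2 ^ 10 ≤ S * W ^ 10 := Nat.mul_le_mul_left _ (Nat.pow_le_pow_left hW2 10)
  have h5 : W ≤ W ^ 10 := Nat.le_self_pow (by norm_num) W
  have h6 : 1 * W ^ 10 ≤ S * W ^ 10 := Nat.mul_le_mul_right _ hS
  have hl := hp.hl
  constructor
  · have e : S * 2 ^ 10 = 1024 * S := by ring
    omega
  · omega

theorem sm_rank {M : Mach V Ω R} {B : Blk V m} (hp : SPar m g Q Z k q gl u s e c c1 Lam W S) (hL : Lines M Lam B k n r0)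
    {key : Ω → X × Option R → ℕ} (hK : KeyLoc M key) (P : M.Pl) (a : V → Ω → Option X × Option R) (hs : Sm S a)
    (ha : ∀ v, M.Has P v (a v)) :
    M.Do ((gl + q + 3 * (Z * q)) * r0) P (fun P' =>
      (∀ v, M.Has P' v (a (frs g Q B v ((Ext B hp.hm hp.hgz).pos v)))) ∧
      (∀ v, M.Has P' v (a (frs g Q B v ((Uni B hp.hm).pos v)))) ∧
      (∀ v, M.Knows P' v (fun w => sR (Z * Q) (g + Q) (KK B (key w) (fun x => a x w) v) ((Uni B hp.hm).pos v))) ∧
      ∀ v, M.Knows P' v (fun w => sTot (Z * Q) (g + Q) (KK B (key w) (fun x => a x w) v))) := by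
  obtain ⟨hlam1, hlam2⟩ := sm1_lam hp
  have hm := hp.hm
  have hgz := hp.hgz
  have hz0 : (0 : ℕ) < 2 ^ (g + Q) := by positivity
  have e : (gl + q + 3 * (Z * q)) * r0 = (gl + q) * r0 + (Z * q * r0 + (Z * q * r0 + Z * q * r0)) := by ring
  rw [e]
  have hsz : Sz (S + 1) (fun v w => (a v w).1) := hs.sz
  refine (bcast (lines_slot hm hL hp.hQ hp.hg) hlam1 (fun _ => 0) (fun _ _ _ => rfl) (fun _ => hz0) P a hsz ha).bind ?_
  intro P1 _ h1
  have h1' : ∀ v, M.Has P1 v (a (frs g Q B v ((Uni B hm).pos v))) := by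
    intro v
    rw [← slot_nd B hm v]
    exact h1 v
  have hsf : Sz (S + 1) (fun v w => (a (frs g Q B v ((Uni B hm).pos v)) w).1) :=
    hsz.of_range (fun v w => ⟨frs g Q B v ((Uni B hm).pos v), w, rfl⟩)
  refine (bfx (comm_uni_ext B hm hgz) (lines_uni hm hL hp.hQ hp.hg) hlam1 P1
    (fun v => a (frs g Q B v ((Uni B hm).pos v))) hsf h1').bind ?_
  intro P2 he2 h2
  have h2' : ∀ v, M.Has P2 v (a (frs g Q B v ((Ext B hm hgz).pos v))) := by
    intro v
    have h3 := h2 v
    have hlt := (Ext B hm hgz).pos_lt v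
    have h4 := (Uni B hm).pos_nd v _ hlt
    have h5 := (uni_cls' B hm ((Uni B hm).cls_nd v hlt)).1
    have h6 : frs g Q B ((Uni B hm).nd v ((Ext B hm hgz).pos v)) ((Uni B hm).pos ((Uni B hm).nd v ((Ext B hm hgz).pos v)))
        = frs g Q B v ((Ext B hm hgz).pos v) := by
      rw [h4]
      exact (frs_cls B hm h5 _).symm
    rw [← h6]
    exact h3
  have h1'' : ∀ v, M.Has P2 v (a (frs g Q B v ((Uni B hm).pos v))) := fun v => (h1' v).mono he2
  have hfrs : ∀ v t, t < 2 ^ (Z * Q) → ∀ t', frs g Q B ((Ext B hm hgz).nd v t) t' = frs g Q B v t' := by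
    intro v t ht t'
    exact (frs_cls B hm (ext_cls B hm hgz ((Ext B hm hgz).cls_nd v ht)).1 t').symm
  have hpe : ∀ v t, t < 2 ^ (Z * Q) → (Ext B hm hgz).pos ((Ext B hm hgz).nd v t) = t := fun v t ht => (Ext B hm hgz).pos_nd v t ht
  have hpu : ∀ v t, t < 2 ^ (Z * Q) → (Uni B hm).pos ((Ext B hm hgz).nd v t) = (Uni B hm).pos v := fun v t ht =>
    (ext_cls B hm hgz ((Ext B hm hgz).cls_nd v ht)).2.symm
  -- the ranks
  have hR : ∀ v w, ∑ t ∈ Finset.range (2 ^ (Z * Q)), (if decide (kv (key w) (a (frs g Q B ((Ext B hm hgz).nd v t)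
      ((Ext B hm hgz).pos ((Ext B hm hgz).nd v t))) w) < kv (key w) (a (frs g Q B ((Ext B hm hgz).nd v t)
      ((Uni B hm).pos ((Ext B hm hgz).nd v t))) w)) then 1 else 0)
      = sR (Z * Q) (g + Q) (KK B (key w) (fun x => a x w) v) ((Uni B hm).pos v) := by
    intro v w
    unfold sR
    rw [Finset.card_filter]
    refine Finset.sum_congr rfl (fun t ht => ?_)
    have ht' := Finset.mem_range.1 ht
    rw [hfrs v t ht', hfrs v t ht', hpe v t ht', hpu v t ht']
    simp only [decide_eq_true_eq]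
    rfl
  have hT : ∀ v w, ∑ t ∈ Finset.range (2 ^ (Z * Q)), (if (a (frs g Q B ((Ext B hm hgz).nd v t)
      ((Ext B hm hgz).pos ((Ext B hm hgz).nd v t))) w).1.isSome = true then 1 else 0)
      = sTot (Z * Q) (g + Q) (KK B (key w) (fun x => a x w) v) := by
    intro v w
    unfold sTot
    rw [Finset.card_filter]
    refine Finset.sum_congr rfl (fun t ht => ?_)
    have ht' := Finset.mem_range.1 ht
    rw [hfrs v t ht', hpe v t ht']
    have h3 : sF (g + Q) (KK B (key w) (fun x => a x w) v) t ≠ ⊤ ↔ (a (frs g Q B v t) w).1.isSome = true :=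
      sm1_kv (key w) (a (frs g Q B v t) w)
    simp only [h3]
  have hbd : ∀ (p : ℕ → Prop) [DecidablePred p], ∑ t ∈ Finset.range (2 ^ (Z * Q)), (if p t then 1 else 0) ≤ 2 ^ (Z * Q) := by
    intro p _
    rw [← Finset.card_filter]
    exact (Finset.card_filter_le _ _).trans (by simp)
  have hle := lines_ext hm hgz hL hp.hQ hp.hg
  refine (lsum hle hlam2 P2 (fun v w => if decide (kv (key w) (a (frs g Q B v ((Ext B hm hgz).pos v)) w)
      < kv (key w) (a (frs g Q B v ((Uni B hm).pos v)) w)) then 1 else 0) (fun v => ?_) (fun v w => hbd _)).bind ?_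
  · exact (cmp_known hK (h2' v) (h1'' v)).comp (fun b : Bool => if b then 1 else 0)
  intro P3 he3 h3
  refine (lsum hle hlam2 P3 (fun v w => if (a (frs g Q B v ((Ext B hm hgz).pos v)) w).1.isSome = true then 1 else 0)
    (fun v => ?_) (fun v w => hbd _)).mono le_rfl ?_
  · exact ((h2' v).mono he3).1.comp (fun x => if x.1.isSome = true then 1 else 0)
  intro P4 he4 h4
  refine ⟨fun v => ((h2' v).mono he3).mono he4, fun v => ((h1'' v).mono he3).mono he4, fun v => ?_, fun v => ?_⟩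
  · refine ((h3 v).mono he4).triv (fun w => ?_)
    exact (hR v w).symm
  · refine (h4 v).triv (fun w => ?_)
    exact (hT v w).symm

end Pool.Agent.H31.HS
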