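import Mathlib
import Pool.Agent.H31.HS.SM0
import Pool.Agent.H31.HS.SA1
import Pool.Agent.H31.HS.Shift
import Pool.Agent.H31.HS.Sums

/-!
# SM2: `sLo`, `sKap`, `sBase`, `sN` are known

`shift` for `Uni` with `c = 1` and the item `(sR at own unit, none)`: `v` knows `sR` of the unit `(unit v + 1) % 2^(Z*Q)`; if `(t+1) / 2^(z-u) = t / 2^(z-u)` then `t + 1 < 2^z` (as `2^(z-u)` divides `2^z`), so this is
`sR (t+1)`; so `sRn` is known (cost `2 * (Z*q) * r0`), hence `sLo`, `sHi`, `sKap` (whether `sF = ⊤` is known: label of the first item).  `pre` for `Uni` (`lines_uni`) with `f v w = sKap (unit v)`: `sBase (unit v)`; `lsum`: `sN`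
(cost `2 * (Z*q) * r0`).  In a `Uni`-class the unit number runs through all `t < 2^(Z*Q)` and `KK` is constant (`uni_cls'`, `KK_cls`).  Bounds: the sum is `sN ≤ 2^(Z*Q)` (`s_N_le`), `Bd = 2^(Z*Q)`, `(Bd+1)^2 ≤ W^2 ≤ Lam`.
Sizes for `shift`: `sR ≤ sTot ≤ 2^(Z*Q) < W`.
-/

set_option autoImplicit false

namespace Pool.Agent.H31.HS

variable {V Ω R X : Type} {m g Q Z k n q gl r0 u s e c c1 Lam W S : ℕ}

private theorem sm2_nd {B : Blk V m} (hm : m = g + Q + Z * Q) (key : X × Option R → ℕ) (a : V → Option X × Option R) (v : V) {t : ℕ}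
    (ht : t < 2 ^ (Z * Q)) : KK B key a ((Uni B hm).nd v t) = KK B key a v := by
  exact (KK_cls B key a (uni_cls' B hm ((Uni B hm).cls_nd v ht)).1).symm

private theorem sm2_next {z u t : ℕ} (hu : u ≤ z) (ht : t < 2 ^ z) (h : (t + 1) / 2 ^ (z - u) = t / 2 ^ (z - u)) : (t + 1) % 2 ^ z = t + 1 := by
  have h0 : (2 : ℕ) ^ z = 2 ^ (z - u) * 2 ^ u := by
    rw [← pow_add, Nat.sub_add_cancel hu]
  have h1 : t / 2 ^ (z - u) < 2 ^ u := by
    rw [Nat.div_lt_iff_lt_mul (by positivity), mul_comm, ← h0]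
    exact ht
  apply Nat.mod_eq_of_lt
  by_contra hc
  have h2 : t + 1 = 2 ^ z := by omega
  rw [h2, h0, Nat.mul_div_cancel_left _ (by positivity)] at h
  omega

private theorem sm2_top {key : X × Option R → ℕ} {x : Option X × Option R} : kv key x = ⊤ ↔ x.1 = none := by
  unfold kv
  rcases h : x.1 with _ | l
  · simp
  · simp

private theorem sm2_sR_le (z gs : ℕ) (K : ℕ → WithTop ℕ) (t : ℕ) : sR z gs K t ≤ 2 ^ z := by
  unfold sR
  refine (Finset.card_filter_le _ _).trans ?_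
  rw [Finset.card_range]

private theorem sm2_lam (hp : SPar m g Q Z k q gl u s e c c1 Lam W S) :
    (2 ^ (Z * Q) + 1) * (2 ^ (Z * Q) + 1) ≤ Lam ∧ 2 ^ (Z * Q) + 1 ≤ Lam := by
  have h1 : 2 ^ (Z * Q) ≤ 2 ^ m := Nat.pow_le_pow_right two_pos (by have := hp.hm; omega)
  have h2 := hp.hW
  have h3 : 2 ^ (Z * Q) + 1 ≤ W := by omega
  have hW1 : 1 ≤ W := le_trans (Nat.le_add_left 1 _) h3
  have h4 : W * W ≤ W ^ 10 := by
    calc W * W = W ^ 2 := (sq W).symm
      _ ≤ W ^ 10 := Nat.pow_le_pow_right hW1 (by norm_num)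
  have h5 : W ^ 10 ≤ S * W ^ 10 := Nat.le_mul_of_pos_left _ hp.hS
  have h6 : W ≤ W * W := Nat.le_mul_of_pos_left _ hW1
  have h7 := hp.hl
  refine ⟨(Nat.mul_le_mul h3 h3).trans (h4.trans (h5.trans h7)), h3.trans (h6.trans (h4.trans (h5.trans h7)))⟩

theorem sm_kap {M : Mach V Ω R} {B : Blk V m} (hp : SPar m g Q Z k q gl u s e c c1 Lam W S) (hL : Lines M Lam B k n r0)
    {key : Ω → X × Option R → ℕ} (P : M.Pl) (a : V → Ω → Option X × Option R)
    (hk : ∀ w v, SK (Z * Q) (g + Q) u s c Q e (KK B (key w) (fun x => a x w) v))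
    (h1 : ∀ v, M.Has P v (a (frs g Q B v ((Uni B hp.hm).pos v))))
    (h2 : ∀ v, M.Knows P v (fun w => sR (Z * Q) (g + Q) (KK B (key w) (fun x => a x w) v) ((Uni B hp.hm).pos v)))
    (h3 : ∀ v, M.Knows P v (fun w => sTot (Z * Q) (g + Q) (KK B (key w) (fun x => a x w) v))) :
    M.Do (4 * (Z * q) * r0) P (fun P' =>
      (∀ v, M.Knows P' v (fun w => sLo (Z * Q) (g + Q) c (KK B (key w) (fun x => a x w) v) ((Uni B hp.hm).pos v))) ∧
      (∀ v, M.Knows P' v (fun w => sKap (Z * Q) (g + Q) u c (KK B (key w) (fun x => a x w) v) ((Uni B hp.hm).pos v))) ∧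
      (∀ v, M.Knows P' v (fun w => sBase (Z * Q) (g + Q) u c (KK B (key w) (fun x => a x w) v) ((Uni B hp.hm).pos v))) ∧
      ∀ v, M.Knows P' v (fun w => sN (Z * Q) (g + Q) u c (KK B (key w) (fun x => a x w) v))) := by
  obtain ⟨hl2, hl1⟩ := sm2_lam hp
  have hLU := lines_uni hp.hm hL hp.hQ hp.hg
  -- the ranks of the next units
  have e1 := shift hLU 1 P (fun v w => (sR (Z * Q) (g + Q) (KK B (key w) (fun x => a x w) v) ((Uni B hp.hm).pos v), (none : Option R)))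
    (Sz.nat (fun v w => lt_of_lt_of_le (Nat.lt_succ_of_le (sm2_sR_le _ _ _ _)) hl1)) (fun v => (h2 v).has)
  have e2 : ∀ P', M.ext P P' → (∀ v, M.Has P' v ((fun v w => (sR (Z * Q) (g + Q) (KK B (key w) (fun x => a x w) v)
      ((Uni B hp.hm).pos v), (none : Option R))) ((Uni B hp.hm).nd v (((Uni B hp.hm).pos v + 1) % 2 ^ (Z * Q))))) →
      ∀ v, M.Knows P' v (fun w => sRn (Z * Q) (g + Q) u (KK B (key w) (fun x => a x w) v) ((Uni B hp.hm).pos v)) := by
    intro P' he h4 v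
    by_cases hc : ((Uni B hp.hm).pos v + 1) / 2 ^ (Z * Q - u) = (Uni B hp.hm).pos v / 2 ^ (Z * Q - u)
    · refine (h4 v).label.triv (fun w => ?_)
      have hlt : ((Uni B hp.hm).pos v + 1) % 2 ^ (Z * Q) < 2 ^ (Z * Q) := Nat.mod_lt _ (by positivity)
      show sRn (Z * Q) (g + Q) u (KK B (key w) (fun x => a x w) v) ((Uni B hp.hm).pos v) =
        sR (Z * Q) (g + Q) (KK B (key w) (fun x => a x w) ((Uni B hp.hm).nd v (((Uni B hp.hm).pos v + 1) % 2 ^ (Z * Q))))
          ((Uni B hp.hm).pos ((Uni B hp.hm).nd v (((Uni B hp.hm).pos v + 1) % 2 ^ (Z * Q))))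
      rw [sm2_nd hp.hm _ _ v hlt, (Uni B hp.hm).pos_nd v _ hlt,
        sm2_next (by have := hp.huz; omega) ((Uni B hp.hm).pos_lt v) hc]
      unfold sRn
      rw [if_pos hc]
    · refine ((h3 v).mono he).triv (fun w => ?_)
      unfold sRn
      rw [if_neg hc]
  have e3 : ∀ P', M.ext P P' → (∀ v, M.Knows P' v (fun w => sRn (Z * Q) (g + Q) u (KK B (key w) (fun x => a x w) v) ((Uni B hp.hm).pos v))) →
      ∀ v, M.Knows P' v (fun w => sKap (Z * Q) (g + Q) u c (KK B (key w) (fun x => a x w) v) ((Uni B hp.hm).pos v)) := by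
    intro P' he h4 v
    have h5 := ((h1 v).mono he).label
    have h6 := (h2 v).mono he
    have h7 := h4 v
    intro w w' hs
    have h5' := h5 w w' hs
    have h6' := h6 w w' hs
    have h7' := h7 w w' hs
    have h8 : sF (g + Q) (KK B (key w) (fun x => a x w) v) ((Uni B hp.hm).pos v) = ⊤ ↔
        sF (g + Q) (KK B (key w') (fun x => a x w') v) ((Uni B hp.hm).pos v) = ⊤ := by
      have h9 : ∀ w, sF (g + Q) (KK B (key w) (fun x => a x w) v) ((Uni B hp.hm).pos v) = ⊤ ↔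
          (a (frs g Q B v ((Uni B hp.hm).pos v)) w).1 = none := fun w => sm2_top
      rw [h9, h9]
      have h10 : (a (frs g Q B v ((Uni B hp.hm).pos v)) w).1 = (a (frs g Q B v ((Uni B hp.hm).pos v)) w').1 := h5'
      rw [h10]
    show sKap (Z * Q) (g + Q) u c (KK B (key w) (fun x => a x w) v) ((Uni B hp.hm).pos v) =
      sKap (Z * Q) (g + Q) u c (KK B (key w') (fun x => a x w') v) ((Uni B hp.hm).pos v)
    have h6'' : sR (Z * Q) (g + Q) (KK B (key w) (fun x => a x w) v) ((Uni B hp.hm).pos v) =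
      sR (Z * Q) (g + Q) (KK B (key w') (fun x => a x w') v) ((Uni B hp.hm).pos v) := h6'
    have h7'' : sRn (Z * Q) (g + Q) u (KK B (key w) (fun x => a x w) v) ((Uni B hp.hm).pos v) =
      sRn (Z * Q) (g + Q) u (KK B (key w') (fun x => a x w') v) ((Uni B hp.hm).pos v) := h7'
    unfold sKap sHi sLo
    rw [h6'', h7'']
    by_cases h11 : sF (g + Q) (KK B (key w) (fun x => a x w) v) ((Uni B hp.hm).pos v) = ⊤
    · rw [if_pos h11, if_pos (h8.1 h11)]
    · rw [if_neg h11, if_neg (fun h => h11 (h8.2 h))]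
  have hsum : ∀ v w, ∀ n, n ≤ 2 ^ (Z * Q) → ∑ t ∈ Finset.range n,
      (fun v w => sKap (Z * Q) (g + Q) u c (KK B (key w) (fun x => a x w) v) ((Uni B hp.hm).pos v)) ((Uni B hp.hm).nd v t) w =
        sBase (Z * Q) (g + Q) u c (KK B (key w) (fun x => a x w) v) n := by
    intro v w n hn
    unfold sBase
    apply Finset.sum_congr rfl
    intro t ht
    have ht' : t < 2 ^ (Z * Q) := lt_of_lt_of_le (Finset.mem_range.1 ht) hn
    show sKap (Z * Q) (g + Q) u c (KK B (key w) (fun x => a x w) ((Uni B hp.hm).nd v t)) ((Uni B hp.hm).pos ((Uni B hp.hm).nd v t)) = _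
    rw [sm2_nd hp.hm _ _ v ht', (Uni B hp.hm).pos_nd v _ ht']
  have hb : ∀ v w, ∑ t ∈ Finset.range (2 ^ (Z * Q)),
      (fun v w => sKap (Z * Q) (g + Q) u c (KK B (key w) (fun x => a x w) v) ((Uni B hp.hm).pos v)) ((Uni B hp.hm).nd v t) w ≤ 2 ^ (Z * Q) := by
    intro v w
    rw [hsum v w _ le_rfl]
    exact s_N_le (hk w v)
  have e4 := e1.bind (c' := (Z * q) * r0 + (Z * q) * r0) (Ψ := fun P' =>
      (∀ v, M.Knows P' v (fun w => sLo (Z * Q) (g + Q) c (KK B (key w) (fun x => a x w) v) ((Uni B hp.hm).pos v))) ∧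
      (∀ v, M.Knows P' v (fun w => sKap (Z * Q) (g + Q) u c (KK B (key w) (fun x => a x w) v) ((Uni B hp.hm).pos v))) ∧
      (∀ v, M.Knows P' v (fun w => sBase (Z * Q) (g + Q) u c (KK B (key w) (fun x => a x w) v) ((Uni B hp.hm).pos v))) ∧
      ∀ v, M.Knows P' v (fun w => sN (Z * Q) (g + Q) u c (KK B (key w) (fun x => a x w) v))) (fun P1 he1 hP1 => by
    have k1 := e3 P1 he1 (e2 P1 he1 hP1)
    refine (pre hLU hl2 P1 _ k1 hb).bind (fun P2 he2 hP2 => ?_)
    have k2 : ∀ v, M.Knows P2 v _ := fun v => (k1 v).mono he2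
    refine (lsum hLU hl1 P2 _ k2 hb).mono le_rfl (fun P3 he3 hP3 => ⟨?_, ?_, ?_, ?_⟩)
    · intro v
      exact ((((h2 v).mono he1).mono he2).mono he3).comp (fun x => x / c)
    · intro v
      exact (k2 v).mono he3
    · intro v
      refine ((hP2 v).mono he3).triv (fun w => ?_)
      rw [hsum v w _ ((Uni B hp.hm).pos_lt v).le]
    · intro v
      refine (hP3 v).triv (fun w => ?_)
      rw [hsum v w _ le_rfl]
      rfl)
  refine e4.mono ?_ (fun P' _ h => h)
  apply le_of_eq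
  ring

end Pool.Agent.H31.HS
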