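import Mathlib
import Pool.Agent.H31.HS.SM0
import Pool.Agent.H31.HS.SA1
import Pool.Agent.H31.HS.Distr

/-!
# SM3: the units are copied to the pieces

`distr` for `Uni` (`lines_uni`) with `A v w = (((a v w).1, sLo (unit v)), (a v w).2)`, `kp = sKap (unit v)`, `bs = sBase (unit v)` (in a `Uni`-class the unit number runs through all `t`; `sN ≤ 2^(Z*Q)`: `s_N_le`);
cost `5 * (Z*q) * r0`.  For `p = unit of v < sN`, `t = sT p` (`s_T`): the node `u` of the `Uni`-class with unit number `t` has `sBase t ≤ p < sBase t + sKap t = sBase (t+1)`, it is the node with number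
`sT p * 2^(g+Q) + slot v` (`pos_split`, `uni_cls'`).  Local: label `((x, lo), base) ↦ (x, lo + (p - base)) = (x, sJ p)`.  For `sN ≤ p`: `emp`.
Sizes: labels `(x, lo)`: `(S + 1) * W` (`sLo ≤ sR ≤ 2^(Z*Q) < W`).
-/

set_option autoImplicit false

namespace Pool.Agent.H31.HS

variable {V Ω R X : Type} {m g Q Z k n q gl r0 u s e c c1 Lam W S : ℕ}

theorem sm_copy {M : Mach V Ω R} {B : Blk V m} (hp : SPar m g Q Z k q gl u s e c c1 Lam W S) (hL : Lines M Lam B k n r0)
    {key : Ω → X × Option R → ℕ} (P : M.Pl) (a : V → Ω → Option X × Option R) (hs : Sm S a) (ha : ∀ v, M.Has P v (a v))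
    (hk : ∀ w v, SK (Z * Q) (g + Q) u s c Q e (KK B (key w) (fun x => a x w) v))
    (h1 : ∀ v, M.Knows P v (fun w => sLo (Z * Q) (g + Q) c (KK B (key w) (fun x => a x w) v) ((Uni B hp.hm).pos v)))
    (h2 : ∀ v, M.Knows P v (fun w => sKap (Z * Q) (g + Q) u c (KK B (key w) (fun x => a x w) v) ((Uni B hp.hm).pos v)))
    (h3 : ∀ v, M.Knows P v (fun w => sBase (Z * Q) (g + Q) u c (KK B (key w) (fun x => a x w) v) ((Uni B hp.hm).pos v))) :
    M.Do (5 * (Z * q) * r0) P (fun P' => ∃ b : V → Ω → Option (Option X × ℕ) × Option R, (∀ v, M.Has P' v (b v)) ∧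
      ∀ w v, ((Uni B hp.hm).pos v < sN (Z * Q) (g + Q) u c (KK B (key w) (fun x => a x w) v) →
        b v w = (some ((a (B.nd v (sT (Z * Q) (g + Q) u c (KK B (key w) (fun x => a x w) v) ((Uni B hp.hm).pos v) * 2 ^ (g + Q) +
            (Slot B hp.hm).pos v)) w).1, sJ (Z * Q) (g + Q) u c (KK B (key w) (fun x => a x w) v) ((Uni B hp.hm).pos v)),
          (a (B.nd v (sT (Z * Q) (g + Q) u c (KK B (key w) (fun x => a x w) v) ((Uni B hp.hm).pos v) * 2 ^ (g + Q) +
            (Slot B hp.hm).pos v)) w).2)) ∧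
        (sN (Z * Q) (g + Q) u c (KK B (key w) (fun x => a x w) v) ≤ (Uni B hp.hm).pos v → b v w = emp)) := by
  have hcls : ∀ v t, t < 2 ^ (Z * Q) → B.cls v ((Uni B hp.hm).nd v t) := fun v t ht =>
    (uni_cls' B hp.hm ((Uni B hp.hm).cls_nd v ht)).1
  have hKK : ∀ w v t, t < 2 ^ (Z * Q) →
      KK B (key w) (fun x => a x w) ((Uni B hp.hm).nd v t) = KK B (key w) (fun x => a x w) v :=
    fun w v t ht => (KK_cls B (key w) (fun x => a x w) (hcls v t ht)).symm
  have hWz : 2 ^ (Z * Q) < W := by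
    refine lt_of_le_of_lt (Nat.pow_le_pow_right (by norm_num) ?_) hp.hW
    have := hp.hm
    omega
  have hW1 : 1 < W := lt_of_le_of_lt Nat.one_le_two_pow hWz
  have hlo : ∀ v w, sLo (Z * Q) (g + Q) c (KK B (key w) (fun x => a x w) v) ((Uni B hp.hm).pos v) < W := by
    intro v w
    refine lt_of_le_of_lt ?_ hWz
    unfold sLo sR
    refine (Nat.div_le_self _ _).trans ?_
    refine (Finset.card_filter_le _ _).trans ?_
    rw [Finset.card_range]
  have hSz : Sz ((S + 1) * W) (fun v w => (((a v w).1, sLo (Z * Q) (g + Q) c (KK B (key w) (fun x => a x w) v)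
      ((Uni B hp.hm).pos v)) : Option X × ℕ)) := (Sm.sz hs).prod (Sz.nat hlo)
  have hLam : (S + 1) * W * W ^ 4 ≤ Lam := by
    refine le_trans ?_ hp.hl
    have h4 : (S + 1) * W * W ^ 4 ≤ (S * W) * W * W ^ 4 := by
      refine Nat.mul_le_mul_right _ (Nat.mul_le_mul_right _ ?_)
      have h5 := hp.hS
      nlinarith
    refine h4.trans ?_
    have h6 : (S * W) * W * W ^ 4 = S * W ^ 6 := by ring
    rw [h6]
    exact Nat.mul_le_mul_left _ (Nat.pow_le_pow_right (by omega) (by norm_num))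
  have hbs : ∀ v w, sBase (Z * Q) (g + Q) u c (KK B (key w) (fun x => a x w) v) ((Uni B hp.hm).pos v) =
      ∑ t ∈ Finset.range ((Uni B hp.hm).pos v), sKap (Z * Q) (g + Q) u c
        (KK B (key w) (fun x => a x w) ((Uni B hp.hm).nd v t)) ((Uni B hp.hm).pos ((Uni B hp.hm).nd v t)) := by
    intro v w
    unfold sBase
    refine Finset.sum_congr rfl fun t ht => ?_
    have ht' := (Finset.mem_range.1 ht).trans ((Uni B hp.hm).pos_lt v)
    rw [hKK w v t ht', (Uni B hp.hm).pos_nd v t ht']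
  have hsumN : ∀ v w, ∑ t ∈ Finset.range (2 ^ (Z * Q)), sKap (Z * Q) (g + Q) u c
        (KK B (key w) (fun x => a x w) ((Uni B hp.hm).nd v t)) ((Uni B hp.hm).pos ((Uni B hp.hm).nd v t)) =
      sN (Z * Q) (g + Q) u c (KK B (key w) (fun x => a x w) v) := by
    intro v w
    unfold sN sBase
    refine Finset.sum_congr rfl fun t ht => ?_
    have ht' := Finset.mem_range.1 ht
    rw [hKK w v t ht', (Uni B hp.hm).pos_nd v t ht']
  refine (distr (lines_uni hp.hm hL hp.hQ hp.hg) hWz (by nlinarith) hLam P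
    (fun v w => ((((a v w).1, sLo (Z * Q) (g + Q) c (KK B (key w) (fun x => a x w) v)
      ((Uni B hp.hm).pos v)) : Option X × ℕ), (a v w).2)) hSz
    (fun v => ⟨(ha v).1.comp2 (h1 v) (fun x l => ((x.1, l), x.2)), (ha v).2⟩)
    (fun v w => sKap (Z * Q) (g + Q) u c (KK B (key w) (fun x => a x w) v) ((Uni B hp.hm).pos v))
    (fun v w => sBase (Z * Q) (g + Q) u c (KK B (key w) (fun x => a x w) v) ((Uni B hp.hm).pos v))
    h2 h3 hbs (fun v w => by rw [hsumN v w]; exact s_N_le (hk w v))).mono le_rfl ?_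
  rintro P' _ ⟨b, hb1, hb2⟩
  refine ⟨fun v w => ((b v w).1.map (fun t => (t.1.1, t.1.2 + ((Uni B hp.hm).pos v - t.2))), (b v w).2),
    fun v => ⟨(hb1 v).1.comp (fun y => (y.1.map (fun t => (t.1.1, t.1.2 + ((Uni B hp.hm).pos v - t.2))), y.2)),
      (hb1 v).2⟩, fun w v => ⟨?_, ?_⟩⟩
  · intro hlt
    obtain ⟨q1, q2, q3, _⟩ := s_T ((Uni B hp.hm).pos v) hlt
    obtain ⟨T, hT⟩ : ∃ T, T = sT (Z * Q) (g + Q) u c (KK B (key w) (fun x => a x w) v) ((Uni B hp.hm).pos v) := ⟨_, rfl⟩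
    rw [← hT] at q1 q2 q3
    have hu := (uni_cls' B hp.hm ((Uni B hp.hm).cls_nd v q1))
    have hnd : B.nd v (T * 2 ^ (g + Q) + (Slot B hp.hm).pos v) = (Uni B hp.hm).nd v T := by
      have e1 := pos_split B hp.hm ((Uni B hp.hm).nd v T)
      rw [(Uni B hp.hm).pos_nd v T q1, ← hu.2] at e1
      rw [← e1]
      exact hu.1
    have hb3 := (hb2 w v).1 ((Uni B hp.hm).nd v T) ((Uni B hp.hm).cls_nd v q1)
      (by
        show sBase _ _ _ _ (KK B (key w) (fun x => a x w) ((Uni B hp.hm).nd v T)) ((Uni B hp.hm).pos ((Uni B hp.hm).nd v T)) ≤ _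
        rw [hKK w v T q1, (Uni B hp.hm).pos_nd v T q1]
        exact q2)
      (by
        show _ < sBase _ _ _ _ (KK B (key w) (fun x => a x w) ((Uni B hp.hm).nd v T)) ((Uni B hp.hm).pos ((Uni B hp.hm).nd v T)) +
          sKap _ _ _ _ (KK B (key w) (fun x => a x w) ((Uni B hp.hm).nd v T)) ((Uni B hp.hm).pos ((Uni B hp.hm).nd v T))
        rw [hKK w v T q1, (Uni B hp.hm).pos_nd v T q1]
        refine lt_of_lt_of_eq q3 ?_
        unfold sBase
        exact Finset.sum_range_succ _ _)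
    rw [← hT, hnd]
    show ((b v w).1.map (fun t => (t.1.1, t.1.2 + ((Uni B hp.hm).pos v - t.2))), (b v w).2) = _
    rw [hb3]
    show (some ((a ((Uni B hp.hm).nd v T) w).1, sLo (Z * Q) (g + Q) c
        (KK B (key w) (fun x => a x w) ((Uni B hp.hm).nd v T)) ((Uni B hp.hm).pos ((Uni B hp.hm).nd v T)) +
        ((Uni B hp.hm).pos v - sBase (Z * Q) (g + Q) u c (KK B (key w) (fun x => a x w) ((Uni B hp.hm).nd v T))
          ((Uni B hp.hm).pos ((Uni B hp.hm).nd v T)))), (a ((Uni B hp.hm).nd v T) w).2) = _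
    rw [hKK w v T q1, (Uni B hp.hm).pos_nd v T q1]
    unfold sJ
    rw [← hT]
  · intro hle
    have hb3 := (hb2 w v).2 (by
      show ∑ t ∈ Finset.range (2 ^ (Z * Q)), sKap (Z * Q) (g + Q) u c
        (KK B (key w) (fun x => a x w) ((Uni B hp.hm).nd v t)) ((Uni B hp.hm).pos ((Uni B hp.hm).nd v t)) ≤ _
      rw [hsumN v w]
      exact hle)
    show ((b v w).1.map (fun t => (t.1.1, t.1.2 + ((Uni B hp.hm).pos v - t.2))), (b v w).2) = _
    rw [hb3]
    rfl

end Pool.Agent.H31.HS
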