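import Mathlib
import Pool.Agent.H31.HS.SM0
import Pool.Agent.H31.HS.SA1
import Pool.Agent.H31.HS.Bfx
import Pool.Agent.H31.HS.Sums

/-!
# SM4: the target `sD` is known

`f v w` = `some (sJ p)` if `p = unit v < sN`, else `none`; known.  `bfx` for `Uni`, `Ext` with the item `(f v w, none)`: `v` knows `f` at the unit `e = Ext.pos v` (cost `Z*q*r0`).  `h v w = 1` if `f_e = f_p ≠ none` and `e < p`;
`lsum` for `Ext`: `sM p` (for `p < sN`: the number of `e < p` with `sJ e = sJ p`; all `e < p` are `< sN`), cost `Z*q*r0`.  Then `sD` is a function of `f v w` and this number.  Sizes: `f` has at most `2^(Z*Q) + 1 ≤ W` values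
(`s_J_lt`), sums `≤ 2^(Z*Q)`.
-/

set_option autoImplicit false

namespace Pool.Agent.H31.HS

variable {V Ω R X : Type} {m g Q Z k n q gl r0 u s e c c1 Lam W S : ℕ}

/-- the item of the region -/
private noncomputable def s4F (B : Blk V m) (g Q Z u c : ℕ) (hm : m = g + Q + Z * Q) (key : Ω → X × Option R → ℕ)
    (a : V → Ω → Option X × Option R) (v : V) (w : Ω) : Option ℕ :=
  if (Uni B hm).pos v < sN (Z * Q) (g + Q) u c (KK B (key w) (fun x => a x w) v)
      then some (sJ (Z * Q) (g + Q) u c (KK B (key w) (fun x => a x w) v) ((Uni B hm).pos v)) else none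

private theorem s4_cls (B : Blk V m) (hm : m = g + Q + Z * Q) {v v' : V} (h : (Uni B hm).cls v v') : B.cls v v' :=
  (uni_cls' B hm h).1

theorem sm_delta {M : Mach V Ω R} {B : Blk V m} (hp : SPar m g Q Z k q gl u s e c c1 Lam W S) (hL : Lines M Lam B k n r0)
    {key : Ω → X × Option R → ℕ} (P : M.Pl) (a : V → Ω → Option X × Option R)
    (hk : ∀ w v, SK (Z * Q) (g + Q) u s c Q e (KK B (key w) (fun x => a x w) v))
    (h1 : ∀ v, M.Knows P v (fun w => if (Uni B hp.hm).pos v < sN (Z * Q) (g + Q) u c (KK B (key w) (fun x => a x w) v)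
      then some (sJ (Z * Q) (g + Q) u c (KK B (key w) (fun x => a x w) v) ((Uni B hp.hm).pos v)) else none)) :
    M.Do (2 * (Z * q) * r0) P (fun P' => ∀ v, M.Knows P' v (fun w =>
      sD (Z * Q) (g + Q) u c s (KK B (key w) (fun x => a x w) v) ((Uni B hp.hm).pos v))) := by
  classical
  have hm := hp.hm
  have hZQ : 2 ^ (Z * Q) + 1 ≤ W := by
    have h2 : 2 ^ (Z * Q) ≤ 2 ^ m := Nat.pow_le_pow_right (by norm_num) (by omega)
    have := hp.hW
    omega
  have hWL : W ≤ Lam := by
    refine le_trans ?_ hp.hl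
    have h2 : 1 ≤ W := le_trans (Nat.le_add_left 1 _) hZQ
    calc W = 1 * W ^ 1 := by ring
      _ ≤ S * W ^ 10 := Nat.mul_le_mul hp.hS (Nat.pow_le_pow_right h2 (by norm_num))
  have hWL' : W + 1 ≤ Lam := by
    refine le_trans ?_ hp.hl
    have h3 : 2 ≤ W := by
      have h4 : 1 ≤ 2 ^ (Z * Q) := Nat.one_le_two_pow
      exact le_trans (Nat.add_le_add_right h4 1) hZQ
    calc W + 1 ≤ W + W := Nat.add_le_add_left (by omega) W
      _ = W * 2 := by ring
      _ ≤ W * W := Nat.mul_le_mul_left _ h3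
      _ = 1 * W ^ 2 := by ring
      _ ≤ S * W ^ 10 := Nat.mul_le_mul hp.hS (Nat.pow_le_pow_right (by omega) (by norm_num))
  obtain ⟨F, hF⟩ : ∃ F : V → Ω → Option ℕ, F = s4F B g Q Z u c hp.hm key a := ⟨_, rfl⟩
  have hFk : ∀ v, M.Knows P v (F v) := by
    intro v
    rw [hF]
    exact h1 v
  -- values
  have hKc : ∀ {v v' : V} (w : Ω), B.cls v v' → KK B (key w) (fun x => a x w) v = KK B (key w) (fun x => a x w) v' :=
    fun w h => KK_cls B (key w) (fun x => a x w) h
  have hFv : ∀ v w, F v w = if (Uni B hp.hm).pos v < sN (Z * Q) (g + Q) u c (KK B (key w) (fun x => a x w) v)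
      then some (sJ (Z * Q) (g + Q) u c (KK B (key w) (fun x => a x w) v) ((Uni B hp.hm).pos v)) else none := by
    intro v w
    rw [hF]
    rfl
  have hFc : ∀ v v' w, B.cls v v' → (Uni B hp.hm).pos v = (Uni B hp.hm).pos v' → F v w = F v' w := by
    intro v v' w h1 h2
    rw [hFv, hFv, hKc w h1, h2]
  have hsz : Sz W (fun v w => ((F v w, (none : Option R)) : Option ℕ × Option R).1) := by
    refine ⟨insert none ((Finset.range (2 ^ (Z * Q))).image some), ?_, fun v w => ?_⟩
    · refine (Finset.card_insert_le _ _).trans ?_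
      have h3 : ((Finset.range (2 ^ (Z * Q))).image (some : ℕ → Option ℕ)).card ≤ (Finset.range (2 ^ (Z * Q))).card :=
        Finset.card_image_le
      rw [Finset.card_range] at h3
      omega
    · show F v w ∈ _
      rw [hFv]
      split_ifs with h
      · refine Finset.mem_insert_of_mem (Finset.mem_image_of_mem some (Finset.mem_range.2 ?_))
        refine (s_J_lt (hk w v) _ h).trans_le ?_
        exact Nat.pow_le_pow_right (by norm_num) (Nat.sub_le _ _)
      · exact Finset.mem_insert_self _ _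
  have hLu := lines_uni (B := B) hp.hm hL hp.hQ hp.hg
  have hLe := lines_ext (B := B) hp.hm hp.hgz hL hp.hQ hp.hg
  have hC := comm_uni_ext B hp.hm hp.hgz
  have e0 : 2 * (Z * q) * r0 = Z * q * r0 + Z * q * r0 := by ring
  rw [e0]
  refine Mach.Do.bind (bfx hC hLu (S := W) (by omega) P (fun v w => (F v w, (none : Option R))) hsz
    (fun v => (hFk v).has)) ?_
  intro P' hext hP'
  have hE1 : ∀ v, M.Knows P' v (fun w => F ((Uni B hp.hm).nd v ((Ext B hp.hm hp.hgz).pos v)) w) :=
    fun v => (hP' v).label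
  have hFk' : ∀ v, M.Knows P' v (F v) := fun v => (hFk v).mono hext
  obtain ⟨f2, hf2⟩ : ∃ f2 : V → Ω → ℕ, ∀ v w, f2 v w =
      if (F ((Uni B hp.hm).nd v ((Ext B hp.hm hp.hgz).pos v)) w = F v w ∧ F v w ≠ none) ∧
        (Ext B hp.hm hp.hgz).pos v < (Uni B hp.hm).pos v then 1 else 0 := ⟨_, fun _ _ => rfl⟩
  have hf2k : ∀ v, M.Knows P' v (f2 v) := by
    intro v
    have h3 := (hE1 v).comp2 (hFk' v) (fun x y => if (x = y ∧ y ≠ none) ∧
      (Ext B hp.hm hp.hgz).pos v < (Uni B hp.hm).pos v then 1 else 0)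
    have h4 : f2 v = fun w => if (F ((Uni B hp.hm).nd v ((Ext B hp.hm hp.hgz).pos v)) w = F v w ∧ F v w ≠ none) ∧
        (Ext B hp.hm hp.hgz).pos v < (Uni B hp.hm).pos v then 1 else 0 := funext fun w => hf2 v w
    rw [h4]
    exact h3
  have hf2b : ∀ v w, ∑ t ∈ Finset.range (2 ^ (Z * Q)), f2 ((Ext B hp.hm hp.hgz).nd v t) w ≤ 2 ^ (Z * Q) := by
    intro v w
    calc ∑ t ∈ Finset.range (2 ^ (Z * Q)), f2 ((Ext B hp.hm hp.hgz).nd v t) w
        ≤ ∑ _t ∈ Finset.range (2 ^ (Z * Q)), 1 := by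
          refine Finset.sum_le_sum fun t _ => ?_
          rw [hf2]
          split_ifs <;> omega
      _ = 2 ^ (Z * Q) := by simp
  refine (lsum hLe (Bd := 2 ^ (Z * Q)) (by omega) P' f2 hf2k hf2b).mono le_rfl ?_
  intro P'' hext' hP'' v
  have hcount : ∀ w, F v w ≠ none → ∑ t ∈ Finset.range (2 ^ (Z * Q)), f2 ((Ext B hp.hm hp.hgz).nd v t) w =
      sM (Z * Q) (g + Q) u c (KK B (key w) (fun x => a x w) v) ((Uni B hp.hm).pos v) := by
    intro w hne
    have hpl : (Uni B hp.hm).pos v < sN (Z * Q) (g + Q) u c (KK B (key w) (fun x => a x w) v) := by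
      by_contra h
      rw [hFv, if_neg h] at hne
      exact hne rfl
    have hFp : F v w = some (sJ (Z * Q) (g + Q) u c (KK B (key w) (fun x => a x w) v) ((Uni B hp.hm).pos v)) := by
      rw [hFv, if_pos hpl]
    have hlt := (Uni B hp.hm).pos_lt v
    have hterm : ∀ t ∈ Finset.range (2 ^ (Z * Q)), f2 ((Ext B hp.hm hp.hgz).nd v t) w =
        if t < (Uni B hp.hm).pos v ∧ sJ (Z * Q) (g + Q) u c (KK B (key w) (fun x => a x w) v) t =
          sJ (Z * Q) (g + Q) u c (KK B (key w) (fun x => a x w) v) ((Uni B hp.hm).pos v) then 1 else 0 := by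
      intro t ht
      rw [Finset.mem_range] at ht
      have c1 := (Ext B hp.hm hp.hgz).cls_nd v ht
      obtain ⟨c2, c3⟩ := ext_cls B hp.hm hp.hgz c1
      have c4 : (Ext B hp.hm hp.hgz).pos ((Ext B hp.hm hp.hgz).nd v t) = t := (Ext B hp.hm hp.hgz).pos_nd v t ht
      have c5 : F ((Ext B hp.hm hp.hgz).nd v t) w = F v w := (hFc _ _ w c2 c3).symm
      have c6 := (Uni B hp.hm).cls_nd ((Ext B hp.hm hp.hgz).nd v t) ht
      have c7 : B.cls v ((Uni B hp.hm).nd ((Ext B hp.hm hp.hgz).nd v t) t) :=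
        B.cls_trans c2 (s4_cls B hp.hm c6)
      have c8 : (Uni B hp.hm).pos ((Uni B hp.hm).nd ((Ext B hp.hm hp.hgz).nd v t) t) = t :=
        (Uni B hp.hm).pos_nd _ t ht
      rw [hf2, c4, ← c3, c5]
      have c9 : F ((Uni B hp.hm).nd ((Ext B hp.hm hp.hgz).nd v t) t) w =
          if t < sN (Z * Q) (g + Q) u c (KK B (key w) (fun x => a x w) v)
          then some (sJ (Z * Q) (g + Q) u c (KK B (key w) (fun x => a x w) v) t) else none := by
        rw [hFv, c8, ← hKc w c7]
      rw [c9, hFp]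
      by_cases h : t < (Uni B hp.hm).pos v
      · rw [if_pos (h.trans hpl)]
        by_cases h' : sJ (Z * Q) (g + Q) u c (KK B (key w) (fun x => a x w) v) t =
          sJ (Z * Q) (g + Q) u c (KK B (key w) (fun x => a x w) v) ((Uni B hp.hm).pos v)
        · rw [if_pos ⟨⟨by rw [h'], by simp⟩, h⟩, if_pos ⟨h, h'⟩]
        · rw [if_neg (fun h3 => h' (Option.some.inj h3.1.1)), if_neg (fun h3 => h' h3.2)]
      · rw [if_neg (fun h3 => h h3.2), if_neg (fun h3 => h h3.1)]
    rw [Finset.sum_congr rfl hterm, ← Finset.sum_filter, Finset.sum_const, smul_eq_mul, mul_one]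
    unfold sM
    congr 1
    ext t
    simp only [Finset.mem_filter, Finset.mem_range]
    constructor
    · rintro ⟨_, h2, h3⟩
      exact ⟨h2, h3⟩
    · rintro ⟨h2, h3⟩
      exact ⟨h2.trans hlt, h2, h3⟩
  have h5 := ((hFk' v).mono hext').comp2 (hP'' v) (fun x y => match x with
    | none => (none : Option ℕ)
    | some j => some (j * 2 ^ s + rev s y))
  have h6 : (fun w => sD (Z * Q) (g + Q) u c s (KK B (key w) (fun x => a x w) v) ((Uni B hp.hm).pos v)) =
      fun w => (fun (x : Option ℕ) (y : ℕ) => match x with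
        | none => (none : Option ℕ)
        | some j => some (j * 2 ^ s + rev s y)) (F v w)
        (∑ t ∈ Finset.range (2 ^ (Z * Q)), f2 ((Ext B hp.hm hp.hgz).nd v t) w) := by
    funext w
    unfold sD
    by_cases h : (Uni B hp.hm).pos v < sN (Z * Q) (g + Q) u c (KK B (key w) (fun x => a x w) v)
    · have hFp : F v w = some (sJ (Z * Q) (g + Q) u c (KK B (key w) (fun x => a x w) v) ((Uni B hp.hm).pos v)) := by
        rw [hFv, if_pos h]
      have hne : F v w ≠ none := by
        rw [hFp]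
        simp
      rw [if_pos h, hcount w hne, hFp]
    · have hFp : F v w = none := by
        rw [hFv, if_neg h]
      rw [if_neg h, hFp]
  rw [h6]
  exact h5

end Pool.Agent.H31.HS
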