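import Mathlib
import Pool.Agent.H31.HS.SM1
import Pool.Agent.H31.HS.SM2
import Pool.Agent.H31.HS.SM3
import Pool.Agent.H31.HS.SM4
import Pool.Agent.H31.HS.RWR

/-!
# SM5: routing of the pieces

The lowest `r = k * ρ` bits are replicas: `B' = B.bits r (m-r)` (`lines_bits`, `m - r = k * (n - ρ)`), `g' = g - r`, `RB = B.bits 0 r` (commutes with `B'`: `comm_bits_bits`).  `Uni B' hm' = Uni B hm` (`bits_bits`, `r + (g - r + Q) = g + Q`;
or `Blk.ext'`), classes of `B'` are contained in classes of `B`; so `sd_ok` for `B` gives `DlOK B' hm' c1 δ`.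
`sm_copy`: array `b`; `sm_delta` (its hypothesis: the label of `b`: `sJ` if `b` is not empty): `δ v w = sD .. (unit v)` known.  `wide_routeR` for `B'` with the content `a5 v w` = (label `x`, record) of
`b v w = (some (x, j), rec)`, `emp` for `emp` (labels: `x : Option X`, `Sm S`); `δ` is constant on `RB`-classes (same class of `B`, same unit number, `KK_cls`); result `c7` with `WRSpec`.  For `p < sN` with `sD p = some (unit v)`:
the node `(Uni B _).nd v p` has unit `p` and the slot number of `v` (`uni_cls'`), so `c7 v = a5 (..) = a (B.nd v (sT p * 2^(g+Q) + slot v))`.  If no piece has the target `unit v`: `emp` (`sD p = some _` implies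
`p < sN ≤ 2^(Z*Q)`).  Costs: `5*(Z*q) + 2*(Z*q) + 40*(n-ρ) ≤ 47*n` (`n = gl + q + Z*q`), and `Z * S2`.
-/

set_option autoImplicit false

namespace Pool.Agent.H31.HS

variable {V Ω R X : Type} {m g Q Z k n q gl r0 r ρ u s e c c1 Lam W S S2 : ℕ}

private theorem sm5_nd (B : Blk V m) {v u : V} (h : B.cls v u) (t : ℕ) : B.nd u t = B.nd v t := by
  rw [← B.nd_mod u t, ← B.nd_mod v t]
  exact B.nd_of_cls h (Nat.mod_lt _ (by positivity))

private theorem sm5_n (hp : SPar m g Q Z k q gl u s e c c1 Lam W S) (hk : 1 ≤ k) (hm : m = k * n) : n = gl + q + Z * q := by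
  have h1 := hp.hm
  have h2 := hp.hQ
  have h3 := hp.hg
  have h4 : k * n = k * (gl + q + Z * q) := by
    rw [← hm, h1, h3, h2]
    ring
  exact Nat.eq_of_mul_eq_mul_left (by omega) h4

private theorem sm5_cast (B : Blk V m) {a b l : ℕ} (e : a = b) (ha : a + l ≤ m) (hb : b + l ≤ m) :
    B.bits a l ha = B.bits b l hb := by
  subst e
  rfl

private theorem sm5_uni (B : Blk V m) (hm : m = g + Q + Z * Q) (hr : r ≤ g) (hb : r + (m - r) ≤ m)
    (hm' : m - r = g - r + Q + Z * Q) : Uni (B.bits r (m - r) hb) hm' = Uni B hm := by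
  unfold Uni
  rw [bits_bits B hb (by omega) (show r + (g - r + Q) + Z * Q ≤ m by omega)]
  exact sm5_cast B (by omega) _ _

private theorem sm5_lines {M : Mach V Ω R} {B : Blk V m} (hL : Lines M Lam B k n r0) (hr : r = k * ρ) (hρ : ρ ≤ n)
    (hb : r + (m - r) ≤ m) : Lines M Lam (B.bits r (m - r) hb) k (n - ρ) r0 := by
  have hm := hL.hm
  have h1 : m - r = k * (n - ρ) := by
    rw [hm, hr, Nat.mul_sub]
  have h2 : ∀ (x y : ℕ) (h : x + y ≤ m), x = k * ρ → y = k * (n - ρ) → Lines M Lam (B.bits x y h) k (n - ρ) r0 := by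
    intro x y h hx hy
    subst hx hy
    exact lines_bits hL (by omega) h
  exact h2 r (m - r) hb hr h1

private theorem sm5_ok {c1 : ℕ} {B : Blk V m} (hm : m = g + Q + Z * Q) (hr : r ≤ g) (hb : r + (m - r) ≤ m)
    (hm' : m - r = g - r + Q + Z * Q) {δ : V → Option ℕ} (h : DlOK B hm c1 δ) : DlOK (B.bits r (m - r) hb) hm' c1 δ := by
  have hU := sm5_uni B hm hr hb hm'
  constructor
  · intro v u hc hp
    rw [hU] at hp
    exact h.unit v u ((bits_cls B hb v u).1 hc).1 hp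
  · exact h.lt
  · intro v u e hc h1 h2
    rw [hU]
    exact h.inj v u e ((bits_cls B hb v u).1 hc).1 h1 h2
  · intro v
    have h1 : dl (B.bits r (m - r) hb) hm' δ v = dl B hm δ v := by
      unfold dl
      rw [hU]
    rw [h1]
    exact h.dens v

private theorem sm5_spec {B : Blk V m} (hm : m = g + Q + Z * Q) (hr : r ≤ g) (hb : r + (m - r) ≤ m)
    (hm' : m - r = g - r + Q + Z * Q) {δ : V → Option ℕ} {a b : V → Option X × Option R} {v : V}
    (h : WRSpec (B.bits r (m - r) hb) hm' δ a b v) : WRSpec B hm δ a b v := by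
  have hU := sm5_uni B hm hr hb hm'
  unfold WRSpec at h ⊢
  rw [hU] at h
  exact h

theorem sm_route {M : Mach V Ω R} {B : Blk V m} (hp : SPar m g Q Z k q gl u s e c c1 Lam W S) (hL : Lines M Lam B k n r0)
    (hr : r = k * ρ) (hgr : 2 * (Z * Q) + r ≤ g) (hb : r + (m - r) ≤ m) (hb0 : 0 + r ≤ m) (hm' : m - r = g - r + Q + Z * Q)
    (hPS : ∀ jj (hj : jj < Z), CanR M (S * W ^ 4) (Pln (B.bits r (m - r) hb) hm' jj hj) (B.bits 0 r hb0)
      (fun o => RevPat (Bal (B.bits r (m - r) hb) hm') c1 o) S2)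
    {key : Ω → X × Option R → ℕ} (P : M.Pl) (a : V → Ω → Option X × Option R) (hs : Sm S a) (ha : ∀ v, M.Has P v (a v))
    (hk : ∀ w v, SK (Z * Q) (g + Q) u s c Q e (KK B (key w) (fun x => a x w) v))
    (h1 : ∀ v, M.Knows P v (fun w => sLo (Z * Q) (g + Q) c (KK B (key w) (fun x => a x w) v) ((Uni B hp.hm).pos v)))
    (h2 : ∀ v, M.Knows P v (fun w => sKap (Z * Q) (g + Q) u c (KK B (key w) (fun x => a x w) v) ((Uni B hp.hm).pos v)))
    (h3 : ∀ v, M.Knows P v (fun w => sBase (Z * Q) (g + Q) u c (KK B (key w) (fun x => a x w) v) ((Uni B hp.hm).pos v))) :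
    M.Do (Z * S2 + 47 * n * r0) P (fun P' => ∃ b : V → Ω → Option X × Option R, (∀ v, M.Has P' v (b v)) ∧
      ∀ w v, (∀ p, sD (Z * Q) (g + Q) u c s (KK B (key w) (fun x => a x w) v) p = some ((Uni B hp.hm).pos v) →
        b v w = a (B.nd v (sT (Z * Q) (g + Q) u c (KK B (key w) (fun x => a x w) v) p * 2 ^ (g + Q) + (Slot B hp.hm).pos v)) w) ∧
        ((∀ p, sD (Z * Q) (g + Q) u c s (KK B (key w) (fun x => a x w) v) p ≠ some ((Uni B hp.hm).pos v)) → b v w = emp)) := by
  have hn := sm5_n hp hL.hk hL.hm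
  have hW1 : 1 ≤ W := by
    have h4 := hp.hW
    have h5 : 1 ≤ 2 ^ m := Nat.one_le_two_pow
    omega
  have hl8 : S * W ^ 8 ≤ Lam :=
    (Nat.mul_le_mul_left S (Nat.pow_le_pow_right hW1 (by norm_num))).trans hp.hl
  have hcost : 5 * (Z * q) * r0 + (2 * (Z * q) * r0 + (Z * S2 + 40 * n * r0)) ≤ Z * S2 + 47 * n * r0 := by
    have h4 : Z * q ≤ n := by omega
    have h5 : Z * q * r0 ≤ n * r0 := Nat.mul_le_mul_right _ h4
    have e1 : 5 * (Z * q) * r0 = 5 * (Z * q * r0) := by ring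
    have e2 : 2 * (Z * q) * r0 = 2 * (Z * q * r0) := by ring
    have e3 : 40 * n * r0 = 40 * (n * r0) := by ring
    have e4 : 47 * n * r0 = 47 * (n * r0) := by ring
    rw [e1, e2, e3, e4]
    omega
  refine Mach.Do.mono (Mach.Do.bind (sm_copy hp hL P a hs ha hk h1 h2 h3) ?_) hcost (fun _ _ h => h)
  rintro P1 hP1 ⟨b, hbb, hbs⟩
  have hd1 : ∀ v, M.Knows P1 v (fun w => if (Uni B hp.hm).pos v < sN (Z * Q) (g + Q) u c (KK B (key w) (fun x => a x w) v)
      then some (sJ (Z * Q) (g + Q) u c (KK B (key w) (fun x => a x w) v) ((Uni B hp.hm).pos v)) else none) := by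
    intro v
    have h4 := (hbb v).label.comp (fun o => o.map Prod.snd)
    have h5 : (fun w => (b v w).1.map Prod.snd) = (fun w => if (Uni B hp.hm).pos v < sN (Z * Q) (g + Q) u c (KK B (key w) (fun x => a x w) v)
      then some (sJ (Z * Q) (g + Q) u c (KK B (key w) (fun x => a x w) v) ((Uni B hp.hm).pos v)) else none) := by
      funext w
      obtain ⟨q1, q2⟩ := hbs w v
      by_cases h6 : (Uni B hp.hm).pos v < sN (Z * Q) (g + Q) u c (KK B (key w) (fun x => a x w) v)
      · rw [q1 h6, if_pos h6]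
        rfl
      · rw [q2 (not_lt.1 h6), if_neg h6]
        rfl
    rw [← h5]
    exact h4
  refine Mach.Do.bind (sm_delta hp hL P1 a hk hd1) ?_
  intro P2 hP2 hδ
  -- the content
  obtain ⟨a5, ha5⟩ : ∃ a5 : V → Ω → Option X × Option R, a5 = fun v w => ((b v w).1.bind Prod.fst, (b v w).2) := ⟨_, rfl⟩
  have ha5v : ∀ w v, ((Uni B hp.hm).pos v < sN (Z * Q) (g + Q) u c (KK B (key w) (fun x => a x w) v) →
        a5 v w = a (B.nd v (sT (Z * Q) (g + Q) u c (KK B (key w) (fun x => a x w) v) ((Uni B hp.hm).pos v) * 2 ^ (g + Q) +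
            (Slot B hp.hm).pos v)) w) ∧
        (sN (Z * Q) (g + Q) u c (KK B (key w) (fun x => a x w) v) ≤ (Uni B hp.hm).pos v → a5 v w = emp) := by
    intro w v
    obtain ⟨q1, q2⟩ := hbs w v
    constructor
    · intro h6
      rw [ha5]
      show ((b v w).1.bind Prod.fst, (b v w).2) = _
      rw [q1 h6]
      rfl
    · intro h6
      rw [ha5]
      show ((b v w).1.bind Prod.fst, (b v w).2) = _
      rw [q2 h6]
      rfl
  have hs5 : Sm S a5 := by
    refine hs.of_range fun v w => ?_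
    rcases Nat.lt_or_ge ((Uni B hp.hm).pos v) (sN (Z * Q) (g + Q) u c (KK B (key w) (fun x => a x w) v)) with h6 | h6
    · exact Or.inr ⟨_, w, (ha5v w v).1 h6⟩
    · left
      rw [(ha5v w v).2 h6]
      rfl
  have hH5 : ∀ v, M.Has P2 v (a5 v) := by
    intro v
    have h4 := ((hbb v).mono hP2).map (fun o => o.bind Prod.fst)
    rw [ha5]
    exact h4
  have hrg : r ≤ g := by omega
  have hρ : ρ ≤ gl := by
    have h4 : k * ρ ≤ k * gl := by
      rw [← hr, ← hp.hg]
      exact hrg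
    exact Nat.le_of_mul_le_mul_left h4 hL.hk
  have hcost2 : Z * S2 + 40 * (n - ρ) * r0 ≤ Z * S2 + 40 * n * r0 := by
    have h4 : 40 * (n - ρ) * r0 ≤ 40 * n * r0 := Nat.mul_le_mul_right _ (by omega)
    omega
  have hRU : ∀ v x, (B.bits 0 r hb0).cls v x → (Uni B hp.hm).pos v = (Uni B hp.hm).pos x := by
    intro v x hc
    rw [pos_uni, pos_uni]
    have h4 := ((bits_cls B hb0 v x).1 hc).2.1
    rw [zero_add] at h4
    have h5 : (2 : ℕ) ^ (g + Q) = 2 ^ r * 2 ^ (g + Q - r) := by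
      rw [← pow_add]
      congr 1
      omega
    rw [h5, ← Nat.div_div_eq_div_mul, ← Nat.div_div_eq_div_mul, h4]
  refine Mach.Do.mono (wide_routeR (B := B.bits r (m - r) hb) (gl := gl - ρ) hm' (sm5_lines hL hr (by omega) hb) hp.hQ
    (by rw [hp.hg, hr, Nat.mul_sub]) hp.hZ (by omega)
    (le_trans (Nat.mul_le_mul_left _ (by omega)) hp.hG) (lt_of_le_of_lt (Nat.pow_le_pow_right (by norm_num) (by omega)) hp.hW)
    hp.hS hl8 (comm_bits_bits B hb0 hb (by omega)) hPS P2 a5 hs5 hH5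
    (fun v w => sD (Z * Q) (g + Q) u c s (KK B (key w) (fun x => a x w) v) ((Uni B hp.hm).pos v)) hδ
    (fun w => sm5_ok hp.hm hrg hb hm' (sd_ok hp (hk w))) ?_) hcost2 ?_
  · intro w v x hc
    show sD (Z * Q) (g + Q) u c s (KK B (key w) (fun x => a x w) v) ((Uni B hp.hm).pos v) =
      sD (Z * Q) (g + Q) u c s (KK B (key w) (fun x => a x w) x) ((Uni B hp.hm).pos x)
    rw [← KK_cls B (key w) (fun x => a x w) ((bits_cls B hb0 v x).1 hc).1, hRU v x hc]
  rintro P3 - ⟨c7, hc7, hspec⟩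
  refine ⟨c7, hc7, fun w v => ?_⟩
  obtain ⟨w1, w2⟩ := sm5_spec hp.hm hrg hb hm' (hspec w v)
  have hDv : ∀ p, p < 2 ^ (Z * Q) → sD (Z * Q) (g + Q) u c s (KK B (key w) (fun x => a x w) ((Uni B hp.hm).nd v p))
      ((Uni B hp.hm).pos ((Uni B hp.hm).nd v p)) = sD (Z * Q) (g + Q) u c s (KK B (key w) (fun x => a x w) v) p := by
    intro p hp2
    rw [(Uni B hp.hm).pos_nd v p hp2, ← KK_cls B (key w) (fun x => a x w) (uni_cls' B hp.hm ((Uni B hp.hm).cls_nd v hp2)).1]
  constructor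
  · intro p hpp
    obtain ⟨r1, -, -, -⟩ := s_D_val (hk w v) p _ hpp
    have r2 := s_N_le (hk w v)
    have hp2 : p < 2 ^ (Z * Q) := lt_of_lt_of_le r1 r2
    have r3 : c7 v w = a5 ((Uni B hp.hm).nd v p) w := w1 p hp2 ((hDv p hp2).trans hpp)
    rw [r3]
    obtain ⟨r4, r5⟩ := uni_cls' B hp.hm ((Uni B hp.hm).cls_nd v hp2)
    have r6 := KK_cls B (key w) (fun x => a x w) r4
    have r7 := (Uni B hp.hm).pos_nd v p hp2
    have r8 := (ha5v w ((Uni B hp.hm).nd v p)).1 (by rw [← r6, r7]; exact r1)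
    rw [← r6, r7, ← r5, sm5_nd B r4] at r8
    exact r8
  · intro hne
    refine w2 fun p hp2 => ?_
    intro hh
    exact hne p ((hDv p hp2).symm.trans hh)

end Pool.Agent.H31.HS
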