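import Mathlib
import Pool.Agent.H31.HS.SM0
import Pool.Agent.H31.HS.SA1
import Pool.Agent.H31.HS.Bfx
import Pool.Agent.H31.HS.Uniq

/-!
# SM6: the boundaries are known as items

Every `v` has the first item of the unit `e = Ext.pos v` (`h1`).  `bfx` for `Uni`, `Ext` with `(sR (unit v), none)`: `v` knows `sR e` (cost `Z*q*r0`).  For `i = 0, 1` with `j = unit v / 2^s + i` (constant on the `Ext`-class): `uniq`
for `Ext` (`lines_ext`) with the array: the first item of the unit `e` if it is nonempty and `sR e = j c`, else `emp` (at most one such `e`: `s_rank_inj`; `Ext.pos` runs through all units); cost `Z*q*r0` each.  The result `b i v` has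
`kv = sBeta j`: `s_beta_eq` (`sF e = kv key (a (frs v e))`), `s_beta_top`.
-/

set_option autoImplicit false

namespace Pool.Agent.H31.HS

variable {V Ω R X : Type} {m g Q Z k n q gl r0 u s e c c1 Lam W S : ℕ}

private theorem sm6_lam (hp : SPar m g Q Z k q gl u s e c c1 Lam W S) : S + 1 ≤ Lam ∧ W + 1 ≤ Lam := by
  have h1 := hp.hl
  have h2 := hp.hS
  have h3 := hp.hW
  have h4 : 1 ≤ 2 ^ m := Nat.one_le_two_pow
  have h5 : 2 ≤ W := by omega
  have h6 : W ^ 2 ≤ W ^ 10 := Nat.pow_le_pow_right (by omega) (by norm_num)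
  have h7 : W + 1 ≤ W ^ 2 := by nlinarith
  have h8 : 2 ≤ W ^ 10 := by omega
  constructor
  · calc S + 1 ≤ S * 2 := by omega
      _ ≤ S * W ^ 10 := Nat.mul_le_mul_left _ h8
      _ ≤ Lam := h1
  · calc W + 1 ≤ W ^ 10 := by omega
      _ ≤ S * W ^ 10 := Nat.le_mul_of_pos_left _ (by omega)
      _ ≤ Lam := h1

private theorem sm6_kv {key : X × Option R → ℕ} {x : Option X × Option R} : kv key x ≠ ⊤ ↔ x.1.isSome = true := by
  unfold kv
  rcases h : x.1 with _ | l
  · simp
  · simp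

private theorem sm6_sF (B : Blk V m) (key : X × Option R → ℕ) (a : V → Option X × Option R) (v : V) (t : ℕ) :
    sF (g + Q) (KK B key a v) t = kv key (a (frs g Q B v t)) := rfl

private theorem sm6_one {M : Mach V Ω R} {B : Blk V m} (hp : SPar m g Q Z k q gl u s e c c1 Lam W S) (hL : Lines M Lam B k n r0)
    {key : Ω → X × Option R → ℕ} (P : M.Pl) (a : V → Ω → Option X × Option R) (hs : Sm S a)
    (hk : ∀ w v, SK (Z * Q) (g + Q) u s c Q e (KK B (key w) (fun x => a x w) v))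
    (h1 : ∀ v, M.Has P v (a (frs g Q B v ((Ext B hp.hm hp.hgz).pos v))))
    (h2 : ∀ v, M.Knows P v (fun w => sR (Z * Q) (g + Q) (KK B (key w) (fun x => a x w) v) ((Ext B hp.hm hp.hgz).pos v))) (i : ℕ) :
    M.Do ((Z * q) * r0) P (fun P' => ∃ b : V → Ω → Option X × Option R, (∀ v, M.Has P' v (b v)) ∧
      ∀ w v, kv (key w) (b v w) = sBeta (Z * Q) (g + Q) c (KK B (key w) (fun x => a x w) v) ((Uni B hp.hm).pos v / 2 ^ s + i)) := by
  classical
  obtain ⟨E, hE⟩ : ∃ E, E = Ext B hp.hm hp.hgz := ⟨_, rfl⟩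
  obtain ⟨act, hact⟩ : ∃ act : V → Ω → Bool, ∀ v w, act v w =
      ((a (frs g Q B v (E.pos v)) w).1.isSome && decide (sR (Z * Q) (g + Q) (KK B (key w) (fun x => a x w) v) (E.pos v) =
        ((Uni B hp.hm).pos v / 2 ^ s + i) * c)) := ⟨_, fun _ _ => rfl⟩
  obtain ⟨al, hal⟩ : ∃ al : V → Ω → Option X × Option R, ∀ v w, al v w =
      if act v w = true then a (frs g Q B v (E.pos v)) w else emp := ⟨_, fun _ _ => rfl⟩
  have hcls : ∀ v v', E.cls v v' → B.cls v v' ∧ (Uni B hp.hm).pos v = (Uni B hp.hm).pos v' := by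
    intro v v' h
    rw [hE] at h
    exact ext_cls B hp.hm hp.hgz h
  have hactE : ∀ v w, act v w = true ↔ (a (frs g Q B v (E.pos v)) w).1.isSome = true ∧
      sR (Z * Q) (g + Q) (KK B (key w) (fun x => a x w) v) (E.pos v) = ((Uni B hp.hm).pos v / 2 ^ s + i) * c := by
    intro v w
    rw [hact, Bool.and_eq_true, decide_eq_true_iff]
  have hsome : ∀ v w, (al v w).1.isSome = true → act v w = true := by
    intro v w h
    by_contra h3
    rw [hal, if_neg h3] at h
    simp [emp] at h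
  have hs' : Sm S al := by
    refine hs.of_range fun v w => ?_
    rw [hal]
    by_cases h : act v w = true
    · rw [if_pos h]
      exact Or.inr ⟨_, w, rfl⟩
    · rw [if_neg h]
      exact Or.inl rfl
  have ha' : ∀ v, M.Has P v (al v) := by
    intro v
    have h3 : al v = fun w => if act v w then a (frs g Q B v (E.pos v)) w else (none, none) := by
      funext w
      exact hal v w
    rw [h3]
    have h4 := h1 v
    rw [← hE] at h4
    refine Mach.Has.ite h4 (Mach.Has.emp P v) ?_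
    have h5 := h2 v
    rw [← hE] at h5
    refine Mach.Knows.triv (Mach.Knows.comp2 h4.label h5 (fun x y => x.isSome && decide (y = ((Uni B hp.hm).pos v / 2 ^ s + i) * c))) ?_
    intro w
    exact hact v w
  have hKK : ∀ w v v', B.cls v v' → KK B (key w) (fun x => a x w) v = KK B (key w) (fun x => a x w) v' :=
    fun w v v' h => KK_cls B (key w) (fun x => a x w) h
  have hu : ∀ w v v', E.cls v v' → (al v w).1.isSome → (al v' w).1.isSome → v = v' := by
    intro w v v' h h3 h4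
    obtain ⟨h5, h6⟩ := (hactE v w).1 (hsome v w h3)
    obtain ⟨h7, h8⟩ := (hactE v' w).1 (hsome v' w h4)
    obtain ⟨h9, h10⟩ := hcls v v' h
    refine E.eq_of_cls h ?_
    rw [← hKK w v v' h9, ← h10] at h8
    refine s_rank_inj (hk w v) _ _ (E.pos_lt v) (E.pos_lt v') ?_ (h6.trans h8.symm)
    rw [sm6_sF]
    exact sm6_kv.2 h5
  have hLE : Lines M Lam E k (Z * q) r0 := by
    rw [hE]
    exact lines_ext hp.hm hp.hgz hL hp.hQ hp.hg
  refine (uniq hLE (sm6_lam hp).1 P al hs' ha' hu).mono le_rfl ?_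
  rintro P' _ ⟨b, hb, hspec⟩
  refine ⟨b, hb, fun w v => ?_⟩
  by_cases hex : ∃ t, t < 2 ^ (Z * Q) ∧ sF (g + Q) (KK B (key w) (fun x => a x w) v) t ≠ ⊤ ∧
      sR (Z * Q) (g + Q) (KK B (key w) (fun x => a x w) v) t = ((Uni B hp.hm).pos v / 2 ^ s + i) * c
  · obtain ⟨t, ht, ht1, ht2⟩ := hex
    have h3 := E.cls_nd v ht
    have h4 := E.pos_nd v t ht
    obtain ⟨h5, h6⟩ := hcls _ _ h3
    have h7 : frs g Q B (E.nd v t) (E.pos (E.nd v t)) = frs g Q B v t := by
      rw [h4]
      exact frs_cls B hp.hm (B.cls_symm h5) t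
    have h8 : act (E.nd v t) w = true := by
      rw [hactE, h7, h4, ← hKK w _ _ h5, ← h6]
      refine ⟨?_, ht2⟩
      rw [sm6_sF] at ht1
      exact sm6_kv.1 ht1
    have h9 : al (E.nd v t) w = a (frs g Q B v t) w := by
      rw [hal, if_pos h8, h7]
    have h10 : b v w = a (frs g Q B v t) w := by
      rw [← h9]
      refine (hspec w v).1 _ h3 ?_
      show (al (E.nd v t) w).1.isSome = true
      rw [h9]
      rw [sm6_sF] at ht1
      exact sm6_kv.1 ht1
    rw [h10, s_beta_eq t _ ht ht2]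
    rfl
  · have h3 : b v w = emp := by
      refine (hspec w v).2 fun v' hv' => ?_
      by_contra h4
      have h5 : (al v' w).1.isSome = true := by
        rcases h6 : (al v' w).1 with _ | x
        · exact absurd h6 h4
        · rfl
      obtain ⟨h6, h7⟩ := (hactE v' w).1 (hsome v' w h5)
      obtain ⟨h8, h9⟩ := hcls v v' hv'
      refine hex ⟨E.pos v', E.pos_lt v', ?_, ?_⟩
      · rw [hKK w v v' h8, sm6_sF]
        exact sm6_kv.2 h6
      · rw [hKK w v v' h8, h7, h9]
    rw [h3, s_beta_top (hk w v) _ fun t ht ht1 ht2 => hex ⟨t, ht, ht1, ht2⟩]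
    rfl

theorem sm_beta {M : Mach V Ω R} {B : Blk V m} (hp : SPar m g Q Z k q gl u s e c c1 Lam W S) (hL : Lines M Lam B k n r0)
    {key : Ω → X × Option R → ℕ} (P : M.Pl) (a : V → Ω → Option X × Option R) (hs : Sm S a)
    (hk : ∀ w v, SK (Z * Q) (g + Q) u s c Q e (KK B (key w) (fun x => a x w) v))
    (h1 : ∀ v, M.Has P v (a (frs g Q B v ((Ext B hp.hm hp.hgz).pos v))))
    (h2 : ∀ v, M.Knows P v (fun w => sR (Z * Q) (g + Q) (KK B (key w) (fun x => a x w) v) ((Uni B hp.hm).pos v))) :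
    M.Do (3 * (Z * q) * r0) P (fun P' => ∃ b0 b1 : V → Ω → Option X × Option R, (∀ v, M.Has P' v (b0 v)) ∧ (∀ v, M.Has P' v (b1 v)) ∧
      ∀ w v, kv (key w) (b0 v w) = sBeta (Z * Q) (g + Q) c (KK B (key w) (fun x => a x w) v) ((Uni B hp.hm).pos v / 2 ^ s) ∧
        kv (key w) (b1 v w) = sBeta (Z * Q) (g + Q) c (KK B (key w) (fun x => a x w) v) ((Uni B hp.hm).pos v / 2 ^ s + 1)) := by
  have hLU : Lines M Lam (Uni B hp.hm) k (Z * q) r0 := lines_uni hp.hm hL hp.hQ hp.hg
  have hC := comm_uni_ext B hp.hm hp.hgz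
  obtain ⟨f, hf⟩ : ∃ f : V → Ω → ℕ × Option R, ∀ v w, f v w =
      (sR (Z * Q) (g + Q) (KK B (key w) (fun x => a x w) v) ((Uni B hp.hm).pos v), none) := ⟨_, fun _ _ => rfl⟩
  have hsz : Sz W (fun v w => (f v w).1) := by
    refine Sz.nat fun v w => ?_
    rw [hf]
    show sR (Z * Q) (g + Q) (KK B (key w) (fun x => a x w) v) ((Uni B hp.hm).pos v) < W
    have h3 : sR (Z * Q) (g + Q) (KK B (key w) (fun x => a x w) v) ((Uni B hp.hm).pos v) ≤ 2 ^ (Z * Q) := by
      unfold sR
      exact (Finset.card_filter_le _ _).trans (by rw [Finset.card_range])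
    have h4 : 2 ^ (Z * Q) ≤ 2 ^ m := Nat.pow_le_pow_right (by norm_num) (by have := hp.hm; omega)
    have h5 := hp.hW
    omega
  have hfh : ∀ v, M.Has P v (f v) := by
    intro v
    have h3 : f v = fun w => (sR (Z * Q) (g + Q) (KK B (key w) (fun x => a x w) v) ((Uni B hp.hm).pos v), none) := by
      funext w
      exact hf v w
    rw [h3]
    exact (h2 v).has
  have hA := bfx hC hLU (sm6_lam hp).2 P f hsz hfh
  have hcost : 3 * (Z * q) * r0 = (Z * q) * r0 + ((Z * q) * r0 + (Z * q) * r0) := by ring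
  rw [hcost]
  refine hA.bind fun P1 he1 hP1 => ?_
  have h3 : ∀ v, M.Knows P1 v (fun w => sR (Z * Q) (g + Q) (KK B (key w) (fun x => a x w) v) ((Ext B hp.hm hp.hgz).pos v)) := by
    intro v
    have hlt := (Ext B hp.hm hp.hgz).pos_lt v
    refine Mach.Knows.triv (hP1 v).label ?_
    intro w
    rw [hf]
    show _ = sR (Z * Q) (g + Q) (KK B (key w) (fun x => a x w) ((Uni B hp.hm).nd v ((Ext B hp.hm hp.hgz).pos v)))
      ((Uni B hp.hm).pos ((Uni B hp.hm).nd v ((Ext B hp.hm hp.hgz).pos v)))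
    rw [(Uni B hp.hm).pos_nd v _ hlt,
      ← KK_cls B (key w) (fun x => a x w) (uni_cls' B hp.hm ((Uni B hp.hm).cls_nd v hlt)).1]
  have h1' : ∀ v, M.Has P1 v (a (frs g Q B v ((Ext B hp.hm hp.hgz).pos v))) := fun v => (h1 v).mono he1
  refine (sm6_one hp hL P1 a hs hk h1' h3 0).bind fun P2 he2 hP2 => ?_
  obtain ⟨b0, hb0, hb0'⟩ := hP2
  refine (sm6_one hp hL P2 a hs hk (fun v => (h1' v).mono he2) (fun v => (h3 v).mono he2) 1).mono le_rfl ?_
  rintro P3 he3 ⟨b1, hb1, hb1'⟩
  exact ⟨b0, b1, fun v => (hb0 v).mono he3, hb1, fun w v => ⟨hb0' w v, hb1' w v⟩⟩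

end Pool.Agent.H31.HS
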