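import Mathlib
import Pool.Agent.H31.HS.SM5
import Pool.Agent.H31.HS.SM6
import Pool.Agent.H31.HS.Cmp

/-!
# SM7: the array after splitting

`sm_rank` (cost `(gl+q+3*(Z*q)) * r0`), `sm_kap` (`4*(Z*q)*r0`), `sm_route` (`Z*S2 + 47*n*r0`), `sm_beta` (`3*(Z*q)*r0`), then local: `b v w = c7 v w` if `kv (b0 v w) ≤ kv (c7 v w)` and `kv (c7 v w) < kv (b1 v w)`
(`cmp_known`, `le_known`), else `emp`.
`sS (B.pos v) x'` unfolds to: some `p < sN` with `sD p = some (unit v)` (`pos_uni`), `x' = sT p * 2^(g+Q) + slot v`, `sBeta (unit v / 2^s) ≤ K x' < sBeta (..+1)` (`x / 2^(gs+s) = (x / 2^gs) / 2^s`), `K x' = kv key (a (B.nd v x'))`.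
`Has.mono`, `Knows.mono` carry everything along.
-/

set_option autoImplicit false

namespace Pool.Agent.H31.HS

variable {V Ω R X : Type} {m g Q Z k n q gl r0 r ρ u s e c c1 Lam W S S2 : ℕ}

/-- The array after splitting. -/
def SplSpec (gs z u c s : ℕ) (B : Blk V m) (key : X × Option R → ℕ) (a b : V → Option X × Option R) : Prop :=
  ∀ v, (∀ x', sS z gs u c s (KK B key a v) (B.pos v) x' → b v = a (B.nd v x')) ∧
    ((∀ x', ¬ sS z gs u c s (KK B key a v) (B.pos v) x') → b v = emp)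

private theorem sm7_n (hp : SPar m g Q Z k q gl u s e c c1 Lam W S) (hk : 1 ≤ k) (hm : m = k * n) : n = gl + q + Z * q := by
  have h1 := hp.hm
  have h2 := hp.hQ
  have h3 := hp.hg
  have h4 : k * n = k * (gl + q + Z * q) := by
    rw [← hm, h1, h3, h2]
    ring
  exact Nat.eq_of_mul_eq_mul_left (by omega) h4

theorem sm_split {M : Mach V Ω R} {B : Blk V m} (hp : SPar m g Q Z k q gl u s e c c1 Lam W S) (hL : Lines M Lam B k n r0)
    (hr : r = k * ρ) (hgr : 2 * (Z * Q) + r ≤ g) (hb : r + (m - r) ≤ m) (hb0 : 0 + r ≤ m) (hm' : m - r = g - r + Q + Z * Q)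
    (hPS : ∀ jj (hj : jj < Z), CanR M (S * W ^ 4) (Pln (B.bits r (m - r) hb) hm' jj hj) (B.bits 0 r hb0)
      (fun o => RevPat (Bal (B.bits r (m - r) hb) hm') c1 o) S2)
    {key : Ω → X × Option R → ℕ} (hK : KeyLoc M key) (P : M.Pl) (a : V → Ω → Option X × Option R) (hs : Sm S a)
    (ha : ∀ v, M.Has P v (a v)) (hk : ∀ w v, SK (Z * Q) (g + Q) u s c Q e (KK B (key w) (fun x => a x w) v)) :
    M.Do (Z * S2 + 60 * n * r0) P (fun P' => ∃ b : V → Ω → Option X × Option R, (∀ v, M.Has P' v (b v)) ∧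
      ∀ w, SplSpec (g + Q) (Z * Q) u c s B (key w) (fun x => a x w) (fun x => b x w)) := by
  have hn := sm7_n hp hL.hk hL.hm
  have hcost : (gl + q + 3 * (Z * q)) * r0 + (4 * (Z * q) * r0 + ((Z * S2 + 47 * n * r0) + 3 * (Z * q) * r0)) ≤
      Z * S2 + 60 * n * r0 := by
    have h4 : gl + q + 3 * (Z * q) + 4 * (Z * q) + 3 * (Z * q) ≤ 13 * n := by omega
    have h5 := Nat.mul_le_mul_right r0 h4
    have e1 : (gl + q + 3 * (Z * q)) * r0 + (4 * (Z * q) * r0 + ((Z * S2 + 47 * n * r0) + 3 * (Z * q) * r0)) =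
      Z * S2 + 47 * n * r0 + (gl + q + 3 * (Z * q) + 4 * (Z * q) + 3 * (Z * q)) * r0 := by ring
    have e2 : Z * S2 + 60 * n * r0 = Z * S2 + 47 * n * r0 + 13 * n * r0 := by ring
    rw [e1, e2]
    omega
  refine Mach.Do.mono (Mach.Do.bind (sm_rank hp hL hK P a hs ha) ?_) hcost (fun _ _ h => h)
  rintro P1 hP1 ⟨hF1, hF2, hR, hT⟩
  refine Mach.Do.bind (sm_kap hp hL P1 a hk hF2 hR hT) ?_
  rintro P2 hP2 ⟨hLo, hKap, hBase, -⟩
  refine Mach.Do.bind (sm_route hp hL hr hgr hb hb0 hm' hPS P2 a hs (fun v => ((ha v).mono hP1).mono hP2) hk hLo hKap hBase) ?_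
  rintro P3 hP3 ⟨c7, hc7, hspec⟩
  refine Mach.Do.mono (sm_beta hp hL P3 a hs hk (fun v => ((hF1 v).mono hP2).mono hP3) (fun v => ((hR v).mono hP2).mono hP3))
    le_rfl ?_
  rintro P4 hP4 ⟨b0, b1, hbb0, hbb1, hbs⟩
  refine ⟨fun v w => if (decide (kv (key w) (b0 v w) ≤ kv (key w) (c7 v w)) && decide (kv (key w) (c7 v w) < kv (key w) (b1 v w))) = true
    then c7 v w else (none, none), fun v => ?_, fun w v => ?_⟩
  · have hc := (hc7 v).mono hP4
    exact Mach.Has.ite hc (Mach.Has.emp P4 v)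
      (Mach.Knows.comp2 (le_known hK (hbb0 v) hc) (cmp_known hK hc (hbb1 v)) (fun x y => x && y))
  · obtain ⟨w1, w2⟩ := hspec w v
    obtain ⟨w3, w4⟩ := hbs w v
    have hu : (Uni B hp.hm).pos v = B.pos v / 2 ^ (g + Q) := pos_uni B hp.hm v
    have hsl : (Slot B hp.hm).pos v = B.pos v % 2 ^ (g + Q) := by
      show B.pos v / 2 ^ 0 % 2 ^ (g + Q) = _
      rw [pow_zero, Nat.div_one]
    have hdd : B.pos v / 2 ^ (g + Q + s) = (Uni B hp.hm).pos v / 2 ^ s := by
      rw [hu, Nat.div_div_eq_div_mul, ← pow_add]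
    constructor
    · rintro x' ⟨p, -, h2, h3, h4, h5⟩
      rw [← hu] at h2
      have h6 := w1 p h2
      rw [hsl, ← h3] at h6
      rw [hdd, ← w3] at h4
      rw [hdd, ← w4] at h5
      have h7 : KK B (key w) (fun x => a x w) v x' = kv (key w) (c7 v w) := by
        rw [h6]
        rfl
      rw [h7] at h4 h5
      show (if (decide (kv (key w) (b0 v w) ≤ kv (key w) (c7 v w)) && decide (kv (key w) (c7 v w) < kv (key w) (b1 v w))) = true
        then c7 v w else (none, none)) = _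
      rw [if_pos (by simp [h4, h5]), h6]
    · intro hno
      show (if (decide (kv (key w) (b0 v w) ≤ kv (key w) (c7 v w)) && decide (kv (key w) (c7 v w) < kv (key w) (b1 v w))) = true
        then c7 v w else (none, none)) = _
      by_cases hcond : (decide (kv (key w) (b0 v w) ≤ kv (key w) (c7 v w)) &&
          decide (kv (key w) (c7 v w) < kv (key w) (b1 v w))) = true
      · exfalso
        rw [Bool.and_eq_true, decide_eq_true_iff, decide_eq_true_iff] at hcond
        obtain ⟨h4, h5⟩ := hcond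
        by_cases hex : ∃ p, sD (Z * Q) (g + Q) u c s (KK B (key w) (fun x => a x w) v) p = some ((Uni B hp.hm).pos v)
        · obtain ⟨p, h2⟩ := hex
          have h6 := w1 p h2
          rw [hsl] at h6
          have h7 : KK B (key w) (fun x => a x w) v (sT (Z * Q) (g + Q) u c (KK B (key w) (fun x => a x w) v) p * 2 ^ (g + Q) +
              B.pos v % 2 ^ (g + Q)) = kv (key w) (c7 v w) := by
            rw [h6]
            rfl
          refine hno _ ⟨p, (s_D_val (hk w v) p _ h2).1, ?_, rfl, ?_, ?_⟩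
          · rw [← hu]
            exact h2
          · rw [hdd, ← w3, h7]
            exact h4
          · rw [hdd, ← w4, h7]
            exact h5
        · have h8 := w2 (fun p hh => hex ⟨p, hh⟩)
          rw [h8] at h5
          exact not_top_lt h5
      · rw [if_neg hcond]
        rfl

end Pool.Agent.H31.HS
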