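import Mathlib
import Pool.Agent.H31.HS.SP3

/-!
# SP4: an item of the unit `t` in the region `j` has `sLo t ≤ j ≤ sHi t`

Let `t = x / 2^gs`.  `sF t ≤ K x` (same run, `x` occupied), so `t` exists.  `l := sLo t = sR t / c`: `l c ≤ sR t`, so `sBeta l ≤ sF t ≤ K x < sBeta (j+1)`; so `l < j + 1` (`s_beta_mono`).
`s_beta_le`: some `t''` with `j c ≤ sR t''`, `sF t'' ≤ K x`; it exists.  If `t + 1` is in the same run: `K x < sF (t+1)` if `t+1` exists (`run`), or `sF (t+1) = ⊤`; in both cases `sF t'' < sF (t+1)`, so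
`j c ≤ sR t'' < sR (t+1) = sRn t` (`s_rank_lt_iff`; `t + 1 < 2^z` since it is in the same run).  Otherwise `j c ≤ sR t'' < sTot = sRn t`.  So `j ≤ (sRn t - 1) / c`.
-/

set_option autoImplicit false

namespace Pool.Agent.H31.HS

variable {z gs u s c Q e : ℕ} {K : ℕ → WithTop ℕ}

theorem s_c1 (h : SK z gs u s c Q e K) (x j : ℕ) (hx : x < 2 ^ (gs + z)) (h1 : K x ≠ ⊤) (h2 : sBeta z gs c K j ≤ K x)
    (h3 : K x < sBeta z gs c K (j + 1)) :
    sF gs K (x / 2 ^ gs) ≠ ⊤ ∧ sLo z gs c K (x / 2 ^ gs) ≤ j ∧ j ≤ sHi z gs u c K (x / 2 ^ gs) := by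
  have ht : x / 2 ^ gs < 2 ^ z := sp3_unit x hx
  have hF : sF gs K (x / 2 ^ gs) ≤ K x := sp3_first h x hx h1
  have hFt : sF gs K (x / 2 ^ gs) ≠ ⊤ := ne_top_of_le_ne_top h1 hF
  have hcp := s_c_pos h
  refine ⟨hFt, ?_, ?_⟩
  · by_contra hcon
    have h4 : sBeta z gs c K (j + 1) ≤ sBeta z gs c K (sLo z gs c K (x / 2 ^ gs)) :=
      s_beta_mono _ _ (by omega)
    have h5 : sBeta z gs c K (sLo z gs c K (x / 2 ^ gs)) ≤ sF gs K (x / 2 ^ gs) := by
      rw [sBeta]
      refine Finset.inf_le ?_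
      rw [Finset.mem_filter, Finset.mem_range]
      exact ⟨ht, Nat.div_mul_le_self _ _⟩
    exact absurd (h4.trans (h5.trans hF)) (not_le.2 h3)
  · obtain ⟨t', ht', h4, h5⟩ := s_beta_le j (K x) h1 h2
    have h6 : sR z gs K t' < sRn z gs u K (x / 2 ^ gs) := by
      rw [sRn]
      split_ifs with h7
      · have h8 := sp2_next h _ ht h7
        refine (s_rank_lt_iff t' _ ht' h8).2 ?_
        by_cases h9 : sF gs K (x / 2 ^ gs + 1) = ⊤
        · rw [h9]
          exact lt_of_le_of_lt h5 (lt_top_iff_ne_top.2 h1)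
        · refine lt_of_le_of_lt h5 (h.run _ _ ?_ (sp2_place _ h8) ?_ h9)
          · have h10 := Nat.lt_div_mul_add (a := x) (b := 2 ^ gs) (by positivity)
            rw [Nat.add_mul, one_mul]
            exact h10
          · rw [sp2_div h, sp2_div h, Nat.mul_div_cancel _ (by positivity)]
            exact h7.symm
      · exact s_rank_lt t' ht' (ne_top_of_le_ne_top h1 h5)
    rw [sHi, Nat.le_div_iff_mul_le (by omega)]
    omega

end Pool.Agent.H31.HS
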