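import Mathlib
import Pool.Agent.H31.HS.SP4
import Pool.Agent.H31.HS.SP7

/-!
# SP8: what arrives where

`s_cover`: `x'` occupied: `s_region` gives `j`, `s_c1` and `s_piece` (unit `t = x' / 2^gs`) a piece `p` with `sT p = t`, `sJ p = j`; `x = (target unit) * 2^gs + x' % 2^gs`; `x / 2^(gs+s) = (target unit) / 2^s = j` (`s_D_val`).
`s_S_uniq`: the region of `x1` is the `j` with `sBeta j ≤ K x' < sBeta (j+1)`, the same for `x2` (`s_beta_mono`); the piece has `sT p = x' / 2^gs` and `sJ p = j`: the same piece (`s_piece_inj`), the same target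
unit; and `x1 % 2^gs = x' % 2^gs`.
`s_S_region`: `K x1' < sBeta (j1+1) ≤ sBeta j2 ≤ K x2'`.  `s_S_unit`: same target unit: the same piece (`s_D_inj`), so `x1'`, `x2'` are in the same unit, in the order of `x1`, `x2`, and `K x2' ≠ ⊤` (it is smaller than
`sBeta`): `run`.
`s_S_dens`: the units `x / 2^gs` which occur have `x / 2^gs / 2^(i-gs) = A` and are values of `sD`: at most `(e+3) 2^(i-gs-Q)` (`s_D_dens`; `s_D_inj`: as many values as arguments), each with `2^gs` places.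
`s_S_fun`: `x'` is determined by `x`.
-/

set_option autoImplicit false

namespace Pool.Agent.H31.HS

open Finset

variable {z gs u s c Q e : ℕ} {K : ℕ → WithTop ℕ}

theorem s_divp (x : ℕ) : x / 2 ^ (gs + s) = x / 2 ^ gs / 2 ^ s := by
  rw [Nat.div_div_eq_div_mul, pow_add]

theorem s_S_lt (h : SK z gs u s c Q e K) (x x' : ℕ) (hS : sS z gs u c s K x x') : x < 2 ^ (gs + z) ∧ x' < 2 ^ (gs + z) ∧ K x' ≠ ⊤ := by
  obtain ⟨p, hp, hD, hx', h1, h2⟩ := hS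
  obtain ⟨-, -, -, h3⟩ := s_D_val h p _ hD
  obtain ⟨h4, -, -, -⟩ := s_T p hp
  have hG : 0 < 2 ^ gs := Nat.two_pow_pos gs
  refine ⟨?_, ?_, ne_top_of_lt h2⟩
  · rw [pow_add, mul_comm]
    exact (Nat.div_lt_iff_lt_mul hG).1 h3
  · rw [hx', pow_add, mul_comm (2 ^ gs)]
    have h5 : x % 2 ^ gs < 2 ^ gs := Nat.mod_lt _ hG
    have h6 : (sT z gs u c K p + 1) * 2 ^ gs ≤ 2 ^ z * 2 ^ gs := Nat.mul_le_mul_right _ h4
    rw [add_mul, one_mul] at h6
    omega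

theorem s_S_fun (h : SK z gs u s c Q e K) (x x1 x2 : ℕ) (h1 : sS z gs u c s K x x1) (h2 : sS z gs u c s K x x2) : x1 = x2 := by
  obtain ⟨p1, hp1, hD1, hx1, -, -⟩ := h1
  obtain ⟨p2, hp2, hD2, hx2, -, -⟩ := h2
  have e1 : p1 = p2 := s_D_inj h p1 p2 _ hD1 hD2
  rw [hx1, hx2, e1]

theorem s_cover (h : SK z gs u s c Q e K) (x' : ℕ) (hx : x' < 2 ^ (gs + z)) (h1 : K x' ≠ ⊤) : ∃ x, sS z gs u c s K x x' := by
  have hG : 0 < 2 ^ gs := Nat.two_pow_pos gs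
  obtain ⟨j, hj1, hj2⟩ := s_region h x' hx h1
  obtain ⟨h2, h3, h4⟩ := s_c1 h x' j hx h1 hj1 hj2
  have ht : x' / 2 ^ gs < 2 ^ z := by
    rw [Nat.div_lt_iff_lt_mul hG]
    rw [pow_add, mul_comm] at hx
    exact hx
  obtain ⟨p, hp, hT, hJ⟩ := s_piece h _ j ht h2 h3 h4
  have hD : sD z gs u c s K p = some (sJ z gs u c K p * 2 ^ s + rev s (sM z gs u c K p)) := by
    unfold sD
    rw [if_pos hp]
  obtain ⟨-, h5, -, -⟩ := s_D_val h p _ hD
  set τ := sJ z gs u c K p * 2 ^ s + rev s (sM z gs u c K p) with hτ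
  have h6 : x' % 2 ^ gs < 2 ^ gs := Nat.mod_lt _ hG
  have e1 : (τ * 2 ^ gs + x' % 2 ^ gs) / 2 ^ gs = τ := by
    rw [mul_comm, Nat.mul_add_div hG, Nat.div_eq_of_lt h6, add_zero]
  have e2 : (τ * 2 ^ gs + x' % 2 ^ gs) % 2 ^ gs = x' % 2 ^ gs := by
    rw [mul_comm, Nat.mul_add_mod, Nat.mod_mod]
  have e3 : (τ * 2 ^ gs + x' % 2 ^ gs) / 2 ^ (gs + s) = j := by
    rw [s_divp, e1, h5, hJ]
  refine ⟨τ * 2 ^ gs + x' % 2 ^ gs, p, hp, ?_, ?_, ?_, ?_⟩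
  · rw [e1]; exact hD
  · rw [e2, hT, mul_comm]
    exact (Nat.div_add_mod x' (2 ^ gs)).symm
  · rw [e3]; exact hj1
  · rw [e3]; exact hj2

theorem s_S_uniq (h : SK z gs u s c Q e K) (x1 x2 x' : ℕ) (h1 : sS z gs u c s K x1 x') (h2 : sS z gs u c s K x2 x') : x1 = x2 := by
  have hG : 0 < 2 ^ gs := Nat.two_pow_pos gs
  obtain ⟨p1, hp1, hD1, hx1, ha1, hb1⟩ := h1
  obtain ⟨p2, hp2, hD2, hx2, ha2, hb2⟩ := h2
  have hj : x1 / 2 ^ (gs + s) = x2 / 2 ^ (gs + s) := by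
    rcases lt_trichotomy (x1 / 2 ^ (gs + s)) (x2 / 2 ^ (gs + s)) with hl | hl | hl
    · exfalso
      have := s_beta_mono (z := z) (gs := gs) (c := c) (K := K) _ _ (Nat.succ_le_of_lt hl)
      exact absurd (lt_of_lt_of_le hb1 (le_trans this ha2)) (lt_irrefl _)
    · exact hl
    · exfalso
      have := s_beta_mono (z := z) (gs := gs) (c := c) (K := K) _ _ (Nat.succ_le_of_lt hl)
      exact absurd (lt_of_lt_of_le hb2 (le_trans this ha1)) (lt_irrefl _)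
  have hm1 : x1 % 2 ^ gs < 2 ^ gs := Nat.mod_lt _ hG
  have hm2 : x2 % 2 ^ gs < 2 ^ gs := Nat.mod_lt _ hG
  have hT1 : x' / 2 ^ gs = sT z gs u c K p1 := by
    rw [hx1, mul_comm, Nat.mul_add_div hG, Nat.div_eq_of_lt hm1, add_zero]
  have hT2 : x' / 2 ^ gs = sT z gs u c K p2 := by
    rw [hx2, mul_comm, Nat.mul_add_div hG, Nat.div_eq_of_lt hm2, add_zero]
  have hr1 : x' % 2 ^ gs = x1 % 2 ^ gs := by
    rw [hx1, mul_comm, Nat.mul_add_mod, Nat.mod_mod]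
  have hr2 : x' % 2 ^ gs = x2 % 2 ^ gs := by
    rw [hx2, mul_comm, Nat.mul_add_mod, Nat.mod_mod]
  obtain ⟨-, hJ1, -, -⟩ := s_D_val h p1 _ hD1
  obtain ⟨-, hJ2, -, -⟩ := s_D_val h p2 _ hD2
  rw [← s_divp] at hJ1 hJ2
  have e1 : p1 = p2 := s_piece_inj p1 p2 hp1 hp2 (by rw [← hT1, ← hT2]) (by rw [← hJ1, ← hJ2, hj])
  have e2 : x1 / 2 ^ gs = x2 / 2 ^ gs := by
    rw [e1, hD2] at hD1
    exact (Option.some.inj hD1).symm
  rw [← Nat.div_add_mod x1 (2 ^ gs), ← Nat.div_add_mod x2 (2 ^ gs), e2, ← hr1, ← hr2]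

theorem s_S_region (x1 x2 x1' x2' : ℕ) (h1 : sS z gs u c s K x1 x1') (h2 : sS z gs u c s K x2 x2')
    (h3 : x1 / 2 ^ (gs + s) < x2 / 2 ^ (gs + s)) : K x1' < K x2' := by
  obtain ⟨p1, hp1, hD1, hx1, ha1, hb1⟩ := h1
  obtain ⟨p2, hp2, hD2, hx2, ha2, hb2⟩ := h2
  have := s_beta_mono (z := z) (gs := gs) (c := c) (K := K) _ _ (Nat.succ_le_of_lt h3)
  exact lt_of_lt_of_le hb1 (le_trans this ha2)

theorem s_S_unit (h : SK z gs u s c Q e K) (x1 x2 x1' x2' : ℕ) (h1 : sS z gs u c s K x1 x1') (h2 : sS z gs u c s K x2 x2')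
    (h3 : x1 / 2 ^ gs = x2 / 2 ^ gs) (h4 : x1 < x2) : K x1' < K x2' := by
  have hG : 0 < 2 ^ gs := Nat.two_pow_pos gs
  obtain ⟨-, hl2, ht2⟩ := s_S_lt h x2 x2' h2
  obtain ⟨p1, hp1, hD1, hx1, ha1, hb1⟩ := h1
  obtain ⟨p2, hp2, hD2, hx2, ha2, hb2⟩ := h2
  have e1 : p1 = p2 := by
    rw [h3] at hD1
    exact s_D_inj h p1 p2 _ hD1 hD2
  have hm1 : x1 % 2 ^ gs < 2 ^ gs := Nat.mod_lt _ hG
  have hm2 : x2 % 2 ^ gs < 2 ^ gs := Nat.mod_lt _ hG
  have e2 := Nat.div_add_mod x1 (2 ^ gs)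
  have e3 := Nat.div_add_mod x2 (2 ^ gs)
  rw [h3] at e2
  have hlt : x1 % 2 ^ gs < x2 % 2 ^ gs := by omega
  have hT1 : x1' / 2 ^ gs = sT z gs u c K p1 := by
    rw [hx1, mul_comm, Nat.mul_add_div hG, Nat.div_eq_of_lt hm1, add_zero]
  have hT2 : x2' / 2 ^ gs = sT z gs u c K p2 := by
    rw [hx2, mul_comm, Nat.mul_add_div hG, Nat.div_eq_of_lt hm2, add_zero]
  have hu : gs + z - u = gs + (z - u) := by have := h.huz; omega
  refine h.run x1' x2' ?_ hl2 ?_ ht2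
  · rw [hx1, hx2, e1]
    exact Nat.add_lt_add_left hlt _
  · rw [hu, s_divp, s_divp, hT1, hT2, e1]

open Classical in
theorem s_S_dens (h : SK z gs u s c Q e K) (i A : ℕ) (h1 : gs + Q ≤ i) (h2 : i ≤ gs + s) :
    ((range (2 ^ (gs + z))).filter (fun x => x / 2 ^ i = A ∧ ∃ x', sS z gs u c s K x x')).card ≤ (e + 3) * 2 ^ (i - Q) := by
  have hG : 0 < 2 ^ gs := Nat.two_pow_pos gs
  have hsz := h.hsz
  obtain ⟨k, hk⟩ : ∃ k, i = gs + k := ⟨i - gs, by omega⟩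
  subst hk
  have hd := s_D_dens h k A (by omega) (by omega)
  set S := (range (2 ^ (gs + z))).filter (fun x => x / 2 ^ (gs + k) = A ∧ ∃ x', sS z gs u c s K x x') with hS
  set D := (range (2 ^ z)).filter (fun p => ∃ t, sD z gs u c s K p = some t ∧ t / 2 ^ k = A) with hDD
  have h3 : S.card ≤ 2 ^ gs * (S.image (fun x => x / 2 ^ gs)).card := by
    refine Finset.card_le_mul_card_image S (2 ^ gs) ?_
    intro a _
    have : S.filter (fun x => x / 2 ^ gs = a) ⊆ (range (2 ^ gs)).image (fun r => 2 ^ gs * a + r) := by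
      intro x hx
      rw [mem_filter] at hx
      rw [mem_image]
      refine ⟨x % 2 ^ gs, mem_range.2 (Nat.mod_lt _ hG), ?_⟩
      rw [← hx.2]
      exact Nat.div_add_mod x (2 ^ gs)
    refine le_trans (card_le_card this) (le_trans card_image_le ?_)
    rw [card_range]
  have h4 : S.image (fun x => x / 2 ^ gs) ⊆ D.image (fun p => (sD z gs u c s K p).getD 0) := by
    intro t ht
    rw [mem_image] at ht
    obtain ⟨x, hx, rfl⟩ := ht
    rw [hS, mem_filter] at hx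
    obtain ⟨-, hA, x', p, hp, hD, -, -, -⟩ := hx
    rw [mem_image]
    refine ⟨p, ?_, ?_⟩
    · rw [hDD, mem_filter]
      refine ⟨mem_range.2 (lt_of_lt_of_le hp (s_N_le h)), _, hD, ?_⟩
      rw [← s_divp]
      exact hA
    · show (sD z gs u c s K p).getD 0 = x / 2 ^ gs
      rw [hD]
      rfl
  have h5 : (S.image (fun x => x / 2 ^ gs)).card ≤ (e + 3) * 2 ^ (k - Q) :=
    le_trans (card_le_card h4) (le_trans card_image_le hd)
  have h6 : gs + k - Q = gs + (k - Q) := by omega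
  rw [h6, pow_add]
  calc S.card ≤ 2 ^ gs * ((e + 3) * 2 ^ (k - Q)) := le_trans h3 (Nat.mul_le_mul_left _ h5)
    _ = (e + 3) * (2 ^ gs * 2 ^ (k - Q)) := by ring

end Pool.Agent.H31.HS
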