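import Mathlib
import Pool.Agent.H31.HS.SM7
import Pool.Agent.H31.HS.SP8
import Pool.Agent.H31.HS.SA1
import Pool.Agent.H31.HS.BitF1

/-!
# SE1: properties of the array after splitting (pure)

`b` = array after splitting, `K = KK B key a v`.  For every place `v`: if `sS (pos v) x'` for some `x'` (unique: `s_S_fun`) then `b v = a (B.nd v x')`, which is nonempty (`s_S_lt`: `K x' ≠ ⊤`), else `b v = emp`.
`spl_same`: `s_cover`.  `spl_dist`: the same key means the same place `x'` (`Dist`), then `s_S_uniq`.  `spl_incr`: classes of `B.bits 0 (g+Q)` are the slots of the units: `s_S_unit` (`pos v / 2^gs = pos u / 2^gs`, `bits_cls`).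
`spl_region`: `s_S_region`.  `spl_dens`: `occ` of an aligned interval `pos v / 2^i = A` of the class: injection `t ↦ A * 2^i + t` into the set of `s_S_dens` (`i ≥ gs + Q`).
-/

set_option autoImplicit false

namespace Pool.Agent.H31.HS

variable {V R X : Type} {m g Q Z k q gl u s e c c1 Lam W S : ℕ}

private theorem se_kv {key : X × Option R → ℕ} (x : Option X × Option R) : kv key x ≠ ⊤ ↔ x.1.isSome = true := by
  rcases x with ⟨_ | l, r⟩
  · simp [kv]
  · simp [kv]

private theorem se_some {B : Blk V m} (hp : SPar m g Q Z k q gl u s e c c1 Lam W S) {key : X × Option R → ℕ}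
    {a b : V → Option X × Option R} (hk : ∀ v, SK (Z * Q) (g + Q) u s c Q e (KK B key a v))
    (hb : SplSpec (g + Q) (Z * Q) u c s B key a b) {v : V} {x' : ℕ}
    (hx : sS (Z * Q) (g + Q) u c s (KK B key a v) (B.pos v) x') : (b v).1.isSome = true := by
  have h1 := (hb v).1 x' hx
  have h2 := (s_S_lt (hk v) _ _ hx).2.2
  rw [h1]
  exact (se_kv _).1 h2

private theorem se_ex {B : Blk V m} (hp : SPar m g Q Z k q gl u s e c c1 Lam W S) {key : X × Option R → ℕ}
    {a b : V → Option X × Option R} (hk : ∀ v, SK (Z * Q) (g + Q) u s c Q e (KK B key a v))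
    (hb : SplSpec (g + Q) (Z * Q) u c s B key a b) {v : V} (hv : (b v).1.isSome = true) :
    ∃ x', sS (Z * Q) (g + Q) u c s (KK B key a v) (B.pos v) x' ∧ b v = a (B.nd v x') ∧ x' < 2 ^ m ∧
      KK B key a v x' ≠ ⊤ := by
  by_cases h : ∃ x', sS (Z * Q) (g + Q) u c s (KK B key a v) (B.pos v) x'
  · obtain ⟨x', hx⟩ := h
    have h1 := s_S_lt (hk v) _ _ hx
    refine ⟨x', hx, (hb v).1 x' hx, ?_, h1.2.2⟩
    rw [hp.hm]
    exact h1.2.1
  · have h1 := (hb v).2 fun x' hx => h ⟨x', hx⟩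
    rw [h1] at hv
    exact absurd hv (by simp [emp])

theorem spl_same {B : Blk V m} (hp : SPar m g Q Z k q gl u s e c c1 Lam W S) {key : X × Option R → ℕ} {a b : V → Option X × Option R}
    (hk : ∀ v, SK (Z * Q) (g + Q) u s c Q e (KK B key a v)) (hb : SplSpec (g + Q) (Z * Q) u c s B key a b) : SameItems B a b := by
  constructor
  · intro v hv
    obtain ⟨x', h1, h2, h3, h4⟩ := se_ex hp hk hb hv
    exact ⟨B.nd v x', B.cls_nd v h3, h2⟩
  · intro y hy
    have h0 : KK B key a y (B.pos y) ≠ ⊤ := by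
      unfold KK
      rw [B.nd_pos]
      exact (se_kv _).2 hy
    have hlt : B.pos y < 2 ^ (g + Q + Z * Q) := by
      rw [← hp.hm]
      exact B.pos_lt y
    obtain ⟨x, hx⟩ := s_cover (hk y) (B.pos y) hlt h0
    have h1 : x < 2 ^ m := by
      rw [hp.hm]
      exact (s_S_lt (hk y) _ _ hx).1
    have hc := B.cls_nd y h1
    refine ⟨B.nd y x, hc, ?_⟩
    have h2 : sS (Z * Q) (g + Q) u c s (KK B key a (B.nd y x)) (B.pos (B.nd y x)) (B.pos y) := by
      rw [← KK_cls B key a hc, B.pos_nd y x h1]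
      exact hx
    rw [(hb _).1 _ h2, B.nd_of_cls hc (B.pos_lt y), B.nd_pos]

theorem spl_emp {B : Blk V m} (hp : SPar m g Q Z k q gl u s e c c1 Lam W S) {key : X × Option R → ℕ} {a b : V → Option X × Option R}
    (hk : ∀ v, SK (Z * Q) (g + Q) u s c Q e (KK B key a v)) (hb : SplSpec (g + Q) (Z * Q) u c s B key a b) (v : V)
    (hv : (b v).1 = none) : b v = emp := by
  refine (hb v).2 fun x' hx => ?_
  have h1 := se_some hp hk hb hx
  rw [hv] at h1
  exact absurd h1 (by simp)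

theorem spl_dist {B : Blk V m} (hp : SPar m g Q Z k q gl u s e c c1 Lam W S) {key : X × Option R → ℕ} {a b : V → Option X × Option R}
    (hk : ∀ v, SK (Z * Q) (g + Q) u s c Q e (KK B key a v)) (hb : SplSpec (g + Q) (Z * Q) u c s B key a b) : Dist B key b := by
  intro v y hc hv hy he
  obtain ⟨x1, p1, p2, p3, p4⟩ := se_ex hp hk hb hv
  obtain ⟨x2, q1, q2, q3, q4⟩ := se_ex hp hk hb hy
  rw [← KK_cls B key a hc] at q1 q4
  rw [B.nd_of_cls hc q3] at q2
  have e1 : KK B key a v x1 = KK B key a v x2 := by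
    unfold KK
    rw [← p2, ← q2]
    exact he
  have hm := hp.hm
  have h12 : x1 = x2 := (hk v).inj x1 x2 (by rwa [← hm]) (by rwa [← hm]) e1 p4
  subst h12
  exact B.eq_of_cls hc (s_S_uniq (hk v) _ _ x1 p1 q1)

theorem spl_incr {B : Blk V m} (hp : SPar m g Q Z k q gl u s e c c1 Lam W S) {key : X × Option R → ℕ} {a b : V → Option X × Option R}
    (hk : ∀ v, SK (Z * Q) (g + Q) u s c Q e (KK B key a v)) (hb : SplSpec (g + Q) (Z * Q) u c s B key a b) (h : 0 + (g + Q) ≤ m) :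
    Incr (B.bits 0 (g + Q) h) key b := by
  intro v y hc hlt hv hy
  rw [bits_cls] at hc
  obtain ⟨hc, hd, -⟩ := hc
  have hlt' : B.pos v / 2 ^ 0 % 2 ^ (g + Q) < B.pos y / 2 ^ 0 % 2 ^ (g + Q) := hlt
  rw [pow_zero, Nat.div_one, Nat.div_one] at hlt'
  rw [zero_add] at hd
  have h4 : B.pos v < B.pos y := by
    have e1 := Nat.div_add_mod (B.pos v) (2 ^ (g + Q))
    have e2 := Nat.div_add_mod (B.pos y) (2 ^ (g + Q))
    rw [hd] at e1
    omega
  obtain ⟨x1, p1, p2, p3, p4⟩ := se_ex hp hk hb hv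
  obtain ⟨x2, q1, q2, q3, q4⟩ := se_ex hp hk hb hy
  rw [← KK_cls B key a hc] at q1 q4
  rw [B.nd_of_cls hc q3] at q2
  have h5 := s_S_unit (hk v) _ _ x1 x2 p1 q1 hd h4
  rw [p2, q2]
  exact h5

theorem spl_region {B : Blk V m} (hp : SPar m g Q Z k q gl u s e c c1 Lam W S) {key : X × Option R → ℕ} {a b : V → Option X × Option R}
    (hk : ∀ v, SK (Z * Q) (g + Q) u s c Q e (KK B key a v)) (hb : SplSpec (g + Q) (Z * Q) u c s B key a b) (v v' : V)
    (hc : B.cls v v') (h : B.pos v / 2 ^ (g + Q + s) < B.pos v' / 2 ^ (g + Q + s)) (h1 : (b v).1.isSome) (h2 : (b v').1.isSome) :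
    kv key (b v) < kv key (b v') := by
  obtain ⟨x1, p1, p2, p3, p4⟩ := se_ex hp hk hb h1
  obtain ⟨x2, q1, q2, q3, q4⟩ := se_ex hp hk hb h2
  rw [← KK_cls B key a hc] at q1 q4
  rw [B.nd_of_cls hc q3] at q2
  have h5 := s_S_region _ _ x1 x2 p1 q1 h
  rw [p2, q2]
  exact h5

theorem spl_dens {B : Blk V m} (hp : SPar m g Q Z k q gl u s e c c1 Lam W S) {key : X × Option R → ℕ} {a b : V → Option X × Option R}
    (hk : ∀ v, SK (Z * Q) (g + Q) u s c Q e (KK B key a v)) (hb : SplSpec (g + Q) (Z * Q) u c s B key a b) (v : V) (i : ℕ)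
    (h1 : g + Q + Q ≤ i) (h2 : i ≤ g + Q + s) : 2 ^ Q * occ B (fun x => (b x).1.isSome) v i ≤ (e + 3) * 2 ^ i := by
  classical
  have hm := hp.hm
  have him : i ≤ m := by
    have := hp.hsz
    omega
  have hd := s_S_dens (hk v) i (B.pos v / 2 ^ i) h1 h2
  have hA : ∀ t, t < 2 ^ i → B.pos v / 2 ^ i * 2 ^ i + t < 2 ^ m := by
    intro t ht
    have e1 : B.pos v / 2 ^ i < 2 ^ (m - i) := by
      rw [Nat.div_lt_iff_lt_mul (by positivity), ← pow_add, Nat.sub_add_cancel him]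
      exact B.pos_lt v
    have e2 : (B.pos v / 2 ^ i + 1) * 2 ^ i ≤ 2 ^ (m - i) * 2 ^ i := Nat.mul_le_mul_right _ e1
    rw [← pow_add, Nat.sub_add_cancel him, add_mul, one_mul] at e2
    omega
  have hocc : occ B (fun x => (b x).1.isSome) v i ≤
      ((Finset.range (2 ^ (g + Q + Z * Q))).filter (fun x => x / 2 ^ i = B.pos v / 2 ^ i ∧
        ∃ x', sS (Z * Q) (g + Q) u c s (KK B key a v) x x')).card := by
    unfold occ
    refine Finset.card_le_card_of_injOn (fun t => B.pos v / 2 ^ i * 2 ^ i + t) ?_ ?_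
    · intro t ht
      rw [Finset.mem_coe, Finset.mem_filter, Finset.mem_range] at ht
      obtain ⟨ht, ho⟩ := ht
      have hx := hA t ht
      rw [Finset.mem_coe, Finset.mem_filter, Finset.mem_range]
      refine ⟨by rw [← hm]; exact hx, ?_, ?_⟩
      · show (B.pos v / 2 ^ i * 2 ^ i + t) / 2 ^ i = _
        rw [mul_comm, Nat.mul_add_div (by positivity), Nat.div_eq_of_lt ht, add_zero]
      · obtain ⟨x1, p1, p2, p3, p4⟩ := se_ex hp hk hb ho
        have hc := B.cls_nd v hx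
        rw [← KK_cls B key a hc, B.pos_nd v _ hx] at p1
        exact ⟨x1, p1⟩
    · intro t _ t' _ he
      have he' : B.pos v / 2 ^ i * 2 ^ i + t = B.pos v / 2 ^ i * 2 ^ i + t' := he
      omega
  have h3 := hocc.trans hd
  have hQi : Q ≤ i := by omega
  calc 2 ^ Q * occ B (fun x => (b x).1.isSome) v i ≤ 2 ^ Q * ((e + 3) * 2 ^ (i - Q)) := Nat.mul_le_mul_left _ h3
    _ = (e + 3) * (2 ^ Q * 2 ^ (i - Q)) := by ring
    _ = (e + 3) * 2 ^ i := by rw [← pow_add, Nat.add_sub_cancel' hQi]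

end Pool.Agent.H31.HS
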