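import Mathlib
import Pool.Agent.H31.HS.SE1
import Pool.Agent.H31.HS.PkF
import Pool.Agent.H31.HS.PkG
import Pool.Agent.H31.HS.Pack

/-!
# Split: the second recursion rule

`sk_of` gives `SK` for all classes and inputs; `sm_split`: array `c9` (`SplSpec`); `pack` for `Slot` (`lines_slot`; `Slot B hm = B.bits 0 (g+Q)` by definition): `c10`, cost `2*(gl+q)*r0`.
Regions: `Rg = B.bits 0 (g+Q+s)`.  Apply `hR` to `c10`: `Sm S` (items of `a`), `Dist Rg` (`pack_dist`, `spl_dist`; classes of `Rg` are contained in classes of `B`),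
`RunSorted Rg key (g+Q+s-s) c10` (`pack_run`, `spl_incr`; the same for `Rg` instead of `B`: `Rg`-numbers are `B`-numbers mod `2^(g+Q+s)`), `Dens Rg s Q (e+3)`: for `i = g+Q+s` or `i ≥ g+Q+s-s+Q`: `occ Rg = occ B` for `i ≤ g+Q+s`,
`pack_occ`, `spl_dens`.  Result `c11` with `SortSpec Rg c10 c11`.  `Incr B key c11`: same region: `SortSpec`; different regions: the items are items of `c9` in the same regions, `spl_region`.
`pack` for `B`: `b`, cost `2*n*r0`.  `SortSpec B a b`: items: `spl_same`, `pack_same`, `SortSpec`, `same_coarse`, `same_trans`; `pack_emp`; `RunSorted B key m`: `pack_run` with `i = m` (`bits_all`) and `Incr`.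
Costs: `60 n + 2 (gl+q) + 2 n ≤ 64 n` (`n = gl + q + Z*q` from `m = k*n`, `k ≥ 1`).
-/

set_option autoImplicit false

namespace Pool.Agent.H31.HS

variable {V Ω R : Type} {m g Q Z k n q gl r0 r ρ u s e c c1 Lam W S S2 cR : ℕ}

private theorem sl_n (hp : SPar m g Q Z k q gl u s e c c1 Lam W S) (hk : 1 ≤ k) (hm : m = k * n) : n = gl + q + Z * q := by
  have h1 := hp.hm
  have h2 := hp.hQ
  have h3 := hp.hg
  have h4 : k * n = k * (gl + q + Z * q) := by
    rw [← hm, h1, h3, h2]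
    ring
  exact Nat.eq_of_mul_eq_mul_left (by omega) h4

private theorem sl_cls (B : Blk V m) {i : ℕ} (h : 0 + i ≤ m) (v u : V) :
    (B.bits 0 i h).cls v u ↔ B.cls v u ∧ B.pos v / 2 ^ i = B.pos u / 2 ^ i := by
  rw [bits_cls]
  simp only [zero_add, pow_zero, Nat.mod_one, and_true]

private theorem sl_pos (B : Blk V m) {i : ℕ} (h : 0 + i ≤ m) (v : V) : (B.bits 0 i h).pos v = B.pos v % 2 ^ i := by
  show B.pos v / 2 ^ 0 % 2 ^ i = _
  rw [pow_zero, Nat.div_one]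

private theorem sl_num {x l i t : ℕ} (hi : i ≤ l) (ht : t < 2 ^ i) :
    x % 2 ^ l / 2 ^ i * 2 ^ i + t < 2 ^ l ∧ x / 2 ^ l * 2 ^ l + (x % 2 ^ l / 2 ^ i * 2 ^ i + t) = x / 2 ^ i * 2 ^ i + t := by
  have h1 : (2 : ℕ) ^ l = 2 ^ (l - i) * 2 ^ i := by
    rw [← pow_add]
    congr 1
    omega
  have h2 : x % 2 ^ l < 2 ^ l := Nat.mod_lt _ (by positivity)
  have h3 : x % 2 ^ l / 2 ^ i < 2 ^ (l - i) := by
    rw [Nat.div_lt_iff_lt_mul (by positivity), ← h1]
    exact h2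
  constructor
  · have h4 : (x % 2 ^ l / 2 ^ i + 1) * 2 ^ i ≤ 2 ^ (l - i) * 2 ^ i := Nat.mul_le_mul_right _ h3
    rw [← h1, add_mul, one_mul] at h4
    omega
  · have h5 : x / 2 ^ i = x / 2 ^ l * 2 ^ (l - i) + x % 2 ^ l / 2 ^ i := by
      have h6 := Nat.div_add_mod x (2 ^ l)
      have h7 : x = 2 ^ i * (x / 2 ^ l * 2 ^ (l - i)) + x % 2 ^ l := by
        conv_lhs => rw [← h6]
        congr 1
        rw [h1]
        ring
      have h8 : (2 ^ i * (x / 2 ^ l * 2 ^ (l - i)) + x % 2 ^ l) / 2 ^ i = x / 2 ^ l * 2 ^ (l - i) + x % 2 ^ l / 2 ^ i :=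
        Nat.mul_add_div (by positivity) _ _
      rw [← h7] at h8
      exact h8
    rw [h5, add_mul, mul_assoc, ← h1]
    ring

private theorem sl_occ (B : Blk V m) {l i : ℕ} (h : 0 + l ≤ m) (hi : i ≤ l) (o : V → Bool) (v : V) :
    occ (B.bits 0 l h) o v i = occ B o v i := by
  unfold occ
  congr 1
  refine Finset.filter_congr fun t ht => ?_
  have ht' : t < 2 ^ i := Finset.mem_range.1 ht
  rw [sl_pos B h v]
  obtain ⟨h1, h2⟩ := sl_num (x := B.pos v) hi ht'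
  have h3 : (B.bits 0 l h).nd v (B.pos v % 2 ^ l / 2 ^ i * 2 ^ i + t) = B.nd v (B.pos v / 2 ^ i * 2 ^ i + t) := by
    show B.nd v (Blk.rep 0 l (B.pos v) ((B.pos v % 2 ^ l / 2 ^ i * 2 ^ i + t) % 2 ^ l)) = _
    rw [Nat.mod_eq_of_lt h1]
    congr 1
    unfold Blk.rep
    rw [zero_add, pow_zero, Nat.mod_one, mul_one, add_zero, h2]
  rw [h3]

private theorem sl_lt {a b N : ℕ} (h : a / N = b / N) : a % N < b % N ↔ a < b := by
  have h1 := Nat.div_add_mod a N
  have h2 := Nat.div_add_mod b N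
  rw [h] at h1
  constructor
  · intro h3
    omega
  · intro h3
    omega

private theorem sl_div {a b x y : ℕ} (h : a / 2 ^ (x + y) = b / 2 ^ (x + y)) (h' : a % 2 ^ (x + y) / 2 ^ x = b % 2 ^ (x + y) / 2 ^ x) :
    a / 2 ^ x = b / 2 ^ x := by
  have h1 : ∀ z : ℕ, z / 2 ^ x = 2 ^ y * (z / 2 ^ (x + y)) + z % 2 ^ (x + y) / 2 ^ x := by
    intro z
    rw [pow_add, Nat.mod_mul_right_div_self, ← Nat.div_div_eq_div_mul, Nat.div_add_mod]
  rw [h1 a, h1 b, h, h']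

private theorem sl_sm {X : Type} {S : ℕ} {a b : V → Ω → Option X × Option R} (h : Sm S a)
    (hb : ∀ w v, (b v w).1.isSome → ∃ u, b v w = a u w) : Sm S b := by
  refine h.of_range fun v w => ?_
  by_cases h1 : (b v w).1.isSome = true
  · obtain ⟨u, hu⟩ := hb w v h1
    exact Or.inr ⟨u, w, hu⟩
  · left
    rcases h2 : (b v w).1 with _ | x
    · rfl
    · rw [h2] at h1
      exact absurd rfl h1

private theorem sl_incr {X : Type} {B : Blk V m} {key : X × Option R → ℕ} {c9 c10 c11 : V → Option X × Option R}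
    (h : 0 + (g + Q + s) ≤ m) (h' : 0 + (g + Q) ≤ m)
    (hreg : ∀ v v', B.cls v v' → B.pos v / 2 ^ (g + Q + s) < B.pos v' / 2 ^ (g + Q + s) → (c9 v).1.isSome → (c9 v').1.isSome →
      kv key (c9 v) < kv key (c9 v'))
    (hP : SameItems (B.bits 0 (g + Q) h') c9 c10) (hS : SortSpec (B.bits 0 (g + Q + s) h) key c10 c11) : Incr B key c11 := by
  intro v x hc hlt hv hx
  have hle : B.pos v / 2 ^ (g + Q + s) ≤ B.pos x / 2 ^ (g + Q + s) := Nat.div_le_div_right hlt.le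
  rcases Nat.lt_or_ge (B.pos v / 2 ^ (g + Q + s)) (B.pos x / 2 ^ (g + Q + s)) with h1 | h1
  · have key2 : ∀ y, (c11 y).1.isSome → ∃ y2, B.cls y y2 ∧ B.pos y / 2 ^ (g + Q + s) = B.pos y2 / 2 ^ (g + Q + s) ∧
        c11 y = c9 y2 := by
      intro y hy
      obtain ⟨y1, r1, r2⟩ := hS.1 y hy
      rw [r2] at hy
      obtain ⟨y2, r3, r4⟩ := hP.1 y1 hy
      rw [sl_cls] at r1 r3
      refine ⟨y2, B.cls_trans r1.1 r3.1, ?_, r2.trans r4⟩
      rw [r1.2, pow_add, ← Nat.div_div_eq_div_mul, ← Nat.div_div_eq_div_mul, r3.2]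
    obtain ⟨v2, q1, q2, q3⟩ := key2 v hv
    obtain ⟨x2, q4, q5, q6⟩ := key2 x hx
    rw [q3, q6]
    rw [q3] at hv
    rw [q6] at hx
    exact hreg v2 x2 (B.cls_trans (B.cls_symm q1) (B.cls_trans hc q4)) (by rw [← q2, ← q5]; exact h1) hv hx
  · have h2 : B.pos v / 2 ^ (g + Q + s) = B.pos x / 2 ^ (g + Q + s) := le_antisymm hle h1
    refine hS.2.2.2 v x ((sl_cls B h v x).2 ⟨hc, h2⟩) ?_ ?_ hx
    · rw [Nat.div_eq_of_lt (Blk.pos_lt _ _), Nat.div_eq_of_lt (Blk.pos_lt _ _)]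
    · rw [sl_pos, sl_pos]
      exact (sl_lt h2).2 hlt

theorem split {M : Mach V Ω R} {B : Blk V m} (hp : SPar m g Q Z k q gl u s e c c1 Lam W S) (hL : Lines M Lam B k n r0)
    (hr : r = k * ρ) (hgr : 2 * (Z * Q) + r ≤ g) (hb : r + (m - r) ≤ m) (hb0 : 0 + r ≤ m) (hm' : m - r = g - r + Q + Z * Q)
    (hPS : ∀ jj (hj : jj < Z), CanR M (S * W ^ 4) (Pln (B.bits r (m - r) hb) hm' jj hj) (B.bits 0 r hb0)
      (fun o => RevPat (Bal (B.bits r (m - r) hb) hm') c1 o) S2)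
    (h : 0 + (g + Q + s) ≤ m) (hR : CanM M S (B.bits 0 (g + Q + s) h) s Q (e + 3) cR) :
    CanM M S B u Q e (Z * S2 + 64 * n * r0 + cR) := by
  intro X key P a hK hs ha hd hrun hD
  have hn := sl_n hp hL.hk hL.hm
  have hW1 : 1 ≤ W := by
    have h4 := hp.hW
    have h5 : 1 ≤ 2 ^ m := Nat.one_le_two_pow
    omega
  have hl2 : S * W ^ 2 ≤ Lam :=
    (Nat.mul_le_mul_left S (Nat.pow_le_pow_right hW1 (by norm_num))).trans hp.hl
  have hgQ : 0 + (g + Q) ≤ m := by omega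
  have hcost : (Z * S2 + 60 * n * r0) + (2 * (gl + q) * r0 + (cR + 2 * n * r0)) ≤ Z * S2 + 64 * n * r0 + cR := by
    have h4 : 2 * (gl + q) ≤ 2 * n := by omega
    have h5 := Nat.mul_le_mul_right r0 h4
    have e1 : 64 * n * r0 = 60 * n * r0 + 2 * n * r0 + 2 * n * r0 := by ring
    rw [e1]
    omega
  have hk : ∀ w v, SK (Z * Q) (g + Q) u s c Q e (KK B (key w) (fun x => a x w) v) :=
    fun w v => sk_of hp (hd w) (hrun w) (hD w) v
  refine Mach.Do.mono (Mach.Do.bind (sm_split hp hL hr hgr hb hb0 hm' hPS hK P a hs ha hk) ?_) hcost (fun _ _ h => h)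
  rintro P1 hP1 ⟨c9, hc9, hS9⟩
  have hsame9 : ∀ w, SameItems B (fun v => a v w) (fun v => c9 v w) := fun w => spl_same hp (hk w) (hS9 w)
  have hs9 : Sm S c9 := sl_sm hs fun w v hv => by
    obtain ⟨x, -, h2⟩ := (hsame9 w).1 v hv
    exact ⟨x, h2⟩
  refine Mach.Do.bind (pack (lines_slot hp.hm hL hp.hQ hp.hg)
    (lt_of_le_of_lt (Nat.pow_le_pow_right (by norm_num) (by omega)) hp.hW) hp.hS hl2 P1 c9 hs9 hc9) ?_
  rintro P2 hP2 ⟨c10, hc10, hP10⟩
  have hP10' : ∀ w, PackSpec (B.bits 0 (g + Q) hgQ) (fun v => c9 v w) (fun v => c10 v w) := hP10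
  have hsame10 : ∀ w, SameItems (B.bits 0 (g + Q) hgQ) (fun v => c9 v w) (fun v => c10 v w) := fun w => pack_same (hP10' w)
  have hs10 : Sm S c10 := sl_sm hs9 fun w v hv => by
    obtain ⟨x, -, h2⟩ := (hsame10 w).1 v hv
    exact ⟨x, h2⟩
  have hQs : Q ≤ s := by
    have := hp.hus
    omega
  have hsub : ∀ v x, (B.bits 0 (g + Q + s) h).cls v x → B.cls v x := fun v x hc => ((sl_cls B h v x).1 hc).1
  have hdist : ∀ w, Dist (B.bits 0 (g + Q + s) h) (key w) (fun v => c10 v w) := by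
    intro w v x hc h1 h2 h3
    exact pack_dist hgQ (hP10' w) (spl_dist hp (hk w) (hS9 w)) v x (hsub v x hc) h1 h2 h3
  have hrun10 : ∀ w, RunSorted (B.bits 0 (g + Q + s) h) (key w) (g + Q + s - s) (fun v => c10 v w) := by
    intro w v x hc h1 h2 h3
    have h4 : g + Q + s - s = g + Q := by omega
    rw [h4] at h1
    obtain ⟨h5, h6⟩ := (sl_cls B h v x).1 hc
    rw [sl_pos, sl_pos] at h1 h2
    exact pack_run hgQ (hP10' w) (spl_incr hp (hk w) (hS9 w) hgQ) v x h5 (sl_div h6 h1) ((sl_lt h6).1 h2) h3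
  have hdens10 : ∀ w, Dens (B.bits 0 (g + Q + s) h) s Q (e + 3) (fun v => (c10 v w).1.isSome) := by
    intro w v i h1 h2
    have h3 : g + Q + Q ≤ i := by omega
    rw [sl_occ B h h1, pack_occ hgQ (by omega : g + Q ≤ i) (by omega : i ≤ m) (hP10' w) v]
    exact spl_dens hp (hk w) (hS9 w) v i h3 h1
  refine Mach.Do.bind (hR X key P2 c10 hK hs10 hc10 hdist hrun10 hdens10) ?_
  rintro P3 hP3 ⟨c11, hc11, hS11⟩
  have hsame11 : ∀ w, SameItems (B.bits 0 (g + Q + s) h) (fun v => c10 v w) (fun v => c11 v w) := fun w =>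
    ⟨(hS11 w).1, (hS11 w).2.1⟩
  have hs11 : Sm S c11 := sl_sm hs10 fun w v hv => by
    obtain ⟨x, -, h2⟩ := (hsame11 w).1 v hv
    exact ⟨x, h2⟩
  refine Mach.Do.mono (pack hL hp.hW hp.hS hl2 P3 c11 hs11 hc11) le_rfl ?_
  rintro P4 hP4 ⟨b, hbb, hPb⟩
  refine ⟨b, hbb, fun w => ?_⟩
  have hsame : SameItems B (fun v => a v w) (fun v => b v w) :=
    same_trans (same_trans (same_trans (hsame9 w) (same_coarse hgQ (hsame10 w))) (same_coarse h (hsame11 w)))
      (pack_same (hPb w))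
  have hincr : Incr B (key w) (fun v => c11 v w) :=
    sl_incr h hgQ (fun v v' hc h1 h2 h3 => spl_region hp (hk w) (hS9 w) v v' hc h1 h2 h3) (hsame10 w) (hS11 w)
  refine ⟨hsame.1, hsame.2, fun v hv => pack_emp (hPb w) v hv, ?_⟩
  have h0 : 0 + m ≤ m := by omega
  have hall := bits_all B h0
  have h1 : PackSpec (B.bits 0 m h0) (fun v => c11 v w) (fun v => b v w) := by
    rw [hall]
    exact hPb w
  have h2 : Incr (B.bits 0 m h0) (key w) (fun v => c11 v w) := by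
    rw [hall]
    exact hincr
  exact pack_run h0 h1 h2

end Pool.Agent.H31.HS
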