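import Mathlib
import Pool.Agent.H31.HS.Split
import Pool.Agent.H31.HS.PS4
import Pool.Agent.H22.HC.SpSt

/-!
# SplitK: the second recursion rule in the two forms used by the recursion

Common: `r = 5 Q` replica bits, `z = zS m Q`, `Z = z / Q` (`Q ∣ z`, `zS_spec`), `g = m - Q - z`, `c1 = 4`, `s = sS m u Q`, `g + Q + s = yS m u Q` (`sS_spec`, `yS_spec`), `c = e * 2^(s-Q) + 2^(u+s-z)`.
`SPar`: `2 * z + 5 Q ≤ g` (`3 z + 6 Q ≤ m`), `u + Q ≤ s`, `s ≤ z`, `u + Q ≤ z` (`6 u ≤ m`, `120 Q ≤ m`, `m < 3 z + 9 Q`), `2^(4+4) * (e+3) ≤ 2^Q`.  `split` with `e + 3`; `CanM` with `e + 4` implies `CanM` with `e + 3`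
(`canM_mono`: the density hypothesis is stronger).
`SplitKR`: planes `Pln (B.bits r (m-r) _) hm' jj hj`: `ps_sort` with lines from `lines_pln` (for `B' = B.bits r (m-r)`, `lines_bits`), `RB = B.bits 0 r` (`lines_bits`), commutation `comm_pln`, `comm_bits_bits`; `pat_occ` (`pln_low`):
`CanR .. (RevPat ..)` from `CanR .. (occ ..)` (`canR_pat`).  `S` is `S * W^4` there: `S * W^4 * W^8 ≤ Lam`.  `Z * (C q r0) = C (Z q) r0 ≤ C n r0`.
`SplitOR`: `Pln (B.bits r (m-r) _) hm' jj hj` is `Blk.prod (B.bits j Q _) (B.bits i Q _) _` with `j = r + (g - r + Q + jj * Q)`, `i = r + (g - r)` (`bits_bits`; `Blk.prod` of equal blocks), `CanS.canR`, `CanS` for `S * W^12` implies `CanS`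
for `S * W^4` (`Sm.mono`).
-/

set_option autoImplicit false

namespace Pool.Agent.H31.HS

open Pool.Agent.H22.HC

theorem canM_mono {V Ω R : Type} {m S u Q e e' c c' : ℕ} {M : Mach V Ω R} {B : Blk V m} (h : CanM M S B u Q e c) (he : e' ≤ e) (hc : c ≤ c') :
    CanM M S B u Q e' c' := by
  intro X key P a h1 h2 h3 h4 h5 h6
  refine (h X key P a h1 h2 h3 h4 h5 (fun w v i hi hi2 => (h6 w v i hi hi2).trans (Nat.mul_le_mul_right _ he))).mono hc
    (fun _ _ h7 => h7)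

theorem canR_pat {V Ω R : Type} {l r S c : ℕ} {M : Mach V Ω R} {PL : Blk V l} {RB : Blk V r} {D D' : (V → Bool) → Prop}
    (h : CanR M S PL RB D c) (hD : ∀ o, D' o → D o) : CanR M S PL RB D' c := by
  intro X κ P a h1 h2 h3 h4 h5
  exact h X κ P a h1 h2 h3 (fun w => hD _ (h4 w)) h5

private theorem spk_cast {V : Type} {m : ℕ} (B : Blk V m) {y y' : ℕ} (e : y = y') (h : 0 + y ≤ m) (h' : 0 + y' ≤ m) {Ω R : Type}
    {M : Mach V Ω R} {S s Q e0 c : ℕ} (hM : CanM M S (B.bits 0 y h) s Q e0 c) : CanM M S (B.bits 0 y' h') s Q e0 c := by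
  subst e
  exact hM

private theorem spk_prod {V : Type} {m l : ℕ} {BS BS' : Blk V m} {BE BE' : Blk V l} (h1 : BS = BS') (h2 : BE = BE')
    (h : Blk.Comm BS BE) (h' : Blk.Comm BS' BE') : Blk.prod BS BE h = Blk.prod BS' BE' h' := by
  subst h1 h2
  rfl

private theorem spk_lines {V Ω R : Type} {m Lam k n r0 : ℕ} {M : Mach V Ω R} {B : Blk V m} (hL : Lines M Lam B k n r0) {i l a c : ℕ}
    (h : i + l ≤ m) (hi : i = k * a) (hl : l = k * c) (hac : a + c ≤ n) : Lines M Lam (B.bits i l h) k c r0 := by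
  subst hi hl
  exact lines_bits hL hac h

private theorem spk_common {V Ω R : Type} {m : ℕ} {M : Mach V Ω R} {S W Lam k n r0 Q e u cc S2 : ℕ} {B : Blk V m}
    (hL : Lines M Lam B k n r0) (hkQ : k ∣ Q) (hQ1 : 1 ≤ Q) (hW : 2 ^ m < W) (hS : 1 ≤ S) (hl : S * W ^ 20 ≤ Lam) (hu : Q ≤ u)
    (h6 : 6 * u ≤ m) (h120 : 120 * Q ≤ m) (hG : 2 ^ 4 * (m + 2) ≤ 2 ^ Q) (he : 2 ^ 8 * (e + 4) ≤ 2 ^ Q)
    (hPS : ∀ (q gl Z g : ℕ), Q = k * q → g = k * gl → Z * Q = zS m Q → m = k * n → m = g + Q + Z * Q → 5 * Q ≤ g →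
      ∀ (hb : 5 * Q + (m - 5 * Q) ≤ m) (hb0 : 0 + 5 * Q ≤ m) (hm' : m - 5 * Q = g - 5 * Q + Q + Z * Q) (jj : ℕ) (hj : jj < Z),
        CanR M (S * W ^ 4) (Pln (B.bits (5 * Q) (m - 5 * Q) hb) hm' jj hj) (B.bits 0 (5 * Q) hb0)
          (fun o => RevPat (Bal (B.bits (5 * Q) (m - 5 * Q) hb) hm') 4 o) S2)
    (h : 0 + yS m u Q ≤ m) (hM : CanM M S (B.bits 0 (yS m u Q) h) (Pool.Agent.H22.HC.sS m u Q) Q (e + 4) cc) :
    CanM M S B u Q e (zS m Q / Q * S2 + 64 * n * r0 + cc) := by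
  obtain ⟨z1, z2, z3⟩ := zS_spec hQ1 (by omega : 6 * Q ≤ m)
  obtain ⟨y1, y2, y3, y4, y5⟩ := yS_spec hQ1 h6 h120
  obtain ⟨s1, s2, s3, s4⟩ := sS_spec hQ1 h6 h120
  obtain ⟨q, hq⟩ := hkQ
  have hmn := hL.hm
  have hk := hL.hk
  have hZ : zS m Q / Q * Q = zS m Q := Nat.div_mul_cancel z3
  have hW1 : 1 ≤ W := by
    have : 1 ≤ 2 ^ m := Nat.one_le_two_pow
    omega
  have hnq : q + zS m Q / Q * q ≤ n := by
    have h1 : k * (q + zS m Q / Q * q) ≤ k * n := by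
      have h2 : k * (q + zS m Q / Q * q) = k * q + zS m Q / Q * (k * q) := by ring
      rw [h2, ← hq, hZ, ← hmn]
      omega
    exact Nat.le_of_mul_le_mul_left h1 hk
  have hg : m - Q - zS m Q = k * (n - q - zS m Q / Q * q) := by
    have h1 : n - q - zS m Q / Q * q = n - (q + zS m Q / Q * q) := by omega
    have h2 : k * (q + zS m Q / Q * q) = Q + zS m Q := by
      have h3 : k * (q + zS m Q / Q * q) = k * q + zS m Q / Q * (k * q) := by ring
      rw [h3, ← hq, hZ]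
    rw [h1, Nat.mul_sub, h2, ← hmn]
    omega
  have hp : SPar m (m - Q - zS m Q) Q (zS m Q / Q) k q (n - q - zS m Q / Q * q) u (Pool.Agent.H22.HC.sS m u Q) e
      (e * 2 ^ (Pool.Agent.H22.HC.sS m u Q - Q) + 2 ^ (u + Pool.Agent.H22.HC.sS m u Q - zS m Q / Q * Q)) 4 Lam W S := by
    refine ⟨?_, hq, hg, ?_, ?_, hG, hW, hS, ?_, hu, s1, ?_, ?_, rfl, ?_⟩
    · rw [hZ]
      omega
    · rw [Nat.le_div_iff_mul_le (by omega)]
      omega
    · rw [hZ]
      omega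
    · exact (Nat.mul_le_mul_left S (Nat.pow_le_pow_right hW1 (by norm_num))).trans hl
    · rw [hZ]
      omega
    · rw [hZ]
      omega
    · have h3 : 2 ^ (4 + 4) * (e + 3) ≤ 2 ^ 8 * (e + 4) := Nat.mul_le_mul_left _ (by omega)
      exact h3.trans he
  have hm' : m - 5 * Q = m - Q - zS m Q - 5 * Q + Q + zS m Q / Q * Q := by
    rw [hZ]
    omega
  have hy : yS m u Q = m - Q - zS m Q + Q + Pool.Agent.H22.HC.sS m u Q := by omega
  exact split hp hL (r := 5 * Q) (ρ := 5 * q) (by rw [hq]; ring) (by rw [hZ]; omega) (by omega) (by omega) hm'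
    (fun jj hj => hPS q (n - q - zS m Q / Q * q) (zS m Q / Q) (m - Q - zS m Q) hq hg hZ hmn (by rw [hZ]; omega) (by omega) _ _ hm' jj hj)
    (by omega) (canM_mono (spk_cast B hy h (by omega) hM) (by omega) le_rfl)

theorem splitKR : ∃ c0 : ℕ, SplitKR c0 := by
  obtain ⟨C, hC⟩ := ps_sort
  refine ⟨C + 64, ?_⟩
  intro V Ω R m M S W Lam k n r0 Q e u cc B hL hk4 hkQ h7 hW hS hl hu h6 h120 hG he h hM
  have hQ10 : 10 ≤ Q := by
    by_contra hlt
    have h1 : 2 ^ Q ≤ 2 ^ 9 := Nat.pow_le_pow_right (by norm_num) (by omega)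
    have h2 : 2 ^ 8 * 4 ≤ 2 ^ 8 * (e + 4) := Nat.mul_le_mul_left _ (by omega)
    have h3 := h2.trans (he.trans h1)
    norm_num at h3
  have hW1 : 1 ≤ W := by
    have : 1 ≤ 2 ^ m := Nat.one_le_two_pow
    omega
  obtain ⟨q0, hq0⟩ := hkQ
  have key := spk_common (S2 := C * q0 * r0) hL ⟨q0, hq0⟩ (by omega) hW hS hl hu h6 h120 hG he (by
    intro q gl Z g hq hg hZ hmn hmg hg5 hb hb0 hm' jj hj
    have hqq : q = q0 := Nat.eq_of_mul_eq_mul_left hL.hk (hq.symm.trans hq0)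
    subst hqq
    have hq1 : 1 ≤ q := by
      rcases Nat.eq_zero_or_pos q with h0 | h0
      · rw [h0, mul_zero] at hq
        omega
      · exact h0
    have h5n : 5 * q ≤ n := by
      have h1 : k * (5 * q) ≤ k * n := by
        rw [← hmn]
        have h2 : k * (5 * q) = 5 * (k * q) := by ring
        rw [h2, ← hq]
        omega
      exact Nat.le_of_mul_le_mul_left h1 hL.hk
    have e5 : 5 * Q = k * (5 * q) := by rw [hq]; ring
    have emr : m - 5 * Q = k * (n - 5 * q) := by rw [Nat.mul_sub, ← hmn, ← e5]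
    have hLB : Lines M Lam (B.bits (5 * Q) (m - 5 * Q) hb) k (n - 5 * q) r0 := spk_lines hL hb e5 emr (by omega)
    have hLR : Lines M Lam (B.bits 0 (5 * Q) hb0) k (5 * q) r0 := spk_lines hL hb0 (a := 0) (by rw [mul_zero]) e5 (by omega)
    have hcomm : Blk.Comm (B.bits (5 * Q) (m - 5 * Q) hb) (B.bits 0 (5 * Q) hb0) := comm_bits_bits B hb0 hb (by omega)
    have hgl : g - 5 * Q = k * (gl - 5 * q) := by rw [Nat.mul_sub, ← hg, ← e5]
    have hs1 : 1 ≤ S * W ^ 4 := Nat.mul_pos hS (Nat.pos_of_ne_zero (by positivity))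
    have hs2 : S * W ^ 4 * W ^ 8 ≤ Lam := by
      have h1 : S * W ^ 4 * W ^ 8 = S * W ^ 12 := by ring
      rw [h1]
      exact (Nat.mul_le_mul_left S (Nat.pow_le_pow_right hW1 (by norm_num))).trans hl
    have hs3 : 2 ^ (7 * Q) < W := lt_of_le_of_lt (Nat.pow_le_pow_right (by norm_num) (by omega)) hW
    refine canR_pat (hC (PL := Pln (B.bits (5 * Q) (m - 5 * Q) hb) hm' jj hj) (RB := B.bits 0 (5 * Q) hb0)
      (comm_pln _ hm' hcomm jj hj) hq hk4 hL.hk hq1 h7 (lines_pln hm' hLB hq hgl jj hj) hLR hs3 hs1 hs2) ?_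
    intro o ho v
    refine pat_occ (by omega) (by omega : 0 + Q ≤ Q + Q) ?_ v
    rw [pln_low]
    exact ho) h hM
  refine canM_mono key le_rfl ?_
  have hZq : zS m Q / Q * q0 ≤ n := by
    obtain ⟨z1, z2, z3⟩ := zS_spec (by omega : 1 ≤ Q) (by omega : 6 * Q ≤ m)
    have h1 : k * (zS m Q / Q * q0) ≤ k * n := by
      have h2 : k * (zS m Q / Q * q0) = zS m Q / Q * (k * q0) := by ring
      rw [h2, ← hq0, Nat.div_mul_cancel z3, ← hL.hm]
      omega
    exact Nat.le_of_mul_le_mul_left h1 hL.hk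
  have h1 : zS m Q / Q * (C * q0 * r0) = C * (zS m Q / Q * q0) * r0 := by ring
  have h2 : C * (zS m Q / Q * q0) * r0 ≤ C * n * r0 := Nat.mul_le_mul_right _ (Nat.mul_le_mul_left _ hZq)
  have h3 : (C + 64) * n * r0 = C * n * r0 + 64 * n * r0 := by ring
  rw [h1, h3]
  omega

theorem splitOR : ∃ c0 : ℕ, SplitOR c0 := by
  refine ⟨64, ?_⟩
  intro V Ω R m M S W Lam k n r0 Q e u S2 cc B hL hkQ hQ1 hW hS hl hu h6 h120 hG he hPl h hM
  have hW1 : 1 ≤ W := by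
    have : 1 ≤ 2 ^ m := Nat.one_le_two_pow
    omega
  have key := spk_common (S2 := S2) hL hkQ hQ1 hW hS hl hu h6 h120 hG he (by
    intro q gl Z g hq hg hZ hmn hmg hg5 hb hb0 hm' jj hj
    have hZ1 : jj * Q + Q ≤ Z * Q := chunk_le hj
    have i1 : 5 * Q + (g - 5 * Q) + Q ≤ m := by omega
    have j1 : 5 * Q + (g - 5 * Q + Q + jj * Q) + Q ≤ m := by omega
    have hij : 5 * Q + (g - 5 * Q) + Q ≤ 5 * Q + (g - 5 * Q + Q + jj * Q) := by omega
    have hcs := hPl _ _ i1 j1 hij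
    have hpl : Pln (B.bits (5 * Q) (m - 5 * Q) hb) hm' jj hj =
        Blk.prod (B.bits (5 * Q + (g - 5 * Q + Q + jj * Q)) Q j1) (B.bits (5 * Q + (g - 5 * Q)) Q i1)
          (comm_bits_bits B i1 j1 hij) := by
      unfold Pln
      exact spk_prod (bits_bits B hb (by omega) j1) (bits_bits B hb (by omega) i1) _ _
    rw [hpl]
    refine CanS.canR (canS_pat ?_)
    intro X key P a c1 c2 c3 c4 c5
    exact hcs X key P a c1 (c2.mono (Nat.mul_le_mul_left S (Nat.pow_le_pow_right hW1 (by norm_num)))) c3 c4 c5) h hM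
  refine canM_mono key le_rfl ?_
  omega

end Pool.Agent.H31.HS
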